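import Mathlib
import Pool.Graph.R_pool_sql_team_seeded_64922ed1.X30.MaierW

/-! # The combination of the sifted densities at several scales

The first half of the proof of `Pool.Agent.X30.MWW.main3`, as a separate statement. -/

set_option autoImplicit false

open Finset Filter Topology
open Pool.Agent.H378R2 Pool.Agent.H510R2.Maier Pool.Agent.X30.MR Pool.Agent.X30.MG Pool.Agent.X30.MH
open Pool.Agent.X30.MI Pool.Agent.X30.MT Pool.Agent.X30.MV Pool.Agent.X30.MWW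

namespace Pool.Agent.H569.CT

set_option maxHeartbeats 4000000 in
theorem combo {ι : Type*} (I : Finset ι) (B c : ι → ℝ) (hB : ∀ i ∈ I, 0 < B i)
    (hinj : ∀ i ∈ I, ∀ j ∈ I, i ≠ j → B i ≠ B j) (hc : ∃ i ∈ I, c i ≠ 0) (hsum : ∑ i ∈ I, c i = 0)
    (ε : ℝ) (hε : 0 < ε) : ∃ δ a b : ℝ, 0 < δ ∧ 0 < a ∧ a < b ∧ b < 1 ∧ b < ε ∧ ∀ᶠ X : ℝ in atTop,
      ∀ (S : Finset ℕ) (ps : ℕ), GoodS X S →
        1 / 2 ≤ BE (PR X S ps ⌊(Real.log X) ^ a⌋₊ ⌊(Real.log X) ^ b⌋₊) ∧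
        δ ≤ ∑ i ∈ I, c i * ((VV (∏ p ∈ PR X S ps ⌊(Real.log X) ^ a⌋₊ ⌊(Real.log X) ^ b⌋₊, p) 0
          ⌊(Real.log X) ^ B i⌋₊ : ℝ) / (Real.log X) ^ B i) := by
  classical
  -- restrict to the support of `c`
  set J := I.filter (fun i => c i ≠ 0) with hJ
  have hJI : J ⊆ I := Finset.filter_subset _ _
  have hJne : J.Nonempty := by
    obtain ⟨i, hi, h⟩ := hc
    exact ⟨i, Finset.mem_filter.2 ⟨hi, h⟩⟩
  have hJsum : ∀ f : ι → ℝ, ∑ i ∈ J, c i * f i = ∑ i ∈ I, c i * f i := by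
    intro f
    apply Finset.sum_subset hJI
    intro i hi hni
    have : c i = 0 := by
      by_contra h
      exact hni (Finset.mem_filter.2 ⟨hi, h⟩)
    rw [this, zero_mul]
  have hJsum0 : ∑ i ∈ J, c i = 0 := by
    have := hJsum (fun _ => 1)
    simp only [mul_one] at this
    rw [this, hsum]
  obtain ⟨i0, hi0, hmin'⟩ := Finset.exists_min_image J B hJne
  have hmin : ∀ i ∈ J, i ≠ i0 → B i0 < B i := fun i hi hne =>
    lt_of_le_of_ne (hmin' i hi) (hinj i0 (hJI hi0) i (hJI hi) (Ne.symm hne))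
  have hBJ : ∀ i ∈ J, 0 < B i := fun i hi => hB i (hJI hi)
  have hci0 : c i0 ≠ 0 := (Finset.mem_filter.1 hi0).2
  set par : ℕ := if 0 < c i0 then 0 else 1 with hpar
  set ε' : ℝ := min ε 1 with hε'
  have hε'0 : 0 < ε' := by positivity
  obtain ⟨a, k, ha0, haε, hkpar, hk, hk'⟩ := choose_scale J B i0 hi0 hBJ hmin ε' hε'0 par
  have hsign : c i0 * (-1) ^ (k i0) = |c i0| := by
    by_cases h : 0 < c i0
    · have h1 : par = 0 := by rw [hpar, if_pos h]
      have h2 : Even (k i0) := by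
        rw [Nat.even_iff]; rw [h1] at hkpar; simpa using hkpar
      rw [h2.neg_one_pow, mul_one, abs_of_pos h]
    · have h1 : par = 1 := by rw [hpar, if_neg h]
      have h2 : Odd (k i0) := by
        rw [Nat.odd_iff]; omega
      rw [h2.neg_one_pow, abs_of_neg (lt_of_le_of_ne (not_lt.1 h) hci0)]
      ring
  set m := k i0 with hm
  set C : ℝ := ∑ i ∈ J, |c i| with hC
  have hCi0 : |c i0| ≤ C := Finset.single_le_sum (f := fun i => |c i|) (fun i _ => abs_nonneg _) hi0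
  have hci0' : 0 < |c i0| := abs_pos.2 hci0
  have hC0 : 0 < C := lt_of_lt_of_le hci0' hCi0
  -- size of the block
  set G : ℝ := |c i0| * (1 / (4 * ((m : ℝ) + 1))) ^ (m + 1) / 2 with hG
  have hG0 : 0 < G := by positivity
  obtain ⟨b, hab, hbε, hkb, hlr⟩ := choose_right J B k a ha0 ε' (min (1 / 4) (G / (2 * C * 2 ^ (m + 2)))) haε
    (by positivity) (fun i hi => (hk i hi).1)
  have hb0 : 0 < b := ha0.trans hab
  set lr := Real.log (b / a) with hlrdef
  have hlr0 : 0 < lr := Real.log_pos (by rw [one_lt_div ha0]; exact hab)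
  have hlr1 : lr ≤ 1 / 4 := hlr.trans (min_le_left _ _)
  have hlr2 : 2 * (C * 2 ^ (m + 2)) * lr ≤ G := by
    have := hlr.trans (min_le_right _ _)
    rw [le_div_iff₀ (by positivity)] at this
    linarith
  set δ0 : ℝ := G * lr ^ (m + 1) / 2 with hδ0
  have hδ00 : 0 < δ0 := by positivity
  have hlog : Tendsto Real.log atTop atTop := Real.tendsto_log_atTop
  have hb1 : b < 1 := hbε.trans_le (min_le_right _ _)
  have hbε1 : b < ε := hbε.trans_le (min_le_left _ _)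
  refine ⟨3 / 4 * δ0, a, b, by positivity, ha0, hab, hb1, hbε1, ?_⟩
  set lam : ℝ := lr / (4 * (m + 1)) with hlam
  have hlam0 : 0 < lam := by positivity
  have hlam1 : lam ≤ 1 := by
    rw [hlam, div_le_one (by positivity)]
    have : (0 : ℝ) ≤ m := Nat.cast_nonneg _
    linarith
  have e1 : ∀ᶠ X : ℝ in atTop, ∀ i ∈ J, ∀ (S : Finset ℕ) (ps : ℕ), GoodS X S →
      |(VV (∏ p ∈ PR X S ps ⌊(Real.log X) ^ a⌋₊ ⌊(Real.log X) ^ b⌋₊, p) 0 (Yc (B i) 0 (Real.log X)) : ℝ) /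
          (Real.log X) ^ B i -
        Pool.Agent.X30.MF.E (fun p : ℕ => 1 / (p : ℝ))
          (PR X S ps ⌊(Real.log X) ^ a⌋₊ ⌊(Real.log X) ^ b⌋₊) (k i)| ≤ δ0 / (4 * C) := by
    rw [Filter.eventually_all_finset]
    intro i hi
    exact one_scale a b (B i) 0 (k i) ha0 hab hb1 (hBJ i hi) (hkb i hi) (hk i hi).2 (by linarith)
      (δ0 / (4 * C)) (by positivity)
  have e2 := block_sum a b ha0 hab hb1
  have e3 := (tendsto_rpow_atTop ha0).eventually_ge_atTop (1 / lam)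
  filter_upwards [e1, e2, hlog.eventually e3,
    hlog.eventually_ge_atTop (1 : ℝ), eventually_ge_atTop (1 : ℝ)] with X g1 g2 g3 g6 g7
  intro S ps hS
  obtain ⟨s1, s2⟩ := g2 S ps hS
  have hX0 : 0 < X := by linarith
  set L := Real.log X with hL
  have hL0 : 0 < L := by linarith
  set a' := ⌊L ^ a⌋₊ with ha'
  set b' := ⌊L ^ b⌋₊ with hb'
  set P := PR X S ps a' b' with hP
  have hPW : P ⊆ PW X S ps := Finset.filter_subset _ _
  have hPp : ∀ p ∈ P, p.Prime := fun p hp => (mem_PW.1 (hPW hp)).2.1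
  have hPa : ∀ p ∈ P, a' < p := fun p hp => (Finset.mem_filter.1 hp).2.1
  have hx0 : ∀ p ∈ P, (0 : ℝ) ≤ 1 / (p : ℝ) := fun p _ => by positivity
  have hxm : ∀ p ∈ P, (1 : ℝ) / (p : ℝ) ≤ lam := by
    intro p hp
    have h1 : (a' : ℝ) + 1 ≤ p := by exact_mod_cast hPa p hp
    have hay : L ^ a < (a' : ℝ) + 1 := Nat.lt_floor_add_one _
    have h2 : 0 < 1 / lam := by positivity
    have h3 : 1 / lam ≤ p := by linarith
    have hp0 : (0 : ℝ) < p := by linarith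
    rw [div_le_iff₀ hp0]
    rw [div_le_iff₀ hlam0] at h3
    linarith
  have hx1 : ∀ p ∈ P, (1 : ℝ) / (p : ℝ) ≤ 1 := fun p hp => (hxm p hp).trans hlam1
  have hs0 : 0 ≤ ∑ p ∈ P, (1 : ℝ) / p := Finset.sum_nonneg hx0
  -- lower bound for the leading term
  have hF := Pool.Agent.X30.MF.F_lower (fun p : ℕ => 1 / (p : ℝ)) lam lam hlam0.le hlam1 hlam0.le m P hx0 hxm (by
    have : ((m : ℝ) + 1) * (lam + lam) = lr / 2 := by
      rw [hlam]; field_simp; ring
    rw [this]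
    exact s1)
  have hexp : lam / 2 ≤ 1 - Real.exp (-lam) := by
    have h1 := Real.add_one_le_exp lam
    have h2 : Real.exp (-lam) ≤ 1 / (1 + lam) := by
      rw [Real.exp_neg, ← one_div]
      apply one_div_le_one_div_of_le (by linarith) (by linarith)
    have h3 : lam / 2 ≤ 1 - 1 / (1 + lam) := by
      have h4 : 1 - 1 / (1 + lam) = lam / (1 + lam) := by field_simp; ring
      rw [h4, div_le_div_iff₀ (by norm_num) (by linarith)]
      nlinarith
    linarith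
  have hF0 : lam ^ (m + 1) / 2 ≤ Pool.Agent.X30.MF.F (fun p : ℕ => 1 / (p : ℝ)) P m := by
    refine le_trans ?_ hF
    calc lam ^ (m + 1) / 2 = lam ^ m * (lam / 2) := by ring
      _ ≤ lam ^ m * (1 - Real.exp (-lam)) := mul_le_mul_of_nonneg_left hexp (by positivity)
  have hlead : 2 * δ0 ≤ c i0 * ((-1) ^ m * Pool.Agent.X30.MF.F (fun p : ℕ => 1 / (p : ℝ)) P m) := by
    rw [← mul_assoc, hsign]
    have h1 : |c i0| * (lam ^ (m + 1) / 2) = 2 * δ0 := by
      rw [hδ0, hG, hlam, div_pow, div_pow, one_pow]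
      ring
    rw [← h1]
    exact mul_le_mul_of_nonneg_left hF0 hci0'.le
  have hother : ∀ i ∈ J.erase i0, -(|c i| * (2 * lr) ^ (m + 2)) ≤
      c i * ((-1) ^ k i * Pool.Agent.X30.MF.F (fun p : ℕ => 1 / (p : ℝ)) P (k i)) := by
    intro i hi
    obtain ⟨hne, hiJ⟩ := Finset.mem_erase.1 hi
    have h1 := F_upper (fun p : ℕ => 1 / (p : ℝ)) P hx0 hx1 (k i)
    have h2 := Pool.Agent.X30.MF.F_nonneg (fun p : ℕ => 1 / (p : ℝ)) P hx0 hx1 (k i)
    have h3 : Pool.Agent.X30.MF.F (fun p : ℕ => 1 / (p : ℝ)) P (k i) ≤ (2 * lr) ^ (m + 2) := by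
      refine h1.trans ?_
      calc (∑ p ∈ P, (1 : ℝ) / p) ^ (k i + 1) ≤ (2 * lr) ^ (k i + 1) := pow_le_pow_left₀ hs0 s2 _
        _ ≤ (2 * lr) ^ (m + 2) := by
            apply pow_le_pow_of_le_one (by positivity) (by linarith)
            have := hk' i hiJ hne
            omega
    have h4 : |c i * ((-1) ^ k i * Pool.Agent.X30.MF.F (fun p : ℕ => 1 / (p : ℝ)) P (k i))| ≤
        |c i| * (2 * lr) ^ (m + 2) := by
      rw [abs_mul, abs_mul, abs_pow, abs_neg, abs_one, one_pow, one_mul, abs_of_nonneg h2]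
      exact mul_le_mul_of_nonneg_left h3 (abs_nonneg _)
    exact (abs_le.1 h4).1
  have hEF : ∀ i, Pool.Agent.X30.MF.E (fun p : ℕ => 1 / (p : ℝ)) P (k i) =
      BE P + (-1) ^ k i * Pool.Agent.X30.MF.F (fun p : ℕ => 1 / (p : ℝ)) P (k i) := by
    intro i
    have h1 : Pool.Agent.X30.MF.F (fun p : ℕ => 1 / (p : ℝ)) P (k i) =
      (-1) ^ k i * (Pool.Agent.X30.MF.E (fun p : ℕ => 1 / (p : ℝ)) P (k i) - BE P) := rfl
    rw [h1, ← mul_assoc, ← mul_pow]
    norm_num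
  have hE : δ0 ≤ ∑ i ∈ J, c i * Pool.Agent.X30.MF.E (fun p : ℕ => 1 / (p : ℝ)) P (k i) := by
    have h1 : ∑ i ∈ J, c i * Pool.Agent.X30.MF.E (fun p : ℕ => 1 / (p : ℝ)) P (k i) =
        ∑ i ∈ J, c i * ((-1) ^ k i * Pool.Agent.X30.MF.F (fun p : ℕ => 1 / (p : ℝ)) P (k i)) := by
      have h2 : ∑ i ∈ J, c i * Pool.Agent.X30.MF.E (fun p : ℕ => 1 / (p : ℝ)) P (k i) =
          (∑ i ∈ J, c i) * BE P +
          ∑ i ∈ J, c i * ((-1) ^ k i * Pool.Agent.X30.MF.F (fun p : ℕ => 1 / (p : ℝ)) P (k i)) := by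
        rw [Finset.sum_mul, ← Finset.sum_add_distrib]
        refine Finset.sum_congr rfl fun i _ => ?_
        rw [hEF i]; ring
      rw [h2, hJsum0, zero_mul, zero_add]
    rw [h1, ← Finset.add_sum_erase J _ hi0]
    have h2 : -(C * (2 * lr) ^ (m + 2)) ≤
        ∑ i ∈ J.erase i0, c i * ((-1) ^ k i * Pool.Agent.X30.MF.F (fun p : ℕ => 1 / (p : ℝ)) P (k i)) := by
      refine le_trans ?_ (Finset.sum_le_sum hother)
      rw [Finset.sum_neg_distrib, ← Finset.sum_mul]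
      apply neg_le_neg
      apply mul_le_mul_of_nonneg_right _ (by positivity)
      exact Finset.sum_le_sum_of_subset_of_nonneg (Finset.erase_subset _ _) fun i _ _ => abs_nonneg _
    have h3 : C * (2 * lr) ^ (m + 2) ≤ δ0 := by
      calc C * (2 * lr) ^ (m + 2) = (2 * (C * 2 ^ (m + 2)) * lr) * lr ^ (m + 1) / 2 := by
            rw [mul_pow]; ring
        _ ≤ G * lr ^ (m + 1) / 2 := by gcongr
        _ = δ0 := rfl
    linarith
  have hBE : 1 / 2 ≤ BE P := by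
    have h1 := weier P (fun p => 1 / (p : ℝ)) (fun p hp => hx0 p hp) (fun p hp => hx1 p hp)
    have h2 : BE P = ∏ i ∈ P, (1 - 1 / (i : ℝ)) := rfl
    rw [h2]
    linarith
  refine ⟨hBE, ?_⟩
  rw [← hJsum]
  have h1 : ∑ i ∈ J, c i * Pool.Agent.X30.MF.E (fun p : ℕ => 1 / (p : ℝ)) P (k i) - δ0 / 4 ≤
      ∑ i ∈ J, c i * ((VV (∏ p ∈ P, p) 0 ⌊L ^ B i⌋₊ : ℝ) / L ^ B i) := by
    have h2 : ∀ i ∈ J, c i * Pool.Agent.X30.MF.E (fun p : ℕ => 1 / (p : ℝ)) P (k i) - |c i| * (δ0 / (4 * C)) ≤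
        c i * ((VV (∏ p ∈ P, p) 0 ⌊L ^ B i⌋₊ : ℝ) / L ^ B i) := by
      intro i hi
      have h3 := g1 i hi S ps hS
      have hY : Yc (B i) 0 L = ⌊L ^ B i⌋₊ := by
        unfold Yc
        rw [if_pos le_rfl]
      rw [hY] at h3
      have h4 : |c i * ((VV (∏ p ∈ P, p) 0 ⌊L ^ B i⌋₊ : ℝ) / L ^ B i -
          Pool.Agent.X30.MF.E (fun p : ℕ => 1 / (p : ℝ)) P (k i))| ≤ |c i| * (δ0 / (4 * C)) := by
        rw [abs_mul]
        exact mul_le_mul_of_nonneg_left h3 (abs_nonneg _)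
      have h5 := (abs_le.1 h4).1
      rw [mul_sub] at h5
      linarith
    have h6 := Finset.sum_le_sum h2
    rw [Finset.sum_sub_distrib, ← Finset.sum_mul] at h6
    have h7 : C * (δ0 / (4 * C)) = δ0 / 4 := by field_simp
    rw [← hC, h7] at h6
    exact h6
  linarith

end Pool.Agent.H569.CT
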