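import Mathlib
import Pool.Graph.R_pool_sql_team_seeded_64922ed1.X30.MaierW
import Pool.Graph.R_pool_sql_team_seeded_64922ed1.X30.MaierL

/-! # The columns of the Maier matrix for several linear forms -/

set_option autoImplicit false

open Finset Filter Topology
open Pool.Agent.H378R2 Pool.Agent.H510R2.Maier Pool.Agent.X30.MR Pool.Agent.X30.MG Pool.Agent.X30.MH
open Pool.Agent.X30.MI Pool.Agent.X30.MT Pool.Agent.X30.MV Pool.Agent.X30.MWW

namespace Pool.Agent.H569.CT

/-- the weighted number of `n ≤ Y` with all `b i + a i * n` prime -/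
noncomputable def TT {k : ℕ} (a b : Fin k → ℕ) (Y : ℕ) : ℝ := ∑ n ∈ Icc 1 Y, ∏ i, th (b i + a i * n)

/-- a product of numbers close to one -/
theorem prod_close {k : ℕ} (x : Fin k → ℝ) (G ε η : ℝ) (hG : 0 < G) (hε : 0 ≤ ε) (hη : 2 * (k * ε) ≤ η)
    (hη1 : η ≤ 1) (hx : ∀ i, |x i - G| ≤ ε * G) : |∏ i, x i - G ^ k| ≤ η * G ^ k := by
  have h1 : ∏ i, x i = G ^ k * ∏ i, (1 + (x i / G - 1)) := by
    have : ∏ i, x i = ∏ i, (G * (1 + (x i / G - 1))) := by
      refine Finset.prod_congr rfl fun i _ => ?_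
      field_simp
      ring
    rw [this, Finset.prod_mul_distrib, Finset.prod_const, Finset.card_univ, Fintype.card_fin]
  have h2 : ∀ i, |x i / G - 1| ≤ ε := by
    intro i
    have : x i / G - 1 = (x i - G) / G := by field_simp
    rw [this, abs_div, abs_of_pos hG, div_le_iff₀ hG]
    exact hx i
  have h3 := norm_prod_one_add_sub_one_le (Finset.univ : Finset (Fin k)) (fun i => x i / G - 1)
  have h4 : ∑ i, ‖x i / G - 1‖ ≤ k * ε := by
    calc ∑ i, ‖x i / G - 1‖ ≤ ∑ _i : Fin k, ε := Finset.sum_le_sum fun i _ => by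
          rw [Real.norm_eq_abs]; exact h2 i
      _ = k * ε := by rw [Finset.sum_const, Finset.card_univ, Fintype.card_fin, nsmul_eq_mul]
  have hk0 : 0 ≤ (k : ℝ) * ε := by positivity
  have h5 : Real.exp (k * ε) - 1 ≤ η := by
    have := Real.abs_exp_sub_one_le (x := k * ε) (by rw [abs_of_nonneg hk0]; linarith)
    rw [abs_of_nonneg hk0] at this
    have := le_abs_self (Real.exp (k * ε) - 1)
    linarith
  have h6 : |∏ i, (1 + (x i / G - 1)) - 1| ≤ η := by
    have h7 := Real.exp_le_exp.2 h4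
    rw [Real.norm_eq_abs] at h3
    linarith
  rw [h1]
  have h7 : G ^ k * ∏ i, (1 + (x i / G - 1)) - G ^ k = (∏ i, (1 + (x i / G - 1)) - 1) * G ^ k := by ring
  rw [h7, abs_mul, abs_of_pos (pow_pos hG k)]
  exact mul_le_mul_of_nonneg_right h6 (pow_pos hG k).le

theorem cols (k : ℕ) (hk : 1 ≤ k) (a : Fin k → ℕ) (ha : ∀ i, 1 ≤ a i) (A : ℕ) (η : ℝ) (hη : 0 < η)
    (hη1 : η ≤ 1) : ∃ X0 : ℝ, ∀ X : ℝ, X0 ≤ X → ∃ (ps : ℕ) (S : Finset ℕ), GoodP 1 ps ∧ GoodS X S ∧
      ∀ P : Finset ℕ, P ⊆ PW X S ps → (∀ p ∈ P, ∀ i, a i < p) →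
        (∀ Y : ℕ, (Y : ℝ) ≤ (Real.log X) ^ A →
          |∑ b ∈ Fintype.piFinset (fun _ : Fin k => Icc 1 ⌊3 * X⌋₊),
              (∏ i, nu X (∏ p ∈ P, p) 0 (b i)) * TT a b Y -
            (VV (∏ p ∈ P, p) 0 Y : ℝ) * (MPhi X / (∏ p ∈ P, p).totient) ^ k| ≤
            η * Y * (MPhi X / (∏ p ∈ P, p).totient) ^ k) ∧
        |∑ b ∈ Fintype.piFinset (fun _ : Fin k => Icc 1 ⌊3 * X⌋₊), (∏ i, nu X (∏ p ∈ P, p) 0 (b i)) -
            (MPhi X / (∏ p ∈ P, p : ℕ)) ^ k| ≤ η * (MPhi X / (∏ p ∈ P, p : ℕ)) ^ k := by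
  classical
  have hk0 : (0 : ℝ) < k := by exact_mod_cast hk
  have hk1 : (1 : ℝ) ≤ k := by exact_mod_cast hk
  set ε : ℝ := η / (2 * k) with hε
  have hε0 : 0 < ε := by positivity
  have hεη : 2 * (k * ε) ≤ η := by
    rw [hε]
    have : 2 * (k * (η / (2 * k))) = η := by field_simp
    rw [this]
  have hε1 : ε ≤ η := by
    rw [hε, div_le_iff₀ (by positivity)]
    nlinarith
  obtain ⟨X1, hX1⟩ := Pool.Agent.X30.ML.rows_each (A + 1) ε hε0 (hε1.trans hη1) 1
  have hlog : Tendsto Real.log atTop atTop := Real.tendsto_log_atTop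
  have ev : ∀ᶠ X : ℝ in atTop, X1 ≤ X ∧ ((∑ i, a i : ℕ) : ℝ) ≤ Real.log X ∧ 40 ≤ X ∧ 1 ≤ Real.log X :=
    (eventually_ge_atTop X1).and ((hlog.eventually_ge_atTop _).and ((eventually_ge_atTop 40).and
      (hlog.eventually_ge_atTop 1)))
  obtain ⟨X0, hX0⟩ := eventually_atTop.1 ev
  refine ⟨X0, fun X hX => ?_⟩
  obtain ⟨g1, g2, g3, g4⟩ := hX0 X hX
  obtain ⟨ps, S, hps, hS, hr⟩ := hX1 X g1
  refine ⟨ps, S, hps, hS, fun P hP hPa => ?_⟩
  obtain ⟨r1, r2, r3⟩ := hr P hP 0
  have hPp : ∀ p ∈ P, p.Prime := fun p hp => (mem_PW.1 (hP hp)).2.1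
  set W := ∏ p ∈ P, p with hW
  have hW0 : 0 < W := Finset.prod_pos fun p hp => (hPp p hp).pos
  have hWr : (0 : ℝ) < W := by exact_mod_cast hW0
  have hφ0 : (0 : ℝ) < W.totient := by exact_mod_cast Nat.totient_pos.2 hW0
  have hM1 := MPhi_ge X g3
  set M := MPhi X with hM
  have hM0 : 0 < M := by linarith
  set G := M / W.totient with hG
  have hG0 : 0 < G := by positivity
  have hMW0 : 0 < M / W := by positivity
  have hcop : ∀ i n, (0 + a i * n).Coprime W ↔ (0 + n).Coprime W := by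
    intro i n
    have h1 : (a i).Coprime W := by
      rw [hW]
      apply Nat.Coprime.prod_right
      intro p hp
      rw [Nat.coprime_comm, Nat.Prime.coprime_iff_not_dvd (hPp p hp)]
      intro hd
      have := Nat.le_of_dvd (ha i) hd
      have := hPa p hp i
      omega
    rw [zero_add, zero_add]
    constructor
    · exact fun h => Nat.Coprime.coprime_dvd_left (Dvd.intro_left _ rfl) h
    · exact fun h => Nat.Coprime.mul_left h1 h
  constructor
  · intro Y hY
    have hswap : ∑ b ∈ Fintype.piFinset (fun _ : Fin k => Icc 1 ⌊3 * X⌋₊), (∏ i, nu X W 0 (b i)) * TT a b Y =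
        ∑ n ∈ Icc 1 Y, ∏ i, ∑ m ∈ Icc 1 ⌊3 * X⌋₊, nu X W 0 m * th (m + a i * n) := by
      unfold TT
      simp only [Finset.mul_sum]
      rw [Finset.sum_comm]
      refine Finset.sum_congr rfl fun n _ => ?_
      rw [Finset.prod_univ_sum]
      refine Finset.sum_congr rfl fun b _ => ?_
      rw [Finset.prod_mul_distrib]
    have hVV : (VV W 0 Y : ℝ) * G ^ k = ∑ n ∈ Icc 1 Y, if (0 + n).Coprime W then G ^ k else 0 := by
      unfold VV
      rw [← Finset.sum_filter, Finset.sum_const, nsmul_eq_mul]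
    rw [hswap, hVV, ← Finset.sum_sub_distrib]
    have hterm : ∀ n ∈ Icc 1 Y, |∏ i, ∑ m ∈ Icc 1 ⌊3 * X⌋₊, nu X W 0 m * th (m + a i * n) -
        (if (0 + n).Coprime W then G ^ k else 0)| ≤ η * G ^ k := by
      intro n hn
      obtain ⟨hn1, hn2⟩ := Finset.mem_Icc.1 hn
      have hone : ∀ i, |∑ m ∈ Icc 1 ⌊3 * X⌋₊, nu X W 0 m * th (m + a i * n) -
          (if (0 + n).Coprime W then G else 0)| ≤ ε * G := by
        intro i
        have h1 := r1 (a i * n) (Nat.mul_pos (ha i) hn1) (by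
          have h2 : ((a i : ℕ) : ℝ) ≤ Real.log X := by
            refine le_trans ?_ g2
            exact_mod_cast Finset.single_le_sum (f := a) (fun _ _ => Nat.zero_le _) (Finset.mem_univ i)
          have h3 : (n : ℝ) ≤ (Real.log X) ^ A := by
            refine le_trans ?_ hY
            exact_mod_cast hn2
          rw [Nat.cast_mul, pow_succ, mul_comm ((Real.log X) ^ A)]
          exact mul_le_mul h2 h3 (Nat.cast_nonneg _) (by linarith))
        have h2 : (if (0 + a i * n).Coprime W then M / (W.totient : ℝ) else 0) =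
            (if (0 + n).Coprime W then G else 0) := if_congr (hcop i n) rfl rfl
        rw [h2] at h1
        exact h1
      by_cases hc : (0 + n).Coprime W
      · rw [if_pos hc]
        simp only [if_pos hc] at hone
        exact prod_close _ G ε η hG0 hε0.le hεη hη1 hone
      · rw [if_neg hc, sub_zero]
        simp only [if_neg hc, sub_zero] at hone
        rw [Finset.abs_prod]
        calc ∏ i, |∑ m ∈ Icc 1 ⌊3 * X⌋₊, nu X W 0 m * th (m + a i * n)| ≤ ∏ _i : Fin k, (ε * G) :=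
              Finset.prod_le_prod (fun _ _ => abs_nonneg _) fun i _ => hone i
          _ = (ε * G) ^ k := by rw [Finset.prod_const, Finset.card_univ, Fintype.card_fin]
          _ = ε ^ k * G ^ k := mul_pow _ _ _
          _ ≤ η * G ^ k := by
              apply mul_le_mul_of_nonneg_right _ (pow_pos hG0 k).le
              calc ε ^ k ≤ ε ^ 1 := pow_le_pow_of_le_one hε0.le (hε1.trans hη1) hk
                _ ≤ η := by rw [pow_one]; exact hε1
    calc |∑ n ∈ Icc 1 Y, (∏ i, ∑ m ∈ Icc 1 ⌊3 * X⌋₊, nu X W 0 m * th (m + a i * n) -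
          (if (0 + n).Coprime W then G ^ k else 0))| ≤ ∑ n ∈ Icc 1 Y, η * G ^ k :=
          (Finset.abs_sum_le_sum_abs _ _).trans (Finset.sum_le_sum hterm)
      _ = η * Y * G ^ k := by
          rw [Finset.sum_const, Nat.card_Icc, nsmul_eq_mul]
          simp only [add_tsub_cancel_right]
          ring
  · have h1 : ∑ b ∈ Fintype.piFinset (fun _ : Fin k => Icc 1 ⌊3 * X⌋₊), (∏ i, nu X W 0 (b i)) =
        ∏ _i : Fin k, ∑ m ∈ Icc 1 ⌊3 * X⌋₊, nu X W 0 m := by
      rw [Finset.prod_univ_sum]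
    rw [h1]
    refine prod_close _ (M / W) ε η hMW0 hε0.le hεη hη1 fun i => ?_
    rw [abs_le]
    constructor
    · linarith
    · linarith

end Pool.Agent.H569.CT
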