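import Mathlib
import Pool.Agent.H569.CT1
import Pool.Agent.H569.CT2

/-! # Contrasts between the scales for systems of linear forms -/

set_option autoImplicit false

open Finset Filter Topology
open Pool.Agent.H378R2 Pool.Agent.H510R2.Maier Pool.Agent.X30.MR Pool.Agent.X30.MG Pool.Agent.X30.MH
open Pool.Agent.X30.MI Pool.Agent.X30.MT Pool.Agent.X30.MV Pool.Agent.X30.MWW

namespace Pool.Agent.H569.CT

/-- The number of the `n ∈ {1, ..., y}` for which all `a i * n + b i` are prime. -/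
def count {k : ℕ} (a b : Fin k → ℕ) (y : ℕ) : ℕ :=
  ((Finset.Icc 1 y).filter (fun n => ∀ i, (a i * n + b i).Prime)).card

/-- The normalised number of solutions up to `(log X) ^ B`. -/
noncomputable def D {k : ℕ} (a b : Fin k → ℕ) (X B : ℝ) : ℝ :=
  count a b ⌊(Real.log X) ^ B⌋₊ * (Real.log X) ^ k / (Real.log X) ^ B

/-- The forms are different and no prime divides all the products of their values. -/
def Admissible {k : ℕ} (a b : Fin k → ℕ) : Prop :=
  (∀ i j, i ≠ j → (a i, b i) ≠ (a j, b j)) ∧ ∀ p : ℕ, p.Prime → ∃ n : ℕ, ∀ i, ¬ p ∣ a i * n + b i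

/-- the vectors with two equal components are few -/
theorem noninj (k N : ℕ) : ((Fintype.piFinset (fun _ : Fin k => Icc 1 N)).filter
    (fun b => ∃ i j, i ≠ j ∧ b i = b j)).card ≤ k ^ 2 * N ^ (k - 1) := by
  classical
  have h1 : (Fintype.piFinset (fun _ : Fin k => Icc 1 N)).filter (fun b => ∃ i j, i ≠ j ∧ b i = b j) ⊆
      (univ : Finset (Fin k × Fin k)).biUnion (fun z => (Fintype.piFinset (fun _ : Fin k => Icc 1 N)).filter
        (fun b => z.1 ≠ z.2 ∧ b z.1 = b z.2)) := by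
    intro b hb
    obtain ⟨h2, i, j, h3⟩ := Finset.mem_filter.1 hb
    exact Finset.mem_biUnion.2 ⟨(i, j), Finset.mem_univ _, Finset.mem_filter.2 ⟨h2, h3⟩⟩
  refine (Finset.card_le_card h1).trans (Finset.card_biUnion_le.trans ?_)
  have h2 : ∀ z : Fin k × Fin k, ((Fintype.piFinset (fun _ : Fin k => Icc 1 N)).filter
        (fun b => z.1 ≠ z.2 ∧ b z.1 = b z.2)).card ≤ N ^ (k - 1) := by
    rintro ⟨i, j⟩
    have h3 : (Fintype.piFinset (fun _ : {l : Fin k // l ≠ i} => Icc 1 N)).card = N ^ (k - 1) := by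
      rw [Fintype.card_piFinset, Finset.prod_const, Finset.card_univ, Nat.card_Icc]
      congr 1
      rw [Fintype.card_subtype_compl, Fintype.card_fin, Fintype.card_subtype_eq]
    rw [← h3]
    refine Finset.card_le_card_of_injOn (fun b l => b l.1) ?_ ?_
    · intro b hb
      have hb' := (Finset.mem_filter.1 hb).1
      rw [Fintype.mem_piFinset] at hb'
      exact Fintype.mem_piFinset.2 fun l => hb' l.1
    · intro b hb b' hb' he
      obtain ⟨_, hne, h4⟩ := Finset.mem_filter.1 hb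
      obtain ⟨_, _, h5⟩ := Finset.mem_filter.1 hb'
      have h6 : ∀ l, l ≠ i → b l = b' l := fun l hl => congrFun he ⟨l, hl⟩
      funext l
      by_cases hl : l = i
      · subst hl
        have h7 := h6 j (Ne.symm hne)
        have h4' : b l = b j := h4
        have h5' : b' l = b' j := h5
        rw [h4', h5', h7]
      · exact h6 l hl
  calc ∑ z : Fin k × Fin k, ((Fintype.piFinset (fun _ : Fin k => Icc 1 N)).filter
        (fun b => z.1 ≠ z.2 ∧ b z.1 = b z.2)).card ≤ ∑ _z : Fin k × Fin k, N ^ (k - 1) :=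
        Finset.sum_le_sum fun z _ => h2 z
    _ = k ^ 2 * N ^ (k - 1) := by
        rw [Finset.sum_const, Finset.card_univ, Fintype.card_prod, Fintype.card_fin, smul_eq_mul, pow_two]

/-- a system with a large prime solution is admissible -/
theorem noFixed {k : ℕ} (a b : Fin k → ℕ) (X : ℝ) (ha : ∀ i, 1 ≤ a i) (haX : ∀ i, (a i : ℝ) ≤ X) (hkX : (k : ℝ) < X)
    (hb : ∀ i, X < b i) (n : ℕ) (hn : ∀ i, (a i * n + b i).Prime) (p : ℕ) (hp : p.Prime) :
    ∃ n : ℕ, ∀ i, ¬ p ∣ a i * n + b i := by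
  by_cases hpX : (p : ℝ) ≤ X
  · refine ⟨n, fun i hd => ?_⟩
    have h1 := (Nat.prime_dvd_prime_iff_eq hp (hn i)).1 hd
    have h2 : (b i : ℝ) ≤ p := by
      rw [h1]
      exact_mod_cast Nat.le_add_left _ _
    have := hb i
    linarith
  · have hpX' : X < p := not_le.1 hpX
    by_contra hcon
    push Not at hcon
    choose f hf using hcon
    obtain ⟨x, y, hxy, he⟩ := Fintype.exists_ne_map_eq_of_card_lt (fun x : Fin (k + 1) => f x)
      (by rw [Fintype.card_fin, Fintype.card_fin]; omega)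
    have he' : f x = f y := he
    have h1 := hf x
    have h2 := hf y
    rw [he'] at h1
    have key : ∀ (i : Fin k) (x y : ℕ), x < y → y ≤ k → p ∣ a i * x + b i → p ∣ a i * y + b i → False := by
      intro i x y hlt hyk h1 h2
      have h3 : p ∣ a i * (y - x) := by
        have h4 : a i * y + b i = (a i * x + b i) + a i * (y - x) := by
          obtain ⟨d, rfl⟩ := Nat.exists_eq_add_of_lt hlt
          have : x + d + 1 - x = d + 1 := by omega
          rw [this]
          ring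
        rw [h4] at h2
        exact (Nat.dvd_add_right h1).1 h2
      rcases (Nat.Prime.dvd_mul hp).1 h3 with h5 | h5
      · have h6 : (p : ℝ) ≤ a i := by exact_mod_cast Nat.le_of_dvd (ha _) h5
        have := haX i
        linarith
      · have h6 : (p : ℝ) ≤ k := by
          have h7 := Nat.le_of_dvd (by omega) h5
          have : p ≤ k := by omega
          exact_mod_cast this
        linarith
    rcases lt_or_gt_of_ne (fun h => hxy (Fin.ext h) : (x : ℕ) ≠ y) with h | h
    · exact key _ x y h (by have := y.isLt; omega) h1 h2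
    · exact key _ y x h (by have := x.isLt; omega) h2 h1

set_option maxHeartbeats 4000000 in
theorem contrasts (k : ℕ) (hk : 1 ≤ k) (a : Fin k → ℕ) (ha : ∀ i, 1 ≤ a i) (ε : ℝ) (hε : 0 < ε)
    (m : ℕ) (B c : Fin m → ℝ) (hB : ∀ j, 0 < B j) (hinj : Function.Injective B) (hc : c ≠ 0)
    (hsum : ∑ j, c j = 0) : ∃ δ : ℝ, 0 < δ ∧ ∃ X₀ : ℝ, ∀ X : ℝ, X₀ ≤ X →
      X ^ k * Real.exp (-(Real.log X) ^ ε) ≤ (Set.ncard {b : Fin k → ℕ | (∀ i, X ≤ b i ∧ (b i : ℝ) ≤ 3 * X) ∧
        Admissible a b ∧ δ ≤ ∑ j, c j * D a b X (B j)} : ℝ) := by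
  classical
  have hc' : ∃ j ∈ (univ : Finset (Fin m)), c j ≠ 0 := by
    by_contra h
    push Not at h
    exact hc (funext fun j => h j (Finset.mem_univ j))
  set ε0 : ℝ := min ε (1 / 2) with hε0d
  have hε0 : 0 < ε0 := by positivity
  obtain ⟨δ0, a', b', hδ0, ha0, hab, hb1, hbε, hev⟩ := combo univ B c (fun j _ => hB j)
    (fun i _ j _ hij h => hij (hinj h)) hc' hsum ε0 hε0
  set C : ℝ := ∑ j, |c j| + 1 with hC
  have hC1 : 1 ≤ C := by
    have : 0 ≤ ∑ j, |c j| := Finset.sum_nonneg fun j _ => abs_nonneg _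
    linarith
  set η : ℝ := min 1 (δ0 / (8 * C)) with hη
  have hη0 : 0 < η := by positivity
  have hη1 : η ≤ 1 := min_le_left _ _
  have hη2 : 2 * η * C ≤ δ0 / 4 := by
    have : η ≤ δ0 / (8 * C) := min_le_right _ _
    rw [le_div_iff₀ (by positivity)] at this
    linarith
  obtain ⟨A, hA⟩ : ∃ A : ℕ, ∀ j, B j ≤ A := by
    obtain ⟨A, hA⟩ := exists_nat_ge (∑ j, |B j|)
    refine ⟨A, fun j => ?_⟩
    have h1 : |B j| ≤ ∑ j, |B j| := Finset.single_le_sum (f := fun j => |B j|) (fun j _ => abs_nonneg _)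
      (Finset.mem_univ j)
    have h2 := le_abs_self (B j)
    linarith
  obtain ⟨X1, hX1⟩ := cols k hk a ha A η hη0 hη1
  set κ : ℝ := δ0 / (2 * C * 40 ^ k) with hκ
  have hκ0 : 0 < κ := by positivity
  set ε1 : ℝ := (b' + ε0) / 2 with hε1
  have hb0 : 0 < b' := ha0.trans hab
  have hε10 : 0 < ε1 := by positivity
  have hbε1 : b' < ε1 := by rw [hε1]; linarith
  have hε1ε : ε1 < ε0 := by rw [hε1]; linarith
  have hlog : Tendsto Real.log atTop atTop := Real.tendsto_log_atTop
  have e3 : ∀ᶠ L : ℝ in atTop, ((∑ i, a i : ℕ) : ℝ) ≤ L ^ a' := (tendsto_rpow_atTop ha0).eventually_ge_atTop _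
  have e4 : ∀ᶠ L : ℝ in atTop, |(L / (L + 2)) ^ k - 1| ≤ η := by
    have h1 : Tendsto (fun L : ℝ => (L / (L + 2)) ^ k) atTop (𝓝 1) := by
      have h2 : Tendsto (fun L : ℝ => 1 - 2 / (L + 2)) atTop (𝓝 (1 - 0)) :=
        tendsto_const_nhds.sub (Tendsto.div_atTop tendsto_const_nhds (tendsto_atTop_add_const_right _ _ tendsto_id))
      rw [sub_zero] at h2
      have h3 := h2.pow k
      rw [one_pow] at h3
      refine h3.congr' ?_
      filter_upwards [eventually_gt_atTop (0 : ℝ)] with L hL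
      congr 1
      field_simp
      ring
    have h2 := h1.eventually (Metric.ball_mem_nhds (1 : ℝ) hη0)
    filter_upwards [h2] with L hL
    have h3 := (Metric.mem_ball.1 hL).le
    rwa [Real.dist_eq] at h3
  have e5 := growth ε1 ε0 κ hε10 hε1ε hκ0 k
  have e6 : ∀ᶠ L : ℝ in atTop, (k : ℝ) ≤ L ^ (ε1 - b') := (tendsto_rpow_atTop (by linarith)).eventually_ge_atTop _
  have e7 : ∀ᶠ X : ℝ in atTop, ((∑ i, a i : ℕ) : ℝ) * (Real.log X) ^ A ≤ X := by
    have h1 := (Real.isLittleO_pow_log_id_atTop (n := A)).bound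
      (show (0 : ℝ) < 1 / (((∑ i, a i : ℕ) : ℝ) + 1) by positivity)
    filter_upwards [h1, eventually_ge_atTop (1 : ℝ)] with X h2 h3
    rw [Real.norm_of_nonneg (pow_nonneg (Real.log_nonneg h3) A), id, Real.norm_of_nonneg (by linarith)] at h2
    have h4 : 0 ≤ (Real.log X) ^ A := pow_nonneg (Real.log_nonneg h3) A
    calc ((∑ i, a i : ℕ) : ℝ) * (Real.log X) ^ A ≤ (((∑ i, a i : ℕ) : ℝ) + 1) * (Real.log X) ^ A := by
          apply mul_le_mul_of_nonneg_right _ h4
          linarith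
      _ ≤ (((∑ i, a i : ℕ) : ℝ) + 1) * (1 / (((∑ i, a i : ℕ) : ℝ) + 1) * X) := by gcongr
      _ = X := by field_simp
  have e8 : ∀ᶠ L : ℝ in atTop, (k : ℝ) ^ 2 * 3 ^ k ≤ Real.exp (L / 2) :=
    (Real.tendsto_exp_atTop.comp (tendsto_id.atTop_div_const (by norm_num))).eventually_ge_atTop _
  refine ⟨δ0 / 8, by positivity, ?_⟩
  have hall := (((hev.and (eventually_ge_atTop X1)).and ((hlog.eventually e3).and (hlog.eventually e4))).and
    (((hlog.eventually e5).and (hlog.eventually e6)).and (e7.and (hlog.eventually e8)))).and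
    (((hlog.eventually_ge_atTop (4 : ℝ)).and (eventually_ge_atTop (40 : ℝ))).and
      ((eventually_ge_atTop ((k : ℝ) + 1)).and (eventually_ge_atTop (((∑ i, a i : ℕ) : ℝ)))))
  obtain ⟨X₀, hX₀⟩ := eventually_atTop.1 hall
  refine ⟨X₀, fun X hX => ?_⟩
  obtain ⟨⟨⟨⟨g1, g2⟩, g3, g4⟩, ⟨g5, g6⟩, g7, g8⟩, ⟨g9, g10⟩, g11, g12⟩ := hX₀ X hX
  obtain ⟨ps, S, hps, hS, hcols⟩ := hX1 X g2
  obtain ⟨hBE, hcomb⟩ := g1 S ps hS
  set L := Real.log X with hL
  have hX0 : 0 < X := by linarith
  have hL0 : 0 < L := by linarith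
  set P := PR X S ps ⌊L ^ a'⌋₊ ⌊L ^ b'⌋₊ with hP
  have hPW : P ⊆ PW X S ps := Finset.filter_subset _ _
  have hPp : ∀ p ∈ P, p.Prime := fun p hp => (mem_PW.1 (hPW hp)).2.1
  have hPa : ∀ p ∈ P, ∀ i, a i < p := by
    intro p hp i
    have h1 : ⌊L ^ a'⌋₊ < p := (Finset.mem_filter.1 hp).2.1
    have h2 : ∑ i, a i ≤ ⌊L ^ a'⌋₊ := Nat.le_floor g3
    have h3 : a i ≤ ∑ i, a i := Finset.single_le_sum (fun _ _ => Nat.zero_le _) (Finset.mem_univ i)
    omega
  have hPb : ∀ p ∈ P, p ≤ ⌊L ^ b'⌋₊ := fun p hp => (Finset.mem_filter.1 hp).2.2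
  obtain ⟨hTT, hN⟩ := hcols P hPW hPa
  set W := ∏ p ∈ P, p with hW
  have hW0 : 0 < W := Finset.prod_pos fun p hp => (hPp p hp).pos
  have hWr : (0 : ℝ) < W := by exact_mod_cast hW0
  have hφ0 : (0 : ℝ) < W.totient := by exact_mod_cast Nat.totient_pos.2 hW0
  have hM1 := MPhi_ge X g10
  set M := MPhi X with hM
  have hM0 : 0 < M := by linarith
  set H := M / (W : ℝ) with hH
  set G := M / (W.totient : ℝ) with hG
  have hH0 : 0 < H := by positivity
  have hG0 : 0 < G := by positivity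
  have hHG : H ≤ G := by
    rw [hH, hG]
    apply div_le_div_of_nonneg_left hM0.le hφ0
    exact_mod_cast Nat.totient_le W
  have hHGk : H ^ k ≤ G ^ k := pow_le_pow_left₀ hH0.le hHG k
  -- abbreviations
  set Y : Fin m → ℕ := fun j => ⌊L ^ B j⌋₊ with hY
  have hLB : ∀ j, 0 < L ^ B j := fun j => Real.rpow_pos_of_pos hL0 _
  have hYle : ∀ j, (Y j : ℝ) ≤ L ^ B j := fun j => Nat.floor_le (hLB j).le
  have hYA : ∀ j, (Y j : ℝ) ≤ L ^ A := by
    intro j
    refine (hYle j).trans ?_
    rw [← Real.rpow_natCast]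
    exact Real.rpow_le_rpow_of_exponent_le (by linarith) (hA j)
  set ρ : ℝ := (L / (L + 2)) ^ k with hρ
  have hρ0 : 0 ≤ ρ := by positivity
  have hρ1 : ρ ≤ 1 := by
    apply pow_le_one₀ (by positivity)
    rw [div_le_one (by linarith)]
    linarith
  set α : Fin m → ℝ := fun j => if 0 ≤ c j then ρ else 1 with hα
  have hα0 : ∀ j, 0 ≤ α j := by intro j; simp only [hα]; split_ifs <;> linarith
  have hα1 : ∀ j, α j ≤ 1 := by intro j; simp only [hα]; split_ifs <;> linarith
  have hαη : ∀ j, |α j - 1| ≤ η := by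
    intro j
    simp only [hα]
    split_ifs
    · exact g4
    · rw [sub_self, abs_zero]; exact hη0.le
  set R0 := Fintype.piFinset (fun _ : Fin k => Icc 1 ⌊3 * X⌋₊) with hR0
  set nn : (Fin k → ℕ) → ℝ := fun b => ∏ i, nu X W 0 (b i) with hnn
  have hnn0 : ∀ b, 0 ≤ nn b := fun b => Finset.prod_nonneg fun i _ => nu_nonneg _ _ _ _
  have hnn1 : ∀ b, nn b ≤ 1 := fun b => Finset.prod_le_one (fun i _ => nu_nonneg _ _ _ _)
    fun i _ => nu_le_one _ _ _ _
  set F : (Fin k → ℕ) → ℝ := fun b => ∑ j, c j * (α j / L ^ B j * TT a b (Y j)) with hF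
  have hTT0 : ∀ b y, 0 ≤ TT a b y := fun b y => Finset.sum_nonneg fun n _ =>
    Finset.prod_nonneg fun i _ => th_nonneg _
  -- the mean of `F`
  have hmean : G ^ k * (3 / 4 * δ0) ≤ ∑ b ∈ R0, nn b * F b := by
    have f1 : ∑ b ∈ R0, nn b * F b = ∑ j, c j * (α j / L ^ B j * ∑ b ∈ R0, nn b * TT a b (Y j)) := by
      simp only [hF, Finset.mul_sum]
      rw [Finset.sum_comm]
      refine Finset.sum_congr rfl fun j _ => Finset.sum_congr rfl fun b _ => ?_
      ring
    have f2 : ∀ j, |c j * (α j / L ^ B j * ∑ b ∈ R0, nn b * TT a b (Y j)) -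
        G ^ k * (c j * ((VV W 0 (Y j) : ℝ) / L ^ B j))| ≤ |c j| * (2 * η) * G ^ k := by
      intro j
      have h1 := hTT (Y j) (hYA j)
      have h2 : c j * (α j / L ^ B j * ∑ b ∈ R0, nn b * TT a b (Y j)) -
          G ^ k * (c j * ((VV W 0 (Y j) : ℝ) / L ^ B j)) =
          c j * (α j / L ^ B j * (∑ b ∈ R0, nn b * TT a b (Y j) - (VV W 0 (Y j) : ℝ) * G ^ k) +
            (α j - 1) * ((VV W 0 (Y j) : ℝ) / L ^ B j) * G ^ k) := by
        have := (hLB j).ne'
        field_simp
        ring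
      rw [h2, abs_mul, mul_assoc (|c j|)]
      apply mul_le_mul_of_nonneg_left _ (abs_nonneg _)
      have hv0 : 0 ≤ (VV W 0 (Y j) : ℝ) / L ^ B j := div_nonneg (Nat.cast_nonneg _) (hLB j).le
      have hv1 : (VV W 0 (Y j) : ℝ) / L ^ B j ≤ 1 := by
        rw [div_le_one (hLB j)]
        refine le_trans ?_ (hYle j)
        exact_mod_cast VV_le W 0 (Y j)
      have hGk : 0 < G ^ k := pow_pos hG0 k
      calc |α j / L ^ B j * (∑ b ∈ R0, nn b * TT a b (Y j) - (VV W 0 (Y j) : ℝ) * G ^ k) +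
            (α j - 1) * ((VV W 0 (Y j) : ℝ) / L ^ B j) * G ^ k|
          ≤ |α j / L ^ B j * (∑ b ∈ R0, nn b * TT a b (Y j) - (VV W 0 (Y j) : ℝ) * G ^ k)| +
            |(α j - 1) * ((VV W 0 (Y j) : ℝ) / L ^ B j) * G ^ k| := abs_add_le _ _
        _ ≤ η * G ^ k + η * G ^ k := by
            apply add_le_add
            · rw [abs_mul, abs_of_nonneg (div_nonneg (hα0 j) (hLB j).le)]
              calc α j / L ^ B j * |∑ b ∈ R0, nn b * TT a b (Y j) - (VV W 0 (Y j) : ℝ) * G ^ k|
                  ≤ α j / L ^ B j * (η * Y j * G ^ k) :=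
                    mul_le_mul_of_nonneg_left h1 (div_nonneg (hα0 j) (hLB j).le)
                _ = (α j * (Y j / L ^ B j)) * (η * G ^ k) := by ring
                _ ≤ (1 * 1) * (η * G ^ k) := by
                    apply mul_le_mul_of_nonneg_right _ (by positivity)
                    apply mul_le_mul (hα1 j) _ (div_nonneg (Nat.cast_nonneg _) (hLB j).le) zero_le_one
                    rw [div_le_one (hLB j)]
                    exact hYle j
                _ = η * G ^ k := by ring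
            · rw [abs_mul, abs_mul, abs_of_pos hGk, abs_of_nonneg hv0]
              apply mul_le_mul_of_nonneg_right _ hGk.le
              calc |α j - 1| * ((VV W 0 (Y j) : ℝ) / L ^ B j) ≤ η * 1 :=
                    mul_le_mul (hαη j) hv1 hv0 hη0.le
                _ = η := mul_one _
        _ = 2 * η * G ^ k := by ring
    have f3 : |∑ j, c j * (α j / L ^ B j * ∑ b ∈ R0, nn b * TT a b (Y j)) -
        G ^ k * ∑ j, c j * ((VV W 0 (Y j) : ℝ) / L ^ B j)| ≤ C * (2 * η) * G ^ k := by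
      rw [Finset.mul_sum, ← Finset.sum_sub_distrib]
      refine (Finset.abs_sum_le_sum_abs _ _).trans ((Finset.sum_le_sum fun j _ => f2 j).trans ?_)
      rw [← Finset.sum_mul, ← Finset.sum_mul]
      apply mul_le_mul_of_nonneg_right _ (by positivity)
      apply mul_le_mul_of_nonneg_right _ (by positivity)
      rw [hC]; linarith
    have f4 := (abs_le.1 f3).1
    have f5 : G ^ k * δ0 ≤ G ^ k * ∑ j, c j * ((VV W 0 (Y j) : ℝ) / L ^ B j) :=
      mul_le_mul_of_nonneg_left hcomb (pow_pos hG0 k).le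
    have f6 : C * (2 * η) * G ^ k ≤ δ0 / 4 * G ^ k := by
      apply mul_le_mul_of_nonneg_right _ (pow_pos hG0 k).le
      linarith
    rw [f1]
    have f7 : G ^ k * (3 / 4 * δ0) = G ^ k * δ0 - δ0 / 4 * G ^ k := by ring
    linarith
  -- the total weight
  have hNle : ∑ b ∈ R0, nn b ≤ 2 * H ^ k := by
    have h1 := (abs_le.1 hN).2
    have h2 : η * H ^ k ≤ 1 * H ^ k := mul_le_mul_of_nonneg_right hη1 (pow_pos hH0 k).le
    linarith
  have hdiff : H ^ k * (δ0 / 2) ≤ ∑ b ∈ R0, nn b * (F b - δ0 / 8) := by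
    have h1 : ∑ b ∈ R0, nn b * (F b - δ0 / 8) = ∑ b ∈ R0, nn b * F b - δ0 / 8 * ∑ b ∈ R0, nn b := by
      rw [Finset.mul_sum, ← Finset.sum_sub_distrib]
      exact Finset.sum_congr rfl fun b _ => by ring
    rw [h1]
    have h2 : H ^ k * (3 / 4 * δ0) ≤ G ^ k * (3 / 4 * δ0) := mul_le_mul_of_nonneg_right hHGk (by positivity)
    have h3 : δ0 / 8 * ∑ b ∈ R0, nn b ≤ δ0 / 8 * (2 * H ^ k) := mul_le_mul_of_nonneg_left hNle (by positivity)
    have h4 : H ^ k * (3 / 4 * δ0) - δ0 / 8 * (2 * H ^ k) = H ^ k * (δ0 / 2) := by ring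
    linarith
  -- the good rows
  set Rg := R0.filter (fun b => (∀ i, X < b i ∧ (b i : ℝ) < 3 * X) ∧ δ0 / 8 ≤ F b) with hRg
  have hlog4 : Real.log (4 * X) ≤ L + 2 := by
    rw [Real.log_mul (by norm_num) hX0.ne', ← hL]
    have : Real.log 4 ≤ 2 := by
      rw [show (4 : ℝ) = 2 ^ 2 by norm_num, Real.log_pow]
      have := Real.log_two_lt_d9
      push_cast; linarith
    linarith
  have hthb : ∀ b : Fin k → ℕ, (∀ i, X < b i ∧ (b i : ℝ) < 3 * X) → ∀ j, ∀ n ∈ Icc 1 (Y j), ∀ i,
      (a i * n + b i).Prime → L ≤ th (b i + a i * n) ∧ th (b i + a i * n) ≤ L + 2 := by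
    intro b hb j n hn i hp
    obtain ⟨hn1, hn2⟩ := Finset.mem_Icc.1 hn
    have h1 : ((a i * n : ℕ) : ℝ) ≤ X := by
      refine le_trans ?_ g7
      push_cast
      have h2 : (a i : ℝ) ≤ ∑ i, (a i : ℝ) := Finset.single_le_sum (f := fun i => (a i : ℝ))
        (fun _ _ => Nat.cast_nonneg _) (Finset.mem_univ i)
      have h3 : (n : ℝ) ≤ L ^ A := by
        refine le_trans ?_ (hYA j)
        exact_mod_cast hn2
      exact mul_le_mul h2 h3 (Nat.cast_nonneg _) (Finset.sum_nonneg fun _ _ => Nat.cast_nonneg _)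
    have hp' : (b i + a i * n).Prime := by rw [add_comm]; exact hp
    unfold th
    rw [if_pos hp']
    have h4 := (hb i).1
    have h5 := (hb i).2
    have h6 : ((b i + a i * n : ℕ) : ℝ) = b i + ((a i * n : ℕ) : ℝ) := by push_cast; ring
    have h7 : (0 : ℝ) ≤ ((a i * n : ℕ) : ℝ) := Nat.cast_nonneg _
    constructor
    · rw [hL, h6]
      exact Real.log_le_log hX0 (by linarith)
    · refine le_trans ?_ hlog4
      rw [h6]
      exact Real.log_le_log (by linarith) (by linarith)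
  have hTcount : ∀ b : Fin k → ℕ, (∀ i, X < b i ∧ (b i : ℝ) < 3 * X) → ∀ j,
      L ^ k * count a b (Y j) ≤ TT a b (Y j) ∧ TT a b (Y j) ≤ (L + 2) ^ k * count a b (Y j) := by
    intro b hb j
    have h1 : TT a b (Y j) = ∑ n ∈ (Icc 1 (Y j)).filter (fun n => ∀ i, (a i * n + b i).Prime),
        ∏ i, th (b i + a i * n) := by
      unfold TT
      rw [Finset.sum_filter]
      refine Finset.sum_congr rfl fun n _ => ?_
      split_ifs with h
      · rfl
      · push Not at h
        obtain ⟨i, hi⟩ := h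
        apply Finset.prod_eq_zero (Finset.mem_univ i)
        unfold th
        rw [if_neg]
        rw [add_comm]
        exact hi
    have hcnt : ∀ r : ℝ, r * count a b (Y j) =
        ∑ _n ∈ (Icc 1 (Y j)).filter (fun n => ∀ i, (a i * n + b i).Prime), r := by
      intro r
      unfold count
      rw [Finset.sum_const, nsmul_eq_mul]
      ring
    rw [h1, hcnt, hcnt]
    constructor
    · apply Finset.sum_le_sum
      intro n hn
      obtain ⟨h2, h3⟩ := Finset.mem_filter.1 hn
      calc L ^ k = ∏ _i : Fin k, L := by rw [Finset.prod_const, Finset.card_univ, Fintype.card_fin]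
        _ ≤ ∏ i, th (b i + a i * n) := Finset.prod_le_prod (fun _ _ => hL0.le) fun i _ =>
            (hthb b hb j n h2 i (h3 i)).1
    · apply Finset.sum_le_sum
      intro n hn
      obtain ⟨h2, h3⟩ := Finset.mem_filter.1 hn
      calc ∏ i, th (b i + a i * n) ≤ ∏ _i : Fin k, (L + 2) :=
            Finset.prod_le_prod (fun _ _ => th_nonneg _) fun i _ => (hthb b hb j n h2 i (h3 i)).2
        _ = (L + 2) ^ k := by rw [Finset.prod_const, Finset.card_univ, Fintype.card_fin]
  have hFD : ∀ b : Fin k → ℕ, (∀ i, X < b i ∧ (b i : ℝ) < 3 * X) → F b ≤ ∑ j, c j * D a b X (B j) := by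
    intro b hb
    simp only [hF]
    apply Finset.sum_le_sum
    intro j _
    obtain ⟨t1, t2⟩ := hTcount b hb j
    have hD : D a b X (B j) = (L ^ k * count a b (Y j)) / L ^ B j := by
      unfold D
      rw [mul_comm]
    rw [hD]
    by_cases hcj : 0 ≤ c j
    · apply mul_le_mul_of_nonneg_left _ hcj
      simp only [hα, if_pos hcj]
      rw [div_mul_eq_mul_div]
      apply div_le_div_of_nonneg_right _ (hLB j).le
      calc ρ * TT a b (Y j) ≤ ρ * ((L + 2) ^ k * count a b (Y j)) := mul_le_mul_of_nonneg_left t2 hρ0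
        _ = L ^ k * count a b (Y j) := by
            rw [hρ, div_pow]
            have : (L + 2) ^ k ≠ 0 := by positivity
            field_simp
    · apply mul_le_mul_of_nonpos_left _ (not_le.1 hcj).le
      simp only [hα, if_neg hcj]
      rw [div_mul_eq_mul_div, one_mul]
      exact div_le_div_of_nonneg_right t1 (hLB j).le
  have hFbound : ∀ b : Fin k → ℕ, (∀ i, X < b i ∧ (b i : ℝ) < 3 * X) → F b ≤ C * (2 * L) ^ k := by
    intro b hb
    have h1 : F b ≤ ∑ j, |c j| * (2 * L) ^ k := by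
      simp only [hF]
      apply Finset.sum_le_sum
      intro j _
      have h2 : 0 ≤ α j / L ^ B j * TT a b (Y j) := mul_nonneg (div_nonneg (hα0 j) (hLB j).le) (hTT0 _ _)
      have h3 : α j / L ^ B j * TT a b (Y j) ≤ (2 * L) ^ k := by
        have h4 : TT a b (Y j) ≤ (2 * L) ^ k * L ^ B j := by
          refine (hTcount b hb j).2.trans ?_
          apply mul_le_mul _ _ (Nat.cast_nonneg _) (by positivity)
          · exact pow_le_pow_left₀ (by linarith) (by linarith) k
          · refine le_trans ?_ (hYle j)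
            have : count a b (Y j) ≤ Y j := by
              unfold count
              refine (Finset.card_filter_le _ _).trans ?_
              rw [Nat.card_Icc]
              omega
            exact_mod_cast this
        calc α j / L ^ B j * TT a b (Y j) ≤ 1 / L ^ B j * ((2 * L) ^ k * L ^ B j) := by
              apply mul_le_mul _ h4 (hTT0 _ _) (by positivity)
              exact div_le_div_of_nonneg_right (hα1 j) (hLB j).le
          _ = (2 * L) ^ k := by
              have := (hLB j).ne'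
              field_simp
      calc c j * (α j / L ^ B j * TT a b (Y j)) ≤ |c j| * (α j / L ^ B j * TT a b (Y j)) :=
            mul_le_mul_of_nonneg_right (le_abs_self _) h2
        _ ≤ |c j| * (2 * L) ^ k := mul_le_mul_of_nonneg_left h3 (abs_nonneg _)
    refine h1.trans ?_
    rw [← Finset.sum_mul]
    apply mul_le_mul_of_nonneg_right _ (by positivity)
    rw [hC]; linarith
  have hRgcard : H ^ k * (δ0 / 2) ≤ (Rg.card : ℝ) * (C * (2 * L) ^ k) := by
    refine hdiff.trans ?_
    have h1 : ∑ b ∈ R0, nn b * (F b - δ0 / 8) ≤ ∑ b ∈ Rg, nn b * (F b - δ0 / 8) := by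
      rw [hRg, Finset.sum_filter]
      apply Finset.sum_le_sum
      intro b _
      split_ifs with h
      · exact le_rfl
      · by_cases hb : ∀ i, X < b i ∧ (b i : ℝ) < 3 * X
        · have h2 : F b < δ0 / 8 := by
            by_contra h3
            exact h ⟨hb, not_lt.1 h3⟩
          exact mul_nonpos_of_nonneg_of_nonpos (hnn0 b) (by linarith)
        · rw [not_forall] at hb
          obtain ⟨i, hi⟩ := hb
          have h2 : nn b = 0 := Finset.prod_eq_zero (Finset.mem_univ i) (nu_eq_zero hX0 hi)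
          rw [h2, zero_mul]
    refine h1.trans ?_
    rw [← nsmul_eq_mul]
    apply Finset.sum_le_card_nsmul
    intro b hb
    obtain ⟨_, h2, h3⟩ := Finset.mem_filter.1 hb
    have h4 := hFbound b h2
    calc nn b * (F b - δ0 / 8) ≤ 1 * (F b - δ0 / 8) := mul_le_mul_of_nonneg_right (hnn1 b) (by linarith)
      _ ≤ C * (2 * L) ^ k := by linarith
  -- the number of good rows
  have hWle : (W : ℝ) ≤ Real.exp (3 * L ^ b') := by
    refine (size_W P hPp _ hPb).trans (Real.exp_le_exp.2 ?_)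
    have h1 : ((⌊L ^ b'⌋₊ : ℕ) : ℝ) ≤ L ^ b' := Nat.floor_le (Real.rpow_nonneg hL0.le _)
    have h2 : 0 ≤ L ^ b' := Real.rpow_nonneg hL0.le _
    linarith
  have hWk : (W : ℝ) ^ k ≤ Real.exp (3 * L ^ ε1) := by
    calc (W : ℝ) ^ k ≤ (Real.exp (3 * L ^ b')) ^ k := pow_le_pow_left₀ hWr.le hWle k
      _ = Real.exp (k * (3 * L ^ b')) := (Real.exp_nat_mul _ _).symm
      _ ≤ Real.exp (3 * L ^ ε1) := by
          apply Real.exp_le_exp.2
          have h1 : L ^ ε1 = L ^ (ε1 - b') * L ^ b' := by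
            rw [← Real.rpow_add hL0]; congr 1; ring
          rw [h1]
          have h2 : 0 ≤ L ^ b' := Real.rpow_nonneg hL0.le _
          nlinarith
  have hRg3 : 3 * (X ^ k * Real.exp (-L ^ ε0)) ≤ (Rg.card : ℝ) := by
    have h1 : (X / (20 * W)) ^ k ≤ H ^ k := by
      apply pow_le_pow_left₀ (by positivity)
      rw [hH, div_le_div_iff₀ (by positivity) hWr]
      nlinarith
    have h2 : (X / (20 * W)) ^ k * (δ0 / 2) ≤ (Rg.card : ℝ) * (C * (2 * L) ^ k) :=
      (mul_le_mul_of_nonneg_right h1 (by positivity)).trans hRgcard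
    have h3 : (X / (20 * W)) ^ k * (δ0 / 2) = κ * (X ^ k / ((W : ℝ) ^ k * L ^ k)) * (C * (2 * L) ^ k) := by
      rw [hκ, div_pow, mul_pow, mul_pow, show (40 : ℝ) ^ k = 20 ^ k * 2 ^ k by rw [← mul_pow]; norm_num]
      field_simp
    rw [h3] at h2
    have h4 : κ * (X ^ k / ((W : ℝ) ^ k * L ^ k)) ≤ (Rg.card : ℝ) := le_of_mul_le_mul_right h2 (by positivity)
    refine le_trans ?_ h4
    calc 3 * (X ^ k * Real.exp (-L ^ ε0)) = X ^ k * (3 * Real.exp (-L ^ ε0)) := by ring
      _ ≤ X ^ k * (κ * (Real.exp (-(3 * L ^ ε1)) / L ^ k)) := by gcongr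
      _ = κ * (X ^ k / (Real.exp (3 * L ^ ε1) * L ^ k)) := by
          rw [Real.exp_neg]
          field_simp
      _ ≤ κ * (X ^ k / ((W : ℝ) ^ k * L ^ k)) := by gcongr
  -- the vectors with two equal components
  set Rn := R0.filter (fun b => ∃ i j, i ≠ j ∧ b i = b j) with hRn
  have hRncard : (Rn.card : ℝ) ≤ X ^ k * Real.exp (-L ^ ε0) := by
    have h1 : (Rn.card : ℝ) ≤ (k : ℝ) ^ 2 * (⌊3 * X⌋₊ : ℝ) ^ (k - 1) := by
      exact_mod_cast noninj k ⌊3 * X⌋₊
    have h2 : (⌊3 * X⌋₊ : ℝ) ^ (k - 1) ≤ (3 * X) ^ (k - 1) :=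
      pow_le_pow_left₀ (Nat.cast_nonneg _) (Nat.floor_le (by positivity)) _
    have h3 : (3 * X) ^ (k - 1) ≤ 3 ^ k * X ^ (k - 1) := by
      rw [mul_pow]
      apply mul_le_mul_of_nonneg_right _ (by positivity)
      exact pow_le_pow_right₀ (by norm_num) (by omega)
    have h4 : L ^ ε0 ≤ L / 2 := by
      have h5 : L ^ ε0 ≤ L ^ (1 / 2 : ℝ) :=
        Real.rpow_le_rpow_of_exponent_le (by linarith) (min_le_right _ _)
      have h6 : L ^ (1 / 2 : ℝ) = Real.sqrt L := by rw [Real.sqrt_eq_rpow]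
      have h7 : Real.sqrt L ≤ L / 2 := by
        rw [Real.sqrt_le_left (by linarith)]
        nlinarith
      rw [h6] at h5
      linarith
    have h5 : (k : ℝ) ^ 2 * 3 ^ k ≤ X * Real.exp (-L ^ ε0) := by
      refine g8.trans ?_
      have : X = Real.exp L := (Real.exp_log hX0).symm
      rw [this, ← Real.exp_add]
      exact Real.exp_le_exp.2 (by linarith)
    calc (Rn.card : ℝ) ≤ (k : ℝ) ^ 2 * (3 ^ k * X ^ (k - 1)) := h1.trans
          (mul_le_mul_of_nonneg_left (h2.trans h3) (by positivity))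
      _ = ((k : ℝ) ^ 2 * 3 ^ k) * X ^ (k - 1) := by ring
      _ ≤ (X * Real.exp (-L ^ ε0)) * X ^ (k - 1) := mul_le_mul_of_nonneg_right h5 (by positivity)
      _ = X ^ k * Real.exp (-L ^ ε0) := by
          have : X ^ k = X * X ^ (k - 1) := by
            rw [← pow_succ']
            congr 1
            omega
          rw [this]; ring
  -- conclusion
  set T : Set (Fin k → ℕ) := {b : Fin k → ℕ | (∀ i, X ≤ b i ∧ (b i : ℝ) ≤ 3 * X) ∧
        Admissible a b ∧ δ0 / 8 ≤ ∑ j, c j * D a b X (B j)} with hT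
  have hTfin : T.Finite := by
    refine (R0 : Finset (Fin k → ℕ)).finite_toSet.subset ?_
    intro b hb
    rw [Finset.mem_coe, hR0, Fintype.mem_piFinset]
    intro i
    have h1 := hb.1 i
    rw [Finset.mem_Icc]
    refine ⟨?_, Nat.le_floor h1.2⟩
    have : (0 : ℝ) < b i := by linarith
    exact_mod_cast this
  have hsub : ((Rg \ Rn : Finset (Fin k → ℕ)) : Set (Fin k → ℕ)) ⊆ T := by
    intro b hb
    rw [Finset.mem_coe, Finset.mem_sdiff] at hb
    obtain ⟨hb1, hb2⟩ := hb
    obtain ⟨h1, h2, h3⟩ := Finset.mem_filter.1 hb1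
    have h4 := h3.trans (hFD b h2)
    have hsol : ∃ n : ℕ, ∀ i, (a i * n + b i).Prime := by
      by_contra hcon
      push Not at hcon
      have h5 : ∀ y, count a b y = 0 := by
        intro y
        unfold count
        rw [Finset.card_eq_zero, Finset.filter_eq_empty_iff]
        intro n _ h6
        obtain ⟨i, hi⟩ := hcon n
        exact hi (h6 i)
      have h6 : ∑ j, c j * D a b X (B j) = 0 := by
        apply Finset.sum_eq_zero
        intro j _
        unfold D
        rw [h5]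
        simp
      rw [h6] at h4
      linarith
    obtain ⟨n, hn⟩ := hsol
    refine ⟨fun i => ⟨(h2 i).1.le, (h2 i).2.le⟩, ⟨?_, ?_⟩, h4⟩
    · intro i j hij he
      apply hb2
      exact Finset.mem_filter.2 ⟨h1, i, j, hij, (Prod.ext_iff.1 he).2⟩
    · intro p hp
      refine noFixed a b X ha ?_ (by linarith) (fun i => (h2 i).1) n hn p hp
      intro i
      refine le_trans ?_ g12
      exact_mod_cast Finset.single_le_sum (f := a) (fun _ _ => Nat.zero_le _) (Finset.mem_univ i)
  have hcard : ((Rg \ Rn : Finset (Fin k → ℕ)).card : ℝ) ≤ (T.ncard : ℝ) := by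
    rw [← Set.ncard_coe_finset]
    exact_mod_cast Set.ncard_le_ncard hsub hTfin
  refine le_trans ?_ hcard
  have h1 : (Rg.card : ℝ) ≤ ((Rg \ Rn : Finset (Fin k → ℕ)).card : ℝ) + (Rn.card : ℝ) := by
    exact_mod_cast Finset.card_le_card_sdiff_add_card
  have h2 : X ^ k * Real.exp (-L ^ ε) ≤ X ^ k * Real.exp (-L ^ ε0) := by
    apply mul_le_mul_of_nonneg_left _ (by positivity)
    apply Real.exp_le_exp.2
    have := Real.rpow_le_rpow_of_exponent_le (show 1 ≤ L by linarith) (min_le_left ε (1 / 2))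
    linarith
  have h3 : 0 ≤ X ^ k * Real.exp (-L ^ ε0) := by positivity
  linarith

end Pool.Agent.H569.CT
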