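import Mathlib

/-! Prescribed Jacobi symbols: combinatorial and elementary part. -/

namespace Pool.Agent.H569.LM

open Finset

/-- a set of more than `(m - 1) ^ N` words of length `N` over `m` letters contains `m` words which agree
above some place at which all `m` letters occur -/
theorem full_node {m : ℕ} : ∀ (N : ℕ) (S : Finset (Fin N → Fin m)), (m - 1) ^ N < S.card →
    ∃ (l : Fin N) (s : Fin m → (Fin N → Fin m)), (∀ i, s i ∈ S) ∧ (∀ i, s i l = i) ∧
      ∀ i j, ∀ l' : Fin N, l < l' → s i l' = s j l' := by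
  classical
  intro N
  induction N with
  | zero =>
    intro S hS
    have h1 : S.card ≤ 1 := by
      refine Finset.card_le_one.2 ?_
      intro a _ b _
      exact Subsingleton.elim a b
    simp at hS
    omega
  | succ N ih =>
    intro S hS
    by_cases hall : ∀ c : Fin m, ∃ w ∈ S, w (Fin.last N) = c
    · choose s hs using hall
      refine ⟨Fin.last N, s, fun i => (hs i).1, fun i => (hs i).2, ?_⟩
      intro i j l' hl'
      exact absurd (Fin.le_last l') (not_le.2 hl')
    · push Not at hall
      obtain ⟨c0, hc0⟩ := hall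
      let Sc : Fin m → Finset (Fin N → Fin m) := fun c =>
        (S.filter (fun w => w (Fin.last N) = c)).image (fun w => Fin.init w)
      have hcard : ∀ c, (Sc c).card = (S.filter (fun w => w (Fin.last N) = c)).card := by
        intro c
        apply Finset.card_image_of_injOn
        intro w hw w' hw' he
        have h1 := (Finset.mem_filter.1 hw).2
        have h2 := (Finset.mem_filter.1 hw').2
        have e1 : Fin.snoc (α := fun _ => Fin m) (Fin.init w) (w (Fin.last N)) = w := Fin.snoc_init_self w
        have e2 : Fin.snoc (α := fun _ => Fin m) (Fin.init w') (w' (Fin.last N)) = w' := Fin.snoc_init_self w'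
        have he' : Fin.init w = Fin.init w' := he
        rw [← e1, ← e2, he', h1, h2]
      have hsum : S.card = ∑ c, (Sc c).card := by
        rw [Finset.card_eq_sum_card_fiberwise (f := fun w => w (Fin.last N)) (t := Finset.univ)
          (fun _ _ => Finset.mem_univ _)]
        exact Finset.sum_congr rfl fun c _ => (hcard c).symm
      have hc0' : (Sc c0).card = 0 := by
        rw [hcard, Finset.card_eq_zero, Finset.filter_eq_empty_iff]
        intro w hw
        exact hc0 w hw
      have hex : ∃ c, (m - 1) ^ N < (Sc c).card := by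
        by_contra hcon
        push Not at hcon
        have : S.card ≤ (m - 1) ^ (N + 1) := by
          rw [hsum, ← Finset.add_sum_erase _ _ (Finset.mem_univ c0), hc0', zero_add]
          calc ∑ c ∈ Finset.univ.erase c0, (Sc c).card ≤ ∑ c ∈ Finset.univ.erase c0, (m - 1) ^ N :=
                Finset.sum_le_sum fun c _ => hcon c
            _ = (m - 1) ^ (N + 1) := by
                rw [Finset.sum_const, Finset.card_erase_of_mem (Finset.mem_univ _), Finset.card_univ,
                  Fintype.card_fin, smul_eq_mul, pow_succ, mul_comm]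
        omega
      obtain ⟨c, hc⟩ := hex
      obtain ⟨l, s, h1, h2, h3⟩ := ih (Sc c) hc
      refine ⟨l.castSucc, fun i => Fin.snoc (α := fun _ => Fin m) (s i) c, ?_, ?_, ?_⟩
      · intro i
        obtain ⟨w, hw, he⟩ := Finset.mem_image.1 (h1 i)
        have hw1 := (Finset.mem_filter.1 hw).1
        have hw2 := (Finset.mem_filter.1 hw).2
        have e1 : Fin.snoc (α := fun _ => Fin m) (Fin.init w) (w (Fin.last N)) = w := Fin.snoc_init_self w
        have he' : Fin.init w = s i := he
        show Fin.snoc (α := fun _ => Fin m) (s i) c ∈ S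
        rw [← he', ← hw2, e1]
        exact hw1
      · intro i
        show Fin.snoc (α := fun _ => Fin m) (s i) c l.castSucc = i
        rw [Fin.snoc_castSucc]
        exact h2 i
      · intro i j l' hl'
        show Fin.snoc (α := fun _ => Fin m) (s i) c l' = Fin.snoc (α := fun _ => Fin m) (s j) c l'
        induction l' using Fin.lastCases with
        | last => rw [Fin.snoc_last, Fin.snoc_last]
        | cast l'' =>
          rw [Fin.snoc_castSucc, Fin.snoc_castSucc]
          exact h3 i j l'' (by simpa using hl')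

/-- the numbers attached to words are ordered by the letters at the highest place where they differ -/
theorem order {m N : ℕ} (u v : Fin N → Fin m) (l : Fin N) (h1 : u l < v l)
    (h2 : ∀ l', l < l' → u l' = v l') : finFunctionFinEquiv u < finFunctionFinEquiv v := by
  rw [Fin.lt_def, finFunctionFinEquiv_apply, finFunctionFinEquiv_apply]
  have hm : 1 ≤ m := by have := (u l).isLt; omega
  have key : ∀ w : Fin N → Fin m, ∑ i ∈ Finset.univ.filter (fun i => i < l), (w i : ℕ) * m ^ (i : ℕ) < m ^ (l : ℕ) := by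
    intro w
    have e1 : ∑ i ∈ Finset.univ.filter (fun i => i < l), (w i : ℕ) * m ^ (i : ℕ) ≤
        ∑ i ∈ Finset.range (l : ℕ), (m - 1) * m ^ i := by
      have e2 : ∑ i ∈ Finset.univ.filter (fun i => i < l), (w i : ℕ) * m ^ (i : ℕ) ≤
          ∑ i ∈ Finset.univ.filter (fun i : Fin N => i < l), (m - 1) * m ^ (i : ℕ) := by
        apply Finset.sum_le_sum
        intro i _
        apply Nat.mul_le_mul_right
        have := (w i).isLt
        omega
      refine e2.trans (le_of_eq ?_)
      refine Finset.sum_bij (fun i _ => (i : ℕ)) ?_ ?_ ?_ ?_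
      · intro i hi
        exact Finset.mem_range.2 (Fin.lt_def.1 (Finset.mem_filter.1 hi).2)
      · intro i _ j _ h
        exact Fin.ext h
      · intro b hb
        have hb' := Finset.mem_range.1 hb
        exact ⟨⟨b, by have := l.isLt; omega⟩, Finset.mem_filter.2 ⟨Finset.mem_univ _, Fin.lt_def.2 hb'⟩, rfl⟩
      · intro i _
        rfl
    have e3 : ∑ i ∈ Finset.range (l : ℕ), (m - 1) * m ^ i + 1 = m ^ (l : ℕ) := by
      induction (l : ℕ) with
      | zero => simp
      | succ k ih =>
        rw [Finset.sum_range_succ]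
        have : (m - 1) * m ^ k + m ^ k = m ^ (k + 1) := by
          rw [← Nat.succ_mul, pow_succ, mul_comm]
          congr 1
          omega
        omega
    omega
  have split : ∀ w : Fin N → Fin m, ∑ i, (w i : ℕ) * m ^ (i : ℕ) =
      ∑ i ∈ Finset.univ.filter (fun i => i < l), (w i : ℕ) * m ^ (i : ℕ) + ((w l : ℕ) * m ^ (l : ℕ) +
      ∑ i ∈ Finset.univ.filter (fun i => l < i), (w i : ℕ) * m ^ (i : ℕ)) := by
    intro w
    have h3 : (Finset.univ : Finset (Fin N)) = Finset.univ.filter (fun i => i < l) ∪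
        ({l} ∪ Finset.univ.filter (fun i => l < i)) := by
      ext i
      simp only [Finset.mem_univ, Finset.mem_union, Finset.mem_filter, true_and, Finset.mem_singleton, true_iff]
      rcases lt_trichotomy i l with h | h | h
      · exact Or.inl h
      · exact Or.inr (Or.inl h)
      · exact Or.inr (Or.inr h)
    conv_lhs => rw [h3]
    rw [Finset.sum_union, Finset.sum_union, Finset.sum_singleton]
    · rw [Finset.disjoint_left]
      intro i hi hi'
      rw [Finset.mem_singleton] at hi
      rw [hi] at hi'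
      exact lt_irrefl _ (Finset.mem_filter.1 hi').2
    · rw [Finset.disjoint_left]
      intro i hi hi'
      have h4 := (Finset.mem_filter.1 hi).2
      rcases Finset.mem_union.1 hi' with h5 | h5
      · rw [Finset.mem_singleton] at h5
        rw [h5] at h4
        exact lt_irrefl _ h4
      · exact lt_asymm h4 (Finset.mem_filter.1 h5).2
  rw [split u, split v]
  have h5 : ∑ i ∈ Finset.univ.filter (fun i => l < i), (u i : ℕ) * m ^ (i : ℕ) =
      ∑ i ∈ Finset.univ.filter (fun i => l < i), (v i : ℕ) * m ^ (i : ℕ) := by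
    apply Finset.sum_congr rfl
    intro i hi
    rw [h2 i (Finset.mem_filter.1 hi).2]
  have h6 := key u
  have h7 : ((u l : ℕ) + 1) * m ^ (l : ℕ) ≤ (v l : ℕ) * m ^ (l : ℕ) :=
    Nat.mul_le_mul_right _ (Fin.lt_def.1 h1)
  rw [h5]
  have h8 : ((u l : ℕ) + 1) * m ^ (l : ℕ) = (u l : ℕ) * m ^ (l : ℕ) + m ^ (l : ℕ) := by ring
  omega

/-- residues with a given quadratic character avoiding few classes -/
theorem residue_choice {p : ℕ} [Fact p.Prime] (R : ℕ) (hR : (R + 2) ^ 2 < p)
    (F : Finset (ZMod p)) (hF : F.card ≤ R) (t : ℤ) (ht : t = 1 ∨ t = -1) :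
    ∃ u : ZMod p, u ≠ 0 ∧ u ∉ F ∧ quadraticChar (ZMod p) u = t := by
  classical
  have hp2 : p ≠ 2 := by
    have : 4 ≤ (R + 2) ^ 2 := by nlinarith
    omega
  obtain ⟨g, hg⟩ : ∃ g : ZMod p, quadraticChar (ZMod p) g = t := by
    rcases ht with h | h
    · exact ⟨1, by rw [h]; simp⟩
    · obtain ⟨g, hg⟩ := quadraticChar_exists_neg_one (F := ZMod p) (by rw [ZMod.ringChar_zmod_n]; exact hp2)
      exact ⟨g, by rw [h]; exact hg⟩
  have hg0 : g ≠ 0 := by
    rintro rfl
    rw [quadraticChar_zero] at hg
    rcases ht with h | h <;> omega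
  have hne : ∀ j ∈ Finset.Icc 1 (R + 1), ((j : ℕ) : ZMod p) ≠ 0 := by
    intro j hj h0
    have h1 := Finset.mem_Icc.1 hj
    rw [ZMod.natCast_eq_zero_iff] at h0
    have := Nat.le_of_dvd (by omega) h0
    nlinarith
  have hinj : Set.InjOn (fun j : ℕ => g * ((j : ℕ) : ZMod p) ^ 2) (Finset.Icc 1 (R + 1) : Finset ℕ) := by
    intro j hj k hk he
    have hj1 := Finset.mem_Icc.1 hj
    have hk1 := Finset.mem_Icc.1 hk
    have h1 : ((j : ℕ) : ZMod p) ^ 2 = ((k : ℕ) : ZMod p) ^ 2 := mul_left_cancel₀ hg0 he
    have h2 : ((j ^ 2 : ℕ) : ZMod p) = ((k ^ 2 : ℕ) : ZMod p) := by push_cast; exact h1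
    rw [ZMod.natCast_eq_natCast_iff'] at h2
    have h3 : j ^ 2 < p := lt_of_le_of_lt (Nat.pow_le_pow_left (by omega : j ≤ R + 2) 2) hR
    have h4 : k ^ 2 < p := lt_of_le_of_lt (Nat.pow_le_pow_left (by omega : k ≤ R + 2) 2) hR
    rw [Nat.mod_eq_of_lt h3, Nat.mod_eq_of_lt h4] at h2
    exact Nat.pow_left_injective (by norm_num) h2
  have hc : F.card < ((Finset.Icc 1 (R + 1)).image (fun j : ℕ => g * ((j : ℕ) : ZMod p) ^ 2)).card := by
    rw [Finset.card_image_of_injOn hinj, Nat.card_Icc]
    omega
  obtain ⟨u, hu, huF⟩ := Finset.exists_mem_notMem_of_card_lt_card hc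
  obtain ⟨j, hj, rfl⟩ := Finset.mem_image.1 hu
  refine ⟨_, mul_ne_zero hg0 (pow_ne_zero 2 (hne j hj)), huF, ?_⟩
  rw [map_mul, hg, map_pow, quadraticChar_sq_one (hne j hj), mul_one]


theorem cast_eq_modEq {q a b : ℕ} (h : (a : ZMod q) = (b : ZMod q)) : a ≡ b [MOD q] :=
  (ZMod.natCast_eq_natCast_iff a b q).1 h

/-- primes with prescribed mutual Legendre symbols -/
theorem seq (q a : ℕ) (hq : 0 < q) (ha : a.Coprime q) (R0 bd : ℕ) (hbq : q < bd) (hbd : (R0 + 2) ^ 2 < bd)
    (τ : ℕ → ℕ → ℤ) (hτ : ∀ z w, τ z w = 1 ∨ τ z w = -1) : ∀ R ≤ R0, ∃ B : ℕ → ℕ,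
    (∀ z < R, (B z).Prime ∧ B z ≡ a [MOD q] ∧ bd < B z) ∧ (∀ w z, w < z → z < R → B w < B z) ∧
    (∀ w z, w < z → z < R → jacobiSym (B z) (B w) = τ z w) ∧
    ∀ w z v, w < z → z < R → v < z → v ≠ w → ¬ (B z ≡ B v [MOD B w]) := by
  classical
  intro R
  induction R with
  | zero =>
    intro _
    exact ⟨fun _ => 0, fun z hz => absurd hz (Nat.not_lt_zero _), fun w z _ hz => absurd hz (Nat.not_lt_zero _),
      fun w z _ hz => absurd hz (Nat.not_lt_zero _), fun w z v _ hz => absurd hz (Nat.not_lt_zero _)⟩
  | succ R ih =>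
    intro hR
    obtain ⟨B, h1, h2, h3, h4⟩ := ih (by omega)
    -- the residues
    have hu : ∀ w : ℕ, ∃ u : ℕ, w < R → (¬ B w ∣ u) ∧ (∀ v < R, v ≠ w → ¬ (u ≡ B v [MOD B w])) ∧
        jacobiSym u (B w) = τ R w := by
      intro w
      by_cases hw : w < R
      · haveI := Fact.mk (h1 w hw).1
        obtain ⟨u, hu0, huF, hut⟩ := residue_choice (p := B w) R
          (lt_of_le_of_lt (Nat.pow_le_pow_left (by omega) 2) (hbd.trans (h1 w hw).2.2))
          ((Finset.range R).image (fun v => ((B v : ℕ) : ZMod (B w))))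
          (Finset.card_image_le.trans (by rw [Finset.card_range])) (τ R w) (hτ R w)
        refine ⟨u.val, fun _ => ⟨?_, ?_, ?_⟩⟩
        · intro hd
          apply hu0
          rw [← ZMod.natCast_eq_zero_iff, ZMod.natCast_zmod_val] at hd
          exact hd
        · intro v hv _ hm
          apply huF
          rw [← ZMod.natCast_eq_natCast_iff, ZMod.natCast_zmod_val] at hm
          exact Finset.mem_image.2 ⟨v, Finset.mem_range.2 hv, hm.symm⟩
        · rw [← jacobiSym.legendreSym.to_jacobiSym, legendreSym]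
          push_cast
          rw [ZMod.natCast_zmod_val]
          exact hut
      · exact ⟨0, fun h => absurd h hw⟩
    choose u hu using hu
    -- the Chinese remainder theorem
    have hpr : ∀ w < R, (B w).Prime := fun w hw => (h1 w hw).1
    have hcopq : ∀ w < R, Nat.Coprime q (B w) := by
      intro w hw
      refine (Nat.coprime_comm.1 ((Nat.Prime.coprime_iff_not_dvd (hpr w hw)).2 ?_))
      intro hd
      have := Nat.le_of_dvd hq hd
      have := (h1 w hw).2.2
      omega
    have hcopB : ∀ w < R, ∀ v < R, w ≠ v → Nat.Coprime (B w) (B v) := by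
      intro w hw v hv hne
      rw [Nat.coprime_primes (hpr w hw) (hpr v hv)]
      rcases lt_or_gt_of_ne hne with h | h
      · exact (h2 w v h hv).ne
      · exact (h2 v w h hw).ne'
    let sm : ℕ → ℕ := fun i => if i < R then B i else q
    let am : ℕ → ℕ := fun i => if i < R then u i else a
    obtain ⟨k, hk⟩ := Nat.chineseRemainderOfFinset am sm (Finset.range (R + 1)) (by
      intro i _
      show (if i < R then B i else q) ≠ 0
      split_ifs with h
      · exact (hpr i h).ne_zero
      · omega) (by
      intro i hi j hj hij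
      have hi' : i < R + 1 := Finset.mem_range.1 hi
      have hj' : j < R + 1 := Finset.mem_range.1 hj
      show Nat.Coprime (if i < R then B i else q) (if j < R then B j else q)
      split_ifs with hA hB hB
      · exact hcopB i hA j hB hij
      · exact (hcopq i hA).symm
      · exact hcopq j hB
      · omega)
    have hkB : ∀ w < R, k ≡ u w [MOD B w] := by
      intro w hw
      have := hk w (Finset.mem_range.2 (by omega))
      simpa [sm, am, hw] using this
    have hkq : k ≡ a [MOD q] := by
      have := hk R (Finset.mem_range.2 (by omega))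
      simpa [sm, am] using this
    set Q : ℕ := q * ∏ w ∈ Finset.range R, B w with hQ
    have hQ0 : 0 < Q := Nat.mul_pos hq (Finset.prod_pos fun w hw => (hpr w (Finset.mem_range.1 hw)).pos)
    haveI : NeZero Q := ⟨hQ0.ne'⟩
    have hkcop : Nat.Coprime k Q := by
      rw [hQ]
      refine Nat.Coprime.mul_right ?_ (Nat.Coprime.prod_right ?_)
      · rw [Nat.coprime_iff_gcd_eq_one, hkq.gcd_eq]
        exact ha
      · intro w hw
        have hw' := Finset.mem_range.1 hw
        refine (Nat.coprime_comm.1 ((Nat.Prime.coprime_iff_not_dvd (hpr w hw')).2 ?_))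
        intro hd
        exact (hu w hw').1 ((Nat.ModEq.dvd_iff (hkB w hw') dvd_rfl).1 hd)
    obtain ⟨P, hP1, hP2, hP3⟩ := Nat.forall_exists_prime_gt_and_eq_mod (q := Q) (a := (k : ZMod Q))
      ((ZMod.isUnit_iff_coprime k Q).2 hkcop) (bd + ∑ w ∈ Finset.range R, B w)
    have hPk : P ≡ k [MOD Q] := cast_eq_modEq hP3
    have hPq : P ≡ a [MOD q] := (hPk.of_dvd (Dvd.intro _ hQ.symm)).trans hkq
    have hPB : ∀ w < R, P ≡ u w [MOD B w] := by
      intro w hw
      exact (hPk.of_dvd ((Finset.dvd_prod_of_mem B (Finset.mem_range.2 hw)).trans (Dvd.intro_left _ hQ.symm))).trans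
        (hkB w hw)
    have hPgt : ∀ w < R, B w < P := by
      intro w hw
      have := Finset.single_le_sum (f := B) (fun _ _ => Nat.zero_le _) (Finset.mem_range.2 hw)
      omega
    let B' : ℕ → ℕ := fun z => if z < R then B z else P
    have e1 : ∀ z, z < R → B' z = B z := fun z hz => by simp [B', hz]
    have e2 : B' R = P := by simp [B']
    have hlt : ∀ z, z < R + 1 → z < R ∨ z = R := fun z hz => by omega
    refine ⟨B', ?_, ?_, ?_, ?_⟩
    · intro z hz
      rcases hlt z hz with h | h
      · rw [e1 z h]; exact h1 z h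
      · rw [h, e2]; exact ⟨hP2, hPq, by omega⟩
    · intro w z hwz hz
      rcases hlt z hz with h | h
      · rw [e1 z h, e1 w (by omega)]; exact h2 w z hwz h
      · subst h
        rw [e2, e1 w hwz]; exact hPgt w hwz
    · intro w z hwz hz
      rcases hlt z hz with h | h
      · rw [e1 z h, e1 w (by omega)]; exact h3 w z hwz h
      · subst h
        rw [e2, e1 w hwz, ← (hu w hwz).2.2]
        apply jacobiSym.mod_left'
        have := hPB w hwz
        have h5 := (Int.natCast_modEq_iff.2 this)
        exact h5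
    · intro w z v hwz hz hvz hvw
      rcases hlt z hz with h | h
      · rw [e1 z h, e1 w (by omega), e1 v (by omega)]; exact h4 w z v hwz h hvz hvw
      · subst h
        rw [e2, e1 w hwz, e1 v hvz]
        intro hm
        exact (hu w hwz).2.1 v hvz hvw ((hPB w hwz).symm.trans hm)

/-- the Jacobi symbol of two forms with equal slopes is constant -/
theorem jac_const {L n b c : ℕ} (hbc : c < b) (hc : Odd c) (hL : 4 * (b - c) ∣ L) :
    jacobiSym ((L * n + b : ℕ) : ℤ) (L * n + c) = jacobiSym b c := by
  have hodd : Odd (L * n + c) := by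
    refine Even.add_odd (Even.mul_right ?_ n) hc
    exact even_iff_two_dvd.2 ((Dvd.intro (2 * (b - c)) (by ring)).trans hL)
  have e1 : jacobiSym ((L * n + b : ℕ) : ℤ) (L * n + c) = jacobiSym ((b - c : ℕ) : ℤ) (L * n + c) := by
    apply jacobiSym.mod_left'
    have : ((L * n + b : ℕ) : ℤ) = ((b - c : ℕ) : ℤ) + ((L * n + c : ℕ) : ℤ) * 1 := by
      rw [Nat.cast_sub hbc.le]; push_cast; ring
    rw [this, Int.add_mul_emod_self_left]
  have e2 : jacobiSym ((b - c : ℕ) : ℤ) (L * n + c) = jacobiSym ((b - c : ℕ) : ℤ) c := by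
    rw [jacobiSym.mod_right' (b - c) hodd, jacobiSym.mod_right' (b - c) hc]
    congr 1
    obtain ⟨d, hd⟩ := hL
    rw [hd, mul_assoc, Nat.mul_add_mod]
  have e3 : jacobiSym ((b - c : ℕ) : ℤ) c = jacobiSym b c := by
    apply jacobiSym.mod_left'
    have : ((b : ℕ) : ℤ) = ((b - c : ℕ) : ℤ) + ((c : ℕ) : ℤ) * 1 := by
      rw [Nat.cast_sub hbc.le]; ring
    rw [this, Int.add_mul_emod_self_left]
  rw [e1, e2, e3]

end Pool.Agent.H569.LM
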