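import Mathlib
import Pool.Agent.H569.LM

/-! Infinite sequences of shifts with residues for which the Jacobi symbols have given values. -/

set_option autoImplicit false

namespace Pool.Agent.H569.IL

open Finset

theorem crtF {ι : Type} (s : Finset ι) (m c : ι → ℕ) (W r0 : ℕ) (hW : ∀ i ∈ s, Nat.Coprime W (m i))
    (hp : ∀ i ∈ s, ∀ j ∈ s, i ≠ j → Nat.Coprime (m i) (m j)) :
    ∃ v, v ≡ r0 [MOD W] ∧ ∀ i ∈ s, v ≡ c i [MOD m i] := by
  classical
  induction s using Finset.induction_on with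
  | empty => exact ⟨r0, Nat.ModEq.refl _, by simp⟩
  | insert a s ha ih =>
    obtain ⟨v, h1, h2⟩ := ih (fun i hi => hW i (mem_insert_of_mem hi))
      (fun i hi j hj => hp i (mem_insert_of_mem hi) j (mem_insert_of_mem hj))
    have hco : Nat.Coprime (W * ∏ i ∈ s, m i) (m a) := by
      refine Nat.Coprime.mul_left (hW a (mem_insert_self _ _)) (Nat.Coprime.prod_left fun i hi => ?_)
      exact hp i (mem_insert_of_mem hi) a (mem_insert_self _ _) (fun h => ha (h ▸ hi))
    obtain ⟨k, hk1, hk2⟩ := Nat.chineseRemainder hco v (c a)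
    refine ⟨k, (hk1.of_dvd (Dvd.intro _ rfl)).trans h1, fun i hi => ?_⟩
    rcases mem_insert.1 hi with rfl | hi
    · exact hk2
    · exact (hk1.of_dvd ((dvd_prod_of_mem m hi).trans (Dvd.intro_left _ rfl))).trans (h2 i hi)

/-- private primes -/
theorem primes_seq (B : ℕ) : ∃ l : ℕ → ℕ, StrictMono l ∧ ∀ x, (l x).Prime ∧ B < l x ∧ l x % 4 = 1 := by
  have h : ∀ n : ℕ, ∃ p, p.Prime ∧ n < p ∧ p % 4 = 1 := by
    intro n
    obtain ⟨p, h1, h2, h3⟩ := Nat.exists_prime_gt_modEq_one (k := 4) n (by norm_num)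
    exact ⟨p, h1, h2, h3⟩
  choose g hg1 hg2 hg3 using h
  let l : ℕ → ℕ := fun x => Nat.rec (g B) (fun _ p => g p) x
  have hl : ∀ x, l (x + 1) = g (l x) := fun x => rfl
  have hmono : StrictMono l := strictMono_nat_of_lt_succ fun x => by rw [hl]; exact hg2 _
  refine ⟨l, hmono, fun x => ?_⟩
  induction x with
  | zero => exact ⟨hg1 _, hg2 _, hg3 _⟩
  | succ x ih => exact ⟨hg1 _, ih.2.1.trans (hg2 _), hg3 _⟩

/-- residue avoiding zero and few classes -/
theorem avoid_few {p : ℕ} (hp : p.Prime) (y : ℕ) (hy : y + 2 < p) (h : ℕ → ℕ) :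
    ∃ c : ℕ, ¬ p ∣ c ∧ ∀ i ≤ y, ¬ p ∣ c + h i := by
  classical
  have : Fact p.Prime := ⟨hp⟩
  set F : Finset (ZMod p) := insert 0 ((range (y + 1)).image (fun i => -((h i : ℕ) : ZMod p))) with hF
  have hc : F.card < (univ : Finset (ZMod p)).card := by
    rw [card_univ, ZMod.card]
    refine lt_of_le_of_lt (card_insert_le _ _) ?_
    have : ((range (y + 1)).image (fun i => -((h i : ℕ) : ZMod p))).card ≤ y + 1 :=
      card_image_le.trans (by rw [card_range])
    omega
  obtain ⟨u, _, hu⟩ := exists_mem_notMem_of_card_lt_card hc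
  refine ⟨u.val, fun hd => hu ?_, fun i hi hd => hu ?_⟩
  · rw [← ZMod.natCast_eq_zero_iff, ZMod.natCast_zmod_val] at hd
    rw [hd, hF]
    exact mem_insert_self _ _
  · rw [← ZMod.natCast_eq_zero_iff, Nat.cast_add, ZMod.natCast_zmod_val] at hd
    rw [hF]
    refine mem_insert_of_mem (mem_image.2 ⟨i, mem_range.2 (by omega), ?_⟩)
    exact (eq_neg_of_add_eq_zero_left hd).symm

theorem coprime_of_primes {a V : ℕ} (_hV : 0 < V) (h : ∀ p : ℕ, p.Prime → p ∣ V → ¬ p ∣ a) : Nat.Coprime a V := by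
  by_contra hcon
  obtain ⟨p, hp, h1⟩ := Nat.exists_prime_and_dvd hcon
  exact h p hp (h1.trans (Nat.gcd_dvd_right _ _)) (h1.trans (Nat.gcd_dvd_left _ _))

theorem ndvd_of_coprime {a V p : ℕ} (hp : p.Prime) (hpV : p ∣ V) (h : Nat.Coprime a V) : ¬ p ∣ a := by
  intro hd
  have := Nat.dvd_gcd hd hpV
  rw [h] at this
  exact hp.one_lt.ne' (Nat.dvd_one.1 this)

theorem jac_per {D a b W : ℕ} (hD : 4 * D ∣ W) (hab : a ≡ b [MOD W]) (hb : Odd b) (hW : 4 ∣ W) :
    jacobiSym (D : ℤ) a = jacobiSym (D : ℤ) b := by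
  have h2 : a ≡ b [MOD 2] := hab.of_dvd ((by norm_num : 2 ∣ 4).trans hW)
  have ha : Odd a := by
    rw [Nat.odd_iff] at hb ⊢
    rw [← hb]
    exact h2
  rw [jacobiSym.mod_right' D ha, jacobiSym.mod_right' D hb]
  congr 1
  exact hab.of_dvd hD

/-- the properties at a stage -/
structure OK (q a : ℕ) (σ : ℕ → ℕ → ℤ) (y : ℕ) (W ρ : ℕ) (h : ℕ → ℕ) : Prop where
  pos : 0 < W
  dq : q ∣ W
  small : ∀ p : ℕ, p.Prime → p ≤ y + 3 → p ∣ W
  mono : ∀ i j, i < j → j < y → h i < h j
  diff : ∀ i j, i < j → j < y → 4 * (h j - h i) ∣ W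
  qh : ∀ i < y, q ∣ h i
  cop0 : Nat.Coprime ρ W
  cop : ∀ i < y, Nat.Coprime (ρ + h i) W
  res : ρ ≡ a [MOD q]
  sym : ∀ i j, i < j → j < y → jacobiSym ((h j - h i : ℕ) : ℤ) (ρ + h i) = σ i j

theorem step {q a : ℕ} (hq4 : 4 ∣ q) {σ : ℕ → ℕ → ℤ} (hσ : ∀ i j, σ i j = 1 ∨ σ i j = -1) {y W ρ : ℕ}
    {h : ℕ → ℕ} (H : OK q a σ y W ρ h) :
    ∃ W' ρ' : ℕ, ∃ h' : ℕ → ℕ, OK q a σ (y + 1) W' ρ' h' ∧ ∀ i < y, h' i = h i := by
  classical
  obtain ⟨l, hlm, hl⟩ := primes_seq (W + (y + 6) ^ 2)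
  have hlp : ∀ x, (l x).Prime := fun x => (hl x).1
  have hlW : ∀ x, ¬ l x ∣ W := by
    intro x hd
    have h1 := Nat.le_of_dvd H.pos hd
    have h2 := (hl x).2.1
    omega
  have hcopl : ∀ x, Nat.Coprime W (l x) := fun x =>
    Nat.coprime_comm.1 ((Nat.Prime.coprime_iff_not_dvd (hlp x)).2 (hlW x))
  have hcopll : ∀ x x', x ≠ x' → Nat.Coprime (l x) (l x') := fun x x' hne =>
    (Nat.coprime_primes (hlp x) (hlp x')).2 (hlm.injective.ne hne)
  -- the new shift
  obtain ⟨v0, hv1, hv2⟩ := crtF (range y) (fun x => l x ^ 2) (fun x => h x + l x) W 0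
    (fun x _ => (hcopl x).pow_right 2) (fun x _ x' _ hne => Nat.Coprime.pow 2 2 (hcopll x x' hne))
  set Pm : ℕ := W * ∏ x ∈ range y, l x ^ 2 with hPm
  have hPm0 : 0 < Pm := Nat.mul_pos H.pos (prod_pos fun x _ => pow_pos (hlp x).pos 2)
  set v : ℕ := v0 + Pm * (∑ x ∈ range y, h x + 1) with hv
  have hvW : W ∣ v := by
    rw [hv]
    refine Nat.dvd_add ((Nat.modEq_zero_iff_dvd).1 hv1) ?_
    exact (Dvd.intro _ hPm.symm).mul_right _
  have hvl : ∀ x < y, v ≡ h x + l x [MOD l x ^ 2] := by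
    intro x hx
    have h1 : l x ^ 2 ∣ Pm * (∑ x ∈ range y, h x + 1) :=
      Dvd.dvd.mul_right ((dvd_prod_of_mem (fun x => l x ^ 2) (mem_range.2 hx)).trans (Dvd.intro_left _ hPm.symm)) _
    have h2 : v ≡ v0 + 0 [MOD l x ^ 2] := Nat.ModEq.add_left v0 ((Nat.modEq_zero_iff_dvd).2 h1)
    exact h2.trans (hv2 x (mem_range.2 hx))
  have hvgt : ∀ x < y, h x < v := by
    intro x hx
    have h1 : h x ≤ ∑ x ∈ range y, h x := single_le_sum (f := h) (fun _ _ => Nat.zero_le _) (mem_range.2 hx)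
    have h2 : ∑ x ∈ range y, h x + 1 ≤ Pm * (∑ x ∈ range y, h x + 1) := Nat.le_mul_of_pos_left _ hPm0
    omega
  -- the differences
  have hD : ∀ x < y, ∃ D', v - h x = l x * D' ∧ ¬ l x ∣ D' := by
    intro x hx
    have h1 := hvl x hx
    have h2 : v - h x ≡ l x [MOD l x ^ 2] := by
      have h3 : (v - h x) + h x ≡ l x + h x [MOD l x ^ 2] := by
        rw [Nat.sub_add_cancel (hvgt x hx).le, add_comm (l x)]
        exact h1
      exact Nat.ModEq.add_right_cancel' _ h3
    have h4 : l x ∣ v - h x := by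
      have h5 : v - h x ≡ l x [MOD l x] := h2.of_dvd (dvd_pow_self _ two_ne_zero)
      exact (Nat.modEq_zero_iff_dvd).1 (h5.trans ((Nat.modEq_zero_iff_dvd).2 dvd_rfl))
    obtain ⟨D', hD'⟩ := h4
    refine ⟨D', hD', fun h6 => ?_⟩
    obtain ⟨E, hE⟩ := h6
    have h7 : l x ^ 2 ∣ v - h x := ⟨E, by rw [hD', hE]; ring⟩
    have h8 : l x ^ 2 ∣ l x := (Nat.modEq_zero_iff_dvd).1 (h2.symm.trans ((Nat.modEq_zero_iff_dvd).2 h7))
    have h9 := Nat.le_of_dvd (hlp x).pos h8
    have h10 := (hlp x).one_lt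
    nlinarith
  choose! D' hD1 hD2 using hD
  have hD'0 : ∀ x < y, 0 < D' x := by
    intro x hx
    rcases Nat.eq_zero_or_pos (D' x) with h0 | h0
    · exact absurd (h0 ▸ dvd_zero _) (hD2 x hx)
    · exact h0
  set V : ℕ := W * ((y + 4).factorial * ∏ x ∈ range y, (4 * D' x)) with hV
  have hV0 : 0 < V := Nat.mul_pos H.pos (Nat.mul_pos (Nat.factorial_pos _) (prod_pos fun x hx =>
    Nat.mul_pos (by norm_num) (hD'0 x (mem_range.1 hx))))
  have hWV : W ∣ V := Dvd.intro _ hV.symm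
  have hDV : ∀ x < y, 4 * D' x ∣ V := fun x hx =>
    ((dvd_prod_of_mem (fun x => 4 * D' x) (mem_range.2 hx)).trans (Dvd.intro_left _ rfl)).trans
      (Dvd.intro_left _ hV.symm)
  have hlV : ∀ x < y, ¬ l x ∣ V := by
    intro x hx hd
    have hbig := (hl x).2.1
    rw [hV] at hd
    rcases (hlp x).dvd_mul.1 hd with h1 | h1
    · exact hlW x h1
    · rcases (hlp x).dvd_mul.1 h1 with h2 | h2
      · have h3 := (hlp x).dvd_factorial.1 h2
        nlinarith
      · obtain ⟨x', hx', h3⟩ := ((hlp x).prime.dvd_finsetProd_iff _).1 h2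
        have hx'y := mem_range.1 hx'
        rcases (hlp x).dvd_mul.1 h3 with h4 | h4
        · have h5 := Nat.le_of_dvd (by norm_num) h4
          nlinarith
        · by_cases hxx : x' = x
          · subst hxx
            exact hD2 x' hx h4
          · -- `l x` divides `v - h x'` and `v - h x`
            have h5 : l x ∣ v - h x' := by rw [hD1 x' hx'y]; exact h4.mul_left _
            have h6 : l x ∣ v - h x := ⟨_, hD1 x hx⟩
            have h7 := hvgt x hx
            have h8 := hvgt x' hx'y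
            rcases lt_or_gt_of_ne hxx with h9 | h9
            · have h10 := H.mono x' x h9 hx
              have h11 : l x ∣ h x - h x' := by
                have h12 : (v - h x') - (v - h x) = h x - h x' := by omega
                rw [← h12]
                exact Nat.dvd_sub h5 h6
              exact hlW x (h11.trans ((Dvd.intro_left _ rfl).trans (H.diff x' x h9 hx)))
            · have h10 := H.mono x x' h9 hx'y
              have h11 : l x ∣ h x' - h x := by
                have h12 : (v - h x) - (v - h x') = h x' - h x := by omega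
                rw [← h12]
                exact Nat.dvd_sub h6 h5
              exact hlW x (h11.trans ((Dvd.intro_left _ rfl).trans (H.diff x x' h9 hx'y)))
  set h' : ℕ → ℕ := fun i => if i < y then h i else v with hh'
  have hh1 : ∀ i < y, h' i = h i := fun i hi => by simp [hh', hi]
  have hh2 : h' y = v := by simp [hh']
  -- the new primes which are not private
  have hc : ∀ p : ℕ, ∃ c : ℕ, p ∈ V.primeFactors.filter (fun p => ¬ p ∣ W) →
      ¬ p ∣ c ∧ ∀ i ≤ y, ¬ p ∣ c + h' i := by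
    intro p
    by_cases hp : p ∈ V.primeFactors.filter (fun p => ¬ p ∣ W)
    · have hp1 := Nat.prime_of_mem_primeFactors (mem_filter.1 hp).1
      have hp2 : y + 3 < p := by
        by_contra hcon
        exact (mem_filter.1 hp).2 (H.small p hp1 (by omega))
      obtain ⟨c, hc1, hc2⟩ := avoid_few hp1 y (by omega) h'
      exact ⟨c, fun _ => ⟨hc1, hc2⟩⟩
    · exact ⟨0, fun h => absurd h hp⟩
  choose c hc using hc
  obtain ⟨ρ1, hρ1, hρ2⟩ := crtF (V.primeFactors.filter (fun p => ¬ p ∣ W)) id c W ρ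
    (by
      intro p hp
      have hp1 := Nat.prime_of_mem_primeFactors (mem_filter.1 hp).1
      exact Nat.coprime_comm.1 ((Nat.Prime.coprime_iff_not_dvd hp1).2 (mem_filter.1 hp).2))
    (by
      intro p hp p' hp' hne
      exact (Nat.coprime_primes (Nat.prime_of_mem_primeFactors (mem_filter.1 hp).1)
        (Nat.prime_of_mem_primeFactors (mem_filter.1 hp').1)).2 hne)
  have hbase : ∀ p : ℕ, p.Prime → p ∣ V → ¬ p ∣ ρ1 ∧ ∀ i ≤ y, ¬ p ∣ ρ1 + h' i := by
    intro p hp hpV
    by_cases hpW : p ∣ W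
    · have h1 : ρ1 ≡ ρ [MOD p] := hρ1.of_dvd hpW
      have h2 : ¬ p ∣ ρ1 := by
        intro hd
        exact ndvd_of_coprime hp hpW H.cop0 ((Nat.ModEq.dvd_iff h1 dvd_rfl).1 hd)
      refine ⟨h2, fun i hi hd => ?_⟩
      rcases Nat.lt_or_ge i y with h3 | h3
      · rw [hh1 i h3] at hd
        exact ndvd_of_coprime hp hpW (H.cop i h3) ((Nat.ModEq.dvd_iff (h1.add_right _) dvd_rfl).1 hd)
      · have h4 : i = y := by omega
        rw [h4, hh2] at hd
        exact h2 ((Nat.dvd_add_iff_left (hpW.trans hvW)).2 hd)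
    · have hmem : p ∈ V.primeFactors.filter (fun p => ¬ p ∣ W) :=
        mem_filter.2 ⟨Nat.mem_primeFactors.2 ⟨hp, hpV, hV0.ne'⟩, hpW⟩
      have h1 : ρ1 ≡ c p [MOD p] := hρ2 p hmem
      obtain ⟨h2, h3⟩ := hc p hmem
      refine ⟨fun hd => h2 ((Nat.ModEq.dvd_iff h1 dvd_rfl).1 hd), fun i hi hd => ?_⟩
      exact h3 i hi ((Nat.ModEq.dvd_iff (h1.add_right _) dvd_rfl).1 hd)
  have hρ1V : Nat.Coprime ρ1 V := coprime_of_primes hV0 fun p hp hpV => (hbase p hp hpV).1
  have hρ1V' : ∀ i ≤ y, Nat.Coprime (ρ1 + h' i) V := fun i hi =>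
    coprime_of_primes hV0 fun p hp hpV => (hbase p hp hpV).2 i hi
  -- the private primes
  have hu : ∀ x, ∃ c : ℕ, x < y → (¬ l x ∣ c) ∧ (∀ i ≤ y, ¬ l x ∣ c + h' i) ∧
      jacobiSym ((c + h x : ℕ) : ℤ) (l x) = σ x y * jacobiSym (D' x : ℤ) (ρ1 + h x) := by
    intro x
    by_cases hx : x < y
    · have := Fact.mk (hlp x)
      have hjac : jacobiSym (D' x : ℤ) (ρ1 + h x) = 1 ∨ jacobiSym (D' x : ℤ) (ρ1 + h x) = -1 := by
        apply jacobiSym.eq_one_or_neg_one
        have h1 := hρ1V' x hx.le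
        rw [hh1 x hx] at h1
        have h2 : Nat.Coprime (ρ1 + h x) (D' x) :=
          Nat.Coprime.coprime_dvd_right ((Dvd.intro_left _ rfl).trans (hDV x hx)) h1
        rw [Int.gcd_natCast_natCast]
        exact h2.symm
      have ht : σ x y * jacobiSym (D' x : ℤ) (ρ1 + h x) = 1 ∨ σ x y * jacobiSym (D' x : ℤ) (ρ1 + h x) = -1 := by
        rcases hσ x y with h1 | h1 <;> rcases hjac with h2 | h2 <;> rw [h1, h2] <;> norm_num
      have hbig := (hl x).2.1
      obtain ⟨u, hu0, huF, hut⟩ := Pool.Agent.H569.LM.residue_choice (p := l x) (y + 2)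
        (by nlinarith) (insert ((h x : ℕ) : ZMod (l x)) ((range (y + 1)).image
          (fun i => ((h x : ℕ) : ZMod (l x)) - ((h' i : ℕ) : ZMod (l x)))))
        (by
          refine (card_insert_le _ _).trans ?_
          have : ((range (y + 1)).image
            (fun i => ((h x : ℕ) : ZMod (l x)) - ((h' i : ℕ) : ZMod (l x)))).card ≤ y + 1 :=
            card_image_le.trans (by rw [card_range])
          omega) _ ht
      refine ⟨(u - ((h x : ℕ) : ZMod (l x))).val, fun _ => ⟨?_, ?_, ?_⟩⟩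
      · intro hd
        rw [← ZMod.natCast_eq_zero_iff, ZMod.natCast_zmod_val] at hd
        apply huF
        rw [sub_eq_zero.1 hd]
        exact mem_insert_self _ _
      · intro i hi hd
        rw [← ZMod.natCast_eq_zero_iff, Nat.cast_add, ZMod.natCast_zmod_val] at hd
        apply huF
        refine mem_insert_of_mem (mem_image.2 ⟨i, mem_range.2 (by omega), ?_⟩)
        linear_combination (-1 : ZMod (l x)) * hd
      · rw [← jacobiSym.legendreSym.to_jacobiSym, legendreSym]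
        push_cast
        rw [ZMod.natCast_zmod_val, sub_add_cancel]
        exact hut
    · exact ⟨0, fun h => absurd h hx⟩
  choose u hu using hu
  obtain ⟨ρ', hρ3, hρ4⟩ := crtF (range y) l u V ρ1
    (fun x hx => Nat.coprime_comm.1 ((Nat.Prime.coprime_iff_not_dvd (hlp x)).2 (hlV x (mem_range.1 hx))))
    (fun x _ x' _ hne => hcopll x x' hne)
  set W' : ℕ := V * ∏ x ∈ range y, l x with hW'
  have hW'0 : 0 < W' := Nat.mul_pos hV0 (prod_pos fun x _ => (hlp x).pos)
  have hVW' : V ∣ W' := Dvd.intro _ hW'.symm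
  have h4W : 4 ∣ W := hq4.trans H.dq
  have hall : ∀ p : ℕ, p.Prime → p ∣ W' → ¬ p ∣ ρ' ∧ ∀ i ≤ y, ¬ p ∣ ρ' + h' i := by
    intro p hp hpW
    rw [hW'] at hpW
    rcases hp.dvd_mul.1 hpW with h1 | h1
    · have h2 : ρ' ≡ ρ1 [MOD p] := hρ3.of_dvd h1
      obtain ⟨h3, h4⟩ := hbase p hp h1
      refine ⟨fun hd => h3 ((Nat.ModEq.dvd_iff h2 dvd_rfl).1 hd), fun i hi hd => ?_⟩
      exact h4 i hi ((Nat.ModEq.dvd_iff (h2.add_right _) dvd_rfl).1 hd)
    · obtain ⟨x, hx, h2⟩ := (hp.prime.dvd_finsetProd_iff _).1 h1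
      have h3 : p = l x := (Nat.prime_dvd_prime_iff_eq hp (hlp x)).1 h2
      subst h3
      have h4 : ρ' ≡ u x [MOD l x] := hρ4 x hx
      obtain ⟨h5, h6, _⟩ := hu x (mem_range.1 hx)
      refine ⟨fun hd => h5 ((Nat.ModEq.dvd_iff h4 dvd_rfl).1 hd), fun i hi hd => ?_⟩
      exact h6 i hi ((Nat.ModEq.dvd_iff (h4.add_right _) dvd_rfl).1 hd)
  have hodd : ∀ i ≤ y, Odd (ρ' + h' i) := by
    intro i hi
    have h2W : 2 ∣ W' := ((by norm_num : 2 ∣ 4).trans h4W).trans (hWV.trans hVW')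
    rw [← Nat.not_even_iff_odd, even_iff_two_dvd]
    exact (hall 2 Nat.prime_two h2W).2 i hi
  refine ⟨W', ρ', h', ⟨hW'0, H.dq.trans (hWV.trans hVW'), ?_, ?_, ?_, ?_, ?_, ?_, ?_, ?_⟩, hh1⟩
  · intro p hp hpy
    refine Dvd.dvd.trans ?_ hVW'
    rw [hV]
    exact ((hp.dvd_factorial.2 (by omega)).trans (Dvd.intro _ rfl)).trans (Dvd.intro_left _ rfl)
  · intro i j hij hj
    rcases Nat.lt_or_ge j y with h1 | h1
    · rw [hh1 i (by omega), hh1 j h1]
      exact H.mono i j hij h1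
    · have h2 : j = y := by omega
      rw [h2, hh2, hh1 i (by omega)]
      exact hvgt i (by omega)
  · intro i j hij hj
    rcases Nat.lt_or_ge j y with h1 | h1
    · rw [hh1 i (by omega), hh1 j h1]
      exact (H.diff i j hij h1).trans (hWV.trans hVW')
    · have h2 : j = y := by omega
      rw [h2, hh2, hh1 i (by omega), hD1 i (by omega), hW']
      have h3 : 4 * (l i * D' i) = (4 * D' i) * l i := by ring
      rw [h3]
      exact mul_dvd_mul (hDV i (by omega)) (dvd_prod_of_mem l (mem_range.2 (by omega)))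
  · intro i hi
    rcases Nat.lt_or_ge i y with h1 | h1
    · rw [hh1 i h1]; exact H.qh i h1
    · have h2 : i = y := by omega
      rw [h2, hh2]
      exact H.dq.trans hvW
  · exact coprime_of_primes hW'0 fun p hp hpW => (hall p hp hpW).1
  · exact fun i hi => coprime_of_primes hW'0 fun p hp hpW => (hall p hp hpW).2 i (by omega)
  · exact (hρ3.of_dvd (H.dq.trans hWV)).trans ((hρ1.of_dvd H.dq).trans H.res)
  · intro i j hij hj
    rcases Nat.lt_or_ge j y with h1 | h1
    · have hi : i < y := by omega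
      rw [hh1 i hi, hh1 j h1, ← H.sym i j hij h1]
      have h2 : ρ' + h i ≡ ρ + h i [MOD W] := ((hρ3.of_dvd hWV).trans hρ1).add_right _
      have h3 : Odd (ρ + h i) := by
        rw [← Nat.not_even_iff_odd, even_iff_two_dvd]
        exact ndvd_of_coprime Nat.prime_two ((by norm_num : 2 ∣ 4).trans h4W) (H.cop i hi)
      exact jac_per (H.diff i j hij h1) h2 h3 h4W
    · have h2 : j = y := by omega
      subst h2
      have hi : i < j := hij
      rw [hh2, hh1 i hi, hD1 i hi]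
      have ho : Odd (ρ' + h i) := by have := hodd i hi.le; rwa [hh1 i hi] at this
      push_cast
      rw [jacobiSym.mul_left]
      have h3 : jacobiSym (D' i : ℤ) (ρ' + h i) = jacobiSym (D' i : ℤ) (ρ1 + h i) := by
        have h4 : ρ' + h i ≡ ρ1 + h i [MOD V] := hρ3.add_right _
        have h5 : Odd (ρ1 + h i) := by
          rw [← Nat.not_even_iff_odd, even_iff_two_dvd]
          have h6 := (hbase 2 Nat.prime_two (((by norm_num : 2 ∣ 4).trans h4W).trans hWV)).2 i hi.le
          rwa [hh1 i hi] at h6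
        exact jac_per (hDV i hi) h4 h5 (h4W.trans hWV)
      have h4 : jacobiSym (l i : ℤ) (ρ' + h i) = jacobiSym ((ρ' + h i : ℕ) : ℤ) (l i) :=
        jacobiSym.quadratic_reciprocity_one_mod_four (hl i).2.2 ho
      have h5 : jacobiSym ((ρ' + h i : ℕ) : ℤ) (l i) = jacobiSym ((u i + h i : ℕ) : ℤ) (l i) := by
        apply jacobiSym.mod_left'
        have h6 := (hρ4 i (mem_range.2 hi)).add_right (h i)
        exact Int.natCast_modEq_iff.2 h6
      rw [h3, h4, h5, (hu i hi).2.2, mul_assoc]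
      have h7 : jacobiSym (D' i : ℤ) (ρ1 + h i) = 1 ∨ jacobiSym (D' i : ℤ) (ρ1 + h i) = -1 := by
        apply jacobiSym.eq_one_or_neg_one
        have h1 := hρ1V' i hi.le
        rw [hh1 i hi] at h1
        have h2 : Nat.Coprime (ρ1 + h i) (D' i) :=
          Nat.Coprime.coprime_dvd_right ((Dvd.intro_left _ rfl).trans (hDV i hi)) h1
        rw [Int.gcd_natCast_natCast]
        exact h2.symm
      rcases h7 with h8 | h8 <;> rw [h8] <;> norm_num

end Pool.Agent.H569.IL
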