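import Mathlib

/-! Mixed strings: combinatorial part. -/

namespace Pool.Agent.H569.MS

open Finset

variable {α : Type} [DecidableEq α]

/-- the union of `U i`, `a ≤ i < b` -/
def un (U : ℕ → Finset α) (a b : ℕ) : Finset α := (Ico a b).biUnion U

theorem un_mono (U : ℕ → Finset α) {a b a' b' : ℕ} (h1 : a' ≤ a) (h2 : b ≤ b') : un U a b ⊆ un U a' b' :=
  biUnion_subset_biUnion_of_subset_left _ (Ico_subset_Ico h1 h2)

/-- a long sequence of finite sets has `ℓ` consecutive blocks with the same union -/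
theorem ramsey_union (ℓ : ℕ) (hℓ : 1 ≤ ℓ) (U : ℕ → Finset α) : ∀ (v : ℕ) (V : Finset α), V.card = v →
    ∀ a, un U a (a + ℓ ^ (v + 1)) ⊆ V → ∃ (a' h : ℕ) (B : Finset α), 1 ≤ h ∧ a ≤ a' ∧
      a' + ℓ * h ≤ a + ℓ ^ (v + 1) ∧ ∀ t < ℓ, un U (a' + t * h) (a' + (t + 1) * h) = B := by
  intro v
  induction v with
  | zero =>
    intro V hV a hU
    refine ⟨a, 1, ∅, le_rfl, le_rfl, by simp, fun t ht => ?_⟩
    rw [card_eq_zero.1 hV] at hU
    apply subset_empty.1
    refine (un_mono U ?_ ?_).trans hU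
    · omega
    · rw [zero_add, pow_one]; omega
  | succ v ih =>
    intro V hV a hU
    by_cases hall : ∀ t < ℓ, un U (a + t * ℓ ^ (v + 1)) (a + (t + 1) * ℓ ^ (v + 1)) = V
    · exact ⟨a, ℓ ^ (v + 1), V, Nat.one_le_pow _ _ hℓ, le_rfl, by rw [pow_succ ℓ (v + 1), mul_comm], hall⟩
    · push Not at hall
      obtain ⟨t, ht, hne⟩ := hall
      have hle : a + (t + 1) * ℓ ^ (v + 1) ≤ a + ℓ ^ (v + 1 + 1) := by
        rw [pow_succ ℓ (v + 1), mul_comm (ℓ ^ (v + 1))]
        exact Nat.add_le_add_left (Nat.mul_le_mul_right _ ht) _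
      have hsub : un U (a + t * ℓ ^ (v + 1)) (a + (t + 1) * ℓ ^ (v + 1)) ⊆ V :=
        (un_mono U (by omega) hle).trans hU
      obtain ⟨e, heV, he⟩ : ∃ e ∈ V, e ∉ un U (a + t * ℓ ^ (v + 1)) (a + (t + 1) * ℓ ^ (v + 1)) := by
        by_contra hcon
        push Not at hcon
        exact hne (Subset.antisymm hsub hcon)
      obtain ⟨a', h, B, h1, h2, h3, h4⟩ := ih (V.erase e) (by rw [card_erase_of_mem heV, hV]; rfl)
        (a + t * ℓ ^ (v + 1)) (by
          have e1 : a + t * ℓ ^ (v + 1) + ℓ ^ (v + 1) = a + (t + 1) * ℓ ^ (v + 1) := by ring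
          rw [e1]
          intro x hx
          exact mem_erase.2 ⟨fun h => he (h ▸ hx), hsub hx⟩)
      refine ⟨a', h, B, h1, by omega, h3.trans ?_, h4⟩
      have e1 : a + t * ℓ ^ (v + 1) + ℓ ^ (v + 1) = a + (t + 1) * ℓ ^ (v + 1) := by ring
      rw [e1]
      exact hle

/-- unions over blocks of blocks -/
theorem un_un (U : ℕ → Finset α) (e : ℕ → ℕ) (he : Monotone e) (a b : ℕ) (hab : a ≤ b) :
    un (fun t => un U (e t) (e (t + 1))) a b = un U (e a) (e b) := by
  induction b, hab using Nat.le_induction with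
  | base => simp [un]
  | succ b hb ih =>
    have h1 : un (fun t => un U (e t) (e (t + 1))) a (b + 1) =
        un (fun t => un U (e t) (e (t + 1))) a b ∪ un U (e b) (e (b + 1)) := by
      ext x
      simp only [un, mem_biUnion, mem_union, mem_Ico]
      constructor
      · rintro ⟨i, hi, j, hj, hx⟩
        by_cases h : i < b
        · exact Or.inl ⟨i, ⟨hi.1, h⟩, j, hj, hx⟩
        · have : i = b := by omega
          subst this
          exact Or.inr ⟨j, hj, hx⟩
      · rintro (⟨i, hi, j, hj, hx⟩ | ⟨j, hj, hx⟩)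
        · exact ⟨i, ⟨hi.1, by omega⟩, j, hj, hx⟩
        · exact ⟨b, ⟨hb, by omega⟩, j, hj, hx⟩
    rw [h1, ih]
    ext x
    simp only [un, mem_biUnion, mem_union, mem_Ico]
    have h2 := he hb
    have h3 := he (Nat.le_succ b)
    constructor
    · rintro (⟨i, hi, hx⟩ | ⟨i, hi, hx⟩)
      · exact ⟨i, ⟨hi.1, hi.2.trans_le h3⟩, hx⟩
      · exact ⟨i, ⟨h2.trans hi.1, hi.2⟩, hx⟩
    · rintro ⟨i, hi, hx⟩
      by_cases h : i < e b
      · exact Or.inl ⟨i, ⟨hi.1, h⟩, hx⟩
      · exact Or.inr ⟨i, ⟨by omega, hi.2⟩, hx⟩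

/-- **the combinatorial lemma**: `alive j` are the rows that are alive in the block `j` of columns -/
theorem mixed (A : ℕ) (hA : 1 ≤ A) (ℓ : ℕ) (hℓ : 1 ≤ ℓ) (η : ℝ) (hη : 0 < η) : ∃ M₀ : ℕ, ∀ M, M₀ ≤ M →
    ∀ (alive : ℕ → Finset (Fin A)), η * (A * M) ≤ ∑ j ∈ range M, ((alive j).card : ℝ) →
    ∃ (j : ℕ → ℕ) (B : Finset (Fin A)), η * A ≤ B.card ∧ (∀ t < ℓ, j t < j (t + 1)) ∧ j ℓ < M ∧
      ∀ t < ℓ, un alive (j t) (j (t + 1)) = B := by
  classical
  have hA0 : (0 : ℝ) < A := by exact_mod_cast hA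
  have hηA : 0 < η * A := by positivity
  obtain ⟨s, hs⟩ : ∃ s : ℕ, s + 1 = ⌈η * A⌉₊ := by
    have : 0 < ⌈η * A⌉₊ := Nat.ceil_pos.2 hηA
    exact ⟨⌈η * A⌉₊ - 1, by omega⟩
  have hs1 : (s : ℝ) < η * A := by
    rw [← Nat.lt_ceil]
    omega
  have hs2 : ∀ k : ℕ, ¬ η * A ≤ k → k ≤ s := by
    intro k hk
    by_contra hcon
    apply hk
    have h1 : ⌈η * A⌉₊ ≤ k := by omega
    exact (Nat.le_ceil _).trans (by exact_mod_cast h1)
  set θ : ℝ := η * A - s with hθ
  have hθ0 : 0 < θ := by linarith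
  refine ⟨⌈(A : ℝ) * (ℓ ^ (A + 1) + 1) / θ⌉₊ + 1, fun M hM alive hS => ?_⟩
  have hM1 : (A : ℝ) * (ℓ ^ (A + 1) + 1) < θ * M := by
    have h1 : (A : ℝ) * (ℓ ^ (A + 1) + 1) / θ < M := by
      refine lt_of_le_of_lt (Nat.le_ceil _) ?_
      exact_mod_cast hM
    rwa [div_lt_iff₀ hθ0, mul_comm (M : ℝ)] at h1
  set G : Finset ℕ := (range M).filter (fun j => η * A ≤ (alive j).card) with hG
  have h1 : ∑ j ∈ range M, ((alive j).card : ℝ) ≤ A * G.card + s * M := by
    rw [← sum_filter_add_sum_filter_not (range M) (fun j => η * A ≤ (alive j).card)]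
    apply add_le_add
    · calc ∑ j ∈ G, ((alive j).card : ℝ) ≤ ∑ j ∈ G, (A : ℝ) := by
            apply sum_le_sum
            intro j _
            have := card_le_univ (alive j)
            rw [Fintype.card_fin] at this
            exact_mod_cast this
        _ = A * G.card := by rw [sum_const, nsmul_eq_mul, mul_comm]
    · calc ∑ j ∈ (range M).filter (fun j => ¬ η * A ≤ (alive j).card), ((alive j).card : ℝ)
          ≤ ∑ j ∈ (range M).filter (fun j => ¬ η * A ≤ (alive j).card), (s : ℝ) := by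
            apply sum_le_sum
            intro j hj
            exact_mod_cast hs2 _ (mem_filter.1 hj).2
        _ ≤ s * M := by
            rw [sum_const, nsmul_eq_mul, mul_comm]
            apply mul_le_mul_of_nonneg_left _ (Nat.cast_nonneg _)
            have := card_filter_le (range M) (fun j => ¬ η * A ≤ (alive j).card)
            rw [card_range] at this
            exact_mod_cast this
  have h2 : ℓ ^ (A + 1) + 1 ≤ G.card := by
    by_contra hcon
    push Not at hcon
    have h3 : (G.card : ℝ) ≤ ℓ ^ (A + 1) + 1 := by exact_mod_cast hcon.le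
    have h4 : (A : ℝ) * G.card ≤ A * (ℓ ^ (A + 1) + 1) := mul_le_mul_of_nonneg_left h3 hA0.le
    have h5 : θ * M = η * (A * M) - s * M := by rw [hθ]; ring
    linarith
  set R : ℕ := ℓ ^ (A + 1) with hR
  let e₀ : Fin (R + 1) ↪o ℕ := G.orderEmbOfCardLe h2
  have he₀ : ∀ i, e₀ i ∈ G := fun i => orderEmbOfCardLe_mem G h2 i
  let e : ℕ → ℕ := fun t => e₀ ⟨min t R, by omega⟩
  have heG : ∀ t, e t ∈ G := fun t => he₀ _
  have hemono : Monotone e := by
    intro s t hst
    apply e₀.monotone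
    show min s R ≤ min t R
    omega
  have helt : ∀ s t, s < t → t ≤ R → e s < e t := by
    intro s t hst ht
    apply e₀.strictMono
    show min s R < min t R
    omega
  obtain ⟨a', h, B, k1, _, k3, k4⟩ := ramsey_union ℓ hℓ (fun t => un alive (e t) (e (t + 1))) A univ
    (by rw [card_univ, Fintype.card_fin]) 0 (subset_univ _)
  rw [zero_add] at k3
  have hjR : ∀ t, t ≤ ℓ → a' + t * h ≤ R := fun t ht => by
    have := Nat.mul_le_mul_right h ht
    omega
  refine ⟨fun t => e (a' + t * h), B, ?_, fun t ht => ?_, ?_, fun t ht => ?_⟩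
  · have h5 := k4 0 (by omega)
    rw [un_un alive e hemono _ _ (by omega)] at h5
    have h6 : alive (e (a' + 0 * h)) ⊆ B := by
      rw [← h5]
      apply subset_biUnion_of_mem
      rw [mem_Ico]
      refine ⟨le_rfl, helt _ _ (by omega) ?_⟩
      have := hjR 1 (by omega)
      simpa using this
    have h7 := (mem_filter.1 (heG (a' + 0 * h))).2
    exact h7.trans (by exact_mod_cast card_le_card h6)
  · apply helt
    · have : (t + 1) * h = t * h + h := by ring
      omega
    · exact hjR _ ht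
  · exact mem_range.1 (mem_filter.1 (heG _)).1
  · have h5 := k4 t ht
    rw [un_un alive e hemono _ _ (by
      have : (t + 1) * h = t * h + h := by ring
      omega)] at h5
    exact h5

end Pool.Agent.H569.MS
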