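import Mathlib
import Pool.Agent.H569.MS1

/-! Mixed strings: from coloured positions to strings. -/

namespace Pool.Agent.H569.MS

open Finset

/-- the block of columns of the position `z` (colours with `N` positions each; `A` rows, `m` colours) -/
def colour (N m z : ℕ) : ℕ := min (z / N) (m - 1)

theorem colour_mono (N m : ℕ) : Monotone (colour N m) := by
  intro a b h
  unfold colour
  have := Nat.div_le_div_right (c := N) h
  omega

theorem colour_lt {N m : ℕ} (hm : 1 ≤ m) (z : ℕ) : colour N m z < m := by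
  unfold colour; omega

open Classical in
/-- the rows which are alive in the block `j` -/
noncomputable def alive (A N m K : ℕ) (hA : 0 < A) (P : ℕ → Prop) (j : ℕ) : Finset (Fin A) :=
  univ.filter (fun a => ∃ z < K, colour N m z / A = j ∧ (⟨colour N m z % A, Nat.mod_lt _ hA⟩ : Fin A) = a ∧ P z)

theorem count_alive {A M N K : ℕ} (hA : 0 < A) (P : ℕ → Prop) (E : Finset (Fin (A * M)))
    (hE : ∀ e ∈ E, ∃ z < K, colour N (A * M) z = e ∧ P z) :
    E.card ≤ ∑ j ∈ range M, (alive A N (A * M) K hA P j).card := by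
  classical
  rw [← card_sigma]
  refine card_le_card_of_injOn (fun e : Fin (A * M) => (⟨(e : ℕ) / A, ⟨(e : ℕ) % A, Nat.mod_lt _ hA⟩⟩ : (_ : ℕ) × Fin A)) ?_ ?_
  · intro e he
    obtain ⟨z, hz, h1, h2⟩ := hE e he
    simp only [coe_sigma, Set.mem_sigma_iff, mem_coe, mem_range]
    constructor
    · have := e.isLt
      exact Nat.div_lt_of_lt_mul this
    · refine mem_filter.2 ⟨mem_univ _, z, hz, by rw [h1], ?_, h2⟩
      apply Fin.ext
      show colour N (A * M) z % A = (e : ℕ) % A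
      rw [h1]
  · intro e _ e' _ h
    simp only [Sigma.mk.injEq] at h
    obtain ⟨h1, h2⟩ := h
    rw [heq_eq_eq, Fin.mk.injEq] at h2
    apply Fin.ext
    rw [← Nat.div_add_mod (e : ℕ) A, ← Nat.div_add_mod (e' : ℕ) A, h1, h2]

/-- **from positions to strings** -/
theorem strings (A : ℕ) (hA : 0 < A) (ℓ : ℕ) (hℓ : 1 ≤ ℓ) (η : ℝ) (hη : 0 < η) : ∃ M₀ : ℕ, 1 ≤ M₀ ∧ ∀ M, M₀ ≤ M →
    ∀ (N K : ℕ) (P : ℕ → Prop) (E : Finset (Fin (A * M))), η * (A * M) ≤ E.card →
    (∀ e ∈ E, ∃ z < K, colour N (A * M) z = e ∧ P z) →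
    ∃ (z₀ z₁ : ℕ) (B : Finset (Fin A)), η * A ≤ B.card ∧ z₀ ≤ z₁ ∧ z₁ < K ∧ P z₀ ∧ P z₁ ∧
      (∀ z, z₀ ≤ z → z ≤ z₁ → P z → (⟨colour N (A * M) z % A, Nat.mod_lt _ hA⟩ : Fin A) ∈ B) ∧
      ∀ w : Fin ℓ → Fin A, (∀ i, w i ∈ B) → ∃ f : Fin ℓ → ℕ, StrictMono f ∧ ∀ i, z₀ ≤ f i ∧ f i ≤ z₁ ∧ P (f i) ∧
        (⟨colour N (A * M) (f i) % A, Nat.mod_lt _ hA⟩ : Fin A) = w i := by
  classical
  obtain ⟨M₀, hM₀⟩ := mixed A hA ℓ hℓ η hη
  refine ⟨M₀ + 1, by omega, fun M hM N K P E hE1 hE2 => ?_⟩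
  obtain ⟨j, B, h1, h2, h3, h4⟩ := hM₀ M (by omega) (alive A N (A * M) K hA P)
    (hE1.trans (by exact_mod_cast count_alive hA P E hE2))
  have hjmono : ∀ s t, s ≤ t → t ≤ ℓ → j s ≤ j t := by
    intro s t hst
    induction t, hst using Nat.le_induction with
    | base => intro _; exact le_rfl
    | succ t _ ih => intro ht; exact (ih (by omega)).trans (h2 t (by omega)).le
  set Z : Finset ℕ := (range K).filter (fun z => j 0 ≤ colour N (A * M) z / A ∧ colour N (A * M) z / A < j ℓ ∧ P z)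
    with hZ
  -- every row of `B` has a position in every part
  have hpart : ∀ t < ℓ, ∀ b ∈ B, ∃ z < K, j t ≤ colour N (A * M) z / A ∧ colour N (A * M) z / A < j (t + 1) ∧
      (⟨colour N (A * M) z % A, Nat.mod_lt _ hA⟩ : Fin A) = b ∧ P z := by
    intro t ht b hb
    rw [← h4 t ht, un, mem_biUnion] at hb
    obtain ⟨i, hi, hb⟩ := hb
    obtain ⟨z, hz, k1, k2, k3⟩ := (mem_filter.1 hb).2
    rw [mem_Ico] at hi
    exact ⟨z, hz, by omega, by omega, k2, k3⟩
  have hB : B.Nonempty := by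
    rw [← card_pos]
    have h5 : (0 : ℝ) < B.card := lt_of_lt_of_le (by positivity) h1
    exact_mod_cast h5
  obtain ⟨b₀, hb₀⟩ := hB
  have hZne : Z.Nonempty := by
    obtain ⟨z, hz, k1, k2, _, k4⟩ := hpart 0 (by omega) b₀ hb₀
    exact ⟨z, mem_filter.2 ⟨mem_range.2 hz, k1, k2.trans_le (hjmono _ _ (by omega) le_rfl), k4⟩⟩
  have m0 := mem_filter.1 (Z.min'_mem hZne)
  have m1 := mem_filter.1 (Z.max'_mem hZne)
  refine ⟨Z.min' hZne, Z.max' hZne, B, h1, Z.min'_le _ (Z.max'_mem hZne), mem_range.1 m1.1, m0.2.2.2, m1.2.2.2, ?_, ?_⟩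
  · intro z hz0 hz1 hP
    have hzK : z < K := lt_of_le_of_lt hz1 (mem_range.1 m1.1)
    have k1 : j 0 ≤ colour N (A * M) z / A :=
      m0.2.1.trans (Nat.div_le_div_right (colour_mono _ _ hz0))
    have k2 : colour N (A * M) z / A < j ℓ :=
      lt_of_le_of_lt (Nat.div_le_div_right (colour_mono _ _ hz1)) m1.2.2.1
    -- the part containing the block
    obtain ⟨t, ht, k3, k4⟩ : ∃ t < ℓ, j t ≤ colour N (A * M) z / A ∧ colour N (A * M) z / A < j (t + 1) := by
      by_contra hcon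
      push Not at hcon
      have : ∀ t ≤ ℓ, j t ≤ colour N (A * M) z / A := by
        intro t
        induction t with
        | zero => intro _; exact k1
        | succ t ih => intro ht; exact hcon t (by omega) (ih (by omega))
      have := this ℓ le_rfl
      omega
    rw [← h4 t ht, un, mem_biUnion]
    exact ⟨colour N (A * M) z / A, mem_Ico.2 ⟨k3, k4⟩, mem_filter.2 ⟨mem_univ _, z, hzK, rfl, rfl, hP⟩⟩
  · intro w hw
    choose f hf1 hf2 hf3 hf4 hf5 using fun i : Fin ℓ => hpart i i.isLt (w i) (hw i)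
    refine ⟨f, ?_, fun i => ?_⟩
    · intro a b hab
      by_contra hcon
      push Not at hcon
      have k1 := Nat.div_le_div_right (c := A) (colour_mono N (A * M) hcon)
      have k2 := hf2 b
      have k3 := hf3 a
      have k4 := hjmono ((a : ℕ) + 1) b (Nat.succ_le_of_lt hab) b.isLt.le
      omega
    · have hmem : f i ∈ Z := by
        refine mem_filter.2 ⟨mem_range.2 (hf1 i), (hjmono 0 i (by omega) i.isLt.le).trans (hf2 i),
          lt_of_lt_of_le (hf3 i) (hjmono _ _ i.isLt le_rfl), hf5 i⟩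
      exact ⟨Z.min'_le _ hmem, Z.le_max' _ hmem, hf5 i, hf4 i⟩

end Pool.Agent.H569.MS
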