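import Mathlib
import Pool.Graph.R_seed8.TH101.RG.TupMult
import Pool.Agent.H569.MS2
import Pool.Agent.H569.IL1

/-! Mixed strings at all scales up to the record. -/

namespace Pool.Agent.H569.MS

open Finset Filter
open Pool.Agent.H256R2.SC (ff)
open Pool.Agent.H362R2.RQ (fib)

/-- `x ≤ y` are primes, `y ≤ x + L`; different primes, one of which is `≤ y` and the larger one `≥ x`, differ by at
least `g`; all primes in `[x, y]` lie in the classes of `B` modulo `q`; all words of length `ℓ` over `B` are realised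
by an increasing sequence of primes in `[x, y]`. -/
def Str (q : ℕ) (B : Finset ℕ) (ℓ : ℕ) (g L : ℝ) (x y : ℕ) : Prop :=
  x.Prime ∧ y.Prime ∧ x ≤ y ∧ (y : ℝ) ≤ x + L ∧
  (∀ p p' : ℕ, p.Prime → p'.Prime → p < p' → p ≤ y → x ≤ p' → g ≤ (p' : ℝ) - p) ∧
  (∀ p : ℕ, p.Prime → x ≤ p → p ≤ y → p % q ∈ B) ∧
  ∀ w : Fin ℓ → ℕ, (∀ i, w i ∈ B) → ∃ p : Fin ℓ → ℕ, StrictMono p ∧
    ∀ i, (p i).Prime ∧ x ≤ p i ∧ p i ≤ y ∧ p i % q = w i

/-- the first primes `x` of strings, `X < x ≤ 4 X` -/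
def Strings (q : ℕ) (B : Finset ℕ) (ℓ : ℕ) (g L X : ℝ) : Set ℕ :=
  {x : ℕ | X < x ∧ (x : ℝ) ≤ 4 * X ∧ ∃ y, Str q B ℓ g L x y}

theorem Strings.finite (q : ℕ) (B : Finset ℕ) (ℓ : ℕ) (g L X : ℝ) : (Strings q B ℓ g L X).Finite := by
  apply (Set.finite_Iic ⌊4 * X⌋₊).subset
  intro x hx
  exact Set.mem_Iic.2 (Nat.le_floor hx.2.1)

theorem fib_ge {K m N : ℕ} (hm : 1 ≤ m) (hN : N = K / m) (e : Fin m) :
    N ≤ fib (fun z : Fin K => (⟨colour N m z, colour_lt hm z⟩ : Fin m)) e := by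
  classical
  have hNK : m * N ≤ K := by rw [hN]; exact Nat.mul_div_le K m
  have hlt : ∀ i : Fin N, (e : ℕ) * N + i < K := by
    intro i
    calc (e : ℕ) * N + i < e * N + N := by have := i.isLt; omega
      _ = (e + 1) * N := by ring
      _ ≤ m * N := Nat.mul_le_mul_right _ e.isLt
      _ ≤ K := hNK
  unfold fib
  calc N = (univ : Finset (Fin N)).card := by rw [card_univ, Fintype.card_fin]
    _ ≤ _ := by
      refine card_le_card_of_injOn (fun i : Fin N => (⟨(e : ℕ) * N + i, hlt i⟩ : Fin K)) ?_ ?_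
      · intro i _
        have hN0 : 0 < N := by have := i.isLt; omega
        simp only [coe_filter, mem_univ, true_and, Set.mem_ofPred_eq]
        apply Fin.ext
        show min (((e : ℕ) * N + i) / N) (m - 1) = e
        have h1 : ((e : ℕ) * N + i) / N = e := by
          rw [mul_comm, Nat.mul_add_div hN0, Nat.div_eq_of_lt i.isLt, add_zero]
        rw [h1]
        have := e.isLt
        omega
      · intro i _ j _ h
        have := Fin.mk.inj_iff.1 h
        apply Fin.ext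
        omega

/-- the classes -/
theorem betas (q K : ℕ) (hq : 0 < q) (A : Finset ℕ) (hA : ∀ a ∈ A, a < q ∧ a.Coprime q) :
    ∃ (Q : ℕ) (β : ℕ → ℕ), 0 < Q ∧ q ∣ Q ∧ (∀ a ∈ A, β a < Q ∧ β a % q = a) ∧
      ∀ p : ℕ, p.Prime → p ∣ q ∨ p ≤ K → p ∣ Q ∧ ∀ a ∈ A, ¬ p ∣ β a := by
  classical
  set R : ℕ := ∏ p ∈ (range (K + 1)).filter (fun p => p.Prime ∧ ¬ p ∣ q), p with hR
  have hR0 : 0 < R := prod_pos fun p hp => (mem_filter.1 hp).2.1.pos
  have hqR : Nat.Coprime q R := by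
    rw [hR]
    apply Nat.Coprime.prod_right
    intro p hp
    exact ((Nat.Prime.coprime_iff_not_dvd (mem_filter.1 hp).2.1).2 (mem_filter.1 hp).2.2).symm
  let β : ℕ → ℕ := fun a => (Nat.chineseRemainder hqR a 1 : ℕ)
  have hβ1 : ∀ a, β a ≡ a [MOD q] := fun a => (Nat.chineseRemainder hqR a 1).2.1
  have hβ2 : ∀ a, β a ≡ 1 [MOD R] := fun a => (Nat.chineseRemainder hqR a 1).2.2
  have hβ3 : ∀ a, β a < q * R := fun a => Nat.chineseRemainder_lt_mul hqR a 1 hq.ne' hR0.ne'
  refine ⟨q * R, β, by positivity, Dvd.intro _ rfl, fun a ha => ⟨hβ3 a, ?_⟩, fun p hp hpq => ?_⟩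
  · have h1 : β a % q = a % q := hβ1 a
    rw [h1, Nat.mod_eq_of_lt (hA a ha).1]
  · by_cases h : p ∣ q
    · refine ⟨h.mul_right R, fun a ha hd => ?_⟩
      have h1 : p ∣ a := ((hβ1 a).of_dvd h).dvd_iff (dvd_refl p) |>.1 hd
      have h2 := Nat.dvd_gcd h1 h
      rw [(hA a ha).2] at h2
      exact hp.one_lt.ne' (Nat.dvd_one.1 h2)
    · have hpK : p ≤ K := by
        rcases hpq with h' | h'
        · exact absurd h' h
        · exact h'
      have hpR : p ∣ R := by
        rw [hR]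
        exact dvd_prod_of_mem _ (mem_filter.2 ⟨mem_range.2 (by omega), hp, h⟩)
      refine ⟨hpR.mul_left q, fun a _ hd => ?_⟩
      have h1 : p ∣ 1 := ((hβ2 a).of_dvd hpR).dvd_iff (dvd_refl p) |>.1 hd
      exact hp.one_lt.ne' (Nat.dvd_one.1 h1)

theorem core : ∃ η : ℝ, 0 < η ∧ ∀ k ℓ : ℕ, 1 ≤ k → 1 ≤ ℓ → ∃ κ : ℝ, 0 < κ ∧ ∀ (q : ℕ) (A : Finset ℕ),
    Squarefree q → A.card = k → (∀ a ∈ A, a < q ∧ a.Coprime q) → ∃ C c : ℝ, 0 < c ∧
    ∀ᶠ X : ℝ in atTop, ∀ H : ℝ, C ≤ H → H ≤ c * ff X → ∃ B ⊆ A, η * A.card ≤ B.card ∧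
      X ^ (4 / 5 : ℝ) ≤ ((Strings q B ℓ (κ * H) H X).ncard : ℝ) := by
  classical
  obtain ⟨η, hη, H0⟩ := Pool.Agent.TH101.RG.tuple_multiples
  refine ⟨η, hη, fun k ℓ hk hℓ => ?_⟩
  obtain ⟨M, hM1, hM⟩ := strings k hk ℓ hℓ η hη
  have hM' := hM M le_rfl
  have hm : 1 ≤ k * M := Nat.mul_pos hk hM1
  obtain ⟨K, hmK, HK⟩ := H0 (k * M) hm
  set N := K / (k * M) with hNdef
  have hN : 1 ≤ N := Nat.div_pos hmK hm
  have hK1 : 1 ≤ K := hm.trans hmK
  have hK0 : (0 : ℝ) < K := by exact_mod_cast hK1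
  refine ⟨1 / (32 * K), by positivity, fun q A hq hAk hA => ?_⟩
  have hq0 : 0 < q := Nat.pos_of_ne_zero hq.ne_zero
  obtain ⟨Q, β, hQ0, hqQ, hβ, hβp⟩ := betas q (K + 1) hq0 A hA
  have hQr : (0 : ℝ) < Q := by exact_mod_cast hQ0
  let α : Fin k → ℕ := fun i => A.orderEmbOfFin hAk i
  have hα : ∀ i, α i ∈ A := fun i => orderEmbOfFin_mem A hAk i
  have hαinj : Function.Injective α := (A.orderEmbOfFin hAk).injective
  obtain ⟨c₁, hc₁, hev⟩ := HK 1 0 1 q hq
  refine ⟨64 * K * Q, c₁ / 2, by positivity, ?_⟩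
  filter_upwards [hev, Pool.Agent.H312R2.RG.ev_ff c₁ hc₁, eventually_ge_atTop 1,
    (tendsto_rpow_atTop (show (0 : ℝ) < 3 / 40 by norm_num)).eventually_ge_atTop (2 ^ k * K : ℝ)]
    with X hX hff hX1 hXK
  intro H hCH hHc
  have hX0 : (0 : ℝ) < X := by linarith
  have hH0 : 0 < H := lt_of_lt_of_le (by positivity) hCH
  have h2H : 2 * H ≤ c₁ * ff X := by linarith
  -- the unit
  set u : ℕ := ⌊H / (8 * K * Q)⌋₊ with hu
  have hu1 : (Q : ℝ) * u ≤ H / (8 * K) := by
    have h1 : (u : ℝ) ≤ H / (8 * K * Q) := Nat.floor_le (by positivity)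
    calc (Q : ℝ) * u ≤ Q * (H / (8 * K * Q)) := mul_le_mul_of_nonneg_left h1 hQr.le
      _ = H / (8 * K) := by field_simp
  have hu2 : H / (8 * K) - Q ≤ Q * u := by
    have h1 : H / (8 * K * Q) < u + 1 := Nat.lt_floor_add_one _
    have h2 : (Q : ℝ) * (H / (8 * K * Q)) ≤ Q * (u + 1) := mul_le_mul_of_nonneg_left h1.le hQr.le
    have h3 : (Q : ℝ) * (H / (8 * K * Q)) = H / (8 * K) := by field_simp
    linarith
  have hQH : (Q : ℝ) ≤ H / (64 * K) := by
    rw [le_div_iff₀ (by positivity)]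
    linarith
  have hQH' : H / (64 * K) ≤ H / 64 := by
    apply div_le_div_of_nonneg_left hH0.le (by norm_num)
    have : (1 : ℝ) ≤ K := by exact_mod_cast hK1
    linarith
  let row : ℕ → Fin k := fun z => ⟨colour N (k * M) z % k, Nat.mod_lt _ hk⟩
  let t : ℕ → ℕ := fun z => β (α (row z)) + Q * (u * (2 * K + z))
  have htdef : ∀ z, (t z : ℝ) = β (α (row z)) + Q * u * (2 * K + z) := by
    intro z
    show ((β (α (row z)) + Q * (u * (2 * K + z)) : ℕ) : ℝ) = _
    push_cast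
    ring
  have hβ0 : ∀ z, (0 : ℝ) ≤ β (α (row z)) := fun z => Nat.cast_nonneg _
  have hβQ : ∀ z, (β (α (row z)) : ℝ) ≤ Q := fun z => by exact_mod_cast (hβ _ (hα _)).1.le
  have hQu0 : (0 : ℝ) ≤ Q * u := by positivity
  have eK : ∀ a : ℝ, H / (a * K) * K = H / a := by
    intro a
    rcases eq_or_ne a 0 with rfl | ha
    · simp
    · field_simp
  have htup : ∀ z < K, (t z : ℝ) ≤ H / 2 := by
    intro z hz
    rw [htdef]
    have h1 : (z : ℝ) ≤ K := by exact_mod_cast hz.le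
    have h2 : (Q : ℝ) * u * (2 * K + z) ≤ H / (8 * K) * (3 * K) :=
      mul_le_mul hu1 (by linarith) (by positivity) (by positivity)
    have h3 : H / (8 * K) * (3 * K) = 3 * (H / 8) := by rw [← eK 8]; ring
    have h4 := hβQ z
    linarith
  have hspace : ∀ z z', z < z' → H / (32 * K) ≤ (t z' : ℝ) - t z := by
    intro z z' hzz
    rw [htdef, htdef]
    have h1 : (z : ℝ) + 1 ≤ z' := by exact_mod_cast hzz
    have h2 : (Q : ℝ) * u * 1 ≤ Q * u * (z' - z) := mul_le_mul_of_nonneg_left (by linarith) hQu0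
    have h3 := hβQ z
    have h4 := hβ0 z'
    have h5 : H / (8 * K) = 8 * (H / (64 * K)) := by field_simp; norm_num
    have h6 : H / (32 * K) = 2 * (H / (64 * K)) := by field_simp; norm_num
    have h7 : (0 : ℝ) ≤ H / (64 * K) := by positivity
    nlinarith
  have htmono : StrictMono t := by
    intro z z' hzz
    have h1 := hspace z z' hzz
    have h2 : (0 : ℝ) < H / (32 * K) := by positivity
    have h3 : (t z : ℝ) < t z' := by linarith
    exact_mod_cast h3
  -- the classes of the shifts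
  have htq : ∀ z, t z % q = α (row z) := by
    intro z
    obtain ⟨Q', hQ'⟩ := hqQ
    show (β (α (row z)) + Q * (u * (2 * K + z))) % q = _
    rw [hQ', mul_assoc, Nat.add_mul_mod_self_left]
    exact (hβ _ (hα _)).2
  have hadm : ∀ p : ℕ, p.Prime → ∃ v : ℕ, ∀ j : Fin K, ¬ p ∣ v + t j := by
    intro p hp
    by_cases h : p ∣ q ∨ p ≤ K + 1
    · obtain ⟨h1, h2⟩ := hβp p hp h
      refine ⟨0, fun j hd => h2 _ (hα (row j)) ?_⟩
      rw [zero_add] at hd
      exact (Nat.dvd_add_left (h1.mul_right _)).1 hd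
    · push Not at h
      obtain ⟨v, _, hv⟩ := Pool.Agent.H569.IL.avoid_few hp (K - 1) (by omega) t
      exact ⟨v, fun j => hv j (by have := j.isLt; omega)⟩
  have hcopq : ∀ j : Fin K, (0 + t j).Coprime q := by
    intro j
    rw [zero_add]
    have h1 := htq j
    have h2 := (hA _ (hα (row j))).2
    rw [← h1] at h2
    unfold Nat.Coprime at h2 ⊢
    rw [Nat.gcd_comm, Nat.gcd_rec]
    exact h2
  have hcol : ∀ e : Fin (k * M), K ≤ 2 * (k * M) * fib (fun z : Fin K => (⟨colour N (k * M) z, colour_lt hm z⟩ :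
      Fin (k * M))) e := by
    intro e
    have h1 := fib_ge hm hNdef e
    have h2 : K < k * M * (N + 1) := by
      rw [hNdef]
      exact Nat.lt_mul_div_succ K hm
    have h3 : k * M * (N + 1) ≤ 2 * (k * M) * N := by nlinarith
    exact (h2.le.trans h3).trans (Nat.mul_le_mul_left _ h1)
  -- the counting argument
  by_contra hcon
  push Not at hcon
  set Bs : Finset (Finset ℕ) := A.powerset.filter (fun B => η * A.card ≤ B.card) with hBs
  let S : Finset ℕ → Finset ℕ := fun B => (Strings.finite q B ℓ (1 / (32 * K) * H) H X).toFinset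
  have hScard : ∀ B ∈ Bs, ((S B).card : ℝ) ≤ X ^ (4 / 5 : ℝ) := by
    intro B hB
    obtain ⟨h1, h2⟩ := mem_filter.1 hB
    have h3 := hcon B (mem_powerset.1 h1) h2
    rw [Set.ncard_eq_toFinset_card _ (Strings.finite q B ℓ (1 / (32 * K) * H) H X)] at h3
    exact h3.le
  set bad : Finset ℕ := Bs.biUnion (fun B => (range K).biUnion (fun z => (S B).image (fun x => x - t z))) with hbad
  have hbadcard : (bad.card : ℝ) ≤ X ^ (7 / 8 : ℝ) := by
    have h1 : (bad.card : ℝ) ≤ ∑ B ∈ Bs, ∑ z ∈ range K, X ^ (4 / 5 : ℝ) := by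
      have h2 : bad.card ≤ ∑ B ∈ Bs, ∑ z ∈ range K, (S B).card := by
        refine card_biUnion_le.trans (sum_le_sum fun B _ => ?_)
        exact card_biUnion_le.trans (sum_le_sum fun z _ => card_image_le)
      calc (bad.card : ℝ) ≤ ((∑ B ∈ Bs, ∑ z ∈ range K, (S B).card : ℕ) : ℝ) := by exact_mod_cast h2
        _ = ∑ B ∈ Bs, ∑ z ∈ range K, ((S B).card : ℝ) := by push_cast; rfl
        _ ≤ _ := sum_le_sum fun B hB => sum_le_sum fun z _ => hScard B hB
    have h3 : (Bs.card : ℝ) ≤ 2 ^ k := by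
      have h3' : Bs.card ≤ 2 ^ A.card := (card_filter_le _ _).trans_eq (card_powerset A)
      have h3'' : (2 : ℕ) ^ A.card = 2 ^ k := by rw [hAk]
      rw [h3''] at h3'
      exact_mod_cast h3'
    rw [sum_const, sum_const, card_range, nsmul_eq_mul, nsmul_eq_mul] at h1
    have h4 : X ^ (7 / 8 : ℝ) = X ^ (3 / 40 : ℝ) * X ^ (4 / 5 : ℝ) := by
      rw [← Real.rpow_add hX0]; norm_num
    rw [h4]
    have h5 : (0 : ℝ) ≤ X ^ (4 / 5 : ℝ) := by positivity
    calc (bad.card : ℝ) ≤ Bs.card * (K * X ^ (4 / 5 : ℝ)) := h1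
      _ ≤ 2 ^ k * (K * X ^ (4 / 5 : ℝ)) := mul_le_mul_of_nonneg_right h3 (by positivity)
      _ = 2 ^ k * K * X ^ (4 / 5 : ℝ) := by ring
      _ ≤ _ := mul_le_mul_of_nonneg_right hXK h5
  obtain ⟨n, hn1, hn2, hnbad, hnq, ⟨E, hE1, hE2⟩, hwin⟩ := hX 1 0 one_ne_zero (by simp) (by simp)
    (by simp only [Int.cast_zero, abs_zero]; positivity)
    (fun j : Fin K => t j) (fun i j h => Fin.ext (htmono.injective h))
    (fun j => (htup j j.isLt).trans (by
      have h1 := hff.1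
      linarith)) hadm 0 hcopq _ hcol bad hbadcard
  have hE2' : ∀ e ∈ E, ∃ z < K, colour N (k * M) z = e ∧ (n + t z).Prime := by
    intro e he
    obtain ⟨j, h1, h2⟩ := hE2 e he
    exact ⟨j, j.isLt, by rw [← h1], h2⟩
  obtain ⟨z₀, z₁, B', hB1, hz01, hz1K, hP0, hP1, hall, hwords⟩ := hM' N K (fun z => (n + t z).Prime) E
    (by push_cast at hE1 ⊢; exact hE1) hE2'
  set B : Finset ℕ := B'.image α with hB
  have hBcard : B.card = B'.card := card_image_of_injective _ hαinj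
  have hBA : B ⊆ A := by
    intro b hb
    obtain ⟨i, _, rfl⟩ := mem_image.1 hb
    exact hα i
  have hBs' : B ∈ Bs := by
    refine mem_filter.2 ⟨mem_powerset.2 hBA, ?_⟩
    rw [hBcard, hAk]
    exact hB1
  have hnmod : ∀ z, (n + t z) % q = α (row z) := by
    intro z
    have h1 : n % q = 0 := by
      have : n % q = 0 % q := hnq
      rwa [Nat.zero_mod] at this
    rw [Nat.add_mod, h1, zero_add, Nat.mod_mod, htq]
  -- primes in the window
  have hprimes : ∀ p : ℕ, p.Prime → |(p : ℝ) - n| ≤ 2 * H → ∃ z < K, p = n + t z := by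
    intro p hp hpn
    obtain ⟨l, hl⟩ := hwin 1 1 (by simp) (by simp) (by simp) (by simp) p hp (by
      push_cast
      rw [show (1 * (p : ℝ) - 1 * (1 * n + 0)) = p - n by ring]
      linarith)
    exact ⟨l, l.isLt, hl⟩
  have hx0 : (t z₀ : ℝ) ≤ H / 2 := htup z₀ (by omega)
  have hy0 : (t z₁ : ℝ) ≤ H / 2 := htup z₁ hz1K
  have hstr : Str q B ℓ (1 / (32 * K) * H) H (n + t z₀) (n + t z₁) := by
    have hκ : 1 / (32 * K) * H = H / (32 * K) := by ring
    have hκ1 : H / (32 * K) ≤ H / 32 := by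
      apply div_le_div_of_nonneg_left hH0.le (by norm_num)
      have : (1 : ℝ) ≤ K := by exact_mod_cast hK1
      linarith
    refine ⟨hP0, hP1, Nat.add_le_add_left (htmono.monotone hz01) _, ?_, ?_, ?_, ?_⟩
    · push_cast
      have := Nat.cast_nonneg (α := ℝ) (t z₀)
      linarith
    · intro p p' hp hp' hpp hpy hxp
      rw [hκ]
      have e1 : (p : ℝ) ≤ n + t z₁ := by exact_mod_cast hpy
      have e2 : ((n : ℝ) + t z₀) ≤ p' := by exact_mod_cast hxp
      have e3 : (0 : ℝ) ≤ t z₀ := Nat.cast_nonneg _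
      by_cases h1 : (p' : ℝ) ≤ n + 2 * H
      · by_cases h2 : (n : ℝ) - 2 * H ≤ p
        · have e4 : (p : ℝ) < p' := by exact_mod_cast hpp
          obtain ⟨z, hz, hpz⟩ := hprimes p hp (by rw [abs_le]; constructor <;> linarith)
          obtain ⟨z', hz', hpz'⟩ := hprimes p' hp' (by rw [abs_le]; constructor <;> linarith)
          have h3 : z < z' := by
            by_contra hcon'
            push Not at hcon'
            have := htmono.monotone hcon'
            omega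
          have h4 := hspace z z' h3
          rw [hpz, hpz']
          push_cast
          linarith
        · push Not at h2
          linarith
      · push Not at h1
        linarith
    · intro p hp hxp hpy
      have e1 : (p : ℝ) ≤ n + t z₁ := by exact_mod_cast hpy
      have e2 : ((n : ℝ) + t z₀) ≤ p := by exact_mod_cast hxp
      have e3 : (0 : ℝ) ≤ t z₀ := Nat.cast_nonneg _
      obtain ⟨z, hz, hpz⟩ := hprimes p hp (by rw [abs_le]; constructor <;> linarith)
      have h1 : z₀ ≤ z := by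
        by_contra hcon'
        push Not at hcon'
        have := htmono hcon'
        omega
      have h2 : z ≤ z₁ := by
        by_contra hcon'
        push Not at hcon'
        have := htmono hcon'
        omega
      have h3 := hall z h1 h2 (by rw [← hpz]; exact hp)
      rw [hpz, hnmod]
      exact mem_image.2 ⟨_, h3, rfl⟩
    · intro w hw
      choose w' hw' hww' using fun i => mem_image.1 (hw i)
      obtain ⟨g, hg, hg'⟩ := hwords w' hw'
      refine ⟨fun i => n + t (g i), fun i j hij => Nat.add_lt_add_left (htmono (hg hij)) _, fun i => ?_⟩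
      obtain ⟨h1, h2, h3, h4⟩ := hg' i
      refine ⟨h3, Nat.add_le_add_left (htmono.monotone h1) _, Nat.add_le_add_left (htmono.monotone h2) _, ?_⟩
      rw [hnmod, ← hww' i, ← h4]
  -- contradiction
  apply hnbad
  rw [hbad, mem_biUnion]
  refine ⟨B, hBs', ?_⟩
  rw [mem_biUnion]
  refine ⟨z₀, mem_range.2 (by omega), ?_⟩
  rw [mem_image]
  refine ⟨n + t z₀, ?_, by omega⟩
  rw [Set.Finite.mem_toFinset]
  refine ⟨?_, ?_, n + t z₁, hstr⟩
  · push_cast
    have := Nat.cast_nonneg (α := ℝ) (t z₀)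
    linarith
  · push_cast
    have h1 := hff.2.2
    linarith

end Pool.Agent.H569.MS
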