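import Mathlib
import Pool.Graph.R_seed8.TH101.RG.TupMult
import Pool.Agent.H569.MS3

/-! Exact vectors of consecutive prime gaps up to the record size: the core. -/

set_option autoImplicit false

namespace Pool.Agent.H569.ER

open Finset Filter
open Pool.Agent.H256R2.SC (ff)
open Pool.Agent.H362R2.RQ (fib)
open Pool.Agent.H569.MS (colour colour_lt fib_ge)

/-- `P 0 = p`, `P (i + 1) - P i = g i`, all `P i` are primes `≡ h (mod q)`, and these are all the primes in the open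
interval `(P 0 - L, P m + L)` -/
def Run {m : ℕ} (q h L : ℕ) (g : Fin m → ℕ) (p : ℕ) : Prop :=
  ∃ P : Fin (m + 1) → ℕ, P 0 = p ∧ (∀ i, (P i).Prime ∧ P i ≡ h [MOD q]) ∧
    (∀ i : Fin m, P i.succ = P i.castSucc + g i) ∧
    ∀ r : ℕ, r.Prime → P 0 < r + L → r < P (Fin.last m) + L → ∃ i, r = P i

/-- the first primes of the runs, `X < p ≤ 4 X` -/
def Starts {m : ℕ} (q h L : ℕ) (g : Fin m → ℕ) (X : ℝ) : Set ℕ :=
  {p : ℕ | X < p ∧ (p : ℝ) ≤ 4 * X ∧ Run q h L g p}

theorem Starts.finite {m : ℕ} (q h L : ℕ) (g : Fin m → ℕ) (X : ℝ) : (Starts q h L g X).Finite := by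
  apply (Set.finite_Iic ⌊4 * X⌋₊).subset
  intro x hx
  exact Set.mem_Iic.2 (Nat.le_floor hx.2.1)

/-- the differences of a sequence -/
def dif {m : ℕ} (t : Fin (m + 1) → ℕ) : Fin m → ℕ := fun i => t i.succ - t i.castSucc

/-- the first `m + 1` elements of a finite set -/
theorem first_elts {K m : ℕ} (J : Finset (Fin K)) (hJ : m + 1 ≤ J.card) :
    ∃ jj : Fin (m + 1) → Fin K, StrictMono jj ∧ (∀ i, jj i ∈ J) ∧
      ∀ l ∈ J, l ≤ jj (Fin.last m) → ∃ i, jj i = l := by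
  refine ⟨fun i => J.orderEmbOfFin rfl (Fin.castLE hJ i), ?_, fun i => J.orderEmbOfFin_mem rfl _, ?_⟩
  · intro i j hij
    exact (J.orderEmbOfFin rfl).strictMono (by simpa using hij)
  · intro l hl hle
    have h1 : l ∈ Set.range (J.orderEmbOfFin rfl) := by
      rw [Finset.range_orderEmbOfFin]
      exact hl
    obtain ⟨a, ha⟩ := h1
    rw [← ha] at hle
    have h2 : a ≤ Fin.castLE hJ (Fin.last m) := (J.orderEmbOfFin rfl).le_iff_le.1 hle
    have h3 : (a : ℕ) ≤ m := by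
      have := Fin.le_def.1 h2
      simpa using this
    refine ⟨⟨a, by omega⟩, ?_⟩
    show J.orderEmbOfFin rfl (Fin.castLE hJ ⟨a, by omega⟩) = l
    rw [← ha]
    congr 1

theorem core (m : ℕ) : ∃ K : ℕ, m + 1 ≤ K ∧ ∀ q h : ℕ, Squarefree q → h.Coprime q →
    ∃ (Q : ℕ) (c : ℝ), 0 < Q ∧ 0 < c ∧ ∀ᶠ X : ℝ in atTop, ∀ L : ℕ, (L : ℝ) ≤ c * ff X →
      ∀ U : Finset ℕ, K ≤ U.card → (∀ u ∈ U, Q ∣ u ∧ (u : ℝ) ≤ c * ff X) →
        (∀ u ∈ U, ∀ u' ∈ U, u < u' → u + L ≤ u') →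
          ∃ t : Fin (m + 1) → ℕ, StrictMono t ∧ (∀ i, t i ∈ U) ∧
            X ^ (4 / 5 : ℝ) ≤ ((Starts q h L (dif t) X).ncard : ℝ) := by
  classical
  obtain ⟨η, hη, H0⟩ := Pool.Agent.TH101.RG.tuple_multiples
  obtain ⟨M, hM1, hM⟩ : ∃ M : ℕ, 1 ≤ M ∧ (m : ℝ) + 1 ≤ η * M := by
    obtain ⟨M, hM⟩ := exists_nat_ge (((m : ℝ) + 1) / η)
    refine ⟨M + 1, by omega, ?_⟩
    rw [div_le_iff₀ hη] at hM
    push_cast
    nlinarith
  obtain ⟨K, hmK, HK⟩ := H0 M hM1
  refine ⟨max K (m + 1), le_max_right _ _, fun q h hq hh => ?_⟩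
  obtain ⟨Q, hQ⟩ : ∃ Q, Q = q * (K + 1).factorial := ⟨_, rfl⟩
  have hq0 : 0 < q := Nat.pos_of_ne_zero hq.ne_zero
  have hQ0 : 0 < Q := by rw [hQ]; exact Nat.mul_pos hq0 (Nat.factorial_pos _)
  have hqQ : q ∣ Q := by rw [hQ]; exact Dvd.intro _ rfl
  obtain ⟨c₁, hc₁, hev⟩ := HK 1 0 1 q hq
  refine ⟨Q, c₁ / 2, hQ0, by positivity, ?_⟩
  filter_upwards [hev, Pool.Agent.H312R2.RG.ev_ff c₁ hc₁, eventually_ge_atTop 1,
    (tendsto_rpow_atTop (show (0 : ℝ) < 3 / 40 by norm_num)).eventually_ge_atTop ((K : ℝ) ^ (m + 1))]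
    with X hX hff hX1 hXK
  intro L hL U hUK hU hsep
  have hX0 : (0 : ℝ) < X := by linarith
  obtain ⟨H, hH⟩ : ∃ H, H = c₁ / 2 * ff X := ⟨_, rfl⟩
  have h2H : 2 * H = c₁ * ff X := by rw [hH]; ring
  have hH0 : 0 ≤ H := by
    rw [hH]
    exact mul_nonneg (by positivity) hff.2.1
  rw [← hH] at hL hU
  obtain ⟨T', hT'sub, hT'card⟩ := Finset.exists_subset_card_eq ((le_max_left K (m + 1)).trans hUK)
  obtain ⟨s, hs⟩ : ∃ s : Fin K → ℕ, s = fun j => T'.orderEmbOfFin hT'card j := ⟨_, rfl⟩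
  have hsmono : StrictMono s := by
    rw [hs]
    exact (T'.orderEmbOfFin hT'card).strictMono
  have hsT' : ∀ j, s j ∈ T' := by
    intro j
    rw [hs]
    exact T'.orderEmbOfFin_mem hT'card j
  have hsT : ∀ j, s j ∈ U := fun j => hT'sub (hsT' j)
  have hsb : ∀ j, (s j : ℝ) ≤ H := fun j => (hU _ (hsT j)).2
  have hsQ : ∀ j, Q ∣ s j := fun j => (hU _ (hsT j)).1
  -- admissibility
  have hadm : ∀ p : ℕ, p.Prime → ∃ v : ℕ, ∀ j : Fin K, ¬ p ∣ v + s j := by
    intro p hp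
    by_cases h1 : p ≤ K + 1
    · refine ⟨1, fun j hd => ?_⟩
      have h2 : p ∣ Q := by
        rw [hQ]
        exact (hp.dvd_factorial.2 h1).mul_left _
      have h3 : p ∣ s j := h2.trans (hsQ j)
      exact hp.one_lt.ne' (Nat.dvd_one.1 ((Nat.dvd_add_left h3).1 hd))
    · push Not at h1
      obtain ⟨v, _, hv⟩ := Pool.Agent.H569.IL.avoid_few hp (K - 1) (by omega)
        (fun z => if hz : z < K then s ⟨z, hz⟩ else 0)
      refine ⟨v, fun j => ?_⟩
      have := hv j (by have := j.isLt; omega)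
      simpa using this
  have hcopq : ∀ j : Fin K, (h + s j).Coprime q := by
    intro j
    obtain ⟨w, hw⟩ := hqQ.trans (hsQ j)
    rw [hw]
    unfold Nat.Coprime
    rw [Nat.gcd_add_mul_left_left]
    exact hh
  obtain ⟨N0, hN0⟩ : ∃ N0, N0 = K / M := ⟨_, rfl⟩
  have hN0' : 1 ≤ N0 := by rw [hN0]; exact Nat.div_pos hmK hM1
  have hcol : ∀ e : Fin M, K ≤ 2 * M * fib (fun z : Fin K => (⟨colour N0 M z, colour_lt hM1 z⟩ : Fin M)) e := by
    intro e
    have h1 := fib_ge hM1 hN0 e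
    have h2 : K < M * (N0 + 1) := by
      rw [hN0]
      exact Nat.lt_mul_div_succ K hM1
    have h3 : M * (N0 + 1) ≤ 2 * M * N0 := by nlinarith
    exact (h2.le.trans h3).trans (Nat.mul_le_mul_left _ h1)
  -- the counting argument
  by_contra hcon
  push Not at hcon
  obtain ⟨W, hW⟩ : ∃ W : Finset (Fin (m + 1) → ℕ), W = (Fintype.piFinset (fun _ => T')).filter
    (fun t => StrictMono t) := ⟨_, rfl⟩
  have hWcard : W.card ≤ K ^ (m + 1) := by
    rw [hW]
    refine (card_filter_le _ _).trans ?_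
    rw [Fintype.card_piFinset]
    simp [hT'card]
  obtain ⟨bad, hbad⟩ : ∃ bad : Finset ℕ, bad = W.biUnion
    (fun t => (Starts.finite q h L (dif t) X).toFinset.image (fun x => x - t 0)) := ⟨_, rfl⟩
  have hbadcard : (bad.card : ℝ) ≤ X ^ (7 / 8 : ℝ) := by
    have h1 : (bad.card : ℝ) ≤ ∑ t ∈ W, X ^ (4 / 5 : ℝ) := by
      have h2 : bad.card ≤ ∑ t ∈ W, (Starts q h L (dif t) X).ncard := by
        rw [hbad]
        refine card_biUnion_le.trans (sum_le_sum fun t _ => ?_)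
        rw [Set.ncard_eq_toFinset_card _ (Starts.finite q h L (dif t) X)]
        exact card_image_le
      have h3 : (bad.card : ℝ) ≤ ∑ t ∈ W, ((Starts q h L (dif t) X).ncard : ℝ) := by exact_mod_cast h2
      refine h3.trans (sum_le_sum fun t ht => ?_)
      rw [hW, mem_filter, Fintype.mem_piFinset] at ht
      exact (hcon t ht.2 (fun i => hT'sub (ht.1 i))).le
    rw [sum_const, nsmul_eq_mul] at h1
    have h4 : X ^ (7 / 8 : ℝ) = X ^ (3 / 40 : ℝ) * X ^ (4 / 5 : ℝ) := by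
      rw [← Real.rpow_add hX0]; norm_num
    rw [h4]
    refine h1.trans (mul_le_mul_of_nonneg_right (le_trans ?_ hXK) (by positivity))
    exact_mod_cast hWcard
  obtain ⟨n, hn1, hn2, hnbad, hnq, ⟨E, hE1, hE2⟩, hwin⟩ := hX 1 0 one_ne_zero (by simp) (by simp)
    (by simp only [Int.cast_zero, abs_zero]; positivity)
    s hsmono.injective
    (fun j => (hsb j).trans (by
      have h1 := hff.1
      linarith)) hadm h hcopq _ hcol bad hbadcard
  -- the primes near `n`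
  have hprimes : ∀ p : ℕ, p.Prime → |(p : ℝ) - n| ≤ 2 * H → ∃ l, p = n + s l := by
    intro p hp hpn
    obtain ⟨l, hl⟩ := hwin 1 1 (by simp) (by simp) (by simp) (by simp) p hp (by
      push_cast
      rw [show (1 * (p : ℝ) - 1 * (1 * n + 0)) = p - n by ring]
      linarith)
    exact ⟨l, hl⟩
  obtain ⟨J, hJ⟩ : ∃ J : Finset (Fin K), J = univ.filter (fun j => (n + s j).Prime) := ⟨_, rfl⟩
  have hJcard : m + 1 ≤ J.card := by
    have h1 : E ⊆ J.image (fun z : Fin K => (⟨colour N0 M z, colour_lt hM1 z⟩ : Fin M)) := by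
      intro e he
      obtain ⟨j, hj1, hj2⟩ := hE2 e he
      rw [mem_image]
      exact ⟨j, by rw [hJ, mem_filter]; exact ⟨mem_univ _, hj2⟩, hj1⟩
    have h2 : E.card ≤ J.card := (card_le_card h1).trans card_image_le
    have h3 : ((m + 1 : ℕ) : ℝ) ≤ J.card := by
      push_cast
      exact (hM.trans hE1).trans (by exact_mod_cast h2)
    exact_mod_cast h3
  obtain ⟨jj, hjj1, hjj2, hjj3⟩ := first_elts J hJcard
  have hjp : ∀ i, (n + s (jj i)).Prime := by
    intro i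
    have := hjj2 i
    rw [hJ, mem_filter] at this
    exact this.2
  have htm : StrictMono (fun i => s (jj i)) := hsmono.comp hjj1
  have hmod : ∀ j, n + s j ≡ h [MOD q] := by
    intro j
    have h1 : s j ≡ 0 [MOD q] := (Nat.modEq_zero_iff_dvd).2 (hqQ.trans (hsQ j))
    have := hnq.add h1
    rwa [add_zero] at this
  have hrun : Run q h L (dif (fun i => s (jj i))) (n + s (jj 0)) := by
    refine ⟨fun i => n + s (jj i), rfl, fun i => ⟨hjp i, hmod _⟩, fun i => ?_, fun r hr hr1 hr2 => ?_⟩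
    · show n + s (jj i.succ) = n + s (jj i.castSucc) + (s (jj i.succ) - s (jj i.castSucc))
      have h1 : s (jj i.castSucc) < s (jj i.succ) := htm (Fin.castSucc_lt_succ)
      omega
    · have hr1' : n + s (jj 0) < r + L := hr1
      have hr2' : r < n + s (jj (Fin.last m)) + L := hr2
      have h1 : (r : ℝ) ≤ n + 2 * H := by
        have h2 : (r : ℝ) < n + s (jj (Fin.last m)) + L := by exact_mod_cast hr2'
        have h3 := hsb (jj (Fin.last m))
        linarith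
      have h2 : (n : ℝ) - 2 * H ≤ r := by
        have h3 : ((n : ℝ) + s (jj 0)) < r + L := by exact_mod_cast hr1'
        have h4 : (0 : ℝ) ≤ (s (jj 0) : ℝ) := Nat.cast_nonneg _
        linarith
      obtain ⟨l, hl⟩ := hprimes r hr (by rw [abs_le]; constructor <;> linarith)
      have hlJ : l ∈ J := by
        rw [hJ, mem_filter]
        exact ⟨mem_univ _, by rw [← hl]; exact hr⟩
      have h5 : s l ≤ s (jj (Fin.last m)) := by
        by_contra hc
        push Not at hc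
        have h6 := hsep _ (hsT (jj (Fin.last m))) _ (hsT l) hc
        omega
      have h6 : l ≤ jj (Fin.last m) := hsmono.le_iff_le.1 h5
      obtain ⟨i, hi⟩ := hjj3 l hlJ h6
      exact ⟨i, by rw [hl, ← hi]⟩
  apply hnbad
  rw [hbad, mem_biUnion]
  refine ⟨fun i => s (jj i), ?_, ?_⟩
  · rw [hW, mem_filter, Fintype.mem_piFinset]
    exact ⟨fun i => hsT' _, htm⟩
  · rw [mem_image]
    refine ⟨n + s (jj 0), ?_, by simp⟩
    rw [Set.Finite.mem_toFinset]
    refine ⟨?_, ?_, hrun⟩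
    · push_cast
      have h4 : (0 : ℝ) ≤ (s (jj 0) : ℝ) := Nat.cast_nonneg _
      linarith
    · have h3 := hsb (jj 0)
      have h4 := hff.2.2
      push_cast at h3 ⊢
      linarith

end Pool.Agent.H569.ER
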