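import Mathlib
import Pool.Agent.H569.ER1

/-! Exact vectors of consecutive prime gaps: counting vectors. -/

set_option autoImplicit false

namespace Pool.Agent.H569.ER

open Finset Filter

theorem eq_of_dif {m : ℕ} (t t' : Fin (m + 1) → ℕ) (ht : StrictMono t) (ht' : StrictMono t') (h0 : t 0 = t' 0)
    (hd : dif t = dif t') : t = t' := by
  funext i
  induction i using Fin.induction with
  | zero => exact h0
  | succ i ih =>
    have h1 : t i.succ - t i.castSucc = t' i.succ - t' i.castSucc := congrFun hd i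
    have h2 : t i.castSucc < t i.succ := ht Fin.castSucc_lt_succ
    have h3 : t' i.castSucc < t' i.succ := ht' Fin.castSucc_lt_succ
    omega

theorem count_vectors (m K N : ℕ) (hmK : m + 1 ≤ K) (hKN : 2 * K ≤ N) (G : Finset (Fin m → ℕ))
    (hG : ∀ T : Finset ℕ, T ⊆ range (N + 1) → K ≤ T.card →
      ∃ t : Fin (m + 1) → ℕ, StrictMono t ∧ (∀ i, t i ∈ T) ∧ dif t ∈ G) :
    (N + 1) ^ m ≤ 2 ^ K * K.factorial * G.card := by
  classical
  choose! t ht1 ht2 ht3 using hG
  have hmem : ∀ T ∈ powersetCard K (range (N + 1)), T ⊆ range (N + 1) ∧ K ≤ T.card := by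
    intro T hT
    rw [mem_powersetCard] at hT
    exact ⟨hT.1, hT.2.ge⟩
  have h1 : (powersetCard K (range (N + 1))).card ≤
      (range (N + 1) ×ˢ (G ×ˢ powersetCard (K - (m + 1)) (range (N + 1)))).card := by
    apply card_le_card_of_injOn (fun T => (t T 0, dif (t T), T \ univ.image (t T)))
    · intro T hT
      have hT' := hmem T hT
      have h2 := ht2 T hT'.1 hT'.2
      have hsub : univ.image (t T) ⊆ T := by
        intro x hx
        rw [mem_image] at hx
        obtain ⟨i, _, rfl⟩ := hx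
        exact h2 i
      refine mem_coe.2 (mem_product.2 ⟨hT'.1 (h2 0), mem_product.2 ⟨ht3 T hT'.1 hT'.2, ?_⟩⟩)
      rw [mem_powersetCard]
      refine ⟨sdiff_subset.trans hT'.1, ?_⟩
      rw [card_sdiff_of_subset hsub, card_image_of_injective _ (ht1 T hT'.1 hT'.2).injective, card_univ, Fintype.card_fin]
      rw [mem_coe, mem_powersetCard] at hT
      rw [hT.2]
    · intro T hT T' hT' heq
      have hTm := hmem T hT
      have hTm' := hmem T' hT'
      simp only [Prod.mk.injEq] at heq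
      obtain ⟨e1, e2, e3⟩ := heq
      have htt := eq_of_dif _ _ (ht1 T hTm.1 hTm.2) (ht1 T' hTm'.1 hTm'.2) e1 e2
      have hsub : ∀ T, T ⊆ range (N + 1) → K ≤ T.card → univ.image (t T) ⊆ T := by
        intro T h1 h2 x hx
        rw [mem_image] at hx
        obtain ⟨i, _, rfl⟩ := hx
        exact ht2 T h1 h2 i
      rw [← sdiff_union_of_subset (hsub T hTm.1 hTm.2), ← sdiff_union_of_subset (hsub T' hTm'.1 hTm'.2), e3, htt]
  rw [card_product, card_product, card_powersetCard, card_powersetCard, card_range] at h1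
  have h2 : (N + 1).choose (K - (m + 1)) ≤ (N + 1) ^ (K - (m + 1)) := Nat.choose_le_pow _ _
  have h3 : (N + 2 - K) ^ K ≤ K.factorial * (N + 1).choose K := by
    rw [← Nat.descFactorial_eq_factorial_mul_choose]
    exact Nat.pow_sub_le_descFactorial (N + 1) K
  have h4 : (N + 1) ^ K ≤ 2 ^ K * (N + 2 - K) ^ K := by
    rw [← mul_pow]
    exact Nat.pow_le_pow_left (by omega) K
  have h5 : (N + 1) ^ K ≤ 2 ^ K * (K.factorial * ((N + 1) * (G.card * (N + 1) ^ (K - (m + 1))))) := by
    refine h4.trans (Nat.mul_le_mul_left _ (h3.trans (Nat.mul_le_mul_left _ (h1.trans ?_))))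
    exact Nat.mul_le_mul_left _ (Nat.mul_le_mul_left _ h2)
  have h6 : (N + 1) ^ K = (N + 1) ^ m * (N + 1) ^ (K - m) := by
    rw [← pow_add]; congr 1; omega
  have h7 : (N + 1) ^ (K - m) = (N + 1) * (N + 1) ^ (K - (m + 1)) := by
    rw [← pow_succ']; congr 1; omega
  have h8 : (N + 1) ^ m * (N + 1) ^ (K - m) ≤ (2 ^ K * K.factorial * G.card) * (N + 1) ^ (K - m) := by
    rw [← h6]
    refine h5.trans (le_of_eq ?_)
    rw [h7]
    ring
  exact Nat.le_of_mul_le_mul_right h8 (by positivity)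

/-- the vectors with entries in `[1, N]` -/
def box (m N : ℕ) : Finset (Fin m → ℕ) := Fintype.piFinset (fun _ : Fin m => Icc 1 N)

theorem mem_box {m N : ℕ} {v : Fin m → ℕ} : v ∈ box m N ↔ ∀ i, 1 ≤ v i ∧ v i ≤ N := by
  rw [box, Fintype.mem_piFinset]
  simp

/-- the number of the vectors all of whose entries are divisible by `g` -/
theorem card_div (m N g : ℕ) : ((box m N).filter (fun v => ∀ i, g ∣ v i)).card = (N / g) ^ m := by
  classical
  have h1 : (box m N).filter (fun v => ∀ i, g ∣ v i) = Fintype.piFinset (fun _ : Fin m => (Ioc 0 N).filter (g ∣ ·)) := by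
    ext v
    rw [mem_filter, mem_box, Fintype.mem_piFinset]
    constructor
    · rintro ⟨h1, h2⟩ i
      rw [mem_filter, mem_Ioc]
      exact ⟨⟨(h1 i).1, (h1 i).2⟩, h2 i⟩
    · intro h1
      refine ⟨fun i => ?_, fun i => ?_⟩
      · have := (mem_filter.1 (h1 i)).1
        rw [mem_Ioc] at this
        exact ⟨this.1, this.2⟩
      · exact (mem_filter.1 (h1 i)).2
  rw [h1, Fintype.card_piFinset]
  simp [Nat.Ioc_filter_dvd_card_eq_div]

theorem primitive_count {m N : ℕ} (hm : 2 ≤ m) (hN : 1 ≤ N) {η : ℝ} (hη : 0 < η) (G0 : ℕ) (hG0 : 2 / η ≤ G0)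
    (Φ : (Fin m → ℕ) → Prop) [DecidablePred Φ]
    (hΦ : ∀ (g : ℕ) (v : Fin m → ℕ), 0 < g → Φ (fun i => g * v i) → Φ v)
    (h : η * (N : ℝ) ^ m ≤ ((box m N).filter Φ).card) :
    η / (2 * G0) * (N : ℝ) ^ m ≤ ((box m N).filter (fun v => univ.gcd v = 1 ∧ Φ v)).card := by
  classical
  have hG0r : (0 : ℝ) < G0 := lt_of_lt_of_le (by positivity) hG0
  have hG0p : 0 < G0 := by exact_mod_cast hG0r
  have hNr : (0 : ℝ) < N := by exact_mod_cast hN
  let i0 : Fin m := ⟨0, by omega⟩
  have hgpos : ∀ v ∈ box m N, 0 < univ.gcd v := by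
    intro v hv
    rw [Nat.pos_iff_ne_zero]
    intro h0
    rw [Finset.gcd_eq_zero_iff] at h0
    have := (mem_box.1 hv i0).1
    have h2 := h0 i0 (mem_univ _)
    omega
  have hgN : ∀ v ∈ box m N, univ.gcd v ≤ N := by
    intro v hv
    have h1 : univ.gcd v ∣ v i0 := Finset.gcd_dvd (mem_univ _)
    have h2 := mem_box.1 hv i0
    exact (Nat.le_of_dvd h2.1 h1).trans h2.2
  obtain ⟨P, hP⟩ : ∃ P, P = (box m N).filter (fun v => univ.gcd v = 1 ∧ Φ v) := ⟨_, rfl⟩
  rw [← hP]
  -- small gcd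
  have h1 : (((box m N).filter Φ).filter (fun v => univ.gcd v ≤ G0)).card ≤ G0 * P.card := by
    have h2 : (((box m N).filter Φ).filter (fun v => univ.gcd v ≤ G0)).card ≤ (Icc 1 G0 ×ˢ P).card := by
      apply card_le_card_of_injOn (fun v => (univ.gcd v, fun i => v i / univ.gcd v))
      · intro v hv
        rw [mem_coe, mem_filter, mem_filter] at hv
        obtain ⟨⟨hv1, hv2⟩, hv3⟩ := hv
        have hg := hgpos v hv1
        refine mem_coe.2 (mem_product.2 ⟨mem_Icc.2 ⟨hg, hv3⟩, ?_⟩)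
        have hdiv : ∀ i, univ.gcd v * (v i / univ.gcd v) = v i := fun i =>
          Nat.mul_div_cancel' (Finset.gcd_dvd (mem_univ i))
        show (fun i => v i / univ.gcd v) ∈ P
        rw [hP, mem_filter, mem_box]
        refine ⟨fun i => ⟨?_, (Nat.div_le_self _ _).trans (mem_box.1 hv1 i).2⟩, ?_, ?_⟩
        · rw [Nat.one_le_iff_ne_zero]
          intro h0
          have := hdiv i
          rw [h0, mul_zero] at this
          have h3 := (mem_box.1 hv1 i).1
          omega
        · exact Finset.gcd_div_eq_one (mem_univ i0) (by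
            have := (mem_box.1 hv1 i0).1
            omega)
        · apply hΦ (univ.gcd v) _ hg
          rw [show (fun i => univ.gcd v * (v i / univ.gcd v)) = v from funext hdiv]
          exact hv2
      · intro v hv w hw heq
        simp only [Prod.mk.injEq] at heq
        obtain ⟨e1, e2⟩ := heq
        funext i
        have h3 := congrFun e2 i
        have hv' : univ.gcd v * (v i / univ.gcd v) = v i := Nat.mul_div_cancel' (Finset.gcd_dvd (mem_univ i))
        have hw' : univ.gcd w * (w i / univ.gcd w) = w i := Nat.mul_div_cancel' (Finset.gcd_dvd (mem_univ i))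
        rw [← hv', ← hw', e1]
        have h4 : v i / univ.gcd v = w i / univ.gcd w := h3
        rw [e1] at h4
        rw [h4]
    rwa [card_product, Nat.card_Icc, Nat.add_sub_cancel] at h2
  -- large gcd
  have h2 : (((box m N).filter Φ).filter (fun v => ¬ univ.gcd v ≤ G0)).card ≤ ∑ g ∈ Ioc G0 N, (N / g) ^ m := by
    calc (((box m N).filter Φ).filter (fun v => ¬ univ.gcd v ≤ G0)).card
        ≤ ((Ioc G0 N).biUnion (fun g => (box m N).filter (fun v => ∀ i, g ∣ v i))).card := by
          apply card_le_card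
          intro v hv
          rw [mem_filter, mem_filter] at hv
          obtain ⟨⟨hv1, hv2⟩, hv3⟩ := hv
          rw [mem_biUnion]
          refine ⟨univ.gcd v, mem_Ioc.2 ⟨by omega, hgN v hv1⟩, mem_filter.2 ⟨hv1, fun i => Finset.gcd_dvd (mem_univ i)⟩⟩
      _ ≤ ∑ g ∈ Ioc G0 N, ((box m N).filter (fun v => ∀ i, g ∣ v i)).card := card_biUnion_le
      _ = _ := sum_congr rfl fun g _ => card_div m N g
  have h3 : (∑ g ∈ Ioc G0 N, ((N / g : ℕ) : ℝ) ^ m) ≤ (N : ℝ) ^ m * (G0 : ℝ)⁻¹ := by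
    have h4 : ∀ g ∈ Ioc G0 N, ((N / g : ℕ) : ℝ) ^ m ≤ (N : ℝ) ^ m * ((g : ℝ) ^ 2)⁻¹ := by
      intro g hg
      rw [mem_Ioc] at hg
      have hg1 : (1 : ℝ) ≤ g := by
        have : 1 ≤ g := by omega
        exact_mod_cast this
      have h5 : ((N / g : ℕ) : ℝ) ≤ N / g := Nat.cast_div_le
      calc ((N / g : ℕ) : ℝ) ^ m ≤ ((N : ℝ) / g) ^ m := pow_le_pow_left₀ (Nat.cast_nonneg _) h5 m
        _ = (N : ℝ) ^ m * ((g : ℝ) ^ m)⁻¹ := by rw [div_pow, div_eq_mul_inv]
        _ ≤ (N : ℝ) ^ m * ((g : ℝ) ^ 2)⁻¹ := by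
            apply mul_le_mul_of_nonneg_left _ (by positivity)
            apply inv_anti₀ (by positivity)
            exact pow_le_pow_right₀ hg1 hm
    refine (sum_le_sum h4).trans ?_
    rw [← mul_sum]
    apply mul_le_mul_of_nonneg_left _ (by positivity)
    rcases Nat.lt_or_ge N G0 with h5 | h5
    · rw [Finset.Ioc_eq_empty (by omega)]
      simp
    · refine (sum_Ioc_inv_sq_le_sub hG0p.ne' h5).trans ?_
      have : (0 : ℝ) ≤ (N : ℝ)⁻¹ := by positivity
      linarith
  have h4 : ((box m N).filter Φ).card = (((box m N).filter Φ).filter (fun v => univ.gcd v ≤ G0)).card +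
      (((box m N).filter Φ).filter (fun v => ¬ univ.gcd v ≤ G0)).card :=
    (card_filter_add_card_filter_not _).symm
  have h5 : (((box m N).filter Φ).card : ℝ) ≤ G0 * P.card + (N : ℝ) ^ m * (G0 : ℝ)⁻¹ := by
    have h6 : (((box m N).filter Φ).card : ℝ) ≤ ((G0 * P.card : ℕ) : ℝ) + ((∑ g ∈ Ioc G0 N, (N / g) ^ m : ℕ) : ℝ) := by
      exact_mod_cast h4.le.trans (Nat.add_le_add h1 h2)
    push_cast at h6
    refine h6.trans (add_le_add le_rfl ?_)
    exact h3
  have h6 : (G0 : ℝ)⁻¹ ≤ η / 2 := by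
    rw [inv_le_comm₀ hG0r (by positivity), inv_div]
    exact hG0
  have h7 : η * (N : ℝ) ^ m ≤ G0 * P.card + (N : ℝ) ^ m * (η / 2) :=
    h.trans (h5.trans (add_le_add le_rfl (mul_le_mul_of_nonneg_left h6 (by positivity))))
  rw [div_mul_eq_mul_div, div_le_iff₀ (by positivity)]
  linarith

end Pool.Agent.H569.ER
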