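import Mathlib

/-! The infinite Ramsey theorem for increasing tuples of natural numbers. -/

set_option autoImplicit false

namespace Pool.Agent.H569.ER

theorem ramsey (r : ℕ) : ∀ (C : (Fin r → ℕ) → Prop) (A : Set ℕ), A.Infinite →
    ∃ B : Set ℕ, B ⊆ A ∧ B.Infinite ∧ ((∀ t, StrictMono t → (∀ i, t i ∈ B) → C t) ∨
      (∀ t, StrictMono t → (∀ i, t i ∈ B) → ¬ C t)) := by
  classical
  induction r with
  | zero =>
    intro C A hA
    refine ⟨A, subset_rfl, hA, ?_⟩
    by_cases h : C (fun i => Fin.elim0 i)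
    · left
      intro t _ _
      rwa [Subsingleton.elim t (fun i => Fin.elim0 i)]
    · right
      intro t _ _
      rwa [Subsingleton.elim t (fun i => Fin.elim0 i)]
  | succ r ih =>
    intro C A hA
    -- one step
    have step : ∀ S : {S : Set ℕ // S.Infinite}, ∃ (a : ℕ) (S' : {S : Set ℕ // S.Infinite}) (c : Bool),
        a ∈ S.1 ∧ S'.1 ⊆ S.1 ∧ (∀ x ∈ S'.1, a < x) ∧
        ∀ s : Fin r → ℕ, StrictMono s → (∀ i, s i ∈ S'.1) → (C (Fin.cons a s) ↔ c = true) := by
      intro S
      obtain ⟨a, ha⟩ := S.2.nonempty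
      have h1 : (S.1 \ Set.Iic a).Infinite := S.2.sdiff (Set.finite_Iic a)
      obtain ⟨B, hB1, hB2, hB3⟩ := ih (fun s => C (Fin.cons a s)) _ h1
      rcases hB3 with h | h
      · refine ⟨a, ⟨B, hB2⟩, true, ha, fun x hx => (hB1 hx).1, fun x hx => ?_, fun s hs1 hs2 => ?_⟩
        · have := (hB1 hx).2
          simpa using this
        · simp [h s hs1 hs2]
      · refine ⟨a, ⟨B, hB2⟩, false, ha, fun x hx => (hB1 hx).1, fun x hx => ?_, fun s hs1 hs2 => ?_⟩
        · have := (hB1 hx).2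
          simpa using this
        · simp [h s hs1 hs2]
    choose a' S' c' h1 h2 h3 h4 using step
    let S : ℕ → {S : Set ℕ // S.Infinite} := fun k => Nat.rec ⟨A, hA⟩ (fun _ T => S' T) k
    have hSs : ∀ k, S (k + 1) = S' (S k) := fun k => rfl
    let a : ℕ → ℕ := fun k => a' (S k)
    let c : ℕ → Bool := fun k => c' (S k)
    have hsub : ∀ k, (S (k + 1)).1 ⊆ (S k).1 := fun k => by rw [hSs]; exact h2 _
    have hsub' : ∀ k j, k ≤ j → (S j).1 ⊆ (S k).1 := by
      intro k j hkj
      induction j, hkj using Nat.le_induction with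
      | base => exact subset_rfl
      | succ j _ ihj => exact (hsub j).trans ihj
    have hmem : ∀ k j, k < j → a j ∈ (S (k + 1)).1 := fun k j hkj => hsub' (k + 1) j hkj (h1 (S j))
    have hlt : ∀ k j, k < j → a k < a j := fun k j hkj => by
      have := hmem k j hkj
      rw [hSs] at this
      exact h3 (S k) _ this
    have hmono : StrictMono a := fun k j hkj => hlt k j hkj
    have haA : ∀ k, a k ∈ A := fun k => hsub' 0 k (Nat.zero_le _) (h1 (S k))
    have hcol : ∀ k (s : Fin r → ℕ), StrictMono s → (∀ i, s i ∈ (S (k + 1)).1) →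
        (C (Fin.cons (a k) s) ↔ c k = true) := fun k s hs1 hs2 => h4 (S k) s hs1 hs2
    -- the indices of one colour
    have fin : ∀ (b : Bool) (I : Set ℕ), I.Infinite → (∀ k ∈ I, c k = b) →
        (a '' I) ⊆ A ∧ (a '' I).Infinite ∧ ∀ t : Fin (r + 1) → ℕ, StrictMono t → (∀ i, t i ∈ a '' I) →
          (C t ↔ b = true) := by
      intro b I hI hb
      refine ⟨?_, hI.image hmono.injective.injOn, ?_⟩
      · rintro x ⟨k, _, rfl⟩
        exact haA k
      · intro t ht1 ht2
        obtain ⟨k, hk, hk0⟩ := ht2 0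
        have h5 : t = Fin.cons (a k) (fun i => t i.succ) := by
          rw [hk0]
          exact (Fin.cons_self_tail t).symm
        rw [h5, hcol k (fun i => t i.succ) (fun i j hij => ht1 (Fin.succ_lt_succ_iff.2 hij)) ?_, hb k hk]
        intro i
        obtain ⟨j, hj, hj0⟩ := ht2 i.succ
        have h6 : a k < a j := by
          rw [hk0, hj0]
          exact ht1 (Fin.succ_pos i)
        have h7 : k < j := hmono.lt_iff_lt.1 h6
        show t i.succ ∈ _
        rw [← hj0]
        exact hmem k j h7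
    by_cases hI : {k | c k = true}.Infinite
    · obtain ⟨f1, f2, f3⟩ := fin true _ hI (fun k hk => hk)
      exact ⟨_, f1, f2, Or.inl fun t ht1 ht2 => (f3 t ht1 ht2).2 rfl⟩
    · have hI' : {k | c k = false}.Infinite := by
        rw [Set.not_infinite] at hI
        have h8 : {k | c k = false} = {k | c k = true}ᶜ := by
          ext k
          simp
        rw [h8]
        exact hI.infinite_compl
      obtain ⟨f1, f2, f3⟩ := fin false _ hI' (fun k hk => hk)
      refine ⟨_, f1, f2, Or.inr fun t ht1 ht2 hC => ?_⟩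
      have := (f3 t ht1 ht2).1 hC
      exact Bool.false_ne_true this

/-- if every large enough finite set contains a good increasing `m + 1`-tuple, for every `m`, then every infinite set
has an infinite subset such that, for each `m`, all the `m + 1`-tuples of its elements beyond some point are good -/
theorem schreier (G : ∀ m : ℕ, (Fin (m + 1) → ℕ) → Prop)
    (hG : ∀ m, ∃ K : ℕ, ∀ T : Finset ℕ, K ≤ T.card → ∃ t : Fin (m + 1) → ℕ, StrictMono t ∧ (∀ i, t i ∈ T) ∧ G m t)
    (A : Set ℕ) (hA : A.Infinite) :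
    ∃ B : Set ℕ, B ⊆ A ∧ B.Infinite ∧ ∀ m, ∃ b, ∀ t : Fin (m + 1) → ℕ, StrictMono t → (∀ i, t i ∈ B ∧ b ≤ t i) →
      G m t := by
  classical
  have step : ∀ (m : ℕ) (S : {S : Set ℕ // S.Infinite}), ∃ S' : {S : Set ℕ // S.Infinite}, S'.1 ⊆ S.1 ∧
      ∀ t : Fin (m + 1) → ℕ, StrictMono t → (∀ i, t i ∈ S'.1) → G m t := by
    intro m S
    obtain ⟨B, hB1, hB2, hB3⟩ := ramsey (m + 1) (G m) S.1 S.2
    refine ⟨⟨B, hB2⟩, hB1, ?_⟩
    rcases hB3 with h | h
    · exact h
    · exfalso
      obtain ⟨K, hK⟩ := hG m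
      obtain ⟨T, hT1, hT2⟩ := hB2.exists_subset_card_eq K
      obtain ⟨t, ht1, ht2, ht3⟩ := hK T hT2.ge
      exact h t ht1 (fun i => hT1 (ht2 i)) ht3
  choose F hF1 hF2 using step
  let S : ℕ → {S : Set ℕ // S.Infinite} := fun k => Nat.rec (F 0 ⟨A, hA⟩) (fun k T => F (k + 1) T) k
  have hSs : ∀ k, S (k + 1) = F (k + 1) (S k) := fun k => rfl
  have hsub : ∀ k, (S (k + 1)).1 ⊆ (S k).1 := fun k => by rw [hSs]; exact hF1 _ _
  have hsub' : ∀ k j, k ≤ j → (S j).1 ⊆ (S k).1 := by
    intro k j hkj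
    induction j, hkj using Nat.le_induction with
    | base => exact subset_rfl
    | succ j _ ihj => exact (hsub j).trans ihj
  have hSA : ∀ k, (S k).1 ⊆ A := fun k => (hsub' 0 k (Nat.zero_le _)).trans (hF1 0 _)
  have hSG : ∀ k, ∀ t : Fin (k + 1) → ℕ, StrictMono t → (∀ i, t i ∈ (S k).1) → G k t := by
    intro k
    cases k with
    | zero => exact hF2 0 _
    | succ k => rw [hSs]; exact hF2 (k + 1) _
  -- an increasing sequence
  have pick : ∀ (k x : ℕ), ∃ y, y ∈ (S k).1 ∧ x < y := fun k x => by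
    obtain ⟨y, hy1, hy2⟩ := (S k).2.exists_gt x
    exact ⟨y, hy1, hy2⟩
  choose g hg1 hg2 using pick
  let b : ℕ → ℕ := fun k => Nat.rec (g 0 0) (fun k y => g (k + 1) y) k
  have hbs : ∀ k, b (k + 1) = g (k + 1) (b k) := fun k => rfl
  have hbm : ∀ k, b k ∈ (S k).1 := by
    intro k
    cases k with
    | zero => exact hg1 0 0
    | succ k => rw [hbs]; exact hg1 (k + 1) (b k)
  have hbmono : StrictMono b := strictMono_nat_of_lt_succ fun k => by rw [hbs]; exact hg2 _ _
  refine ⟨Set.range b, ?_, Set.infinite_range_of_injective hbmono.injective, fun m => ⟨b m, ?_⟩⟩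
  · rintro x ⟨k, rfl⟩
    exact hSA k (hbm k)
  · intro t ht1 ht2
    apply hSG m t ht1
    intro i
    obtain ⟨⟨k, hk⟩, hle⟩ := ht2 i
    rw [← hk] at hle ⊢
    have h1 : m ≤ k := hbmono.le_iff_le.1 hle
    exact hsub' m k h1 (hbm k)

end Pool.Agent.H569.ER
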