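import Mathlib
import Pool.Agent.H569.ER2
import Pool.Agent.H569.ER3

/-! Exact vectors of consecutive prime gaps: assembly. -/

set_option autoImplicit false

namespace Pool.Agent.H569.ER

open Finset Filter
open Pool.Agent.H256R2.SC (ff)

/-- for arbitrarily large `X` the gap vector `D v` occurs at `X ^ (4 / 5)` places below `4 X`, with record size `D` -/
def Recurs {m : ℕ} (q h : ℕ) (v : Fin m → ℕ) : Prop :=
  ∃ κ : ℝ, 0 < κ ∧ ∀ x₀ : ℝ, ∃ (X : ℝ) (D L : ℕ), x₀ ≤ X ∧ κ * ff X ≤ L ∧ L ≤ D ∧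
    X ^ (4 / 5 : ℝ) ≤ ((Starts q h L (fun i => D * v i) X).ncard : ℝ)

theorem Recurs.of_mul {m q h g : ℕ} {v : Fin m → ℕ} (hg : 0 < g) (hv : Recurs q h (fun i => g * v i)) :
    Recurs q h v := by
  obtain ⟨κ, hκ, H⟩ := hv
  refine ⟨κ, hκ, fun x₀ => ?_⟩
  obtain ⟨X, D, L, h1, h2, h3, h4⟩ := H x₀
  refine ⟨X, D * g, L, h1, h2, h3.trans (Nat.le_mul_of_pos_right _ hg), ?_⟩
  have h5 : (fun i => D * (g * v i)) = (fun i => D * g * v i) := by
    funext i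
    ring
  rwa [h5] at h4

theorem ff_large (C : ℝ) : ∀ᶠ X : ℝ in atTop, C ≤ ff X := by
  have t1 := Real.tendsto_log_atTop
  have t2 : Tendsto (fun X : ℝ => Real.log (Real.log X)) atTop atTop := t1.comp t1
  have t3 : Tendsto (fun X : ℝ => Real.log (Real.log (Real.log X))) atTop atTop := t1.comp t2
  have t4 : Tendsto (fun X : ℝ => Real.log (Real.log (Real.log (Real.log X)))) atTop atTop := t1.comp t3
  filter_upwards [t1.eventually_ge_atTop (max C 1), t2.eventually_ge_atTop 1, t3.eventually_ge_atTop 1,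
    t4.eventually_ge_atTop 1] with X h1 h2 h3 h4
  have h1a : C ≤ Real.log X := (le_max_left _ _).trans h1
  have h1b : 1 ≤ Real.log X := (le_max_right _ _).trans h1
  have h5 : Real.log (Real.log (Real.log X)) ≤ Real.log (Real.log X) := by
    have := Real.log_le_sub_one_of_pos (show 0 < Real.log (Real.log X) by linarith)
    linarith
  unfold ff
  rw [le_div_iff₀ (by positivity)]
  have h6 : (Real.log (Real.log (Real.log X))) ^ 2 ≤ (Real.log (Real.log X)) ^ 2 :=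
    pow_le_pow_left₀ (by linarith) h5 2
  calc C * (Real.log (Real.log (Real.log X))) ^ 2 ≤ Real.log X * (Real.log (Real.log (Real.log X))) ^ 2 :=
        mul_le_mul_of_nonneg_right h1a (by positivity)
    _ ≤ Real.log X * (Real.log (Real.log X)) ^ 2 := mul_le_mul_of_nonneg_left h6 (by linarith)
    _ ≤ Real.log X * (Real.log (Real.log X)) ^ 2 * Real.log (Real.log (Real.log (Real.log X))) := by
        have h7 : 0 ≤ Real.log X * (Real.log (Real.log X)) ^ 2 := by positivity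
        nlinarith

/-- the statement about sets of multiples of `Q` -/
def Sets (m K q h Q : ℕ) (c X : ℝ) : Prop :=
  ∀ L : ℕ, (L : ℝ) ≤ c * ff X →
    ∀ U : Finset ℕ, K ≤ U.card → (∀ u ∈ U, Q ∣ u ∧ (u : ℝ) ≤ c * ff X) →
      (∀ u ∈ U, ∀ u' ∈ U, u < u' → u + L ≤ u') →
        ∃ t : Fin (m + 1) → ℕ, StrictMono t ∧ (∀ i, t i ∈ U) ∧
          X ^ (4 / 5 : ℝ) ≤ ((Starts q h L (dif t) X).ncard : ℝ)

/-- dilated sets -/
theorem dilated {m K q h Q : ℕ} {c X : ℝ} (H : Sets m K q h Q c X) {D : ℕ} (hD : 0 < D) (hQD : Q ∣ D)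
    (hDc : (D : ℝ) ≤ c * ff X) (T : Finset ℕ) (hT : K ≤ T.card) (hTc : ∀ u ∈ T, (D : ℝ) * u ≤ c * ff X) :
    ∃ t : Fin (m + 1) → ℕ, StrictMono t ∧ (∀ i, t i ∈ T) ∧
      X ^ (4 / 5 : ℝ) ≤ ((Starts q h D (fun i => D * dif t i) X).ncard : ℝ) := by
  classical
  have hinj : Function.Injective (fun u : ℕ => D * u) := fun u u' h => Nat.eq_of_mul_eq_mul_left hD h
  obtain ⟨t, ht1, ht2, ht3⟩ := H D hDc (T.image (fun u => D * u)) (by rwa [card_image_of_injective _ hinj])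
    (fun u hu => by
      rw [mem_image] at hu
      obtain ⟨w, hw, rfl⟩ := hu
      refine ⟨hQD.mul_right _, ?_⟩
      push_cast
      exact hTc w hw)
    (fun u hu u' hu' huu => by
      rw [mem_image] at hu hu'
      obtain ⟨w, hw, rfl⟩ := hu
      obtain ⟨w', hw', rfl⟩ := hu'
      have h1 : w < w' := lt_of_mul_lt_mul_left huu (Nat.zero_le D)
      calc D * w + D = D * (w + 1) := by ring
        _ ≤ D * w' := Nat.mul_le_mul_left _ h1)
  have hex : ∀ i, ∃ w ∈ T, D * w = t i := fun i => by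
    have := ht2 i
    rwa [mem_image] at this
  choose w hw1 hw2 using hex
  have hwm : StrictMono w := by
    intro i j hij
    have h1 := ht1 hij
    rw [← hw2 i, ← hw2 j] at h1
    exact lt_of_mul_lt_mul_left h1 (Nat.zero_le D)
  refine ⟨w, hwm, hw1, ?_⟩
  have h1 : (fun i => D * dif w i) = dif t := by
    funext i
    show D * (w i.succ - w i.castSucc) = t i.succ - t i.castSucc
    rw [Nat.mul_sub, hw2, hw2]
  rwa [h1]

theorem recurs_of_card {m K q h Q : ℕ} {c : ℝ} (hQ : 0 < Q) (hc : 0 < c)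
    (H : ∀ᶠ X : ℝ in atTop, Sets m K q h Q c X) (T : Finset ℕ) (hT : K ≤ T.card) :
    ∃ t : Fin (m + 1) → ℕ, StrictMono t ∧ (∀ i, t i ∈ T) ∧ Recurs q h (dif t) := by
  classical
  obtain ⟨B, hB1, hB⟩ : ∃ B : ℕ, 1 ≤ B ∧ ∀ u ∈ T, u ≤ B :=
    ⟨T.sup id + 1, by omega, fun u hu => (le_sup (f := id) hu).trans (Nat.le_succ _)⟩
  have hBr : (1 : ℝ) ≤ B := by exact_mod_cast hB1
  have hQr : (0 : ℝ) < Q := by exact_mod_cast hQ
  by_contra hcon
  push Not at hcon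
  obtain ⟨W, hW⟩ : ∃ W : Finset (Fin (m + 1) → ℕ), W = (Fintype.piFinset (fun _ => T)).filter
    (fun t => StrictMono t) := ⟨_, rfl⟩
  have hno : ∀ t ∈ W, ∃ x₀ : ℝ, ∀ (X : ℝ) (D L : ℕ), x₀ ≤ X → c / (2 * B) * ff X ≤ L → L ≤ D →
      ((Starts q h L (fun i => D * dif t i) X).ncard : ℝ) < X ^ (4 / 5 : ℝ) := by
    intro t ht
    rw [hW, mem_filter, Fintype.mem_piFinset] at ht
    have h1 := hcon t ht.2 ht.1
    unfold Recurs at h1
    push Not at h1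
    exact h1 (c / (2 * B)) (by positivity)
  choose! x₀ hx₀ using hno
  have hall : ∀ᶠ X : ℝ in atTop, ∀ t ∈ W, x₀ t ≤ X := by
    rw [Filter.eventually_all_finset]
    exact fun t _ => eventually_ge_atTop _
  obtain ⟨X, hX1, hX2, hX3⟩ := (H.and (hall.and (ff_large (2 * Q * B / c)))).exists
  have hF : 2 * Q * B ≤ c * ff X := by
    rw [div_le_iff₀ hc] at hX3
    linarith
  obtain ⟨u, hu⟩ : ∃ u : ℕ, u = ⌊c * ff X / (Q * B)⌋₊ := ⟨_, rfl⟩
  have hu2 : (2 : ℝ) ≤ c * ff X / (Q * B) := by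
    rw [le_div_iff₀ (by positivity)]
    linarith
  have hu0 : (u : ℝ) ≤ c * ff X / (Q * B) := by rw [hu]; exact Nat.floor_le (by positivity)
  have hu3 : c * ff X / (Q * B) < u + 1 := by rw [hu]; exact Nat.lt_floor_add_one _
  have hu1 : 1 ≤ u := by
    have h2 : (0 : ℝ) < u := by linarith
    exact_mod_cast h2
  have hu1r : (1 : ℝ) ≤ u := by exact_mod_cast hu1
  have hD0 : 0 < Q * u := Nat.mul_pos hQ hu1
  have hDB : ((Q * u : ℕ) : ℝ) * B ≤ c * ff X := by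
    rw [le_div_iff₀ (by positivity)] at hu0
    push_cast
    linarith
  have hDc : ((Q * u : ℕ) : ℝ) ≤ c * ff X := by
    have h1 : (0 : ℝ) ≤ ((Q * u : ℕ) : ℝ) := Nat.cast_nonneg _
    nlinarith
  have hDκ : c / (2 * B) * ff X ≤ ((Q * u : ℕ) : ℝ) := by
    have h1 : c * ff X / (Q * B) ≤ 2 * u := by linarith
    rw [div_le_iff₀ (by positivity)] at h1
    rw [div_mul_eq_mul_div, div_le_iff₀ (by positivity)]
    push_cast
    linarith
  obtain ⟨t, ht1, ht2, ht3⟩ := dilated hX1 hD0 (Dvd.intro _ rfl) hDc T hT (fun w hw => by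
    have h1 : (w : ℝ) ≤ B := by exact_mod_cast hB w hw
    exact (mul_le_mul_of_nonneg_left h1 (Nat.cast_nonneg _)).trans hDB)
  have htW : t ∈ W := by
    rw [hW, mem_filter, Fintype.mem_piFinset]
    exact ⟨ht2, ht1⟩
  exact absurd (hx₀ t htW X (Q * u) (Q * u) (hX2 t htW) hDκ le_rfl) (not_lt.2 ht3)

theorem dif_mem {m N : ℕ} (t : Fin (m + 1) → ℕ) (ht : StrictMono t) (htN : ∀ i, t i ∈ range (N + 1)) :
    dif t ∈ box m N := by
  rw [mem_box]
  intro i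
  have h1 : t i.castSucc < t i.succ := ht Fin.castSucc_lt_succ
  have h2 := mem_range.1 (htN i.succ)
  show 1 ≤ t i.succ - t i.castSucc ∧ t i.succ - t i.castSucc ≤ N
  omega

/-- the vectors with entries in `[1, N]` which have a property -/
theorem ncard_vec {m N : ℕ} (Φ : (Fin m → ℕ) → Prop) [DecidablePred Φ] :
    Set.ncard {v : Fin m → ℕ | (∀ i, 1 ≤ v i ∧ v i ≤ N) ∧ Φ v} = ((box m N).filter Φ).card := by
  rw [← Set.ncard_coe_finset]
  congr 1
  ext v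
  rw [mem_coe, mem_filter, mem_box]
  rfl

theorem main (m : ℕ) : ∃ (K : ℕ) (η : ℝ), 0 < η ∧ ∀ q h : ℕ, Squarefree q → h.Coprime q →
    (∃ (Q : ℕ) (c : ℝ), 0 < Q ∧ 0 < c ∧ ∀ᶠ X : ℝ in atTop,
      (∀ L : ℕ, (L : ℝ) ≤ c * ff X → ∀ U : Finset ℕ, K ≤ U.card → (∀ u ∈ U, Q ∣ u ∧ (u : ℝ) ≤ c * ff X) →
        (∀ u ∈ U, ∀ u' ∈ U, u < u' → u + L ≤ u') →
          ∃ t : Fin (m + 1) → ℕ, StrictMono t ∧ (∀ i, t i ∈ U) ∧
            X ^ (4 / 5 : ℝ) ≤ ((Starts q h L (fun i => t i.succ - t i.castSucc) X).ncard : ℝ)) ∧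
      (∀ D N : ℕ, 0 < D → Q ∣ D → K ≤ N → (D : ℝ) * N ≤ c * ff X →
        η * (N : ℝ) ^ m ≤ (Set.ncard {v : Fin m → ℕ | (∀ i, 1 ≤ v i ∧ v i ≤ N) ∧
          X ^ (4 / 5 : ℝ) ≤ ((Starts q h D (fun i => D * v i) X).ncard : ℝ)} : ℝ))) ∧
    (2 ≤ m → ∀ N : ℕ, K ≤ N → η * (N : ℝ) ^ m ≤
      (Set.ncard {v : Fin m → ℕ | (∀ i, 1 ≤ v i ∧ v i ≤ N) ∧ univ.gcd v = 1 ∧ Recurs q h v} : ℝ)) := by
  classical
  obtain ⟨K, hmK, hK⟩ := core m
  obtain ⟨η₀, hη₀⟩ : ∃ η₀ : ℝ, η₀ = 1 / (2 ^ K * K.factorial) := ⟨_, rfl⟩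
  have hη : 0 < η₀ := by rw [hη₀]; positivity
  have cnt : ∀ N : ℕ, 2 * K ≤ N → ∀ Φ : (Fin m → ℕ) → Prop,
      (∀ T : Finset ℕ, T ⊆ range (N + 1) → K ≤ T.card →
        ∃ t : Fin (m + 1) → ℕ, StrictMono t ∧ (∀ i, t i ∈ T) ∧ Φ (dif t)) →
      η₀ * (N : ℝ) ^ m ≤ ((box m N).filter Φ).card := by
    intro N hN Φ hΦ
    have h1 := count_vectors m K N hmK hN ((box m N).filter Φ) (fun T hT hTK => by
      obtain ⟨t, ht1, ht2, ht3⟩ := hΦ T hT hTK
      exact ⟨t, ht1, ht2, mem_filter.2 ⟨dif_mem t ht1 fun i => hT (ht2 i), ht3⟩⟩)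
    have h2 : ((N : ℝ) + 1) ^ m ≤ 2 ^ K * K.factorial * ((box m N).filter Φ).card := by exact_mod_cast h1
    have h3 : (N : ℝ) ^ m ≤ ((N : ℝ) + 1) ^ m := pow_le_pow_left₀ (by positivity) (by linarith) m
    rw [hη₀, div_mul_eq_mul_div, one_mul, div_le_iff₀ (by positivity)]
    linarith
  obtain ⟨G0, hG0⟩ := exists_nat_ge (2 / η₀)
  have hG0r : (0 : ℝ) < G0 := lt_of_lt_of_le (by positivity) hG0
  have hG01 : (1 : ℝ) ≤ G0 := by
    have : 0 < G0 := by exact_mod_cast hG0r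
    exact_mod_cast this
  have hηle : η₀ / (2 * G0) ≤ η₀ := by
    rw [div_le_iff₀ (by positivity)]
    nlinarith
  refine ⟨2 * K, η₀ / (2 * G0), by positivity, fun q h hq hh => ?_⟩
  obtain ⟨Q, c, hQ, hc, hev⟩ := hK q h hq hh
  refine ⟨⟨Q, c, hQ, hc, ?_⟩, fun hm N hN => ?_⟩
  · filter_upwards [hev] with X hX
    refine ⟨fun L hL U hU => hX L hL U (by omega), fun D N hD hQD hN hDN => ?_⟩
    have hN1 : (1 : ℝ) ≤ N := by
      have : 1 ≤ N := by omega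
      exact_mod_cast this
    have hD0 : (0 : ℝ) ≤ D := Nat.cast_nonneg _
    have hDc : (D : ℝ) ≤ c * ff X := by nlinarith
    rw [ncard_vec]
    refine le_trans (mul_le_mul_of_nonneg_right hηle (by positivity)) (cnt N hN _ fun T hT hTK => ?_)
    refine dilated (m := m) (K := K) (q := q) (h := h) (Q := Q) hX hD hQD hDc T hTK (fun u hu => ?_)
    have h1 := mem_range.1 (hT hu)
    have h2 : (u : ℝ) ≤ N := by exact_mod_cast Nat.lt_succ_iff.1 h1
    exact (mul_le_mul_of_nonneg_left h2 hD0).trans hDN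
  · rw [ncard_vec]
    exact primitive_count hm (by omega) hη G0 hG0 _ (fun g v hg hv => Recurs.of_mul hg hv)
      (cnt N hN _ fun T _ hTK => recurs_of_card hQ hc hev T hTK)

theorem main_infinite (q h : ℕ) (hq : Squarefree q) (hh : h.Coprime q) (A : Set ℕ) (hA : A.Infinite) :
    ∃ B : Set ℕ, B ⊆ A ∧ B.Infinite ∧ ∀ m, ∃ b, ∀ t : Fin (m + 1) → ℕ, StrictMono t → (∀ i, t i ∈ B ∧ b ≤ t i) →
      Recurs q h (fun i : Fin m => t i.succ - t i.castSucc) :=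
  schreier (fun _ t => Recurs q h (dif t)) (fun m => by
    obtain ⟨K, _, hK⟩ := core m
    obtain ⟨Q, c, hQ, hc, hev⟩ := hK q h hq hh
    exact ⟨K, fun T hT => recurs_of_card hQ hc hev T hT⟩) A hA

end Pool.Agent.H569.ER
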