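import Mathlib

/-! Sets of words of positive density contain infinite strong subtrees. -/

set_option autoImplicit false

namespace Pool.Agent.H569.TR

open Finset Filter Topology

variable {r : ℕ}

/-- the sum of `F` over the words `v ++ u` with `u` of length `m` -/
noncomputable def S (F : List (Fin r) → ℝ) : List (Fin r) → ℕ → ℝ
  | v, 0 => F v
  | v, m + 1 => ∑ i : Fin r, S F (v ++ [i]) m

theorem S_le {F G : List (Fin r) → ℝ} (m : ℕ) : ∀ (v : List (Fin r)),
    (∀ t, v <+: t → t.length = v.length + m → F t ≤ G t) → S F v m ≤ S G v m := by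
  induction m with
  | zero => intro v h; exact h v (List.prefix_refl v) rfl
  | succ m ih =>
    intro v h
    refine Finset.sum_le_sum fun i _ => ih _ fun t ht hl => h t ?_ ?_
    · exact (List.prefix_append v [i]).trans ht
    · rw [hl]; simp; omega

theorem S_last (F : List (Fin r) → ℝ) (m : ℕ) : ∀ (v : List (Fin r)),
    S F v (m + 1) = S (fun t => ∑ i : Fin r, F (t ++ [i])) v m := by
  induction m with
  | zero => intro v; rfl
  | succ m ih =>
    intro v
    change ∑ i : Fin r, S F (v ++ [i]) (m + 1) = ∑ i : Fin r, S _ (v ++ [i]) m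
    exact Finset.sum_congr rfl fun i _ => ih _

theorem S_const (c : ℝ) (m : ℕ) : ∀ (v : List (Fin r)), S (fun _ => c) v m = c * (r : ℝ) ^ m := by
  induction m with
  | zero => intro v; simp [S]
  | succ m ih =>
    intro v
    change ∑ i : Fin r, S (fun _ => c) (v ++ [i]) m = _
    rw [Finset.sum_congr rfl fun i _ => ih _, Finset.sum_const, Finset.card_univ, Fintype.card_fin,
      nsmul_eq_mul]
    ring

theorem S_lin (a b : ℝ) (F G : List (Fin r) → ℝ) (m : ℕ) : ∀ (v : List (Fin r)),
    S (fun t => a * F t + b * G t) v m = a * S F v m + b * S G v m := by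
  induction m with
  | zero => intro v; rfl
  | succ m ih =>
    intro v
    change ∑ i : Fin r, S _ (v ++ [i]) m = a * ∑ i : Fin r, S F (v ++ [i]) m +
      b * ∑ i : Fin r, S G (v ++ [i]) m
    rw [Finset.sum_congr rfl fun i _ => ih _, Finset.sum_add_distrib, Finset.mul_sum, Finset.mul_sum]

open Classical in
/-- indicator function -/
noncomputable def ind (H : Set (List (Fin r))) (t : List (Fin r)) : ℝ := if t ∈ H then 1 else 0

theorem ind_nonneg (H : Set (List (Fin r))) (t : List (Fin r)) : 0 ≤ ind H t := by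
  unfold ind; split_ifs <;> norm_num

theorem ind_le (H : Set (List (Fin r))) (t : List (Fin r)) : ind H t ≤ 1 := by
  unfold ind; split_ifs <;> norm_num

theorem S_nonneg {F : List (Fin r) → ℝ} (hF : ∀ t, 0 ≤ F t) (v : List (Fin r)) (m : ℕ) : 0 ≤ S F v m := by
  have h := S_le (F := fun _ => (0 : ℝ)) (G := F) m v (fun t _ _ => hF t)
  rw [S_const] at h
  linarith

/-- relative density of `H` on the level `l` below `v` -/
noncomputable def D (H : Set (List (Fin r))) (l : ℕ) (v : List (Fin r)) : ℝ :=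
  S (ind H) v (l - v.length) / (r : ℝ) ^ (l - v.length)

theorem D_mem (hr : 1 ≤ r) (H : Set (List (Fin r))) (l : ℕ) (v : List (Fin r)) :
    D H l v ∈ Set.Icc (0 : ℝ) 1 := by
  have hr0 : (0 : ℝ) < (r : ℝ) ^ (l - v.length) := by positivity
  constructor
  · exact div_nonneg (S_nonneg (ind_nonneg H) _ _) hr0.le
  · unfold D
    rw [div_le_one hr0]
    have h := S_le (F := ind H) (G := fun _ => (1 : ℝ)) (l - v.length) v (fun t _ _ => ind_le H t)
    rw [S_const] at h
    linarith

theorem D_avg (H : Set (List (Fin r))) {l : ℕ} {v : List (Fin r)} (hl : v.length < l) :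
    D H l v = (∑ i : Fin r, D H l (v ++ [i])) / r := by
  obtain ⟨m, hm⟩ : ∃ m, l - v.length = m + 1 := ⟨l - v.length - 1, by omega⟩
  have h1 : ∀ i : Fin r, l - (v ++ [i]).length = m := by
    intro i
    simp only [List.length_append, List.length_singleton]
    omega
  unfold D
  simp only [h1, hm]
  rw [← Finset.sum_div]
  change (∑ i : Fin r, S (ind H) (v ++ [i]) m) / _ = _
  rw [div_div, pow_succ]

theorem exists_lim (hr : 1 ≤ r) (U : Ultrafilter ℕ) (H : Set (List (Fin r))) (v : List (Fin r)) :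
    ∃ x : ℝ, Tendsto (fun l => D H l v) U (𝓝 x) := by
  have hc : IsCompact (Set.Icc (0 : ℝ) 1) := isCompact_Icc
  have h1 : ((U.map (fun l => D H l v) : Ultrafilter ℝ) : Filter ℝ) ≤ 𝓟 (Set.Icc (0 : ℝ) 1) := by
    rw [le_principal_iff, Ultrafilter.mem_coe, Ultrafilter.mem_map]
    exact Filter.univ_mem' fun l => D_mem hr H l v
  obtain ⟨x, _, hx⟩ := hc.ultrafilter_le_nhds _ h1
  exact ⟨x, hx⟩

/-- good extensions: `d` is the relative density of `H` along an ultrafilter -/
theorem step_of (hr : 1 ≤ r) (U : Ultrafilter ℕ) (hUle : (U : Filter ℕ) ≤ atTop) (H : Set (List (Fin r)))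
    (d : List (Fin r) → ℝ) (hd : ∀ v, Tendsto (fun l => D H l v) U (𝓝 (d v))) (v : List (Fin r))
    (hv : 0 < d v) : ∀ᶠ l in (U : Filter ℕ), ∃ t, v <+: t ∧ t.length = l ∧ t ∈ H ∧
      ∀ i, 0 < d (t ++ [i]) := by
  classical
  have hr0 : (0 : ℝ) < r := by exact_mod_cast hr
  have hge : ∀ N : ℕ, ∀ᶠ l in (U : Filter ℕ), N < l := fun N => hUle (eventually_gt_atTop N)
  have hd0 : ∀ v, 0 ≤ d v := fun v =>
    ge_of_tendsto (hd v) (Eventually.of_forall fun l => (D_mem hr H l v).1)
  have hd1 : ∀ v, d v ≤ 1 := fun v =>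
    le_of_tendsto (hd v) (Eventually.of_forall fun l => (D_mem hr H l v).2)
  have hdavg : ∀ v, d v = (∑ i : Fin r, d (v ++ [i])) / r := by
    intro v
    have h1 : Tendsto (fun l => (∑ i : Fin r, D H l (v ++ [i])) / r) U
        (𝓝 ((∑ i : Fin r, d (v ++ [i])) / r)) :=
      (tendsto_finsetSum _ fun i _ => hd _).div_const _
    refine tendsto_nhds_unique (hd v) (h1.congr' ?_)
    filter_upwards [hge v.length] with l hl
    exact (D_avg H hl).symm
  have hSd : ∀ (m : ℕ) (v : List (Fin r)), S d v m = (r : ℝ) ^ m * d v := by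
    intro m
    induction m with
    | zero => intro v; simp [S]
    | succ m ih =>
      intro v
      change ∑ i : Fin r, S d (v ++ [i]) m = _
      rw [Finset.sum_congr rfl fun i _ => ih _, ← Finset.mul_sum, hdavg v]
      field_simp
      ring
  set T : Set ℝ := {x | ∃ u, v <+: u ∧ x = d u} with hT
  have hTb : BddAbove T := ⟨1, by rintro x ⟨u, _, rfl⟩; exact hd1 u⟩
  have hTn : T.Nonempty := ⟨d v, v, List.prefix_refl v, rfl⟩
  set σ : ℝ := sSup T with hσ
  have hσv : d v ≤ σ := le_csSup hTb ⟨v, List.prefix_refl v, rfl⟩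
  have hσ0 : 0 < σ := lt_of_lt_of_le hv hσv
  set η : ℝ := σ / (4 * r) with hη
  have hσ1 : σ ≤ 1 := csSup_le hTn (by rintro x ⟨u, _, rfl⟩; exact hd1 u)
  have hr1 : (1 : ℝ) ≤ r := by exact_mod_cast hr
  have hη0 : 0 < η := by positivity
  have hη1 : η ≤ 1 / 4 := by
    rw [hη, div_le_div_iff₀ (by positivity) (by norm_num)]
    nlinarith
  obtain ⟨x, ⟨u, hvu, rfl⟩, hu⟩ := exists_lt_of_lt_csSup hTn (show σ * (1 - η) < sSup T by
    rw [← hσ]
    nlinarith)
  have hu34 : 3 / 4 * σ < d u := by nlinarith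
  set Z : Set (List (Fin r)) := {t | d t = 0} with hZ
  set B : Set (List (Fin r)) := {t | ∃ i, d (t ++ [i]) = 0} with hB
  have hZm : ∀ m, S (ind Z) u m ≤ η * (r : ℝ) ^ m := by
    intro m
    have h1 : S d u m ≤ S (fun t => σ * (fun _ => (1 : ℝ)) t + (-σ) * ind Z t) u m := by
      refine S_le m u fun t ht _ => ?_
      by_cases h : d t = 0
      · simp [ind, hZ, h]
      · have h2 : d t ≤ σ := le_csSup hTb ⟨t, hvu.trans ht, rfl⟩
        simp [ind, hZ, h, h2]
    rw [S_lin, S_const, hSd] at h1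
    have hrm : (0 : ℝ) < (r : ℝ) ^ m := by positivity
    have h3 : (r : ℝ) ^ m * (σ * (1 - η)) ≤ (r : ℝ) ^ m * d u := by
      exact mul_le_mul_of_nonneg_left hu.le hrm.le
    have h4 : σ * S (ind Z) u m ≤ σ * (η * (r : ℝ) ^ m) := by nlinarith
    exact le_of_mul_le_mul_left h4 hσ0
  have hBm : ∀ m, S (ind B) u m ≤ σ / 4 * (r : ℝ) ^ m := by
    intro m
    have h1 : S (ind B) u m ≤ S (fun t => ∑ i : Fin r, ind Z (t ++ [i])) u m := by
      refine S_le m u fun t _ _ => ?_
      by_cases h : t ∈ B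
      · obtain ⟨i, hi⟩ := h
        have h2 : ind Z (t ++ [i]) ≤ ∑ i : Fin r, ind Z (t ++ [i]) :=
          Finset.single_le_sum (f := fun i => ind Z (t ++ [i])) (fun i _ => ind_nonneg Z _)
            (Finset.mem_univ i)
        have h3 : ind Z (t ++ [i]) = 1 := by simp [ind, hZ, hi]
        have h4 : ind B t ≤ 1 := ind_le _ _
        linarith
      · have h3 : ind B t = 0 := by simp only [ind, h, if_false]
        rw [h3]
        exact Finset.sum_nonneg fun i _ => ind_nonneg Z _
    rw [← S_last] at h1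
    refine h1.trans ((hZm (m + 1)).trans ?_)
    rw [hη, pow_succ]
    apply le_of_eq
    field_simp
  have hD : ∀ᶠ l in (U : Filter ℕ), σ / 2 < D H l u :=
    (hd u).eventually_const_lt (by linarith)
  filter_upwards [hD, hge u.length] with l hl1 hl2
  by_contra hcon
  push Not at hcon
  have h1 : S (ind H) u (l - u.length) ≤ S (ind B) u (l - u.length) := by
    refine S_le _ _ fun t ht hlen => ?_
    by_cases h : t ∈ H
    · obtain ⟨i, hi⟩ := hcon t (hvu.trans ht) (by omega) h
      have h2 : t ∈ B := ⟨i, le_antisymm hi (hd0 _)⟩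
      simp [ind, h, h2]
    · have h3 : ind H t = 0 := by simp only [ind, h, if_false]
      rw [h3]
      exact ind_nonneg _ _
  have h2 := h1.trans (hBm _)
  unfold D at hl1
  rw [lt_div_iff₀ (by positivity)] at hl1
  have hrm : (0 : ℝ) < (r : ℝ) ^ (l - u.length) := by positivity
  nlinarith

/-- **strong subtrees** (Bicker and Voigt): a set of words with a positive density on infinitely many levels
contains an infinite strong subtree -/
theorem strong_subtree (hr : 1 ≤ r) (H : Set (List (Fin r))) (δ : ℝ) (hδ : 0 < δ)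
    (hH : ∃ᶠ l : ℕ in atTop, δ * (r : ℝ) ^ l ≤ S (ind H) [] l) :
    ∃ (n : ℕ → ℕ) (e : List (Fin r) → List (Fin r)), StrictMono n ∧ (∀ w, (e w).length = n w.length) ∧
      (∀ w, e w ∈ H) ∧ ∀ w i, (e w ++ [i]) <+: e (w ++ [i]) := by
  classical
  -- the ultrafilter
  set P : Set ℕ := {l | δ ≤ D H l []} with hP
  have hfr : ∃ᶠ l in atTop, l ∈ P := by
    refine hH.mono fun l hl => ?_
    simp only [hP, Set.mem_ofPred_eq, D, List.length_nil, Nat.sub_zero]
    rw [le_div_iff₀ (by positivity)]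
    exact hl
  have hne : (atTop ⊓ 𝓟 P : Filter ℕ).NeBot := by
    rw [Filter.inf_principal_neBot_iff]
    intro s hs
    obtain ⟨l, h1, h2⟩ := (hfr.and_eventually hs).exists
    exact ⟨l, h2, h1⟩
  set U : Ultrafilter ℕ := Ultrafilter.of (atTop ⊓ 𝓟 P) with hU
  have hUle : (U : Filter ℕ) ≤ atTop := (Ultrafilter.of_le _).trans inf_le_left
  have hUP : ∀ᶠ l in (U : Filter ℕ), δ ≤ D H l [] :=
    (Ultrafilter.of_le _).trans inf_le_right (mem_principal_self P)
  have hge : ∀ N : ℕ, ∀ᶠ l in (U : Filter ℕ), N < l := fun N => hUle (eventually_gt_atTop N)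
  choose d hd using exists_lim hr U H
  have hdδ : δ ≤ d [] := ge_of_tendsto (hd []) hUP
  have step := step_of hr U hUle H d hd
  -- construction of the tree
  let OK : ℕ → ℕ × (List (Fin r) → List (Fin r)) → Prop := fun k s =>
    ∀ w : List (Fin r), w.length = k → s.2 w ∈ H ∧ (s.2 w).length = s.1 ∧ ∀ i, 0 < d (s.2 w ++ [i])
  have h0 : ∃ s, OK 0 s := by
    obtain ⟨l, t, _, h2, h3, h4⟩ := (step [] (lt_of_lt_of_le hδ hdδ)).exists
    refine ⟨(l, fun _ => t), fun w _ => ⟨h3, h2, h4⟩⟩
  have hs : ∀ k s, OK k s → ∃ s', OK (k + 1) s' ∧ s.1 < s'.1 ∧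
      ∀ w i, w.length = k → (s.2 w ++ [i]) <+: s'.2 (w ++ [i]) := by
    intro k s hOK
    have h1 : ∀ᶠ l in (U : Filter ℕ), ∀ w : List.Vector (Fin r) k, ∀ i : Fin r,
        ∃ t, (s.2 w.1 ++ [i]) <+: t ∧ t.length = l ∧ t ∈ H ∧ ∀ i, 0 < d (t ++ [i]) := by
      rw [Filter.eventually_all]
      intro w
      rw [Filter.eventually_all]
      intro i
      exact step _ ((hOK w.1 w.2).2.2 i)
    obtain ⟨l, hl1, hl2⟩ := (h1.and (hge s.1)).exists
    choose g hg1 hg2 hg3 hg4 using hl1
    refine ⟨(l, fun w' => if h : w'.length = k + 1 then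
      g ⟨w'.dropLast, by rw [List.length_dropLast]; omega⟩
        (w'.getLast (List.ne_nil_of_length_eq_add_one h)) else []), ?_, hl2, ?_⟩
    · intro w hw
      simp only [hw, dif_pos]
      exact ⟨hg3 _ _, hg2 _ _, hg4 _ _⟩
    · intro w i hw
      have h2 : (w ++ [i]).length = k + 1 := by simp [hw]
      simp only [h2, dif_pos]
      have h3 := hg1 ⟨w, hw⟩ i
      convert h3 using 3 <;> simp
  choose! f hf1 hf2 hf3 using hs
  obtain ⟨s0, hs0⟩ := h0
  let s : ℕ → ℕ × (List (Fin r) → List (Fin r)) := fun k => Nat.rec s0 (fun k x => f k x) k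
  have hss : ∀ k, s (k + 1) = f k (s k) := fun k => rfl
  have hOK : ∀ k, OK k (s k) := by
    intro k
    induction k with
    | zero => exact hs0
    | succ k ih => rw [hss]; exact hf1 k _ ih
  refine ⟨fun k => (s k).1, fun w => (s w.length).2 w, strictMono_nat_of_lt_succ fun k => ?_,
    fun w => ?_, fun w => ?_, fun w i => ?_⟩
  · rw [hss]; exact hf2 k _ (hOK k)
  · exact (hOK w.length w rfl).2.1
  · exact (hOK w.length w rfl).1
  · have h2 : (w ++ [i]).length = w.length + 1 := by simp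
    change (s w.length).2 w ++ [i] <+: (s (w ++ [i]).length).2 (w ++ [i])
    rw [h2, hss]
    exact hf3 w.length _ (hOK _) w i rfl

end Pool.Agent.H569.TR
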