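import Mathlib
import Pool.Agent.H569.TR1
import Pool.Graph.R_seed8.H361R2.InfMain
import Pool.Graph.R_seed8.H361R2.InfB3
import Pool.Graph.R_seed8.H361R2.InfB4
import Pool.Graph.R_seed8.H361R2.InfB5

/-! Classes of linear forms placed at the words over `r` letters: one infinite exact pattern of primes contains
forms of a positive proportion of the classes on infinitely many levels. -/

set_option autoImplicit false

namespace Pool.Agent.H569.TR

open Finset Filter Topology
open Pool.Agent.H361R2.Inf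

/-- number of the words of length less than `l` -/
def lev (r l : ℕ) : ℕ := ∑ k ∈ range l, r ^ k

theorem lev_succ (r l : ℕ) : lev r (l + 1) = lev r l + r ^ l := Finset.sum_range_succ _ _

theorem lev_mono (r : ℕ) : Monotone (lev r) :=
  monotone_nat_of_le_succ fun l => by rw [lev_succ]; omega

/-- the set `I` meets the class `t` -/
def hits (off : ℕ → ℕ) (I : Set ℕ) (t : ℕ) : Prop := ∃ i ∈ Ico (off t) (off (t + 1)), i ∈ I

open Classical in
/-- on infinitely many levels a positive proportion of the classes meet `I` -/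
def PI (r : ℕ) (off : ℕ → ℕ) (I : Set ℕ) : Prop :=
  ∃ᶠ l in atTop, r ^ l ≤ 800 * ((range (r ^ l)).filter (fun a => hits off I (lev r l + a))).card

open Classical in
theorem hcomb (r : ℕ) (hr : 1 ≤ r) (off : ℕ → ℕ) (hoff : StrictMono off) :
    ∀ (m : Set ℕ → ℝ), FMeas m → m Set.univ ≤ 2 → ∀ (E : ℕ → Set ℕ),
      (∀ t, (1 / 200 : ℝ) ≤ m {x | ∃ i ∈ Ico (off t) (off (t + 1)), x ∈ E i}) →
      ∃ I : Set ℕ, PI r off I ∧ ∀ N : ℕ, 0 < m {x | ∀ i < N, (x ∈ E i ↔ i ∈ I)} := by
  intro m hm hm2 E hE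
  refine comb2 m hm E (fun j => off (lev r (j + 1)))
    (fun j => {I | r ^ j ≤ 800 * ((range (r ^ j)).filter (fun a => hits off I (lev r j + a))).card}) ?_
    (1 / 400) (by norm_num) ?_
  · intro j I I' hII
    have e : (range (r ^ j)).filter (fun a => hits off I (lev r j + a)) =
        (range (r ^ j)).filter (fun a => hits off I' (lev r j + a)) := by
      ext a
      simp only [Finset.mem_filter, Finset.mem_range]
      refine and_congr_right fun ha => ?_
      have hle : off (lev r j + a + 1) ≤ off (lev r (j + 1)) := hoff.monotone (by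
        rw [lev_succ]
        omega)
      constructor
      · rintro ⟨i, hi, h⟩
        rw [Finset.mem_Ico] at hi
        exact ⟨i, Finset.mem_Ico.2 hi, (hII i (by omega)).mp h⟩
      · rintro ⟨i, hi, h⟩
        rw [Finset.mem_Ico] at hi
        exact ⟨i, Finset.mem_Ico.2 hi, (hII i (by omega)).mpr h⟩
    simp only [Set.mem_ofPred_eq, e]
  · intro j
    set n : ℕ := r ^ j with hn'
    have hn : 1 ≤ n := Nat.one_le_pow _ _ hr
    have hnr : (1 : ℝ) ≤ n := by exact_mod_cast hn
    set A : ℕ → Set ℕ := fun a => {x | ∃ i ∈ Ico (off (lev r j + a)) (off (lev r j + a + 1)), x ∈ E i} with hA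
    set G : Set ℕ := {x | {i | x ∈ E i} ∈ {I : Set ℕ | n ≤ 800 *
      ((range n).filter (fun a => hits off I (lev r j + a))).card}} with hG
    have hGmem : ∀ x, x ∉ G → ∀ F : Finset ℕ, F ⊆ range n → (∀ a ∈ F, x ∈ A a) →
        800 * F.card < n := by
      intro x hx F hF hFA
      simp only [hG, Set.mem_ofPred_eq, not_le] at hx
      refine lt_of_le_of_lt (Nat.mul_le_mul_left _ (Finset.card_le_card ?_)) hx
      intro a ha
      simp only [Finset.mem_filter]
      exact ⟨hF ha, hFA a ha⟩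
    have hsplit : ∀ a, m (A a) = m (Gᶜ ∩ A a) + m (G ∩ A a) := by
      intro a
      rw [← hm.add]
      · congr 1
        ext x
        simp only [Set.mem_inter_iff, Set.mem_union, Set.mem_compl_iff]
        tauto
      · rw [Set.disjoint_left]
        rintro x ⟨h1, _⟩ ⟨h2, _⟩
        exact h1 h2
    have h1 : ∑ a ∈ range n, m (Gᶜ ∩ A a) ≤ (((n - 1) / 800 : ℕ) : ℝ) * m Gᶜ := by
      apply B3.sum_le hm A n
      intro x hx F hF hFA
      have := hGmem x hx F hF hFA
      omega
    have h2 : ∑ a ∈ range n, m (G ∩ A a) ≤ n * m G := by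
      calc ∑ a ∈ range n, m (G ∩ A a) ≤ ∑ a ∈ range n, m G :=
            Finset.sum_le_sum fun a _ => T1.mono hm Set.inter_subset_left
        _ = n * m G := by rw [Finset.sum_const, Finset.card_range, nsmul_eq_mul]
    have h3 : (n : ℝ) * (1 / 200) ≤ ∑ a ∈ range n, m (A a) := by
      calc (n : ℝ) * (1 / 200) = ∑ a ∈ range n, (1 / 200 : ℝ) := by
            rw [Finset.sum_const, Finset.card_range, nsmul_eq_mul]
        _ ≤ _ := Finset.sum_le_sum fun a _ => hE (lev r j + a)
    have h4 : (((n - 1) / 800 : ℕ) : ℝ) * m Gᶜ ≤ (n : ℝ) / 800 * 2 := by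
      have hfl : (((n - 1) / 800 : ℕ) : ℝ) ≤ (n : ℝ) / 800 := by
        rw [le_div_iff₀ (by norm_num)]
        have h5 : (n - 1) / 800 * 800 ≤ n - 1 := Nat.div_mul_le_self _ _
        have h6 : (n - 1) / 800 * 800 ≤ n := by omega
        exact_mod_cast h6
      have hGc : m Gᶜ ≤ 2 := (T1.mono hm (Set.subset_univ _)).trans hm2
      exact mul_le_mul hfl hGc (hm.nonneg _) (by positivity)
    have h5 : ∑ a ∈ range n, m (A a) = ∑ a ∈ range n, m (Gᶜ ∩ A a) + ∑ a ∈ range n, m (G ∩ A a) := by
      rw [← Finset.sum_add_distrib]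
      exact Finset.sum_congr rfl fun a _ => hsplit a
    have h6 : (n : ℝ) * (1 / 200) ≤ (n : ℝ) / 800 * 2 + n * m G := by linarith
    have h7 : (n : ℝ) * (1 / 400) ≤ n * m G := by linarith
    exact le_of_mul_le_mul_left h7 (by linarith)

/-- **the pattern theorem for classes at the words** -/
theorem classes (r : ℕ) (hr : 1 ≤ r) : ∃ off : ℕ → ℕ, StrictMono off ∧ off 0 = 0 ∧
    ∀ (A B : ℕ → ℤ), (∀ i, 1 ≤ A i) → (∀ i, IsCoprime (A i) (B i)) →
      Function.Injective (fun i => (A i, B i)) →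
      (∀ p : ℕ, p.Prime → ∃ x : ℕ, ∀ i, ¬ (p : ℤ) ∣ A i * x + B i) →
      ∃ I : Set ℕ, PI r off I ∧ ∀ T : Finset (ℤ × ℤ), (∀ f ∈ T, 1 ≤ f.1) →
        {x : ℕ | ∀ f ∈ T, (Nat.Prime (f.1 * x + f.2).toNat ↔ ∃ i ∈ I, f = (A i, B i))}.Infinite := by
  obtain ⟨off, hoff, h0, hBM⟩ := exists_blockMeas
  refine ⟨off, hoff, h0, fun A B hA hcop hinj hadm => ?_⟩
  refine exact_seq_of (PI r off) off ?_ A B hA hcop hinj hadm
  intro A B hA hne W q hW hWp hc hcop
  exact inf_class_of_combP (PI r off) off hoff h0 (1 / 200) (by norm_num) (hcomb r hr off hoff) hBM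
    A B hA hne W q hW hWp hc hcop

/-- the `a`-th word of length `l` -/
def wd {r : ℕ} (hr : 0 < r) : ℕ → ℕ → List (Fin r)
  | 0, _ => []
  | l + 1, a => wd hr l (a / r) ++ [⟨a % r, Nat.mod_lt _ hr⟩]

theorem wd_length {r : ℕ} (hr : 0 < r) (l : ℕ) : ∀ a, (wd hr l a).length = l := by
  induction l with
  | zero => intro a; rfl
  | succ l ih => intro a; simp [wd, ih]

theorem wd_inj {r : ℕ} (hr : 0 < r) (l : ℕ) : ∀ a b, a < r ^ l → b < r ^ l → wd hr l a = wd hr l b → a = b := by
  induction l with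
  | zero => intro a b ha hb _; simp only [pow_zero] at ha hb; omega
  | succ l ih =>
    intro a b ha hb h
    simp only [wd] at h
    have h1 := List.append_inj' h rfl
    have ha' : a / r < r ^ l := by
      rw [Nat.div_lt_iff_lt_mul hr]; rwa [pow_succ] at ha
    have hb' : b / r < r ^ l := by
      rw [Nat.div_lt_iff_lt_mul hr]; rwa [pow_succ] at hb
    have h2 := ih _ _ ha' hb' h1.1
    have h3 : a % r = b % r := by
      have := h1.2
      simpa using this
    rw [← Nat.div_add_mod a r, ← Nat.div_add_mod b r, h2, h3]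

theorem sum_range_mul {N r : ℕ} (g : ℕ → ℕ → ℝ) : ∑ a ∈ range (N * r), g (a / r) (a % r) =
    ∑ b ∈ range N, ∑ i ∈ range r, g b i := by
  rcases Nat.eq_zero_or_pos r with rfl | hr
  · simp
  induction N with
  | zero => simp
  | succ N ih =>
    rw [Nat.succ_mul, Finset.sum_range_add, ih, Finset.sum_range_succ _ N]
    congr 1
    refine Finset.sum_congr rfl fun i hi => ?_
    have hi' := Finset.mem_range.1 hi
    rw [Nat.mul_comm N r, Nat.mul_add_div hr, Nat.mul_add_mod, Nat.div_eq_of_lt hi', Nat.mod_eq_of_lt hi',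
      Nat.add_zero]

theorem sum_wd {r : ℕ} (hr : 0 < r) (l : ℕ) : ∀ F : List (Fin r) → ℝ,
    ∑ a ∈ range (r ^ l), F (wd hr l a) = S F [] l := by
  induction l with
  | zero => intro F; simp [wd, S]
  | succ l ih =>
    intro F
    rw [S_last, ← ih, pow_succ]
    have h1 := sum_range_mul (N := r ^ l) (r := r)
      (fun b i => if h : i < r then F (wd hr l b ++ [⟨i, h⟩]) else 0)
    have h2 : ∑ a ∈ range (r ^ l * r), F (wd hr (l + 1) a) = ∑ a ∈ range (r ^ l * r),
        (fun b i => if h : i < r then F (wd hr l b ++ [⟨i, h⟩]) else 0) (a / r) (a % r) := by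
      refine Finset.sum_congr rfl fun a _ => ?_
      simp [wd, Nat.mod_lt _ hr]
    rw [h2, h1]
    refine Finset.sum_congr rfl fun b _ => ?_
    rw [Finset.sum_range]
    refine Finset.sum_congr rfl fun i _ => ?_
    simp

end Pool.Agent.H569.TR
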