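import Mathlib
import Pool.Agent.H569.TR2

/-! Arrays of linear forms indexed by the words over `r` letters. -/

set_option autoImplicit false

namespace Pool.Agent.H569.TR

open Finset Filter Topology

theorem exists_lev {r : ℕ} (hr : 0 < r) (t : ℕ) : ∃ l a, a < r ^ l ∧ t = lev r l + a := by
  induction t with
  | zero => exact ⟨0, 0, by simp, by simp [lev]⟩
  | succ t ih =>
    obtain ⟨l, a, h1, h2⟩ := ih
    by_cases h : a + 1 < r ^ l
    · exact ⟨l, a + 1, h, by omega⟩
    · refine ⟨l + 1, 0, by positivity, ?_⟩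
      rw [lev_succ]
      omega

theorem lev_unique {r l l' a a' : ℕ} (h1 : a < r ^ l) (h2 : a' < r ^ l')
    (h : lev r l + a = lev r l' + a') : l = l' ∧ a = a' := by
  rcases lt_trichotomy l l' with h3 | h3 | h3
  · have := lev_mono r (show l + 1 ≤ l' from h3)
    rw [lev_succ] at this
    omega
  · subst h3
    exact ⟨rfl, by omega⟩
  · have := lev_mono r (show l' + 1 ≤ l from h3)
    rw [lev_succ] at this
    omega

theorem blocks {off : ℕ → ℕ} (hoff : StrictMono off) (h0 : off 0 = 0) (i : ℕ) :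
    ∃ t, off t ≤ i ∧ i < off (t + 1) := by
  induction i with
  | zero => exact ⟨0, by omega, by have := hoff (show 0 < 0 + 1 by omega); omega⟩
  | succ i ih =>
    obtain ⟨t, h1, h2⟩ := ih
    by_cases h : i + 1 < off (t + 1)
    · exact ⟨t, by omega, h⟩
    · exact ⟨t + 1, by omega, by have := hoff (show t + 1 < t + 1 + 1 by omega); omega⟩

theorem blocks_unique {off : ℕ → ℕ} (hoff : StrictMono off) {i t t' : ℕ} (h1 : off t ≤ i)
    (h2 : i < off (t + 1)) (h3 : off t' ≤ i) (h4 : i < off (t' + 1)) : t = t' := by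
  rcases lt_trichotomy t t' with h | h | h
  · have := hoff.monotone (show t + 1 ≤ t' from h)
    omega
  · exact h
  · have := hoff.monotone (show t' + 1 ≤ t from h)
    omega

/-- **the theorem for arrays** -/
theorem array (r : ℕ) (hr : 1 ≤ r) : ∃ K : ℕ → ℕ, (∀ l, 1 ≤ K l) ∧
    ∀ f : List (Fin r) → ℕ → ℤ × ℤ,
      (∀ w j, j < K w.length → 1 ≤ (f w j).1 ∧ IsCoprime (f w j).1 (f w j).2) →
      (∀ w j w' j', j < K w.length → j' < K w'.length → f w j = f w' j' → w = w' ∧ j = j') →
      (∀ p : ℕ, p.Prime → ∃ x : ℕ, ∀ w j, j < K w.length → ¬ (p : ℤ) ∣ (f w j).1 * x + (f w j).2) →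
      ∃ (G : Set (ℤ × ℤ)) (n : ℕ → ℕ) (e : List (Fin r) → List (Fin r)) (c : List (Fin r) → ℕ),
        StrictMono n ∧ (∀ w, (e w).length = n w.length) ∧ (∀ w i, (e w ++ [i]) <+: e (w ++ [i])) ∧
        (∀ w, c w < K (n w.length) ∧ f (e w) (c w) ∈ G) ∧
        (∀ g ∈ G, ∃ w j, j < K w.length ∧ g = f w j) ∧
        ∀ T : Finset (ℤ × ℤ), (∀ g ∈ T, 1 ≤ g.1) →
          {x : ℕ | ∀ g ∈ T, (Nat.Prime (g.1 * x + g.2).toNat ↔ g ∈ G)}.Infinite := by
  classical
  obtain ⟨off, hoff, h0, hcl⟩ := classes r hr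
  choose L a ha hLa using exists_lev (r := r) hr
  choose blk hb1 hb2 using blocks hoff h0
  set K : ℕ → ℕ := fun l => (range (r ^ l)).sup (fun a => off (lev r l + a + 1) - off (lev r l + a)) with hK
  have hKle : ∀ t, off (t + 1) - off t ≤ K (L t) := by
    intro t
    have h1 := Finset.le_sup (f := fun a => off (lev r (L t) + a + 1) - off (lev r (L t) + a))
      (mem_range.2 (ha t))
    simp only [← hLa t] at h1
    exact h1
  refine ⟨K, fun l => ?_, fun f hf1 hf2 hf3 => ?_⟩
  · have h1 := Finset.le_sup (s := range (r ^ l)) (f := fun a => off (lev r l + a + 1) - off (lev r l + a))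
      (mem_range.2 (show 0 < r ^ l by positivity))
    have h2 := hoff (show lev r l + 0 < lev r l + 0 + 1 by omega)
    simp only [hK]
    omega
  -- the sequence of forms
  set F : ℕ → ℤ × ℤ := fun i => f (wd hr (L (blk i)) (a (blk i))) (i - off (blk i)) with hF
  have hjK : ∀ i, i - off (blk i) < K (wd hr (L (blk i)) (a (blk i))).length := by
    intro i
    rw [wd_length]
    have := hKle (blk i)
    have := hb1 i
    have := hb2 i
    omega
  have hinj : Function.Injective F := by
    intro i i' h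
    obtain ⟨h1, h2⟩ := hf2 _ _ _ _ (hjK i) (hjK i') h
    have h3 : L (blk i) = L (blk i') := by
      have := congrArg List.length h1
      rwa [wd_length, wd_length] at this
    have h4 : blk i = blk i' := by
      have h5 : a (blk i) = a (blk i') := by
        have h6 := ha (blk i)
        have h7 := ha (blk i')
        rw [h3] at h1 h6
        exact wd_inj hr _ _ _ h6 h7 h1
      rw [hLa (blk i), hLa (blk i'), h3, h5]
    have := hb1 i
    have := hb1 i'
    rw [h4] at h2
    have := hb1 i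
    rw [h4] at this
    omega
  obtain ⟨I, hPI, hI⟩ := hcl (fun i => (F i).1) (fun i => (F i).2) (fun i => (hf1 _ _ (hjK i)).1)
    (fun i => (hf1 _ _ (hjK i)).2) hinj (fun p hp => by
      obtain ⟨x, hx⟩ := hf3 p hp
      exact ⟨x, fun i => hx _ _ (hjK i)⟩)
  -- the words whose classes are met
  set H : Set (List (Fin r)) := {w | ∃ i ∈ I, wd hr (L (blk i)) (a (blk i)) = w} with hH
  have hfreq : ∃ᶠ l : ℕ in atTop, (1 / 800 : ℝ) * (r : ℝ) ^ l ≤ S (ind H) [] l := by
    refine hPI.mono fun l hl => ?_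
    rw [← sum_wd hr l]
    have h1 : (((range (r ^ l)).filter (fun a => hits off I (lev r l + a))).card : ℝ) ≤
        ∑ a ∈ range (r ^ l), ind H (wd hr l a) := by
      rw [Finset.card_filter]
      push_cast
      refine Finset.sum_le_sum fun b hb => ?_
      split_ifs with h
      · obtain ⟨i, hi, hiI⟩ := h
        rw [mem_Ico] at hi
        have h2 : blk i = lev r l + b := blocks_unique hoff (hb1 i) (hb2 i) hi.1 hi.2
        obtain ⟨h3, h4⟩ := lev_unique (ha (blk i)) (mem_range.1 hb) ((hLa (blk i)).symm.trans h2)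
        have h5 : wd hr l b ∈ H := ⟨i, hiI, by rw [h3, h4]⟩
        simp [ind, h5]
      · exact ind_nonneg _ _
    have h2 : ((r ^ l : ℕ) : ℝ) ≤ ((800 * ((range (r ^ l)).filter
        (fun a => hits off I (lev r l + a))).card : ℕ) : ℝ) := by exact_mod_cast hl
    push_cast at h2
    linarith
  obtain ⟨n, e, hn, hel, heH, hee⟩ := strong_subtree hr H (1 / 800) (by norm_num) hfreq
  choose ix hix1 hix2 using heH
  refine ⟨{g | ∃ i ∈ I, g = F i}, n, e, fun w => ix w - off (blk (ix w)), hn, hel, hee, fun w => ⟨?_, ?_⟩, ?_, ?_⟩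
  · have h1 := hjK (ix w)
    rw [hix2 w, hel w] at h1
    exact h1
  · refine ⟨ix w, hix1 w, ?_⟩
    simp only [hF]
    rw [hix2 w]
  · rintro g ⟨i, _, rfl⟩
    exact ⟨_, _, hjK i, rfl⟩
  · intro T hT
    exact hI T hT

end Pool.Agent.H569.TR
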