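import Mathlib
import Pool.Agent.H569.IL1
import Pool.Agent.H569.TR3

/-! Infinite sets of shifts with prescribed Legendre symbols. -/

set_option autoImplicit false

namespace Pool.Agent.H569.IL

open Finset Filter
open Pool.Agent.H361R2.Inf

theorem stage_zero {q a : ℕ} (hq : 0 < q) (ha : a.Coprime q) (σ : ℕ → ℕ → ℤ) :
    ∃ W ρ : ℕ, ∃ h : ℕ → ℕ, OK q a σ 0 W ρ h := by
  have : NeZero q := ⟨hq.ne'⟩
  obtain ⟨P, hP1, hP2, hP3⟩ := Nat.forall_exists_prime_gt_and_eq_mod (q := q) (a := (a : ZMod q))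
    ((ZMod.isUnit_iff_coprime a q).2 ha) (6 * q)
  have hPa : P ≡ a [MOD q] := (ZMod.natCast_eq_natCast_iff P a q).1 hP3
  refine ⟨6 * q, P, fun _ => 0, ⟨by omega, Dvd.intro_left _ rfl, ?_, ?_, ?_, ?_, ?_, ?_, hPa, ?_⟩⟩
  · intro p hp hp3
    have h1 : p = 2 ∨ p = 3 := by
      have := hp.two_le
      omega
    rcases h1 with rfl | rfl
    · exact Dvd.dvd.mul_right (by norm_num) _
    · exact Dvd.dvd.mul_right (by norm_num) _
  · intro i j _ hj; exact absurd hj (Nat.not_lt_zero _)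
  · intro i j _ hj; exact absurd hj (Nat.not_lt_zero _)
  · intro i hi; exact absurd hi (Nat.not_lt_zero _)
  · exact (Nat.Prime.coprime_iff_not_dvd hP2).2 fun hd => by
      have := Nat.le_of_dvd (by omega) hd
      omega
  · intro i hi; exact absurd hi (Nat.not_lt_zero _)
  · intro i j _ hj; exact absurd hj (Nat.not_lt_zero _)

/-- the shifts and the residues -/
theorem seqs {q a : ℕ} (hq : 0 < q) (hq4 : 4 ∣ q) (ha : a.Coprime q) {σ : ℕ → ℕ → ℤ}
    (hσ : ∀ i j, σ i j = 1 ∨ σ i j = -1) :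
    ∃ (W ρ : ℕ → ℕ) (h : ℕ → ℕ), ∀ y, OK q a σ y (W y) (ρ y) h := by
  have hstep : ∀ (y : ℕ) (s : ℕ × ℕ × (ℕ → ℕ)), OK q a σ y s.1 s.2.1 s.2.2 →
      ∃ s' : ℕ × ℕ × (ℕ → ℕ), OK q a σ (y + 1) s'.1 s'.2.1 s'.2.2 ∧ ∀ i < y, s'.2.2 i = s.2.2 i := by
    intro y s hs
    obtain ⟨W', ρ', h', h1, h2⟩ := step hq4 hσ hs
    exact ⟨(W', ρ', h'), h1, h2⟩
  choose! f hf1 hf2 using hstep
  obtain ⟨W0, ρ0, h0, hOK0⟩ := stage_zero hq ha σ
  let s : ℕ → ℕ × ℕ × (ℕ → ℕ) := fun y => Nat.rec (W0, ρ0, h0) (fun y x => f y x) y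
  have hss : ∀ y, s (y + 1) = f y (s y) := fun y => rfl
  have hOK : ∀ y, OK q a σ y (s y).1 (s y).2.1 (s y).2.2 := by
    intro y
    induction y with
    | zero => exact hOK0
    | succ y ih => rw [hss]; exact hf1 y _ ih
  have hagree : ∀ y i, i < y → (s y).2.2 i = (s (i + 1)).2.2 i := by
    intro y
    induction y with
    | zero => intro i hi; exact absurd hi (Nat.not_lt_zero _)
    | succ y ih =>
      intro i hi
      rcases Nat.lt_or_ge i y with h1 | h1
      · rw [hss, hf2 y _ (hOK y) i h1]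
        exact ih i h1
      · have : i = y := by omega
        rw [this]
  refine ⟨fun y => (s y).1, fun y => (s y).2.1, fun i => (s (i + 1)).2.2 i, fun y => ?_⟩
  have H := hOK y
  have e : ∀ i < y, (s (i + 1)).2.2 i = (s y).2.2 i := fun i hi => (hagree y i hi).symm
  refine ⟨H.pos, H.dq, H.small, ?_, ?_, ?_, H.cop0, ?_, H.res, ?_⟩
  · intro i j hij hj; rw [e i (by omega), e j hj]; exact H.mono i j hij hj
  · intro i j hij hj; rw [e i (by omega), e j hj]; exact H.diff i j hij hj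
  · intro i hi; rw [e i hi]; exact H.qh i hi
  · intro i hi; rw [e i hi]; exact H.cop i hi
  · intro i j hij hj; rw [e i (by omega), e j hj]; exact H.sym i j hij hj

/-- the pattern theorem for shifts with congruence conditions -/
theorem classes_cong (r : ℕ) (hr : 1 ≤ r) : ∃ off : ℕ → ℕ, StrictMono off ∧ off 0 = 0 ∧
    ∀ (h W ρ : ℕ → ℕ), StrictMono h → (∀ J, 1 ≤ W J) →
      (∀ J, ∀ p : ℕ, p.Prime → p ≤ off J + 1 → p ∣ W J) →
      (∀ J, ∀ i < off J, Nat.Coprime (ρ J + h i) (W J)) →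
      ∃ I : Set ℕ, TR.PI r off I ∧ ∀ N : ℕ, ∃ J, N ≤ J ∧
        {n : ℕ | n ≡ ρ J [MOD W J] ∧ ∀ i < N, (Nat.Prime (n + h i) ↔ i ∈ I)}.Infinite := by
  obtain ⟨off, hoff, h0, hBM⟩ := exists_blockMeas
  refine ⟨off, hoff, h0, fun h W ρ hh hW hWp hcop => ?_⟩
  obtain ⟨I, hI1, hI2⟩ := inf_class_of_combP (TR.PI r off) off hoff h0 (1 / 200) (by norm_num)
    (TR.hcomb r hr off hoff) hBM (fun _ => 1) (fun i => (h i : ℤ)) (fun _ => le_refl _)
    (by
      intro i j hij
      have := hh.injective.ne hij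
      simp only [one_mul, ne_eq, Nat.cast_inj]
      exact fun h => this h.symm) W ρ hW hWp
    (by
      intro J i hi
      have h1 := hcop J i hi
      have h2 : ((1 : ℤ) * (ρ J : ℤ) + (h i : ℤ)) = ((ρ J + h i : ℕ) : ℤ) := by push_cast; ring
      rw [h2]
      exact Nat.isCoprime_iff_coprime.2 h1)
    (fun i => isCoprime_one_left)
  refine ⟨I, hI1, fun N => ?_⟩
  obtain ⟨J, hJ1, hJ2⟩ := hI2 N
  refine ⟨J, hJ1, hJ2.mono ?_⟩
  rintro n ⟨h1, h2⟩
  refine ⟨h1, fun i hi => ?_⟩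
  have h3 := h2 i hi
  have h4 : ((1 : ℤ) * (n : ℤ) + (h i : ℤ)).toNat = n + h i := by
    rw [one_mul]
    have : ((n : ℤ) + (h i : ℤ)) = ((n + h i : ℕ) : ℤ) := by push_cast; rfl
    rw [this, Int.toNat_natCast]
  rwa [h4] at h3

/-- passing numbers in strong subtrees -/
theorem passing {r : ℕ} {e : List (Fin r) → List (Fin r)} {n : ℕ → ℕ}
    (hl : ∀ w, (e w).length = n w.length) (he : ∀ w i, (e w ++ [i]) <+: e (w ++ [i]))
    (w : List (Fin r)) (k : ℕ) (hk : k < w.length) : (e w)[n k]? = some w[k] := by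
  have h1 : w.take k ++ [w[k]] = w.take (k + 1) := by
    rw [List.take_append_getElem]
  have h2 : (e (w.take k) ++ [w[k]]) <+: e w := by
    refine (he (w.take k) w[k]).trans ?_
    rw [h1]
    exact TR_mono he (List.take_prefix _ _)
  obtain ⟨u, hu⟩ := h2
  rw [← hu]
  have h3 : (e (w.take k)).length = n k := by
    rw [hl, List.length_take, min_eq_left hk.le]
  rw [List.append_assoc, List.getElem?_append_right (by omega), h3, Nat.sub_self]
  simp
where
  TR_mono {r : ℕ} {e : List (Fin r) → List (Fin r)} (he : ∀ w i, (e w ++ [i]) <+: e (w ++ [i]))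
      {w w' : List (Fin r)} (h : w <+: w') : e w <+: e w' := by
    obtain ⟨u, rfl⟩ := h
    induction u using List.reverseRecOn with
    | nil => simp
    | append_singleton u i ih =>
      rw [← List.append_assoc]
      exact ih.trans ((List.prefix_append _ _).trans (he _ i))

end Pool.Agent.H569.IL
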