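import Mathlib
import Pool.Agent.H569.IL2

/-! Infinite sets of shifts with prescribed Legendre symbols: main theorem. -/

set_option autoImplicit false

namespace Pool.Agent.H569.IL

open Finset Filter
open Pool.Agent.H361R2.Inf

/-- the words of the classes, and the strong subtree of the classes met by a pattern -/
theorem words (r : ℕ) (hr : 1 ≤ r) (off : ℕ → ℕ) (hoff : StrictMono off) (h0 : off 0 = 0) :
    ∃ wo : ℕ → List (Fin r), (∀ i j, (wo i).length < (wo j).length → i < j) ∧
      ∀ I : Set ℕ, TR.PI r off I → ∃ (n : ℕ → ℕ) (e : List (Fin r) → List (Fin r)) (ix : List (Fin r) → ℕ),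
        StrictMono n ∧ (∀ w, (e w).length = n w.length) ∧ (∀ w i, (e w ++ [i]) <+: e (w ++ [i])) ∧
        ∀ w, ix w ∈ I ∧ wo (ix w) = e w := by
  classical
  choose L a ha hLa using TR.exists_lev (r := r) hr
  choose blk hb1 hb2 using TR.blocks hoff h0
  refine ⟨fun i => TR.wd hr (L (blk i)) (a (blk i)), ?_, ?_⟩
  · intro i j hij
    simp only [TR.wd_length] at hij
    have h1 : blk i < blk j := by
      have h2 := ha (blk i)
      have h3 := hLa (blk i)
      have h4 := hLa (blk j)
      have h5 := TR.lev_mono r (show L (blk i) + 1 ≤ L (blk j) from hij)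
      rw [TR.lev_succ] at h5
      omega
    have h2 := hoff.monotone (show blk i + 1 ≤ blk j from h1)
    have h3 := hb2 i
    have h4 := hb1 j
    omega
  · intro I hPI
    set H : Set (List (Fin r)) := {w | ∃ i ∈ I, TR.wd hr (L (blk i)) (a (blk i)) = w} with hH
    have hfreq : ∃ᶠ l : ℕ in atTop, (1 / 800 : ℝ) * (r : ℝ) ^ l ≤ TR.S (TR.ind H) [] l := by
      refine hPI.mono fun l hl => ?_
      rw [← TR.sum_wd hr l]
      have h1 : (((range (r ^ l)).filter (fun a => TR.hits off I (TR.lev r l + a))).card : ℝ) ≤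
          ∑ a ∈ range (r ^ l), TR.ind H (TR.wd hr l a) := by
        rw [Finset.card_filter]
        push_cast
        refine Finset.sum_le_sum fun b hb => ?_
        split_ifs with h
        · obtain ⟨i, hi, hiI⟩ := h
          rw [mem_Ico] at hi
          have h2 : blk i = TR.lev r l + b := TR.blocks_unique hoff (hb1 i) (hb2 i) hi.1 hi.2
          obtain ⟨h3, h4⟩ := TR.lev_unique (ha (blk i)) (mem_range.1 hb) ((hLa (blk i)).symm.trans h2)
          have h5 : TR.wd hr l b ∈ H := ⟨i, hiI, by rw [h3, h4]⟩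
          simp [TR.ind, h5]
        · exact TR.ind_nonneg _ _
      have h2 : ((r ^ l : ℕ) : ℝ) ≤ ((800 * ((range (r ^ l)).filter
          (fun a => TR.hits off I (TR.lev r l + a))).card : ℕ) : ℝ) := by exact_mod_cast hl
      push_cast at h2
      linarith
    obtain ⟨n, e, hn, hel, heH, hee⟩ := TR.strong_subtree hr H (1 / 800) (by norm_num) hfreq
    choose ix hix1 hix2 using heH
    exact ⟨n, e, ix, hn, hel, hee, fun w => ⟨hix1 w, hix2 w⟩⟩

theorem main {q a : ℕ} (hq : 0 < q) (hq4 : 4 ∣ q) (ha : a.Coprime q) {ε : ℕ → ℕ → ℤ}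
    (hε : ∀ i j, i ≠ j → ε i j = 1 ∨ ε i j = -1)
    (hrec : ∀ i j, i ≠ j → ε i j * ε j i = if a % 4 = 1 then 1 else -1) :
    ∃ H : ℕ → ℕ, StrictMono H ∧ (∀ i, q ∣ H i) ∧ ∀ m : ℕ,
      {n : ℕ | n ≡ a [MOD q] ∧ (∀ i < m, (n + H i).Prime) ∧
        ∀ i < m, ∀ j < m, i ≠ j → jacobiSym ((n + H i : ℕ) : ℤ) (n + H j) = ε i j}.Infinite := by
  classical
  obtain ⟨off, hoff, h0, hcl⟩ := classes_cong 2 (by norm_num)
  obtain ⟨wo, hwo, htree⟩ := words 2 (by norm_num) off hoff h0
  set σ : ℕ → ℕ → ℤ := fun x y => if (wo y)[(wo x).length]? = some 1 then -1 else 1 with hσ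
  obtain ⟨W, ρ, h, hOK⟩ := seqs hq hq4 ha (σ := σ) (by
    intro i j
    simp only [hσ]
    split_ifs
    · exact Or.inr rfl
    · exact Or.inl rfl)
  have hh : StrictMono h := by
    intro i j hij
    exact (hOK (j + 1)).mono i j hij (Nat.lt_succ_self j)
  obtain ⟨I, hPI, hI⟩ := hcl h (fun J => W (off J)) (fun J => ρ (off J)) hh
    (fun J => (hOK _).pos) (fun J p hp hpJ => (hOK _).small p hp (by omega)) (fun J => (hOK _).cop)
  obtain ⟨n, e, ix, hn, hel, hee, hix⟩ := htree I hPI
  set v : ℕ → List (Fin 2) := fun i => List.ofFn (fun j : Fin i => if ε i j = -1 then (1 : Fin 2) else 0) with hv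
  have hvl : ∀ i, (v i).length = i := fun i => List.length_ofFn
  set x : ℕ → ℕ := fun i => ix (v i) with hx
  have hxw : ∀ i, wo (x i) = e (v i) := fun i => (hix (v i)).2
  have hxI : ∀ i, x i ∈ I := fun i => (hix (v i)).1
  have hxl : ∀ i, (wo (x i)).length = n i := fun i => by rw [hxw, hel, hvl]
  have hxmono : StrictMono x := by
    intro i j hij
    refine hwo _ _ ?_
    rw [hxl, hxl]
    exact hn hij
  have hσx : ∀ i j, j < i → σ (x j) (x i) = ε i j := by
    intro i j hji
    have hlt : j < (v i).length := by rw [hvl]; exact hji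
    have h1 := passing hel hee (v i) j hlt
    have h2 : (wo (x i))[(wo (x j)).length]? = some (v i)[j] := by
      rw [hxw i, hxl j]
      exact h1
    have h3 : (v i)[j] = if ε i j = -1 then (1 : Fin 2) else 0 := by
      simp [hv]
    simp only [hσ]
    rw [h2, h3]
    rcases hε i j (by omega) with h4 | h4
    · rw [h4]; norm_num
    · rw [h4]; norm_num
  refine ⟨fun i => h (x i), fun i j hij => hh (hxmono hij), fun i => ?_, fun m => ?_⟩
  · exact (hOK (x i + 1)).qh _ (Nat.lt_succ_self _)
  · obtain ⟨J, hJ1, hJ2⟩ := hI (x m + 1)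
    refine hJ2.mono ?_
    rintro k ⟨hk1, hk2⟩
    have hxm : ∀ i < m, x i < x m + 1 := fun i hi => by have := hxmono hi; omega
    have hxoff : ∀ i < m, x i < off J := fun i hi => by
      have h1 := hxm i hi
      have h2 := hoff.id_le J
      simp only [id_eq] at h2
      omega
    have O := hOK (off J)
    have hprime : ∀ i < m, (k + h (x i)).Prime := fun i hi => (hk2 (x i) (hxm i hi)).2 (hxI i)
    have hka : k ≡ a [MOD q] := (hk1.of_dvd O.dq).trans O.res
    have h4W : 4 ∣ W (off J) := hq4.trans O.dq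
    have hodd : ∀ i < m, Odd (ρ (off J) + h (x i)) := by
      intro i hi
      rw [← Nat.not_even_iff_odd, even_iff_two_dvd]
      exact ndvd_of_coprime Nat.prime_two ((by norm_num : 2 ∣ 4).trans h4W) (O.cop _ (hxoff i hi))
    -- the symbols of the later over the earlier primes
    have hsym : ∀ i < m, ∀ j < i, jacobiSym ((k + h (x i) : ℕ) : ℤ) (k + h (x j)) = ε i j := by
      intro i hi j hj
      have hlt : h (x j) < h (x i) := hh (hxmono hj)
      have e1 : jacobiSym ((k + h (x i) : ℕ) : ℤ) (k + h (x j)) =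
          jacobiSym ((h (x i) - h (x j) : ℕ) : ℤ) (k + h (x j)) := by
        apply jacobiSym.mod_left'
        have : ((k + h (x i) : ℕ) : ℤ) = ((h (x i) - h (x j) : ℕ) : ℤ) + ((k + h (x j) : ℕ) : ℤ) * 1 := by
          rw [Nat.cast_sub hlt.le]; push_cast; ring
        rw [this, Int.add_mul_emod_self_left]
      rw [e1, jac_per (O.diff _ _ (hxmono hj) (hxoff i hi)) (hk1.add_right _) (hodd j (by omega)) h4W,
        O.sym _ _ (hxmono hj) (hxoff i hi)]
      exact hσx i j hj
    have hmod4 : ∀ i < m, (k + h (x i)) % 4 = a % 4 := by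
      intro i hi
      have h1 : k ≡ a [MOD 4] := hka.of_dvd hq4
      have h2 : h (x i) ≡ 0 [MOD 4] := (Nat.modEq_zero_iff_dvd).2 (hq4.trans (O.qh _ (hxoff i hi)))
      have h3 := h1.add h2
      rw [Nat.add_zero] at h3
      exact h3
    refine ⟨hka, hprime, fun i hi j hj hij => ?_⟩
    rcases lt_or_gt_of_ne hij with h1 | h1
    · -- reciprocity
      have h2 := hsym j hj i h1
      have h3 := hrec i j hij
      have hoi : Odd (k + h (x i)) := (hprime i hi).odd_of_ne_two (by
        intro h5
        have h6 := hmod4 i hi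
        have h7 : a % 2 = 1 := by
          have h8 : ¬ 2 ∣ a := ndvd_of_coprime Nat.prime_two ((by norm_num : 2 ∣ 4).trans hq4) ha
          omega
        rw [h5] at h6
        omega)
      have hoj : Odd (k + h (x j)) := (hprime j hj).odd_of_ne_two (by
        intro h5
        have h6 := hmod4 j hj
        have h7 : a % 2 = 1 := by
          have h8 : ¬ 2 ∣ a := ndvd_of_coprime Nat.prime_two ((by norm_num : 2 ∣ 4).trans hq4) ha
          omega
        rw [h5] at h6
        omega)
      by_cases ha4 : a % 4 = 1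
      · rw [if_pos ha4] at h3
        rw [jacobiSym.quadratic_reciprocity_one_mod_four (by rw [hmod4 i hi, ha4]) hoj]
        rw [h2]
        rcases hε i j hij with h4 | h4 <;> rw [h4] at h3 ⊢ <;> linarith
      · rw [if_neg ha4] at h3
        have h7 : a % 4 = 3 := by
          have h8 : ¬ 2 ∣ a := ndvd_of_coprime Nat.prime_two ((by norm_num : 2 ∣ 4).trans hq4) ha
          omega
        rw [jacobiSym.quadratic_reciprocity_three_mod_four (by rw [hmod4 i hi, h7]) (by rw [hmod4 j hj, h7])]
        rw [h2]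
        rcases hε i j hij with h4 | h4 <;> rw [h4] at h3 ⊢ <;> linarith
    · exact hsym i hi j h1

end Pool.Agent.H569.IL
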