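import Mathlib
import Pool.Graph.R_seed8.H312R2.RG.C3a
import Pool.Agent.H569.MS3

/-! Mixed strings: one set of classes for all lengths. -/

namespace Pool.Agent.H569.MS

open Finset Filter
open Pool.Agent.H256R2.SC (ff)

theorem Str.mono {q : ℕ} {B : Finset ℕ} {ℓ ℓ' : ℕ} {g g' L L' : ℝ} {x y : ℕ} (hB : B.Nonempty)
    (h : Str q B ℓ' g' L' x y) (hℓ : ℓ ≤ ℓ') (hg : g ≤ g') (hL : L' ≤ L) : Str q B ℓ g L x y := by
  obtain ⟨b, hb⟩ := hB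
  obtain ⟨h1, h2, h3, h4, h5, h6, h7⟩ := h
  refine ⟨h1, h2, h3, h4.trans (by linarith), fun p p' a1 a2 a3 a4 a5 => hg.trans (h5 p p' a1 a2 a3 a4 a5), h6, ?_⟩
  intro w hw
  obtain ⟨p, hp, hp'⟩ := h7 (fun i => if h : (i : ℕ) < ℓ then w ⟨i, h⟩ else b) (by
    intro i
    split_ifs with h
    · exact hw _
    · exact hb)
  refine ⟨fun i => p (Fin.castLE hℓ i), fun i j hij => hp (by simpa using hij), fun i => ?_⟩
  obtain ⟨k1, k2, k3, k4⟩ := hp' (Fin.castLE hℓ i)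
  refine ⟨k1, k2, k3, k4.trans ?_⟩
  have : ((Fin.castLE hℓ i : Fin ℓ') : ℕ) < ℓ := i.isLt
  rw [dif_pos this]
  rfl

theorem fixed {η : ℝ} (hη : 0 < η) (q : ℕ) (A : Finset ℕ) (hA : A.Nonempty)
    (H : ∀ ℓ : ℕ, 1 ≤ ℓ → ∃ κ : ℝ, 0 < κ ∧ ∃ C c : ℝ, 0 < c ∧
    ∀ᶠ X : ℝ in atTop, ∀ H : ℝ, C ≤ H → H ≤ c * ff X → ∃ B ⊆ A, η * A.card ≤ B.card ∧
      X ^ (4 / 5 : ℝ) ≤ ((Strings q B ℓ (κ * H) H X).ncard : ℝ)) :
    ∃ B ⊆ A, η * A.card ≤ B.card ∧ ∀ ℓ : ℕ, ∃ κ : ℝ, 0 < κ ∧ ∃ᶠ X : ℝ in atTop,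
      X ^ (4 / 5 : ℝ) ≤ ((Strings q B ℓ (κ * ff X) (ff X) X).ncard : ℝ) := by
  classical
  have hA0 : (0 : ℝ) < A.card := by exact_mod_cast card_pos.2 hA
  have key : ∀ ℓ : ℕ, ∃ B ⊆ A, η * A.card ≤ B.card ∧ ∃ κ : ℝ, 0 < κ ∧ ∃ᶠ X : ℝ in atTop,
      X ^ (4 / 5 : ℝ) ≤ ((Strings q B (ℓ + 1) (κ * ff X) (ff X) X).ncard : ℝ) := by
    intro ℓ
    obtain ⟨κ, hκ, C, c, hc, hev⟩ := H (ℓ + 1) (by omega)
    have hff : ∀ᶠ X : ℝ in atTop, C / min c 1 ≤ ff X ∧ 0 ≤ ff X :=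
      (Pool.Agent.H312R2.RG.C3.ff_tendsto.eventually_ge_atTop _).and
        (Pool.Agent.H312R2.RG.C3.ff_tendsto.eventually_ge_atTop 0)
    have hmin : 0 < min c 1 := lt_min hc one_pos
    have h1 : ∀ᶠ X : ℝ in atTop, ∃ B : Finset ℕ, B ∈ A.powerset ∧ (η * A.card ≤ B.card ∧
        X ^ (4 / 5 : ℝ) ≤ ((Strings q B (ℓ + 1) (κ * min c 1 * ff X) (ff X) X).ncard : ℝ)) := by
      filter_upwards [hev, hff] with X hX hX2
      obtain ⟨B, hB, hB2, hB3⟩ := hX (min c 1 * ff X) (by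
        rw [div_le_iff₀ hmin] at hX2
        linarith [hX2.1]) (mul_le_mul_of_nonneg_right (min_le_left _ _) hX2.2)
      refine ⟨B, mem_powerset.2 hB, hB2, hB3.trans ?_⟩
      have hBne : B.Nonempty := by
        rw [← card_pos]
        have h5 : (0 : ℝ) < B.card := lt_of_lt_of_le (by positivity) hB2
        exact_mod_cast h5
      have hsub : Strings q B (ℓ + 1) (κ * (min c 1 * ff X)) (min c 1 * ff X) X ⊆
          Strings q B (ℓ + 1) (κ * min c 1 * ff X) (ff X) X := by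
        rintro x ⟨k1, k2, y, k3⟩
        refine ⟨k1, k2, y, k3.mono hBne le_rfl (by rw [mul_assoc]) ?_⟩
        have := mul_le_mul_of_nonneg_right (min_le_right c 1) hX2.2
        linarith
      exact_mod_cast Set.ncard_le_ncard hsub (Strings.finite _ _ _ _ _ _)
    -- pigeonhole
    by_contra hcon
    push Not at hcon
    have h2 : ∀ B ∈ A.powerset, ∀ᶠ X : ℝ in atTop, ¬ (η * A.card ≤ B.card ∧
        X ^ (4 / 5 : ℝ) ≤ ((Strings q B (ℓ + 1) (κ * min c 1 * ff X) (ff X) X).ncard : ℝ)) := by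
      intro B hB
      by_cases h : η * A.card ≤ B.card
      · have := hcon B (mem_powerset.1 hB) h (κ * min c 1) (by positivity)
        filter_upwards [this] with X hX
        rintro ⟨_, h⟩
        linarith
      · exact Eventually.of_forall fun X hX => h hX.1
    have h3 := (Finset.eventually_all A.powerset).2 h2
    obtain ⟨X, ⟨B, hB, hB'⟩, hX2⟩ := (h1.and h3).exists
    exact hX2 B hB hB'
  choose Bf hBf1 hBf2 κf hκf hBf3 using key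
  -- one `B` for infinitely many `ℓ`
  obtain ⟨B, hB⟩ : ∃ B : Finset ℕ, ∀ n, ∃ ℓ, n ≤ ℓ ∧ Bf ℓ = B := by
    by_contra hcon
    push Not at hcon
    choose nB hnB using hcon
    have h1 : ∀ ℓ, ¬ (A.powerset.sup nB ≤ ℓ) := by
      intro ℓ hℓ
      exact hnB (Bf ℓ) ℓ ((le_sup (f := nB) (mem_powerset.2 (hBf1 ℓ))).trans hℓ) rfl
    exact h1 _ le_rfl
  obtain ⟨ℓ₀, _, hℓ₀⟩ := hB 0
  have hBne : B.Nonempty := by
    rw [← card_pos, ← hℓ₀]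
    have h5 : (0 : ℝ) < (Bf ℓ₀).card := lt_of_lt_of_le (by positivity) (hBf2 ℓ₀)
    exact_mod_cast h5
  refine ⟨B, hℓ₀ ▸ hBf1 ℓ₀, hℓ₀ ▸ hBf2 ℓ₀, fun ℓ => ?_⟩
  obtain ⟨ℓ', h1, h2⟩ := hB ℓ
  refine ⟨κf ℓ', hκf ℓ', (hBf3 ℓ').mono fun X hX => hX.trans ?_⟩
  rw [h2]
  have hsub : Strings q B (ℓ' + 1) (κf ℓ' * ff X) (ff X) X ⊆ Strings q B ℓ (κf ℓ' * ff X) (ff X) X := by
    rintro x ⟨k1, k2, y, k3⟩
    exact ⟨k1, k2, y, k3.mono hBne (by omega) le_rfl le_rfl⟩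
  exact_mod_cast Set.ncard_le_ncard hsub (Strings.finite _ _ _ _ _ _)

end Pool.Agent.H569.MS
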