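import Mathlib
import Pool.Agent.H569.IL1

/-! Shifts `τ` and a class `h` modulo a squarefree number with `(p / m) = σ i j`, `τ j - τ i = 4 ^ i m`, `m ≡ 1 (mod 4)`. -/

set_option autoImplicit false

namespace Pool.Agent.H569.RT

open Finset
open Pool.Agent.H569.IL (crtF primes_seq coprime_of_primes ndvd_of_coprime)

/-- the Jacobi symbol depends on the residues modulo the prime factors only -/
theorem jac_rad : ∀ (m : ℕ) (a b : ℤ), (∀ p : ℕ, p.Prime → p ∣ m → a ≡ b [ZMOD p]) → jacobiSym a m = jacobiSym b m := by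
  intro m
  induction m using Nat.strong_induction_on with
  | _ m ih =>
    intro a b hab
    rcases Nat.lt_or_ge m 2 with h | h
    · interval_cases m
      · rw [jacobiSym.zero_right, jacobiSym.zero_right]
      · rw [jacobiSym.one_right, jacobiSym.one_right]
    · have hp : m.minFac.Prime := Nat.minFac_prime (by omega)
      obtain ⟨m', hm'⟩ := Nat.minFac_dvd m
      have hm'0 : m' ≠ 0 := by
        rintro rfl
        rw [mul_zero] at hm'
        omega
      have hlt : m' < m := by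
        conv_rhs => rw [hm']
        have := hp.one_lt
        nlinarith [Nat.pos_of_ne_zero hm'0]
      have h1 := ih m' hlt a b (fun p hpp hd => hab p hpp (by rw [hm']; exact hd.mul_left _))
      have h2 : jacobiSym a m.minFac = jacobiSym b m.minFac :=
        jacobiSym.mod_left' (hab _ hp (Nat.minFac_dvd m))
      rw [hm', jacobiSym.mul_right' _ hp.ne_zero hm'0, jacobiSym.mul_right' _ hp.ne_zero hm'0, h1, h2]

/-- the radical -/
noncomputable def rad (n : ℕ) : ℕ := ∏ p ∈ n.primeFactors, p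

theorem rad_sqf (n : ℕ) : Squarefree (rad n) := by
  unfold rad
  apply Finset.squarefree_prod_of_pairwise_isCoprime
  · intro p hp q hq hne
    exact Nat.coprime_iff_isRelPrime.1 ((Nat.coprime_primes (Nat.prime_of_mem_primeFactors hp)
      (Nat.prime_of_mem_primeFactors hq)).2 hne)
  · intro p hp
    exact (Nat.prime_of_mem_primeFactors hp).prime.squarefree

theorem dvd_rad {n p : ℕ} (hn : n ≠ 0) (hp : p.Prime) : p ∣ rad n ↔ p ∣ n := by
  unfold rad
  constructor
  · intro h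
    obtain ⟨q, hq, h1⟩ := (hp.prime.dvd_finsetProd_iff _).1 h
    have h2 := (Nat.prime_dvd_prime_iff_eq hp (Nat.prime_of_mem_primeFactors hq)).1 h1
    rw [h2]
    exact Nat.dvd_of_mem_primeFactors hq
  · intro h
    exact dvd_prod_of_mem (fun p => p) (Nat.mem_primeFactors.2 ⟨hp, h, hn⟩)

theorem sqf_dvd_rad {n q : ℕ} (hn : n ≠ 0) (hq : Squarefree q) (h : q ∣ n) : q ∣ rad n := by
  rw [← Nat.prod_primeFactors_of_squarefree hq]
  exact prod_dvd_prod_of_subset _ _ _ (Nat.primeFactors_mono h hn)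

theorem rad_pos (n : ℕ) : 0 < rad n := prod_pos fun _ hp => (Nat.prime_of_mem_primeFactors hp).pos

/-- the properties at a stage -/
structure OKr (q a : ℕ) (σ : ℕ → ℕ → ℤ) (y D h : ℕ) (τ : ℕ → ℕ) : Prop where
  sqf : Squarefree D
  two : 2 ∣ D
  dq : q ∣ D
  cop : Nat.Coprime h D
  res : h ≡ a [MOD q]
  mono : ∀ i j, i < j → j < y → τ i < τ j
  form : ∀ i < y, ∃ s, τ i = 4 ^ i * s ∧ s % 4 = 3
  sym : ∀ i j, i < j → j < y → ∃ m, τ j - τ i = 4 ^ i * m ∧ m % 4 = 1 ∧ (∀ p : ℕ, p.Prime → p ∣ m → p ∣ D) ∧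
    jacobiSym (h : ℤ) m = σ i j

theorem step {q a : ℕ} {σ : ℕ → ℕ → ℤ} (hσ : ∀ i j, σ i j = 1 ∨ σ i j = -1) {y D h : ℕ}
    {τ : ℕ → ℕ} (H : OKr q a σ y D h τ) :
    ∃ (D' h' : ℕ) (τ' : ℕ → ℕ), OKr q a σ (y + 1) D' h' τ' := by
  classical
  have hD0 : 0 < D := Nat.pos_of_ne_zero H.sqf.ne_zero
  obtain ⟨l, hlm, hl⟩ := primes_seq (D + ∑ x ∈ range y, τ x + 4)
  have hlp : ∀ x, (l x).Prime := fun x => (hl x).1
  have hlD : ∀ x, ¬ l x ∣ D := by
    intro x hd
    have h1 := Nat.le_of_dvd hD0 hd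
    have h2 := (hl x).2.1
    omega
  have hl2 : ∀ x, ¬ l x ∣ 4 := by
    intro x hd
    have h1 := Nat.le_of_dvd (by norm_num) hd
    have h2 := (hl x).2.1
    omega
  have hl4 : ∀ x k, Nat.Coprime (4 ^ k) (l x) := fun x k =>
    Nat.Coprime.pow_left _ (Nat.coprime_comm.1 ((Nat.Prime.coprime_iff_not_dvd (hlp x)).2 (hl2 x)))
  have hcopll : ∀ x x', x ≠ x' → Nat.Coprime (l x) (l x') := fun x x' hne =>
    (Nat.coprime_primes (hlp x) (hlp x')).2 (hlm.injective.ne hne)
  -- the new shift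
  obtain ⟨v0, hv1, hv2⟩ := crtF (range y) (fun x => l x ^ 2) (fun x => τ x + 4 ^ x * l x) (4 ^ (y + 1)) (3 * 4 ^ y)
    (fun x _ => (hl4 x _).pow_right 2) (fun x _ x' _ hne => Nat.Coprime.pow 2 2 (hcopll x x' hne))
  obtain ⟨Pm, hPm⟩ : ∃ Pm, Pm = 4 ^ (y + 1) * ∏ x ∈ range y, l x ^ 2 := ⟨_, rfl⟩
  have hPm0 : 0 < Pm := by
    rw [hPm]
    exact Nat.mul_pos (by positivity) (prod_pos fun x _ => pow_pos (hlp x).pos 2)
  obtain ⟨v, hv⟩ : ∃ v, v = v0 + Pm * (∑ x ∈ range y, τ x + 1) := ⟨_, rfl⟩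
  have hv4 : v ≡ 3 * 4 ^ y [MOD 4 ^ (y + 1)] := by
    rw [hv]
    have h1 : Pm * (∑ x ∈ range y, τ x + 1) ≡ 0 [MOD 4 ^ (y + 1)] :=
      (Nat.modEq_zero_iff_dvd).2 (((Dvd.intro _ rfl : 4 ^ (y + 1) ∣ 4 ^ (y + 1) * ∏ x ∈ range y, l x ^ 2).trans
        (by rw [← hPm])).mul_right _)
    have := hv1.add h1
    rwa [add_zero] at this
  obtain ⟨s, hs1, hs2⟩ : ∃ s, v = 4 ^ y * s ∧ s % 4 = 3 := by
    have h1 : v % 4 ^ (y + 1) = 3 * 4 ^ y := by
      have h2 : v % 4 ^ (y + 1) = (3 * 4 ^ y) % 4 ^ (y + 1) := hv4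
      rw [h2, Nat.mod_eq_of_lt]
      rw [pow_succ]
      have : 0 < 4 ^ y := by positivity
      omega
    refine ⟨4 * (v / 4 ^ (y + 1)) + 3, ?_, by omega⟩
    have h2 := Nat.div_add_mod v (4 ^ (y + 1))
    rw [h1] at h2
    rw [← h2]
    have h3 : (4 ^ (y + 1) * (v / 4 ^ (y + 1)) + 3 * 4 ^ y) / 4 ^ (y + 1) = v / 4 ^ (y + 1) := by rw [h2]
    rw [h3]
    ring
  have hvl : ∀ x < y, v ≡ τ x + 4 ^ x * l x [MOD l x ^ 2] := by
    intro x hx
    have h1 : l x ^ 2 ∣ Pm * (∑ x ∈ range y, τ x + 1) := by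
      refine Dvd.dvd.mul_right ?_ _
      rw [hPm]
      exact (dvd_prod_of_mem (fun x => l x ^ 2) (mem_range.2 hx)).trans (Dvd.intro_left _ rfl)
    have h2 : v ≡ v0 + 0 [MOD l x ^ 2] := by
      rw [hv]
      exact Nat.ModEq.add_left v0 ((Nat.modEq_zero_iff_dvd).2 h1)
    exact h2.trans (hv2 x (mem_range.2 hx))
  have hτle : ∀ x < y, τ x ≤ ∑ x ∈ range y, τ x := fun x hx =>
    single_le_sum (f := τ) (fun _ _ => Nat.zero_le _) (mem_range.2 hx)
  have hvgt : ∀ x < y, τ x < v := by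
    intro x hx
    have h1 := hτle x hx
    have h2 : ∑ x ∈ range y, τ x + 1 ≤ Pm * (∑ x ∈ range y, τ x + 1) := Nat.le_mul_of_pos_left _ hPm0
    omega
  -- the differences
  have hm : ∀ x, ∃ m, x < y → v - τ x = 4 ^ x * m ∧ m % 4 = 1 ∧ m ≡ l x [MOD l x ^ 2] := by
    intro x
    by_cases hx : x < y
    · obtain ⟨t, ht1, ht2⟩ := H.form x hx
      have hyx : 4 ^ y = 4 ^ x * (4 * 4 ^ (y - x - 1)) := by
        rw [← pow_succ', ← pow_add]
        congr 1
        omega
      have h1 : v = 4 ^ x * (4 * 4 ^ (y - x - 1) * s) := by rw [hs1, hyx]; ring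
      have h2 : t < 4 * 4 ^ (y - x - 1) * s := by
        have h3 := hvgt x hx
        rw [h1, ht1] at h3
        exact lt_of_mul_lt_mul_left h3 (Nat.zero_le _)
      refine ⟨4 * 4 ^ (y - x - 1) * s - t, fun _ => ⟨?_, ?_, ?_⟩⟩
      · rw [Nat.mul_sub, ← h1, ← ht1]
      · have h3 : 4 * 4 ^ (y - x - 1) * s = 4 * (4 ^ (y - x - 1) * s) := by ring
        rw [h3] at h2 ⊢
        omega
      · have h3 := hvl x hx
        have h4 : 4 ^ x * (4 * 4 ^ (y - x - 1) * s - t) + 4 ^ x * t ≡ 4 ^ x * l x + 4 ^ x * t [MOD l x ^ 2] := by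
          rw [← mul_add, Nat.sub_add_cancel h2.le, ← h1, ← ht1, add_comm (4 ^ x * l x)]
          exact h3
        have h5 := Nat.ModEq.add_right_cancel' _ h4
        exact Nat.ModEq.cancel_left_of_coprime (by
          rw [Nat.gcd_comm]
          exact (hl4 x x).pow_right 2) h5
    · exact ⟨0, fun h => absurd h hx⟩
  choose m hm using hm
  have hDD : ∀ x, ∃ E, x < y → m x = l x * E ∧ ¬ l x ∣ E := by
    intro x
    by_cases hx : x < y
    · obtain ⟨h1, h2, h3⟩ := hm x hx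
      have h4 : l x ∣ m x := by
        have h5 : m x ≡ l x [MOD l x] := h3.of_dvd (dvd_pow_self _ two_ne_zero)
        exact (Nat.modEq_zero_iff_dvd).1 (h5.trans ((Nat.modEq_zero_iff_dvd).2 dvd_rfl))
      obtain ⟨E, hE⟩ := h4
      refine ⟨E, fun _ => ⟨hE, fun h6 => ?_⟩⟩
      obtain ⟨G, hG⟩ := h6
      have h7 : l x ^ 2 ∣ m x := ⟨G, by rw [hE, hG]; ring⟩
      have h8 : l x ^ 2 ∣ l x := (Nat.modEq_zero_iff_dvd).1 (h3.symm.trans ((Nat.modEq_zero_iff_dvd).2 h7))
      have h9 := Nat.le_of_dvd (hlp x).pos h8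
      have h10 := (hlp x).one_lt
      nlinarith
    · exact ⟨0, fun h => absurd h hx⟩
  choose E hE using hDD
  have hm0 : ∀ x < y, 0 < m x := by
    intro x hx
    have := (hm x hx).2.1
    omega
  have hE0 : ∀ x < y, 0 < E x := by
    intro x hx
    have h1 := (hE x hx).1
    rcases Nat.eq_zero_or_pos (E x) with h0 | h0
    · have h2 := hm0 x hx
      rw [h1, h0, mul_zero] at h2
      omega
    · exact h0
  obtain ⟨V0, hV0⟩ : ∃ V0, V0 = D * ∏ x ∈ range y, E x := ⟨_, rfl⟩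
  have hV0p : V0 ≠ 0 := by
    rw [hV0]
    exact (Nat.mul_pos hD0 (prod_pos fun x hx => hE0 x (mem_range.1 hx))).ne'
  obtain ⟨V, hV⟩ : ∃ V, V = rad V0 := ⟨_, rfl⟩
  have hVsqf : Squarefree V := by rw [hV]; exact rad_sqf _
  have hVpos : 0 < V := by rw [hV]; exact rad_pos _
  have hDV : D ∣ V := by
    rw [hV]
    exact sqf_dvd_rad hV0p H.sqf (by rw [hV0]; exact Dvd.intro _ rfl)
  have hpV : ∀ p : ℕ, p.Prime → (p ∣ V ↔ p ∣ V0) := fun p hp => by rw [hV]; exact dvd_rad hV0p hp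
  have hEV : ∀ x < y, ∀ p : ℕ, p.Prime → p ∣ E x → p ∣ V := fun x hx p hp hd => by
    rw [hpV p hp, hV0]
    exact (hd.trans (dvd_prod_of_mem E (mem_range.2 hx))).mul_left _
  have hlV : ∀ x < y, ¬ l x ∣ V := by
    intro x hx hd
    have hbig := (hl x).2.1
    rw [hpV _ (hlp x), hV0] at hd
    rcases (hlp x).dvd_mul.1 hd with h1 | h1
    · exact hlD x h1
    · obtain ⟨x', hx', h3⟩ := ((hlp x).prime.dvd_finsetProd_iff _).1 h1
      have hx'y := mem_range.1 hx'
      by_cases hxx : x' = x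
      · subst hxx
        exact (hE x' hx).2 h3
      · have h5 : l x ∣ v - τ x' := by
          rw [(hm x' hx'y).1, (hE x' hx'y).1]
          exact (h3.mul_left _).mul_left _
        have h6 : l x ∣ v - τ x := by
          rw [(hm x hx).1, (hE x hx).1]
          exact (Dvd.intro _ rfl).mul_left _
        have h7 := hvgt x hx
        have h8 := hvgt x' hx'y
        rcases lt_or_gt_of_ne hxx with h9 | h9
        · have h10 := H.mono x' x h9 hx
          have h11 : l x ∣ τ x - τ x' := by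
            have h12 : (v - τ x') - (v - τ x) = τ x - τ x' := by omega
            rw [← h12]
            exact Nat.dvd_sub h5 h6
          have h12 := Nat.le_of_dvd (by omega) h11
          have h13 := hτle x hx
          omega
        · have h10 := H.mono x x' h9 hx'y
          have h11 : l x ∣ τ x' - τ x := by
            have h12 : (v - τ x) - (v - τ x') = τ x' - τ x := by omega
            rw [← h12]
            exact Nat.dvd_sub h6 h5
          have h12 := Nat.le_of_dvd (by omega) h11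
          have h13 := hτle x' hx'y
          omega
  -- the class modulo `V`
  obtain ⟨h1, hh1, hh2⟩ := crtF (V.primeFactors.filter (fun p => ¬ p ∣ D)) id (fun _ => 1) D h
    (by
      intro p hp
      have hp1 := Nat.prime_of_mem_primeFactors (mem_filter.1 hp).1
      exact Nat.coprime_comm.1 ((Nat.Prime.coprime_iff_not_dvd hp1).2 (mem_filter.1 hp).2))
    (by
      intro p hp p' hp' hne
      exact (Nat.coprime_primes (Nat.prime_of_mem_primeFactors (mem_filter.1 hp).1)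
        (Nat.prime_of_mem_primeFactors (mem_filter.1 hp').1)).2 hne)
  have h1V : Nat.Coprime h1 V := by
    refine coprime_of_primes hVpos fun p hp hd => ?_
    by_cases hpD : p ∣ D
    · intro h2
      exact ndvd_of_coprime hp hpD H.cop ((Nat.ModEq.dvd_iff (hh1.of_dvd hpD) dvd_rfl).1 h2)
    · intro h2
      have h3 : h1 ≡ 1 [MOD p] := hh2 p (mem_filter.2 ⟨Nat.mem_primeFactors.2 ⟨hp, hd, hVpos.ne'⟩, hpD⟩)
      exact hp.one_lt.ne' (Nat.dvd_one.1 ((Nat.ModEq.dvd_iff h3 dvd_rfl).1 h2))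
  have hcopE : ∀ x < y, Int.gcd (h1 : ℤ) (E x) = 1 := by
    intro x hx
    rw [Int.gcd_natCast_natCast]
    exact coprime_of_primes (hE0 x hx) fun p hp hd => ndvd_of_coprime hp (hEV x hx p hp hd) h1V
  -- the private primes
  have hu : ∀ x, ∃ c : ℕ, x < y → ¬ l x ∣ c ∧ jacobiSym (c : ℤ) (l x) = σ x y * jacobiSym (h1 : ℤ) (E x) := by
    intro x
    by_cases hx : x < y
    · have := Fact.mk (hlp x)
      have hjac := jacobiSym.eq_one_or_neg_one (hcopE x hx)
      have ht : σ x y * jacobiSym (h1 : ℤ) (E x) = 1 ∨ σ x y * jacobiSym (h1 : ℤ) (E x) = -1 := by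
        rcases hσ x y with h1 | h1 <;> rcases hjac with h2 | h2 <;> rw [h1, h2] <;> norm_num
      have hbig := (hl x).2.1
      obtain ⟨u, hu0, _, hut⟩ := Pool.Agent.H569.LM.residue_choice (p := l x) 0 (by norm_num; omega) ∅
        (by simp) _ ht
      refine ⟨u.val, fun _ => ⟨?_, ?_⟩⟩
      · intro hd
        rw [← ZMod.natCast_eq_zero_iff, ZMod.natCast_zmod_val] at hd
        exact hu0 hd
      · rw [← jacobiSym.legendreSym.to_jacobiSym, legendreSym]
        push_cast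
        rw [ZMod.natCast_zmod_val]
        exact hut
    · exact ⟨0, fun h => absurd h hx⟩
  choose u hu using hu
  obtain ⟨h', hh3, hh4⟩ := crtF (range y) l u V h1
    (fun x hx => Nat.coprime_comm.1 ((Nat.Prime.coprime_iff_not_dvd (hlp x)).2 (hlV x (mem_range.1 hx))))
    (fun x _ x' _ hne => hcopll x x' hne)
  obtain ⟨D', hD'⟩ : ∃ D', D' = rad (V * ∏ x ∈ range y, l x) := ⟨_, rfl⟩
  have hne : V * ∏ x ∈ range y, l x ≠ 0 := (Nat.mul_pos hVpos (prod_pos fun x _ => (hlp x).pos)).ne'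
  have hpD' : ∀ p : ℕ, p.Prime → (p ∣ D' ↔ p ∣ V ∨ ∃ x < y, p = l x) := by
    intro p hp
    rw [hD', dvd_rad hne hp, hp.dvd_mul]
    apply or_congr Iff.rfl
    rw [hp.prime.dvd_finsetProd_iff]
    constructor
    · rintro ⟨x, hx, h2⟩
      exact ⟨x, mem_range.1 hx, (Nat.prime_dvd_prime_iff_eq hp (hlp x)).1 h2⟩
    · rintro ⟨x, hx, rfl⟩
      exact ⟨x, mem_range.2 hx, dvd_rfl⟩
  have hVD' : V ∣ D' := by
    rw [hD']
    exact sqf_dvd_rad hne hVsqf (Dvd.intro _ rfl)
  refine ⟨D', h', fun i => if i < y then τ i else v, ⟨by rw [hD']; exact rad_sqf _, H.two.trans (hDV.trans hVD'),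
    H.dq.trans (hDV.trans hVD'), ?_, ?_, ?_, ?_, ?_⟩⟩
  · refine coprime_of_primes (by rw [hD']; exact rad_pos _) fun p hp hd => ?_
    rcases (hpD' p hp).1 hd with h2 | ⟨x, hx, rfl⟩
    · intro h3
      exact ndvd_of_coprime hp h2 h1V ((Nat.ModEq.dvd_iff (hh3.of_dvd h2) dvd_rfl).1 h3)
    · intro h3
      exact (hu x hx).1 ((Nat.ModEq.dvd_iff (hh4 x (mem_range.2 hx)) dvd_rfl).1 h3)
  · exact ((hh3.of_dvd (H.dq.trans hDV)).trans (hh1.of_dvd H.dq)).trans H.res
  · intro i j hij hj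
    rw [if_pos (by omega : i < y)]
    rcases Nat.lt_or_ge j y with h2 | h2
    · rw [if_pos h2]; exact H.mono i j hij h2
    · rw [if_neg (by omega)]; exact hvgt i (by omega)
  · intro i hi
    rcases Nat.lt_or_ge i y with h2 | h2
    · rw [if_pos h2]; exact H.form i h2
    · rw [if_neg (by omega), show i = y by omega]
      exact ⟨s, hs1, hs2⟩
  · intro i j hij hj
    rw [if_pos (by omega : i < y)]
    rcases Nat.lt_or_ge j y with h2 | h2
    · rw [if_pos h2]
      obtain ⟨m', k1, k2, k3, k4⟩ := H.sym i j hij h2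
      refine ⟨m', k1, k2, fun p hp hd => (k3 p hp hd).trans (hDV.trans hVD'), ?_⟩
      rw [← k4]
      apply jac_rad
      intro p hp hd
      have h5 : p ∣ D := k3 p hp hd
      have h6 : h' ≡ h [MOD p] := (hh3.of_dvd (h5.trans hDV)).trans (hh1.of_dvd h5)
      exact Int.natCast_modEq_iff.2 h6
    · rw [if_neg (by omega)]
      have hiy : i < y := by omega
      have hjy : j = y := by omega
      obtain ⟨k1, k2, k3⟩ := hm i hiy
      obtain ⟨k4, k5⟩ := hE i hiy
      refine ⟨m i, k1, k2, ?_, ?_⟩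
      · intro p hp hd
        rw [k4] at hd
        rw [hpD' p hp]
        rcases hp.dvd_mul.1 hd with h5 | h5
        · exact Or.inr ⟨i, hiy, (Nat.prime_dvd_prime_iff_eq hp (hlp i)).1 h5⟩
        · exact Or.inl (hEV i hiy p hp h5)
      · rw [k4, jacobiSym.mul_right' _ (hlp i).ne_zero (hE0 i hiy).ne']
        have h5 : jacobiSym (h' : ℤ) (l i) = jacobiSym (u i : ℤ) (l i) :=
          jacobiSym.mod_left' (Int.natCast_modEq_iff.2 (hh4 i (mem_range.2 hiy)))
        have h6 : jacobiSym (h' : ℤ) (E i) = jacobiSym (h1 : ℤ) (E i) := by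
          apply jac_rad
          intro p hp hd
          exact Int.natCast_modEq_iff.2 (hh3.of_dvd (hEV i hiy p hp hd))
        rw [h5, h6, (hu i hiy).2, hjy, mul_assoc]
        rcases jacobiSym.eq_one_or_neg_one (hcopE i hiy) with h8 | h8 <;> rw [h8] <;> norm_num

theorem exists_OKr (q a : ℕ) (hq : Squarefree q) (ha : a.Coprime q) (σ : ℕ → ℕ → ℤ)
    (hσ : ∀ i j, σ i j = 1 ∨ σ i j = -1) (K : ℕ) : ∃ (D h : ℕ) (τ : ℕ → ℕ), OKr q a σ K D h τ := by
  induction K with
  | zero =>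
    by_cases h2 : 2 ∣ q
    · exact ⟨q, a, fun _ => 0, ⟨hq, h2, dvd_rfl, ha, Nat.ModEq.refl _, fun i j _ hj => absurd hj (by omega),
        fun i hi => absurd hi (by omega), fun i j _ hj => absurd hj (by omega)⟩⟩
    · have hco : Nat.Coprime q 2 := Nat.coprime_comm.1 ((Nat.Prime.coprime_iff_not_dvd Nat.prime_two).2 h2)
      obtain ⟨h, hh1, hh2⟩ := Nat.chineseRemainder hco a 1
      refine ⟨q * 2, h, fun _ => 0, ⟨(Nat.squarefree_mul hco).2 ⟨hq, Nat.prime_two.prime.squarefree⟩, Dvd.intro_left _ rfl,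
        Dvd.intro _ rfl, ?_, hh1, fun i j _ hj => absurd hj (by omega),
        fun i hi => absurd hi (by omega), fun i j _ hj => absurd hj (by omega)⟩⟩
      refine Nat.Coprime.mul_right ?_ ?_
      · unfold Nat.Coprime at ha ⊢
        rw [← ha]
        exact hh1.gcd_eq
      · have h3 : h % 2 = 1 % 2 := hh2
        rw [Nat.coprime_comm, Nat.Prime.coprime_iff_not_dvd Nat.prime_two]
        omega
  | succ K ih =>
    obtain ⟨D, h, τ, H⟩ := ih
    exact step hσ H

end Pool.Agent.H569.RT
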