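import Mathlib
import Pool.Graph.R_seed8.TH101.RG.TupMult
import Pool.Agent.H569.MS3
import Pool.Agent.H569.RT1

/-! Legendre tables at all scales up to the record. -/

set_option autoImplicit false

namespace Pool.Agent.H569.RT

open Finset Filter
open Pool.Agent.H256R2.SC (ff)
open Pool.Agent.H362R2.RQ (fib)
open Pool.Agent.H569.MS (colour colour_mono colour_lt fib_ge)
open Pool.Agent.H569.LM (full_node order)

/-- the sign attached to two words: the entry of the table at the highest place where they differ -/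
noncomputable def rel {m N : ℕ} (ε : Fin m → Fin m → ℤ) (u v : Fin N → Fin m) : ℤ := by
  classical
  exact if h : (univ.filter (fun l => u l ≠ v l)).Nonempty then
    ε (u ((univ.filter (fun l => u l ≠ v l)).max' h)) (v ((univ.filter (fun l => u l ≠ v l)).max' h)) else 1

theorem rel_sign {m N : ℕ} {ε : Fin m → Fin m → ℤ} (hε : ∀ i j, ε i j = 1 ∨ ε i j = -1)
    (u v : Fin N → Fin m) : rel ε u v = 1 ∨ rel ε u v = -1 := by
  classical
  rw [rel]
  split_ifs with h
  · apply hε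
  · exact Or.inl rfl

theorem rel_eq {m N : ℕ} {ε : Fin m → Fin m → ℤ} (u v : Fin N → Fin m) (l : Fin N) (h1 : u l ≠ v l)
    (h2 : ∀ l', l < l' → u l' = v l') : rel ε u v = ε (u l) (v l) := by
  classical
  have hne : (univ.filter (fun l => u l ≠ v l)).Nonempty := ⟨l, mem_filter.2 ⟨mem_univ _, h1⟩⟩
  have hmax : (univ.filter (fun l => u l ≠ v l)).max' hne = l := by
    apply le_antisymm
    · apply Finset.max'_le
      intro y hy
      by_contra hcon
      exact (mem_filter.1 hy).2 (h2 y (not_le.1 hcon))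
    · exact Finset.le_max' (univ.filter (fun l => u l ≠ v l)) l (mem_filter.2 ⟨mem_univ _, h1⟩)
  rw [rel, dif_pos hne, hmax]

/-- `p 0 < ... < p k` are primes with `(p j / p i) = T i j` for `i < j` and `p k ≤ p 0 + L`; all the primes in
`[p 0, p k]` are `≡ a (mod q)`; any two primes, the smaller one `≤ p k` and the larger one `≥ p 0`, differ by at
least `g`. -/
def Chain {k : ℕ} (T : Fin (k + 1) → Fin (k + 1) → ℤ) (q a : ℕ) (g L : ℝ) (p : Fin (k + 1) → ℕ) : Prop :=
  StrictMono p ∧ (∀ i, (p i).Prime) ∧ (∀ i j, i < j → jacobiSym (p j) (p i) = T i j) ∧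
  (p (Fin.last k) : ℝ) ≤ p 0 + L ∧
  (∀ r : ℕ, r.Prime → p 0 ≤ r → r ≤ p (Fin.last k) → r ≡ a [MOD q]) ∧
  ∀ r r' : ℕ, r.Prime → r'.Prime → r < r' → r ≤ p (Fin.last k) → p 0 ≤ r' → g ≤ (r' : ℝ) - r

/-- the first primes of the chains, `X < p 0 ≤ 4 X` -/
def Firsts {k : ℕ} (T : Fin (k + 1) → Fin (k + 1) → ℤ) (q a : ℕ) (g L X : ℝ) : Set ℕ :=
  {x : ℕ | X < x ∧ (x : ℝ) ≤ 4 * X ∧ ∃ p, p 0 = x ∧ Chain T q a g L p}

theorem Firsts.finite {k : ℕ} (T : Fin (k + 1) → Fin (k + 1) → ℤ) (q a : ℕ) (g L X : ℝ) :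
    (Firsts T q a g L X).Finite := by
  apply (Set.finite_Iic ⌊4 * X⌋₊).subset
  intro x hx
  exact Set.mem_Iic.2 (Nat.le_floor hx.2.1)

theorem core (k : ℕ) (T : Fin (k + 1) → Fin (k + 1) → ℤ) (hT : ∀ i j, T i j = 1 ∨ T i j = -1)
    (q a : ℕ) (hq : Squarefree q) (ha : a.Coprime q) : ∃ κ C c : ℝ, 0 < κ ∧ 0 < c ∧
    ∀ᶠ X : ℝ in atTop, ∀ H : ℝ, C ≤ H → H ≤ c * ff X →
      X ^ (4 / 5 : ℝ) ≤ ((Firsts T q a (κ * H) H X).ncard : ℝ) := by
  classical
  obtain ⟨η, hη, H0⟩ := Pool.Agent.TH101.RG.tuple_multiples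
  -- the number of places
  obtain ⟨N', hN'⟩ : ∃ N' : ℕ, ((k : ℝ)) ^ N' < η * ((k : ℝ) + 1) ^ N' := by
    have h1 : (k : ℝ) / ((k : ℝ) + 1) < 1 := by rw [div_lt_one (by positivity)]; linarith
    obtain ⟨N', hN'⟩ := exists_pow_lt_of_lt_one hη h1
    refine ⟨N', ?_⟩
    rw [div_pow, div_lt_iff₀ (by positivity)] at hN'
    exact hN'
  obtain ⟨M, hM⟩ : ∃ M, M = (k + 1) ^ N' := ⟨_, rfl⟩
  have hm : 1 ≤ M := by rw [hM]; exact Nat.one_le_pow _ _ (by omega)
  obtain ⟨K, hmK, HK⟩ := H0 M hm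
  obtain ⟨N, hNdef⟩ : ∃ N, N = K / M := ⟨_, rfl⟩
  have hN : 1 ≤ N := by rw [hNdef]; exact Nat.div_pos hmK hm
  have hK1 : 1 ≤ K := hm.trans hmK
  have hK0 : (0 : ℝ) < K := by exact_mod_cast hK1
  -- the words
  let word : ℕ → (Fin N' → Fin (k + 1)) := fun z => finFunctionFinEquiv.symm ⟨colour N M z, by
    rw [← hM]; exact colour_lt hm z⟩
  obtain ⟨D, h, τ, hτ⟩ := exists_OKr q a hq ha (fun z w => rel T (word z) (word w)) (fun z w => rel_sign hT _ _) K
  have hD0 : 0 < D := Nat.pos_of_ne_zero hτ.sqf.ne_zero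
  obtain ⟨Q, hQ⟩ : ∃ Q, Q = D * (K + 1).factorial := ⟨_, rfl⟩
  have hQ0 : 0 < Q := by rw [hQ]; exact Nat.mul_pos hD0 (Nat.factorial_pos _)
  have hDQ : D ∣ Q := by rw [hQ]; exact Dvd.intro _ rfl
  have hQr : (0 : ℝ) < Q := by exact_mod_cast hQ0
  obtain ⟨B, hB⟩ : ∃ B, B = τ (K - 1) + 1 := ⟨_, rfl⟩
  have hB0 : (0 : ℝ) < B := by rw [hB]; positivity
  have hτB : ∀ z < K, τ z ≤ B := by
    intro z hz
    rcases Nat.lt_or_ge z (K - 1) with h1 | h1
    · have := hτ.mono z (K - 1) h1 (by omega)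
      omega
    · have : z = K - 1 := by omega
      rw [hB, this]
      omega
  obtain ⟨c₁, hc₁, hev⟩ := HK 1 0 1 D hτ.sqf
  refine ⟨1 / (8 * B), 2 * Q ^ 2 * B, c₁ / 2, by positivity, by positivity, ?_⟩
  filter_upwards [hev, Pool.Agent.H312R2.RG.ev_ff c₁ hc₁, eventually_ge_atTop 1,
    (tendsto_rpow_atTop (show (0 : ℝ) < 3 / 40 by norm_num)).eventually_ge_atTop (K : ℝ)]
    with X hX hff hX1 hXK
  intro H hCH hHc
  have hX0 : (0 : ℝ) < X := by linarith
  have hH0 : 0 < H := lt_of_lt_of_le (by positivity) hCH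
  have h2H : 2 * H ≤ c₁ * ff X := by linarith
  -- the unit
  obtain ⟨u, hu⟩ : ∃ u : ℕ, u = ⌊Real.sqrt (H / (2 * Q ^ 2 * B))⌋₊ := ⟨_, rfl⟩
  have hsq : 1 ≤ Real.sqrt (H / (2 * Q ^ 2 * B)) := by
    rw [Real.one_le_sqrt, le_div_iff₀ (by positivity), one_mul]
    exact hCH
  have hu1 : 1 ≤ u := by
    rw [hu]
    exact Nat.le_floor (by exact_mod_cast hsq)
  have hu2 : (u : ℝ) ^ 2 ≤ H / (2 * Q ^ 2 * B) := by
    have h1 : (u : ℝ) ≤ Real.sqrt (H / (2 * Q ^ 2 * B)) := by rw [hu]; exact Nat.floor_le (Real.sqrt_nonneg _)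
    calc (u : ℝ) ^ 2 ≤ Real.sqrt (H / (2 * Q ^ 2 * B)) ^ 2 := pow_le_pow_left₀ (Nat.cast_nonneg _) h1 2
      _ = _ := Real.sq_sqrt (by positivity)
  have hu3 : H / (2 * Q ^ 2 * B) ≤ 4 * (u : ℝ) ^ 2 := by
    have h1 : Real.sqrt (H / (2 * Q ^ 2 * B)) < u + 1 := by rw [hu]; exact Nat.lt_floor_add_one _
    have h2 : (1 : ℝ) ≤ u := by exact_mod_cast hu1
    calc H / (2 * Q ^ 2 * B) = Real.sqrt (H / (2 * Q ^ 2 * B)) ^ 2 := (Real.sq_sqrt (by positivity)).symm
      _ ≤ (2 * (u : ℝ)) ^ 2 := pow_le_pow_left₀ (Real.sqrt_nonneg _) (by linarith) 2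
      _ = 4 * (u : ℝ) ^ 2 := by ring
  obtain ⟨S, hS⟩ : ∃ S, S = Q * u := ⟨_, rfl⟩
  have hS0 : 0 < S := by rw [hS]; exact Nat.mul_pos hQ0 hu1
  have hQS : Q ∣ S := by rw [hS]; exact Dvd.intro _ rfl
  have hS2 : (S : ℝ) ^ 2 * B ≤ H / 2 := by
    rw [le_div_iff₀ (by positivity)] at hu2
    rw [hS]
    push_cast
    nlinarith
  have hS3 : H / (8 * B) ≤ (S : ℝ) ^ 2 := by
    rw [div_le_iff₀ (by positivity)] at hu3 ⊢
    rw [hS]
    push_cast
    nlinarith
  let t : ℕ → ℕ := fun z => S ^ 2 * τ z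
  have htdef : ∀ z, (t z : ℝ) = (S : ℝ) ^ 2 * τ z := by
    intro z
    show ((S ^ 2 * τ z : ℕ) : ℝ) = _
    push_cast
    ring
  have htup : ∀ z < K, (t z : ℝ) ≤ H / 2 := by
    intro z hz
    rw [htdef]
    refine le_trans ?_ hS2
    exact mul_le_mul_of_nonneg_left (by exact_mod_cast hτB z hz) (by positivity)
  have hspace : ∀ z z', z < z' → z' < K → H / (8 * B) ≤ (t z' : ℝ) - t z := by
    intro z z' hzz hz'
    rw [htdef, htdef]
    have h1 : (τ z : ℝ) + 1 ≤ τ z' := by exact_mod_cast hτ.mono z z' hzz hz'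
    have h2 : (0 : ℝ) ≤ (S : ℝ) ^ 2 := by positivity
    nlinarith
  have htmono : ∀ z z', z < z' → z' < K → t z < t z' := by
    intro z z' hzz hz'
    have h1 := hspace z z' hzz hz'
    have h2 : (0 : ℝ) < H / (8 * B) := by positivity
    have h3 : (t z : ℝ) < t z' := by linarith
    exact_mod_cast h3
  have htlt : ∀ z z', z < K → z' < K → t z < t z' → z < z' := by
    intro z z' hz hz' hlt
    by_contra hcon
    push Not at hcon
    rcases hcon.eq_or_lt with h1 | h1
    · rw [h1] at hlt; exact lt_irrefl _ hlt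
    · have := htmono z' z h1 hz; omega
  have hSt : ∀ z, S ∣ t z := fun z => by
    show S ∣ S ^ 2 * τ z
    exact (dvd_pow_self S two_ne_zero).mul_right _
  have hadm : ∀ p : ℕ, p.Prime → ∃ v : ℕ, ∀ j : Fin K, ¬ p ∣ v + t j := by
    intro p hp
    by_cases h1 : p ≤ K + 1
    · refine ⟨1, fun j hd => ?_⟩
      have h2 : p ∣ Q := by
        rw [hQ]
        exact (hp.dvd_factorial.2 h1).mul_left _
      have h3 : p ∣ t j := (h2.trans hQS).trans (hSt j)
      exact hp.one_lt.ne' (Nat.dvd_one.1 ((Nat.dvd_add_left h3).1 hd))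
    · push Not at h1
      obtain ⟨v, _, hv⟩ := Pool.Agent.H569.IL.avoid_few hp (K - 1) (by omega) t
      exact ⟨v, fun j => hv j (by have := j.isLt; omega)⟩
  have hcopq : ∀ j : Fin K, (h + t j).Coprime D := by
    intro j
    have h1 : D ∣ t j := (hDQ.trans hQS).trans (hSt j)
    obtain ⟨w, hw⟩ := h1
    rw [hw]
    unfold Nat.Coprime
    rw [Nat.gcd_add_mul_left_left]
    exact hτ.cop
  have hcol : ∀ e : Fin M, K ≤ 2 * M * fib (fun z : Fin K => (⟨colour N M z, colour_lt hm z⟩ : Fin M)) e := by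
    intro e
    have h1 := fib_ge hm hNdef e
    have h2 : K < M * (N + 1) := by
      rw [hNdef]
      exact Nat.lt_mul_div_succ K hm
    have h3 : M * (N + 1) ≤ 2 * M * N := by nlinarith
    exact (h2.le.trans h3).trans (Nat.mul_le_mul_left _ h1)
  -- the counting argument
  by_contra hcon
  push Not at hcon
  have hfin := Firsts.finite T q a (1 / (8 * B) * H) H X
  obtain ⟨F, hF⟩ : ∃ F, F = hfin.toFinset := ⟨_, rfl⟩
  have hFcard : (F.card : ℝ) ≤ X ^ (4 / 5 : ℝ) := by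
    rw [Set.ncard_eq_toFinset_card _ hfin] at hcon
    rw [hF]
    exact hcon.le
  obtain ⟨bad, hbad⟩ : ∃ bad : Finset ℕ, bad = (range K).biUnion (fun z => F.image (fun x => x - t z)) := ⟨_, rfl⟩
  have hbadcard : (bad.card : ℝ) ≤ X ^ (7 / 8 : ℝ) := by
    have h1 : bad.card ≤ ∑ z ∈ range K, F.card := by
      rw [hbad]
      exact card_biUnion_le.trans (sum_le_sum fun z _ => card_image_le)
    rw [sum_const, card_range, smul_eq_mul] at h1
    have h2 : (bad.card : ℝ) ≤ K * F.card := by exact_mod_cast h1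
    have h4 : X ^ (7 / 8 : ℝ) = X ^ (3 / 40 : ℝ) * X ^ (4 / 5 : ℝ) := by
      rw [← Real.rpow_add hX0]; norm_num
    rw [h4]
    exact h2.trans (mul_le_mul hXK hFcard (Nat.cast_nonneg _) (by positivity))
  obtain ⟨n, hn1, hn2, hnbad, hnq, ⟨E, hE1, hE2⟩, hwin⟩ := hX 1 0 one_ne_zero (by simp) (by simp)
    (by simp only [Int.cast_zero, abs_zero]; positivity)
    (fun j : Fin K => t j) (fun i j h => by
      by_contra hne
      have hne' : (i : ℕ) ≠ j := fun h => hne (Fin.ext h)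
      have heq : t i = t j := h
      rcases lt_or_gt_of_ne hne' with h1 | h1
      · have := htmono i j h1 j.isLt; omega
      · have := htmono j i h1 i.isLt; omega)
    (fun j => (htup j j.isLt).trans (by
      have h1 := hff.1
      linarith)) hadm h hcopq _ hcol bad hbadcard
  -- the words of the colours in `E`
  obtain ⟨S', hS'⟩ : ∃ S' : Finset (Fin N' → Fin (k + 1)), S' = E.image (fun e => finFunctionFinEquiv.symm (Fin.cast hM e)) :=
    ⟨_, rfl⟩
  have hS'card : S'.card = E.card := by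
    rw [hS']
    apply card_image_of_injective
    intro e e' he
    have := finFunctionFinEquiv.symm.injective he
    exact Fin.cast_injective _ this
  have hbig : (k + 1 - 1) ^ N' < S'.card := by
    have h1 : ((k : ℝ)) ^ N' < E.card := by
      refine lt_of_lt_of_le hN' (le_trans (le_of_eq ?_) hE1)
      rw [hM]
      push_cast
      ring
    rw [Nat.add_sub_cancel, hS'card]
    exact_mod_cast h1
  obtain ⟨l, s, hs1, hs2, hs3⟩ := full_node N' S' hbig
  have hpos : ∀ i : Fin (k + 1), ∃ z, z < K ∧ word z = s i ∧ (n + t z).Prime ∧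
      (colour N M z : ℕ) = (finFunctionFinEquiv (s i) : ℕ) := by
    intro i
    have h1 := hs1 i
    rw [hS', mem_image] at h1
    obtain ⟨e, he, h2⟩ := h1
    obtain ⟨j, h3, h4⟩ := hE2 e he
    have h5 : colour N M (j : ℕ) = (e : ℕ) := by rw [← h3]
    have h6 : (⟨colour N M (j : ℕ), by rw [← hM]; exact colour_lt hm _⟩ : Fin ((k + 1) ^ N')) = Fin.cast hM e :=
      Fin.ext h5
    refine ⟨j, j.isLt, ?_, h4, ?_⟩
    · rw [← h2, ← h6]
    · rw [← h2, Equiv.apply_symm_apply, h5]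
      rfl
  choose z hz1 hz2 hz3 hz4 using hpos
  have hzmono : StrictMono z := by
    intro i j hij
    have h1 : finFunctionFinEquiv (s i) < finFunctionFinEquiv (s j) := by
      apply order (s i) (s j) l
      · rw [hs2, hs2]; exact hij
      · intro l' hl'
        exact hs3 i j l' hl'
    have h2 : colour N M (z i) < colour N M (z j) := by
      rw [hz4, hz4]
      exact h1
    by_contra hcon'
    push Not at hcon'
    have := colour_mono N M hcon'
    omega
  have hrel : ∀ i j, i < j → rel T (word (z i)) (word (z j)) = T i j := by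
    intro i j hij
    rw [hz2, hz2, rel_eq (s i) (s j) l (by rw [hs2, hs2]; exact hij.ne) (fun l' hl' => hs3 i j l' hl'), hs2, hs2]
  -- the primes near `n`
  have hprimes : ∀ p : ℕ, p.Prime → |(p : ℝ) - n| ≤ 2 * H → ∃ z < K, p = n + t z := by
    intro p hp hpn
    obtain ⟨l, hl⟩ := hwin 1 1 (by simp) (by simp) (by simp) (by simp) p hp (by
      push_cast
      rw [show (1 * (p : ℝ) - 1 * (1 * n + 0)) = p - n by ring]
      linarith)
    exact ⟨l, l.isLt, hl⟩
  have hnD : ∀ z, n + t z ≡ h [MOD D] := by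
    intro z
    have h1 : t z ≡ 0 [MOD D] := (Nat.modEq_zero_iff_dvd).2 ((hDQ.trans hQS).trans (hSt z))
    have := hnq.add h1
    rwa [add_zero] at this
  have hSX : (S : ℝ) < X := by
    have h1 : (S : ℝ) * 1 ≤ (S : ℝ) ^ 2 * B := by
      have h2 : (1 : ℝ) ≤ S := by exact_mod_cast hS0
      have h3 : (1 : ℝ) ≤ B := by
        rw [hB]
        push_cast
        have : (0 : ℝ) ≤ τ (K - 1) := Nat.cast_nonneg _
        linarith
      have h4 : (0 : ℝ) < S := by linarith
      nlinarith [mul_le_mul_of_nonneg_left h3 (by positivity : (0:ℝ) ≤ (S : ℝ) ^ 2)]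
    have h5 := hff.2.2
    linarith
  -- the symbols
  have hsym : ∀ z w, z < w → w < K → (n + t z).Prime → (n + t w).Prime →
      jacobiSym ((n + t w : ℕ) : ℤ) (n + t z) = rel T (word z) (word w) := by
    intro z w hzw hw hpz hpw
    obtain ⟨m, k1, k2, k3, k4⟩ := hτ.sym z w hzw hw
    have hτzw := hτ.mono z w hzw hw
    obtain ⟨p, hp⟩ : ∃ p, p = n + t z := ⟨_, rfl⟩
    rw [← hp] at hpz ⊢
    have hpodd : Odd p := by
      have h1 : p ≡ h [MOD D] := by rw [hp]; exact hnD z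
      have h2 : p ≡ h [MOD 2] := h1.of_dvd hτ.two
      have h3 : ¬ 2 ∣ h := Pool.Agent.H569.IL.ndvd_of_coprime Nat.prime_two hτ.two hτ.cop
      rw [Nat.odd_iff]
      have h4 : p % 2 = h % 2 := h2
      omega
    have hpS : Nat.Coprime S p := by
      rw [Nat.coprime_comm, Nat.Prime.coprime_iff_not_dvd hpz]
      intro hd
      have h1 := Nat.le_of_dvd hS0 hd
      have h2 : (p : ℝ) ≤ S := by exact_mod_cast h1
      have h3 : (n : ℝ) ≤ p := by rw [hp]; push_cast; linarith [Nat.cast_nonneg (α := ℝ) (t z)]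
      linarith
    have hp2 : Nat.Coprime 2 p := by
      rw [Nat.coprime_two_left]
      exact hpodd
    have e1 : ((n + t w : ℕ) : ℤ) = ((S : ℤ) * 2 ^ z) ^ 2 * (m : ℤ) + (p : ℤ) * 1 := by
      have h1 : τ w = τ z + 4 ^ z * m := by omega
      rw [hp]
      show ((n + S ^ 2 * τ w : ℕ) : ℤ) = ((S : ℤ) * 2 ^ z) ^ 2 * (m : ℤ) + ((n + S ^ 2 * τ z : ℕ) : ℤ) * 1
      rw [h1]
      push_cast
      have h2 : (4 : ℤ) ^ z = (2 ^ z) ^ 2 := by rw [← pow_mul, mul_comm, pow_mul]; norm_num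
      rw [h2]
      ring
    have e2 : jacobiSym ((n + t w : ℕ) : ℤ) p = jacobiSym (((S : ℤ) * 2 ^ z) ^ 2 * (m : ℤ)) p := by
      apply jacobiSym.mod_left'
      rw [e1, Int.add_mul_emod_self_left]
    have e3 : jacobiSym (((S : ℤ) * 2 ^ z) ^ 2) p = 1 := by
      apply jacobiSym.sq_one'
      have h1 : ((S : ℤ) * 2 ^ z) = ((S * 2 ^ z : ℕ) : ℤ) := by push_cast; ring
      rw [h1, Int.gcd_natCast_natCast]
      exact Nat.Coprime.mul_left hpS (hp2.pow_left z)
    rw [e2, jacobiSym.mul_left, e3, one_mul, jacobiSym.quadratic_reciprocity_one_mod_four k2 hpodd, ← k4]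
    apply jac_rad
    intro r hr hrm
    have h1 : p ≡ h [MOD r] := by rw [hp]; exact (hnD z).of_dvd (k3 r hr hrm)
    exact Int.natCast_modEq_iff.2 h1
  -- the chain
  have hchain : Chain T q a (1 / (8 * B) * H) H (fun i => n + t (z i)) := by
    have hκ : 1 / (8 * B) * H = H / (8 * B) := by ring
    have hκ1 : H / (8 * B) ≤ H / 8 := by
      apply div_le_div_of_nonneg_left hH0.le (by norm_num)
      have h3 : (1 : ℝ) ≤ B := by
        rw [hB]
        push_cast
        have : (0 : ℝ) ≤ τ (K - 1) := Nat.cast_nonneg _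
        linarith
      linarith
    have hx0 := htup (z 0) (hz1 0)
    have hy0 := htup (z (Fin.last k)) (hz1 _)
    have hx1 : (0 : ℝ) ≤ t (z 0) := Nat.cast_nonneg _
    refine ⟨fun i j hij => Nat.add_lt_add_left (htmono _ _ (hzmono hij) (hz1 j)) _, hz3, fun i j hij => ?_, ?_, ?_, ?_⟩
    · rw [hsym (z i) (z j) (hzmono hij) (hz1 j) (hz3 i) (hz3 j)]
      exact hrel i j hij
    · push_cast
      linarith
    · intro r hr hr0 hr1
      have e1 : (r : ℝ) ≤ n + t (z (Fin.last k)) := by exact_mod_cast hr1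
      have e2 : ((n : ℝ) + t (z 0)) ≤ r := by exact_mod_cast hr0
      obtain ⟨w, hw, hrw⟩ := hprimes r hr (by rw [abs_le]; constructor <;> linarith)
      rw [hrw]
      exact ((hnD w).of_dvd hτ.dq).trans hτ.res
    · intro r r' hr hr' hrr hr0 hr1
      rw [hκ]
      have e1 : (r : ℝ) ≤ n + t (z (Fin.last k)) := by exact_mod_cast hr0
      have e2 : ((n : ℝ) + t (z 0)) ≤ r' := by exact_mod_cast hr1
      by_cases h1 : (r' : ℝ) ≤ n + 2 * H
      · by_cases h2 : (n : ℝ) - 2 * H ≤ r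
        · have e4 : (r : ℝ) < r' := by exact_mod_cast hrr
          obtain ⟨w, hw, hrw⟩ := hprimes r hr (by rw [abs_le]; constructor <;> linarith)
          obtain ⟨w', hw', hrw'⟩ := hprimes r' hr' (by rw [abs_le]; constructor <;> linarith)
          have h3 : w < w' := htlt w w' hw hw' (by omega)
          have h4 := hspace w w' h3 hw'
          rw [hrw, hrw']
          push_cast
          linarith
        · push Not at h2
          linarith
      · push Not at h1
        linarith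
  -- contradiction
  apply hnbad
  rw [hbad, mem_biUnion]
  refine ⟨z 0, mem_range.2 (hz1 0), ?_⟩
  rw [mem_image]
  refine ⟨n + t (z 0), ?_, by omega⟩
  rw [hF, Set.Finite.mem_toFinset]
  refine ⟨?_, ?_, _, rfl, hchain⟩
  · push_cast
    have := Nat.cast_nonneg (α := ℝ) (t (z 0))
    linarith
  · push_cast
    have h1 := hff.2.2
    have h2 := htup (z 0) (hz1 0)
    linarith

end Pool.Agent.H569.RT
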