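import Pool.Agent.H569.SP9

/-!
# One distance for all sign patterns

Fixed differences `y`: from small correlations to all sign patterns.
-/

set_option autoImplicit false

open Finset

namespace Pool.Agent.H569.SP

/-- the number of the points with a pattern, by characters -/
theorem count_eqI {ι J : Type} [Fintype J] [DecidableEq J] (Z : Finset ι) (v : ι → J → ZMod 2)
    (τ : J → ZMod 2) :
    (2 : ℝ) ^ Fintype.card J * ((Z.filter (fun z => ∀ j, v z j = τ j)).card : ℝ) =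
      ∑ E : Finset J, sg (∑ j ∈ E, τ j) * ∑ z ∈ Z, ∏ j ∈ E, sg (v z j) := by
  have h1 : ∀ z, ∏ j, (1 + sg (v z j) * sg (τ j)) =
      if (∀ j, v z j = τ j) then (2 : ℝ) ^ Fintype.card J else 0 := by
    intro z
    split_ifs with h
    · have : ∀ j, 1 + sg (v z j) * sg (τ j) = 2 := by
        intro j
        rw [h j, ← sg_add]
        have : τ j + τ j = 0 := by
          rcases two_cases (τ j) with h | h <;> rw [h]
          · rfl
          · rfl
        rw [this, sg_zero]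
        norm_num
      rw [prod_congr rfl fun j _ => this j, prod_const, card_univ]
    · push Not at h
      obtain ⟨j, hj⟩ := h
      refine prod_eq_zero (mem_univ j) ?_
      rcases two_cases (v z j) with h1 | h1 <;> rcases two_cases (τ j) with h2 | h2
      · exact absurd (h1.trans h2.symm) hj
      · rw [h1, h2, sg_zero, sg_one]; norm_num
      · rw [h1, h2, sg_zero, sg_one]; norm_num
      · exact absurd (h1.trans h2.symm) hj
  have h2 : (2 : ℝ) ^ Fintype.card J * ((Z.filter (fun z => ∀ j, v z j = τ j)).card : ℝ) =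
      ∑ z ∈ Z, ∏ j, (1 + sg (v z j) * sg (τ j)) := by
    rw [sum_congr rfl fun z _ => h1 z, ← sum_filter, sum_const, nsmul_eq_mul, mul_comm]
  rw [h2]
  have h3 : ∀ z, ∏ j, (1 + sg (v z j) * sg (τ j)) =
      ∑ E : Finset J, ∏ j ∈ E, (sg (v z j) * sg (τ j)) := by
    intro z
    rw [Finset.prod_one_add, Finset.powerset_univ]
  rw [sum_congr rfl fun z _ => h3 z, sum_comm]
  refine sum_congr rfl fun E _ => ?_
  rw [mul_sum]
  refine sum_congr rfl fun z _ => ?_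
  rw [prod_mul_distrib, sg_sum, mul_comm]

/-- few differences with a large correlation -/
theorem few_bad {I Y : Type} [Fintype I] [DecidableEq I] (YS : Finset Y) (P : Finset I → Prop)
    (Sm : Finset I → Y → ℝ) (X ε η : ℝ) (hX : 0 < X) (hη : 0 < η)
    (hmom : ∀ E, P E → ∑ y ∈ YS, (Sm E y) ^ 2 ≤ ε * (X ^ 2 * YS.card)) (hε : 0 ≤ ε)
    (Bad : Finset Y) (hBad : Bad ⊆ YS) (hB : ∀ y ∈ Bad, ∃ E, P E ∧ η * X < |Sm E y|) :
    (Bad.card : ℝ) ≤ 2 ^ Fintype.card I * (ε / η ^ 2) * YS.card := by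
  classical
  have h1 : Bad ⊆ ((univ : Finset (Finset I)).filter P).biUnion
      (fun E => Bad.filter (fun y => η * X < |Sm E y|)) := by
    intro y hy
    obtain ⟨E, hE, h⟩ := hB y hy
    rw [mem_biUnion]
    exact ⟨E, mem_filter.2 ⟨mem_univ _, hE⟩, mem_filter.2 ⟨hy, h⟩⟩
  have h2 : ∀ E ∈ (univ : Finset (Finset I)).filter P,
      ((Bad.filter (fun y => η * X < |Sm E y|)).card : ℝ) ≤ ε / η ^ 2 * YS.card := by
    intro E hE
    have hE' := (mem_filter.1 hE).2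
    have h3 : ((Bad.filter (fun y => η * X < |Sm E y|)).card : ℝ) * (η * X) ^ 2 ≤
        ∑ y ∈ YS, (Sm E y) ^ 2 := by
      calc ((Bad.filter (fun y => η * X < |Sm E y|)).card : ℝ) * (η * X) ^ 2
          = ∑ y ∈ Bad.filter (fun y => η * X < |Sm E y|), (η * X) ^ 2 := by
            rw [sum_const, nsmul_eq_mul]
        _ ≤ ∑ y ∈ Bad.filter (fun y => η * X < |Sm E y|), (Sm E y) ^ 2 := by
            refine sum_le_sum fun y hy => ?_
            rw [← sq_abs (Sm E y)]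
            exact pow_le_pow_left₀ (by positivity) (mem_filter.1 hy).2.le 2
        _ ≤ _ := sum_le_sum_of_subset_of_nonneg ((filter_subset _ _).trans hBad)
            fun y _ _ => sq_nonneg _
    have h4 := h3.trans (hmom E hE')
    have h5 : ((Bad.filter (fun y => η * X < |Sm E y|)).card : ℝ) * η ^ 2 ≤ ε * YS.card := by
      have h6 : ((Bad.filter (fun y => η * X < |Sm E y|)).card : ℝ) * η ^ 2 * X ^ 2 ≤
          ε * YS.card * X ^ 2 := by
        calc _ = ((Bad.filter (fun y => η * X < |Sm E y|)).card : ℝ) * (η * X) ^ 2 := by ring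
          _ ≤ _ := h4
          _ = _ := by ring
      exact le_of_mul_le_mul_right h6 (by positivity)
    rw [div_mul_eq_mul_div, le_div_iff₀ (by positivity)]
    exact h5
  calc (Bad.card : ℝ) ≤ ((((univ : Finset (Finset I)).filter P).biUnion
      (fun E => Bad.filter (fun y => η * X < |Sm E y|))).card : ℝ) := by
        exact_mod_cast card_le_card h1
    _ ≤ ∑ E ∈ (univ : Finset (Finset I)).filter P,
        ((Bad.filter (fun y => η * X < |Sm E y|)).card : ℝ) := by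
        exact_mod_cast card_biUnion_le
    _ ≤ ∑ E ∈ (univ : Finset (Finset I)).filter P, ε / η ^ 2 * YS.card := sum_le_sum h2
    _ = (((univ : Finset (Finset I)).filter P).card : ℝ) * (ε / η ^ 2 * YS.card) := by
        rw [sum_const, nsmul_eq_mul]
    _ ≤ 2 ^ Fintype.card I * (ε / η ^ 2 * YS.card) := by
        refine mul_le_mul_of_nonneg_right ?_ (by positivity)
        have h7 := card_le_card (filter_subset P (univ : Finset (Finset I)))
        rw [card_univ, Fintype.card_finset] at h7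
        exact_mod_cast h7
    _ = _ := by ring

/-- equidistribution of the pairs for one `y` -/
theorem all_of_small {ι J : Type} [Fintype J] [DecidableEq J] (Z : Finset ι) (v : ι → J → ZMod 2)
    (h : ∀ E : Finset J, E.Nonempty →
      |∑ z ∈ Z, ∏ j ∈ E, sg (v z j)| ≤ 1 / (2 * 2 ^ Fintype.card J) * Z.card) (τ : J → ZMod 2) :
    1 / (2 * 2 ^ Fintype.card J) * (Z.card : ℝ) ≤
      ((Z.filter (fun z => ∀ j, v z j = τ j)).card : ℝ) := by
  have h1 := count_eqI Z v τ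
  have h2 : (Z.card : ℝ) - ∑ E : Finset J, 1 / (2 * 2 ^ Fintype.card J) * (Z.card : ℝ) ≤
      ∑ E : Finset J, sg (∑ j ∈ E, τ j) * ∑ z ∈ Z, ∏ j ∈ E, sg (v z j) := by
    rw [← Finset.add_sum_erase univ (fun E : Finset J => sg (∑ j ∈ E, τ j) *
      ∑ z ∈ Z, ∏ j ∈ E, sg (v z j)) (mem_univ ∅)]
    have h3 : sg (∑ j ∈ (∅ : Finset J), τ j) * ∑ z ∈ Z, ∏ j ∈ (∅ : Finset J), sg (v z j) =
        Z.card := by
      simp [sg]
    rw [h3]
    have h4 : -∑ E : Finset J, 1 / (2 * 2 ^ Fintype.card J) * (Z.card : ℝ) ≤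
        ∑ E ∈ (univ : Finset (Finset J)).erase ∅, sg (∑ j ∈ E, τ j) *
          ∑ z ∈ Z, ∏ j ∈ E, sg (v z j) := by
      calc -∑ E : Finset J, 1 / (2 * 2 ^ Fintype.card J) * (Z.card : ℝ)
          ≤ -∑ E ∈ (univ : Finset (Finset J)).erase ∅,
              1 / (2 * 2 ^ Fintype.card J) * (Z.card : ℝ) := by
            refine neg_le_neg ?_
            exact sum_le_sum_of_subset_of_nonneg (erase_subset _ _) fun _ _ _ => by positivity
        _ = ∑ E ∈ (univ : Finset (Finset J)).erase ∅,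
              -(1 / (2 * 2 ^ Fintype.card J) * (Z.card : ℝ)) := by rw [sum_neg_distrib]
        _ ≤ _ := by
            refine sum_le_sum fun E hE => ?_
            have hne : E.Nonempty := nonempty_iff_ne_empty.2 (mem_erase.1 hE).1
            have h5 := h E hne
            have h6 : |sg (∑ j ∈ E, τ j) * ∑ z ∈ Z, ∏ j ∈ E, sg (v z j)| ≤
                1 / (2 * 2 ^ Fintype.card J) * (Z.card : ℝ) := by
              rw [abs_mul, sg_abs, one_mul]
              exact h5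
            exact (abs_le.1 h6).1
    linarith
  rw [sum_const, card_univ, Fintype.card_finset, nsmul_eq_mul] at h2
  push_cast at h2
  rw [← h1] at h2
  have hp : (0 : ℝ) < 2 ^ Fintype.card J := by positivity
  have h7 : (2 : ℝ) ^ Fintype.card J * (1 / (2 * 2 ^ Fintype.card J) * (Z.card : ℝ)) =
      Z.card / 2 := by
    field_simp
  have h8 : (2 : ℝ) ^ Fintype.card J * (1 / (2 * 2 ^ Fintype.card J) * (Z.card : ℝ)) ≤
      2 ^ Fintype.card J * ((Z.filter (fun z => ∀ j, v z j = τ j)).card : ℝ) := by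
    rw [h7]
    rw [h7] at h2
    linarith
  exact le_of_mul_le_mul_left h8 hp

/-- the combinatorial step for one `y` -/
theorem lemL (a : ℕ) (b : ℤ) (H D : Finset ℕ) (s e : ℕ) {r S M : ℕ}
    (hDs : ∀ (γ : ℕ → ZMod 2) (n : ℕ), ∑ d ∈ D, ∑ h ∈ H, γ (n + d + h) = γ (n + s) + γ (n + s + e))
    (Φ : Finset (Fin r → ℕ))
    (hcomb : ∀ α : ((Fin r → Fin S) → ZMod 2) → ((Fin r → Fin S) × ↥D) → ZMod 2,
      (∀ δ ψ, ∑ d, α δ (ψ, d) = δ ψ) →
      ∃ (x : Fin r → ℕ) (ρ : ℕ) (d₀ : ↥D), 0 < ρ ∧ ρ ≤ M ∧ (∀ t, x t < S) ∧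
        ∀ τ : (Fin r → ℕ) → ZMod 2, ∃ δ, ∀ φ ∈ Φ, ∃ ψ : Fin r → Fin S,
          (∀ t, (ψ t : ℕ) = x t + ρ * φ t) ∧ α δ (ψ, d₀) = τ φ)
    (y : Fin r → ℕ) (B : ℕ) (hDB : D.sup id ≤ B) (hyB : ∀ t, y t ≤ B) (hB0 : 0 < B) (c₀ : ℝ)
    (hc₀ : 0 < c₀)
    (hcnt : ∀ δ : (Fin r → Fin S) → ZMod 2, c₀ * B ≤ (((Icc 1 B).filter (fun n =>
      ∀ ψ : Fin r → Fin S, gg a b (n + ∑ t, (ψ t : ℕ) * y t + s) = 0 ∧
        gg a b (n + ∑ t, (ψ t : ℕ) * y t + (s + e)) = δ ψ)).card : ℝ)) :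
    ∃ ρ : ℕ, 0 < ρ ∧ ρ ≤ M ∧ ∀ τ : (Fin r → ℕ) → ZMod 2,
      c₀ / (univ : Finset ((Fin r → Fin S) × ↥D → ZMod 2)).card * B ≤
      (((Icc 1 ((2 + r * S) * B)).filter (fun n => ∀ φ ∈ Φ,
        ∑ h ∈ H, gg a b (n + ∑ t, φ t * (ρ * y t) + h) = τ φ)).card : ℝ) := by
  classical
  obtain ⟨L, hL⟩ : ∃ L, L = (univ : Finset ((Fin r → Fin S) × ↥D → ZMod 2)).card := ⟨_, rfl⟩
  have hL0 : 0 < L := by rw [hL]; exact card_pos.2 ⟨0, mem_univ _⟩
  rw [← hL]
  set lift : ℕ → (Fin r → Fin S) × ↥D → ZMod 2 := fun n q =>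
    ∑ h ∈ H, gg a b (n + ∑ t, (q.1 t : ℕ) * y t + (q.2 : ℕ) + h) with hlift
  have key : ∀ δ : (Fin r → Fin S) → ZMod 2, ∃ α : (Fin r → Fin S) × ↥D → ZMod 2,
      (c₀ / L * B ≤ (((Icc 1 B).filter (fun n => lift n = α)).card : ℝ)) ∧
      ∀ ψ, ∑ d, α (ψ, d) = δ ψ := by
    intro δ
    set G : Finset ℕ := (Icc 1 B).filter (fun n =>
      ∀ ψ : Fin r → Fin S, gg a b (n + ∑ t, (ψ t : ℕ) * y t + s) = 0 ∧
        gg a b (n + ∑ t, (ψ t : ℕ) * y t + (s + e)) = δ ψ) with hG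
    have h5 : c₀ * B ≤ G.card := hcnt δ
    obtain ⟨α, -, hα⟩ := Finset.exists_le_card_fiber_of_nsmul_le_card_of_maps_to
      (s := G) (t := (univ : Finset ((Fin r → Fin S) × ↥D → ZMod 2))) (f := lift)
      (b := c₀ / L * B) (fun _ _ => mem_univ _) ⟨0, mem_univ _⟩ (by
        rw [← hL, nsmul_eq_mul]
        refine le_trans (le_of_eq ?_) h5
        have : (L : ℝ) ≠ 0 := by positivity
        field_simp)
    refine ⟨α, hα.trans ?_, fun ψ => ?_⟩
    · exact_mod_cast card_le_card (filter_subset_filter _ (filter_subset _ _))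
    · have h6 : (0 : ℝ) < ((G.filter (fun n => lift n = α)).card : ℝ) :=
        lt_of_lt_of_le (by positivity) hα
      obtain ⟨n, hn⟩ := card_pos.1 (by exact_mod_cast h6)
      rw [mem_filter, hG, mem_filter] at hn
      obtain ⟨⟨hn1, hn2⟩, hn3⟩ := hn
      have e1 := hn2 ψ
      have e4 : ∑ d : ↥D, α (ψ, d) =
          ∑ d ∈ D, ∑ h ∈ H, gg a b (n + ∑ t, (ψ t : ℕ) * y t + d + h) := by
        rw [← hn3, ← Finset.sum_coe_sort D]
      rw [e4, hDs (gg a b) (n + ∑ t, (ψ t : ℕ) * y t), e1.1, zero_add, add_assoc]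
      exact e1.2
  choose α hα1 hα2 using key
  obtain ⟨x, ρ, d₀, hρ, hρM, hxS, hτ⟩ := hcomb α hα2
  refine ⟨ρ, hρ, hρM, fun τ => ?_⟩
  obtain ⟨δ, hδ⟩ := hτ τ
  refine (hα1 δ).trans ?_
  have hcard : ((Icc 1 B).filter (fun n => lift n = α δ)).card ≤
      ((Icc 1 ((2 + r * S) * B)).filter (fun n => ∀ φ ∈ Φ,
        ∑ h ∈ H, gg a b (n + ∑ t, φ t * (ρ * y t) + h) = τ φ)).card := by
    refine card_le_card_of_injOn (fun n => n + ∑ t : Fin r, x t * y t + d₀) ?_ ?_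
    · intro n hn
      rw [mem_coe, mem_filter, mem_Icc] at hn
      obtain ⟨hn1, hn2⟩ := hn
      have hd₀ : (d₀ : ℕ) ≤ D.sup id := Finset.le_sup (f := id) d₀.2
      have hsum : ∑ t : Fin r, x t * y t ≤ r * S * B := by
        calc ∑ t : Fin r, x t * y t ≤ ∑ t : Fin r, S * B :=
              sum_le_sum fun t _ => Nat.mul_le_mul (hxS t).le (hyB t)
          _ = r * S * B := by rw [sum_const, card_univ, Fintype.card_fin, smul_eq_mul, mul_assoc]
      rw [mem_coe, mem_filter, mem_Icc]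
      refine ⟨⟨by simp only; omega, ?_⟩, fun φ hφ => ?_⟩
      · simp only
        have e1 : (2 + r * S) * B = B + B + r * S * B := by ring
        omega
      · obtain ⟨ψ, hψ1, hψ2⟩ := hδ φ hφ
        simp only
        rw [← hψ2, ← hn2, hlift]
        simp only
        refine sum_congr rfl fun h _ => ?_
        congr 1
        have e1 : ∑ t : Fin r, (ψ t : ℕ) * y t = ∑ t : Fin r, x t * y t +
            ∑ t : Fin r, φ t * (ρ * y t) := by
          rw [← sum_add_distrib]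
          refine sum_congr rfl fun t _ => ?_
          rw [hψ1 t]
          ring
        rw [e1]
        ring
    · intro n _ n' _ h
      simp only at h
      omega
  exact_mod_cast hcard

/-- comparison of the patterns with the same row sums, for one `y` -/
theorem lemR {ι : Type} (Z : Finset ι) (H : Finset ℕ) {r : ℕ} (Φ : Finset (Fin r → ℕ))
    (v : ι → ↥Φ × ↥H → ZMod 2) (X c₁ : ℝ) (hc₁ : 0 < c₁)
    (hcor : ∀ E : Finset (↥Φ × ↥H), (∃ i₀ ∈ E, ∃ j, j.1 = i₀.1 ∧ j ∉ E) →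
      |∑ z ∈ Z, ∏ j ∈ E, sg (v z j)| ≤ c₁ / (4 * 2 ^ Fintype.card (↥Φ × ↥H)) * X)
    (hP : ∀ τ : ↥Φ → ZMod 2, c₁ * X ≤
      ((Z.filter (fun z => ∀ φ : ↥Φ, ∑ h : ↥H, v z (φ, h) = τ φ)).card : ℝ)) (hX0 : 0 < X)
    (σ : ↥Φ × ↥H → ZMod 2) :
    c₁ / (2 * 2 ^ Fintype.card (↥Φ × ↥H)) * X ≤
      ((Z.filter (fun z => ∀ j, v z j = σ j)).card : ℝ) := by
  classical
  obtain ⟨K, hK⟩ : ∃ K, K = Fintype.card (↥Φ × ↥H) := ⟨_, rfl⟩
  rw [← hK] at hcor ⊢
  have hsplit : ∀ (E : Finset (↥Φ × ↥H)) (τ : ↥Φ × ↥H → ZMod 2),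
      ∑ j ∈ E, τ j = ∑ φ : ↥Φ, ∑ j ∈ E.filter (fun j => j.1 = φ), τ j := by
    intro E τ
    rw [Finset.sum_fiberwise]
  have hsum : ∀ (τ τ' : ↥Φ × ↥H → ZMod 2), (∀ φ : ↥Φ, ∑ h : ↥H, τ (φ, h) = ∑ h : ↥H, τ' (φ, h)) →
      ∀ E : Finset (↥Φ × ↥H), ¬ (∃ i₀ ∈ E, ∃ j, j.1 = i₀.1 ∧ j ∉ E) →
      ∑ j ∈ E, τ j = ∑ j ∈ E, τ' j := by
    intro τ τ' hττ E hE
    push Not at hE
    rw [hsplit E τ, hsplit E τ']
    refine sum_congr rfl fun φ _ => ?_
    by_cases h2 : ∃ i₀ ∈ E, i₀.1 = φ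
    · obtain ⟨i₀, hi₀, rfl⟩ := h2
      have h3 : E.filter (fun j => j.1 = i₀.1) =
          (univ : Finset ↥H).map ⟨fun h => (i₀.1, h), fun h h' hh => (Prod.ext_iff.1 hh).2⟩ := by
        ext j
        rw [mem_filter, mem_map]
        constructor
        · rintro ⟨-, h⟩
          exact ⟨j.2, mem_univ _, Prod.ext h.symm rfl⟩
        · rintro ⟨h, -, rfl⟩
          exact ⟨hE i₀ hi₀ _ rfl, rfl⟩
      rw [h3, Finset.sum_map, Finset.sum_map]
      exact hττ i₀.1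
    · have h3 : E.filter (fun j => j.1 = φ) = ∅ := by
        rw [filter_eq_empty_iff]
        intro j hj h
        exact h2 ⟨j, hj, h⟩
      rw [h3, sum_empty, sum_empty]
  have hcmp : ∀ τ τ' : ↥Φ × ↥H → ZMod 2,
      (∀ φ : ↥Φ, ∑ h : ↥H, τ (φ, h) = ∑ h : ↥H, τ' (φ, h)) →
      ((Z.filter (fun z => ∀ j, v z j = τ' j)).card : ℝ) - c₁ / (2 * 2 ^ K) * X ≤
        ((Z.filter (fun z => ∀ j, v z j = τ j)).card : ℝ) := by
    intro τ τ' hττ
    have h1 := count_eqI Z v τ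
    have h2 := count_eqI Z v τ'
    rw [← hK] at h1 h2
    have h3 : ∑ E : Finset (↥Φ × ↥H), sg (∑ j ∈ E, τ' j) * ∑ z ∈ Z, ∏ j ∈ E, sg (v z j) -
        ∑ E : Finset (↥Φ × ↥H), sg (∑ j ∈ E, τ j) * ∑ z ∈ Z, ∏ j ∈ E, sg (v z j) ≤
        ∑ E : Finset (↥Φ × ↥H), c₁ / (2 * 2 ^ K) * X := by
      rw [← sum_sub_distrib]
      refine sum_le_sum fun E _ => ?_
      by_cases hE : ∃ i₀ ∈ E, ∃ j, j.1 = i₀.1 ∧ j ∉ E
      · rw [← sub_mul]
        calc (sg (∑ j ∈ E, τ' j) - sg (∑ j ∈ E, τ j)) * ∑ z ∈ Z, ∏ j ∈ E, sg (v z j)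
            ≤ |(sg (∑ j ∈ E, τ' j) - sg (∑ j ∈ E, τ j)) * ∑ z ∈ Z, ∏ j ∈ E, sg (v z j)| :=
              le_abs_self _
          _ = |sg (∑ j ∈ E, τ' j) - sg (∑ j ∈ E, τ j)| *
              |∑ z ∈ Z, ∏ j ∈ E, sg (v z j)| := abs_mul _ _
          _ ≤ 2 * (c₁ / (4 * 2 ^ K) * X) := by
              refine mul_le_mul ?_ (hcor E hE) (abs_nonneg _) (by norm_num)
              refine (abs_sub _ _).trans ?_
              rw [sg_abs, sg_abs]
              norm_num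
          _ = c₁ / (2 * 2 ^ K) * X := by ring
      · rw [hsum τ τ' hττ E hE, sub_self]
        positivity
    rw [← h1, ← h2, sum_const, card_univ, Fintype.card_finset, ← hK, nsmul_eq_mul] at h3
    push_cast at h3
    have h4 : (0 : ℝ) < 2 ^ K := by positivity
    have h5 : (2 : ℝ) ^ K * (((Z.filter (fun z => ∀ j, v z j = τ' j)).card : ℝ) -
        c₁ / (2 * 2 ^ K) * X) ≤
        2 ^ K * ((Z.filter (fun z => ∀ j, v z j = τ j)).card : ℝ) := by
      rw [mul_sub]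
      linarith
    exact le_of_mul_le_mul_left h5 h4
  -- a popular pattern with the right products
  have h1 := hP (fun φ => ∑ h : ↥H, σ (φ, h))
  have hL : (univ : Finset (↥Φ × ↥H → ZMod 2)).card = 2 ^ K := by
    rw [card_univ, Fintype.card_fun, ← hK]
    simp [ZMod.card]
  obtain ⟨τ', -, hτ'⟩ := Finset.exists_le_card_fiber_of_nsmul_le_card_of_maps_to
    (s := Z.filter (fun z => ∀ φ : ↥Φ, ∑ h : ↥H, v z (φ, h) = ∑ h : ↥H, σ (φ, h)))
    (t := (univ : Finset (↥Φ × ↥H → ZMod 2))) (f := v)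
    (b := c₁ / 2 ^ K * X) (fun _ _ => mem_univ _) ⟨0, mem_univ _⟩ (by
      rw [hL, nsmul_eq_mul]
      refine le_trans (le_of_eq ?_) h1
      push_cast
      field_simp)
  have h2 : (0 : ℝ) < (((Z.filter (fun z => ∀ φ : ↥Φ, ∑ h : ↥H, v z (φ, h) =
      ∑ h : ↥H, σ (φ, h))).filter (fun z => v z = τ')).card : ℝ) :=
    lt_of_lt_of_le (by positivity) hτ'
  obtain ⟨z₀, hz₀⟩ := card_pos.1 (by exact_mod_cast h2)
  rw [mem_filter, mem_filter] at hz₀
  obtain ⟨⟨-, hz₁⟩, hz₂⟩ := hz₀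
  have h3 : c₁ / 2 ^ K * X ≤ ((Z.filter (fun z => ∀ j, v z j = τ' j)).card : ℝ) := by
    refine hτ'.trans ?_
    have : (Z.filter (fun z => ∀ φ : ↥Φ, ∑ h : ↥H, v z (φ, h) =
        ∑ h : ↥H, σ (φ, h))).filter (fun z => v z = τ') ⊆
        Z.filter (fun z => ∀ j, v z j = τ' j) := by
      intro z hz
      rw [mem_filter, mem_filter] at hz
      rw [mem_filter]
      exact ⟨hz.1.1, fun j => congrFun hz.2 j⟩
    exact_mod_cast card_le_card this
  have h4 := hcmp σ τ' (fun φ => by rw [← hz₂]; exact (hz₁ φ).symm)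
  refine le_trans ?_ h4
  have : c₁ / (2 * 2 ^ K) * X = c₁ / 2 ^ K * X - c₁ / (2 * 2 ^ K) * X := by
    field_simp
    ring
  linarith

end Pool.Agent.H569.SP
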