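import Pool.Agent.H569.SP10

/-!
# Rows of four points: all sign patterns for one and the same difference

For a positive proportion of the `y` all sign patterns on the rows `n + φ · y + h` occur for a
positive proportion of the `n`.
-/

set_option autoImplicit false

open Finset

namespace Pool.Agent.H569.SP

/-- the vectors of the joint system -/
def psi {r S : ℕ} (Φ : Finset (Fin r → ℕ)) (H : Finset ℕ) :
    (((Fin r → Fin S) × Bool) ⊕ (↥Φ × ↥H)) → Fin r → ℕ :=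
  Sum.elim (fun q t => (q.1 t : ℕ)) (fun q => q.1.1)

/-- the shifts of the joint system -/
def shf {r S : ℕ} (Φ : Finset (Fin r → ℕ)) (H : Finset ℕ) (s e : ℕ) :
    (((Fin r → Fin S) × Bool) ⊕ (↥Φ × ↥H)) → ℕ :=
  Sum.elim (fun q => s + if q.2 then e else 0) (fun q => q.2.1)

theorem good_left {r S : ℕ} (s e : ℕ) (he : 1 ≤ e) (E : Finset ((Fin r → Fin S) × Bool))
    (hE : E.Nonempty) : GoodI (fun q : (Fin r → Fin S) × Bool => fun t => (q.1 t : ℕ))
      (fun q => s + if q.2 then e else 0) E := by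
  classical
  obtain ⟨i₀, hi₀⟩ := hE
  refine ⟨i₀, hi₀, ?_⟩
  have h1 : ∀ j : (Fin r → Fin S) × Bool, (fun t => (j.1 t : ℕ)) = (fun t => (i₀.1 t : ℕ)) →
      j.1 = i₀.1 := by
    intro j hj
    funext t
    exact Fin.ext (congrFun hj t)
  have h2 : (E.filter (fun j => (fun t => (j.1 t : ℕ)) = (fun t => (i₀.1 t : ℕ)))).card ≤ 2 := by
    have h3 : (E.filter (fun j => (fun t => (j.1 t : ℕ)) = (fun t => (i₀.1 t : ℕ)))).card ≤
        (univ : Finset Bool).card := by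
      refine card_le_card_of_injOn (fun i => i.2) (fun _ _ => mem_coe.2 (mem_univ _)) ?_
      intro i hi j hj hij
      have hi' := h1 i (mem_filter.1 hi).2
      have hj' := h1 j (mem_filter.1 hj).2
      exact Prod.ext (hi'.trans hj'.symm) hij
    rwa [card_univ, Fintype.card_bool] at h3
  have h4 : 0 < (E.filter (fun j => (fun t => (j.1 t : ℕ)) = (fun t => (i₀.1 t : ℕ)))).card :=
    card_pos.2 ⟨i₀, mem_filter.2 ⟨hi₀, rfl⟩⟩
  obtain ⟨m, hm⟩ : ∃ m, m = (E.filter (fun j => (fun t => (j.1 t : ℕ)) =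
    (fun t => (i₀.1 t : ℕ)))).card := ⟨_, rfl⟩
  rw [← hm] at h2 h4
  rcases (show m = 1 ∨ m = 2 by omega) with h5 | h5
  · left
    show Odd (E.filter (fun j => (fun t => (j.1 t : ℕ)) = (fun t => (i₀.1 t : ℕ)))).card
    rw [← hm, h5]
    exact odd_one
  · right
    refine ⟨by rw [← hm]; exact h5, ?_⟩
    obtain ⟨j, hj, hne⟩ : ∃ j ∈ E.filter (fun j => (fun t => (j.1 t : ℕ)) =
        (fun t => (i₀.1 t : ℕ))), j ≠ i₀ := by
      refine Finset.exists_mem_ne (by omega) i₀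
    have hj' := mem_filter.1 hj
    refine ⟨j, hj'.1, hj'.2, ?_⟩
    have h6 : j.2 ≠ i₀.2 := fun h => hne (Prod.ext (h1 j hj'.2) h)
    show (s + if j.2 then e else 0) ≠ s + if i₀.2 then e else 0
    intro h7
    cases hj2 : j.2 <;> cases hi2 : i₀.2 <;> rw [hj2, hi2] at h6 h7
    · exact h6 rfl
    · simp at h7; omega
    · simp at h7; omega
    · exact h6 rfl

theorem good_right {r : ℕ} (Φ : Finset (Fin r → ℕ)) (H : Finset ℕ) (hH : H.card = 4)
    (E : Finset (↥Φ × ↥H)) (hE : ∃ i₀ ∈ E, ∃ j, j.1 = i₀.1 ∧ j ∉ E) :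
    GoodI (fun q : ↥Φ × ↥H => q.1.1) (fun q => q.2.1) E := by
  classical
  obtain ⟨i₀, hi₀, j₀, hj₀, hj₀E⟩ := hE
  refine ⟨i₀, hi₀, ?_⟩
  obtain ⟨m, hm⟩ : ∃ m, m = (E.filter (fun j => (j.1.1 : Fin r → ℕ) = i₀.1.1)).card := ⟨_, rfl⟩
  have h4 : 0 < m := by rw [hm]; exact card_pos.2 ⟨i₀, mem_filter.2 ⟨hi₀, rfl⟩⟩
  have h3 : m ≤ 3 := by
    have h5 : m ≤ ((univ : Finset ↥H).erase j₀.2).card := by
      rw [hm]
      refine card_le_card_of_injOn (fun i => i.2) ?_ ?_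
      · intro i hi
        rw [mem_coe, mem_filter] at hi
        rw [mem_coe, mem_erase]
        refine ⟨?_, mem_univ _⟩
        simp only
        intro h
        apply hj₀E
        have : i = j₀ := Prod.ext ((Subtype.ext hi.2).trans hj₀.symm) h
        rw [← this]
        exact hi.1
      · intro i hi j hj hij
        rw [mem_coe, mem_filter] at hi hj
        exact Prod.ext (Subtype.ext (hi.2.trans hj.2.symm)) hij
    rw [card_erase_of_mem (mem_univ _), card_univ, Fintype.card_coe, hH] at h5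
    exact h5
  rcases (show m = 1 ∨ m = 2 ∨ m = 3 by omega) with h5 | h5 | h5
  · left
    show Odd (E.filter (fun j => (j.1.1 : Fin r → ℕ) = i₀.1.1)).card
    rw [← hm, h5]
    exact odd_one
  · right
    refine ⟨by rw [← hm]; exact h5, ?_⟩
    obtain ⟨j, hj, hne⟩ : ∃ j ∈ E.filter (fun j => (j.1.1 : Fin r → ℕ) = i₀.1.1), j ≠ i₀ := by
      refine Finset.exists_mem_ne (by omega) i₀
    have hj' := mem_filter.1 hj
    refine ⟨j, hj'.1, hj'.2, fun h => hne ?_⟩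
    exact Prod.ext (Subtype.ext hj'.2) (Subtype.ext h)
  · left
    show Odd (E.filter (fun j => (j.1.1 : Fin r → ℕ) = i₀.1.1)).card
    rw [← hm, h5]
    decide

theorem rows_full (a : ℕ) (ha : 0 < a) (b : ℤ) (H : Finset ℕ) (hH : H.card = 4) (r : ℕ)
    (hr : 0 < r) (Φ : Finset (Fin r → ℕ)) : ∃ c : ℝ, 0 < c ∧ ∃ N₀ : ℕ, ∀ N : ℕ, N₀ ≤ N →
      ∃ Y : Finset (Fin r → ℕ), (∀ y ∈ Y, ∀ t, 1 ≤ y t ∧ y t ≤ N) ∧ c * (N : ℝ) ^ r ≤ Y.card ∧
        ∀ y ∈ Y, ∀ σ : (Fin r → ℕ) → ℕ → ZMod 2, c * (N : ℝ) ≤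
          (((Icc 1 N).filter (fun n => ∀ φ ∈ Φ, ∀ h ∈ H,
            gg a b (n + ∑ t, φ t * y t + h) = σ φ h)).card : ℝ) := by
  classical
  have hHne : H.Nonempty := by
    rw [← card_pos]; omega
  obtain ⟨D, s, e, hD, he, hDs⟩ := exists_D H hHne
  obtain ⟨S, M, hS, hcomb⟩ := comb r hr Φ D.card (card_pos.2 hD)
  have hcombD := hcomb ↥D (Fintype.card_coe D)
  obtain ⟨K1, hK1⟩ : ∃ K, K = Fintype.card ((Fin r → Fin S) × Bool) := ⟨_, rfl⟩
  obtain ⟨K2, hK2⟩ : ∃ K, K = Fintype.card (↥Φ × ↥H) := ⟨_, rfl⟩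
  obtain ⟨K, hK⟩ : ∃ K, K = Fintype.card (((Fin r → Fin S) × Bool) ⊕ (↥Φ × ↥H)) := ⟨_, rfl⟩
  obtain ⟨M1, hM1⟩ : ∃ M1, M1 = M + 1 := ⟨_, rfl⟩
  have hM10 : 0 < M1 := by omega
  obtain ⟨C0, hC0⟩ : ∃ C0, C0 = 2 + r * S := ⟨_, rfl⟩
  have hC00 : 0 < C0 := by omega
  obtain ⟨L, hL⟩ : ∃ L, L = (univ : Finset ((Fin r → Fin S) × ↥D → ZMod 2)).card := ⟨_, rfl⟩
  have hL0 : 0 < L := by rw [hL]; exact card_pos.2 ⟨0, mem_univ _⟩
  obtain ⟨c₀, hc₀⟩ : ∃ c₀ : ℝ, c₀ = 1 / (2 * 2 ^ K1) := ⟨_, rfl⟩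
  have hc₀0 : 0 < c₀ := by rw [hc₀]; positivity
  obtain ⟨c₁, hc₁⟩ : ∃ c₁ : ℝ, c₁ = c₀ / L / C0 := ⟨_, rfl⟩
  have hc₁0 : 0 < c₁ := by rw [hc₁]; positivity
  obtain ⟨η, hη⟩ : ∃ η : ℝ, η = min c₀ (c₁ / (4 * 2 ^ K2)) := ⟨_, rfl⟩
  have hη0 : 0 < η := by rw [hη]; exact lt_min hc₀0 (by positivity)
  have hη1 : η ≤ c₀ := by rw [hη]; exact min_le_left _ _
  have hη2 : η ≤ c₁ / (4 * 2 ^ K2) := by rw [hη]; exact min_le_right _ _
  obtain ⟨ε, hε⟩ : ∃ ε : ℝ, ε = η ^ 2 / (4 * 2 ^ K * (M1 : ℝ) ^ (r + 1)) := ⟨_, rfl⟩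
  have hM1r : (1 : ℝ) ≤ M1 := by exact_mod_cast hM10
  have hε0 : 0 < ε := by rw [hε]; positivity
  obtain ⟨R, hR⟩ : ∃ R, R = C0 + M1 := ⟨_, rfl⟩
  have hR0 : 0 < R := by omega
  obtain ⟨J, N₁, hmom⟩ := second_moment a ha b (psi (S := S) Φ H) (shf (S := S) Φ H s e) R ε hε0
  -- the constant
  obtain ⟨κ, hκ⟩ : ∃ κ : ℝ, κ = 1 / (2 * R * 2 ^ J) := ⟨_, rfl⟩
  have hκ0 : 0 < κ := by rw [hκ]; positivity
  obtain ⟨c, hc⟩ : ∃ c : ℝ, c = min (1 / (2 * M1) * κ ^ r) (c₁ / (2 * 2 ^ K2) * (C0 * κ)) := ⟨_, rfl⟩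
  have hc0 : 0 < c := by rw [hc]; exact lt_min (by positivity) (by positivity)
  refine ⟨c, hc0, R * N₁ + R * 2 ^ J * (D.sup id + 1) + 2 * R * 2 ^ J, fun N hN => ?_⟩
  have hN1 : R * N₁ ≤ N := by omega
  have hN2 : R * 2 ^ J * (D.sup id + 1) ≤ N := by omega
  have hN3 : 2 * R * 2 ^ J ≤ N := by omega
  obtain ⟨i, hi, hm⟩ := hmom (N / R) (by
    rw [Nat.le_div_iff_mul_le hR0, mul_comm]; exact hN1)
  rw [mem_Icc] at hi
  obtain ⟨B, hB⟩ : ∃ B, B = N / R / 2 ^ i := ⟨_, rfl⟩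
  rw [← hB] at hm
  have hRB : R * B ≤ N := by
    calc R * B ≤ R * (N / R) := by
          rw [hB]; exact Nat.mul_le_mul_left _ (Nat.div_le_self _ _)
      _ ≤ N := Nat.mul_div_le _ _
  have hB' : N / (R * 2 ^ J) ≤ B := by
    rw [hB, Nat.div_div_eq_div_mul]
    refine Nat.div_le_div_left ?_ (by positivity)
    exact Nat.mul_le_mul_left _ (Nat.pow_le_pow_right (by norm_num) hi.2)
  have hBD : D.sup id + 1 ≤ B := by
    refine le_trans ?_ hB'
    rw [Nat.le_div_iff_mul_le (by positivity), mul_comm]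
    exact hN2
  have hB0 : 0 < B := by omega
  have hBr : (0 : ℝ) < B := by exact_mod_cast hB0
  have hBge : κ * N ≤ B := by
    have e2 : N < R * 2 ^ J * (N / (R * 2 ^ J)) + R * 2 ^ J := by
      have := Nat.lt_mul_div_succ N (show 0 < R * 2 ^ J by positivity)
      rwa [mul_add, mul_one] at this
    have e3 : N ≤ 2 * R * 2 ^ J * B := by
      have e4 : R * 2 ^ J * (N / (R * 2 ^ J)) ≤ R * 2 ^ J * B := Nat.mul_le_mul_left _ hB'
      have e5 : 2 * R * 2 ^ J * B = 2 * (R * 2 ^ J * B) := by ring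
      have e6 : 2 * R * 2 ^ J = 2 * (R * 2 ^ J) := by ring
      omega
    rw [hκ, one_div, inv_mul_le_iff₀ (by positivity)]
    exact_mod_cast e3
  -- the sums
  obtain ⟨Sm, hSm⟩ : ∃ Sm : ℕ → Finset (((Fin r → Fin S) × Bool) ⊕ (↥Φ × ↥H)) → (Fin r → ℕ) → ℝ,
    Sm = fun C E y => ∑ n ∈ Icc 1 (C * B), ∏ j ∈ E,
      sg (VV a b (psi (S := S) Φ H) (shf (S := S) Φ H s e) n y j) := ⟨_, rfl⟩
  -- the bad sets
  obtain ⟨Bad, hBad⟩ : ∃ Bad : ℕ → ℕ → Finset (Fin r → ℕ), Bad = fun C D' =>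
    (YB r (D' * B)).filter (fun y => ∃ E, GoodI (psi (S := S) Φ H) (shf (S := S) Φ H s e) E ∧
      η * ((C * B : ℕ) : ℝ) < |Sm C E y|) := ⟨_, rfl⟩
  have hBadc : ∀ C D' : ℕ, 1 ≤ C → C ≤ R → 1 ≤ D' → D' ≤ R →
      ((Bad C D').card : ℝ) ≤ 2 ^ K * (ε / η ^ 2) * ((D' * B : ℕ) : ℝ) ^ r := by
    intro C D' hC hCR hD' hD'R
    have h1 := few_bad (YB r (D' * B)) (GoodI (psi (S := S) Φ H) (shf (S := S) Φ H s e)) (Sm C)
      ((C * B : ℕ) : ℝ) ε η (by exact_mod_cast Nat.mul_pos hC hB0) hη0 (by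
        intro E hE
        rw [hSm, card_YB]
        push_cast
        have := hm E hE C D' hC hCR hD' hD'R
        push_cast at this
        exact this) hε0.le (Bad C D') (by rw [hBad]; exact filter_subset _ _) (by
        intro y hy
        rw [hBad] at hy
        exact (mem_filter.1 hy).2)
    rw [← hK, card_YB] at h1
    push_cast at h1 ⊢
    exact h1
  have hεη : 2 ^ K * (ε / η ^ 2) = 1 / (4 * (M1 : ℝ) ^ (r + 1)) := by
    rw [hε]
    field_simp
  -- the first step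
  have step1 : ∀ y ∈ YB r B, y ∉ Bad 1 1 → ∃ ρ : ℕ, 0 < ρ ∧ ρ ≤ M ∧
      ∀ τ : (Fin r → ℕ) → ZMod 2, c₀ / L * B ≤ (((Icc 1 (C0 * B)).filter (fun n => ∀ φ ∈ Φ,
        ∑ h ∈ H, gg a b (n + ∑ t, φ t * (ρ * y t) + h) = τ φ)).card : ℝ) := by
    intro y hy hyB
    have hy' := (mem_YB r B y).1 hy
    rw [hL, hC0]
    refine lemL a b H D s e hDs Φ hcombD y B (by omega) (fun t => (hy' t).2) hB0 c₀ hc₀0 ?_
    intro δ
    have h1 := all_of_small (Icc 1 B) (fun (n : ℕ) (q : (Fin r → Fin S) × Bool) =>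
      VV a b (psi (S := S) Φ H) (shf (S := S) Φ H s e) n y (Sum.inl q)) (by
        intro E hE
        have h2 := GoodI_map Function.Embedding.inl (psi (S := S) Φ H) (shf (S := S) Φ H s e) E
          (good_left s e he E hE)
        by_contra hcon
        push Not at hcon
        apply hyB
        rw [hBad, mem_filter, one_mul]
        refine ⟨hy, _, h2, ?_⟩
        rw [hSm]
        simp only [one_mul, Finset.prod_map, Function.Embedding.inl_apply]
        refine lt_of_le_of_lt ?_ hcon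
        rw [Nat.card_Icc, add_tsub_cancel_right, ← hK1, ← hc₀]
        exact mul_le_mul_of_nonneg_right hη1 hBr.le) (fun q => if q.2 then δ q.1 else 0)
    rw [← hK1, ← hc₀, Nat.card_Icc, add_tsub_cancel_right] at h1
    refine h1.trans ?_
    have h3 : (Icc 1 B).filter (fun n => ∀ j : (Fin r → Fin S) × Bool,
        VV a b (psi (S := S) Φ H) (shf (S := S) Φ H s e) n y (Sum.inl j) =
          if j.2 then δ j.1 else 0) ⊆ (Icc 1 B).filter (fun n =>
        ∀ ψ : Fin r → Fin S, gg a b (n + ∑ t, (ψ t : ℕ) * y t + s) = 0 ∧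
          gg a b (n + ∑ t, (ψ t : ℕ) * y t + (s + e)) = δ ψ) := by
      intro n hn
      rw [mem_filter] at hn ⊢
      refine ⟨hn.1, fun ψ => ⟨?_, ?_⟩⟩
      · have h4 := hn.2 (ψ, false)
        simpa [VV, psi, shf] using h4
      · have h4 := hn.2 (ψ, true)
        simpa [VV, psi, shf] using h4
    exact_mod_cast card_le_card h3
  choose! ρ hρ0 hρM hρ using step1
  -- the second step
  have step2 : ∀ y ∈ YB r B, y ∉ Bad 1 1 → (fun t => ρ y * y t) ∉ Bad C0 M1 →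
      ∀ σ : (Fin r → ℕ) → ℕ → ZMod 2, c * (N : ℝ) ≤
          (((Icc 1 N).filter (fun n => ∀ φ ∈ Φ, ∀ h ∈ H,
            gg a b (n + ∑ t, φ t * (ρ y * y t) + h) = σ φ h)).card : ℝ) := by
    intro y hy hyB hyB2 σ
    have hy' := (mem_YB r B y).1 hy
    have h1 := hρ y hy hyB
    have hX0 : (0 : ℝ) < ((C0 * B : ℕ) : ℝ) := by exact_mod_cast Nat.mul_pos hC00 hB0
    have h2 := lemR (Icc 1 (C0 * B)) H Φ (fun (n : ℕ) (q : ↥Φ × ↥H) =>
      VV a b (psi (S := S) Φ H) (shf (S := S) Φ H s e) n (fun t => ρ y * y t) (Sum.inr q))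
      ((C0 * B : ℕ) : ℝ) c₁ hc₁0 (by
        intro E hE
        have h2 := GoodI_map Function.Embedding.inr (psi (S := S) Φ H) (shf (S := S) Φ H s e) E
          (good_right Φ H hH E hE)
        by_contra hcon
        push Not at hcon
        apply hyB2
        rw [hBad, mem_filter, mem_YB]
        refine ⟨fun t => ⟨Nat.mul_pos (hρ0 y hy hyB) (hy' t).1,
          Nat.mul_le_mul ((hρM y hy hyB).trans (by omega)) (hy' t).2⟩, _, h2, ?_⟩
        rw [hSm]
        simp only [Finset.prod_map, Function.Embedding.inr_apply]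
        refine lt_of_le_of_lt ?_ hcon
        rw [← hK2]
        exact mul_le_mul_of_nonneg_right hη2 hX0.le) (by
        intro τ
        have h3 := h1 (fun φ => if h : φ ∈ Φ then τ ⟨φ, h⟩ else 0)
        have h4 : c₁ * ((C0 * B : ℕ) : ℝ) = c₀ / L * B := by
          rw [hc₁]
          push_cast
          field_simp
        rw [h4]
        refine h3.trans ?_
        have h5 : (Icc 1 (C0 * B)).filter (fun n => ∀ φ ∈ Φ,
            ∑ h ∈ H, gg a b (n + ∑ t, φ t * (ρ y * y t) + h) =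
              if h : φ ∈ Φ then τ ⟨φ, h⟩ else 0) ⊆
            (Icc 1 (C0 * B)).filter (fun n => ∀ φ : ↥Φ, ∑ h : ↥H,
              VV a b (psi (S := S) Φ H) (shf (S := S) Φ H s e) n (fun t => ρ y * y t)
                (Sum.inr (φ, h)) = τ φ) := by
          intro n hn
          rw [mem_filter] at hn ⊢
          refine ⟨hn.1, fun φ => ?_⟩
          have h6 := hn.2 φ.1 φ.2
          rw [dif_pos φ.2] at h6
          rw [← h6]
          exact Finset.sum_coe_sort H (fun h => gg a b (n + ∑ t, φ.1 t * (ρ y * y t) + h))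
        exact_mod_cast card_le_card h5) hX0 (fun q => σ q.1.1 q.2.1)
    rw [← hK2] at h2
    calc c * (N : ℝ) ≤ c₁ / (2 * 2 ^ K2) * (C0 * κ) * N :=
          mul_le_mul_of_nonneg_right (by rw [hc]; exact min_le_right _ _) (by positivity)
      _ = c₁ / (2 * 2 ^ K2) * (C0 * (κ * N)) := by ring
      _ ≤ c₁ / (2 * 2 ^ K2) * (C0 * B) := by gcongr
      _ = c₁ / (2 * 2 ^ K2) * ((C0 * B : ℕ) : ℝ) := by push_cast; ring
      _ ≤ _ := h2
      _ ≤ _ := by
          have h5 : (Icc 1 (C0 * B)).filter (fun n => ∀ j : ↥Φ × ↥H,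
              VV a b (psi (S := S) Φ H) (shf (S := S) Φ H s e) n (fun t => ρ y * y t)
                (Sum.inr j) = σ j.1.1 j.2.1) ⊆ (Icc 1 N).filter (fun n => ∀ φ ∈ Φ, ∀ h ∈ H,
              gg a b (n + ∑ t, φ t * (ρ y * y t) + h) = σ φ h) := by
            intro n hn
            rw [mem_filter, mem_Icc] at hn
            rw [mem_filter, mem_Icc]
            have h6 : C0 * B ≤ N := (Nat.mul_le_mul_right B (by omega)).trans hRB
            refine ⟨⟨hn.1.1, hn.1.2.trans h6⟩, fun φ hφ h hh => ?_⟩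
            exact hn.2 (⟨φ, hφ⟩, ⟨h, hh⟩)
          exact_mod_cast card_le_card h5
  -- the set of the differences
  set f : (Fin r → ℕ) → (Fin r → ℕ) := fun y t => ρ y * y t with hf
  have hfib : ∀ T : Finset (Fin r → ℕ), T ⊆ (YB r B) \ Bad 1 1 →
      T.card ≤ M1 * (T.image f).card := by
    intro T hT
    refine Finset.card_le_mul_card_image T M1 ?_
    intro z _
    have h1 : (T.filter (fun y => f y = z)).card ≤ (Icc 1 M1).card := by
      refine card_le_card_of_injOn ρ ?_ ?_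
      · intro y hy
        rw [mem_coe, mem_filter] at hy
        have h2 := mem_sdiff.1 (hT hy.1)
        rw [mem_coe, mem_Icc]
        exact ⟨hρ0 y h2.1 h2.2, (hρM y h2.1 h2.2).trans (by omega)⟩
      · intro y hy y' hy' hyy
        rw [mem_coe, mem_filter] at hy hy'
        have h2 := mem_sdiff.1 (hT hy.1)
        funext t
        have h3 := congrFun (hy.2.trans hy'.2.symm) t
        simp only [hf] at h3
        rw [← hyy] at h3
        exact Nat.eq_of_mul_eq_mul_left (hρ0 y h2.1 h2.2) h3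
    rwa [Nat.card_Icc, add_tsub_cancel_right] at h1
  obtain ⟨T, hT⟩ : ∃ T, T = (YB r B) \ Bad 1 1 := ⟨_, rfl⟩
  obtain ⟨G, hG⟩ : ∃ G, G = T.filter (fun y => f y ∉ Bad C0 M1) := ⟨_, rfl⟩
  refine ⟨G.image f, ?_, ?_, ?_⟩
  · intro z hz t
    rw [mem_image] at hz
    obtain ⟨y, hy, rfl⟩ := hz
    rw [hG, mem_filter, hT, mem_sdiff] at hy
    have hy' := (mem_YB r B y).1 hy.1.1
    refine ⟨Nat.mul_pos (hρ0 y hy.1.1 hy.1.2) (hy' t).1, ?_⟩
    calc ρ y * y t ≤ R * B := Nat.mul_le_mul ((hρM y hy.1.1 hy.1.2).trans (by omega)) (hy' t).2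
      _ ≤ N := hRB
  · -- the number
    have h1 : (T.card : ℝ) = (G.card : ℝ) + ((T.filter (fun y => ¬ f y ∉ Bad C0 M1)).card : ℝ) := by
      rw [hG]
      exact_mod_cast (card_filter_add_card_filter_not (s := T) (fun y => f y ∉ Bad C0 M1)).symm
    have h2 : ((T.filter (fun y => ¬ f y ∉ Bad C0 M1)).card : ℝ) ≤ M1 * (Bad C0 M1).card := by
      have h3 := hfib (T.filter (fun y => ¬ f y ∉ Bad C0 M1)) (by
        rw [hT]; exact filter_subset _ _)
      have h4 : (T.filter (fun y => ¬ f y ∉ Bad C0 M1)).image f ⊆ Bad C0 M1 := by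
        intro z hz
        rw [mem_image] at hz
        obtain ⟨y, hy, rfl⟩ := hz
        exact not_not.1 (mem_filter.1 hy).2
      have h5 := h3.trans (Nat.mul_le_mul_left _ (card_le_card h4))
      exact_mod_cast h5
    have h3 := hBadc C0 M1 (by omega) (by omega) (by omega) (by omega)
    have h4 := hBadc 1 1 le_rfl (by omega) le_rfl (by omega)
    rw [hεη] at h3 h4
    have h5 : ((B : ℝ) ^ r) ≤ T.card + (Bad 1 1).card := by
      have h6 : (YB r B).card ≤ T.card + (Bad 1 1).card := by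
        rw [hT]
        have := Finset.card_le_card_sdiff_add_card (s := YB r B) (t := Bad 1 1)
        exact this
      rw [card_YB] at h6
      exact_mod_cast h6
    have h7 : 1 / (4 * (M1 : ℝ) ^ (r + 1)) * ((1 * B : ℕ) : ℝ) ^ r ≤ 1 / 4 * (B : ℝ) ^ r := by
      rw [one_mul]
      refine mul_le_mul_of_nonneg_right ?_ (by positivity)
      rw [one_div_le_one_div (by positivity) (by norm_num)]
      have : (1 : ℝ) ≤ (M1 : ℝ) ^ (r + 1) := one_le_pow₀ hM1r
      linarith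
    have h8 : (M1 : ℝ) * (1 / (4 * (M1 : ℝ) ^ (r + 1)) * ((M1 * B : ℕ) : ℝ) ^ r) =
        1 / 4 * (B : ℝ) ^ r := by
      push_cast
      rw [mul_pow, pow_succ]
      have : (M1 : ℝ) ^ r ≠ 0 := by positivity
      field_simp
    have h9 : (M1 : ℝ) * (Bad C0 M1).card ≤ 1 / 4 * (B : ℝ) ^ r := by
      rw [← h8]
      exact mul_le_mul_of_nonneg_left h3 (by positivity)
    have h10 : 1 / 2 * (B : ℝ) ^ r ≤ G.card := by linarith
    have h11 : (G.card : ℝ) ≤ M1 * (G.image f).card := by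
      have := hfib G (by rw [hG, ← hT]; exact filter_subset _ _)
      exact_mod_cast this
    calc c * (N : ℝ) ^ r ≤ 1 / (2 * M1) * κ ^ r * (N : ℝ) ^ r :=
          mul_le_mul_of_nonneg_right (by rw [hc]; exact min_le_left _ _) (by positivity)
      _ = 1 / (2 * M1) * (κ * N) ^ r := by rw [mul_pow]; ring
      _ ≤ 1 / (2 * M1) * (B : ℝ) ^ r := by gcongr
      _ = 1 / M1 * (1 / 2 * (B : ℝ) ^ r) := by field_simp
      _ ≤ 1 / M1 * (M1 * (G.image f).card) :=
          mul_le_mul_of_nonneg_left (h10.trans h11) (by positivity)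
      _ = (G.image f).card := by field_simp
  · intro z hz σ
    rw [mem_image] at hz
    obtain ⟨y, hy, rfl⟩ := hz
    rw [hG, mem_filter, hT, mem_sdiff] at hy
    exact step2 y hy.1.1 hy.1.2 hy.2 σ

end Pool.Agent.H569.SP
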