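import Pool.Graph.R_pool_sql_team_seeded_63374d34.Results.MP_a14ce1_nt.FixedShiftPatterns

/-!
# A good scale

From the library's theorem on the sign patterns at affine functions with fixed constants at all but
few scales: at one of boundedly many dyadic scales below every large `N` all sign patterns are
equidistributed in the cube.
-/

set_option autoImplicit false

open Finset

namespace Pool.Agent.H569.SP

open Pool.Agent.Results.MP_a14ce1_nt.FixedShiftPatterns (lam aff cls NotProp box OfScale excPat)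

theorem sum_Icc_harm (J : ℕ) : ∑ i ∈ range J, 1 / ((i : ℝ) + 1) = ∑ i ∈ Icc 1 J, 1 / (i : ℝ) := by
  induction J with
  | zero => simp
  | succ J ih =>
    rw [sum_range_succ, ih, Finset.sum_Icc_succ_top (by omega)]
    push_cast
    rfl

open Classical in
theorem good_scale (k n : ℕ) (φ : Fin k → Fin n → ℤ) (b : Fin k → ℤ) (hφ : ∀ j, φ j ≠ 0)
    (hNP : ∀ i j, i ≠ j → NotProp φ b i j) (h3 : ∀ i₀, (cls φ i₀).card ≤ 3) (ε : ℝ) (hε : 0 < ε) :
    ∃ J N₀ : ℕ, ∀ N : ℕ, N₀ ≤ N → ∃ i ∈ Icc 1 J, ∀ σ : Fin k → ℝ, (∀ j, σ j = 1 ∨ σ j = -1) →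
      |(((box (0 : Fin n → ℤ) (fun _ => N / 2 ^ i)).filter
        fun y => ∀ j, lam (aff (φ j) (b j) y) = σ j).card : ℝ) - ((N / 2 ^ i : ℕ) : ℝ) ^ n / 2 ^ k| ≤
        ε * ((N / 2 ^ i : ℕ) : ℝ) ^ n := by
  obtain ⟨C, hC⟩ := (Pool.Agent.Results.MP_a14ce1_nt.FixedShiftPatterns.result k n φ b hφ).2 hNP h3
    2 ε hε
  obtain ⟨J, hJ⟩ : ∃ J : ℕ, C < ∑ i ∈ Icc 1 J, 1 / (i : ℝ) := by
    have h1 := Real.tendsto_sum_range_one_div_nat_succ_atTop
    obtain ⟨J, hJ⟩ := (h1.eventually_gt_atTop C).exists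
    exact ⟨J, lt_of_lt_of_eq hJ (sum_Icc_harm J)⟩
  obtain ⟨N₀, hN₀⟩ := hC J
  refine ⟨J, N₀ + 2 ^ (J + 1), fun N hN => ?_⟩
  have h1 := hN₀ N (le_trans (Nat.le_add_right _ _) hN)
  obtain ⟨i, hi, hi2⟩ : ∃ i ∈ Icc 1 J, i ∉ excPat φ b 2 ε J N := by
    by_contra hcon
    push Not at hcon
    have h2 : Icc 1 J ⊆ excPat φ b 2 ε J N := hcon
    have h3 := sum_le_sum_of_subset_of_nonneg h2 (f := fun i : ℕ => 1 / (i : ℝ))
      (fun i _ _ => by positivity)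
    linarith
  refine ⟨i, hi, fun σ hσ => ?_⟩
  rw [mem_Icc] at hi
  by_contra hcon
  rw [not_le] at hcon
  apply hi2
  unfold excPat
  rw [mem_filter, mem_Icc]
  have e1 : ∏ s : Fin n, (((fun _ : Fin n => N / 2 ^ i) s : ℕ) : ℝ) = ((N / 2 ^ i : ℕ) : ℝ) ^ n := by
    simp
  refine ⟨hi, 0, fun _ => N / 2 ^ i, σ, ?_, hσ, ?_⟩
  · intro s
    have h2 : 2 ^ i ≤ 2 ^ J := Nat.pow_le_pow_right (by norm_num) hi.2
    have h4 : 2 ^ i * (N / 2 ^ i) ≤ N := Nat.mul_div_le N _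
    have h5 : N < 2 ^ i * (N / 2 ^ i) + 2 ^ i := by
      have := Nat.lt_mul_div_succ N (show 0 < 2 ^ i by positivity)
      rw [mul_add, mul_one] at this
      exact this
    have h6 : 2 ^ (J + 1) = 2 * 2 ^ J := by rw [pow_succ]; ring
    have h7 : 2 ^ (J + 1) ≤ N := le_trans (Nat.le_add_left _ _) hN
    obtain ⟨q, hq⟩ : ∃ q, q = 2 ^ i * (N / 2 ^ i) := ⟨_, rfl⟩
    refine ⟨?_, ?_, ?_⟩
    · simp only [Pi.zero_apply, abs_zero, mul_zero]
      positivity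
    · show N ≤ 2 * 2 ^ i * (N / 2 ^ i)
      rw [mul_assoc, ← hq]
      rw [← hq] at h4 h5
      omega
    · show 2 ^ i * (N / 2 ^ i) ≤ 2 * N
      omega
  · rw [e1]
    exact hcon

end Pool.Agent.H569.SP
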