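import Pool.Agent.H569.SP8

/-!
# Second moments over the differences

For a system of forms `a (n + ψ j · y + h j) + b`: at a good scale, for every good set `E` of forms, the
sums over `n` of the product over `E` are small in mean square over `y` (the doubled system in the
variables `n, n', y` is good).
-/

set_option autoImplicit false

open Finset

namespace Pool.Agent.H569.SP

open Pool.Agent.N675 (lamA)
open Pool.Agent.N675.FS (bx cl GoodE Scl excC lam_cor)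

/-- at one of boundedly many scales all the good correlations are small, for all boxes of this scale -/
theorem good_scale_R (k n : ℕ) (φ : Fin k → Fin n → ℤ) (b : Fin k → ℤ) (hφ : ∀ j, φ j ≠ 0) (R : ℕ)
    (ε : ℝ) (hε : 0 < ε) :
    ∃ J N₀ : ℕ, ∀ N : ℕ, N₀ ≤ N → ∃ i ∈ Icc 1 J, ∀ E : Finset (Fin k), GoodE φ b E →
      ∀ (u : Fin n → ℤ) (Bs : Fin n → ℕ), Scl R N i u Bs →
      |∑ y ∈ bx u Bs, ∏ j ∈ E, lamA (∑ s, φ j s * y s + b j)| ≤ ε * ∏ s, (Bs s : ℝ) := by
  classical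
  have h0 : ∀ E : Finset (Fin k), ∃ C : ℝ, 0 ≤ C ∧ (GoodE φ b E → ∀ J : ℕ, ∃ N₀ : ℕ, ∀ N : ℕ,
      N₀ ≤ N → ∑ i ∈ excC lamA φ b E R ε J N, 1 / (i : ℝ) ≤ C) := by
    intro E
    by_cases hE : GoodE φ b E
    · obtain ⟨C, hC⟩ := lam_cor φ b hφ E hE R ε hε
      refine ⟨max C 0, le_max_right _ _, fun _ J => ?_⟩
      obtain ⟨N₀, h⟩ := hC J
      exact ⟨N₀, fun N hN => (h N hN).trans (le_max_left _ _)⟩
    · exact ⟨0, le_rfl, fun h => absurd h hE⟩
  choose C hC0 hC using h0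
  obtain ⟨J, hJ⟩ : ∃ J : ℕ, ∑ E : Finset (Fin k), C E < ∑ i ∈ Icc 1 J, 1 / (i : ℝ) := by
    have h1 := Real.tendsto_sum_range_one_div_nat_succ_atTop
    obtain ⟨J, hJ⟩ := (h1.eventually_gt_atTop (∑ E : Finset (Fin k), C E)).exists
    exact ⟨J, lt_of_lt_of_eq hJ (sum_Icc_harm J)⟩
  have h1 : ∀ E : Finset (Fin k), ∃ N₀ : ℕ, GoodE φ b E → ∀ N : ℕ, N₀ ≤ N →
      ∑ i ∈ excC lamA φ b E R ε J N, 1 / (i : ℝ) ≤ C E := by
    intro E
    by_cases hE : GoodE φ b E
    · obtain ⟨N₀, h⟩ := hC E hE J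
      exact ⟨N₀, fun _ => h⟩
    · exact ⟨0, fun h => absurd h hE⟩
  choose M hM using h1
  refine ⟨J, univ.sup M, fun N hN => ?_⟩
  have hNM : ∀ E, M E ≤ N := fun E => (Finset.le_sup (f := M) (mem_univ E)).trans hN
  by_contra hcon
  push Not at hcon
  have h2 : Icc 1 J ⊆ (univ.filter (fun E : Finset (Fin k) => GoodE φ b E)).biUnion
      (fun E => excC lamA φ b E R ε J N) := by
    intro i hi
    obtain ⟨E, hE, u, Bs, hS, hlt⟩ := hcon i hi
    rw [mem_biUnion]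
    refine ⟨E, mem_filter.2 ⟨mem_univ _, hE⟩, ?_⟩
    unfold excC
    rw [mem_filter]
    exact ⟨hi, u, Bs, hS, hlt⟩
  have h3 : ∑ i ∈ Icc 1 J, 1 / (i : ℝ) ≤ ∑ E : Finset (Fin k), C E := by
    calc ∑ i ∈ Icc 1 J, 1 / (i : ℝ)
        ≤ ∑ i ∈ (univ.filter (fun E : Finset (Fin k) => GoodE φ b E)).biUnion
            (fun E => excC lamA φ b E R ε J N), 1 / (i : ℝ) :=
          sum_le_sum_of_subset_of_nonneg h2 fun i _ _ => by positivity
      _ ≤ ∑ E ∈ univ.filter (fun E : Finset (Fin k) => GoodE φ b E),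
            ∑ i ∈ excC lamA φ b E R ε J N, 1 / (i : ℝ) :=
          sum_biUnion_le' _ _ _ fun i => by positivity
      _ ≤ ∑ E ∈ univ.filter (fun E : Finset (Fin k) => GoodE φ b E), C E :=
          sum_le_sum fun E hE => hM E (mem_filter.1 hE).2 N (hNM E)
      _ ≤ ∑ E : Finset (Fin k), C E :=
          sum_le_sum_of_subset_of_nonneg (filter_subset _ _) fun E _ _ => hC0 E
  linarith

section

variable {r : ℕ} {I : Type} [DecidableEq I]

/-- good sets of forms -/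
def GoodI (ψ : I → Fin r → ℕ) (hh : I → ℕ) (E : Finset I) : Prop :=
  ∃ i₀ ∈ E, Odd (E.filter (fun j => ψ j = ψ i₀)).card ∨
    ((E.filter (fun j => ψ j = ψ i₀)).card = 2 ∧ ∃ j ∈ E, ψ j = ψ i₀ ∧ hh j ≠ hh i₀)

theorem GoodI_map {I' : Type} [DecidableEq I'] (f : I' ↪ I) (ψ : I → Fin r → ℕ) (hh : I → ℕ)
    (E : Finset I') (h : GoodI (fun j => ψ (f j)) (fun j => hh (f j)) E) : GoodI ψ hh (E.map f) := by
  obtain ⟨i₀, hi₀, h⟩ := h
  have hc : ((E.map f).filter (fun j => ψ j = ψ (f i₀))).card =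
      (E.filter (fun j => ψ (f j) = ψ (f i₀))).card := by
    rw [Finset.filter_map, card_map]
    rfl
  refine ⟨f i₀, mem_map_of_mem f hi₀, ?_⟩
  rw [hc]
  rcases h with h | ⟨h1, j, hj, h2, h3⟩
  · exact Or.inl h
  · exact Or.inr ⟨h1, f j, mem_map_of_mem f hj, h2, h3⟩

/-- the doubled forms -/
def f2 (a : ℕ) (ψ : I → Fin r → ℕ) (q : I × Bool) : Fin (r + 2) → ℤ :=
  Fin.cons (if q.2 then 0 else (a : ℤ)) (Fin.cons (if q.2 then (a : ℤ) else 0)
    (fun t => (a : ℤ) * (ψ q.1 t : ℤ)))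

/-- the points -/
def emb2 {r : ℕ} (z : (ℕ × ℕ) × (Fin r → ℕ)) : Fin (r + 2) → ℤ :=
  Fin.cons (z.1.1 : ℤ) (Fin.cons (z.1.2 : ℤ) (fun t => (z.2 t : ℤ)))

theorem f2_val (a : ℕ) (b : ℤ) (ψ : I → Fin r → ℕ) (h : ℕ) (q : I × Bool)
    (z : (ℕ × ℕ) × (Fin r → ℕ)) : ∑ s, f2 a ψ q s * emb2 z s + ((a : ℤ) * h + b) =
      (a : ℤ) * (((if q.2 then z.1.2 else z.1.1) + ∑ t, ψ q.1 t * z.2 t + h : ℕ) : ℤ) + b := by
  rw [Fin.sum_univ_succ, Fin.sum_univ_succ]
  simp only [f2, emb2, Fin.cons_zero, Fin.cons_succ]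
  have h3 : ∑ t : Fin r, (a : ℤ) * (ψ q.1 t : ℤ) * (z.2 t : ℤ) =
      (a : ℤ) * ∑ t : Fin r, ((ψ q.1 t : ℤ) * (z.2 t : ℤ)) := by
    rw [mul_sum]
    exact sum_congr rfl fun t _ => mul_assoc _ _ _
  rw [h3]
  cases q.2
  · simp only [Bool.false_eq_true, if_false]
    push_cast
    ring
  · simp only [if_true]
    push_cast
    ring

theorem f2_par (a : ℕ) (ha : 0 < a) (ψ : I → Fin r → ℕ) (q q' : I × Bool) :
    (∀ s s', f2 a ψ q s * f2 a ψ q' s' = f2 a ψ q s' * f2 a ψ q' s) ↔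
      (q.2 = q'.2 ∧ ψ q.1 = ψ q'.1) := by
  have ha' : (0 : ℤ) < (a : ℤ) := by exact_mod_cast ha
  have ha2 : (a : ℤ) * a ≠ 0 := by positivity
  constructor
  · intro h
    have h01 := h 0 (Fin.succ 0)
    have hq : q.2 = q'.2 := by
      simp only [f2, Fin.cons_zero, Fin.cons_succ] at h01
      cases h1 : q.2 <;> cases h2 : q'.2 <;> simp only [h1, h2, Bool.false_eq_true, if_false,
        if_true, mul_zero, zero_mul] at h01 ⊢
      · exact absurd h01 ha2
      · exact absurd h01.symm ha2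
    refine ⟨hq, ?_⟩
    funext t
    have h3 : ((ψ q'.1 t : ℕ) : ℤ) = ((ψ q.1 t : ℕ) : ℤ) := by
      cases h1 : q.2
      · have h2 : q'.2 = false := by rw [← hq, h1]
        have h4 := h 0 t.succ.succ
        simp only [f2, Fin.cons_zero, Fin.cons_succ, h1, h2, Bool.false_eq_true, if_false] at h4
        have h5 : (a : ℤ) * a * ((ψ q'.1 t : ℕ) : ℤ) = (a : ℤ) * a * ((ψ q.1 t : ℕ) : ℤ) := by
          linear_combination h4
        exact mul_left_cancel₀ ha2 h5
      · have h2 : q'.2 = true := by rw [← hq, h1]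
        have h4 := h (Fin.succ 0) t.succ.succ
        simp only [f2, Fin.cons_zero, Fin.cons_succ, h1, h2, if_true] at h4
        have h5 : (a : ℤ) * a * ((ψ q'.1 t : ℕ) : ℤ) = (a : ℤ) * a * ((ψ q.1 t : ℕ) : ℤ) := by
          linear_combination h4
        exact mul_left_cancel₀ ha2 h5
    exact (by exact_mod_cast h3.symm)
  · rintro ⟨h1, h2⟩ s s'
    have h3 : f2 a ψ q = f2 a ψ q' := by
      unfold f2
      rw [h1, h2]
    rw [h3]
    exact mul_comm _ _

theorem f2_ne (a : ℕ) (ha : 0 < a) (ψ : I → Fin r → ℕ) (q : I × Bool) : f2 a ψ q ≠ 0 := by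
  have ha' : (0 : ℤ) < (a : ℤ) := by exact_mod_cast ha
  intro h
  have h0 := congrFun h 0
  have h1 := congrFun h (Fin.succ 0)
  simp only [f2, Fin.cons_zero, Fin.cons_succ, Pi.zero_apply] at h0 h1
  cases hq : q.2 <;> rw [hq] at h0 h1
  · simp at h0; omega
  · simp at h1; omega

/-- the parities of the forms -/
def VV (a : ℕ) (b : ℤ) (ψ : I → Fin r → ℕ) (hh : I → ℕ) (n : ℕ) (y : Fin r → ℕ) (j : I) : ZMod 2 :=
  gg a b (n + ∑ t, ψ j t * y t + hh j)

/-- the box of the differences -/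
def YB (r B : ℕ) : Finset (Fin r → ℕ) := Fintype.piFinset (fun _ : Fin r => Icc 1 B)

theorem mem_YB (r B : ℕ) (y : Fin r → ℕ) : y ∈ YB r B ↔ ∀ t, 1 ≤ y t ∧ y t ≤ B := by
  unfold YB
  rw [Fintype.mem_piFinset]
  simp only [mem_Icc]

theorem card_YB (r B : ℕ) : (YB r B).card = B ^ r := by
  unfold YB
  rw [Fintype.card_piFinset]
  simp

theorem sum_conv2 (r C D : ℕ) (F : (Fin (r + 2) → ℤ) → ℝ) :
    ∑ y ∈ bx (0 : Fin (r + 2) → ℤ) (Fin.cons C (Fin.cons C (fun _ => D))), F y =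
      ∑ z ∈ (Icc 1 C ×ˢ Icc 1 C) ×ˢ YB r D, F (emb2 z) := by
  symm
  refine Finset.sum_bij (fun z _ => emb2 z) ?_ ?_ ?_ ?_
  · intro z hz
    rw [mem_product, mem_product, mem_Icc, mem_Icc, mem_YB] at hz
    unfold bx
    rw [Fintype.mem_piFinset]
    intro s
    rw [mem_Ioc]
    refine Fin.cases ?_ (fun s => ?_) s
    · simp only [emb2, Fin.cons_zero, Pi.zero_apply, zero_add]
      have := hz.1.1
      omega
    · refine Fin.cases ?_ (fun t => ?_) s
      · simp only [emb2, Fin.cons_zero, Fin.cons_succ, Pi.zero_apply, zero_add]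
        have := hz.1.2
        omega
      · simp only [emb2, Fin.cons_succ, Pi.zero_apply, zero_add]
        have := hz.2 t
        omega
  · intro z _ z' _ h
    have h0 := congrFun h 0
    have h1 := congrFun h (Fin.succ 0)
    simp only [emb2, Fin.cons_zero, Fin.cons_succ] at h0 h1
    refine Prod.ext (Prod.ext (by exact_mod_cast h0) (by exact_mod_cast h1)) ?_
    funext t
    have h2 := congrFun h t.succ.succ
    simp only [emb2, Fin.cons_succ] at h2
    exact_mod_cast h2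
  · intro y hy
    unfold bx at hy
    rw [Fintype.mem_piFinset] at hy
    have hy0 := mem_Ioc.1 (hy 0)
    have hy1 := mem_Ioc.1 (hy (Fin.succ 0))
    have hy2 : ∀ t : Fin r, 0 < y t.succ.succ ∧ y t.succ.succ ≤ D := by
      intro t
      have := mem_Ioc.1 (hy t.succ.succ)
      simpa using this
    simp only [Fin.cons_zero, Pi.zero_apply, zero_add] at hy0
    simp only [Fin.cons_zero, Fin.cons_succ, Pi.zero_apply, zero_add] at hy1
    refine ⟨(((y 0).toNat, (y (Fin.succ 0)).toNat), fun t => (y t.succ.succ).toNat), ?_, ?_⟩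
    · rw [mem_product, mem_product, mem_Icc, mem_Icc, mem_YB]
      refine ⟨⟨?_, ?_⟩, fun t => ?_⟩
      · simp only
        omega
      · simp only
        omega
      · have := hy2 t
        simp only
        omega
    · funext s
      refine Fin.cases ?_ (fun s => ?_) s
      · simp only [emb2, Fin.cons_zero]
        exact Int.toNat_of_nonneg hy0.1.le
      · refine Fin.cases ?_ (fun t => ?_) s
        · simp only [emb2, Fin.cons_zero, Fin.cons_succ]
          exact Int.toNat_of_nonneg hy1.1.le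
        · simp only [emb2, Fin.cons_succ]
          exact Int.toNat_of_nonneg (hy2 t).1.le
  · intro z _
    rfl

variable [Fintype I]

/-- **Second moments over the differences.** -/
theorem second_moment (a : ℕ) (ha : 0 < a) (b : ℤ) (ψ : I → Fin r → ℕ) (hh : I → ℕ) (R : ℕ)
    (ε : ℝ) (hε : 0 < ε) : ∃ J N₀ : ℕ, ∀ N : ℕ, N₀ ≤ N → ∃ i ∈ Icc 1 J, ∀ E : Finset I,
      GoodI ψ hh E → ∀ C D : ℕ, 1 ≤ C → C ≤ R → 1 ≤ D → D ≤ R →
      ∑ y ∈ YB r (D * (N / 2 ^ i)), (∑ n ∈ Icc 1 (C * (N / 2 ^ i)), ∏ j ∈ E, sg (VV a b ψ hh n y j)) ^ 2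
        ≤ ε * (((C * (N / 2 ^ i) : ℕ) : ℝ) ^ 2 * ((D * (N / 2 ^ i) : ℕ) : ℝ) ^ r) := by
  classical
  have ha' : (0 : ℤ) < (a : ℤ) := by exact_mod_cast ha
  obtain ⟨k, hk⟩ : ∃ k, k = Fintype.card (I × Bool) := ⟨_, rfl⟩
  have eqv : Fin k ≃ I × Bool := (hk ▸ Fintype.equivFin _).symm
  obtain ⟨J, N₀, hgood⟩ := good_scale_R k (r + 2) (fun i => f2 a ψ (eqv i))
    (fun i => (a : ℤ) * (hh (eqv i).1 : ℤ) + b) (fun i => f2_ne a ha ψ _) (R + 2) ε hε
  refine ⟨J, N₀ + 2 ^ J, fun N hN => ?_⟩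
  obtain ⟨i, hi, h⟩ := hgood N ((Nat.le_add_right _ _).trans hN)
  have hN2 : 2 ^ J ≤ N := (Nat.le_add_left _ _).trans hN
  refine ⟨i, hi, fun E hE C D hC hCR hD hDR => ?_⟩
  rw [mem_Icc] at hi
  obtain ⟨B, hB⟩ : ∃ B, B = N / 2 ^ i := ⟨_, rfl⟩
  rw [← hB]
  have h2i : 2 ^ i ≤ 2 ^ J := Nat.pow_le_pow_right (by norm_num) hi.2
  have hB1 : 1 ≤ B := by
    rw [hB, Nat.le_div_iff_mul_le (by positivity)]
    omega
  have hBle : 2 ^ i * B ≤ N := by rw [hB]; exact Nat.mul_div_le N _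
  have hBge : N ≤ 2 * (2 ^ i * B) := by
    have h5 : N < 2 ^ i * (N / 2 ^ i) + 2 ^ i := by
      have := Nat.lt_mul_div_succ N (show 0 < 2 ^ i by positivity)
      rw [mul_add, mul_one] at this
      exact this
    rw [← hB] at h5
    have h6 : 2 ^ i ≤ 2 ^ i * B := Nat.le_mul_of_pos_right _ hB1
    omega
  -- the set of the doubled forms
  set E2 : Finset (Fin k) := univ.filter (fun i => (eqv i).1 ∈ E) with hE2
  have hcl : ∀ i₀ : Fin k, (eqv i₀).1 ∈ E → (cl (fun i => f2 a ψ (eqv i)) E2 i₀).card =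
      (E.filter (fun j => ψ j = ψ (eqv i₀).1)).card := by
    intro i₀ hi₀
    symm
    refine Finset.card_bij (fun j _ => eqv.symm (j, (eqv i₀).2)) ?_ ?_ ?_
    · intro j hj
      rw [mem_filter] at hj
      unfold cl
      rw [mem_filter, hE2, mem_filter]
      refine ⟨⟨mem_univ _, ?_⟩, ?_⟩
      · rw [Equiv.apply_symm_apply]; exact hj.1
      · simp only [Equiv.apply_symm_apply]
        exact (f2_par a ha ψ _ _).2 ⟨rfl, hj.2⟩
    · intro j _ j' _ hjj
      exact (Prod.ext_iff.1 (eqv.symm.injective hjj)).1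
    · intro i' hi'
      unfold cl at hi'
      rw [mem_filter, hE2, mem_filter] at hi'
      have h1 := (f2_par a ha ψ _ _).1 hi'.2
      refine ⟨(eqv i').1, mem_filter.2 ⟨hi'.1.2, h1.2⟩, ?_⟩
      rw [← h1.1, Prod.mk.eta, Equiv.symm_apply_apply]
  have hgE : GoodE (fun i => f2 a ψ (eqv i)) (fun i => (a : ℤ) * (hh (eqv i).1 : ℤ) + b) E2 := by
    obtain ⟨j₀, hj₀, hj⟩ := hE
    have e1 : (eqv (eqv.symm (j₀, false))).1 = j₀ := by rw [Equiv.apply_symm_apply]
    refine ⟨eqv.symm (j₀, false), ?_, ?_⟩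
    · rw [hE2, mem_filter, e1]
      exact ⟨mem_univ _, hj₀⟩
    · rw [hcl _ (by rw [e1]; exact hj₀), e1]
      rcases hj with hj | ⟨hj1, j, hj2, hj3, hj4⟩
      · exact Or.inl hj
      · refine Or.inr ⟨hj1, eqv.symm (j, false), ?_, 0, ?_⟩
        · unfold cl
          rw [mem_filter, hE2, mem_filter, Equiv.apply_symm_apply]
          refine ⟨⟨mem_univ _, hj2⟩, ?_⟩
          simp only [Equiv.apply_symm_apply]
          exact (f2_par a ha ψ _ _).2 ⟨rfl, hj3⟩
        · simp only [Equiv.apply_symm_apply, f2, Fin.cons_zero, Bool.false_eq_true, if_false]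
          intro h5
          have h6 := mul_left_cancel₀ ha'.ne' h5
          have h7 : (a : ℤ) * (hh j₀ : ℤ) = (a : ℤ) * (hh j : ℤ) := by linarith
          have h8 := mul_left_cancel₀ ha'.ne' h7
          exact hj4 (by exact_mod_cast h8.symm)
  have h1 := h E2 hgE 0 (Fin.cons (C * B) (Fin.cons (C * B) (fun _ => D * B))) (by
    have key : ∀ X : ℕ, 1 ≤ X → X ≤ R → N ≤ (R + 2) * 2 ^ i * (X * B) ∧
        2 ^ i * (X * B) ≤ (R + 2) * N := by
      intro X hX hXR
      constructor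
      · calc N ≤ 2 * (2 ^ i * B) := hBge
          _ ≤ (R + 2) * (2 ^ i * B) := Nat.mul_le_mul_right _ (by omega)
          _ = (R + 2) * 2 ^ i * (1 * B) := by ring
          _ ≤ (R + 2) * 2 ^ i * (X * B) := Nat.mul_le_mul_left _ (Nat.mul_le_mul_right _ hX)
      · calc 2 ^ i * (X * B) = X * (2 ^ i * B) := by ring
          _ ≤ (R + 2) * N := Nat.mul_le_mul (by omega) hBle
    intro s
    refine ⟨?_, ?_⟩
    · simp only [Pi.zero_apply, abs_zero, mul_zero]
      positivity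
    · refine Fin.cases ?_ (fun s => ?_) s
      · simp only [Fin.cons_zero]
        exact key C hC hCR
      · refine Fin.cases ?_ (fun t => ?_) s
        · simp only [Fin.cons_zero, Fin.cons_succ]
          exact key C hC hCR
        · simp only [Fin.cons_succ]
          exact key D hD hDR)
  rw [sum_conv2] at h1
  have h2 : ∀ z : (ℕ × ℕ) × (Fin r → ℕ),
      ∏ j ∈ E2, lamA (∑ s, f2 a ψ (eqv j) s * emb2 z s + ((a : ℤ) * (hh (eqv j).1 : ℤ) + b)) =
        (∏ j ∈ E, sg (VV a b ψ hh z.1.1 z.2 j)) * ∏ j ∈ E, sg (VV a b ψ hh z.1.2 z.2 j) := by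
    intro z
    have e1 : ∀ j : Fin k, lamA (∑ s, f2 a ψ (eqv j) s * emb2 z s +
        ((a : ℤ) * (hh (eqv j).1 : ℤ) + b)) =
        (fun q : I × Bool => sg (VV a b ψ hh (if q.2 then z.1.2 else z.1.1) z.2 q.1)) (eqv j) := by
      intro j
      rw [f2_val, lamA_gg]
      rfl
    rw [prod_congr rfl fun j _ => e1 j]
    have e2 : E2 = (E ×ˢ (univ : Finset Bool)).map eqv.symm.toEmbedding := by
      ext j
      rw [hE2, mem_filter, mem_map]
      constructor
      · rintro ⟨-, h⟩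
        refine ⟨eqv j, mem_product.2 ⟨h, mem_univ _⟩, ?_⟩
        simp
      · rintro ⟨q, hq, rfl⟩
        refine ⟨mem_univ _, ?_⟩
        have := (mem_product.1 hq).1
        simpa using this
    rw [e2, Finset.prod_map]
    simp only [Equiv.coe_toEmbedding, Equiv.apply_symm_apply]
    rw [Finset.prod_product]
    rw [← Finset.prod_mul_distrib]
    refine prod_congr rfl fun j _ => ?_
    rw [Fintype.prod_bool]
    simp only [if_true, Bool.false_eq_true, if_false]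
    rw [mul_comm]
  rw [sum_congr rfl fun z _ => h2 z] at h1
  have h3 : ∑ z ∈ (Icc 1 (C * B) ×ˢ Icc 1 (C * B)) ×ˢ YB r (D * B),
      (∏ j ∈ E, sg (VV a b ψ hh z.1.1 z.2 j)) * ∏ j ∈ E, sg (VV a b ψ hh z.1.2 z.2 j) =
      ∑ y ∈ YB r (D * B), (∑ n ∈ Icc 1 (C * B), ∏ j ∈ E, sg (VV a b ψ hh n y j)) ^ 2 := by
    rw [Finset.sum_product_right]
    refine sum_congr rfl fun y _ => ?_
    rw [sq, Finset.sum_mul_sum, Finset.sum_product]
  rw [h3] at h1
  refine (le_abs_self _).trans (h1.trans (le_of_eq ?_))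
  congr 1
  rw [Fin.prod_univ_succ, Fin.prod_univ_succ]
  simp only [Fin.cons_zero, Fin.cons_succ, prod_const, card_univ, Fintype.card_fin]
  ring

end

end Pool.Agent.H569.SP
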