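import Pool.Agent.H569.GP1

/-!
# Chowla products at sumsets: the telescoping identity with `2 ^ k` points

For `k + 1` forms `L_j = a_j n + b_j p`, pairwise non-proportional, `k ≥ 1`, there is a parallelepiped with `2 ^ k`
vertices `(n, p)` over which all the values of the forms cancel in pairs, but for two values of the first form.
-/

set_option autoImplicit false

namespace Pool.Agent.H569.SS

open Finset

/-- the steps `1, 1, 2, 4, 8, …` -/
def cc (i : ℕ) : ℕ := if i = 0 then 1 else 2 ^ (i - 1)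

theorem cc_succ (i : ℕ) (hi : 1 ≤ i) : cc i = 2 ^ (i - 1) := if_neg (by omega)

theorem cc_pos (i : ℕ) : 0 < cc i := by
  unfold cc
  split_ifs <;> positivity

theorem z2 (c : ZMod 2) : c + c = 0 := Pool.Agent.H569.GP.add_self c

/-- the sum over the subsets of `0, ..., k - 1` of a function of the weighted sum -/
theorem walk (F : ℤ → ZMod 2) (h : ℤ) (k : ℕ) : ∀ X : ℤ,
    ∑ ω ∈ (range (k + 1)).powerset, F (X + ∑ i ∈ ω, h * (cc i : ℤ)) = F X + F (X + 2 ^ k * h) := by
  induction k with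
  | zero =>
    intro X
    rw [zero_add, range_one]
    rw [show ({0} : Finset ℕ) = insert 0 ∅ from rfl, sum_powerset_insert (notMem_empty 0)]
    simp [cc]
  | succ k ih =>
    intro X
    rw [range_add_one, sum_powerset_insert notMem_range_self, ih X]
    have h1 : ∑ ω ∈ (range (k + 1)).powerset, F (X + ∑ i ∈ insert (k + 1) ω, h * (cc i : ℤ)) =
        ∑ ω ∈ (range (k + 1)).powerset, F ((X + 2 ^ k * h) + ∑ i ∈ ω, h * (cc i : ℤ)) := by
      refine sum_congr rfl fun ω hω => ?_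
      have h2 : k + 1 ∉ ω := fun h3 => notMem_range_self (mem_powerset.1 hω h3)
      rw [sum_insert h2, cc_succ _ (by omega)]
      congr 1
      push_cast
      ring
    rw [h1, ih]
    have h3 : X + 2 ^ k * h + 2 ^ k * h = X + 2 ^ (k + 1) * h := by ring
    rw [h3]
    have h4 := z2 (F (X + 2 ^ k * h))
    linear_combination h4

/-- a direction which changes nothing kills the sum -/
theorem kill (F : ℤ → ZMod 2) (q : ℕ → ℤ) (k i : ℕ) (hi : i < k) (hq : q i = 0) (X : ℤ) :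
    ∑ ω ∈ (range k).powerset, F (X + ∑ t ∈ ω, q t) = 0 := by
  have h1 : range k = insert i ((range k).erase i) := (insert_erase (mem_range.2 hi)).symm
  rw [h1, sum_powerset_insert (notMem_erase _ _)]
  have h2 : ∑ ω ∈ ((range k).erase i).powerset, F (X + ∑ t ∈ insert i ω, q t) =
      ∑ ω ∈ ((range k).erase i).powerset, F (X + ∑ t ∈ ω, q t) := by
    refine sum_congr rfl fun ω hω => ?_
    have h3 : i ∉ ω := fun h4 => notMem_erase i _ (mem_powerset.1 hω h4)
    rw [sum_insert h3, hq, zero_add]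
  rw [h2]
  exact z2 _

/-- the directions -/
theorem exists_dir (k : ℕ) (a b : Fin (k + 1) → ℤ)
    (hD : ∀ j : Fin (k + 1), j ≠ 0 → a j * b 0 ≠ a 0 * b j) :
    ∃ (s q : ℕ → ℤ) (h : ℤ), h ≠ 0 ∧ (∀ i, i < k → a 0 * s i + b 0 * q i = h * cc i) ∧
      ∀ j : Fin k, a j.succ * s j + b j.succ * q j = 0 := by
  classical
  -- the determinants
  obtain ⟨D, hD1⟩ : ∃ D : ℕ → ℤ, ∀ j : Fin k, D j = a j.succ * b 0 - a 0 * b j.succ := by
    refine ⟨fun i => if hi : i < k then a (⟨i, hi⟩ : Fin k).succ * b 0 - a 0 * b (⟨i, hi⟩ : Fin k).succ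
      else 1, fun j => ?_⟩
    simp
  have hD0 : ∀ i ∈ range k, D i ≠ 0 := by
    intro i hi
    have h1 := hD1 ⟨i, mem_range.1 hi⟩
    rw [show ((⟨i, mem_range.1 hi⟩ : Fin k) : ℕ) = i from rfl] at h1
    rw [h1]
    have h2 := hD (⟨i, mem_range.1 hi⟩ : Fin k).succ (Fin.succ_ne_zero _)
    intro h3
    exact h2 (by linarith)
  refine ⟨fun i => if hi : i < k then -(b (⟨i, hi⟩ : Fin k).succ * ((∏ t ∈ (range k).erase i, D t) * cc i)) else 0,
    fun i => if hi : i < k then a (⟨i, hi⟩ : Fin k).succ * ((∏ t ∈ (range k).erase i, D t) * cc i) else 0,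
    ∏ t ∈ range k, D t, prod_ne_zero_iff.2 hD0, fun i hi => ?_, fun j => ?_⟩
  · beta_reduce
    rw [dif_pos hi, dif_pos hi]
    have h1 := hD1 ⟨i, hi⟩
    rw [show ((⟨i, hi⟩ : Fin k) : ℕ) = i from rfl] at h1
    rw [← mul_prod_erase (range k) D (mem_range.2 hi), h1]
    ring
  · beta_reduce
    rw [dif_pos j.2, dif_pos j.2]
    simp only [Fin.eta]
    ring

/-- all values cancel but for two of the first form -/
theorem telescope (k : ℕ) (a b : Fin (k + 2) → ℤ) (s q : ℕ → ℤ) (h : ℤ)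
    (h0 : ∀ i, i < k + 1 → a 0 * s i + b 0 * q i = h * cc i)
    (hj : ∀ j : Fin (k + 1), a j.succ * s j + b j.succ * q j = 0) (F : Fin (k + 2) → ℤ → ZMod 2)
    (T P d : ℤ) :
    ∑ ω ∈ (range (k + 1)).powerset, ∑ j, F j (a j * (T + d * ∑ i ∈ ω, s i) + b j * (P + d * ∑ i ∈ ω, q i)) =
      F 0 (a 0 * T + b 0 * P) + F 0 (a 0 * T + b 0 * P + 2 ^ k * (d * h)) := by
  classical
  rw [Finset.sum_comm, Fin.sum_univ_succ]
  have h1 : ∀ j : Fin (k + 1), ∑ ω ∈ (range (k + 1)).powerset,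
      F j.succ (a j.succ * (T + d * ∑ i ∈ ω, s i) + b j.succ * (P + d * ∑ i ∈ ω, q i)) = 0 := by
    intro j
    have h2 := kill (F j.succ) (fun t => d * (a j.succ * s t + b j.succ * q t)) (k + 1) j j.2
      (by rw [hj j, mul_zero]) (a j.succ * T + b j.succ * P)
    rw [← h2]
    refine sum_congr rfl fun ω _ => ?_
    congr 1
    rw [← mul_sum, sum_add_distrib, ← mul_sum, ← mul_sum]
    ring
  rw [sum_eq_zero fun j _ => h1 j, add_zero]
  have h3 := walk (F 0) (d * h) k (a 0 * T + b 0 * P)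
  rw [← h3]
  refine sum_congr rfl fun ω hω => ?_
  congr 1
  have h4 : ∑ i ∈ ω, d * h * (cc i : ℤ) = d * (a 0 * ∑ i ∈ ω, s i + b 0 * ∑ i ∈ ω, q i) := by
    rw [mul_sum, mul_sum, ← sum_add_distrib, mul_sum]
    refine sum_congr rfl fun i hi => ?_
    rw [h0 i (mem_range.1 (mem_powerset.1 hω hi))]
    ring
  rw [h4]
  ring

end Pool.Agent.H569.SS
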