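import Pool.Graph.R_pool_sql_team_seeded_64922ed1.X23.CS2

/-!
# Exponential sums of a sequence minus its averages over the windows of a progression
-/

set_option autoImplicit false

open Finset Filter

namespace Pool.Agent.H569.SS

open Pool.Agent.X23.CS (e norm_e e_add e_zero e_eq_one_iff orth)

/-- the average over the window `n + Q, n + 2 Q, ..., n + L Q` -/
noncomputable def wv (f : ℕ → ℝ) (Q L n : ℕ) : ℝ := (1 / (L : ℝ)) * ∑ j ∈ Icc 1 L, f (n + Q * j)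

/-- the exponential sum -/
noncomputable def Se (f : ℕ → ℝ) (N : ℕ) (α : ℝ) : ℂ := ∑ n ∈ Icc 1 N, (f n : ℂ) * e (α * n)

theorem one_sub_e (x : ℝ) : ‖1 - e x‖ ≤ 7 * |x| := by
  have h1 : e x = Complex.exp (Complex.I * ((2 * Real.pi * x : ℝ) : ℂ)) := by
    unfold e
    congr 1
    push_cast
    ring
  rw [norm_sub_rev, h1]
  refine (Real.norm_exp_I_mul_ofReal_sub_one_le).trans ?_
  rw [Real.norm_eq_abs, abs_mul, abs_mul, abs_of_pos Real.pi_pos, abs_of_pos (by norm_num : (0 : ℝ) < 2)]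
  have := Real.pi_lt_d2
  have h2 := abs_nonneg x
  nlinarith

theorem shift_err (f : ℕ → ℝ) (hf : ∀ n, |f n| ≤ 1) (N d : ℕ) (α : ℝ) :
    ‖∑ n ∈ Icc 1 N, (f (n + d) : ℂ) * e (α * n) - e (-(α * d)) * Se f N α‖ ≤ 2 * d := by
  have h1 : ∑ n ∈ Icc 1 N, (f (n + d) : ℂ) * e (α * n) =
      e (-(α * d)) * ∑ m ∈ Ioc d (d + N), (f m : ℂ) * e (α * m) := by
    have h2 : Ioc d (d + N) = (Icc 1 N).map (addRightEmbedding d) := by
      rw [map_add_right_Icc]
      ext x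
      rw [mem_Ioc, mem_Icc]
      omega
    rw [h2, sum_map, mul_sum]
    refine sum_congr rfl fun n _ => ?_
    rw [addRightEmbedding_apply, mul_left_comm, ← e_add]
    congr 2
    push_cast
    ring
  have hb : ∀ s : Finset ℕ, ‖∑ m ∈ s, (f m : ℂ) * e (α * m)‖ ≤ s.card := by
    intro s
    refine (norm_sum_le _ _).trans ?_
    refine (sum_le_sum (g := fun _ => (1 : ℝ)) fun m _ => ?_).trans ?_
    · rw [norm_mul, norm_e, mul_one, Complex.norm_real]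
      exact hf m
    · rw [sum_const, nsmul_eq_mul, mul_one]
  have h3 : ∑ m ∈ Ioc d (d + N), (f m : ℂ) * e (α * m) - Se f N α =
      ∑ m ∈ Ioc N (N + d), (f m : ℂ) * e (α * m) - ∑ m ∈ Icc 1 d, (f m : ℂ) * e (α * m) := by
    unfold Se
    have h4 : ∑ m ∈ Icc 1 d, (f m : ℂ) * e (α * m) + ∑ m ∈ Ioc d (d + N), (f m : ℂ) * e (α * m) =
        ∑ m ∈ Icc 1 N, (f m : ℂ) * e (α * m) + ∑ m ∈ Ioc N (N + d), (f m : ℂ) * e (α * m) := by
      rw [← sum_union, ← sum_union]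
      · congr 1
        ext x
        simp only [mem_union, mem_Icc, mem_Ioc]
        omega
      · rw [disjoint_left]
        intro x hx hx'
        rw [mem_Icc] at hx
        rw [mem_Ioc] at hx'
        omega
      · rw [disjoint_left]
        intro x hx hx'
        rw [mem_Icc] at hx
        rw [mem_Ioc] at hx'
        omega
    rw [sub_eq_sub_iff_add_eq_add, add_comm, h4]
    ring
  rw [h1, ← mul_sub, norm_mul, norm_e, one_mul, h3]
  refine (norm_sub_le _ _).trans ?_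
  have h5 := hb (Ioc N (N + d))
  have h6 := hb (Icc 1 d)
  rw [Nat.card_Ioc, Nat.add_sub_cancel_left] at h5
  rw [Nat.card_Icc, Nat.add_sub_cancel] at h6
  linarith

/-- the exponential sums of the difference -/
theorem diff_bound (f : ℕ → ℝ) (hf : ∀ n, |f n| ≤ 1) (N Q L : ℕ) (hL : 1 ≤ L) (α η : ℝ)
    (hη : ∀ j ∈ Icc 1 L, ‖1 - e (-(α * ((Q * j : ℕ) : ℝ)))‖ ≤ η) :
    ‖∑ n ∈ Icc 1 N, ((f n - wv f Q L n : ℝ) : ℂ) * e (α * n)‖ ≤ η * ‖Se f N α‖ + 2 * (Q * L) := by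
  have hLr : (0 : ℝ) < L := by exact_mod_cast hL
  have hLc : (L : ℂ) ≠ 0 := by exact_mod_cast hLr.ne'
  have h1 : ∑ n ∈ Icc 1 N, ((f n - wv f Q L n : ℝ) : ℂ) * e (α * n) =
      (1 / (L : ℂ)) * ∑ j ∈ Icc 1 L, (Se f N α - ∑ n ∈ Icc 1 N, (f (n + Q * j) : ℂ) * e (α * n)) := by
    rw [sum_sub_distrib, sum_const, Nat.card_Icc, Nat.add_sub_cancel, nsmul_eq_mul, mul_sub, ← mul_assoc,
      one_div, inv_mul_cancel₀ hLc, one_mul, sum_comm, mul_sum]
    unfold Se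
    rw [← sum_sub_distrib]
    refine sum_congr rfl fun n _ => ?_
    unfold wv
    rw [← sum_mul]
    push_cast
    ring
  have h2 : ∀ j ∈ Icc 1 L, ‖Se f N α - ∑ n ∈ Icc 1 N, (f (n + Q * j) : ℂ) * e (α * n)‖ ≤
      η * ‖Se f N α‖ + 2 * (Q * L) := by
    intro j hj
    have h3 := shift_err f hf N (Q * j) α
    have h4 : Se f N α - ∑ n ∈ Icc 1 N, (f (n + Q * j) : ℂ) * e (α * n) =
        (1 - e (-(α * ((Q * j : ℕ) : ℝ)))) * Se f N α -
          (∑ n ∈ Icc 1 N, (f (n + Q * j) : ℂ) * e (α * n) - e (-(α * ((Q * j : ℕ) : ℝ))) * Se f N α) := by ring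
    rw [h4]
    refine (norm_sub_le _ _).trans ?_
    rw [norm_mul]
    have h5 : ((Q * j : ℕ) : ℝ) ≤ Q * L := by
      have : Q * j ≤ Q * L := Nat.mul_le_mul_left Q (mem_Icc.1 hj).2
      exact_mod_cast this
    have h6 := mul_le_mul_of_nonneg_right (hη j hj) (norm_nonneg (Se f N α))
    linarith
  rw [h1, norm_mul]
  have h3 : ‖(1 / (L : ℂ))‖ = 1 / L := by
    rw [norm_div, norm_one, Complex.norm_natCast]
  rw [h3]
  have h4 := (norm_sum_le (Icc 1 L) fun j => (Se f N α - ∑ n ∈ Icc 1 N, (f (n + Q * j) : ℂ) * e (α * n))).trans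
    (sum_le_sum h2)
  rw [sum_const, Nat.card_Icc, Nat.add_sub_cancel, nsmul_eq_mul] at h4
  calc 1 / (L : ℝ) * _ ≤ 1 / (L : ℝ) * (L * (η * ‖Se f N α‖ + 2 * (Q * L))) :=
        mul_le_mul_of_nonneg_left h4 (by positivity)
    _ = _ := by field_simp

theorem Se_le (f : ℕ → ℝ) (hf : ∀ n, |f n| ≤ 1) (N : ℕ) (α : ℝ) : ‖Se f N α‖ ≤ N := by
  unfold Se
  refine (norm_sum_le _ _).trans ?_
  refine (sum_le_sum (g := fun _ => (1 : ℝ)) fun m _ => ?_).trans ?_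
  · rw [norm_mul, norm_e, mul_one, Complex.norm_real]
    exact hf m
  · rw [sum_const, nsmul_eq_mul, mul_one, Nat.card_Icc, Nat.add_sub_cancel]

/-- near a fraction with the denominator `q ∣ Q` -/
theorem major (α : ℝ) (q Q j : ℕ) (A : ℤ) (hq : 1 ≤ q) (hqQ : q ∣ Q) :
    ‖1 - e (-(α * ((Q * j : ℕ) : ℝ)))‖ ≤ 7 * (|α - A / q| * ((Q * j : ℕ) : ℝ)) := by
  obtain ⟨s, hs⟩ := hqQ
  have hq0 : (q : ℝ) ≠ 0 := by positivity
  have h1 : e (-(α * ((Q * j : ℕ) : ℝ))) = e (-((α - A / q) * ((Q * j : ℕ) : ℝ))) := by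
    have h2 : -(α * ((Q * j : ℕ) : ℝ)) = -((α - A / q) * ((Q * j : ℕ) : ℝ)) + ((-(A * (s * j)) : ℤ) : ℝ) := by
      rw [hs]
      push_cast
      field_simp
      ring
    rw [h2, e_add, (e_eq_one_iff _).2 ⟨-(A * (s * j)), rfl⟩, mul_one]
  rw [h1]
  refine (one_sub_e _).trans ?_
  rw [abs_neg, abs_mul, Nat.abs_cast]

end Pool.Agent.H569.SS
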