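import Pool.Graph.R_pool_sql_team_seeded_64922ed1.X23.CS2

/-!
# Bilinear sums over a sumset and exponential sums
-/

set_option autoImplicit false

open Finset Filter

namespace Pool.Agent.H569.SS

open Pool.Agent.X23.CS (e norm_e e_add e_zero e_eq_one_iff orth)

theorem e_neg_conj (x : ℝ) : (starRingEnd ℂ) (e x) = e (-x) := by
  unfold e
  rw [← Complex.exp_conj]
  congr 1
  simp only [map_mul, Complex.conj_ofReal, Complex.conj_I, map_ofNat]
  push_cast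
  ring

/-- extension by zero -/
noncomputable def Gz (N : ℕ) (G : ℕ → ℂ) (m : ℤ) : ℂ := if 1 ≤ m ∧ m ≤ N then G m.toNat else 0

/-- Fourier inversion modulo `P` -/
theorem inversion (N P : ℕ) (hP : 1 ≤ P) (G : ℕ → ℂ) (m : ℤ) (hm : |m| + N < P) :
    Gz N G m = (1 / (P : ℂ)) * ∑ r ∈ range P, (∑ n ∈ Icc 1 N, G n * e ((r : ℝ) / P * n)) * e (-((r : ℝ) / P * m)) := by
  have hP0 : (P : ℝ) ≠ 0 := by positivity
  have hPc : (P : ℂ) ≠ 0 := by exact_mod_cast hP0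
  have h1 : ∑ r ∈ range P, (∑ n ∈ Icc 1 N, G n * e ((r : ℝ) / P * n)) * e (-((r : ℝ) / P * m)) =
      ∑ n ∈ Icc 1 N, G n * ∑ r ∈ range P, e ((r : ℝ) * ((((n : ℤ) - m : ℤ) : ℝ) / P)) := by
    rw [sum_congr rfl fun r _ => sum_mul _ _ _, sum_comm]
    refine sum_congr rfl fun n _ => ?_
    rw [mul_sum]
    refine sum_congr rfl fun r _ => ?_
    rw [mul_assoc, ← e_add]
    congr 2
    push_cast
    field_simp
    ring
  rw [h1, sum_congr rfl fun n _ => by rw [orth P hP]]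
  have h2 : ∀ n ∈ Icc 1 N, G n * (if (P : ℤ) ∣ ((n : ℤ) - m) then (P : ℂ) else 0) =
      if (n : ℤ) = m then (P : ℂ) * G n else 0 := by
    intro n hn
    rw [mem_Icc] at hn
    by_cases h3 : (n : ℤ) = m
    · rw [if_pos h3, if_pos (by rw [h3, sub_self]; exact dvd_zero _), mul_comm]
    · rw [if_neg h3, if_neg, mul_zero]
      intro h4
      apply h3
      have h5 : |(n : ℤ) - m| < P := by
        have := abs_sub (n : ℤ) m
        have h6 : |(n : ℤ)| = n := abs_of_nonneg (by positivity)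
        omega
      have h6 := Int.eq_zero_of_abs_lt_dvd h4 h5
      omega
  rw [sum_congr rfl h2]
  unfold Gz
  split_ifs with h3
  · rw [sum_eq_single_of_mem m.toNat (by rw [mem_Icc]; omega)]
    · rw [if_pos (Int.toNat_of_nonneg (by omega)), ← mul_assoc, one_div, inv_mul_cancel₀ hPc, one_mul]
    · intro n _ hn
      rw [if_neg]
      omega
  · rw [sum_eq_zero, mul_zero]
    intro n hn
    rw [mem_Icc] at hn
    rw [if_neg]
    omega

/-- Parseval modulo `P` -/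
theorem parseval (P : ℕ) (hP : 1 ≤ P) (A : Finset ℤ) (u : ℤ → ℂ) (c : ℤ) (hc : c ≠ 0)
    (hA : ∀ x ∈ A, 2 * |c * x| < P) :
    ∑ r ∈ range P, ‖∑ x ∈ A, u x * e (-((r : ℝ) / P * (c * x)))‖ ^ 2 = P * ∑ x ∈ A, ‖u x‖ ^ 2 := by
  have hP0 : (P : ℝ) ≠ 0 := by positivity
  have h1 : ∀ r ∈ range P, (((‖∑ x ∈ A, u x * e (-((r : ℝ) / P * (c * x)))‖ ^ 2 : ℝ)) : ℂ) =
      ∑ x ∈ A, ∑ y ∈ A, u x * (starRingEnd ℂ) (u y) * e ((r : ℝ) * (((c * (y - x) : ℤ) : ℝ) / P)) := by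
    intro r _
    push_cast
    rw [← Complex.mul_conj', map_sum, sum_mul_sum]
    refine sum_congr rfl fun x _ => sum_congr rfl fun y _ => ?_
    rw [map_mul, e_neg_conj, mul_mul_mul_comm, ← e_add]
    congr 2
    field_simp
    ring
  have h2 : ((∑ r ∈ range P, ‖∑ x ∈ A, u x * e (-((r : ℝ) / P * (c * x)))‖ ^ 2 : ℝ) : ℂ) =
      ((P * ∑ x ∈ A, ‖u x‖ ^ 2 : ℝ) : ℂ) := by
    rw [Complex.ofReal_sum, sum_congr rfl h1, sum_comm, Complex.ofReal_mul, Complex.ofReal_sum,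
      Complex.ofReal_natCast, mul_sum]
    refine sum_congr rfl fun x hx => ?_
    rw [sum_comm, Complex.ofReal_pow]
    have h3 : ∀ y ∈ A, ∑ r ∈ range P, u x * (starRingEnd ℂ) (u y) * e ((r : ℝ) * (((c * (y - x) : ℤ) : ℝ) / P)) =
        if y = x then (P : ℂ) * (‖u x‖ : ℂ) ^ 2 else 0 := by
      intro y hy
      rw [← mul_sum, orth P hP]
      by_cases h4 : y = x
      · rw [if_pos h4, h4, sub_self, mul_zero, if_pos (dvd_zero _), Complex.mul_conj', mul_comm]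
      · rw [if_neg h4, if_neg, mul_zero]
        intro h5
        have h6 := hA x hx
        have h7 := hA y hy
        have h8 : |c * (y - x)| < P := by
          rw [mul_sub]
          have := abs_sub (c * y) (c * x)
          omega
        have h9 := Int.eq_zero_of_abs_lt_dvd h5 h8
        rcases mul_eq_zero.1 h9 with h10 | h10
        · exact hc h10
        · exact h4 (by omega)
    rw [sum_congr rfl h3, sum_ite_eq' A x, if_pos hx]
  exact_mod_cast h2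

theorem cs_sqrt {ι : Type} (s : Finset ι) (f g : ι → ℝ) :
    ∑ i ∈ s, f i * g i ≤ Real.sqrt (∑ i ∈ s, f i ^ 2) * Real.sqrt (∑ i ∈ s, g i ^ 2) := by
  rw [← Real.sqrt_mul (sum_nonneg fun i _ => sq_nonneg _)]
  refine Real.le_sqrt_of_sq_le ?_
  exact sum_mul_sq_le_sq_mul_sq s f g

/-- **bilinear sums** -/
theorem bilin (N : ℕ) (G : ℕ → ℂ) (B : ℝ) (hG : ∀ θ : ℝ, ‖∑ n ∈ Icc 1 N, G n * e (θ * n)‖ ≤ B) (A₁ A₂ : Finset ℤ)
    (u v : ℤ → ℂ) (α β γ : ℤ) (hα : α ≠ 0) (hβ : β ≠ 0) :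
    ‖∑ x ∈ A₁, ∑ y ∈ A₂, u x * v y * Gz N G (α * x + β * y + γ)‖ ≤
      B * (Real.sqrt (∑ x ∈ A₁, ‖u x‖ ^ 2) * Real.sqrt (∑ y ∈ A₂, ‖v y‖ ^ 2)) := by
  obtain ⟨S₁, hS₁⟩ : ∃ S₁ : ℕ, ∀ x ∈ A₁, (α * x).natAbs ≤ S₁ :=
    ⟨∑ x ∈ A₁, (α * x).natAbs, fun x hx => single_le_sum (f := fun x => (α * x).natAbs) (fun _ _ => Nat.zero_le _) hx⟩
  obtain ⟨S₂, hS₂⟩ : ∃ S₂ : ℕ, ∀ y ∈ A₂, (β * y).natAbs ≤ S₂ :=
    ⟨∑ y ∈ A₂, (β * y).natAbs, fun x hx => single_le_sum (f := fun x => (β * x).natAbs) (fun _ _ => Nat.zero_le _) hx⟩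
  obtain ⟨P, hP⟩ : ∃ P : ℕ, P = 1 + N + 2 * S₁ + 2 * S₂ + γ.natAbs := ⟨_, rfl⟩
  have hP1 : 1 ≤ P := by omega
  have hPr : (0 : ℝ) < P := by exact_mod_cast hP1
  have hPc : (P : ℂ) ≠ 0 := by exact_mod_cast hPr.ne'
  have hB0 : 0 ≤ B := (norm_nonneg _).trans (hG 0)
  have h1 : ∑ x ∈ A₁, ∑ y ∈ A₂, u x * v y * Gz N G (α * x + β * y + γ) =
      (1 / (P : ℂ)) * ∑ r ∈ range P, (∑ n ∈ Icc 1 N, G n * e ((r : ℝ) / P * n)) * e (-((r : ℝ) / P * γ)) *
        ((∑ x ∈ A₁, u x * e (-((r : ℝ) / P * (α * x)))) * ∑ y ∈ A₂, v y * e (-((r : ℝ) / P * (β * y)))) := by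
    have h2 : ∀ x ∈ A₁, ∀ y ∈ A₂, u x * v y * Gz N G (α * x + β * y + γ) =
        (1 / (P : ℂ)) * ∑ r ∈ range P, (∑ n ∈ Icc 1 N, G n * e ((r : ℝ) / P * n)) * e (-((r : ℝ) / P * γ)) *
          ((u x * e (-((r : ℝ) / P * (α * x)))) * (v y * e (-((r : ℝ) / P * (β * y))))) := by
      intro x hx y hy
      have h3 := hS₁ x hx
      have h4 := hS₂ y hy
      rw [inversion N P hP1 G _ (by
        have h5 := abs_add_three (α * x) (β * y) γ
        simp only [Int.abs_eq_natAbs] at h5 ⊢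
        omega), mul_left_comm, mul_sum]
      congr 1
      refine sum_congr rfl fun r _ => ?_
      have h5 : e (-((r : ℝ) / P * ((α * x + β * y + γ : ℤ) : ℝ))) =
          e (-((r : ℝ) / P * γ)) * (e (-((r : ℝ) / P * (α * x))) * e (-((r : ℝ) / P * (β * y)))) := by
        rw [← e_add, ← e_add]
        congr 1
        push_cast
        ring
      rw [h5]
      ring
    rw [sum_congr rfl fun x hx => sum_congr rfl fun y hy => h2 x hx y hy]
    simp only [← mul_sum]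
    congr 1
    rw [sum_congr rfl fun x _ => sum_comm, sum_comm]
    refine sum_congr rfl fun r _ => ?_
    rw [sum_mul_sum, mul_sum]
    refine sum_congr rfl fun x _ => ?_
    rw [mul_sum]
  rw [h1, norm_mul, norm_div, norm_one, Complex.norm_natCast]
  have h2 : ‖∑ r ∈ range P, (∑ n ∈ Icc 1 N, G n * e ((r : ℝ) / P * n)) * e (-((r : ℝ) / P * γ)) *
        ((∑ x ∈ A₁, u x * e (-((r : ℝ) / P * (α * x)))) * ∑ y ∈ A₂, v y * e (-((r : ℝ) / P * (β * y))))‖ ≤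
      B * ∑ r ∈ range P, ‖∑ x ∈ A₁, u x * e (-((r : ℝ) / P * (α * x)))‖ *
        ‖∑ y ∈ A₂, v y * e (-((r : ℝ) / P * (β * y)))‖ := by
    refine (norm_sum_le _ _).trans ?_
    rw [mul_sum]
    refine sum_le_sum fun r _ => ?_
    rw [norm_mul, norm_mul, norm_mul, norm_e, mul_one]
    exact mul_le_mul_of_nonneg_right (hG _) (by positivity)
  have h3 := cs_sqrt (range P) (fun r => ‖∑ x ∈ A₁, u x * e (-((r : ℝ) / P * (α * x)))‖)
    (fun r => ‖∑ y ∈ A₂, v y * e (-((r : ℝ) / P * (β * y)))‖)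
  rw [parseval P hP1 A₁ u α hα (fun x hx => by have := hS₁ x hx; rw [Int.abs_eq_natAbs]; omega),
    parseval P hP1 A₂ v β hβ (fun x hx => by have := hS₂ x hx; rw [Int.abs_eq_natAbs]; omega), Real.sqrt_mul hPr.le,
    Real.sqrt_mul hPr.le] at h3
  have h4 : Real.sqrt P * Real.sqrt (∑ x ∈ A₁, ‖u x‖ ^ 2) * (Real.sqrt P * Real.sqrt (∑ y ∈ A₂, ‖v y‖ ^ 2)) =
      P * (Real.sqrt (∑ x ∈ A₁, ‖u x‖ ^ 2) * Real.sqrt (∑ y ∈ A₂, ‖v y‖ ^ 2)) := by
    have : Real.sqrt P * Real.sqrt P = P := Real.mul_self_sqrt hPr.le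
    calc _ = (Real.sqrt P * Real.sqrt P) * (Real.sqrt (∑ x ∈ A₁, ‖u x‖ ^ 2) * Real.sqrt (∑ y ∈ A₂, ‖v y‖ ^ 2)) := by
          ring
      _ = _ := by rw [this]
  rw [h4] at h3
  calc 1 / (P : ℝ) * _ ≤ 1 / (P : ℝ) * (B * (P * (Real.sqrt (∑ x ∈ A₁, ‖u x‖ ^ 2) *
        Real.sqrt (∑ y ∈ A₂, ‖v y‖ ^ 2)))) :=
        mul_le_mul_of_nonneg_left (h2.trans (mul_le_mul_of_nonneg_left h3 hB0)) (by positivity)
    _ = _ := by field_simp

/-- the trivial bound for the bilinear sums over the pairs of the range -/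
theorem schur (N : ℕ) (A₁ A₂ : Finset ℤ) (u v : ℤ → ℂ) (α β γ : ℤ) (hα : α ≠ 0) (hβ : β ≠ 0) :
    ∑ z ∈ (A₁ ×ˢ A₂).filter (fun z : ℤ × ℤ => 1 ≤ α * z.1 + β * z.2 + γ ∧ α * z.1 + β * z.2 + γ ≤ N),
      ‖u z.1‖ * ‖v z.2‖ ≤
      N * (Real.sqrt (∑ x ∈ A₁, ‖u x‖ ^ 2) * Real.sqrt (∑ y ∈ A₂, ‖v y‖ ^ 2)) := by
  classical
  have h1 := cs_sqrt ((A₁ ×ˢ A₂).filter (fun z : ℤ × ℤ => 1 ≤ α * z.1 + β * z.2 + γ ∧ α * z.1 + β * z.2 + γ ≤ N))
    (fun z => ‖u z.1‖) (fun z => ‖v z.2‖)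
  refine h1.trans ?_
  have hNr : (0 : ℝ) ≤ N := Nat.cast_nonneg N
  have h2 : ∑ z ∈ (A₁ ×ˢ A₂).filter (fun z : ℤ × ℤ => 1 ≤ α * z.1 + β * z.2 + γ ∧ α * z.1 + β * z.2 + γ ≤ N),
      ‖u z.1‖ ^ 2 ≤ N * ∑ x ∈ A₁, ‖u x‖ ^ 2 := by
    rw [sum_filter, sum_product, mul_sum]
    refine sum_le_sum fun x _ => ?_
    simp only
    rw [← sum_filter, sum_const, nsmul_eq_mul]
    refine mul_le_mul_of_nonneg_right ?_ (by positivity)
    have h3 : (A₂.filter fun y => 1 ≤ α * x + β * y + γ ∧ α * x + β * y + γ ≤ N).card ≤ N := by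
      calc _ ≤ (Icc (1 : ℤ) N).card := by
            refine card_le_card_of_injOn (fun y => α * x + β * y + γ) ?_ ?_
            · intro y hy
              rw [mem_coe, mem_filter] at hy
              rw [mem_coe, mem_Icc]
              exact hy.2
            · intro y _ y' _ h
              simp only at h
              have h4 : β * y = β * y' := by linarith
              exact mul_left_cancel₀ hβ h4
        _ = N := by simp
    exact_mod_cast h3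
  have h3 : ∑ z ∈ (A₁ ×ˢ A₂).filter (fun z : ℤ × ℤ => 1 ≤ α * z.1 + β * z.2 + γ ∧ α * z.1 + β * z.2 + γ ≤ N),
      ‖v z.2‖ ^ 2 ≤ N * ∑ y ∈ A₂, ‖v y‖ ^ 2 := by
    rw [sum_filter, sum_product_right, mul_sum]
    refine sum_le_sum fun y _ => ?_
    simp only
    rw [← sum_filter, sum_const, nsmul_eq_mul]
    refine mul_le_mul_of_nonneg_right ?_ (by positivity)
    have h3 : (A₁.filter fun x => 1 ≤ α * x + β * y + γ ∧ α * x + β * y + γ ≤ N).card ≤ N := by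
      calc _ ≤ (Icc (1 : ℤ) N).card := by
            refine card_le_card_of_injOn (fun x => α * x + β * y + γ) ?_ ?_
            · intro y hy
              rw [mem_coe, mem_filter] at hy
              rw [mem_coe, mem_Icc]
              exact hy.2
            · intro x _ x' _ h
              simp only at h
              have h4 : α * x = α * x' := by linarith
              exact mul_left_cancel₀ hα h4
        _ = N := by simp
    exact_mod_cast h3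
  have h4 := Real.sqrt_le_sqrt h2
  have h5 := Real.sqrt_le_sqrt h3
  rw [Real.sqrt_mul hNr] at h4 h5
  calc _ ≤ Real.sqrt N * Real.sqrt (∑ x ∈ A₁, ‖u x‖ ^ 2) * (Real.sqrt N * Real.sqrt (∑ y ∈ A₂, ‖v y‖ ^ 2)) :=
        mul_le_mul h4 h5 (Real.sqrt_nonneg _) (by positivity)
    _ = (Real.sqrt N * Real.sqrt N) * (Real.sqrt (∑ x ∈ A₁, ‖u x‖ ^ 2) * Real.sqrt (∑ y ∈ A₂, ‖v y‖ ^ 2)) := by ring
    _ = _ := by rw [Real.mul_self_sqrt hNr]

end Pool.Agent.H569.SS
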