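import Pool.Agent.H569.SS7
import Pool.Agent.H569.SS8
import Pool.Agent.H569.SS9
import Pool.Graph.R_pool_sql_team_seeded_843ab51a.V1213.CH.Lin

/-!
# Chowla products at sumsets: the structure at almost all scales and the bilinear bound
-/

set_option autoImplicit false

open Finset Filter

namespace Pool.Agent.H569.SS

open Pool.Agent.Y958.U (LZ LZ_iff ls ls_nonneg LZ_sub LZ_union LZ_fin LZ_bdd LZ_empty diag')
open Pool.Agent.X23.CS (lam e norm_e)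
open Pool.Agent.V1213.CH (Minor lin_unif FL SL)

/-- the structure at the scale `N`: in the sense of exponential sums the product is a function of absolute value
at most `1 - 2 ^ (1 - k)` -/
def Str {k : ℕ} (a b : Fin (k + 2) → ℕ) (ε : ℝ) (N : ℕ) : Prop :=
  ∃ w : ℕ → ℝ, (∀ n ∈ Icc 1 N, |w n| ≤ 1 - 1 / 2 ^ (k + 1) + ε) ∧
    ∀ θ : ℝ, ‖∑ n ∈ Icc 1 N, ((FF a b n - w n : ℝ) : ℂ) * e (θ * n)‖ ≤ ε * N

theorem Str_mono {k : ℕ} {a b : Fin (k + 2) → ℕ} {ε ε' : ℝ} {N : ℕ} (h : ε ≤ ε') (hS : Str a b ε N) :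
    Str a b ε' N := by
  obtain ⟨w, h1, h2⟩ := hS
  refine ⟨w, fun n hn => (h1 n hn).trans (by linarith), fun θ => (h2 θ).trans ?_⟩
  exact mul_le_mul_of_nonneg_right h (Nat.cast_nonneg N)

theorem FL_eq {k : ℕ} (a b : Fin k → ℕ) (n : ℕ) : ((FL a b n : ℤ) : ℝ) = FF a b n := by
  unfold FL FF
  rw [Int.cast_prod]
  refine prod_congr rfl fun i _ => ?_
  unfold Pool.Agent.V1213.CH.lam lam
  push_cast
  rfl

theorem SL_eq {k : ℕ} (a b : Fin k → ℕ) (y : ℕ) (α : ℝ) : SL a b y α = Se (FF a b) y α := by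
  unfold SL Se
  refine sum_congr rfl fun n _ => ?_
  rw [← FL_eq]
  push_cast
  rfl

/-- the structure for one scale -/
theorem str_of {k : ℕ} (a b : Fin (k + 2) → ℕ) (ε ε₁ : ℝ) (hε : 0 < ε) (hε₁ : ε₁ ≤ ε / 4) (R K Q N : ℕ)
    (hQ : Q = R.factorial) (hK1 : 1 ≤ K) (hK : 14 * (R : ℝ) + 4 ≤ ε * K) (hN : Q * K ≤ N)
    (h1 : ∀ α : ℝ, Minor R N α → ‖Se (FF a b) N α‖ ≤ ε₁ * N)
    (h2 : ¬ ∃ n : ℕ, n ≤ N ∧ (1 - 1 / 2 ^ (k + 1) + ε) * ((N / Q / K : ℕ) : ℝ) <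
      |∑ j ∈ Icc 1 (N / Q / K), FF a b (n + Q * j)|) : Str a b ε N := by
  have hQ1 : 1 ≤ Q := by rw [hQ]; exact Nat.factorial_pos R
  obtain ⟨L, hL⟩ : ∃ L : ℕ, L = N / Q / K := ⟨_, rfl⟩
  rw [← hL] at h2
  have hL1 : 1 ≤ L := by
    rw [hL, Nat.div_div_eq_div_mul]
    exact Nat.div_pos hN (Nat.mul_pos hQ1 hK1)
  have hLr : (0 : ℝ) < L := by exact_mod_cast hL1
  have hKr : (0 : ℝ) < K := by exact_mod_cast hK1
  have hNr : (0 : ℝ) ≤ N := Nat.cast_nonneg N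
  have hQLK : (Q : ℝ) * L * K ≤ N := by
    have h3 : Q * L * K ≤ N := by
      rw [hL, mul_assoc]
      calc Q * (N / Q / K * K) ≤ Q * (N / Q) := Nat.mul_le_mul_left _ (Nat.div_mul_le_self _ _)
        _ ≤ N := Nat.mul_div_le _ _
    exact_mod_cast h3
  have hf : ∀ n, |FF a b n| ≤ 1 := fun n => (FF_abs a b n).le
  refine ⟨wv (FF a b) Q L, fun n hn => ?_, fun θ => ?_⟩
  · have h3 : |∑ j ∈ Icc 1 L, FF a b (n + Q * j)| ≤ (1 - 1 / 2 ^ (k + 1) + ε) * L := by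
      by_contra hcon
      rw [not_le] at hcon
      exact h2 ⟨n, (mem_Icc.1 hn).2, hcon⟩
    unfold wv
    rw [abs_mul, abs_of_pos (by positivity : (0 : ℝ) < 1 / L), one_div, inv_mul_le_iff₀ hLr, mul_comm]
    exact h3
  · have hQL : (Q : ℝ) * L ≤ N / K := by
      rw [le_div_iff₀ hKr]
      exact hQLK
    by_cases hM : Minor R N θ
    · have h3 := diff_bound (FF a b) hf N Q L hL1 θ 2 (fun j _ => by
        refine (norm_sub_le _ _).trans ?_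
        rw [norm_one, norm_e]
        norm_num)
      have h4 := h1 θ hM
      have h5 : ε₁ * N ≤ ε / 4 * N := mul_le_mul_of_nonneg_right hε₁ hNr
      have h6 : (N : ℝ) / K ≤ ε / 4 * N := by
        rw [div_le_iff₀ hKr]
        have h7 : (4 : ℝ) ≤ ε * K := by
          have : (0 : ℝ) ≤ 14 * R := by positivity
          linarith
        nlinarith
      linarith
    · have hex : ∃ q : ℕ, 1 ≤ q ∧ q ≤ R ∧ ∃ A : ℤ, |θ - A / q| * N < R := by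
        by_contra hcon
        apply hM
        intro q hq hqR A
        by_contra h3
        rw [not_le] at h3
        exact hcon ⟨q, hq, hqR, A, h3⟩
      obtain ⟨q, hq, hqR, A, hA⟩ := hex
      have hqQ : q ∣ Q := by rw [hQ]; exact Nat.dvd_factorial hq hqR
      have h3 := diff_bound (FF a b) hf N Q L hL1 θ (7 * (R / K)) (fun j hj => by
        refine (major θ q Q j A hq hqQ).trans ?_
        refine mul_le_mul_of_nonneg_left ?_ (by norm_num)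
        have h4 : ((Q * j : ℕ) : ℝ) ≤ N / K := by
          refine le_trans ?_ hQL
          have : Q * j ≤ Q * L := Nat.mul_le_mul_left Q (mem_Icc.1 hj).2
          exact_mod_cast this
        calc |θ - A / q| * ((Q * j : ℕ) : ℝ) ≤ |θ - A / q| * (N / K) :=
              mul_le_mul_of_nonneg_left h4 (abs_nonneg _)
          _ = |θ - A / q| * N / K := by ring
          _ ≤ R / K := div_le_div_of_nonneg_right hA.le hKr.le)
      have h4 := Se_le (FF a b) hf N θ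
      have h5 : 7 * ((R : ℝ) / K) * ‖Se (FF a b) N θ‖ ≤ 7 * (R / K) * N :=
        mul_le_mul_of_nonneg_left h4 (by positivity)
      have h6 : 7 * ((R : ℝ) / K) * N + 2 * (N / K) ≤ ε / 2 * N := by
        have h7 : 7 * ((R : ℝ) / K) * N + 2 * (N / K) = (7 * R + 2) * N / K := by ring
        rw [h7, div_le_iff₀ hKr]
        nlinarith
      have h7 : ε / 2 * N ≤ ε * N := mul_le_mul_of_nonneg_right (by linarith) hNr
      linarith

/-- **the structure at almost all scales** -/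
theorem str_LZ {k : ℕ} (a b : Fin (k + 2) → ℕ) (ha : ∀ j, 1 ≤ a j) (hab : ∀ i j, i ≠ j → a i * b j ≠ a j * b i)
    (ε : ℝ) (hε : 0 < ε) (hε1 : ε ≤ 1) : LZ {N : ℕ | ¬ Str a b ε N} := by
  classical
  rw [LZ_iff]
  intro δ hδ
  obtain ⟨ε₁, hε₁⟩ : ∃ ε₁ : ℝ, ε₁ = min (ε / 4) (δ / 4) := ⟨_, rfl⟩
  have hε₁0 : 0 < ε₁ := by rw [hε₁]; exact lt_min (by positivity) (by positivity)
  have hε₁1 : ε₁ ≤ ε / 4 := by rw [hε₁]; exact min_le_left _ _
  have hε₁2 : ε₁ ≤ δ / 4 := by rw [hε₁]; exact min_le_right _ _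
  obtain ⟨R, X₀, h1⟩ := lin_unif (by omega : 1 ≤ k + 2) b ha ε₁ hε₁0
  obtain ⟨K, hK⟩ := exists_nat_ge ((14 * (R : ℝ) + 4) / ε)
  rw [div_le_iff₀ hε, mul_comm (K : ℝ)] at hK
  have hK1 : 1 ≤ K := by
    by_contra h2
    have : K = 0 := by omega
    rw [this] at hK
    have : (0 : ℝ) ≤ 14 * R := by positivity
    norm_num at hK
    linarith
  obtain ⟨Q, hQ⟩ : ∃ Q : ℕ, Q = R.factorial := ⟨_, rfl⟩
  have hQ1 : 1 ≤ Q := by rw [hQ]; exact Nat.factorial_pos R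
  have hE := LZ_union (win a b ha hab Q K hQ1 hK1 ε hε hε1) (LZ_bdd {N : ℕ | N < Q * K} _ fun _ h => h)
  obtain ⟨E, hEd⟩ : ∃ E : Set ℕ, E = {N : ℕ | ∃ n : ℕ, n ≤ N ∧ (1 - 1 / 2 ^ (k + 1) + ε) * ((N / Q / K : ℕ) : ℝ) <
      |∑ j ∈ Icc 1 (N / Q / K), FF a b (n + Q * j)|} ∪ {N : ℕ | N < Q * K} := ⟨_, rfl⟩
  rw [← hEd] at hE
  obtain ⟨X₁, hX₁⟩ := (LZ_iff _).1 hE (δ / 2) (by positivity)
  refine ⟨max X₀ X₁, fun X hX => ?_⟩
  obtain ⟨T, hT, hTs, hTg⟩ := h1 X (le_trans (le_max_left _ _) hX)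
  have h2 := hX₁ X (le_trans (le_max_right _ _) hX)
  have h3 : ls {N : ℕ | ¬ Str a b ε N} X ≤ ∑ N ∈ T, (1 : ℝ) / N + ls E X := by
    unfold ls
    have h4 : ∑ N ∈ T, (1 : ℝ) / N = ∑ N ∈ Icc 1 X, if N ∈ T then (1 : ℝ) / N else 0 := by
      rw [sum_ite_mem, inter_eq_right.2 hT]
    rw [h4, ← sum_add_distrib]
    refine sum_le_sum fun N hN => ?_
    by_cases h5 : N ∈ {N : ℕ | ¬ Str a b ε N}
    · rw [if_pos h5]
      by_cases h6 : N ∈ T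
      · rw [if_pos h6]
        have : (0 : ℝ) ≤ (if N ∈ E then (1 : ℝ) / N else 0) := by split_ifs <;> positivity
        linarith
      · by_cases h7 : N ∈ E
        · rw [if_neg h6, if_pos h7, zero_add]
        · exfalso
          apply h5
          rw [hEd, Set.mem_union, not_or] at h7
          refine str_of a b ε ε₁ hε hε₁1 R K Q N hQ hK1 hK ?_ ?_ h7.1
          · by_contra h8
            exact h7.2 (by
              show N < Q * K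
              omega)
          · intro α hα
            have h8 := (hTg N hN h6 α hα N le_rfl).1
            rw [SL_eq] at h8
            exact h8
    · rw [if_neg h5]
      refine add_nonneg (by split_ifs <;> positivity) (by split_ifs <;> positivity)
  have h4 : 0 ≤ Real.log X := Real.log_natCast_nonneg X
  have h5 : ε₁ * Real.log X ≤ δ / 4 * Real.log X := mul_le_mul_of_nonneg_right hε₁2 h4
  have h6 : 0 ≤ δ * Real.log X := by positivity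
  linarith

/-- **one exceptional set** -/
theorem one_set : ∃ E : Set ℕ, LZ E ∧ ∀ (k : ℕ) (a b : Fin (k + 2) → ℕ), (∀ j, 1 ≤ a j) →
    (∀ i j, i ≠ j → a i * b j ≠ a j * b i) → ∀ ε : ℝ, 0 < ε → ∃ N₀ : ℕ, ∀ N : ℕ, N₀ ≤ N → N ∉ E → Str a b ε N := by
  classical
  obtain ⟨E, hE, h1⟩ := diag' (ι := (k : ℕ) × ((Fin (k + 2) → ℕ) × (Fin (k + 2) → ℕ) × ℕ))
    (fun z => {N : ℕ | ((∀ j, 1 ≤ z.2.1 j) ∧ ∀ i j, i ≠ j → z.2.1 i * z.2.2.1 j ≠ z.2.1 j * z.2.2.1 i) ∧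
      ¬ Str z.2.1 z.2.2.1 (1 / ((z.2.2.2 : ℝ) + 1)) N}) (by
    rintro ⟨k, a, b, m⟩
    by_cases h : (∀ j, 1 ≤ a j) ∧ ∀ i j, i ≠ j → a i * b j ≠ a j * b i
    · refine LZ_sub ?_ (str_LZ a b h.1 h.2 (1 / ((m : ℝ) + 1)) (by positivity) (by
        rw [div_le_one (by positivity)]
        have : (0 : ℝ) ≤ m := Nat.cast_nonneg m
        linarith))
      rintro N ⟨-, hN⟩
      exact hN
    · refine LZ_sub (F := ∅) ?_ LZ_empty
      rintro N ⟨hN, -⟩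
      exact absurd hN h)
  refine ⟨E, hE, fun k a b ha hab ε hε => ?_⟩
  obtain ⟨m, hm⟩ := exists_nat_gt (1 / ε)
  obtain ⟨N₀, h2⟩ := h1 ⟨k, a, b, m⟩
  refine ⟨N₀, fun N hN hNE => ?_⟩
  by_contra hcon
  refine hNE (h2 N ⟨⟨ha, hab⟩, fun h3 => hcon (Str_mono ?_ h3)⟩ hN)
  rw [div_le_iff₀ (by positivity)]
  rw [div_lt_iff₀ hε] at hm
  linarith

/-- **the bilinear bound at a scale with the structure** -/
theorem bil_str {k : ℕ} (a b : Fin (k + 2) → ℕ) (ε : ℝ) (hε : 0 < ε) (N : ℕ) (hS : Str a b ε N) (A₁ A₂ : Finset ℤ)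
    (u v : ℤ → ℂ) (α β γ : ℤ) (hα : α ≠ 0) (hβ : β ≠ 0) :
    ‖∑ z ∈ (A₁ ×ˢ A₂).filter (fun z : ℤ × ℤ => 1 ≤ α * z.1 + β * z.2 + γ ∧ α * z.1 + β * z.2 + γ ≤ N),
      u z.1 * v z.2 * (FF a b (α * z.1 + β * z.2 + γ).toNat : ℂ)‖ ≤
      (1 - 1 / 2 ^ (k + 1)) * ∑ z ∈ (A₁ ×ˢ A₂).filter
        (fun z : ℤ × ℤ => 1 ≤ α * z.1 + β * z.2 + γ ∧ α * z.1 + β * z.2 + γ ≤ N), ‖u z.1‖ * ‖v z.2‖ +
      2 * ε * (N * (Real.sqrt (∑ x ∈ A₁, ‖u x‖ ^ 2) * Real.sqrt (∑ y ∈ A₂, ‖v y‖ ^ 2))) := by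
  classical
  obtain ⟨w, h1, h2⟩ := hS
  obtain ⟨Z, hZ⟩ : ∃ Z, Z = (A₁ ×ˢ A₂).filter
    (fun z : ℤ × ℤ => 1 ≤ α * z.1 + β * z.2 + γ ∧ α * z.1 + β * z.2 + γ ≤ N) := ⟨_, rfl⟩
  rw [← hZ]
  have hsch := schur N A₁ A₂ u v α β γ hα hβ
  rw [← hZ] at hsch
  have h3 := bilin N (fun n => ((FF a b n - w n : ℝ) : ℂ)) (ε * N) h2 A₁ A₂ u v α β γ hα hβ
  have h4 : ∑ x ∈ A₁, ∑ y ∈ A₂, u x * v y * Gz N (fun n => ((FF a b n - w n : ℝ) : ℂ)) (α * x + β * y + γ) =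
      ∑ z ∈ Z, u z.1 * v z.2 * (((FF a b (α * z.1 + β * z.2 + γ).toNat - w (α * z.1 + β * z.2 + γ).toNat : ℝ)) : ℂ) := by
    rw [hZ, sum_filter, ← sum_product']
    refine sum_congr rfl fun z _ => ?_
    unfold Gz
    split_ifs with h5
    · rfl
    · rw [mul_zero]
  rw [h4] at h3
  have h5 : ∑ z ∈ Z, u z.1 * v z.2 * (FF a b (α * z.1 + β * z.2 + γ).toNat : ℂ) =
      ∑ z ∈ Z, u z.1 * v z.2 * (w (α * z.1 + β * z.2 + γ).toNat : ℂ) +
      ∑ z ∈ Z, u z.1 * v z.2 * (((FF a b (α * z.1 + β * z.2 + γ).toNat - w (α * z.1 + β * z.2 + γ).toNat : ℝ)) : ℂ) := by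
    rw [← sum_add_distrib]
    refine sum_congr rfl fun z _ => ?_
    push_cast
    ring
  have h6 : ‖∑ z ∈ Z, u z.1 * v z.2 * (w (α * z.1 + β * z.2 + γ).toNat : ℂ)‖ ≤
      (1 - 1 / 2 ^ (k + 1) + ε) * ∑ z ∈ Z, ‖u z.1‖ * ‖v z.2‖ := by
    refine (norm_sum_le _ _).trans ?_
    rw [mul_sum]
    refine sum_le_sum fun z hz => ?_
    rw [hZ, mem_filter] at hz
    rw [norm_mul, norm_mul, Complex.norm_real, Real.norm_eq_abs, mul_comm]
    refine mul_le_mul_of_nonneg_right (h1 _ ?_) (by positivity)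
    rw [mem_Icc]
    omega
  rw [h5]
  refine (norm_add_le _ _).trans ?_
  have h7 : ε * ∑ z ∈ Z, ‖u z.1‖ * ‖v z.2‖ ≤
      ε * (N * (Real.sqrt (∑ x ∈ A₁, ‖u x‖ ^ 2) * Real.sqrt (∑ y ∈ A₂, ‖v y‖ ^ 2))) :=
    mul_le_mul_of_nonneg_left hsch hε.le
  linarith

end Pool.Agent.H569.SS
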