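import Pool.Agent.H569.SV3

/-!
# Chowla products at sumsets: all orders, one exceptional set
-/

set_option autoImplicit false

open Finset Filter

namespace Pool.Agent.H569.SS

open Pool.Agent.Y958.U (LZ LZ_iff ls ls_nonneg LZ_sub LZ_union LZ_fin LZ_bdd LZ_empty diag')
open Pool.Agent.X23.CS (lam e norm_e)

/-- the constant: zero for an odd number of factors and for two factors -/
noncomputable def rh (k : ℕ) : ℝ := if Odd k ∨ k = 2 then 0 else 1 - 1 / 2 ^ (k - 1)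

theorem rh_le {k : ℕ} (hk : 1 ≤ k) : 0 ≤ rh k ∧ rh k ≤ 1 - 2 * (1 / 2 ^ k) := by
  obtain ⟨j, rfl⟩ := Nat.exists_eq_add_of_le' hk
  have h1 : (2 : ℝ) * (1 / 2 ^ (j + 1)) = 1 / 2 ^ j := by
    rw [pow_succ]
    field_simp
  have h2 : (1 : ℝ) / 2 ^ j ≤ 1 := by
    rw [div_le_one (by positivity)]
    exact one_le_pow₀ (by norm_num)
  have h3 : (0 : ℝ) ≤ 1 / 2 ^ j := by positivity
  unfold rh
  rw [Nat.add_sub_cancel, h1]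
  split_ifs
  · constructor <;> linarith
  · constructor <;> linarith

/-- the structure at the scale `N` -/
def StG {k : ℕ} (a b : Fin k → ℕ) (ε : ℝ) (N : ℕ) : Prop :=
  ∃ w : ℕ → ℝ, (∀ n ∈ Icc 1 N, |w n| ≤ rh k + ε) ∧
    ∀ θ : ℝ, ‖∑ n ∈ Icc 1 N, ((FF a b n - w n : ℝ) : ℂ) * e (θ * n)‖ ≤ ε * N

theorem StG_mono {k : ℕ} {a b : Fin k → ℕ} {ε ε' : ℝ} {N : ℕ} (h : ε ≤ ε') (hS : StG a b ε N) :
    StG a b ε' N := by
  obtain ⟨w, h1, h2⟩ := hS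
  refine ⟨w, fun n hn => (h1 n hn).trans (by linarith), fun θ => (h2 θ).trans ?_⟩
  exact mul_le_mul_of_nonneg_right h (Nat.cast_nonneg N)

theorem stG_LZ {k : ℕ} (a b : Fin (k + 1) → ℕ) (ha : ∀ j, 1 ≤ a j) (hab : ∀ i j, i ≠ j → a i * b j ≠ a j * b i)
    (ε : ℝ) (hε : 0 < ε) (hε1 : ε ≤ 1) : LZ {N : ℕ | ¬ StG a b ε N} := by
  by_cases hk : Odd (k + 1) ∨ k + 1 = 2
  · refine LZ_sub ?_ (Pool.Agent.H569.SV.zero_expo a b ha hab (by omega) hk ε hε)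
    intro N hN
    rw [Set.mem_ofPred_eq] at hN ⊢
    intro h
    apply hN
    refine ⟨fun _ => 0, fun n _ => ?_, fun θ => ?_⟩
    · unfold rh
      rw [if_pos hk, abs_zero, zero_add]
      exact hε.le
    · refine le_trans (le_of_eq ?_) (h θ)
      congr 1
      unfold Se
      refine sum_congr rfl fun n _ => ?_
      rw [sub_zero]
  · rcases k with _ | k
    · exact absurd (Or.inl odd_one) hk
    · refine LZ_sub ?_ (str_LZ a b ha hab ε hε hε1)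
      intro N hN
      rw [Set.mem_ofPred_eq] at hN ⊢
      intro h
      apply hN
      obtain ⟨w, h1, h2⟩ := h
      refine ⟨w, fun n hn => ?_, h2⟩
      unfold rh
      rw [if_neg hk]
      exact h1 n hn

/-- **one exceptional set** -/
theorem one_setG : ∃ E : Set ℕ, LZ E ∧ ∀ (k : ℕ) (a b : Fin k → ℕ), 1 ≤ k → (∀ j, 1 ≤ a j) →
    (∀ i j, i ≠ j → a i * b j ≠ a j * b i) → ∀ ε : ℝ, 0 < ε → ∃ N₀ : ℕ, ∀ N : ℕ, N₀ ≤ N → N ∉ E → StG a b ε N := by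
  classical
  obtain ⟨E, hE, h1⟩ := diag' (ι := (k : ℕ) × ((Fin (k + 1) → ℕ) × (Fin (k + 1) → ℕ) × ℕ))
    (fun z => {N : ℕ | ((∀ j, 1 ≤ z.2.1 j) ∧ ∀ i j, i ≠ j → z.2.1 i * z.2.2.1 j ≠ z.2.1 j * z.2.2.1 i) ∧
      ¬ StG z.2.1 z.2.2.1 (1 / ((z.2.2.2 : ℝ) + 1)) N}) (by
    rintro ⟨k, a, b, m⟩
    by_cases h : (∀ j, 1 ≤ a j) ∧ ∀ i j, i ≠ j → a i * b j ≠ a j * b i
    · refine LZ_sub ?_ (stG_LZ a b h.1 h.2 (1 / ((m : ℝ) + 1)) (by positivity) (by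
        rw [div_le_one (by positivity)]
        have : (0 : ℝ) ≤ m := Nat.cast_nonneg m
        linarith))
      rintro N ⟨-, hN⟩
      exact hN
    · refine LZ_sub (F := ∅) ?_ LZ_empty
      rintro N ⟨hN, -⟩
      exact absurd hN h)
  refine ⟨E, hE, fun k a b hk ha hab ε hε => ?_⟩
  obtain ⟨k, rfl⟩ := Nat.exists_eq_add_of_le' hk
  obtain ⟨m, hm⟩ := exists_nat_gt (1 / ε)
  obtain ⟨N₀, h2⟩ := h1 ⟨k, a, b, m⟩
  refine ⟨N₀, fun N hN hNE => ?_⟩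
  by_contra hcon
  refine hNE (h2 N ⟨⟨ha, hab⟩, fun h3 => hcon (StG_mono ?_ h3)⟩ hN)
  rw [div_le_iff₀ (by positivity)]
  rw [div_lt_iff₀ hε] at hm
  linarith

/-- **the bilinear bound at a scale with the structure** -/
theorem bil_gen (F w : ℕ → ℝ) (ρ ε : ℝ) (hε : 0 < ε) (N : ℕ) (h1 : ∀ n ∈ Icc 1 N, |w n| ≤ ρ + ε)
    (h2 : ∀ θ : ℝ, ‖∑ n ∈ Icc 1 N, ((F n - w n : ℝ) : ℂ) * e (θ * n)‖ ≤ ε * N) (A₁ A₂ : Finset ℤ)
    (u v : ℤ → ℂ) (α β γ : ℤ) (hα : α ≠ 0) (hβ : β ≠ 0) :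
    ‖∑ z ∈ (A₁ ×ˢ A₂).filter (fun z : ℤ × ℤ => 1 ≤ α * z.1 + β * z.2 + γ ∧ α * z.1 + β * z.2 + γ ≤ N),
      u z.1 * v z.2 * (F (α * z.1 + β * z.2 + γ).toNat : ℂ)‖ ≤
      ρ * ∑ z ∈ (A₁ ×ˢ A₂).filter
        (fun z : ℤ × ℤ => 1 ≤ α * z.1 + β * z.2 + γ ∧ α * z.1 + β * z.2 + γ ≤ N), ‖u z.1‖ * ‖v z.2‖ +
      2 * ε * (N * (Real.sqrt (∑ x ∈ A₁, ‖u x‖ ^ 2) * Real.sqrt (∑ y ∈ A₂, ‖v y‖ ^ 2))) := by
  classical
  obtain ⟨Z, hZ⟩ : ∃ Z, Z = (A₁ ×ˢ A₂).filter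
    (fun z : ℤ × ℤ => 1 ≤ α * z.1 + β * z.2 + γ ∧ α * z.1 + β * z.2 + γ ≤ N) := ⟨_, rfl⟩
  rw [← hZ]
  have hsch := schur N A₁ A₂ u v α β γ hα hβ
  rw [← hZ] at hsch
  have h3 := bilin N (fun n => ((F n - w n : ℝ) : ℂ)) (ε * N) h2 A₁ A₂ u v α β γ hα hβ
  have h4 : ∑ x ∈ A₁, ∑ y ∈ A₂, u x * v y * Gz N (fun n => ((F n - w n : ℝ) : ℂ)) (α * x + β * y + γ) =
      ∑ z ∈ Z, u z.1 * v z.2 * (((F (α * z.1 + β * z.2 + γ).toNat - w (α * z.1 + β * z.2 + γ).toNat : ℝ)) : ℂ) := by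
    rw [hZ, sum_filter, ← sum_product']
    refine sum_congr rfl fun z _ => ?_
    unfold Gz
    split_ifs with h5
    · rfl
    · rw [mul_zero]
  rw [h4] at h3
  have h5 : ∑ z ∈ Z, u z.1 * v z.2 * (F (α * z.1 + β * z.2 + γ).toNat : ℂ) =
      ∑ z ∈ Z, u z.1 * v z.2 * (w (α * z.1 + β * z.2 + γ).toNat : ℂ) +
      ∑ z ∈ Z, u z.1 * v z.2 * (((F (α * z.1 + β * z.2 + γ).toNat - w (α * z.1 + β * z.2 + γ).toNat : ℝ)) : ℂ) := by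
    rw [← sum_add_distrib]
    refine sum_congr rfl fun z _ => ?_
    push_cast
    ring
  have h6 : ‖∑ z ∈ Z, u z.1 * v z.2 * (w (α * z.1 + β * z.2 + γ).toNat : ℂ)‖ ≤
      (ρ + ε) * ∑ z ∈ Z, ‖u z.1‖ * ‖v z.2‖ := by
    refine (norm_sum_le _ _).trans ?_
    rw [mul_sum]
    refine sum_le_sum fun z hz => ?_
    rw [hZ, mem_filter] at hz
    rw [norm_mul, norm_mul, Complex.norm_real, Real.norm_eq_abs, mul_comm]
    refine mul_le_mul_of_nonneg_right (h1 _ ?_) (by positivity)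
    rw [mem_Icc]
    omega
  rw [h5]
  refine (norm_add_le _ _).trans ?_
  have h7 : ε * ∑ z ∈ Z, ‖u z.1‖ * ‖v z.2‖ ≤
      ε * (N * (Real.sqrt (∑ x ∈ A₁, ‖u x‖ ^ 2) * Real.sqrt (∑ y ∈ A₂, ‖v y‖ ^ 2))) :=
    mul_le_mul_of_nonneg_left hsch hε.le
  linarith

/-- the same for sets: the difference of the function and its structured part -/
theorem bil_diff (F w : ℕ → ℝ) (ε : ℝ) (hε : 0 < ε) (N : ℕ)
    (h2 : ∀ θ : ℝ, ‖∑ n ∈ Icc 1 N, ((F n - w n : ℝ) : ℂ) * e (θ * n)‖ ≤ ε * N) (A₁ A₂ : Finset ℤ)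
    (hA₁ : A₁.card ≤ N) (hA₂ : A₂.card ≤ N) (u v : ℤ → ℝ) (hu : ∀ x, |u x| ≤ 1) (hv : ∀ x, |v x| ≤ 1)
    (α β γ : ℤ) (hα : α ≠ 0) (hβ : β ≠ 0)
    (hr : ∀ x ∈ A₁, ∀ y ∈ A₂, 1 ≤ α * x + β * y + γ ∧ α * x + β * y + γ ≤ N) :
    |∑ x ∈ A₁, ∑ y ∈ A₂, u x * v y * (F (α * x + β * y + γ).toNat - w (α * x + β * y + γ).toNat)| ≤
      ε * (N : ℝ) ^ 2 := by
  have h3 := bilin N (fun n => ((F n - w n : ℝ) : ℂ)) (ε * N) h2 A₁ A₂ (fun x => (u x : ℂ)) (fun x => (v x : ℂ))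
    α β γ hα hβ
  have h4 : ∑ x ∈ A₁, ∑ y ∈ A₂, (u x : ℂ) * (v y : ℂ) * Gz N (fun n => ((F n - w n : ℝ) : ℂ)) (α * x + β * y + γ) =
      ((∑ x ∈ A₁, ∑ y ∈ A₂, u x * v y * (F (α * x + β * y + γ).toNat - w (α * x + β * y + γ).toNat) : ℝ) : ℂ) := by
    push_cast
    refine sum_congr rfl fun x hx => sum_congr rfl fun y hy => ?_
    unfold Gz
    rw [if_pos (hr x hx y hy)]
  rw [h4, Complex.norm_real, Real.norm_eq_abs] at h3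
  refine h3.trans ?_
  have hb : ∀ (A : Finset ℤ) (f : ℤ → ℝ), A.card ≤ N → (∀ x, |f x| ≤ 1) →
      Real.sqrt (∑ x ∈ A, ‖(f x : ℂ)‖ ^ 2) ≤ Real.sqrt N := by
    intro A f hA hf
    refine Real.sqrt_le_sqrt ?_
    calc ∑ x ∈ A, ‖(f x : ℂ)‖ ^ 2 ≤ ∑ x ∈ A, (1 : ℝ) := by
          refine sum_le_sum fun x _ => ?_
          rw [Complex.norm_real, Real.norm_eq_abs]
          exact pow_le_one₀ (abs_nonneg _) (hf x)
      _ = A.card := by simp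
      _ ≤ N := by exact_mod_cast hA
  have h5 := mul_le_mul (hb A₁ u hA₁ hu) (hb A₂ v hA₂ hv) (Real.sqrt_nonneg _) (Real.sqrt_nonneg _)
  rw [Real.mul_self_sqrt (Nat.cast_nonneg N)] at h5
  calc ε * N * _ ≤ ε * N * N := mul_le_mul_of_nonneg_left h5 (by positivity)
    _ = _ := by ring

end Pool.Agent.H569.SS
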