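import Mathlib

/-!
# A counting lemma for signed graphs
-/

set_option autoImplicit false

open Finset Filter

namespace Pool.Agent.H569.SS

open Function (update)

/-- averaging over one coordinate -/
theorem avg_one {m : ℕ} (A : Fin m → Finset ℤ) (i : Fin m) (Φ : (Fin m → ℤ) → ℝ) :
    ∑ x ∈ Fintype.piFinset A, ∑ s ∈ A i, Φ (update x i s) = (A i).card * ∑ x ∈ Fintype.piFinset A, Φ x := by
  classical
  have h1 : ∑ x ∈ Fintype.piFinset A, ∑ s ∈ A i, Φ (update x i s) =
      ∑ z ∈ Fintype.piFinset A ×ˢ A i, Φ (update z.1 i z.2) := by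
    rw [sum_product]
  have h2 : (A i).card * ∑ x ∈ Fintype.piFinset A, Φ x = ∑ z ∈ Fintype.piFinset A ×ˢ A i, Φ z.1 := by
    rw [sum_product, mul_sum]
    refine sum_congr rfl fun x _ => ?_
    simp only
    rw [sum_const, nsmul_eq_mul]
  rw [h1, h2]
  refine sum_nbij' (fun z => (update z.1 i z.2, z.1 i)) (fun z => (update z.1 i z.2, z.1 i)) ?_ ?_ ?_ ?_ ?_
  · rintro ⟨x, s⟩ hz
    rw [mem_product, Fintype.mem_piFinset] at hz ⊢
    refine ⟨fun j => ?_, hz.1 i⟩
    simp only
    by_cases h : j = i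
    · subst h
      rw [Function.update_self]
      exact hz.2
    · rw [Function.update_of_ne h]
      exact hz.1 j
  · rintro ⟨x, s⟩ hz
    rw [mem_product, Fintype.mem_piFinset] at hz ⊢
    refine ⟨fun j => ?_, hz.1 i⟩
    simp only
    by_cases h : j = i
    · subst h
      rw [Function.update_self]
      exact hz.2
    · rw [Function.update_of_ne h]
      exact hz.1 j
  · rintro ⟨x, s⟩ _
    simp only [Function.update_self, Function.update_idem, Function.update_eq_self]
  · rintro ⟨x, s⟩ _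
    simp only [Function.update_self, Function.update_idem, Function.update_eq_self]
  · rintro ⟨x, s⟩ _
    rfl

/-- a kernel with small bilinear sums on one edge of a simple graph -/
theorem one_edge {m : ℕ} (A : Fin m → Finset ℤ) (B : Fin m → ℝ) (hA : ∀ i, ((A i).card : ℝ) ≤ B i)
    (D : Finset (Fin m × Fin m)) (hD : ∀ e ∈ D, e.1 < e.2) (e₀ : Fin m × Fin m) (he₀ : e₀ ∈ D)
    (G : Fin m × Fin m → ℤ → ℤ → ℝ) (hG : ∀ e x y, |G e x y| ≤ 1) (K : ℤ → ℤ → ℝ) (δ : ℝ) (hδ : 0 ≤ δ)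
    (hK : ∀ u v : ℤ → ℝ, (∀ x, |u x| ≤ 1) → (∀ x, |v x| ≤ 1) →
      |∑ x ∈ A e₀.1, ∑ y ∈ A e₀.2, u x * v y * K x y| ≤ δ * (B e₀.1 * B e₀.2)) :
    |∑ x ∈ Fintype.piFinset A, K (x e₀.1) (x e₀.2) * ∏ e ∈ D.erase e₀, G e (x e.1) (x e.2)| ≤ δ * ∏ i, B i := by
  classical
  obtain ⟨i, hi⟩ : ∃ i, i = e₀.1 := ⟨_, rfl⟩
  obtain ⟨j, hj⟩ : ∃ j, j = e₀.2 := ⟨_, rfl⟩
  have hij : i < j := by rw [hi, hj]; exact hD e₀ he₀
  have hne : i ≠ j := hij.ne
  obtain ⟨Φ, hΦ⟩ : ∃ Φ : (Fin m → ℤ) → ℝ, ∀ x, Φ x = K (x i) (x j) * ∏ e ∈ D.erase e₀, G e (x e.1) (x e.2) :=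
    ⟨_, fun _ => rfl⟩
  have h1 : ∑ x ∈ Fintype.piFinset A, K (x e₀.1) (x e₀.2) * ∏ e ∈ D.erase e₀, G e (x e.1) (x e.2) =
      ∑ x ∈ Fintype.piFinset A, Φ x := sum_congr rfl fun x _ => by rw [hΦ, hi, hj]
  rw [h1]
  by_cases h0 : (Fintype.piFinset A).Nonempty
  swap
  · rw [not_nonempty_iff_eq_empty] at h0
    rw [h0, sum_empty, abs_zero]
    exact mul_nonneg hδ (prod_nonneg fun v _ => (Nat.cast_nonneg _).trans (hA v))
  have hAne : ∀ v, (A v).Nonempty := by
    intro v
    obtain ⟨x, hx⟩ := h0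
    exact ⟨x v, Fintype.mem_piFinset.1 hx v⟩
  have hci : (0 : ℝ) < (A i).card := by exact_mod_cast card_pos.2 (hAne i)
  have hcj : (0 : ℝ) < (A j).card := by exact_mod_cast card_pos.2 (hAne j)
  have h2 : ((A i).card : ℝ) * (A j).card * ∑ x ∈ Fintype.piFinset A, Φ x =
      ∑ x ∈ Fintype.piFinset A, ∑ s ∈ A i, ∑ t ∈ A j, Φ (update (update x i s) j t) := by
    rw [avg_one A i fun y => ∑ t ∈ A j, Φ (update y j t), avg_one A j Φ]
    ring
  -- for fixed other coordinates
  have h3 : ∀ x ∈ Fintype.piFinset A, |∑ s ∈ A i, ∑ t ∈ A j, Φ (update (update x i s) j t)| ≤ δ * (B i * B j) := by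
    intro x _
    obtain ⟨u, hu⟩ : ∃ u : ℤ → ℝ, ∀ s, u s = ∏ e ∈ (D.erase e₀).filter (fun e => ¬ (j = e.1 ∨ j = e.2)),
        G e (update x i s e.1) (update x i s e.2) := ⟨_, fun _ => rfl⟩
    obtain ⟨v, hv⟩ : ∃ v : ℤ → ℝ, ∀ t, v t = ∏ e ∈ (D.erase e₀).filter (fun e => j = e.1 ∨ j = e.2),
        G e (update x j t e.1) (update x j t e.2) := ⟨_, fun _ => rfl⟩
    have hp : ∀ (S : Finset (Fin m × Fin m)) (f : Fin m × Fin m → ℝ), (∀ e, |f e| ≤ 1) → |∏ e ∈ S, f e| ≤ 1 := by
      intro S f hf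
      rw [abs_prod]
      exact prod_le_one (fun _ _ => abs_nonneg _) fun e _ => hf e
    have h4 := hK u v (fun s => by rw [hu]; exact hp _ _ fun e => hG _ _ _)
      (fun t => by rw [hv]; exact hp _ _ fun e => hG _ _ _)
    rw [← hi, ← hj] at h4
    refine le_trans (le_of_eq ?_) h4
    congr 1
    refine sum_congr rfl fun s _ => sum_congr rfl fun t _ => ?_
    rw [hΦ, hu, hv, Function.update_self, Function.update_of_ne hne, Function.update_self,
      ← prod_filter_mul_prod_filter_not (D.erase e₀) (fun e => j = e.1 ∨ j = e.2)]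
    have h5 : ∏ e ∈ (D.erase e₀).filter (fun e => j = e.1 ∨ j = e.2),
        G e (update (update x i s) j t e.1) (update (update x i s) j t e.2) =
        ∏ e ∈ (D.erase e₀).filter (fun e => j = e.1 ∨ j = e.2), G e (update x j t e.1) (update x j t e.2) := by
      refine prod_congr rfl fun e he => ?_
      rw [mem_filter, mem_erase] at he
      obtain ⟨⟨he1, he2⟩, he3⟩ := he
      have h6 := hD e he2
      have h7 : e.1 ≠ i := by
        intro h
        rcases he3 with h8 | h8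
        · exact hne (h.symm.trans h8.symm)
        · apply he1
          rw [Prod.ext_iff, ← hi, ← hj]
          exact ⟨h, h8.symm⟩
      have h8 : e.2 ≠ i := by
        intro h
        rcases he3 with h9 | h9
        · rw [← h9, h] at h6
          exact absurd h6 hij.asymm
        · exact hne (h.symm.trans h9.symm)
      have h9 : ∀ q : Fin m, q ≠ i → update (update x i s) j t q = update x j t q := by
        intro q hq
        by_cases h10 : q = j
        · rw [h10, Function.update_self, Function.update_self]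
        · rw [Function.update_of_ne h10, Function.update_of_ne h10, Function.update_of_ne hq]
      rw [h9 _ h7, h9 _ h8]
    have h6 : ∏ e ∈ (D.erase e₀).filter (fun e => ¬ (j = e.1 ∨ j = e.2)),
        G e (update (update x i s) j t e.1) (update (update x i s) j t e.2) =
        ∏ e ∈ (D.erase e₀).filter (fun e => ¬ (j = e.1 ∨ j = e.2)), G e (update x i s e.1) (update x i s e.2) := by
      refine prod_congr rfl fun e he => ?_
      rw [mem_filter, not_or] at he
      rw [Function.update_of_ne (Ne.symm he.2.1), Function.update_of_ne (Ne.symm he.2.2)]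
    rw [h5, h6]
    ring
  have h4 : ((A i).card : ℝ) * (A j).card * |∑ x ∈ Fintype.piFinset A, Φ x| ≤
      (Fintype.piFinset A).card * (δ * (B i * B j)) := by
    have h5 : ((A i).card : ℝ) * (A j).card * |∑ x ∈ Fintype.piFinset A, Φ x| =
        |((A i).card : ℝ) * (A j).card * ∑ x ∈ Fintype.piFinset A, Φ x| := by
      rw [abs_mul, abs_of_pos (mul_pos hci hcj)]
    rw [h5, h2]
    refine (abs_sum_le_sum_abs _ _).trans ((sum_le_sum h3).trans ?_)
    rw [sum_const, nsmul_eq_mul]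
  have hB0 : ∀ v, 0 ≤ B v := fun v => (Nat.cast_nonneg _).trans (hA v)
  have h5 : ((Fintype.piFinset A).card : ℝ) * (B i * B j) ≤ (A i).card * (A j).card * ∏ v, B v := by
    rw [Fintype.card_piFinset]
    push_cast
    have h6 : ∀ f : Fin m → ℝ, ∏ v, f v = f i * (f j * ∏ v ∈ (univ.erase i).erase j, f v) := by
      intro f
      rw [← mul_prod_erase univ _ (mem_univ i), ← mul_prod_erase (univ.erase i) _ (mem_erase.2 ⟨hne.symm, mem_univ j⟩)]
    have h7 : ∏ v ∈ (univ.erase i).erase j, ((A v).card : ℝ) ≤ ∏ v ∈ (univ.erase i).erase j, B v :=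
      prod_le_prod (fun v _ => Nat.cast_nonneg _) fun v _ => hA v
    rw [h6 fun v => ((A v).card : ℝ), h6 B]
    have h8 := mul_le_mul_of_nonneg_left h7 (by
      have := hB0 i
      have := hB0 j
      positivity : 0 ≤ ((A i).card : ℝ) * (A j).card * (B i * B j))
    linarith
  have h6 : ((A i).card : ℝ) * (A j).card * |∑ x ∈ Fintype.piFinset A, Φ x| ≤
      (A i).card * (A j).card * (δ * ∏ v, B v) := by
    refine h4.trans ?_
    calc ((Fintype.piFinset A).card : ℝ) * (δ * (B i * B j)) = δ * (((Fintype.piFinset A).card : ℝ) * (B i * B j)) := by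
          ring
      _ ≤ δ * ((A i).card * (A j).card * ∏ v, B v) := mul_le_mul_of_nonneg_left h5 hδ
      _ = _ := by ring
  exact le_of_mul_le_mul_left h6 (mul_pos hci hcj)

open Classical in
/-- **the counting lemma** -/
theorem counting {m : ℕ} (A : Fin m → Finset ℤ) (B : Fin m → ℝ) (hA : ∀ i, ((A i).card : ℝ) ≤ B i)
    (D : Finset (Fin m × Fin m)) (hD : ∀ e ∈ D, e.1 < e.2) (G G' : Fin m × Fin m → ℤ → ℤ → ℝ)
    (hG : ∀ e x y, |G e x y| ≤ 1) (hG' : ∀ e x y, |G' e x y| ≤ 1) (δ : ℝ) (hδ : 0 ≤ δ)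
    (hK : ∀ e ∈ D, ∀ u v : ℤ → ℝ, (∀ x, |u x| ≤ 1) → (∀ x, |v x| ≤ 1) →
      |∑ x ∈ A e.1, ∑ y ∈ A e.2, u x * v y * (G e x y - G' e x y)| ≤ δ * (B e.1 * B e.2)) :
    |∑ x ∈ Fintype.piFinset A, ∏ e ∈ D, G e (x e.1) (x e.2) -
      ∑ x ∈ Fintype.piFinset A, ∏ e ∈ D, G' e (x e.1) (x e.2)| ≤ D.card * (δ * ∏ i, B i) := by
  have key : ∀ S : Finset (Fin m × Fin m), S ⊆ D →
      |∑ x ∈ Fintype.piFinset A, ∏ e ∈ D, G e (x e.1) (x e.2) -
        ∑ x ∈ Fintype.piFinset A, ∏ e ∈ D, (if e ∈ S then G' e (x e.1) (x e.2) else G e (x e.1) (x e.2))| ≤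
        S.card * (δ * ∏ i, B i) := by
    intro S
    induction S using Finset.induction_on with
    | empty => intro _; simp
    | insert e₀ S he₀ ih =>
      intro hS
      have h1 := ih fun e he => hS (mem_insert_of_mem he)
      have he₀D : e₀ ∈ D := hS (mem_insert_self _ _)
      have h2 := one_edge A B hA D hD e₀ he₀D
        (fun e x y => if e ∈ S then G' e x y else G e x y) (fun e x y => by split_ifs; exacts [hG' e x y, hG e x y])
        (fun x y => G e₀ x y - G' e₀ x y) δ hδ (hK e₀ he₀D)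
      have h3 : ∑ x ∈ Fintype.piFinset A, (G e₀ (x e₀.1) (x e₀.2) - G' e₀ (x e₀.1) (x e₀.2)) *
          ∏ e ∈ D.erase e₀, (if e ∈ S then G' e (x e.1) (x e.2) else G e (x e.1) (x e.2)) =
          ∑ x ∈ Fintype.piFinset A, ∏ e ∈ D, (if e ∈ S then G' e (x e.1) (x e.2) else G e (x e.1) (x e.2)) -
          ∑ x ∈ Fintype.piFinset A, ∏ e ∈ D,
            (if e ∈ insert e₀ S then G' e (x e.1) (x e.2) else G e (x e.1) (x e.2)) := by
        rw [← sum_sub_distrib]
        refine sum_congr rfl fun x _ => ?_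
        rw [← mul_prod_erase D _ he₀D, ← mul_prod_erase D (fun e => if e ∈ insert e₀ S then
          G' e (x e.1) (x e.2) else G e (x e.1) (x e.2)) he₀D, if_neg he₀, if_pos (mem_insert_self _ _), sub_mul]
        congr 2
        refine prod_congr rfl fun e he => ?_
        rw [mem_erase] at he
        simp only [mem_insert, he.1, false_or]
      rw [h3] at h2
      rw [card_insert_of_notMem he₀]
      push_cast
      have h4 := abs_sub_le (∑ x ∈ Fintype.piFinset A, ∏ e ∈ D, G e (x e.1) (x e.2))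
        (∑ x ∈ Fintype.piFinset A, ∏ e ∈ D, (if e ∈ S then G' e (x e.1) (x e.2) else G e (x e.1) (x e.2)))
        (∑ x ∈ Fintype.piFinset A, ∏ e ∈ D,
            (if e ∈ insert e₀ S then G' e (x e.1) (x e.2) else G e (x e.1) (x e.2)))
      linarith
  have h1 := key D subset_rfl
  have h2 : ∑ x ∈ Fintype.piFinset A, ∏ e ∈ D, (if e ∈ D then G' e (x e.1) (x e.2) else G e (x e.1) (x e.2)) =
      ∑ x ∈ Fintype.piFinset A, ∏ e ∈ D, G' e (x e.1) (x e.2) :=
    sum_congr rfl fun x _ => prod_congr rfl fun e he => if_pos he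
  rw [h2] at h1
  exact h1

/-- a product of numbers from which a small number is subtracted -/
theorem prod_sub {ι : Type} (s : Finset ι) (p : ι → ℝ) (η : ℝ) (hη : 0 ≤ η) (h0 : ∀ i ∈ s, η ≤ p i)
    (h1 : ∀ i ∈ s, p i ≤ 1) : ∏ i ∈ s, p i - s.card * η ≤ ∏ i ∈ s, (p i - η) := by
  classical
  induction s using Finset.induction_on with
  | empty => simp
  | insert i s hi ih =>
    rw [prod_insert hi, prod_insert hi, card_insert_of_notMem hi]
    push_cast
    have h2 := ih (fun j hj => h0 j (mem_insert_of_mem hj)) fun j hj => h1 j (mem_insert_of_mem hj)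
    have h3 := h0 i (mem_insert_self _ _)
    have h4 := h1 i (mem_insert_self _ _)
    have h5 : ∏ j ∈ s, p j ≤ 1 := prod_le_one (fun j hj => hη.trans (h0 j (mem_insert_of_mem hj)))
      fun j hj => h1 j (mem_insert_of_mem hj)
    have h6 : 0 ≤ ∏ j ∈ s, p j := prod_nonneg fun j hj => hη.trans (h0 j (mem_insert_of_mem hj))
    have h7 : 0 ≤ (s.card : ℝ) := Nat.cast_nonneg _
    have h8 : (p i - η) * (∏ j ∈ s, p j - s.card * η) ≤ (p i - η) * ∏ j ∈ s, (p j - η) :=
      mul_le_mul_of_nonneg_left h2 (by linarith)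
    have h9 : η * ∏ j ∈ s, p j ≤ η * 1 := mul_le_mul_of_nonneg_left h5 hη
    have h10 : (p i - η) * (s.card * η) ≤ 1 * (s.card * η) := mul_le_mul_of_nonneg_right (by linarith) (by positivity)
    nlinarith

end Pool.Agent.H569.SS
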