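import Pool.Agent.H569.SS9
import Pool.Graph.R_seed8.H373R2.NB.Restr

/-!
# Bilinear sums over dense sets of integers or of primes
-/

set_option autoImplicit false

open Finset Filter

namespace Pool.Agent.H569.SS

open Pool.Agent.X23.CS (e norm_e e_add e_zero e_eq_one_iff orth)
open Pool.Agent.Helper602.MK (ee PP J6Stmt)

theorem j6 : J6Stmt := Pool.Agent.Helper602.MK.N_J6.J6 Pool.Agent.H373R2.NB.mj5

/-- Hoelder's inequality for three functions -/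
theorem holder3 (s : Finset ℕ) (a b c : ℕ → ℝ) (ha : ∀ i, 0 ≤ a i) (hb : ∀ i, 0 ≤ b i) (hc : ∀ i, 0 ≤ c i)
    (x y z : ℝ) (hx : 0 < x) (hy : 0 < y) (hz : 0 < z) (h1 : ∑ i ∈ s, a i ^ 5 ≤ x ^ 5)
    (h2 : ∑ i ∈ s, b i ^ (5 / 2 : ℝ) ≤ y ^ (5 / 2 : ℝ)) (h3 : ∑ i ∈ s, c i ^ (5 / 2 : ℝ) ≤ z ^ (5 / 2 : ℝ)) :
    ∑ i ∈ s, a i * b i * c i ≤ x * y * z := by
  have key : ∀ i, a i * b i * c i ≤ x * y * z * (1 / 5 * (a i ^ 5 / x ^ 5) +
      2 / 5 * (b i ^ (5 / 2 : ℝ) / y ^ (5 / 2 : ℝ)) + 2 / 5 * (c i ^ (5 / 2 : ℝ) / z ^ (5 / 2 : ℝ))) := by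
    intro i
    have h4 := Real.geom_mean_le_arith_mean3_weighted (w₁ := 1 / 5) (w₂ := 2 / 5) (w₃ := 2 / 5)
      (p₁ := (a i / x) ^ 5) (p₂ := (b i / y) ^ (5 / 2 : ℝ)) (p₃ := (c i / z) ^ (5 / 2 : ℝ)) (by norm_num) (by norm_num)
      (by norm_num) (pow_nonneg (div_nonneg (ha i) hx.le) _) (Real.rpow_nonneg (div_nonneg (hb i) hy.le) _)
      (Real.rpow_nonneg (div_nonneg (hc i) hz.le) _) (by norm_num)
    have e1 : ((a i / x) ^ 5) ^ (1 / 5 : ℝ) = a i / x := by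
      rw [← Real.rpow_natCast, ← Real.rpow_mul (div_nonneg (ha i) hx.le)]
      norm_num
    have e2 : ((b i / y) ^ (5 / 2 : ℝ)) ^ (2 / 5 : ℝ) = b i / y := by
      rw [← Real.rpow_mul (div_nonneg (hb i) hy.le)]
      norm_num
    have e3 : ((c i / z) ^ (5 / 2 : ℝ)) ^ (2 / 5 : ℝ) = c i / z := by
      rw [← Real.rpow_mul (div_nonneg (hc i) hz.le)]
      norm_num
    rw [e1, e2, e3, div_pow, Real.div_rpow (hb i) hy.le, Real.div_rpow (hc i) hz.le] at h4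
    have h5 := mul_le_mul_of_nonneg_left h4 (by positivity : 0 ≤ x * y * z)
    calc a i * b i * c i = x * y * z * (a i / x * (b i / y) * (c i / z)) := by field_simp
      _ ≤ _ := h5
  refine (sum_le_sum fun i _ => key i).trans ?_
  rw [← mul_sum, sum_add_distrib, sum_add_distrib, ← mul_sum, ← mul_sum, ← mul_sum, ← sum_div, ← sum_div, ← sum_div]
  have h4 : (∑ i ∈ s, a i ^ 5) / x ^ 5 ≤ 1 := (div_le_one (by positivity)).2 h1
  have h5 : (∑ i ∈ s, b i ^ (5 / 2 : ℝ)) / y ^ (5 / 2 : ℝ) ≤ 1 := (div_le_one (Real.rpow_pos_of_pos hy _)).2 h2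
  have h6 : (∑ i ∈ s, c i ^ (5 / 2 : ℝ)) / z ^ (5 / 2 : ℝ) ≤ 1 := (div_le_one (Real.rpow_pos_of_pos hz _)).2 h3
  calc _ ≤ x * y * z * 1 := mul_le_mul_of_nonneg_left (by linarith) (by positivity)
    _ = _ := mul_one _

/-- a permutation of the residues -/
theorem perm_sum (M : ℕ) [NeZero M] (hM : M.Prime) (Φ : ℤ → ℝ) (hΦ : ∀ x y : ℤ, (M : ℤ) ∣ x - y → Φ x = Φ y)
    (α : ℤ) (hα : ¬ (M : ℤ) ∣ α) : ∑ r ∈ range M, Φ (α * r) = ∑ r ∈ range M, Φ r := by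
  have := Fact.mk hM
  have hα0 : (α : ZMod M) ≠ 0 := by
    intro h
    exact hα ((ZMod.intCast_zmod_eq_zero_iff_dvd α M).1 h)
  rw [← Pool.Agent.H373R2.NB.sum_val (fun t : ℕ => Φ (α * t)), ← Pool.Agent.H373R2.NB.sum_val (fun t : ℕ => Φ t)]
  rw [← Equiv.sum_comp (Equiv.mulLeft₀ (α : ZMod M) hα0) (fun m : ZMod M => Φ ((m.val : ℕ) : ℤ))]
  refine sum_congr rfl fun m _ => ?_
  apply hΦ
  change (M : ℤ) ∣ α * ((m.val : ℕ) : ℤ) - ((((α : ZMod M) * m).val : ℕ) : ℤ)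
  rw [← ZMod.intCast_zmod_eq_zero_iff_dvd]
  push_cast
  rw [ZMod.natCast_zmod_val, ZMod.natCast_zmod_val, sub_self]

/-- restriction estimate for a set -/
def Rst (M : ℕ) (y : ℝ) (A : Finset ℤ) : Prop := ∀ u : ℤ → ℂ, (∀ x, ‖u x‖ ≤ 1) →
  ∑ r ∈ range M, ‖∑ x ∈ A, u x * e (-((r : ℝ) / M * x))‖ ^ (5 / 2 : ℝ) ≤ y ^ (5 / 2 : ℝ)

theorem Rst_dil (M : ℕ) [NeZero M] (hM : M.Prime) (y : ℝ) (A : Finset ℤ) (h : Rst M y A) (α : ℤ)
    (hα : ¬ (M : ℤ) ∣ α) (u : ℤ → ℂ) (hu : ∀ x, ‖u x‖ ≤ 1) :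
    ∑ r ∈ range M, ‖∑ x ∈ A, u x * e (-((r : ℝ) / M * (α * x)))‖ ^ (5 / 2 : ℝ) ≤ y ^ (5 / 2 : ℝ) := by
  have hM0 : (M : ℝ) ≠ 0 := by exact_mod_cast hM.ne_zero
  have h1 := perm_sum M hM (fun z : ℤ => ‖∑ x ∈ A, u x * e (-((z : ℝ) / M * x))‖ ^ (5 / 2 : ℝ)) (by
    intro z w hzw
    obtain ⟨t, ht⟩ := hzw
    congr 2
    refine sum_congr rfl fun x _ => ?_
    congr 1
    have h2 : -((z : ℝ) / M * x) = -((w : ℝ) / M * x) + ((-(t * x) : ℤ) : ℝ) := by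
      have h3 : (z : ℝ) = w + M * t := by
        have : z = w + M * t := by linarith
        exact_mod_cast this
      rw [h3]
      push_cast
      field_simp
      ring
    rw [h2, e_add, (e_eq_one_iff _).2 ⟨-(t * x), rfl⟩, mul_one]) α hα
  refine le_trans (le_of_eq ?_) (le_trans (le_of_eq h1) ?_)
  · refine sum_congr rfl fun r _ => ?_
    congr 2
    refine sum_congr rfl fun x _ => ?_
    congr 2
    push_cast
    ring
  · exact h u hu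

/-- **bilinear sums over sets with restriction estimates** -/
theorem bilR (N M : ℕ) (hN : 1 ≤ N) (hM : M.Prime) (hM1 : 2 * N < M) (hM2 : M ≤ 4 * N) (G : ℕ → ℂ)
    (hG2 : ∀ n, ‖G n‖ ≤ 2) (ε κ : ℝ) (hκ : 0 < κ) (hεκ : 16 * ε ^ 3 ≤ κ ^ 5)
    (hG : ∀ θ : ℝ, ‖∑ n ∈ Icc 1 N, G n * e (θ * n)‖ ≤ ε * N) (A₁ A₂ : Finset ℤ) (y₁ y₂ : ℝ) (hy₁ : 0 < y₁)
    (hy₂ : 0 < y₂) (h1 : Rst M y₁ A₁) (h2 : Rst M y₂ A₂) (u v : ℤ → ℂ) (hu : ∀ x, ‖u x‖ ≤ 1)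
    (hv : ∀ x, ‖v x‖ ≤ 1) (α β γ : ℤ) (hα : ¬ (M : ℤ) ∣ α) (hβ : ¬ (M : ℤ) ∣ β)
    (hr : ∀ x ∈ A₁, ∀ y ∈ A₂, 1 ≤ α * x + β * y + γ ∧ α * x + β * y + γ ≤ N) :
    ‖∑ x ∈ A₁, ∑ y ∈ A₂, u x * v y * Gz N G (α * x + β * y + γ)‖ ≤ κ * (y₁ * y₂) := by
  have : NeZero M := ⟨hM.ne_zero⟩
  have hMr : (0 : ℝ) < M := by exact_mod_cast hM.pos
  have hM1' : 1 ≤ M := hM.pos
  have hNr : (0 : ℝ) < N := by exact_mod_cast hN
  have hMc : (M : ℂ) ≠ 0 := by exact_mod_cast hMr.ne'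
  have hid : ∑ x ∈ A₁, ∑ y ∈ A₂, u x * v y * Gz N G (α * x + β * y + γ) =
      (1 / (M : ℂ)) * ∑ r ∈ range M, (∑ n ∈ Icc 1 N, G n * e ((r : ℝ) / M * n)) * e (-((r : ℝ) / M * γ)) *
        ((∑ x ∈ A₁, u x * e (-((r : ℝ) / M * (α * x)))) * ∑ y ∈ A₂, v y * e (-((r : ℝ) / M * (β * y)))) := by
    have h2 : ∀ x ∈ A₁, ∀ y ∈ A₂, u x * v y * Gz N G (α * x + β * y + γ) =
        (1 / (M : ℂ)) * ∑ r ∈ range M, (∑ n ∈ Icc 1 N, G n * e ((r : ℝ) / M * n)) * e (-((r : ℝ) / M * γ)) *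
          ((u x * e (-((r : ℝ) / M * (α * x)))) * (v y * e (-((r : ℝ) / M * (β * y))))) := by
      intro x hx y hy
      have h3 := hr x hx y hy
      rw [inversion N M hM1' G _ (by
        rw [abs_of_nonneg (by omega)]
        omega), mul_left_comm, mul_sum]
      congr 1
      refine sum_congr rfl fun r _ => ?_
      have h5 : e (-((r : ℝ) / M * ((α * x + β * y + γ : ℤ) : ℝ))) =
          e (-((r : ℝ) / M * γ)) * (e (-((r : ℝ) / M * (α * x))) * e (-((r : ℝ) / M * (β * y)))) := by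
        rw [← e_add, ← e_add]
        congr 1
        push_cast
        ring
      rw [h5]
      ring
    rw [sum_congr rfl fun x hx => sum_congr rfl fun y hy => h2 x hx y hy]
    simp only [← mul_sum]
    congr 1
    rw [sum_congr rfl fun x _ => sum_comm, sum_comm]
    refine sum_congr rfl fun r _ => ?_
    rw [sum_mul_sum, mul_sum]
    refine sum_congr rfl fun x _ => ?_
    rw [mul_sum]
  rw [hid, norm_mul, norm_div, norm_one, Complex.norm_natCast]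
  -- the fifth moment of the exponential sums of `G`
  have hpar : ∑ r ∈ range M, ‖∑ n ∈ Icc 1 N, G n * e ((r : ℝ) / M * n)‖ ^ 2 ≤ 16 * (N : ℝ) ^ 2 := by
    have h3 := parseval M hM1' ((Icc 1 N).map Nat.castEmbedding) (fun x => G x.toNat) (-1) (by norm_num) (by
      intro x hx
      rw [Finset.mem_map] at hx
      obtain ⟨n, hn, rfl⟩ := hx
      rw [mem_Icc] at hn
      simp only [Nat.castEmbedding_apply]
      rw [neg_one_mul, abs_neg, abs_of_nonneg (by positivity)]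
      omega)
    have h4 : ∀ r ∈ range M, ‖∑ n ∈ Icc 1 N, G n * e ((r : ℝ) / M * n)‖ ^ 2 =
        ‖∑ x ∈ (Icc 1 N).map Nat.castEmbedding, (fun x : ℤ => G x.toNat) x * e (-((r : ℝ) / M * (((-1 : ℤ) : ℝ) * x)))‖ ^ 2 := by
      intro r _
      congr 2
      rw [sum_map]
      refine sum_congr rfl fun n _ => ?_
      simp only [Nat.castEmbedding_apply, Int.toNat_natCast]
      congr 2
      push_cast
      ring
    rw [sum_congr rfl h4, h3, sum_map]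
    have h5 : ∑ n ∈ Icc 1 N, ‖G ((Nat.castEmbedding n : ℤ)).toNat‖ ^ 2 ≤ N * 4 := by
      calc _ ≤ ∑ n ∈ Icc 1 N, (4 : ℝ) := by
            refine sum_le_sum fun n _ => ?_
            have h6 := hG2 ((Nat.castEmbedding n : ℤ)).toNat
            have h7 := norm_nonneg (G ((Nat.castEmbedding n : ℤ)).toNat)
            nlinarith
        _ = N * 4 := by rw [sum_const, Nat.card_Icc, nsmul_eq_mul, Nat.add_sub_cancel]
    have h6 : (M : ℝ) ≤ 4 * N := by exact_mod_cast hM2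
    calc (M : ℝ) * _ ≤ (4 * N) * (N * 4) := mul_le_mul h6 h5 (sum_nonneg fun _ _ => by positivity) (by positivity)
      _ = _ := by ring
  have h5th : ∑ r ∈ range M, ‖∑ n ∈ Icc 1 N, G n * e ((r : ℝ) / M * n)‖ ^ 5 ≤ (κ * N) ^ 5 := by
    have hε0 : 0 ≤ ε * N := (norm_nonneg _).trans (hG 0)
    calc _ ≤ ∑ r ∈ range M, (ε * N) ^ 3 * ‖∑ n ∈ Icc 1 N, G n * e ((r : ℝ) / M * n)‖ ^ 2 := by
          refine sum_le_sum fun r _ => ?_
          rw [show (5 : ℕ) = 3 + 2 from rfl, pow_add]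
          exact mul_le_mul_of_nonneg_right (pow_le_pow_left₀ (norm_nonneg _) (hG _) 3) (by positivity)
      _ ≤ (ε * N) ^ 3 * (16 * (N : ℝ) ^ 2) := by
          rw [← mul_sum]
          exact mul_le_mul_of_nonneg_left hpar (pow_nonneg hε0 3)
      _ = 16 * ε ^ 3 * (N : ℝ) ^ 5 := by ring
      _ ≤ κ ^ 5 * (N : ℝ) ^ 5 := mul_le_mul_of_nonneg_right hεκ (by positivity)
      _ = _ := by ring
  have h6 := holder3 (range M) (fun r => ‖∑ n ∈ Icc 1 N, G n * e ((r : ℝ) / M * n)‖)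
    (fun r => ‖∑ x ∈ A₁, u x * e (-((r : ℝ) / M * (α * x)))‖)
    (fun r => ‖∑ y ∈ A₂, v y * e (-((r : ℝ) / M * (β * y)))‖) (fun _ => norm_nonneg _) (fun _ => norm_nonneg _)
    (fun _ => norm_nonneg _) (κ * N) y₁ y₂ (by positivity) hy₁ hy₂ h5th (Rst_dil M hM y₁ A₁ h1 α hα u hu)
    (Rst_dil M hM y₂ A₂ h2 β hβ v hv)
  have h7 : ‖∑ r ∈ range M, (∑ n ∈ Icc 1 N, G n * e ((r : ℝ) / M * n)) * e (-((r : ℝ) / M * γ)) *
        ((∑ x ∈ A₁, u x * e (-((r : ℝ) / M * (α * x)))) * ∑ y ∈ A₂, v y * e (-((r : ℝ) / M * (β * y))))‖ ≤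
      κ * N * y₁ * y₂ := by
    refine (norm_sum_le _ _).trans (le_trans (le_of_eq ?_) h6)
    refine sum_congr rfl fun r _ => ?_
    rw [norm_mul, norm_mul, norm_mul, norm_e, mul_one]
    ring
  calc 1 / (M : ℝ) * _ ≤ 1 / (M : ℝ) * (κ * N * y₁ * y₂) := mul_le_mul_of_nonneg_left h7 (by positivity)
    _ = κ * (y₁ * y₂) * (N / M) := by ring
    _ ≤ κ * (y₁ * y₂) * 1 := by
        refine mul_le_mul_of_nonneg_left ?_ (by positivity)
        rw [div_le_one hMr]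
        have : N ≤ M := by omega
        exact_mod_cast this
    _ = _ := mul_one _

end Pool.Agent.H569.SS
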