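import Pool.Agent.H569.SS13

/-!
# Restriction estimates for sets of integers and sets of primes
-/

set_option autoImplicit false

open Finset Filter

namespace Pool.Agent.H569.SS

open Pool.Agent.X23.CS (e norm_e e_add e_zero e_eq_one_iff orth)
open Pool.Agent.Helper602.MK (ee PP J6Stmt)

/-- the order of the number of the integers or of the primes up to `N` -/
noncomputable def dd (N : ℕ) (t : Bool) : ℝ := if t = true then N / Real.log N else N

/-- a set of integers, or of primes, in `[1, N]` -/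
def Typ (N : ℕ) (t : Bool) (A : Finset ℤ) : Prop := ∀ x ∈ A, 1 ≤ x ∧ x ≤ N ∧ (t = true → x.toNat.Prime)

theorem card_typ {N : ℕ} {t : Bool} {A : Finset ℤ} (h : Typ N t A) : A.card ≤ N := by
  have h1 : A ⊆ Icc (1 : ℤ) N := fun x hx => mem_Icc.2 ⟨(h x hx).1, (h x hx).2.1⟩
  have h2 := card_le_card h1
  rwa [Int.card_Icc, show ((N : ℤ) + 1 - 1).toNat = N by omega] at h2

theorem U_le (M : ℕ) (A : Finset ℤ) (u : ℤ → ℂ) (hu : ∀ x, ‖u x‖ ≤ 1) (r : ℕ) :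
    ‖∑ x ∈ A, u x * e (-((r : ℝ) / M * x))‖ ≤ A.card := by
  refine (norm_sum_le _ _).trans ((sum_le_sum (g := fun _ => (1 : ℝ)) fun x _ => ?_).trans ?_)
  · rw [norm_mul, norm_e, mul_one]
    exact hu x
  · rw [sum_const, nsmul_eq_mul, mul_one]

/-- sets of integers -/
theorem Rst_int (N M : ℕ) (hN : 1 ≤ N) (hM1 : 2 * N < M) (hM2 : M ≤ 4 * N) (t : Bool) (A : Finset ℤ)
    (hA : Typ N t A) : Rst M (2 * N) A := by
  intro u hu
  have hNr : (0 : ℝ) < N := by exact_mod_cast hN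
  have h1 := parseval M (by omega) A u 1 one_ne_zero (by
    intro x hx
    have := hA x hx
    rw [one_mul, abs_of_nonneg (by omega)]
    omega)
  have h2 : ∑ r ∈ range M, ‖∑ x ∈ A, u x * e (-((r : ℝ) / M * x))‖ ^ 2 ≤ 4 * N * N := by
    have h3 : ∑ r ∈ range M, ‖∑ x ∈ A, u x * e (-((r : ℝ) / M * x))‖ ^ 2 =
        ∑ r ∈ range M, ‖∑ x ∈ A, u x * e (-((r : ℝ) / M * (((1 : ℤ) : ℝ) * x)))‖ ^ 2 := by
      refine sum_congr rfl fun r _ => ?_
      rw [Int.cast_one]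
      simp only [one_mul]
    rw [h3, h1]
    have h4 : ∑ x ∈ A, ‖u x‖ ^ 2 ≤ N := by
      calc ∑ x ∈ A, ‖u x‖ ^ 2 ≤ ∑ x ∈ A, (1 : ℝ) :=
            sum_le_sum fun x _ => pow_le_one₀ (norm_nonneg _) (hu x)
        _ = A.card := by simp
        _ ≤ N := by exact_mod_cast card_typ hA
    exact mul_le_mul (by exact_mod_cast hM2) h4 (sum_nonneg fun _ _ => by positivity) (by positivity)
  have h3 : ∀ r ∈ range M, ‖∑ x ∈ A, u x * e (-((r : ℝ) / M * x))‖ ^ (5 / 2 : ℝ) ≤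
      (N : ℝ) ^ (1 / 2 : ℝ) * ‖∑ x ∈ A, u x * e (-((r : ℝ) / M * x))‖ ^ 2 := by
    intro r _
    have h4 := (U_le M A u hu r).trans (by exact_mod_cast card_typ hA : (A.card : ℝ) ≤ N)
    have h5 := norm_nonneg (∑ x ∈ A, u x * e (-((r : ℝ) / M * x)))
    rw [show (5 / 2 : ℝ) = 1 / 2 + 2 by norm_num, Real.rpow_add' h5 (by norm_num), Real.rpow_two]
    exact mul_le_mul_of_nonneg_right (Real.rpow_le_rpow h5 h4 (by norm_num)) (by positivity)
  refine (sum_le_sum h3).trans ?_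
  rw [← mul_sum]
  calc (N : ℝ) ^ (1 / 2 : ℝ) * _ ≤ (N : ℝ) ^ (1 / 2 : ℝ) * (4 * N * N) :=
        mul_le_mul_of_nonneg_left h2 (by positivity)
    _ = 4 * ((N : ℝ) ^ (1 / 2 : ℝ) * (N : ℝ) ^ (2 : ℝ)) := by rw [Real.rpow_two]; ring
    _ = 4 * (N : ℝ) ^ (5 / 2 : ℝ) := by
        rw [← Real.rpow_add hNr]
        norm_num
    _ ≤ 2 ^ (5 / 2 : ℝ) * (N : ℝ) ^ (5 / 2 : ℝ) := by
        refine mul_le_mul_of_nonneg_right ?_ (by positivity)
        calc (4 : ℝ) = 2 ^ (2 : ℝ) := by norm_num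
          _ ≤ 2 ^ (5 / 2 : ℝ) := Real.rpow_le_rpow_of_exponent_le (by norm_num) (by norm_num)
    _ = (2 * N) ^ (5 / 2 : ℝ) := (Real.mul_rpow (by norm_num) hNr.le).symm

theorem add_rpow (a b : ℝ) (ha : 0 ≤ a) (hb : 0 ≤ b) :
    (a + b) ^ (5 / 2 : ℝ) ≤ 8 * (a ^ (5 / 2 : ℝ) + b ^ (5 / 2 : ℝ)) := by
  have h8 : (2 : ℝ) ^ (5 / 2 : ℝ) ≤ 8 := by
    calc (2 : ℝ) ^ (5 / 2 : ℝ) ≤ 2 ^ (3 : ℝ) := Real.rpow_le_rpow_of_exponent_le (by norm_num) (by norm_num)
      _ = 8 := by norm_num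
  have h1 : ∀ x y : ℝ, 0 ≤ x → 0 ≤ y → x ≤ y → (x + y) ^ (5 / 2 : ℝ) ≤ 8 * y ^ (5 / 2 : ℝ) := by
    intro x y hx hy hxy
    calc (x + y) ^ (5 / 2 : ℝ) ≤ (2 * y) ^ (5 / 2 : ℝ) :=
          Real.rpow_le_rpow (by positivity) (by linarith) (by norm_num)
      _ = 2 ^ (5 / 2 : ℝ) * y ^ (5 / 2 : ℝ) := Real.mul_rpow (by norm_num) hy
      _ ≤ _ := mul_le_mul_of_nonneg_right h8 (by positivity)
  have ha' : 0 ≤ a ^ (5 / 2 : ℝ) := Real.rpow_nonneg ha _
  have hb' : 0 ≤ b ^ (5 / 2 : ℝ) := Real.rpow_nonneg hb _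
  rcases le_total a b with h | h
  · have := h1 a b ha hb h
    linarith
  · have := h1 b a hb ha h
    rw [add_comm b a] at this
    linarith

/-- sets of primes -/
theorem Rst_prime : ∃ C : ℝ, 2 ≤ C ∧ ∃ N₀ : ℕ, 2 ≤ N₀ ∧ ∀ N : ℕ, N₀ ≤ N → ∀ M : ℕ, 2 * N < M → M ≤ 4 * N →
    ∀ A : Finset ℤ, Typ N true A → Rst M (C * (N / Real.log N)) A := by
  obtain ⟨C, hC, k₀, hk₀, h6⟩ := j6
  have hev : ∀ᶠ x : ℝ in atTop, ‖Real.log x‖ ≤ 1 * ‖x ^ (1 / 10 : ℝ)‖ :=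
    (isLittleO_log_rpow_atTop (by norm_num : (0 : ℝ) < 1 / 10)).bound one_pos
  obtain ⟨x₀, hx₀⟩ := eventually_atTop.1 hev
  obtain ⟨N₁, hN₁⟩ := exists_nat_ge x₀
  refine ⟨8 * (C + 4), by linarith, max k₀ (max N₁ 3), le_trans hk₀ (le_max_left _ _), ?_⟩
  intro N hN M hM1 hM2 A hA u hu
  have hNk : k₀ ≤ N := le_trans (le_max_left _ _) hN
  have hN1 : N₁ ≤ N := le_trans (le_trans (le_max_left _ _) (le_max_right _ _)) hN
  have hN3 : 3 ≤ N := le_trans (le_trans (le_max_right _ _) (le_max_right _ _)) hN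
  have hNr : (3 : ℝ) ≤ N := by exact_mod_cast hN3
  have hN0 : (0 : ℝ) < N := by linarith
  have hlog : 0 < Real.log N := Real.log_pos (by linarith)
  have hlog1 : Real.log N ≤ (N : ℝ) ^ (1 / 10 : ℝ) := by
    have h1 := hx₀ N (hN₁.trans (by exact_mod_cast hN1))
    rw [one_mul, Real.norm_of_nonneg hlog.le, Real.norm_of_nonneg (Real.rpow_nonneg hN0.le _)] at h1
    exact h1
  obtain ⟨f, hf⟩ : ∃ f : ℕ → ℂ, ∀ p, f p = if (p : ℤ) ∈ A then (starRingEnd ℂ) (u p) else 0 := ⟨_, fun _ => rfl⟩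
  have hf1 : ∀ p, ‖f p‖ ≤ 1 := by
    intro p
    rw [hf]
    split_ifs
    · rw [RCLike.norm_conj]; exact hu _
    · rw [norm_zero]; exact zero_le_one
  have hJ := h6 N hNk M (by omega) (by omega) f hf1
  -- the two parts
  have hsplit : ∀ r ∈ range M, ‖∑ x ∈ A, u x * e (-((r : ℝ) / M * x))‖ ≤
      ‖∑ p ∈ PP N, f p * ee ((r : ℝ) * p / M)‖ + (N : ℝ) ^ (1 / 2 : ℝ) := by
    intro r _
    have h1 : ∑ x ∈ A, u x * e (-((r : ℝ) / M * x)) =
        ∑ x ∈ A.filter (fun x => x.toNat ∈ PP N), u x * e (-((r : ℝ) / M * x)) +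
        ∑ x ∈ A.filter (fun x => ¬ x.toNat ∈ PP N), u x * e (-((r : ℝ) / M * x)) :=
      (sum_filter_add_sum_filter_not A _ _).symm
    rw [h1]
    refine (norm_add_le _ _).trans (add_le_add (le_of_eq ?_) ?_)
    · rw [← RCLike.norm_conj (∑ x ∈ A.filter (fun x => x.toNat ∈ PP N), u x * e (-((r : ℝ) / M * x)))]
      congr 1
      rw [map_sum]
      have h2 : ∑ p ∈ PP N, f p * ee ((r : ℝ) * p / M) =
          ∑ p ∈ (PP N).filter (fun p : ℕ => (p : ℤ) ∈ A), (starRingEnd ℂ) (u p) * e ((r : ℝ) / M * p) := by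
        rw [sum_filter]
        refine sum_congr rfl fun p _ => ?_
        rw [hf]
        split_ifs
        · congr 1
          show e _ = e _
          congr 1
          ring
        · rw [zero_mul]
      rw [h2]
      refine sum_nbij' (fun x : ℤ => x.toNat) (fun p : ℕ => (p : ℤ)) ?_ ?_ ?_ ?_ ?_
      · intro x hx
        rw [mem_filter] at hx ⊢
        have := hA x hx.1
        refine ⟨hx.2, ?_⟩
        rw [Int.toNat_of_nonneg (by omega)]
        exact hx.1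
      · intro p hp
        rw [mem_filter] at hp ⊢
        refine ⟨hp.2, ?_⟩
        rw [Int.toNat_natCast]
        exact hp.1
      · intro x hx
        rw [mem_filter] at hx
        have := hA x hx.1
        exact Int.toNat_of_nonneg (by omega)
      · intro p _
        exact Int.toNat_natCast p
      · intro x hx
        rw [mem_filter] at hx
        have h3 := hA x hx.1
        have h4 : ((x.toNat : ℕ) : ℤ) = x := Int.toNat_of_nonneg (by omega)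
        have h5 : ((x.toNat : ℕ) : ℝ) = (x : ℝ) := by exact_mod_cast h4
        rw [map_mul, e_neg_conj, neg_neg, h4, h5]
    · refine (norm_sum_le _ _).trans ?_
      refine (sum_le_sum (g := fun _ => (1 : ℝ)) fun x _ => ?_).trans ?_
      · rw [norm_mul, norm_e, mul_one]
        exact hu x
      · rw [sum_const, nsmul_eq_mul, mul_one]
        have h2 : (A.filter (fun x => ¬ x.toNat ∈ PP N)).card ≤ Nat.sqrt N := by
          calc _ ≤ (Icc (1 : ℤ) (Nat.sqrt N)).card := by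
                refine card_le_card fun x hx => ?_
                rw [mem_filter] at hx
                obtain ⟨h3, h4, h5⟩ := hA x hx.1
                have h6 := h5 rfl
                rw [mem_Icc]
                refine ⟨h3, ?_⟩
                by_contra h7
                apply hx.2
                unfold PP
                rw [mem_filter, mem_Icc]
                refine ⟨⟨by omega, by omega⟩, h6, ?_⟩
                have h8 : Nat.sqrt N < x.toNat := by omega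
                rw [Nat.sqrt_lt] at h8
                rw [sq]
                exact h8
            _ = Nat.sqrt N := by simp
        have h3 : ((Nat.sqrt N : ℕ) : ℝ) ≤ (N : ℝ) ^ (1 / 2 : ℝ) := by
          rw [← Real.sqrt_eq_rpow]
          exact Real.nat_sqrt_le_real_sqrt
        exact le_trans (by exact_mod_cast h2) h3
  have hterm : ∀ r ∈ range M, ‖∑ x ∈ A, u x * e (-((r : ℝ) / M * x))‖ ^ (5 / 2 : ℝ) ≤
      8 * (‖∑ p ∈ PP N, f p * ee ((r : ℝ) * p / M)‖ ^ (5 / 2 : ℝ) + (N : ℝ) ^ (5 / 4 : ℝ)) := by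
    intro r hr
    refine (Real.rpow_le_rpow (norm_nonneg _) (hsplit r hr) (by norm_num)).trans ?_
    refine (add_rpow _ _ (norm_nonneg _) (by positivity)).trans ?_
    have h1 : ((N : ℝ) ^ (1 / 2 : ℝ)) ^ (5 / 2 : ℝ) = (N : ℝ) ^ (5 / 4 : ℝ) := by
      rw [← Real.rpow_mul hN0.le]
      norm_num
    rw [h1]
  refine (sum_le_sum hterm).trans ?_
  rw [← mul_sum, sum_add_distrib, sum_const, card_range, nsmul_eq_mul]
  have h1 : (M : ℝ) * (N : ℝ) ^ (5 / 4 : ℝ) ≤ 4 * (N / Real.log N) ^ (5 / 2 : ℝ) := by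
    have h2 : (M : ℝ) ≤ 4 * N := by exact_mod_cast hM2
    calc (M : ℝ) * (N : ℝ) ^ (5 / 4 : ℝ) ≤ (4 * N) * (N : ℝ) ^ (5 / 4 : ℝ) :=
          mul_le_mul_of_nonneg_right h2 (by positivity)
      _ = 4 * ((N : ℝ) ^ (1 : ℝ) * (N : ℝ) ^ (5 / 4 : ℝ)) := by rw [Real.rpow_one]; ring
      _ = 4 * (N : ℝ) ^ (9 / 4 : ℝ) := by
          rw [← Real.rpow_add hN0]
          norm_num
      _ ≤ 4 * (N / Real.log N) ^ (5 / 2 : ℝ) := by
          refine mul_le_mul_of_nonneg_left ?_ (by norm_num)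
          rw [Real.div_rpow hN0.le hlog.le, le_div_iff₀ (Real.rpow_pos_of_pos hlog _)]
          calc (N : ℝ) ^ (9 / 4 : ℝ) * Real.log N ^ (5 / 2 : ℝ) ≤
                (N : ℝ) ^ (9 / 4 : ℝ) * ((N : ℝ) ^ (1 / 10 : ℝ)) ^ (5 / 2 : ℝ) :=
                mul_le_mul_of_nonneg_left (Real.rpow_le_rpow hlog.le hlog1 (by norm_num)) (by positivity)
            _ = (N : ℝ) ^ (5 / 2 : ℝ) := by
                rw [← Real.rpow_mul hN0.le, ← Real.rpow_add hN0]
                norm_num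
  have hD0 : 0 ≤ (N / Real.log N) ^ (5 / 2 : ℝ) := Real.rpow_nonneg (by positivity) _
  calc 8 * (∑ r ∈ range M, ‖∑ p ∈ PP N, f p * ee ((r : ℝ) * p / M)‖ ^ (5 / 2 : ℝ) + (M : ℝ) * (N : ℝ) ^ (5 / 4 : ℝ)) ≤
        8 * (C * ((N : ℝ) / Real.log N) ^ (5 / 2 : ℝ) + 4 * (N / Real.log N) ^ (5 / 2 : ℝ)) := by
        refine mul_le_mul_of_nonneg_left (add_le_add hJ h1) (by norm_num)
    _ = (8 * (C + 4)) * (N / Real.log N) ^ (5 / 2 : ℝ) := by ring
    _ ≤ (8 * (C + 4)) ^ (5 / 2 : ℝ) * (N / Real.log N) ^ (5 / 2 : ℝ) := by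
        refine mul_le_mul_of_nonneg_right ?_ hD0
        calc 8 * (C + 4) = (8 * (C + 4)) ^ (1 : ℝ) := (Real.rpow_one _).symm
          _ ≤ _ := Real.rpow_le_rpow_of_exponent_le (by linarith) (by norm_num)
    _ = (8 * (C + 4) * (N / Real.log N)) ^ (5 / 2 : ℝ) :=
        (Real.mul_rpow (by linarith) (by positivity)).symm

/-- the number of elements from the restriction estimate -/
theorem Rst_card {M : ℕ} (hM : 1 ≤ M) {y : ℝ} (hy : 0 ≤ y) {A : Finset ℤ} (h : Rst M y A) : (A.card : ℝ) ≤ y := by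
  have h1 := h (fun _ => 1) (fun _ => by rw [norm_one])
  have h2 : (A.card : ℝ) ^ (5 / 2 : ℝ) ≤ y ^ (5 / 2 : ℝ) := by
    refine le_trans ?_ h1
    have h3 := single_le_sum (f := fun r : ℕ => ‖∑ x ∈ A, (1 : ℂ) * e (-((r : ℝ) / M * x))‖ ^ (5 / 2 : ℝ))
      (fun r _ => Real.rpow_nonneg (norm_nonneg _) _) (mem_range.2 hM)
    refine le_trans (le_of_eq ?_) h3
    simp only [Nat.cast_zero, zero_div, zero_mul, neg_zero, e_zero, mul_one, sum_const, nsmul_eq_mul,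
      Complex.norm_natCast]
  exact (Real.rpow_le_rpow_iff (Nat.cast_nonneg _) hy (by norm_num)).1 h2

/-- **bilinear sums over dense sets of integers or of primes** -/
theorem bil_mixed (κ : ℝ) (hκ : 0 < κ) : ∃ ε : ℝ, 0 < ε ∧ ∃ N₀ : ℕ, ∀ N : ℕ, N₀ ≤ N → ∀ G : ℕ → ℂ,
    (∀ n, ‖G n‖ ≤ 2) → (∀ θ : ℝ, ‖∑ n ∈ Icc 1 N, G n * e (θ * n)‖ ≤ ε * N) →
    ∀ (t₁ t₂ : Bool) (A₁ A₂ : Finset ℤ), Typ N t₁ A₁ → Typ N t₂ A₂ → ∀ u v : ℤ → ℂ, (∀ x, ‖u x‖ ≤ 1) →
    (∀ x, ‖v x‖ ≤ 1) → ∀ α β γ : ℤ, α ≠ 0 → β ≠ 0 →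
    (∀ x ∈ A₁, ∀ y ∈ A₂, 1 ≤ α * x + β * y + γ ∧ α * x + β * y + γ ≤ N) →
    ‖∑ x ∈ A₁, ∑ y ∈ A₂, u x * v y * Gz N G (α * x + β * y + γ)‖ ≤ κ * (dd N t₁ * dd N t₂) := by
  obtain ⟨C, hC, N₁, hN₁, hP⟩ := Rst_prime
  obtain ⟨κ', hκ'⟩ : ∃ κ' : ℝ, κ' = κ / C ^ 2 := ⟨_, rfl⟩
  have hC0 : 0 < C := by linarith
  have hκ'0 : 0 < κ' := by rw [hκ']; positivity
  obtain ⟨N₂, hN₂⟩ := exists_nat_ge ((2 * C / κ) ^ 2)
  have hev : ∀ᶠ x : ℝ in atTop, ‖Real.log x‖ ≤ 1 * ‖x ^ (1 / 2 : ℝ)‖ :=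
    (isLittleO_log_rpow_atTop (by norm_num : (0 : ℝ) < 1 / 2)).bound one_pos
  obtain ⟨x₀, hx₀⟩ := eventually_atTop.1 hev
  obtain ⟨N₃, hN₃⟩ := exists_nat_ge x₀
  refine ⟨min 1 (κ' ^ 5 / 16), lt_min one_pos (by positivity), max (max N₁ N₂) (max N₃ 3), ?_⟩
  intro N hN G hG2 hG t₁ t₂ A₁ A₂ hA₁ hA₂ u v hu hv α β γ hα hβ hr
  have hN1 : N₁ ≤ N := le_trans (le_trans (le_max_left _ _) (le_max_left _ _)) hN
  have hN2 : N₂ ≤ N := le_trans (le_trans (le_max_right _ _) (le_max_left _ _)) hN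
  have hN3 : N₃ ≤ N := le_trans (le_trans (le_max_left _ _) (le_max_right _ _)) hN
  have hN4 : 3 ≤ N := le_trans (le_trans (le_max_right _ _) (le_max_right _ _)) hN
  have hNr : (3 : ℝ) ≤ N := by exact_mod_cast hN4
  have hN0 : (0 : ℝ) < N := by linarith
  have hlog1 : 1 ≤ Real.log N := by
    rw [Real.le_log_iff_exp_le hN0]
    linarith [Real.exp_one_lt_d9]
  have hlog0 : 0 < Real.log N := by linarith
  have hlog2 : Real.log N ≤ Real.sqrt N := by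
    have h1 := hx₀ N (hN₃.trans (by exact_mod_cast hN3))
    rw [one_mul, Real.norm_of_nonneg hlog0.le, Real.norm_of_nonneg (Real.rpow_nonneg hN0.le _),
      ← Real.sqrt_eq_rpow] at h1
    exact h1
  have hdd : ∀ t : Bool, 2 * C / κ ≤ dd N t ∧ 0 < dd N t := by
    have h1 : 2 * C / κ ≤ N / Real.log N := by
      have h2 : (2 * C / κ) ^ 2 ≤ N := hN₂.trans (by exact_mod_cast hN2)
      have h3 : 2 * C / κ ≤ Real.sqrt N := Real.le_sqrt_of_sq_le h2
      refine h3.trans ?_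
      rw [le_div_iff₀ hlog0]
      calc Real.sqrt N * Real.log N ≤ Real.sqrt N * Real.sqrt N :=
            mul_le_mul_of_nonneg_left hlog2 (Real.sqrt_nonneg _)
        _ = N := Real.mul_self_sqrt hN0.le
    have h2 : (N : ℝ) / Real.log N ≤ N := div_le_self hN0.le hlog1
    intro t
    unfold dd
    split_ifs
    · exact ⟨h1, by positivity⟩
    · exact ⟨h1.trans h2, hN0⟩
  obtain ⟨M, hM, hM1, hM2⟩ := Nat.exists_prime_lt_and_le_two_mul (2 * N) (by omega)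
  have hM2' : M ≤ 4 * N := by omega
  have hRst : ∀ (t : Bool) (A : Finset ℤ), Typ N t A → Rst M (C * dd N t) A := by
    intro t A hA
    unfold dd
    split_ifs with h
    · subst h
      exact hP N hN1 M hM1 hM2' A hA
    · intro w hw
      refine (Rst_int N M (by omega) hM1 hM2' t A hA w hw).trans ?_
      exact Real.rpow_le_rpow (by positivity) (mul_le_mul_of_nonneg_right hC hN0.le) (by norm_num)
  have hR1 := hRst t₁ A₁ hA₁
  have hR2 := hRst t₂ A₂ hA₂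
  have hd1 := hdd t₁
  have hd2 := hdd t₂
  have hc1 := Rst_card hM.pos (by have := hd1.2; positivity) hR1
  have hc2 := Rst_card hM.pos (by have := hd2.2; positivity) hR2
  have htriv : ‖∑ x ∈ A₁, ∑ y ∈ A₂, u x * v y * Gz N G (α * x + β * y + γ)‖ ≤ 2 * (A₁.card * A₂.card) := by
    refine (norm_sum_le _ _).trans ((sum_le_sum (g := fun _ => 2 * (A₂.card : ℝ)) fun x _ => ?_).trans (le_of_eq ?_))
    · refine (norm_sum_le _ _).trans ((sum_le_sum (g := fun _ => (2 : ℝ)) fun y _ => ?_).trans (le_of_eq ?_))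
      · rw [norm_mul, norm_mul]
        have h1 : ‖Gz N G (α * x + β * y + γ)‖ ≤ 2 := by
          unfold Gz
          split_ifs
          · exact hG2 _
          · rw [norm_zero]; norm_num
        have h2 : ‖u x‖ * ‖v y‖ ≤ 1 := mul_le_one₀ (hu x) (norm_nonneg _) (hv y)
        have h3 := norm_nonneg (Gz N G (α * x + β * y + γ))
        have h4 : 0 ≤ ‖u x‖ * ‖v y‖ := by positivity
        nlinarith
      · rw [sum_const, nsmul_eq_mul, mul_comm]
    · rw [sum_const, nsmul_eq_mul]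
      ring
  -- small sets
  rcases Nat.lt_or_ge A₁.card 2 with hs1 | hs1
  · have h1 : (A₁.card : ℝ) ≤ 1 := by exact_mod_cast (by omega : A₁.card ≤ 1)
    have h2 : (0 : ℝ) ≤ A₂.card := Nat.cast_nonneg _
    have h3 : 2 * C ≤ κ * dd N t₁ := by
      have := hd1.1
      rw [div_le_iff₀ hκ] at this
      linarith
    have h4 : 2 * C * dd N t₂ ≤ κ * dd N t₁ * dd N t₂ := mul_le_mul_of_nonneg_right h3 hd2.2.le
    nlinarith
  rcases Nat.lt_or_ge A₂.card 2 with hs2 | hs2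
  · have h1 : (A₂.card : ℝ) ≤ 1 := by exact_mod_cast (by omega : A₂.card ≤ 1)
    have h2 : (0 : ℝ) ≤ A₁.card := Nat.cast_nonneg _
    have h3 : 2 * C ≤ κ * dd N t₂ := by
      have := hd2.1
      rw [div_le_iff₀ hκ] at this
      linarith
    have h4 : 2 * C * dd N t₁ ≤ κ * dd N t₂ * dd N t₁ := mul_le_mul_of_nonneg_right h3 hd1.2.le
    nlinarith
  obtain ⟨a, ha, a', ha', haa⟩ := one_lt_card.1 hs1
  obtain ⟨b, hb, b', hb', hbb⟩ := one_lt_card.1 hs2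
  have hcop : ∀ (c z z' : ℤ), c ≠ 0 → z ≠ z' → |c * z - c * z'| < N → ¬ (M : ℤ) ∣ c := by
    intro c z z' hc hz hlt hdvd
    have h1 : (M : ℤ) ≤ |c| := Int.le_of_dvd (abs_pos.2 hc) ((dvd_abs _ _).2 hdvd)
    have h2 : 1 ≤ |z - z'| := Int.one_le_abs (sub_ne_zero.2 hz)
    rw [← mul_sub, abs_mul] at hlt
    have h3 : |c| * 1 ≤ |c| * |z - z'| := mul_le_mul_of_nonneg_left h2 (abs_nonneg c)
    omega
  have hαM : ¬ (M : ℤ) ∣ α := by
    refine hcop α a a' hα haa ?_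
    have h1 := hr a ha b hb
    have h2 := hr a' ha' b hb
    rw [abs_lt]
    constructor <;> omega
  have hβM : ¬ (M : ℤ) ∣ β := by
    refine hcop β b b' hβ hbb ?_
    have h1 := hr a ha b hb
    have h2 := hr a ha b' hb'
    rw [abs_lt]
    constructor <;> omega
  have hε : 16 * (min 1 (κ' ^ 5 / 16)) ^ 3 ≤ κ' ^ 5 := by
    have h1 : min 1 (κ' ^ 5 / 16) ≤ 1 := min_le_left _ _
    have h2 : min 1 (κ' ^ 5 / 16) ≤ κ' ^ 5 / 16 := min_le_right _ _
    have h3 : 0 < min 1 (κ' ^ 5 / 16) := lt_min one_pos (by positivity)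
    have h4 : (min 1 (κ' ^ 5 / 16)) ^ 3 ≤ min 1 (κ' ^ 5 / 16) := pow_le_of_le_one h3.le h1 (by norm_num)
    linarith
  have h1 := bilR N M (by omega) hM hM1 hM2' G hG2 _ κ' hκ'0 hε hG A₁ A₂ (C * dd N t₁) (C * dd N t₂)
    (mul_pos hC0 hd1.2) (mul_pos hC0 hd2.2) hR1 hR2 u v hu hv α β γ hαM hβM hr
  refine h1.trans (le_of_eq ?_)
  rw [hκ']
  field_simp

end Pool.Agent.H569.SS
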