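import Pool.Agent.H569.SS11
import Pool.Agent.H569.SS12
import Pool.Agent.H569.SS14

/-!
# Chowla products along the edges of graphs, with vertices in dense sets of integers or of primes
-/

set_option autoImplicit false

open Finset Filter

namespace Pool.Agent.H569.SS

open Pool.Agent.Y958.U (LZ)
open Pool.Agent.X23.CS (lam e norm_e)

/-- the sizes of sets of integers and of sets of primes -/
theorem card_dd : ∃ C : ℝ, 2 ≤ C ∧ ∃ N₀ : ℕ, 3 ≤ N₀ ∧ ∀ N : ℕ, N₀ ≤ N → ∀ t : Bool, 0 < dd N t ∧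
    ∀ A : Finset ℤ, Typ N t A → (A.card : ℝ) ≤ C * dd N t := by
  obtain ⟨C, hC, N₁, hN₁, hP⟩ := Rst_prime
  refine ⟨C, hC, max N₁ 3, le_max_right _ _, fun N hN t => ?_⟩
  have hN1 : N₁ ≤ N := le_trans (le_max_left _ _) hN
  have hN3 : 3 ≤ N := le_trans (le_max_right _ _) hN
  have hNr : (3 : ℝ) ≤ N := by exact_mod_cast hN3
  have hlog0 : 0 < Real.log N := Real.log_pos (by linarith)
  have hpos : 0 < dd N t := by
    unfold dd
    split_ifs
    · exact div_pos (by linarith) hlog0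
    · linarith
  refine ⟨hpos, fun A hA => ?_⟩
  obtain ⟨M, hM, hM1, hM2⟩ := Nat.exists_prime_lt_and_le_two_mul (2 * N) (by omega)
  cases t with
  | true =>
    have h1 := hP N hN1 M hM1 (by omega) A hA
    unfold dd at hpos ⊢
    rw [if_pos rfl] at hpos ⊢
    exact Rst_card hM.pos (by positivity) h1
  | false =>
    unfold dd
    rw [if_neg (by simp)]
    have h1 : (A.card : ℝ) ≤ N := by exact_mod_cast card_typ hA
    nlinarith

/-- a product of numbers to which a small number is added -/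
theorem prod_add' {ι : Type} (s : Finset ι) (p : ι → ℝ) (η : ℝ) (hη : 0 ≤ η) (h0 : ∀ i ∈ s, 0 ≤ p i)
    (h1 : ∀ i ∈ s, p i + η ≤ 1) : ∏ i ∈ s, (p i + η) ≤ ∏ i ∈ s, p i + s.card * η := by
  classical
  induction s using Finset.induction_on with
  | empty => simp
  | insert i s hi ih =>
    rw [prod_insert hi, prod_insert hi, card_insert_of_notMem hi]
    push_cast
    have h2 := ih (fun j hj => h0 j (mem_insert_of_mem hj)) fun j hj => h1 j (mem_insert_of_mem hj)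
    have h3 := h0 i (mem_insert_self _ _)
    have h4 := h1 i (mem_insert_self _ _)
    have h5 : ∏ j ∈ s, p j ≤ 1 := prod_le_one (fun j hj => h0 j (mem_insert_of_mem hj))
      fun j hj => by linarith [h1 j (mem_insert_of_mem hj)]
    have h6 : 0 ≤ ∏ j ∈ s, p j := prod_nonneg fun j hj => h0 j (mem_insert_of_mem hj)
    have h7 : 0 ≤ (s.card : ℝ) := Nat.cast_nonneg _
    have h8 : (p i + η) * ∏ j ∈ s, (p j + η) ≤ (p i + η) * (∏ j ∈ s, p j + s.card * η) :=
      mul_le_mul_of_nonneg_left h2 (by linarith)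
    have h9 : η * ∏ j ∈ s, p j ≤ η * 1 := mul_le_mul_of_nonneg_left h5 hη
    have h10 : (p i + η) * (s.card * η) ≤ 1 * (s.card * η) := mul_le_mul_of_nonneg_right h4 (by positivity)
    nlinarith

open Classical in
/-- **signed graphs** -/
theorem graph (E : Set ℕ) (hE : ∀ (k : ℕ) (a b : Fin k → ℕ), 1 ≤ k → (∀ j, 1 ≤ a j) →
    (∀ i j, i ≠ j → a i * b j ≠ a j * b i) → ∀ ε : ℝ, 0 < ε → ∃ N₀ : ℕ, ∀ N : ℕ, N₀ ≤ N → N ∉ E → StG a b ε N)
    (m : ℕ) (D : Finset (Fin m × Fin m)) (hD : ∀ d ∈ D, d.1 < d.2) (t : Fin m → Bool) (k : Fin m × Fin m → ℕ)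
    (a b : ∀ d, Fin (k d) → ℕ) (hadm : ∀ d ∈ D, 1 ≤ k d ∧ (∀ j, 1 ≤ a d j) ∧
      ∀ i j, i ≠ j → a d i * b d j ≠ a d j * b d i) (ε : ℝ) (hε : 0 < ε) :
    ∃ N₀ : ℕ, ∀ N : ℕ, N₀ ≤ N → N ∉ E → ∀ (α β γ σ : Fin m × Fin m → ℤ) (A : Fin m → Finset ℤ),
      (∀ i, Typ N (t i) (A i)) → (∀ d ∈ D, α d ≠ 0 ∧ β d ≠ 0 ∧ (σ d = 1 ∨ σ d = -1)) →
      (∀ d ∈ D, ∀ x ∈ A d.1, ∀ y ∈ A d.2, 1 ≤ α d * x + β d * y + γ d ∧ α d * x + β d * y + γ d ≤ N) →
      (∏ d ∈ D, (1 - rh (k d)) / 2) * ∏ i, ((A i).card : ℝ) - ε * ∏ i, dd N (t i) ≤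
        (((Fintype.piFinset A).filter fun x => ∀ d ∈ D,
          FF (a d) (b d) (α d * x d.1 + β d * x d.2 + γ d).toNat = σ d).card : ℝ) ∧
      (((Fintype.piFinset A).filter fun x => ∀ d ∈ D,
          FF (a d) (b d) (α d * x d.1 + β d * x d.2 + γ d).toNat = σ d).card : ℝ) ≤
        (∏ d ∈ D, (1 + rh (k d)) / 2) * ∏ i, ((A i).card : ℝ) + ε * ∏ i, dd N (t i) := by
  obtain ⟨C, hC, N₁, hN₁, hcard⟩ := card_dd
  have hC0 : 0 < C := by linarith
  obtain ⟨κ, hκ⟩ : ∃ κ : ℝ, κ = ε / ((D.card + 1) * C ^ m) := ⟨_, rfl⟩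
  have hκ0 : 0 < κ := by rw [hκ]; positivity
  obtain ⟨ε₁, hε₁, N₂, hbil⟩ := bil_mixed κ hκ0
  obtain ⟨K, hK⟩ : ∃ K : ℕ, K = ∑ d ∈ D, k d := ⟨_, rfl⟩
  obtain ⟨ε₂, hε₂⟩ : ∃ ε₂ : ℝ, ε₂ = min ε₁ (min κ (1 / 2 ^ K)) := ⟨_, rfl⟩
  have hε₂0 : 0 < ε₂ := by
    rw [hε₂]
    exact lt_min hε₁ (lt_min hκ0 (by positivity))
  have hε₂1 : ε₂ ≤ ε₁ := by rw [hε₂]; exact min_le_left _ _
  have hε₂2 : ε₂ ≤ κ := by rw [hε₂]; exact (min_le_right _ _).trans (min_le_left _ _)
  have hε₂3 : ε₂ ≤ 1 / 2 ^ K := by rw [hε₂]; exact (min_le_right _ _).trans (min_le_right _ _)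
  -- the scales
  have hex : ∀ d : Fin m × Fin m, ∃ N₀ : ℕ, d ∈ D → ∀ N : ℕ, N₀ ≤ N → N ∉ E → StG (a d) (b d) ε₂ N := by
    intro d
    by_cases hd : d ∈ D
    · obtain ⟨N₀, h⟩ := hE (k d) (a d) (b d) (hadm d hd).1 (hadm d hd).2.1 (hadm d hd).2.2 ε₂ hε₂0
      exact ⟨N₀, fun _ => h⟩
    · exact ⟨0, fun h => absurd h hd⟩
  choose n₀ hn₀ using hex
  refine ⟨max (max N₁ N₂) (∑ d ∈ D, n₀ d), fun N hN hNE α β γ σ A hA hne hr => ?_⟩
  have hN1 : N₁ ≤ N := le_trans (le_trans (le_max_left _ _) (le_max_left _ _)) hN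
  have hN2 : N₂ ≤ N := le_trans (le_trans (le_max_right _ _) (le_max_left _ _)) hN
  have hN3 : ∑ d ∈ D, n₀ d ≤ N := le_trans (le_max_right _ _) hN
  have hst : ∀ d : Fin m × Fin m, ∃ w : ℕ → ℝ, d ∈ D → (∀ n ∈ Icc 1 N, |w n| ≤ rh (k d) + ε₂) ∧
      ∀ θ : ℝ, ‖∑ n ∈ Icc 1 N, ((FF (a d) (b d) n - w n : ℝ) : ℂ) * e (θ * n)‖ ≤ ε₂ * N := by
    intro d
    by_cases hd : d ∈ D
    · obtain ⟨w, h1, h2⟩ := hn₀ d hd N ((single_le_sum (f := n₀) (fun _ _ => Nat.zero_le _) hd).trans hN3) hNE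
      exact ⟨w, fun _ => ⟨h1, h2⟩⟩
    · exact ⟨fun _ => 0, fun h => absurd h hd⟩
  choose w hw using hst
  have hkK : ∀ d ∈ D, k d ≤ K := fun d hd => by
    rw [hK]
    exact single_le_sum (f := k) (fun _ _ => Nat.zero_le _) hd
  have hpow : ∀ d ∈ D, (1 : ℝ) / 2 ^ K ≤ 1 / 2 ^ (k d) := fun d hd =>
    one_div_le_one_div_of_le (by positivity) (pow_le_pow_right₀ (by norm_num) (hkK d hd))
  have hrh := fun d hd => rh_le (hadm d hd).1
  obtain ⟨w', hw'⟩ : ∃ w' : Fin m × Fin m → ℕ → ℝ, ∀ d n, w' d n = if d ∈ D ∧ n ∈ Icc 1 N then w d n else 0 :=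
    ⟨_, fun _ _ => rfl⟩
  have hw1 : ∀ d n, |w' d n| ≤ 1 := by
    intro d n
    rw [hw']
    split_ifs with h
    · have h1 := (hw d h.1).1 n h.2
      have h2 := hpow d h.1
      have h3 := (hrh d h.1).2
      have h4 : (0 : ℝ) ≤ 1 / 2 ^ (k d) := by positivity
      linarith
    · rw [abs_zero]; exact zero_le_one
  -- the two kernels
  obtain ⟨G, hG⟩ : ∃ G : Fin m × Fin m → ℤ → ℤ → ℝ, ∀ d x y, G d x y = if d ∈ D then
    (1 + σ d * FF (a d) (b d) (α d * x + β d * y + γ d).toNat) / 2 else 0 := ⟨_, fun _ _ _ => rfl⟩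
  obtain ⟨G', hG'⟩ : ∃ G' : Fin m × Fin m → ℤ → ℤ → ℝ, ∀ d x y, G' d x y = if d ∈ D then
    (1 + σ d * w' d (α d * x + β d * y + γ d).toNat) / 2 else 0 := ⟨_, fun _ _ _ => rfl⟩
  have hσ1 : ∀ d ∈ D, |(σ d : ℝ)| = 1 := by
    intro d hd
    rcases (hne d hd).2.2 with h | h <;> rw [h] <;> norm_num
  have habs : ∀ s z : ℝ, |s| = 1 → |z| ≤ 1 → |(1 + s * z) / 2| ≤ 1 := by
    intro s z hs hz
    have h1 : |s * z| ≤ 1 := by rw [abs_mul, hs, one_mul]; exact hz
    rw [abs_le] at h1 ⊢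
    constructor <;> linarith [h1.1, h1.2]
  have hGb : ∀ d x y, |G d x y| ≤ 1 := by
    intro d x y
    rw [hG]
    split_ifs with h
    · exact habs _ _ (hσ1 d h) (FF_abs _ _ _).le
    · rw [abs_zero]; exact zero_le_one
  have hGb' : ∀ d x y, |G' d x y| ≤ 1 := by
    intro d x y
    rw [hG']
    split_ifs with h
    · exact habs _ _ (hσ1 d h) (hw1 d _)
    · rw [abs_zero]; exact zero_le_one
  -- the difference of the kernels
  have hker : ∀ d ∈ D, ∀ u v : ℤ → ℝ, (∀ x, |u x| ≤ 1) → (∀ x, |v x| ≤ 1) →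
      |∑ x ∈ A d.1, ∑ y ∈ A d.2, u x * v y * (G d x y - G' d x y)| ≤
        κ / 2 * (C * dd N (t d.1) * (C * dd N (t d.2))) := by
    intro d hd u v hu hv
    obtain ⟨H, hH⟩ : ∃ H : ℕ → ℂ, ∀ n, H n = if n ∈ Icc 1 N then ((FF (a d) (b d) n - w d n : ℝ) : ℂ) else 0 :=
      ⟨_, fun _ => rfl⟩
    have hH2 : ∀ n, ‖H n‖ ≤ 2 := by
      intro n
      rw [hH]
      split_ifs with h
      · rw [Complex.norm_real, Real.norm_eq_abs]
        refine (abs_sub _ _).trans ?_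
        have h1 := FF_abs (a d) (b d) n
        have h2 := hw1 d n
        rw [hw', if_pos ⟨hd, h⟩] at h2
        linarith
      · rw [norm_zero]; norm_num
    have hHs : ∀ θ : ℝ, ‖∑ n ∈ Icc 1 N, H n * e (θ * n)‖ ≤ ε₁ * N := by
      intro θ
      have h1 : ∑ n ∈ Icc 1 N, H n * e (θ * n) = ∑ n ∈ Icc 1 N, ((FF (a d) (b d) n - w d n : ℝ) : ℂ) * e (θ * n) :=
        sum_congr rfl fun n hn => by rw [hH, if_pos hn]
      rw [h1]
      refine ((hw d hd).2 θ).trans ?_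
      exact mul_le_mul_of_nonneg_right hε₂1 (Nat.cast_nonneg N)
    have h1 := hbil N hN2 H hH2 hHs (t d.1) (t d.2) (A d.1) (A d.2) (hA _) (hA _) (fun x => (u x : ℂ))
      (fun x => (v x : ℂ)) (fun x => by rw [Complex.norm_real]; exact hu x)
      (fun x => by rw [Complex.norm_real]; exact hv x) (α d) (β d) (γ d) (hne d hd).1 (hne d hd).2.1 (hr d hd)
    have h2 : ∑ x ∈ A d.1, ∑ y ∈ A d.2, u x * v y * (G d x y - G' d x y) =
        (σ d : ℝ) / 2 * ∑ x ∈ A d.1, ∑ y ∈ A d.2, u x * v y *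
          (FF (a d) (b d) (α d * x + β d * y + γ d).toNat - w d (α d * x + β d * y + γ d).toNat) := by
      rw [mul_sum]
      refine sum_congr rfl fun x hx => ?_
      rw [mul_sum]
      refine sum_congr rfl fun y hy => ?_
      have h3 := hr d hd x hx y hy
      rw [hG, hG', if_pos hd, if_pos hd, hw', if_pos ⟨hd, by rw [mem_Icc]; omega⟩]
      ring
    have h3 : ∑ x ∈ A d.1, ∑ y ∈ A d.2, (u x : ℂ) * (v y : ℂ) * Gz N H (α d * x + β d * y + γ d) =
        ((∑ x ∈ A d.1, ∑ y ∈ A d.2, u x * v y *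
          (FF (a d) (b d) (α d * x + β d * y + γ d).toNat - w d (α d * x + β d * y + γ d).toNat) : ℝ) : ℂ) := by
      rw [Complex.ofReal_sum]
      refine sum_congr rfl fun x hx => ?_
      rw [Complex.ofReal_sum]
      refine sum_congr rfl fun y hy => ?_
      have h4 := hr d hd x hx y hy
      unfold Gz
      rw [if_pos h4, hH, if_pos (by rw [mem_Icc]; omega)]
      push_cast
      ring
    rw [h3, Complex.norm_real, Real.norm_eq_abs] at h1
    rw [h2, abs_mul, abs_div, hσ1 d hd, abs_of_pos (by norm_num : (0 : ℝ) < 2)]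
    have h5 : dd N (t d.1) * dd N (t d.2) ≤ C * dd N (t d.1) * (C * dd N (t d.2)) := by
      have h6 := (hcard N hN1 (t d.1)).1
      have h7 := (hcard N hN1 (t d.2)).1
      have h8 : 0 < dd N (t d.1) * dd N (t d.2) := mul_pos h6 h7
      have h9 : 1 ≤ C * C := by nlinarith
      calc dd N (t d.1) * dd N (t d.2) = 1 * (dd N (t d.1) * dd N (t d.2)) := (one_mul _).symm
        _ ≤ C * C * (dd N (t d.1) * dd N (t d.2)) := mul_le_mul_of_nonneg_right h9 h8.le
        _ = _ := by ring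
    have h6 := mul_le_mul_of_nonneg_left h5 (by positivity : 0 ≤ κ / 2)
    linarith
  have hcount := counting A (fun i => C * dd N (t i)) (fun i => (hcard N hN1 (t i)).2 (A i) (hA i)) D hD G G'
    hGb hGb' (κ / 2) (by positivity) hker
  -- the count
  have hS1 : ∑ x ∈ Fintype.piFinset A, ∏ d ∈ D, G d (x d.1) (x d.2) =
      (((Fintype.piFinset A).filter fun x => ∀ d ∈ D,
          FF (a d) (b d) (α d * x d.1 + β d * x d.2 + γ d).toNat = σ d).card : ℝ) := by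
    rw [card_filter, Nat.cast_sum]
    refine sum_congr rfl fun x _ => ?_
    split_ifs with h
    · rw [Nat.cast_one]
      refine prod_eq_one fun d hd => ?_
      rw [hG, if_pos hd, h d hd]
      have h1 : (σ d : ℝ) * σ d = 1 := by
        rcases (hne d hd).2.2 with h2 | h2 <;> rw [h2] <;> norm_num
      rw [h1]
      norm_num
    · push Not at h
      obtain ⟨d, hd, h1⟩ := h
      rw [Nat.cast_zero]
      refine prod_eq_zero hd ?_
      rw [hG, if_pos hd]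
      have h2 := FF_pm (a d) (b d) (α d * x d.1 + β d * x d.2 + γ d).toNat
      rcases (hne d hd).2.2 with h3 | h3 <;> rcases h2 with h4 | h4 <;> rw [h3, h4] at h1 ⊢
      · exact absurd (by norm_num) h1
      · norm_num
      · norm_num
      · exact absurd (by norm_num) h1
  -- the main term
  have hval : ∀ d ∈ D, ∀ x ∈ Fintype.piFinset A, (1 - rh (k d)) / 2 - ε₂ / 2 ≤ G' d (x d.1) (x d.2) ∧
      G' d (x d.1) (x d.2) ≤ (1 + rh (k d)) / 2 + ε₂ / 2 := by
    intro d hd x hx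
    rw [Fintype.mem_piFinset] at hx
    have h5 := hr d hd (x d.1) (hx _) (x d.2) (hx _)
    have h6 : (α d * x d.1 + β d * x d.2 + γ d).toNat ∈ Icc 1 N := by
      rw [mem_Icc]
      omega
    rw [hG', if_pos hd, hw', if_pos ⟨hd, h6⟩]
    have h7 := (hw d hd).1 _ h6
    have h8 : |(σ d : ℝ) * w d (α d * x d.1 + β d * x d.2 + γ d).toNat| ≤ rh (k d) + ε₂ := by
      rw [abs_mul, hσ1 d hd, one_mul]
      exact h7
    rw [abs_le] at h8
    constructor <;> linarith [h8.1, h8.2]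
  have hηκ : (D.card : ℝ) * (ε₂ / 2) ≤ D.card * (κ / 2) :=
    mul_le_mul_of_nonneg_left (by linarith) (Nat.cast_nonneg _)
  have hS2 : (∏ d ∈ D, (1 - rh (k d)) / 2 - D.card * (κ / 2)) * ∏ i, ((A i).card : ℝ) ≤
      ∑ x ∈ Fintype.piFinset A, ∏ d ∈ D, G' d (x d.1) (x d.2) := by
    have h1 : ∀ x ∈ Fintype.piFinset A, (∏ d ∈ D, (1 - rh (k d)) / 2 - D.card * (κ / 2) : ℝ) ≤
        ∏ d ∈ D, G' d (x d.1) (x d.2) := by
      intro x hx
      have h2 := prod_sub D (fun d => (1 - rh (k d)) / 2) (ε₂ / 2) (by positivity)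
        (fun d hd => by
          have h3 := hpow d hd
          have h4 := (hrh d hd).2
          have h5 : (0 : ℝ) ≤ 1 / 2 ^ (k d) := by positivity
          linarith)
        (fun d hd => by
          have h4 := (hrh d hd).1
          linarith)
      have h4 : ∏ d ∈ D, ((1 - rh (k d)) / 2 - ε₂ / 2) ≤ ∏ d ∈ D, G' d (x d.1) (x d.2) := by
        refine prod_le_prod (fun d hd => ?_) fun d hd => (hval d hd x hx).1
        have h3 := hpow d hd
        have h4 := (hrh d hd).2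
        have h5 : (0 : ℝ) ≤ 1 / 2 ^ (k d) := by positivity
        linarith
      linarith
    have h2 := card_nsmul_le_sum _ _ _ h1
    rw [nsmul_eq_mul, Fintype.card_piFinset] at h2
    push_cast at h2
    linarith
  have hS3 : ∑ x ∈ Fintype.piFinset A, ∏ d ∈ D, G' d (x d.1) (x d.2) ≤
      (∏ d ∈ D, (1 + rh (k d)) / 2 + D.card * (κ / 2)) * ∏ i, ((A i).card : ℝ) := by
    have h1 : ∀ x ∈ Fintype.piFinset A, ∏ d ∈ D, G' d (x d.1) (x d.2) ≤
        (∏ d ∈ D, (1 + rh (k d)) / 2 + D.card * (κ / 2) : ℝ) := by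
      intro x hx
      have h2 := prod_add' D (fun d => (1 + rh (k d)) / 2) (ε₂ / 2) (by positivity)
        (fun d hd => by
          have h4 := (hrh d hd).1
          linarith)
        (fun d hd => by
          have h3 := hpow d hd
          have h4 := (hrh d hd).2
          have h5 : (0 : ℝ) ≤ 1 / 2 ^ (k d) := by positivity
          linarith)
      have h4 : ∏ d ∈ D, G' d (x d.1) (x d.2) ≤ ∏ d ∈ D, ((1 + rh (k d)) / 2 + ε₂ / 2) := by
        refine prod_le_prod (fun d hd => ?_) fun d hd => (hval d hd x hx).2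
        refine le_trans ?_ (hval d hd x hx).1
        have h3 := hpow d hd
        have h4 := (hrh d hd).2
        have h5 : (0 : ℝ) ≤ 1 / 2 ^ (k d) := by positivity
        linarith
      linarith
    have h2 := sum_le_card_nsmul _ _ _ h1
    rw [nsmul_eq_mul, Fintype.card_piFinset] at h2
    push_cast at h2
    linarith
  have hprod : ∏ i, ((A i).card : ℝ) ≤ C ^ m * ∏ i, dd N (t i) := by
    calc ∏ i, ((A i).card : ℝ) ≤ ∏ i, (C * dd N (t i)) :=
          prod_le_prod (fun i _ => Nat.cast_nonneg _) fun i _ => (hcard N hN1 (t i)).2 (A i) (hA i)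
      _ = _ := by rw [prod_mul_distrib, prod_const, card_univ, Fintype.card_fin]
  have hprod' : ∏ i, (C * dd N (t i)) = C ^ m * ∏ i, dd N (t i) := by
    rw [prod_mul_distrib, prod_const, card_univ, Fintype.card_fin]
  rw [hS1, hprod'] at hcount
  have hdd0 : 0 ≤ ∏ i, dd N (t i) := prod_nonneg fun i _ => (hcard N hN1 (t i)).1.le
  have herr : D.card * (κ / 2) * (C ^ m * ∏ i, dd N (t i)) ≤ ε / 2 * ∏ i, dd N (t i) := by
    have h1 : (D.card : ℝ) * (κ / 2) * C ^ m ≤ ε / 2 := by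
      rw [hκ]
      have h2 : (0 : ℝ) ≤ D.card := Nat.cast_nonneg _
      have h3 : 0 < C ^ m := by positivity
      calc (D.card : ℝ) * (ε / ((D.card + 1) * C ^ m) / 2) * C ^ m = ε / 2 * (D.card / (D.card + 1)) := by
            field_simp
        _ ≤ ε / 2 * 1 := by
            refine mul_le_mul_of_nonneg_left ?_ (by positivity)
            rw [div_le_one (by positivity)]
            linarith
        _ = _ := mul_one _
    calc _ = (D.card : ℝ) * (κ / 2) * C ^ m * ∏ i, dd N (t i) := by ring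
      _ ≤ _ := mul_le_mul_of_nonneg_right h1 hdd0
  have hlow := (abs_le.1 hcount).1
  have hupp := (abs_le.1 hcount).2
  have h1 : (D.card : ℝ) * (κ / 2) * ∏ i, ((A i).card : ℝ) ≤ D.card * (κ / 2) * (C ^ m * ∏ i, dd N (t i)) :=
    mul_le_mul_of_nonneg_left hprod (by positivity)
  have h3 : (D.card : ℝ) * (κ / 2 * (C ^ m * ∏ i, dd N (t i))) = D.card * (κ / 2) * (C ^ m * ∏ i, dd N (t i)) := by
    ring
  rw [sub_mul] at hS2
  rw [add_mul] at hS3
  rw [h3] at hlow hupp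
  constructor <;> linarith

end Pool.Agent.H569.SS
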