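import Pool.Agent.H569.SS12

/-!
# A counting lemma for systems of linear forms
-/

set_option autoImplicit false

open Finset Filter

namespace Pool.Agent.H569.SS

open Function (update)

/-- a kernel with small bilinear sums in two variables -/
theorem one_form {m : ℕ} (A : Fin m → Finset ℤ) (B : Fin m → ℝ) (hA : ∀ i, ((A i).card : ℝ) ≤ B i) {ι : Type}
    (D : Finset ι) (i j : Fin m) (hne : i ≠ j) (G : ι → (Fin m → ℤ) → ℝ) (hG : ∀ e x, |G e x| ≤ 1)
    (hind : ∀ e ∈ D, (∀ x s, G e (update x i s) = G e x) ∨ (∀ x t, G e (update x j t) = G e x))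
    (K : (Fin m → ℤ) → ℝ) (δ : ℝ) (hδ : 0 ≤ δ)
    (hK : ∀ x ∈ Fintype.piFinset A, ∀ u v : ℤ → ℝ, (∀ x, |u x| ≤ 1) → (∀ x, |v x| ≤ 1) →
      |∑ s ∈ A i, ∑ t ∈ A j, u s * v t * K (update (update x i s) j t)| ≤ δ * (B i * B j)) :
    |∑ x ∈ Fintype.piFinset A, K x * ∏ e ∈ D, G e x| ≤ δ * ∏ i, B i := by
  classical
  obtain ⟨Φ, hΦ⟩ : ∃ Φ : (Fin m → ℤ) → ℝ, ∀ x, Φ x = K x * ∏ e ∈ D, G e x := ⟨_, fun _ => rfl⟩
  have h1 : ∑ x ∈ Fintype.piFinset A, K x * ∏ e ∈ D, G e x = ∑ x ∈ Fintype.piFinset A, Φ x :=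
    sum_congr rfl fun x _ => by rw [hΦ]
  rw [h1]
  by_cases h0 : (Fintype.piFinset A).Nonempty
  swap
  · rw [not_nonempty_iff_eq_empty] at h0
    rw [h0, sum_empty, abs_zero]
    exact mul_nonneg hδ (prod_nonneg fun v _ => (Nat.cast_nonneg _).trans (hA v))
  have hAne : ∀ v, (A v).Nonempty := by
    intro v
    obtain ⟨x, hx⟩ := h0
    exact ⟨x v, Fintype.mem_piFinset.1 hx v⟩
  have hci : (0 : ℝ) < (A i).card := by exact_mod_cast card_pos.2 (hAne i)
  have hcj : (0 : ℝ) < (A j).card := by exact_mod_cast card_pos.2 (hAne j)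
  have h2 : ((A i).card : ℝ) * (A j).card * ∑ x ∈ Fintype.piFinset A, Φ x =
      ∑ x ∈ Fintype.piFinset A, ∑ s ∈ A i, ∑ t ∈ A j, Φ (update (update x i s) j t) := by
    rw [avg_one A i fun y => ∑ t ∈ A j, Φ (update y j t), avg_one A j Φ]
    ring
  -- for fixed other coordinates
  have h3 : ∀ x ∈ Fintype.piFinset A, |∑ s ∈ A i, ∑ t ∈ A j, Φ (update (update x i s) j t)| ≤ δ * (B i * B j) := by
    intro x hx
    obtain ⟨u, hu⟩ : ∃ u : ℤ → ℝ, ∀ s, u s = ∏ e ∈ D.filter (fun e => ¬ ∀ x s, G e (update x i s) = G e x),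
        G e (update x i s) := ⟨_, fun _ => rfl⟩
    obtain ⟨v, hv⟩ : ∃ v : ℤ → ℝ, ∀ t, v t = ∏ e ∈ D.filter (fun e => ∀ x s, G e (update x i s) = G e x),
        G e (update x j t) := ⟨_, fun _ => rfl⟩
    have hp : ∀ (S : Finset ι) (f : ι → ℝ), (∀ e, |f e| ≤ 1) → |∏ e ∈ S, f e| ≤ 1 := by
      intro S f hf
      rw [abs_prod]
      exact prod_le_one (fun _ _ => abs_nonneg _) fun e _ => hf e
    have h4 := hK x hx u v (fun s => by rw [hu]; exact hp _ _ fun e => hG _ _)
      (fun t => by rw [hv]; exact hp _ _ fun e => hG _ _)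
    refine le_trans (le_of_eq ?_) h4
    congr 1
    refine sum_congr rfl fun s _ => sum_congr rfl fun t _ => ?_
    rw [hΦ, hu, hv, ← prod_filter_mul_prod_filter_not D (fun e => ∀ x s, G e (update x i s) = G e x)]
    have h5 : ∏ e ∈ D.filter (fun e => ∀ x s, G e (update x i s) = G e x), G e (update (update x i s) j t) =
        ∏ e ∈ D.filter (fun e => ∀ x s, G e (update x i s) = G e x), G e (update x j t) := by
      refine prod_congr rfl fun e he => ?_
      rw [mem_filter] at he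
      rw [Function.update_comm hne, he.2]
    have h6 : ∏ e ∈ D.filter (fun e => ¬ ∀ x s, G e (update x i s) = G e x), G e (update (update x i s) j t) =
        ∏ e ∈ D.filter (fun e => ¬ ∀ x s, G e (update x i s) = G e x), G e (update x i s) := by
      refine prod_congr rfl fun e he => ?_
      rw [mem_filter] at he
      rcases hind e he.1 with h7 | h7
      · exact absurd h7 he.2
      · rw [h7]
    rw [h5, h6]
    ring
  have h4 : ((A i).card : ℝ) * (A j).card * |∑ x ∈ Fintype.piFinset A, Φ x| ≤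
      (Fintype.piFinset A).card * (δ * (B i * B j)) := by
    have h5 : ((A i).card : ℝ) * (A j).card * |∑ x ∈ Fintype.piFinset A, Φ x| =
        |((A i).card : ℝ) * (A j).card * ∑ x ∈ Fintype.piFinset A, Φ x| := by
      rw [abs_mul, abs_of_pos (mul_pos hci hcj)]
    rw [h5, h2]
    refine (abs_sum_le_sum_abs _ _).trans ((sum_le_sum h3).trans ?_)
    rw [sum_const, nsmul_eq_mul]
  have hB0 : ∀ v, 0 ≤ B v := fun v => (Nat.cast_nonneg _).trans (hA v)
  have h5 : ((Fintype.piFinset A).card : ℝ) * (B i * B j) ≤ (A i).card * (A j).card * ∏ v, B v := by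
    rw [Fintype.card_piFinset]
    push_cast
    have h6 : ∀ f : Fin m → ℝ, ∏ v, f v = f i * (f j * ∏ v ∈ (univ.erase i).erase j, f v) := by
      intro f
      rw [← mul_prod_erase univ _ (mem_univ i), ← mul_prod_erase (univ.erase i) _ (mem_erase.2 ⟨hne.symm, mem_univ j⟩)]
    have h7 : ∏ v ∈ (univ.erase i).erase j, ((A v).card : ℝ) ≤ ∏ v ∈ (univ.erase i).erase j, B v :=
      prod_le_prod (fun v _ => Nat.cast_nonneg _) fun v _ => hA v
    rw [h6 fun v => ((A v).card : ℝ), h6 B]
    have h8 := mul_le_mul_of_nonneg_left h7 (by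
      have := hB0 i
      have := hB0 j
      positivity : 0 ≤ ((A i).card : ℝ) * (A j).card * (B i * B j))
    linarith
  have h6 : ((A i).card : ℝ) * (A j).card * |∑ x ∈ Fintype.piFinset A, Φ x| ≤
      (A i).card * (A j).card * (δ * ∏ v, B v) := by
    refine h4.trans ?_
    calc ((Fintype.piFinset A).card : ℝ) * (δ * (B i * B j)) = δ * (((Fintype.piFinset A).card : ℝ) * (B i * B j)) := by
          ring
      _ ≤ δ * ((A i).card * (A j).card * ∏ v, B v) := mul_le_mul_of_nonneg_left h5 hδ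
      _ = _ := by ring
  exact le_of_mul_le_mul_left h6 (mul_pos hci hcj)

open Classical in
/-- **the counting lemma** -/
theorem counting_forms {m : ℕ} (A : Fin m → Finset ℤ) (B : Fin m → ℝ) (hA : ∀ i, ((A i).card : ℝ) ≤ B i) {ι : Type}
    (D : Finset ι) (i j : ι → Fin m) (hne : ∀ e ∈ D, i e ≠ j e) (G G' : ι → (Fin m → ℤ) → ℝ)
    (hG : ∀ e x, |G e x| ≤ 1) (hG' : ∀ e x, |G' e x| ≤ 1)
    (hind : ∀ e ∈ D, ∀ f ∈ D, f ≠ e →
      (∀ x s, G f (update x (i e) s) = G f x ∧ G' f (update x (i e) s) = G' f x) ∨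
      (∀ x s, G f (update x (j e) s) = G f x ∧ G' f (update x (j e) s) = G' f x)) (δ : ℝ) (hδ : 0 ≤ δ)
    (hK : ∀ e ∈ D, ∀ x ∈ Fintype.piFinset A, ∀ u v : ℤ → ℝ, (∀ x, |u x| ≤ 1) → (∀ x, |v x| ≤ 1) →
      |∑ s ∈ A (i e), ∑ t ∈ A (j e), u s * v t * (G e (update (update x (i e) s) (j e) t) -
        G' e (update (update x (i e) s) (j e) t))| ≤ δ * (B (i e) * B (j e))) :
    |∑ x ∈ Fintype.piFinset A, ∏ e ∈ D, G e x - ∑ x ∈ Fintype.piFinset A, ∏ e ∈ D, G' e x| ≤
      D.card * (δ * ∏ i, B i) := by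
  have key : ∀ S : Finset ι, S ⊆ D →
      |∑ x ∈ Fintype.piFinset A, ∏ e ∈ D, G e x -
        ∑ x ∈ Fintype.piFinset A, ∏ e ∈ D, (if e ∈ S then G' e x else G e x)| ≤ S.card * (δ * ∏ i, B i) := by
    intro S
    induction S using Finset.induction_on with
    | empty => intro _; simp
    | insert e₀ S he₀ ih =>
      intro hS
      have h1 := ih fun e he => hS (mem_insert_of_mem he)
      have he₀D : e₀ ∈ D := hS (mem_insert_self _ _)
      have h2 := one_form A B hA (D.erase e₀) (i e₀) (j e₀) (hne e₀ he₀D)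
        (fun e x => if e ∈ S then G' e x else G e x) (fun e x => by split_ifs; exacts [hG' e x, hG e x])
        (fun e he => by
          rw [mem_erase] at he
          rcases hind e₀ he₀D e he.2 he.1 with h3 | h3
          · left
            intro x s
            simp only [(h3 x s).1, (h3 x s).2]
          · right
            intro x s
            simp only [(h3 x s).1, (h3 x s).2])
        (fun x => G e₀ x - G' e₀ x) δ hδ (hK e₀ he₀D)
      have h3 : ∑ x ∈ Fintype.piFinset A, (G e₀ x - G' e₀ x) *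
          ∏ e ∈ D.erase e₀, (if e ∈ S then G' e x else G e x) =
          ∑ x ∈ Fintype.piFinset A, ∏ e ∈ D, (if e ∈ S then G' e x else G e x) -
          ∑ x ∈ Fintype.piFinset A, ∏ e ∈ D, (if e ∈ insert e₀ S then G' e x else G e x) := by
        rw [← sum_sub_distrib]
        refine sum_congr rfl fun x _ => ?_
        rw [← mul_prod_erase D _ he₀D, ← mul_prod_erase D (fun e => if e ∈ insert e₀ S then G' e x else G e x) he₀D,
          if_neg he₀, if_pos (mem_insert_self _ _), sub_mul]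
        congr 2
        refine prod_congr rfl fun e he => ?_
        rw [mem_erase] at he
        simp only [mem_insert, he.1, false_or]
      rw [h3] at h2
      rw [card_insert_of_notMem he₀]
      push_cast
      have h4 := abs_sub_le (∑ x ∈ Fintype.piFinset A, ∏ e ∈ D, G e x)
        (∑ x ∈ Fintype.piFinset A, ∏ e ∈ D, (if e ∈ S then G' e x else G e x))
        (∑ x ∈ Fintype.piFinset A, ∏ e ∈ D, (if e ∈ insert e₀ S then G' e x else G e x))
      linarith
  have h1 := key D subset_rfl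
  have h2 : ∑ x ∈ Fintype.piFinset A, ∏ e ∈ D, (if e ∈ D then G' e x else G e x) =
      ∑ x ∈ Fintype.piFinset A, ∏ e ∈ D, G' e x :=
    sum_congr rfl fun x _ => prod_congr rfl fun e he => if_pos he
  rw [h2] at h1
  exact h1

end Pool.Agent.H569.SS
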