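import Pool.Agent.H569.SS15
import Pool.Agent.H569.SS16

/-!
# Systems of linear forms with private pairs of variables, dense sets of integers or of primes
-/

set_option autoImplicit false

open Finset Filter

namespace Pool.Agent.H569.SS

open Function (update)
open Pool.Agent.Y958.U (LZ)
open Pool.Agent.X23.CS (lam e norm_e)

/-- a function whose density is, up to small exponential sums, between two numbers -/
def Lvl (E : Set ℕ) (g : ℕ → ℝ) (lo hi : ℝ) : Prop := ∀ ε : ℝ, 0 < ε → ∃ N₀ : ℕ, ∀ N : ℕ, N₀ ≤ N → N ∉ E →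
  ∃ w : ℕ → ℝ, (∀ n, lo ≤ w n ∧ w n ≤ hi) ∧
    ∀ θ : ℝ, ‖∑ n ∈ Icc 1 N, ((g n - w n : ℝ) : ℂ) * e (θ * n)‖ ≤ ε * N

/-- a linear form -/
def psi {m : ℕ} (c : Fin m → ℤ) (γ : ℤ) (x : Fin m → ℤ) : ℤ := ∑ v, c v * x v + γ

theorem psi_update_zero {m : ℕ} (c : Fin m → ℤ) (γ : ℤ) (x : Fin m → ℤ) (i : Fin m) (h : c i = 0) (s : ℤ) :
    psi c γ (update x i s) = psi c γ x := by
  unfold psi
  congr 1
  refine sum_congr rfl fun v _ => ?_
  by_cases hv : v = i
  · subst hv
    rw [h, zero_mul, zero_mul]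
  · rw [Function.update_of_ne hv]

theorem psi_update_two {m : ℕ} (c : Fin m → ℤ) (γ : ℤ) (x : Fin m → ℤ) (i j : Fin m) (hij : i ≠ j) (s t : ℤ) :
    psi c γ (update (update x i s) j t) = c i * s + c j * t + (psi c γ x - c i * x i - c j * x j) := by
  unfold psi
  have h1 : ∀ y : Fin m → ℤ, ∑ v, c v * y v = c i * y i + (c j * y j + ∑ v ∈ (univ.erase i).erase j, c v * y v) := by
    intro y
    rw [← add_sum_erase univ _ (mem_univ i), ← add_sum_erase (univ.erase i) _ (mem_erase.2 ⟨hij.symm, mem_univ j⟩)]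
  rw [h1 (update (update x i s) j t), h1 x, Function.update_self, Function.update_of_ne hij, Function.update_self]
  have h2 : ∑ v ∈ (univ.erase i).erase j, c v * update (update x i s) j t v =
      ∑ v ∈ (univ.erase i).erase j, c v * x v := by
    refine sum_congr rfl fun v hv => ?_
    rw [mem_erase, mem_erase] at hv
    rw [Function.update_of_ne hv.1, Function.update_of_ne hv.2.1]
  rw [h2]
  ring

/-- **systems of linear forms, general version** -/
theorem systems_abs (E : Set ℕ) (m s : ℕ) (t : Fin m → Bool) (g : Fin s → ℕ → ℝ) (lo hi : Fin s → ℝ)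
    (hg : ∀ i n, 0 ≤ g i n ∧ g i n ≤ 1) (hlh : ∀ i, 0 ≤ lo i ∧ hi i ≤ 1) (hL : ∀ i, Lvl E (g i) (lo i) (hi i))
    (ε : ℝ) (hε : 0 < ε) :
    ∃ N₀ : ℕ, ∀ N : ℕ, N₀ ≤ N → N ∉ E → ∀ (c : Fin s → Fin m → ℤ) (γ : Fin s → ℤ) (A : Fin m → Finset ℤ),
      (∀ i, Typ N (t i) (A i)) →
      (∀ f, ∃ i j, i ≠ j ∧ c f i ≠ 0 ∧ c f j ≠ 0 ∧ ∀ f', f' ≠ f → c f' i = 0 ∨ c f' j = 0) →
      (∀ f, ∀ x ∈ Fintype.piFinset A, 1 ≤ psi (c f) (γ f) x ∧ psi (c f) (γ f) x ≤ N) →
      (∏ f, lo f) * ∏ i, ((A i).card : ℝ) - ε * ∏ i, dd N (t i) ≤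
        ∑ x ∈ Fintype.piFinset A, ∏ f, g f (psi (c f) (γ f) x).toNat ∧
      ∑ x ∈ Fintype.piFinset A, ∏ f, g f (psi (c f) (γ f) x).toNat ≤
        (∏ f, hi f) * ∏ i, ((A i).card : ℝ) + ε * ∏ i, dd N (t i) := by
  classical
  obtain ⟨C, hC, N₁, hN₁, hcard⟩ := card_dd
  have hC0 : 0 < C := by linarith
  obtain ⟨κ, hκ⟩ : ∃ κ : ℝ, κ = ε / ((s + 1) * C ^ m) := ⟨_, rfl⟩
  have hκ0 : 0 < κ := by rw [hκ]; positivity
  obtain ⟨ε₁, hε₁, N₂, hbil⟩ := bil_mixed κ hκ0
  choose n₀ hn₀ using fun f => hL f ε₁ hε₁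
  refine ⟨max (max N₁ N₂) (∑ f, n₀ f), fun N hN hNE c γ A hA hpp hr => ?_⟩
  have hN1 : N₁ ≤ N := le_trans (le_trans (le_max_left _ _) (le_max_left _ _)) hN
  have hN2 : N₂ ≤ N := le_trans (le_trans (le_max_right _ _) (le_max_left _ _)) hN
  have hN3 : ∑ f, n₀ f ≤ N := le_trans (le_max_right _ _) hN
  choose w hw1 hw2 using fun f => hn₀ f N ((single_le_sum (f := n₀) (fun _ _ => Nat.zero_le _) (mem_univ f)).trans hN3) hNE
  choose i j hij hci hcj hpriv using hpp
  have hdiff : ∀ f n, |g f n - w f n| ≤ 1 := by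
    intro f n
    have h1 := hg f n
    have h2 := hw1 f n
    have h3 := hlh f
    rw [abs_le]
    constructor <;> linarith [h1.1, h1.2, h2.1, h2.2, h3.1, h3.2]
  -- the difference of the kernels
  have hker : ∀ f ∈ (univ : Finset (Fin s)), ∀ x ∈ Fintype.piFinset A, ∀ u v : ℤ → ℝ, (∀ x, |u x| ≤ 1) →
      (∀ x, |v x| ≤ 1) → |∑ y ∈ A (i f), ∑ z ∈ A (j f), u y * v z *
        (g f (psi (c f) (γ f) (update (update x (i f) y) (j f) z)).toNat -
          w f (psi (c f) (γ f) (update (update x (i f) y) (j f) z)).toNat)| ≤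
        κ * (C * dd N (t (i f)) * (C * dd N (t (j f)))) := by
    intro f _ x hx u v hu hv
    obtain ⟨H, hH⟩ : ∃ H : ℕ → ℂ, ∀ n, H n = ((g f n - w f n : ℝ) : ℂ) := ⟨_, fun _ => rfl⟩
    have hH2 : ∀ n, ‖H n‖ ≤ 2 := by
      intro n
      rw [hH, Complex.norm_real, Real.norm_eq_abs]
      have := hdiff f n
      linarith
    have hHs : ∀ θ : ℝ, ‖∑ n ∈ Icc 1 N, H n * e (θ * n)‖ ≤ ε₁ * N := by
      intro θ
      simp only [hH]
      exact hw2 f θ
    have hupd : ∀ y z : ℤ, psi (c f) (γ f) (update (update x (i f) y) (j f) z) =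
        c f (i f) * y + c f (j f) * z + (psi (c f) (γ f) x - c f (i f) * x (i f) - c f (j f) * x (j f)) :=
      fun y z => psi_update_two (c f) (γ f) x (i f) (j f) (hij f) y z
    have hrng : ∀ y ∈ A (i f), ∀ z ∈ A (j f),
        1 ≤ c f (i f) * y + c f (j f) * z + (psi (c f) (γ f) x - c f (i f) * x (i f) - c f (j f) * x (j f)) ∧
        c f (i f) * y + c f (j f) * z + (psi (c f) (γ f) x - c f (i f) * x (i f) - c f (j f) * x (j f)) ≤ N := by
      intro y hy z hz
      rw [← hupd]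
      refine hr f _ ?_
      rw [Fintype.mem_piFinset] at hx ⊢
      intro v'
      by_cases h1 : v' = j f
      · subst h1
        rw [Function.update_self]
        exact hz
      · rw [Function.update_of_ne h1]
        by_cases h2 : v' = i f
        · subst h2
          rw [Function.update_self]
          exact hy
        · rw [Function.update_of_ne h2]
          exact hx v'
    have h1 := hbil N hN2 H hH2 hHs (t (i f)) (t (j f)) (A (i f)) (A (j f)) (hA _) (hA _) (fun x => (u x : ℂ))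
      (fun x => (v x : ℂ)) (fun x => by rw [Complex.norm_real]; exact hu x)
      (fun x => by rw [Complex.norm_real]; exact hv x) (c f (i f)) (c f (j f))
      (psi (c f) (γ f) x - c f (i f) * x (i f) - c f (j f) * x (j f)) (hci f) (hcj f) hrng
    have h3 : ∑ y ∈ A (i f), ∑ z ∈ A (j f), (u y : ℂ) * (v z : ℂ) * Gz N H (c f (i f) * y + c f (j f) * z +
        (psi (c f) (γ f) x - c f (i f) * x (i f) - c f (j f) * x (j f))) =
        ((∑ y ∈ A (i f), ∑ z ∈ A (j f), u y * v z *
        (g f (psi (c f) (γ f) (update (update x (i f) y) (j f) z)).toNat -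
          w f (psi (c f) (γ f) (update (update x (i f) y) (j f) z)).toNat) : ℝ) : ℂ) := by
      rw [Complex.ofReal_sum]
      refine sum_congr rfl fun y hy => ?_
      rw [Complex.ofReal_sum]
      refine sum_congr rfl fun z hz => ?_
      have h4 := hrng y hy z hz
      unfold Gz
      rw [if_pos h4, hH, hupd]
      push_cast
      ring
    rw [h3, Complex.norm_real, Real.norm_eq_abs] at h1
    refine h1.trans ?_
    refine mul_le_mul_of_nonneg_left ?_ hκ0.le
    have h6 := (hcard N hN1 (t (i f))).1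
    have h7 := (hcard N hN1 (t (j f))).1
    have h8 : 0 < dd N (t (i f)) * dd N (t (j f)) := mul_pos h6 h7
    have h9 : 1 ≤ C * C := by nlinarith
    calc dd N (t (i f)) * dd N (t (j f)) = 1 * (dd N (t (i f)) * dd N (t (j f))) := (one_mul _).symm
      _ ≤ C * C * (dd N (t (i f)) * dd N (t (j f))) := mul_le_mul_of_nonneg_right h9 h8.le
      _ = _ := by ring
  have hcount := counting_forms A (fun v => C * dd N (t v)) (fun v => (hcard N hN1 (t v)).2 (A v) (hA v))
    (univ : Finset (Fin s)) i j (fun f _ => hij f) (fun f x => g f (psi (c f) (γ f) x).toNat)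
    (fun f x => w f (psi (c f) (γ f) x).toNat)
    (fun f x => by
      have h1 := hg f (psi (c f) (γ f) x).toNat
      rw [abs_le]
      constructor <;> linarith [h1.1, h1.2])
    (fun f x => by
      have h1 := hw1 f (psi (c f) (γ f) x).toNat
      have h2 := hlh f
      rw [abs_le]
      constructor <;> linarith [h1.1, h1.2, h2.1, h2.2])
    (fun f _ f' _ hff => by
      rcases hpriv f f' hff with h | h
      · left
        intro x z
        simp only [psi_update_zero _ _ _ _ h, and_self]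
      · right
        intro x z
        simp only [psi_update_zero _ _ _ _ h, and_self]) κ hκ0.le hker
  have hlow : (∏ f, lo f) * ∏ i, ((A i).card : ℝ) ≤
      ∑ x ∈ Fintype.piFinset A, ∏ f, w f (psi (c f) (γ f) x).toNat := by
    have h2 := card_nsmul_le_sum (Fintype.piFinset A) (fun x => ∏ f, w f (psi (c f) (γ f) x).toNat) (∏ f, lo f)
      fun x _ => prod_le_prod (fun f _ => (hlh f).1) fun f _ => (hw1 f _).1
    rw [nsmul_eq_mul, Fintype.card_piFinset] at h2
    push_cast at h2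
    linarith
  have hupp : ∑ x ∈ Fintype.piFinset A, ∏ f, w f (psi (c f) (γ f) x).toNat ≤
      (∏ f, hi f) * ∏ i, ((A i).card : ℝ) := by
    have h2 := sum_le_card_nsmul (Fintype.piFinset A) (fun x => ∏ f, w f (psi (c f) (γ f) x).toNat) (∏ f, hi f)
      fun x _ => prod_le_prod (fun f _ => (hlh f).1.trans (hw1 f _).1) fun f _ => (hw1 f _).2
    rw [nsmul_eq_mul, Fintype.card_piFinset] at h2
    push_cast at h2
    linarith
  have hprod' : ∏ i, (C * dd N (t i)) = C ^ m * ∏ i, dd N (t i) := by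
    rw [prod_mul_distrib, prod_const, card_univ, Fintype.card_fin]
  have herr : ((univ : Finset (Fin s)).card : ℝ) * (κ * ∏ i, (C * dd N (t i))) ≤ ε * ∏ i, dd N (t i) := by
    have hdd0 : 0 ≤ ∏ i, dd N (t i) := prod_nonneg fun i _ => (hcard N hN1 (t i)).1.le
    rw [hprod', card_univ, Fintype.card_fin]
    have h1 : (s : ℝ) * κ * C ^ m ≤ ε := by
      rw [hκ]
      have h2 : (0 : ℝ) ≤ s := Nat.cast_nonneg _
      have h3 : 0 < C ^ m := by positivity
      calc (s : ℝ) * (ε / ((s + 1) * C ^ m)) * C ^ m = ε * (s / (s + 1)) := by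
            field_simp
        _ ≤ ε * 1 := by
            refine mul_le_mul_of_nonneg_left ?_ (by positivity)
            rw [div_le_one (by positivity)]
            linarith
        _ = _ := mul_one _
    calc _ = (s : ℝ) * κ * C ^ m * ∏ i, dd N (t i) := by ring
      _ ≤ _ := mul_le_mul_of_nonneg_right h1 hdd0
  have h1 := (abs_le.1 (hcount.trans herr)).1
  have h2 := (abs_le.1 (hcount.trans herr)).2
  constructor <;> linarith

end Pool.Agent.H569.SS
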