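import Pool.Agent.H569.SS17

/-!
# The functions of the main theorem: products and full patterns
-/

set_option autoImplicit false

open Finset Filter

namespace Pool.Agent.H569.SS

open Pool.Agent.Y958.U (LZ)
open Pool.Agent.X23.CS (lam e norm_e)

/-- the structure with the exact bound -/
theorem clip {k : ℕ} (hk : 1 ≤ k) {a b : Fin k → ℕ} {ε : ℝ} {N : ℕ} (h : StG a b ε N) :
    ∃ w : ℕ → ℝ, (∀ n, |w n| ≤ rh k) ∧
      ∀ θ : ℝ, ‖∑ n ∈ Icc 1 N, ((FF a b n - w n : ℝ) : ℂ) * e (θ * n)‖ ≤ 2 * ε * N := by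
  obtain ⟨w, h1, h2⟩ := h
  have hr := (rh_le hk).1
  obtain ⟨w', hw'⟩ : ∃ w' : ℕ → ℝ, ∀ n, w' n = max (-rh k) (min (rh k) (w n)) := ⟨_, fun _ => rfl⟩
  have h3 : ∀ n ∈ Icc 1 N, |w n - w' n| ≤ ε := by
    intro n hn
    have h4 := abs_le.1 (h1 n hn)
    have h0 : 0 ≤ ε := by
      have h5 : 0 ≤ rh k + ε := (abs_nonneg _).trans (h1 n hn)
      by_contra hc
      push Not at hc
      have h6 := h2 0
      have h7 : (0 : ℝ) < N := by
        rw [mem_Icc] at hn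
        exact_mod_cast (by omega : 0 < N)
      have h8 : ε * N < 0 := mul_neg_of_neg_of_pos hc h7
      exact absurd ((norm_nonneg _).trans h6) (by linarith)
    rw [hw', abs_le]
    rcases le_total (rh k) (w n) with h5 | h5
    · rw [min_eq_left h5, max_eq_right (by linarith)]
      constructor <;> linarith [h4.2]
    · rw [min_eq_right h5]
      rcases le_total (-rh k) (w n) with h6 | h6
      · rw [max_eq_right h6, sub_self]
        constructor <;> linarith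
      · rw [max_eq_left h6]
        constructor <;> linarith [h4.1]
  refine ⟨w', fun n => ?_, fun θ => ?_⟩
  · rw [hw', abs_le]
    constructor
    · exact le_max_left _ _
    · exact max_le (by linarith) (min_le_left _ _)
  · have h4 : ∑ n ∈ Icc 1 N, ((FF a b n - w' n : ℝ) : ℂ) * e (θ * n) =
        ∑ n ∈ Icc 1 N, ((FF a b n - w n : ℝ) : ℂ) * e (θ * n) +
        ∑ n ∈ Icc 1 N, ((w n - w' n : ℝ) : ℂ) * e (θ * n) := by
      rw [← sum_add_distrib]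
      refine sum_congr rfl fun n _ => ?_
      push_cast
      ring
    have h5 : ‖∑ n ∈ Icc 1 N, ((w n - w' n : ℝ) : ℂ) * e (θ * n)‖ ≤ ε * N := by
      refine (norm_sum_le _ _).trans ((sum_le_sum (g := fun _ => ε) fun n hn => ?_).trans ?_)
      · rw [norm_mul, norm_e, mul_one, Complex.norm_real, Real.norm_eq_abs]
        exact h3 n hn
      · rw [sum_const, nsmul_eq_mul, Nat.card_Icc, Nat.add_sub_cancel, mul_comm]
    rw [h4]
    have h6 := norm_add_le (∑ n ∈ Icc 1 N, ((FF a b n - w n : ℝ) : ℂ) * e (θ * n))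
      (∑ n ∈ Icc 1 N, ((w n - w' n : ℝ) : ℂ) * e (θ * n))
    have h7 := h2 θ
    linarith

/-- the events of the sign of the product -/
theorem lvl_prod (E : Set ℕ) {k : ℕ} (hk : 1 ≤ k) (a b : Fin k → ℕ)
    (hE : ∀ ε : ℝ, 0 < ε → ∃ N₀ : ℕ, ∀ N : ℕ, N₀ ≤ N → N ∉ E → StG a b ε N) (σ : ℝ) (hσ : |σ| = 1) :
    Lvl E (fun n => (1 + σ * FF a b n) / 2) ((1 - rh k) / 2) ((1 + rh k) / 2) := by
  intro ε hε
  obtain ⟨N₀, h⟩ := hE ε hε
  refine ⟨N₀, fun N hN hNE => ?_⟩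
  obtain ⟨w, h1, h2⟩ := clip hk (h N hN hNE)
  refine ⟨fun n => (1 + σ * w n) / 2, fun n => ?_, fun θ => ?_⟩
  · have h3 : |σ * w n| ≤ rh k := by rw [abs_mul, hσ, one_mul]; exact h1 n
    rw [abs_le] at h3
    constructor <;> linarith [h3.1, h3.2]
  · have h4 : ∑ n ∈ Icc 1 N, (((1 + σ * FF a b n) / 2 - (1 + σ * w n) / 2 : ℝ) : ℂ) * e (θ * n) =
        (σ / 2 : ℝ) * ∑ n ∈ Icc 1 N, ((FF a b n - w n : ℝ) : ℂ) * e (θ * n) := by
      rw [mul_sum]
      refine sum_congr rfl fun n _ => ?_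
      push_cast
      ring
    rw [h4, norm_mul, Complex.norm_real, Real.norm_eq_abs, abs_div, hσ, abs_of_pos (by norm_num : (0 : ℝ) < 2)]
    have h5 := h2 θ
    linarith

/-- a product over a subset of the factors -/
theorem sub_prod (E : Set ℕ) (hE : ∀ (k : ℕ) (a b : Fin k → ℕ), 1 ≤ k → (∀ j, 1 ≤ a j) →
    (∀ i j, i ≠ j → a i * b j ≠ a j * b i) → ∀ ε : ℝ, 0 < ε → ∃ N₀ : ℕ, ∀ N : ℕ, N₀ ≤ N → N ∉ E → StG a b ε N)
    {k : ℕ} (a b : Fin k → ℕ) (ha : ∀ j, 1 ≤ a j) (hab : ∀ i j, i ≠ j → a i * b j ≠ a j * b i)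
    (S : Finset (Fin k)) (hS : Odd S.card ∨ S.card = 2) (ε : ℝ) (hε : 0 < ε) :
    ∃ N₀ : ℕ, ∀ N : ℕ, N₀ ≤ N → N ∉ E → ∀ θ : ℝ,
      ‖∑ n ∈ Icc 1 N, ((∏ j ∈ S, (lam (a j * n + b j) : ℝ) : ℝ) : ℂ) * e (θ * n)‖ ≤ ε * N := by
  obtain ⟨φ, hφ⟩ : ∃ φ : Fin S.card ≃ S, φ = S.equivFin.symm := ⟨_, rfl⟩
  have hc1 : 1 ≤ S.card := by
    rcases hS with h | h
    · exact h.pos
    · omega
  obtain ⟨N₀, h⟩ := hE S.card (fun i => a (φ i)) (fun i => b (φ i)) hc1 (fun j => ha _)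
    (fun i j hij => hab _ _ fun h1 => hij (φ.injective (Subtype.ext h1))) (ε / 2) (by linarith)
  refine ⟨N₀, fun N hN hNE θ => ?_⟩
  obtain ⟨w, h1, h2⟩ := clip hc1 (h N hN hNE)
  have hr : rh S.card = 0 := by
    unfold rh
    rw [if_pos hS]
  have h3 : ∀ n, w n = 0 := by
    intro n
    have h4 := h1 n
    rw [hr] at h4
    exact abs_nonpos_iff.1 h4
  have h4 : ∑ n ∈ Icc 1 N, ((∏ j ∈ S, (lam (a j * n + b j) : ℝ) : ℝ) : ℂ) * e (θ * n) =
      ∑ n ∈ Icc 1 N, ((FF (fun i => a (φ i)) (fun i => b (φ i)) n - w n : ℝ) : ℂ) * e (θ * n) := by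
    refine sum_congr rfl fun n _ => ?_
    rw [h3, sub_zero]
    congr 2
    unfold FF
    rw [← prod_coe_sort S fun j => (lam (a j * n + b j) : ℝ)]
    exact (Equiv.prod_comp φ fun j : S => (lam (a j * n + b j) : ℝ)).symm
  rw [h4]
  have h5 := h2 θ
  linarith

/-- the events of the full pattern, at most four factors -/
theorem lvl_full (E : Set ℕ) (hE : ∀ (k : ℕ) (a b : Fin k → ℕ), 1 ≤ k → (∀ j, 1 ≤ a j) →
    (∀ i j, i ≠ j → a i * b j ≠ a j * b i) → ∀ ε : ℝ, 0 < ε → ∃ N₀ : ℕ, ∀ N : ℕ, N₀ ≤ N → N ∉ E → StG a b ε N)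
    {k : ℕ} (hk : 1 ≤ k) (hk4 : k ≤ 4) (a b : Fin k → ℕ) (ha : ∀ j, 1 ≤ a j)
    (hab : ∀ i j, i ≠ j → a i * b j ≠ a j * b i) (σ : Fin k → ℝ) (hσ : ∀ j, |σ j| = 1) :
    Lvl E (fun n => ∏ j, (1 + σ j * lam (a j * n + b j)) / 2) ((1 - rh k) / 2 ^ k) ((1 + rh k) / 2 ^ k) := by
  classical
  intro ε hε
  obtain ⟨N₁, h1⟩ := hE k a b hk ha hab (ε / 4) (by linarith)
  obtain ⟨T, hT⟩ : ∃ T : Finset (Finset (Fin k)), T = ((univ : Finset (Fin k)).powerset.erase univ).erase ∅ := ⟨_, rfl⟩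
  have hTS : ∀ S ∈ T, Odd S.card ∨ S.card = 2 := by
    intro S hS
    rw [hT, mem_erase, mem_erase] at hS
    have h2 : S.card ≠ 0 := fun h => hS.1 (card_eq_zero.1 h)
    have h3 : S.card < k := by
      have h4 := card_lt_card (ssubset_univ_iff.2 hS.2.1)
      rwa [card_univ, Fintype.card_fin] at h4
    have h5 : S.card = 1 ∨ S.card = 2 ∨ S.card = 3 := by omega
    rcases h5 with h | h | h <;> rw [h]
    · exact Or.inl odd_one
    · exact Or.inr rfl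
    · exact Or.inl (by decide)
  have hex : ∀ S : Finset (Fin k), ∃ N₀ : ℕ, S ∈ T → ∀ N : ℕ, N₀ ≤ N → N ∉ E → ∀ θ : ℝ,
      ‖∑ n ∈ Icc 1 N, ((∏ j ∈ S, (lam (a j * n + b j) : ℝ) : ℝ) : ℂ) * e (θ * n)‖ ≤ ε / 2 * N := by
    intro S
    by_cases hS : S ∈ T
    · obtain ⟨N₀, h⟩ := sub_prod E hE a b ha hab S (hTS S hS) (ε / 2) (by linarith)
      exact ⟨N₀, fun _ => h⟩
    · exact ⟨0, fun h => absurd h hS⟩
  choose n₀ hn₀ using hex
  refine ⟨max N₁ (∑ S ∈ T, n₀ S), fun N hN hNE => ?_⟩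
  have hN1 : N₁ ≤ N := le_trans (le_max_left _ _) hN
  have hN2 : ∑ S ∈ T, n₀ S ≤ N := le_trans (le_max_right _ _) hN
  obtain ⟨w, h2, h3⟩ := clip hk (h1 N hN1 hNE)
  have hσp : |∏ j, σ j| = 1 := by
    rw [abs_prod]
    exact prod_eq_one fun j _ => hσ j
  have hpk : (0 : ℝ) < 2 ^ k := by positivity
  refine ⟨fun n => (1 + (∏ j, σ j) * w n) / 2 ^ k, fun n => ?_, fun θ => ?_⟩
  · have h4 : |(∏ j, σ j) * w n| ≤ rh k := by rw [abs_mul, hσp, one_mul]; exact h2 n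
    rw [abs_le] at h4
    constructor
    · exact div_le_div_of_nonneg_right (by linarith [h4.1]) hpk.le
    · exact div_le_div_of_nonneg_right (by linarith [h4.2]) hpk.le
  · -- the expansion
    have hexp : ∀ n : ℕ, ∏ j, (1 + σ j * (lam (a j * n + b j) : ℝ)) / 2 =
        (1 + (∏ j, σ j) * FF a b n + ∑ S ∈ T, (∏ j ∈ S, σ j) * ∏ j ∈ S, (lam (a j * n + b j) : ℝ)) / 2 ^ k := by
      intro n
      rw [prod_div_distrib, prod_const, card_univ, Fintype.card_fin]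
      congr 1
      rw [prod_one_add]
      have hne : (∅ : Finset (Fin k)) ≠ univ := by
        intro h4
        have h5 := congrArg Finset.card h4
        rw [card_empty, card_univ, Fintype.card_fin] at h5
        omega
      rw [← add_sum_erase _ _ (mem_powerset.2 (subset_refl (univ : Finset (Fin k)))),
        ← add_sum_erase _ _ (mem_erase.2 ⟨hne, empty_mem_powerset _⟩), ← hT]
      rw [prod_empty]
      have h4 : ∏ j, σ j * (lam (a j * n + b j) : ℝ) = (∏ j, σ j) * FF a b n := by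
        unfold FF
        rw [prod_mul_distrib]
      rw [h4]
      have h5 : ∑ S ∈ T, ∏ j ∈ S, σ j * (lam (a j * n + b j) : ℝ) =
          ∑ S ∈ T, (∏ j ∈ S, σ j) * ∏ j ∈ S, (lam (a j * n + b j) : ℝ) :=
        sum_congr rfl fun S _ => prod_mul_distrib
      rw [h5]
      ring
    have h4 : ∑ n ∈ Icc 1 N, ((∏ j, (1 + σ j * (lam (a j * n + b j) : ℝ)) / 2 -
        (1 + (∏ j, σ j) * w n) / 2 ^ k : ℝ) : ℂ) * e (θ * n) =
        (((∏ j, σ j) / 2 ^ k : ℝ) : ℂ) * ∑ n ∈ Icc 1 N, ((FF a b n - w n : ℝ) : ℂ) * e (θ * n) +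
        ∑ S ∈ T, (((∏ j ∈ S, σ j) / 2 ^ k : ℝ) : ℂ) *
          ∑ n ∈ Icc 1 N, ((∏ j ∈ S, (lam (a j * n + b j) : ℝ) : ℝ) : ℂ) * e (θ * n) := by
      simp only [mul_sum]
      rw [sum_comm, ← sum_add_distrib]
      refine sum_congr rfl fun n _ => ?_
      rw [hexp n]
      have h5 : ∑ S ∈ T, (((∏ j ∈ S, σ j) / 2 ^ k : ℝ) : ℂ) *
          (((∏ j ∈ S, (lam (a j * n + b j) : ℝ) : ℝ) : ℂ) * e (θ * n)) =
          (((∑ S ∈ T, (∏ j ∈ S, σ j) * ∏ j ∈ S, (lam (a j * n + b j) : ℝ)) / 2 ^ k : ℝ) : ℂ) * e (θ * n) := by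
        rw [Finset.sum_div, Complex.ofReal_sum, sum_mul]
        refine sum_congr rfl fun S _ => ?_
        push_cast
        ring
      rw [h5]
      push_cast
      ring
    rw [h4]
    have h5 : ‖(((∏ j, σ j) / 2 ^ k : ℝ) : ℂ) * ∑ n ∈ Icc 1 N, ((FF a b n - w n : ℝ) : ℂ) * e (θ * n)‖ ≤
        1 / 2 ^ k * (ε / 2 * N) := by
      rw [norm_mul, Complex.norm_real, Real.norm_eq_abs, abs_div, hσp, abs_of_pos hpk]
      refine mul_le_mul_of_nonneg_left ?_ (by positivity)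
      have := h3 θ
      linarith
    have h6 : ‖∑ S ∈ T, (((∏ j ∈ S, σ j) / 2 ^ k : ℝ) : ℂ) *
          ∑ n ∈ Icc 1 N, ((∏ j ∈ S, (lam (a j * n + b j) : ℝ) : ℝ) : ℂ) * e (θ * n)‖ ≤
        T.card * (1 / 2 ^ k * (ε / 2 * N)) := by
      refine (norm_sum_le _ _).trans ((sum_le_sum (g := fun _ => 1 / 2 ^ k * (ε / 2 * N)) fun S hS => ?_).trans ?_)
      · rw [norm_mul, Complex.norm_real, Real.norm_eq_abs, abs_div, abs_prod, prod_congr rfl fun j _ => hσ j,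
          prod_const_one, abs_of_pos hpk]
        refine mul_le_mul_of_nonneg_left ?_ (by positivity)
        exact hn₀ S hS N ((single_le_sum (f := n₀) (fun _ _ => Nat.zero_le _) hS).trans hN2) hNE θ
      · rw [sum_const, nsmul_eq_mul]
    have h7 : (T.card : ℝ) ≤ 2 ^ k - 1 := by
      have h8 : T.card + 1 ≤ 2 ^ k := by
        have h9 : T.card ≤ ((univ : Finset (Fin k)).powerset.erase univ).card := by
          rw [hT]
          exact card_le_card (erase_subset _ _)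
        rw [card_erase_of_mem (mem_powerset.2 (subset_refl _)), card_powerset, card_univ, Fintype.card_fin] at h9
        have h10 : 1 ≤ 2 ^ k := Nat.one_le_two_pow
        omega
      have h9 : ((T.card + 1 : ℕ) : ℝ) ≤ ((2 ^ k : ℕ) : ℝ) := by exact_mod_cast h8
      push_cast at h9
      linarith
    have h8 : 0 ≤ 1 / (2 : ℝ) ^ k * (ε / 2 * N) := by positivity
    have h9 : (T.card : ℝ) * (1 / 2 ^ k * (ε / 2 * N)) ≤ (2 ^ k - 1) * (1 / 2 ^ k * (ε / 2 * N)) :=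
      mul_le_mul_of_nonneg_right h7 h8
    have h10 : (1 : ℝ) / 2 ^ k * (ε / 2 * N) + (2 ^ k - 1) * (1 / 2 ^ k * (ε / 2 * N)) = ε / 2 * N := by
      field_simp
      ring
    have h11 : (0 : ℝ) ≤ ε / 2 * N := by positivity
    refine (norm_add_le _ _).trans ?_
    linarith

end Pool.Agent.H569.SS
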