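import Pool.Graph.R_seed8.Y958.U.Fin
import Pool.Agent.H569.GP3

/-!
# Chowla products at sumsets: the choice of the scale and of a progression of good primes

Let `E` be a set of scales which does not have logarithmic density zero, and `E'` one that has. For suitable large `M`,
not in `E'`, and every system of deviations of the primes, small on average, there are a prime `p₀` with `M / p₀ ∈ E`
and a long arithmetic progression of primes near `p₀` with small deviations.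
-/

set_option autoImplicit false

open Finset Filter

namespace Pool.Agent.H569.SS

open Pool.Agent.TH977.PW (N)
open Pool.Agent.TH575.CW (QD theta_QD)
open Pool.Agent.Y958.U (S_AVC S_PW LZ QQ s_avc window)

theorem QQ_eq (i : ℕ) : QQ i = QD i (i + 1) := rfl

theorem mem_QQ {i p : ℕ} : p ∈ QQ i ↔ (2 ^ i < p ∧ p ≤ 2 ^ (i + 1)) ∧ p.Prime := by
  unfold QQ
  rw [mem_filter, mem_Ioc]

/-- the primes in `(2 ^ i₀, 2 ^ i₁]` -/
noncomputable def PP (i₀ i₁ : ℕ) : Finset ℕ := (Ico i₀ i₁).biUnion QQ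

theorem PP_sum (i₀ i₁ : ℕ) (f : ℕ → ℝ) : ∑ p ∈ PP i₀ i₁, f p = ∑ i ∈ Ico i₀ i₁, ∑ p ∈ QQ i, f p := by
  unfold PP
  refine sum_biUnion ?_
  intro i _ j _ hij
  rw [Function.onFun, disjoint_left]
  intro p hp hq
  rw [mem_QQ] at hp hq
  rcases lt_or_gt_of_ne hij with h | h
  · have : 2 ^ (i + 1) ≤ 2 ^ j := Nat.pow_le_pow_right (by norm_num) (by omega)
    omega
  · have : 2 ^ (j + 1) ≤ 2 ^ i := Nat.pow_le_pow_right (by norm_num) (by omega)
    omega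

theorem PP_prime {i₀ i₁ p : ℕ} (hp : p ∈ PP i₀ i₁) : p.Prime := by
  unfold PP at hp
  rw [mem_biUnion] at hp
  obtain ⟨i, -, h⟩ := hp
  exact (mem_QQ.1 h).2

theorem inv_QQ (i : ℕ) (hi : 1 ≤ i) : ∑ p ∈ QQ i, 1 / (p : ℝ) ≤ 5 * (1 / (i : ℝ)) := by
  have hl2 : 0.6931471803 < Real.log 2 := Real.log_two_gt_d9
  have hi0 : (0 : ℝ) < i := by exact_mod_cast hi
  have h2 : (0 : ℝ) < 2 ^ i := by positivity
  have h1 : ∀ p ∈ QQ i, 1 / (p : ℝ) ≤ Real.log p / (2 ^ i * (i * Real.log 2)) := by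
    intro p hp
    obtain ⟨⟨h3, -⟩, -⟩ := mem_QQ.1 hp
    have h3r : (2 : ℝ) ^ i < p := by exact_mod_cast h3
    have h4 : (i : ℝ) * Real.log 2 ≤ Real.log p := by
      rw [← Real.log_pow]
      exact Real.log_le_log h2 h3r.le
    rw [div_le_div_iff₀ (by linarith) (by positivity), one_mul]
    have h5 : (2 : ℝ) ^ i * (i * Real.log 2) ≤ p * Real.log p :=
      mul_le_mul h3r.le h4 (by positivity) (by linarith)
    linarith
  calc ∑ p ∈ QQ i, 1 / (p : ℝ) ≤ ∑ p ∈ QQ i, Real.log p / (2 ^ i * (i * Real.log 2)) := sum_le_sum h1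
    _ = (∑ p ∈ QD i (i + 1), Real.log p) / (2 ^ i * (i * Real.log 2)) := by rw [sum_div, QQ_eq]
    _ ≤ 3 * 2 ^ i / (2 ^ i * (i * Real.log 2)) := div_le_div_of_nonneg_right (theta_QD i) (by positivity)
    _ = 3 / Real.log 2 * (1 / i) := by field_simp
    _ ≤ 5 * (1 / i) := by
      refine mul_le_mul_of_nonneg_right ?_ (by positivity)
      rw [div_le_iff₀ (by linarith)]
      linarith

theorem select (E E' : Set ℕ) (hE : ¬ LZ E) (hE' : LZ E') (l : ℕ) (κ κ₂ : ℝ) (hκ : 0 < κ) (hκ1 : κ ≤ 1 / 4)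
    (hκ₂ : 0 < κ₂) : ∃ ε₂ : ℝ, 0 < ε₂ ∧ ∀ C : ℝ, 0 ≤ C → ∃ i₀ i₁ : ℕ, ∀ M₀ : ℕ, ∃ M : ℕ, M₀ ≤ M ∧ M ∉ E' ∧
      ∀ dv : ℕ → ℝ, (∀ p, 0 ≤ dv p) →
        ∑ p ∈ PP i₀ i₁, 1 / (p : ℝ) * dv p ≤ C + ε₂ * ∑ p ∈ PP i₀ i₁, 1 / (p : ℝ) →
        ∃ p₀ u d : ℕ, M / p₀ ∈ E ∧ 1 ≤ d ∧ p₀ ∈ PP i₀ i₁ ∧ ∀ j < l, u + j * d ∈ PP i₀ i₁ ∧
          dv (u + j * d) ≤ κ₂ ∧ (p₀ ≤ u + j * d → 1 - (p₀ : ℝ) / ((u + j * d : ℕ) : ℝ) ≤ κ) ∧
          (u + j * d ≤ p₀ → 1 - ((u + j * d : ℕ) : ℝ) / (p₀ : ℝ) ≤ κ) := by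
  classical
  obtain ⟨ε₁, hε₁, I₀, hI₀⟩ := s_avc E E' hE hE'
  obtain ⟨K₁, hK₁⟩ : ∃ K₁ : ℝ, K₁ = 48 / (κ * κ₂) := ⟨_, rfl⟩
  have hK₁0 : 0 < K₁ := by rw [hK₁]; positivity
  refine ⟨ε₁ / (100 * K₁), by positivity, fun C hC => ?_⟩
  obtain ⟨P₀, hP₀⟩ := Pool.Agent.Y304.U.pw 1 le_rfl κ hκ (by linarith)
  obtain ⟨X₀, hX₀⟩ := GP.sparse l (κ / 8) (by positivity)
  obtain ⟨i₀, hi₀⟩ : ∃ i₀ : ℕ, i₀ = I₀ + P₀ + X₀ + 2 := ⟨_, rfl⟩
  obtain ⟨i₁, hi₁, hS⟩ := Pool.Agent.Y958.TC.sum_inv_large i₀ (by omega) (100 * K₁ * C / ε₁)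
  refine ⟨i₀, i₁, fun M₀ => ?_⟩
  obtain ⟨M, hM, hME, hsum⟩ := hI₀ i₀ i₁ (by omega) hi₁ M₀
  refine ⟨M, hM, hME, fun dv hdv hdsum => ?_⟩
  obtain ⟨S, hSd⟩ : ∃ S : ℝ, S = ∑ i ∈ Ico i₀ i₁, (1 : ℝ) / i := ⟨_, rfl⟩
  rw [← hSd] at hS hsum
  have hS0 : 0 < S := lt_of_le_of_lt (by positivity) hS
  have hl2 : 0.6931471803 < Real.log 2 := Real.log_two_gt_d9
  have hl2' : Real.log 2 < 0.6931471808 := Real.log_two_lt_d9
  -- the deviations
  have h1 : ∑ p ∈ PP i₀ i₁, 1 / (p : ℝ) ≤ 5 * S := by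
    rw [PP_sum, hSd, mul_sum]
    exact sum_le_sum fun i hi => inv_QQ i (by rw [mem_Ico] at hi; omega)
  have h2 : ∑ i ∈ Ico i₀ i₁, (1 : ℝ) / i * ∑ p ∈ QQ i, Real.log p / 2 ^ i * dv p ≤
      4 * ∑ p ∈ PP i₀ i₁, 1 / (p : ℝ) * dv p := by
    rw [PP_sum, mul_sum]
    refine sum_le_sum fun i hi => ?_
    rw [mul_sum, mul_sum]
    refine sum_le_sum fun p hp => ?_
    obtain ⟨⟨h3, h4⟩, -⟩ := mem_QQ.1 hp
    have hi1 : 1 ≤ i := by rw [mem_Ico] at hi; omega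
    have hi0 : (1 : ℝ) ≤ i := by exact_mod_cast hi1
    have h2i : (0 : ℝ) < 2 ^ i := by positivity
    have h3r : (2 : ℝ) ^ i < p := by exact_mod_cast h3
    have h4r : (p : ℝ) ≤ 2 * 2 ^ i := by
      have : (p : ℝ) ≤ ((2 ^ (i + 1) : ℕ) : ℝ) := by exact_mod_cast h4
      rw [pow_succ] at this
      push_cast at this
      linarith
    have h5 : Real.log p ≤ 2 * i := by
      have h6 : Real.log p ≤ Real.log (2 * 2 ^ i) := Real.log_le_log (by linarith) h4r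
      rw [Real.log_mul (by norm_num) h2i.ne', Real.log_pow] at h6
      nlinarith
    have h7 : 1 / (i : ℝ) * (Real.log p / 2 ^ i) ≤ 4 * (1 / (p : ℝ)) := by
      calc 1 / (i : ℝ) * (Real.log p / 2 ^ i) ≤ 1 / (i : ℝ) * (2 * i / 2 ^ i) := by gcongr
        _ = 2 / 2 ^ i := by field_simp
        _ ≤ 4 * (1 / (p : ℝ)) := by
          rw [mul_one_div, div_le_div_iff₀ h2i (by linarith)]
          linarith
    calc 1 / (i : ℝ) * (Real.log p / 2 ^ i * dv p) = 1 / (i : ℝ) * (Real.log p / 2 ^ i) * dv p := by ring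
      _ ≤ 4 * (1 / (p : ℝ)) * dv p := mul_le_mul_of_nonneg_right h7 (hdv p)
      _ = 4 * (1 / (p : ℝ) * dv p) := by ring
  -- a good dyadic interval
  obtain ⟨i, hi, hiT⟩ : ∃ i ∈ Ico i₀ i₁, 0 < ∑ p ∈ QQ i, Real.log p / 2 ^ i *
      ((if M / p ∈ E then 1 else 0) - K₁ * dv p) := by
    by_contra hno
    push Not at hno
    have h3 : ∑ i ∈ Ico i₀ i₁, (1 : ℝ) / i * ∑ p ∈ QQ i, Real.log p / 2 ^ i *
        ((if M / p ∈ E then 1 else 0) - K₁ * dv p) ≤ 0 :=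
      sum_nonpos fun i hi => mul_nonpos_of_nonneg_of_nonpos (by positivity) (hno i hi)
    have h4 : ∑ i ∈ Ico i₀ i₁, (1 : ℝ) / i * ∑ p ∈ QQ i, Real.log p / 2 ^ i *
        ((if M / p ∈ E then 1 else 0) - K₁ * dv p) =
        ∑ i ∈ Ico i₀ i₁, (1 : ℝ) / i * ∑ p ∈ QQ i, Real.log p / 2 ^ i * (if M / p ∈ E then 1 else 0) -
        K₁ * ∑ i ∈ Ico i₀ i₁, (1 : ℝ) / i * ∑ p ∈ QQ i, Real.log p / 2 ^ i * dv p := by
      rw [mul_sum, ← sum_sub_distrib]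
      refine sum_congr rfl fun i _ => ?_
      have h5 : ∑ p ∈ QQ i, Real.log p / 2 ^ i * ((if M / p ∈ E then 1 else 0) - K₁ * dv p) =
          ∑ p ∈ QQ i, Real.log p / 2 ^ i * (if M / p ∈ E then 1 else 0) -
          K₁ * ∑ p ∈ QQ i, Real.log p / 2 ^ i * dv p := by
        rw [mul_sum, ← sum_sub_distrib]
        refine sum_congr rfl fun p _ => ?_
        ring
      rw [h5]
      ring
    rw [h4] at h3
    have h5 : K₁ * ∑ i ∈ Ico i₀ i₁, (1 : ℝ) / i * ∑ p ∈ QQ i, Real.log p / 2 ^ i * dv p ≤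
        K₁ * (4 * (C + ε₁ / (100 * K₁) * (5 * S))) := by
      refine mul_le_mul_of_nonneg_left (h2.trans ?_) hK₁0.le
      have : ε₁ / (100 * K₁) * ∑ p ∈ PP i₀ i₁, 1 / (p : ℝ) ≤ ε₁ / (100 * K₁) * (5 * S) :=
        mul_le_mul_of_nonneg_left h1 (by positivity)
      linarith
    have h6 : K₁ * (4 * (C + ε₁ / (100 * K₁) * (5 * S))) = 4 * (K₁ * C) + ε₁ * S / 5 := by
      field_simp
      ring
    have h7 : 100 * (K₁ * C) < ε₁ * S := by
      rw [div_lt_iff₀ hε₁] at hS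
      linarith
    have h8 : 0 < ε₁ * S := by positivity
    linarith
  rw [mem_Ico] at hi
  have hi0 : (1 : ℝ) ≤ i := by exact_mod_cast (by omega : 1 ≤ i)
  have h2i : (0 : ℝ) < 2 ^ i := by positivity
  have hw : ∀ p ∈ QQ i, 0 ≤ Real.log p / 2 ^ i := fun p _ =>
    div_nonneg (Real.log_natCast_nonneg _) h2i.le
  have hth : ∑ p ∈ QQ i, Real.log p / 2 ^ i ≤ 3 := by
    rw [← sum_div, div_le_iff₀ h2i]
    exact theta_QD i
  obtain ⟨p₀, hp₀, hp₀E⟩ : ∃ p₀ ∈ QQ i, M / p₀ ∈ E := by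
    by_contra hno
    push Not at hno
    refine absurd hiT (not_lt.2 (sum_nonpos fun p hp => ?_))
    rw [if_neg (hno p hp)]
    have := mul_nonneg (hw p hp) (mul_nonneg hK₁0.le (hdv p))
    nlinarith
  have hdi : ∑ p ∈ QQ i, Real.log p / 2 ^ i * dv p ≤ 3 / K₁ := by
    have h3 : ∑ p ∈ QQ i, Real.log p / 2 ^ i * ((if M / p ∈ E then 1 else 0) - K₁ * dv p) ≤
        ∑ p ∈ QQ i, (Real.log p / 2 ^ i - K₁ * (Real.log p / 2 ^ i * dv p)) := by
      refine sum_le_sum fun p hp => ?_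
      have h4 := hw p hp
      have h5 : (if M / p ∈ E then (1 : ℝ) else 0) ≤ 1 := by split_ifs <;> norm_num
      nlinarith
    rw [sum_sub_distrib, ← mul_sum] at h3
    rw [le_div_iff₀ hK₁0]
    linarith
  obtain ⟨P, hP1, hP2, hPw⟩ := window κ hκ hκ1 i p₀ hp₀
  have hi2 : i < 2 ^ i := Nat.lt_two_pow_self
  have hPW := hP₀ P (by omega)
  rw [Nat.totient_one, Nat.cast_one, one_mul] at hPW
  obtain ⟨G, hG⟩ : ∃ G : Finset ℕ, G = (Ioc P ⌊(1 + κ) * P⌋₊).filter (fun p => p.Prime ∧ p % 1 = 1 % 1) := ⟨_, rfl⟩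
  rw [← hG] at hPW
  have hGQ : ∀ p ∈ G, p ∈ QQ i := by
    intro p hp
    rw [hG, mem_filter] at hp
    have := (hPw p hp.1).1
    rw [mem_Ioc] at this
    exact mem_QQ.2 ⟨this, hp.2.1⟩
  have hil : (0 : ℝ) < i * Real.log 2 := by positivity
  -- the bad primes
  have hbad : ((G.filter fun p => ¬ dv p ≤ κ₂).card : ℝ) ≤ κ / 16 * (2 ^ i / (i * Real.log 2)) := by
    have h3 : ((G.filter fun p => ¬ dv p ≤ κ₂).card : ℝ) * (i * Real.log 2 / 2 ^ i * κ₂) ≤ 3 / K₁ := by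
      calc ((G.filter fun p => ¬ dv p ≤ κ₂).card : ℝ) * (i * Real.log 2 / 2 ^ i * κ₂) =
          ∑ p ∈ G.filter (fun p => ¬ dv p ≤ κ₂), i * Real.log 2 / 2 ^ i * κ₂ := by
            rw [sum_const, nsmul_eq_mul]
        _ ≤ ∑ p ∈ G.filter (fun p => ¬ dv p ≤ κ₂), Real.log p / 2 ^ i * dv p := by
            refine sum_le_sum fun p hp => ?_
            rw [mem_filter] at hp
            obtain ⟨⟨h4, -⟩, -⟩ := mem_QQ.1 (hGQ p hp.1)
            have h4r : (2 : ℝ) ^ i < p := by exact_mod_cast h4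
            have h5 : (i : ℝ) * Real.log 2 ≤ Real.log p := by
              rw [← Real.log_pow]
              exact Real.log_le_log h2i h4r.le
            exact mul_le_mul (div_le_div_of_nonneg_right h5 h2i.le) (not_le.1 hp.2).le hκ₂.le
              (div_nonneg (Real.log_natCast_nonneg _) h2i.le)
        _ ≤ ∑ p ∈ QQ i, Real.log p / 2 ^ i * dv p :=
            sum_le_sum_of_subset_of_nonneg (fun p hp => hGQ p (mem_filter.1 hp).1)
              fun p hp _ => mul_nonneg (hw p hp) (hdv p)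
        _ ≤ 3 / K₁ := hdi
    have h4 : 3 / K₁ = κ / 16 * κ₂ := by
      rw [hK₁]
      field_simp
      norm_num
    rw [h4] at h3
    have h5 : ((G.filter fun p => ¬ dv p ≤ κ₂).card : ℝ) * (i * Real.log 2 / 2 ^ i) ≤ κ / 16 := by
      have : ((G.filter fun p => ¬ dv p ≤ κ₂).card : ℝ) * (i * Real.log 2 / 2 ^ i) * κ₂ ≤ κ / 16 * κ₂ := by
        linarith
      exact le_of_mul_le_mul_right this hκ₂
    calc ((G.filter fun p => ¬ dv p ≤ κ₂).card : ℝ) =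
        ((G.filter fun p => ¬ dv p ≤ κ₂).card : ℝ) * (i * Real.log 2 / 2 ^ i) * (2 ^ i / (i * Real.log 2)) := by
          field_simp
      _ ≤ _ := mul_le_mul_of_nonneg_right h5 (by positivity)
  -- many primes
  have hGc : 3 / 8 * κ * (2 ^ i / (i * Real.log 2)) ≤ (G.card : ℝ) := by
    refine le_trans ?_ hPW
    have hP1r : (2 : ℝ) ^ i ≤ P := by exact_mod_cast hP1
    have hP2r : (P : ℝ) ≤ 2 ^ (i + 1) := by exact_mod_cast hP2
    have h3 : Real.log P ≤ 2 * (i * Real.log 2) := by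
      have h4 : Real.log P ≤ Real.log (2 ^ (i + 1)) := Real.log_le_log (by linarith) hP2r
      rw [Real.log_pow] at h4
      push_cast at h4
      nlinarith
    have hP1' : (2 : ℝ) ≤ P := by
      have : (2 : ℝ) ^ 1 ≤ 2 ^ i := pow_le_pow_right₀ (by norm_num) (by omega)
      linarith
    have h5 : 0 < Real.log P := Real.log_pos (by linarith)
    calc 3 / 8 * κ * (2 ^ i / (i * Real.log 2)) = 3 / 4 * (κ * 2 ^ i / (2 * (i * Real.log 2))) := by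
          field_simp
          ring
      _ ≤ 3 / 4 * (κ * P / Real.log P) := by gcongr
  have hgood : κ / 4 * (2 ^ i / (i * Real.log 2)) ≤ ((G.filter fun p => dv p ≤ κ₂).card : ℝ) := by
    have h3 : ((G.filter fun p => dv p ≤ κ₂).card : ℝ) + ((G.filter fun p => ¬ dv p ≤ κ₂).card : ℝ) =
        G.card := by
      exact_mod_cast card_filter_add_card_filter_not (s := G) (fun p => dv p ≤ κ₂)
    have h4 : (0 : ℝ) < 2 ^ i / (i * Real.log 2) := by positivity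
    nlinarith
  -- a progression of good primes
  obtain ⟨A, hA⟩ : ∃ A : Set ℕ, ∀ p, p ∈ A ↔ p ∈ G.filter fun p => dv p ≤ κ₂ :=
    ⟨{p | p ∈ G.filter fun p => dv p ≤ κ₂}, fun _ => Iff.rfl⟩
  have hX := hX₀ (2 ^ i) (by omega) A (fun m hm => by
    rw [hA, mem_filter] at hm
    exact (mem_QQ.1 (hGQ m hm.1)).2)
  by_cases hno : ∀ u d : ℕ, 1 ≤ d → ¬ ∀ j < l, u + j * d ∈ A ∧ 2 ^ i < u + j * d ∧ u + j * d ≤ 2 * 2 ^ i
  · exfalso
    have h3 := hX hno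
    have h4 : (G.filter fun p => dv p ≤ κ₂).card ≤ N A (2 ^ i) (2 * 2 ^ i) := by
      unfold N
      refine card_le_card fun p hp => ?_
      have h5 := (mem_QQ.1 (hGQ p (mem_filter.1 hp).1)).1
      rw [pow_succ] at h5
      exact mem_filter.2 ⟨mem_Ioc.2 ⟨h5.1, by omega⟩, (hA p).2 hp⟩
    have h5 : ((G.filter fun p => dv p ≤ κ₂).card : ℝ) ≤
        κ / 8 * ((2 ^ i : ℕ) : ℝ) / Real.log ((2 ^ i : ℕ) : ℝ) := le_trans (by exact_mod_cast h4) h3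
    push_cast at h5
    rw [Real.log_pow] at h5
    have h6 : κ / 8 * 2 ^ i / (i * Real.log 2) = κ / 8 * (2 ^ i / (i * Real.log 2)) := by ring
    rw [h6] at h5
    have h7 : (0 : ℝ) < 2 ^ i / (i * Real.log 2) := by positivity
    nlinarith [hgood.trans h5, mul_pos hκ h7]
  · push Not at hno
    obtain ⟨u, d, hd, hud⟩ := hno
    refine ⟨p₀, u, d, hp₀E, hd, ?_, fun j hj => ?_⟩
    · unfold PP
      rw [mem_biUnion]
      exact ⟨i, mem_Ico.2 hi, hp₀⟩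
    · have h3 := (hud j hj).1
      rw [hA, mem_filter] at h3
      have h4 : u + j * d ∈ Ioc P ⌊(1 + κ) * P⌋₊ := by
        have := h3.1
        rw [hG, mem_filter] at this
        exact this.1
      refine ⟨?_, h3.2, ?_⟩
      · unfold PP
        rw [mem_biUnion]
        exact ⟨i, mem_Ico.2 hi, hGQ _ h3.1⟩
      · exact (hPw _ h4).2

end Pool.Agent.H569.SS
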