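import Pool.Agent.H569.GP2
import Pool.Agent.H569.SS1
import Pool.Agent.H569.SS2

/-!
# Chowla products at sumsets: sums over windows at prime dilates of the constants
-/

set_option autoImplicit false

open Finset Filter

namespace Pool.Agent.H569.SS

open Pool.Agent.H569.GP (Sgn AA GG ln cor_close sg_GG pz sg_pz)
open Pool.Agent.H569.SP (sg sg_sum ZB)

/-- the product of the values at the forms `a_j y + c b_j` -/
noncomputable def Pn (h : ℤ → ℝ) {k : ℕ} (a b : Fin k → ℤ) (c y : ℤ) : ℝ := ∏ j, h (a j * y + c * b j)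

/-- its sum up to `y` -/
noncomputable def W (h : ℤ → ℝ) {k : ℕ} (a b : Fin k → ℤ) (c : ℤ) (y : ℕ) : ℝ := ∑ n ∈ Icc 1 y, Pn h a b c n

theorem prod_pm {ι : Type} (s : Finset ι) (x : ι → ℝ) (hx : ∀ i ∈ s, x i = 1 ∨ x i = -1) :
    ∏ i ∈ s, x i = 1 ∨ ∏ i ∈ s, x i = -1 := by
  classical
  induction s using Finset.induction_on with
  | empty => left; rw [prod_empty]
  | insert i s hi ih =>
    rw [prod_insert hi]
    rcases hx i (mem_insert_self i s) with h1 | h1 <;>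
      rcases ih (fun j hj => hx j (mem_insert_of_mem hj)) with h2 | h2 <;> rw [h1, h2] <;> norm_num

section

variable {h : ℤ → ℝ} (hh : ∀ m, h m = 1 ∨ h m = -1) {k : ℕ} (a b : Fin k → ℤ)

include hh

theorem Pn_pm (c y : ℤ) : Pn h a b c y = 1 ∨ Pn h a b c y = -1 := prod_pm _ _ fun _ _ => hh _

theorem Pn_abs (c y : ℤ) : |Pn h a b c y| = 1 := by
  rcases Pn_pm hh a b c y with h1 | h1 <;> rw [h1] <;> norm_num

omit hh in
theorem W_sub (c : ℤ) {y z : ℕ} (hyz : y ≤ z) : W h a b c z - W h a b c y = ∑ n ∈ Ioc y z, Pn h a b c n := by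
  unfold W
  have h1 : Icc 1 z = Icc 1 y ∪ Ioc y z := by
    ext n
    simp only [mem_Icc, mem_union, mem_Ioc]
    omega
  rw [h1, sum_union]
  · ring
  · rw [disjoint_left]
    intro n hn hn'
    rw [mem_Icc] at hn
    rw [mem_Ioc] at hn'
    omega

theorem W_lip (c : ℤ) {y z : ℕ} (hyz : y ≤ z) : |W h a b c z - W h a b c y| ≤ (z : ℝ) - y := by
  rw [W_sub a b c hyz]
  refine (abs_sum_le_sum_abs _ _).trans ?_
  rw [sum_congr rfl fun (n : ℕ) _ => Pn_abs hh a b c (n : ℤ), sum_const, Nat.card_Ioc, nsmul_eq_mul, mul_one,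
    Nat.cast_sub hyz]

theorem W_le (c : ℤ) (y : ℕ) : |W h a b c y| ≤ y := by
  have h1 := W_lip hh a b c (Nat.zero_le y)
  have h2 : W h a b c 0 = 0 := by
    unfold W
    rw [Icc_eq_empty (by norm_num), sum_empty]
  rw [h2, sub_zero, Nat.cast_zero, sub_zero] at h1
  exact h1

theorem AA_one (c : ℤ) (B : ℕ) : AA h a b c ({0} : Finset (Fin 0 → ℕ)) B = W h a b c B / B := by
  unfold AA W
  rw [zero_add, pow_one]
  congr 1
  unfold ZB
  rw [sum_product]
  refine sum_congr rfl fun n _ => ?_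
  rw [Fintype.piFinset_of_isEmpty, univ_unique, sum_singleton, prod_singleton, sg_GG hh]
  unfold Pn ln
  simp

end

/-- the correlations for most primes -/
theorem cor1 {k : ℕ} (a b : Fin k → ℤ) (ha : ∀ j, a j ≠ 0) (ε : ℝ) (hε : 0 < ε) : ∃ C : ℝ, 0 ≤ C ∧
    ∀ P : Finset ℕ, (∀ p ∈ P, p.Prime) → ∃ K : ℕ, ∀ B : ℕ, K ≤ B → ∀ (h : ℤ → ℝ) (g : ℕ → ℝ), Sgn h g →
      ∑ p ∈ P, (1 / (p : ℝ)) * |W h a b p B / B - g p ^ k * (W h a b 1 (B / p) / ((B / p : ℕ) : ℝ))| ≤
        C + ε * ∑ p ∈ P, 1 / (p : ℝ) := by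
  obtain ⟨C, hC, h1⟩ := cor_close a b ha ({0} : Finset (Fin 0 → ℕ)) ε hε
  refine ⟨C, hC, fun P hP => ?_⟩
  obtain ⟨K, hK⟩ := h1 P hP
  refine ⟨K, fun B hB h g hS => ?_⟩
  have h2 := hK B hB h g hS
  rw [card_singleton, one_mul] at h2
  refine le_trans (le_of_eq (sum_congr rfl fun p _ => ?_)) h2
  rw [AA_one hS.hh, AA_one hS.hh]

theorem pow_pm {x : ℝ} (hx : x = 1 ∨ x = -1) (k : ℕ) : |x ^ k| = 1 := by
  rw [abs_pow]
  rcases hx with h | h <;> rw [h] <;> norm_num

theorem one_side {h : ℤ → ℝ} (hh : ∀ m, h m = 1 ∨ h m = -1) {k : ℕ} (a b : Fin k → ℤ) (p B : ℕ) (hp : 0 < p)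
    (x : ℝ) (hx : |x| = 1) :
    |W h a b p B - x * (p * W h a b 1 (B / p))| ≤
      B * |W h a b p B / B - x * (W h a b 1 (B / p) / ((B / p : ℕ) : ℝ))| + p := by
  have hpr : (0 : ℝ) < p := by exact_mod_cast hp
  rcases Nat.eq_zero_or_pos B with hB | hB
  · have h2 : ∀ c, W h a b c 0 = 0 := fun c => by
      unfold W
      rw [Icc_eq_empty (by norm_num), sum_empty]
    rw [hB, Nat.zero_div, h2, h2]
    simp
  have hB0 : (0 : ℝ) < B := by exact_mod_cast hB
  rcases Nat.eq_zero_or_pos (B / p) with hq | hq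
  · have h2 : ∀ c, W h a b c 0 = 0 := fun c => by
      unfold W
      rw [Icc_eq_empty (by norm_num), sum_empty]
    rw [hq, h2]
    have h3 : (B : ℝ) * |W h a b p B / B - x * (0 / ((0 : ℕ) : ℝ))| = |W h a b p B - x * (p * 0)| := by
      rw [zero_div, mul_zero, mul_zero, mul_zero, sub_zero, sub_zero, abs_div, abs_of_pos hB0]
      field_simp
    linarith
  · obtain ⟨q, hqd⟩ : ∃ q : ℕ, q = B / p := ⟨_, rfl⟩
    rw [← hqd] at hq ⊢
    have hq0 : (0 : ℝ) < q := by exact_mod_cast hq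
    have h1 : p * q ≤ B := by rw [hqd]; exact Nat.mul_div_le B p
    have h2 : B < p * q + p := by
      rw [hqd]
      have := Nat.lt_mul_div_succ B hp
      rw [Nat.mul_succ] at this
      exact this
    have h1r : (p : ℝ) * q ≤ B := by exact_mod_cast h1
    have h2r : (B : ℝ) ≤ p * q + p := by exact_mod_cast h2.le
    have hW := W_le hh a b 1 q
    have h3 : W h a b p B - x * (p * W h a b 1 q) =
        B * (W h a b p B / B - x * (W h a b 1 q / q)) + x * ((B - p * q) * (W h a b 1 q / q)) := by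
      field_simp
      ring
    rw [h3]
    refine (abs_add_le _ _).trans ?_
    rw [abs_mul, abs_of_pos hB0, abs_mul x, hx, one_mul, abs_mul]
    have h4 : |W h a b 1 q / (q : ℝ)| ≤ 1 := by
      rw [abs_div, abs_of_pos hq0, div_le_one hq0]
      exact hW
    have h5 : |(B : ℝ) - p * q| ≤ p := by
      rw [abs_of_nonneg (by linarith)]
      linarith
    have h6 : |(B : ℝ) - p * q| * |W h a b 1 q / (q : ℝ)| ≤ p * 1 :=
      mul_le_mul h5 h4 (abs_nonneg _) hpr.le
    linarith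

/-- division in two orders -/
theorem div_two (v M p J : ℕ) (hp : 0 < p) : v * (M / p) / J ≤ v * M / J / p ∧
    v * M / J / p ≤ v * (M / p) / J + (v + 1) := by
  rcases Nat.eq_zero_or_pos J with hJ | hJ
  · rw [hJ]; simp
  have h0 : v * M / J / p = v * M / p / J := by
    rw [Nat.div_div_eq_div_mul, Nat.div_div_eq_div_mul, mul_comm J p]
  rw [h0]
  have h1 : v * (M / p) ≤ v * M / p := by
    rw [Nat.le_div_iff_mul_le hp]
    calc v * (M / p) * p = v * (M / p * p) := by ring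
      _ ≤ v * M := Nat.mul_le_mul_left _ (Nat.div_mul_le_self M p)
  have h2 : v * M / p ≤ v * (M / p) + v := by
    rw [← Nat.lt_succ_iff, Nat.div_lt_iff_lt_mul hp]
    have h3 : M < (M / p + 1) * p := by
      have := Nat.lt_mul_div_succ M hp
      rw [mul_comm] at this
      exact this
    have h4 : v * M ≤ v * ((M / p + 1) * p) := Nat.mul_le_mul_left _ h3.le
    have h5 : v * ((M / p + 1) * p) = (v * (M / p) + v) * p := by ring
    calc v * M ≤ (v * (M / p) + v) * p := by rw [← h5]; exact h4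
      _ < (v * (M / p) + v).succ * p := Nat.mul_lt_mul_of_pos_right (Nat.lt_succ_self _) hp
  refine ⟨Nat.div_le_div_right h1, ?_⟩
  calc v * M / p / J ≤ (v * (M / p) + v) / J := Nat.div_le_div_right h2
    _ ≤ v * (M / p) / J + (v + 1) := by
      have h3 : (v * (M / p) + v) / J ≤ v * (M / p) / J + v / J + 1 := by
        have := Nat.add_div (a := v * (M / p)) (b := v) hJ
        rw [this]
        split_ifs <;> omega
      have h4 : v / J ≤ v := Nat.div_le_self _ _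
      omega

theorem div_step (v N N' J : ℕ) (hN : N ≤ N') : v * N / J ≤ v * N' / J ∧
    v * N' / J ≤ v * N / J + (v * (N' - N) + 1) := by
  refine ⟨Nat.div_le_div_right (Nat.mul_le_mul_left _ hN), ?_⟩
  rcases Nat.eq_zero_or_pos J with hJ | hJ
  · rw [hJ]; simp
  have h1 : v * N' = v * N + v * (N' - N) := by
    rw [← mul_add]
    congr 1
    omega
  rw [h1]
  have := Nat.add_div (a := v * N) (b := v * (N' - N)) hJ
  rw [this]
  have h4 : v * (N' - N) / J ≤ v * (N' - N) := Nat.div_le_self _ _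
  split_ifs <;> omega

section

variable {h : ℤ → ℝ} (hh : ∀ m, h m = 1 ∨ h m = -1) {k : ℕ} (a b : Fin k → ℤ)

include hh

/-- the window sums are Lipschitz -/
theorem f_lip (u v J : ℕ) (huv : u ≤ v) {N N' : ℕ} (hN : N ≤ N') :
    |(W h a b 1 (v * N' / J) - W h a b 1 (u * N' / J)) - (W h a b 1 (v * N / J) - W h a b 1 (u * N / J))| ≤
      2 * v * ((N' : ℝ) - N) + 2 := by
  obtain ⟨h1, h2⟩ := div_step v N N' J hN
  obtain ⟨h3, h4⟩ := div_step u N N' J hN
  have h5 := W_lip hh a b 1 h1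
  have h6 := W_lip hh a b 1 h3
  have h2r : ((v * N' / J : ℕ) : ℝ) - ((v * N / J : ℕ) : ℝ) ≤ v * ((N' : ℝ) - N) + 1 := by
    have : ((v * N' / J : ℕ) : ℝ) ≤ ((v * N / J + (v * (N' - N) + 1) : ℕ) : ℝ) := by exact_mod_cast h2
    rw [Nat.cast_add, Nat.cast_add, Nat.cast_mul, Nat.cast_sub hN, Nat.cast_one] at this
    linarith
  have h4r : ((u * N' / J : ℕ) : ℝ) - ((u * N / J : ℕ) : ℝ) ≤ u * ((N' : ℝ) - N) + 1 := by
    have : ((u * N' / J : ℕ) : ℝ) ≤ ((u * N / J + (u * (N' - N) + 1) : ℕ) : ℝ) := by exact_mod_cast h4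
    rw [Nat.cast_add, Nat.cast_add, Nat.cast_mul, Nat.cast_sub hN, Nat.cast_one] at this
    linarith
  have huvr : (u : ℝ) ≤ v := by exact_mod_cast huv
  have hNr : (0 : ℝ) ≤ (N' : ℝ) - N := by
    have : (N : ℝ) ≤ N' := by exact_mod_cast hN
    linarith
  have h7 : (u : ℝ) * ((N' : ℝ) - N) ≤ v * ((N' : ℝ) - N) := mul_le_mul_of_nonneg_right huvr hNr
  calc |(W h a b 1 (v * N' / J) - W h a b 1 (u * N' / J)) - (W h a b 1 (v * N / J) - W h a b 1 (u * N / J))|
      = |(W h a b 1 (v * N' / J) - W h a b 1 (v * N / J)) - (W h a b 1 (u * N' / J) - W h a b 1 (u * N / J))| := by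
        congr 1
        ring
    _ ≤ |W h a b 1 (v * N' / J) - W h a b 1 (v * N / J)| + |W h a b 1 (u * N' / J) - W h a b 1 (u * N / J)| :=
        abs_sub _ _
    _ ≤ _ := by linarith

/-- the window sums at a good prime are as large as at a bad scale nearby -/
theorem win_low (u v J M p p₀ : ℕ) (huv : u ≤ v) (hJ : 1 ≤ J) (hp : 0 < p) (hp₀ : 0 < p₀) (κ τ D : ℝ)
    (hκ : 0 < κ) (hκ1 : κ ≤ 1 / 4) (hτ : 0 ≤ τ) (x : ℝ) (hx : |x| = 1)
    (h1 : p₀ ≤ p → 1 - (p₀ : ℝ) / p ≤ κ) (h2 : p ≤ p₀ → 1 - (p : ℝ) / p₀ ≤ κ)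
    (hE : τ * ((M / p₀ : ℕ) : ℝ) ≤ |W h a b 1 (v * (M / p₀) / J) - W h a b 1 (u * (M / p₀) / J)|)
    (hD : |W h a b p (v * M / J) / ((v * M / J : ℕ) : ℝ) -
        x * (W h a b 1 (v * M / J / p) / ((v * M / J / p : ℕ) : ℝ))| +
      (if u = 0 then 0 else |W h a b p (u * M / J) / ((u * M / J : ℕ) : ℝ) -
        x * (W h a b 1 (u * M / J / p) / ((u * M / J / p : ℕ) : ℝ))|) ≤ D) :
    τ * M - κ * M * (τ + 4 * v) - v * D * M - p * (τ + 4 * v + 6) ≤
      |W h a b p (v * M / J) - W h a b p (u * M / J)| := by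
  have hpr : (0 : ℝ) < p := by exact_mod_cast hp
  have hp₀r : (0 : ℝ) < p₀ := by exact_mod_cast hp₀
  have hM0 : (0 : ℝ) ≤ M := Nat.cast_nonneg M
  have hv0 : (0 : ℝ) ≤ v := Nat.cast_nonneg v
  have huvr : (u : ℝ) ≤ v := by exact_mod_cast huv
  have hJr : (1 : ℝ) ≤ J := by exact_mod_cast hJ
  obtain ⟨D₁, hD₁⟩ : ∃ D₁ : ℝ, D₁ = |W h a b p (v * M / J) / ((v * M / J : ℕ) : ℝ) -
        x * (W h a b 1 (v * M / J / p) / ((v * M / J / p : ℕ) : ℝ))| := ⟨_, rfl⟩
  obtain ⟨D₂, hD₂⟩ : ∃ D₂ : ℝ, D₂ = (if u = 0 then 0 else |W h a b p (u * M / J) / ((u * M / J : ℕ) : ℝ) -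
        x * (W h a b 1 (u * M / J / p) / ((u * M / J / p : ℕ) : ℝ))|) := ⟨_, rfl⟩
  have hD₁0 : 0 ≤ D₁ := by rw [hD₁]; exact abs_nonneg _
  have hD₂0 : 0 ≤ D₂ := by
    rw [hD₂]
    split_ifs
    · exact le_rfl
    · exact abs_nonneg _
  rw [← hD₁, ← hD₂] at hD
  have hBv : ((v * M / J : ℕ) : ℝ) ≤ v * M := by
    have : v * M / J ≤ v * M := Nat.div_le_self _ _
    exact_mod_cast this
  have hBu : ((u * M / J : ℕ) : ℝ) ≤ v * M := by
    have : u * M / J ≤ u * M := Nat.div_le_self _ _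
    have h3 : ((u * M / J : ℕ) : ℝ) ≤ u * M := by exact_mod_cast this
    exact h3.trans (mul_le_mul_of_nonneg_right huvr hM0)
  -- one side each
  have a1 := one_side hh a b p (v * M / J) hp x hx
  rw [← hD₁] at a1
  have a2 : |W h a b p (u * M / J) - x * (p * W h a b 1 (u * M / J / p))| ≤ (u * M / J : ℕ) * D₂ + p := by
    have a3 := one_side hh a b p (u * M / J) hp x hx
    rcases Nat.eq_zero_or_pos u with hu | hu
    · have h3 : u * M / J = 0 := by rw [hu]; simp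
      rw [h3] at a3 ⊢
      rw [Nat.cast_zero, zero_mul, zero_add] at a3 ⊢
      exact a3
    · rw [hD₂, if_neg (by omega)]
      exact a3
  have a1' : |W h a b p (v * M / J) - x * (p * W h a b 1 (v * M / J / p))| ≤ v * M * D₁ + p := by
    refine a1.trans ?_
    have := mul_le_mul_of_nonneg_right hBv hD₁0
    linarith
  have a2' : |W h a b p (u * M / J) - x * (p * W h a b 1 (u * M / J / p))| ≤ v * M * D₂ + p := by
    refine a2.trans ?_
    have := mul_le_mul_of_nonneg_right hBu hD₂0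
    linarith
  -- the two orders of division
  obtain ⟨b1, b2⟩ := div_two v M p J hp
  obtain ⟨b3, b4⟩ := div_two u M p J hp
  have b5 := W_lip hh a b 1 b1
  have b6 := W_lip hh a b 1 b3
  have b2r : ((v * M / J / p : ℕ) : ℝ) - ((v * (M / p) / J : ℕ) : ℝ) ≤ v + 1 := by
    have : ((v * M / J / p : ℕ) : ℝ) ≤ ((v * (M / p) / J + (v + 1) : ℕ) : ℝ) := by exact_mod_cast b2
    rw [Nat.cast_add, Nat.cast_add, Nat.cast_one] at this
    linarith
  have b4r : ((u * M / J / p : ℕ) : ℝ) - ((u * (M / p) / J : ℕ) : ℝ) ≤ v + 1 := by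
    have : ((u * M / J / p : ℕ) : ℝ) ≤ ((u * (M / p) / J + (u + 1) : ℕ) : ℝ) := by exact_mod_cast b4
    rw [Nat.cast_add, Nat.cast_add, Nat.cast_one] at this
    linarith
  -- nearby scales
  obtain ⟨fp, hfp⟩ : ∃ fp : ℝ, fp = W h a b 1 (v * (M / p) / J) - W h a b 1 (u * (M / p) / J) := ⟨_, rfl⟩
  obtain ⟨f0, hf0⟩ : ∃ f0 : ℝ, f0 = W h a b 1 (v * (M / p₀) / J) - W h a b 1 (u * (M / p₀) / J) := ⟨_, rfl⟩
  rw [← hf0] at hE
  have hfl1 : ((M / p : ℕ) : ℝ) ≤ M / p := Nat.cast_div_le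
  have hfl2 : ((M / p₀ : ℕ) : ℝ) ≤ M / p₀ := Nat.cast_div_le
  have hfl3 : (M : ℝ) / p < ((M / p : ℕ) : ℝ) + 1 := by
    rw [div_lt_iff₀ hpr]
    have := Nat.lt_mul_div_succ M hp
    have h3 : (M : ℝ) < ((p * (M / p).succ : ℕ) : ℝ) := by exact_mod_cast this
    rw [Nat.cast_mul, Nat.cast_succ] at h3
    linarith
  have hfl4 : (M : ℝ) / p₀ < ((M / p₀ : ℕ) : ℝ) + 1 := by
    rw [div_lt_iff₀ hp₀r]
    have := Nat.lt_mul_div_succ M hp₀
    have h3 : (M : ℝ) < ((p₀ * (M / p₀).succ : ℕ) : ℝ) := by exact_mod_cast this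
    rw [Nat.cast_mul, Nat.cast_succ] at h3
    linarith
  have hnear : p * |fp - f0| ≤ 2 * v * (2 * κ * M + p) + 2 * p ∧ (1 - κ) * (M : ℝ) ≤ p * (M / p₀) := by
    rcases le_total p₀ p with hpp | hpp
    · have hppr : (p₀ : ℝ) ≤ p := by exact_mod_cast hpp
      have h3 := h1 hpp
      have h4 : M / p ≤ M / p₀ := Nat.div_le_div_left hpp hp₀
      have h5 := f_lip hh a b u v J huv h4
      rw [← hfp, ← hf0, abs_sub_comm] at h5
      have h6 : (p : ℝ) ≤ 2 * p₀ := by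
        have : (p₀ : ℝ) / p ≥ 3 / 4 := by linarith
        rw [ge_iff_le, le_div_iff₀ hpr] at this
        linarith
      have h7 : (p : ℝ) * ((M : ℝ) / p₀ - M / p) ≤ 2 * κ * M := by
        have h8 : (p : ℝ) * ((M : ℝ) / p₀ - M / p) = p / p₀ * ((1 - p₀ / p) * M) := by
          field_simp
        rw [h8]
        have h9 : (p : ℝ) / p₀ ≤ 2 := by
          rw [div_le_iff₀ hp₀r]
          exact h6
        have h10 : (1 - (p₀ : ℝ) / p) * M ≤ κ * M := mul_le_mul_of_nonneg_right h3 hM0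
        have h11 : 0 ≤ (1 - (p₀ : ℝ) / p) * M := by
          refine mul_nonneg ?_ hM0
          have : (p₀ : ℝ) / p ≤ 1 := by rw [div_le_one hpr]; exact hppr
          linarith
        calc (p : ℝ) / p₀ * ((1 - p₀ / p) * M) ≤ 2 * (κ * M) := mul_le_mul h9 h10 h11 (by norm_num)
          _ = 2 * κ * M := by ring
      have h8 : (p : ℝ) * (((M / p₀ : ℕ) : ℝ) - ((M / p : ℕ) : ℝ)) ≤ 2 * κ * M + p := by
        have h9 : ((M / p₀ : ℕ) : ℝ) - ((M / p : ℕ) : ℝ) ≤ ((M : ℝ) / p₀ - M / p) + 1 := by linarith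
        calc (p : ℝ) * (((M / p₀ : ℕ) : ℝ) - ((M / p : ℕ) : ℝ)) ≤ p * (((M : ℝ) / p₀ - M / p) + 1) :=
              mul_le_mul_of_nonneg_left h9 hpr.le
          _ ≤ 2 * κ * M + p := by linarith
      constructor
      · calc p * |fp - f0| ≤ p * (2 * v * (((M / p₀ : ℕ) : ℝ) - ((M / p : ℕ) : ℝ)) + 2) :=
              mul_le_mul_of_nonneg_left h5 hpr.le
          _ = 2 * v * (p * (((M / p₀ : ℕ) : ℝ) - ((M / p : ℕ) : ℝ))) + 2 * p := by ring
          _ ≤ _ := by
            have := mul_le_mul_of_nonneg_left h8 (by positivity : (0 : ℝ) ≤ 2 * v)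
            linarith
      · have h9 : (1 : ℝ) ≤ p / p₀ := by rw [le_div_iff₀ hp₀r]; linarith
        calc (1 - κ) * (M : ℝ) ≤ 1 * M := mul_le_mul_of_nonneg_right (by linarith) hM0
          _ ≤ p / p₀ * M := mul_le_mul_of_nonneg_right h9 hM0
          _ = p * (M / p₀) := by ring
    · have hppr : (p : ℝ) ≤ p₀ := by exact_mod_cast hpp
      have h3 := h2 hpp
      have h4 : M / p₀ ≤ M / p := Nat.div_le_div_left hpp hp
      have h5 := f_lip hh a b u v J huv h4
      rw [← hfp, ← hf0] at h5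
      have h7 : (p : ℝ) * ((M : ℝ) / p - M / p₀) ≤ 2 * κ * M := by
        have h8 : (p : ℝ) * ((M : ℝ) / p - M / p₀) = (1 - p / p₀) * M := by
          field_simp
        rw [h8]
        have h10 : (1 - (p : ℝ) / p₀) * M ≤ κ * M := mul_le_mul_of_nonneg_right h3 hM0
        have : 0 ≤ κ * M := by positivity
        linarith
      have h8 : (p : ℝ) * (((M / p : ℕ) : ℝ) - ((M / p₀ : ℕ) : ℝ)) ≤ 2 * κ * M + p := by
        have h9 : ((M / p : ℕ) : ℝ) - ((M / p₀ : ℕ) : ℝ) ≤ ((M : ℝ) / p - M / p₀) + 1 := by linarith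
        calc (p : ℝ) * (((M / p : ℕ) : ℝ) - ((M / p₀ : ℕ) : ℝ)) ≤ p * (((M : ℝ) / p - M / p₀) + 1) :=
              mul_le_mul_of_nonneg_left h9 hpr.le
          _ ≤ 2 * κ * M + p := by linarith
      constructor
      · calc p * |fp - f0| ≤ p * (2 * v * (((M / p : ℕ) : ℝ) - ((M / p₀ : ℕ) : ℝ)) + 2) :=
              mul_le_mul_of_nonneg_left h5 hpr.le
          _ = 2 * v * (p * (((M / p : ℕ) : ℝ) - ((M / p₀ : ℕ) : ℝ))) + 2 * p := by ring
          _ ≤ _ := by
            have := mul_le_mul_of_nonneg_left h8 (by positivity : (0 : ℝ) ≤ 2 * v)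
            linarith
      · have h9 : 1 - κ ≤ (p : ℝ) / p₀ := by linarith
        calc (1 - κ) * (M : ℝ) ≤ p / p₀ * M := mul_le_mul_of_nonneg_right h9 hM0
          _ = p * (M / p₀) := by ring
  obtain ⟨c1, c2⟩ := hnear
  have c3 : p * |f0| ≤ p * |fp| + p * |fp - f0| := by
    rw [← mul_add]
    refine mul_le_mul_of_nonneg_left ?_ hpr.le
    have : |f0| ≤ |fp| + |fp - f0| := by
      have h3 := abs_sub_abs_le_abs_sub f0 fp
      rw [abs_sub_comm] at h3
      linarith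
    exact this
  have c4 : τ * ((1 - κ) * M) - τ * p ≤ p * |f0| := by
    have h3 : (p : ℝ) * (τ * ((M / p₀ : ℕ) : ℝ)) ≤ p * |f0| := mul_le_mul_of_nonneg_left hE hpr.le
    have h4 : (M : ℝ) / p₀ - 1 ≤ ((M / p₀ : ℕ) : ℝ) := by linarith
    have h5 : τ * (p * ((M : ℝ) / p₀ - 1)) ≤ τ * (p * ((M / p₀ : ℕ) : ℝ)) :=
      mul_le_mul_of_nonneg_left (mul_le_mul_of_nonneg_left h4 hpr.le) hτ
    have h6 : τ * ((1 - κ) * (M : ℝ)) ≤ τ * (p * (M / p₀)) := mul_le_mul_of_nonneg_left c2 hτ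
    nlinarith
  -- assembly
  have d1 : p * |fp| ≤ p * |W h a b 1 (v * M / J / p) - W h a b 1 (u * M / J / p)| + p * (2 * (v + 1)) := by
    rw [← mul_add]
    refine mul_le_mul_of_nonneg_left ?_ hpr.le
    have h3 : fp = (W h a b 1 (v * M / J / p) - W h a b 1 (u * M / J / p)) -
        (W h a b 1 (v * M / J / p) - W h a b 1 (v * (M / p) / J)) +
        (W h a b 1 (u * M / J / p) - W h a b 1 (u * (M / p) / J)) := by
      rw [hfp]
      ring
    rw [h3]
    have h4 := abs_add_le ((W h a b 1 (v * M / J / p) - W h a b 1 (u * M / J / p)) -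
        (W h a b 1 (v * M / J / p) - W h a b 1 (v * (M / p) / J)))
        (W h a b 1 (u * M / J / p) - W h a b 1 (u * (M / p) / J))
    have h5 := abs_sub (W h a b 1 (v * M / J / p) - W h a b 1 (u * M / J / p))
      (W h a b 1 (v * M / J / p) - W h a b 1 (v * (M / p) / J))
    linarith
  have d2 : p * |W h a b 1 (v * M / J / p) - W h a b 1 (u * M / J / p)| ≤
      |W h a b p (v * M / J) - W h a b p (u * M / J)| + (v * M * D₁ + p) + (v * M * D₂ + p) := by
    have h3 : p * |W h a b 1 (v * M / J / p) - W h a b 1 (u * M / J / p)| =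
        |x * (p * W h a b 1 (v * M / J / p)) - x * (p * W h a b 1 (u * M / J / p))| := by
      rw [← mul_sub, abs_mul, hx, one_mul, ← mul_sub, abs_mul, abs_of_pos hpr]
    rw [h3]
    have h4 : x * (p * W h a b 1 (v * M / J / p)) - x * (p * W h a b 1 (u * M / J / p)) =
        (W h a b p (v * M / J) - W h a b p (u * M / J)) -
        (W h a b p (v * M / J) - x * (p * W h a b 1 (v * M / J / p))) +
        (W h a b p (u * M / J) - x * (p * W h a b 1 (u * M / J / p))) := by ring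
    rw [h4]
    have h5 := abs_add_le ((W h a b p (v * M / J) - W h a b p (u * M / J)) -
        (W h a b p (v * M / J) - x * (p * W h a b 1 (v * M / J / p))))
        (W h a b p (u * M / J) - x * (p * W h a b 1 (u * M / J / p)))
    have h6 := abs_sub (W h a b p (v * M / J) - W h a b p (u * M / J))
      (W h a b p (v * M / J) - x * (p * W h a b 1 (v * M / J / p)))
    linarith
  have d3 : v * M * D₁ + v * M * D₂ ≤ v * D * M := by
    have : (v : ℝ) * M * (D₁ + D₂) ≤ v * M * D := mul_le_mul_of_nonneg_left hD (by positivity)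
    linarith
  nlinarith

end

end Pool.Agent.H569.SS
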