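import Pool.Agent.H569.SS3

/-!
# Chowla products at sumsets: the bound `1 - 2 ^ (1 - k)` in all windows, at almost all scales
-/

set_option autoImplicit false

open Finset Filter

namespace Pool.Agent.H569.SS

open Pool.Agent.H569.GP (Sgn GG sg_GG pz sg_pz)
open Pool.Agent.H569.SP (sg sg_add sg_sum)
open Pool.Agent.Y958.U (LZ LZ_empty)

/-- the majority sign -/
theorem count_bad (s : Finset ℕ) (x : ℕ → ℝ) (hx : ∀ n, x n = 1 ∨ x n = -1) : ∃ σ : ℝ, (σ = 1 ∨ σ = -1) ∧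
    2 * (((s.filter fun n => x n ≠ σ).card : ℕ) : ℝ) ≤ s.card - |∑ n ∈ s, x n| := by
  classical
  obtain ⟨σ, hσ, hs⟩ : ∃ σ : ℝ, (σ = 1 ∨ σ = -1) ∧ |∑ n ∈ s, x n| = σ * ∑ n ∈ s, x n := by
    rcases le_total 0 (∑ n ∈ s, x n) with h | h
    · exact ⟨1, Or.inl rfl, by rw [abs_of_nonneg h, one_mul]⟩
    · exact ⟨-1, Or.inr rfl, by rw [abs_of_nonpos h, neg_one_mul]⟩
  refine ⟨σ, hσ, ?_⟩
  rw [hs, mul_sum, ← sum_filter_add_sum_filter_not s (fun n => x n = σ)]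
  have h1 : ∑ n ∈ s.filter (fun n => x n = σ), σ * x n = ((s.filter fun n => x n = σ).card : ℝ) := by
    rw [sum_congr rfl (g := fun _ => (1 : ℝ)) fun n hn => ?_, sum_const, nsmul_eq_mul, mul_one]
    rw [(mem_filter.1 hn).2]
    rcases hσ with h | h <;> rw [h] <;> norm_num
  have h2 : ∑ n ∈ s.filter (fun n => ¬ x n = σ), σ * x n = -((s.filter fun n => ¬ x n = σ).card : ℝ) := by
    rw [sum_congr rfl (g := fun _ => (-1 : ℝ)) fun n hn => ?_, sum_const, nsmul_eq_mul, mul_neg, mul_one]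
    have h3 := (mem_filter.1 hn).2
    rcases hσ with h | h <;> rcases hx n with h4 | h4
    · exact absurd (h4.trans h.symm) h3
    · rw [h, h4]; norm_num
    · rw [h, h4]; norm_num
    · exact absurd (h4.trans h.symm) h3
  have h3 : ((s.filter fun n => x n = σ).card : ℝ) + ((s.filter fun n => ¬ x n = σ).card : ℝ) = s.card := by
    exact_mod_cast card_filter_add_card_filter_not (s := s) (fun n => x n = σ)
  rw [h1, h2]
  simp only [ne_eq]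
  linarith

/-- the primes of the set are bounded -/
theorem PP_le {i₀ i₁ p : ℕ} (hp : p ∈ PP i₀ i₁) : 1 ≤ p ∧ p ≤ 2 ^ i₁ := by
  unfold PP at hp
  rw [mem_biUnion] at hp
  obtain ⟨i, hi, h⟩ := hp
  obtain ⟨⟨h1, h2⟩, h3⟩ := mem_QQ.1 h
  rw [mem_Ico] at hi
  exact ⟨h3.pos, h2.trans (Nat.pow_le_pow_right (by norm_num) (by omega))⟩

/-- the two point input -/
def Two (h : ℤ → ℝ) (a₀ : ℤ) : Prop := ∀ V : ℕ, ∃ E₂ : Set ℕ, LZ E₂ ∧ ∀ w H : ℤ, H ≠ 0 → ∀ ε : ℝ, 0 < ε →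
  ∃ N₀ : ℕ, ∀ N : ℕ, N₀ ≤ N → N ∉ E₂ → ∀ y : ℕ, y ≤ V * N →
    |∑ n ∈ Icc 1 y, h (a₀ * n + w) * h (a₀ * n + w + H)| ≤ ε * N

/-- the product over the vertices -/
theorem prod_vertices {h : ℤ → ℝ} (hh : ∀ m, h m = 1 ∨ h m = -1) (k : ℕ) (a b : Fin (k + 2) → ℤ) (s q : ℕ → ℤ)
    (h' : ℤ) (h0 : ∀ i, i < k + 1 → a 0 * s i + b 0 * q i = h' * cc i)
    (hj : ∀ j : Fin (k + 1), a j.succ * s j + b j.succ * q j = 0) (T P d : ℤ) :
    ∏ ω ∈ (range (k + 1)).powerset, Pn h a b (P + d * ∑ i ∈ ω, q i) (T + d * ∑ i ∈ ω, s i) =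
      h (a 0 * T + b 0 * P) * h (a 0 * T + b 0 * P + 2 ^ k * (d * h')) := by
  have h1 := telescope k a b s q h' h0 hj (fun _ m => pz (h m)) T P d
  have h2 := congrArg sg h1
  rw [sg_sum, sg_add, sg_pz (hh _), sg_pz (hh _)] at h2
  rw [← h2]
  refine prod_congr rfl fun ω _ => ?_
  rw [sg_sum]
  unfold Pn
  refine prod_congr rfl fun j _ => ?_
  rw [sg_pz (hh _), mul_comm (b j)]

theorem partA (h : ℤ → ℝ) (g : ℕ → ℝ) (hS : Sgn h g) (k : ℕ) (a b : Fin (k + 2) → ℤ) (ha : ∀ j, a j ≠ 0)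
    (hab : ∀ j, j ≠ 0 → a j * b 0 ≠ a 0 * b j) (hT : Two h (a 0)) (u v J : ℕ) (huv : u < v) (hJ : 1 ≤ J)
    (ε : ℝ) (hε : 0 < ε) :
    LZ {N : ℕ | (1 - 1 / 2 ^ (k + 1) + ε) * (((v : ℝ) - u) / J) * N <
      |W h a b 1 (v * N / J) - W h a b 1 (u * N / J)|} := by
  classical
  by_contra hcon
  obtain ⟨E₂, hE₂, hT2⟩ := hT v
  obtain ⟨s, q, h', hh'0, hd0, hdj⟩ := exists_dir (k + 1) a b hab
  have hJr : (1 : ℝ) ≤ J := by exact_mod_cast hJ
  have huvr : (u : ℝ) + 1 ≤ v := by exact_mod_cast huv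
  have hu0 : (0 : ℝ) ≤ u := Nat.cast_nonneg u
  obtain ⟨L, hL⟩ : ∃ L : ℝ, L = ((v : ℝ) - u) / J := ⟨_, rfl⟩
  have hL0 : 0 < L := by
    rw [hL]
    exact div_pos (by linarith) (by linarith)
  obtain ⟨m, hm⟩ : ∃ m : ℝ, m = 2 ^ (k + 1) := ⟨_, rfl⟩
  have hm2 : 2 ≤ m := by
    rw [hm]
    calc (2 : ℝ) = 2 ^ 1 := by norm_num
      _ ≤ 2 ^ (k + 1) := pow_le_pow_right₀ (by norm_num) (by omega)
  obtain ⟨τ, hτ⟩ : ∃ τ : ℝ, τ = (1 - 1 / m + ε) * L := ⟨_, rfl⟩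
  have hm1 : 1 / m ≤ 1 / 2 := one_div_le_one_div_of_le (by norm_num) hm2
  have hτ0 : 0 < τ := by
    rw [hτ]
    exact mul_pos (by linarith) hL0
  have hv0 : (0 : ℝ) < v := by linarith
  -- the small constants
  obtain ⟨κ, hκ⟩ : ∃ κ : ℝ, κ = min (1 / 4) (ε * L / (8 * (τ + 4 * v))) := ⟨_, rfl⟩
  have hκ0 : 0 < κ := by
    rw [hκ]
    exact lt_min (by norm_num) (by positivity)
  have hκ1 : κ ≤ 1 / 4 := by rw [hκ]; exact min_le_left _ _
  have hκ2 : κ * (τ + 4 * v) ≤ ε * L / 8 := by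
    have h1 : κ ≤ ε * L / (8 * (τ + 4 * v)) := by rw [hκ]; exact min_le_right _ _
    rw [le_div_iff₀ (by positivity)] at h1
    linarith
  obtain ⟨κ₂, hκ₂⟩ : ∃ κ₂ : ℝ, κ₂ = ε * L / (8 * v) := ⟨_, rfl⟩
  have hκ₂0 : 0 < κ₂ := by rw [hκ₂]; positivity
  have hκ₂1 : v * κ₂ = ε * L / 8 := by
    rw [hκ₂]
    field_simp
  -- the length of the progression
  obtain ⟨c₀, hc₀⟩ : ∃ c₀ : ℕ, c₀ = ∑ i ∈ range (k + 1), (q i).natAbs := ⟨_, rfl⟩
  have hqω : ∀ ω ∈ (range (k + 1)).powerset, |∑ i ∈ ω, q i| ≤ c₀ := by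
    intro ω hω
    refine (abs_sum_le_sum_abs _ _).trans ?_
    rw [hc₀]
    push_cast
    exact sum_le_sum_of_subset_of_nonneg (mem_powerset.1 hω) fun _ _ _ => abs_nonneg _
  obtain ⟨s₀, hs₀⟩ : ∃ s₀ : ℕ, s₀ = ∑ i ∈ range (k + 1), (s i).natAbs := ⟨_, rfl⟩
  have hsω : ∀ ω ∈ (range (k + 1)).powerset, |∑ i ∈ ω, s i| ≤ s₀ := by
    intro ω hω
    refine (abs_sum_le_sum_abs _ _).trans ?_
    rw [hs₀]
    push_cast
    exact sum_le_sum_of_subset_of_nonneg (mem_powerset.1 hω) fun _ _ _ => abs_nonneg _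
  obtain ⟨ε₂, hε₂, hsel⟩ := select _ E₂ hcon hE₂ (2 * c₀ + 1) κ κ₂ hκ0 hκ1 hκ₂0
  obtain ⟨C, hC0, hC⟩ := cor1 a b ha (ε₂ / 2) (by positivity)
  obtain ⟨i₀, i₁, hM⟩ := hsel (2 * C) (by positivity)
  obtain ⟨K, hK⟩ := hC (PP i₀ i₁) fun p hp => PP_prime hp
  -- the two point bound for all the relevant shifts
  have hN₀ : ∀ P d : ℕ, ∃ N₀ : ℕ, 1 ≤ d → ∀ N : ℕ, N₀ ≤ N → N ∉ E₂ → ∀ y : ℕ, y ≤ v * N →
      |∑ n ∈ Icc 1 y, h (a 0 * n + b 0 * P) * h (a 0 * n + b 0 * P + 2 ^ k * (d * h'))| ≤ ε * L / 4 * N := by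
    intro P d
    by_cases hd : 1 ≤ d
    · obtain ⟨N₀, h1⟩ := hT2 (b 0 * P) (2 ^ k * (d * h')) (by
        have : (d : ℤ) ≠ 0 := by exact_mod_cast (by omega : d ≠ 0)
        positivity) (ε * L / 4) (by positivity)
      exact ⟨N₀, fun _ => h1⟩
    · exact ⟨0, fun h => absurd h hd⟩
  choose N₀ hN₀ using hN₀
  obtain ⟨X, hX⟩ : ∃ X : ℕ, X = 2 ^ i₁ := ⟨_, rfl⟩
  obtain ⟨NN, hNN⟩ : ∃ NN : ℕ, NN = ∑ P ∈ range (X + 1), ∑ d ∈ range (X + 1), N₀ P d := ⟨_, rfl⟩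
  have hNN' : ∀ P d : ℕ, P ≤ X → d ≤ X → N₀ P d ≤ NN := by
    intro P d hP hd
    rw [hNN]
    calc N₀ P d ≤ ∑ d ∈ range (X + 1), N₀ P d :=
          single_le_sum (f := fun d => N₀ P d) (fun _ _ => Nat.zero_le _) (mem_range.2 (by omega))
      _ ≤ _ := single_le_sum (f := fun P => ∑ d ∈ range (X + 1), N₀ P d) (fun _ _ => Nat.zero_le _)
          (mem_range.2 (by omega))
  -- the scale
  obtain ⟨Y, hY⟩ : ∃ Y : ℝ, Y = (X : ℝ) * (τ + 4 * v + 6) + (1 + m * (2 * (X * s₀) + 1) + 1) := ⟨_, rfl⟩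
  obtain ⟨M₁, hM₁⟩ := exists_nat_gt (8 * Y / (ε * L))
  obtain ⟨M, hMl, hME, hdv⟩ := hM (NN + M₁ + (K + 1) * J)
  have hMr : (M₁ : ℝ) ≤ M := by exact_mod_cast (by omega : M₁ ≤ M)
  have hYM : Y < ε * L / 8 * M := by
    rw [div_lt_iff₀ (by positivity)] at hM₁
    have : (M₁ : ℝ) * (ε * L) ≤ M * (ε * L) := mul_le_mul_of_nonneg_right hMr (by positivity)
    linarith
  have hKv : ∀ w : ℕ, 1 ≤ w → K ≤ w * M / J := by
    intro w hw
    rw [Nat.le_div_iff_mul_le (by omega)]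
    have h1 : (K + 1) * J ≤ M := by omega
    have h2 : K * J ≤ (K + 1) * J := Nat.mul_le_mul_right _ (by omega)
    have h3 : 1 * M ≤ w * M := Nat.mul_le_mul_right _ hw
    omega
  have hdv1 := hK (v * M / J) (hKv v (by omega)) h g hS
  -- the deviations
  obtain ⟨D₁, hD₁⟩ : ∃ D₁ : ℕ → ℝ, ∀ p, D₁ p = |W h a b p (v * M / J) / ((v * M / J : ℕ) : ℝ) -
      g p ^ (k + 2) * (W h a b 1 (v * M / J / p) / ((v * M / J / p : ℕ) : ℝ))| := ⟨_, fun _ => rfl⟩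
  obtain ⟨D₂, hD₂⟩ : ∃ D₂ : ℕ → ℝ, ∀ p, D₂ p = if u = 0 then 0 else
      |W h a b p (u * M / J) / ((u * M / J : ℕ) : ℝ) -
      g p ^ (k + 2) * (W h a b 1 (u * M / J / p) / ((u * M / J / p : ℕ) : ℝ))| := ⟨_, fun _ => rfl⟩
  have hD₁0 : ∀ p, 0 ≤ D₁ p := fun p => by rw [hD₁]; exact abs_nonneg _
  have hD₂0 : ∀ p, 0 ≤ D₂ p := fun p => by
    rw [hD₂]
    split_ifs
    · exact le_rfl
    · exact abs_nonneg _
  have hdv1' : ∑ p ∈ PP i₀ i₁, 1 / (p : ℝ) * D₁ p ≤ C + ε₂ / 2 * ∑ p ∈ PP i₀ i₁, 1 / (p : ℝ) := by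
    simp only [hD₁]
    exact hdv1
  have hdv2' : ∑ p ∈ PP i₀ i₁, 1 / (p : ℝ) * D₂ p ≤ C + ε₂ / 2 * ∑ p ∈ PP i₀ i₁, 1 / (p : ℝ) := by
    rcases Nat.eq_zero_or_pos u with hu | hu
    · have h1 : ∀ p, D₂ p = 0 := fun p => by rw [hD₂, if_pos hu]
      simp only [h1, mul_zero, sum_const_zero]
      have : 0 ≤ ∑ p ∈ PP i₀ i₁, 1 / (p : ℝ) := sum_nonneg fun _ _ => by positivity
      positivity
    · have h1 := hK (u * M / J) (hKv u hu) h g hS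
      have h2 : ∀ p, D₂ p = |W h a b p (u * M / J) / ((u * M / J : ℕ) : ℝ) -
          g p ^ (k + 2) * (W h a b 1 (u * M / J / p) / ((u * M / J / p : ℕ) : ℝ))| := fun p => by
        rw [hD₂, if_neg (by omega)]
      simp only [h2]
      exact h1
  obtain ⟨p₀, u₀, d, hp₀E, hd, hp₀, hAP⟩ := hdv (fun p => D₁ p + D₂ p) (fun p => add_nonneg (hD₁0 p) (hD₂0 p)) (by
    have h1 : ∑ p ∈ PP i₀ i₁, 1 / (p : ℝ) * (D₁ p + D₂ p) =
        ∑ p ∈ PP i₀ i₁, 1 / (p : ℝ) * D₁ p + ∑ p ∈ PP i₀ i₁, 1 / (p : ℝ) * D₂ p := by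
      rw [← sum_add_distrib]
      exact sum_congr rfl fun p _ => by ring
    rw [h1]
    linarith)
  simp only [Set.mem_ofPred_eq] at hp₀E
  rw [← hL, ← hm, ← hτ] at hp₀E
  -- the progression
  have hpr : ∀ ω ∈ (range (k + 1)).powerset, ∃ j < 2 * c₀ + 1, ((u₀ + j * d : ℕ) : ℤ) =
      ((u₀ + c₀ * d : ℕ) : ℤ) + (d : ℤ) * ∑ i ∈ ω, q i := by
    intro ω hω
    have h1 := abs_le.1 (hqω ω hω)
    refine ⟨((c₀ : ℤ) + ∑ i ∈ ω, q i).toNat, by omega, ?_⟩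
    have h2 : ((((c₀ : ℤ) + ∑ i ∈ ω, q i).toNat : ℕ) : ℤ) = c₀ + ∑ i ∈ ω, q i :=
      Int.toNat_of_nonneg (by linarith)
    push_cast
    rw [h2]
    ring
  obtain ⟨B₁, hB₁⟩ : ∃ B₁ : ℕ, B₁ = v * M / J := ⟨_, rfl⟩
  obtain ⟨B₀, hB₀⟩ : ∃ B₀ : ℕ, B₀ = u * M / J := ⟨_, rfl⟩
  have hBB : B₀ ≤ B₁ := by
    rw [hB₀, hB₁]
    exact Nat.div_le_div_right (Nat.mul_le_mul_right _ huv.le)
  have hlen : L * M - 1 ≤ (B₁ : ℝ) - B₀ ∧ (B₁ : ℝ) - B₀ ≤ L * M + 1 := by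
    have hJ0 : (0 : ℝ) < J := by linarith
    have e1 : (B₁ : ℝ) ≤ v * M / J := by
      rw [hB₁]
      refine Nat.cast_div_le.trans ?_
      rw [Nat.cast_mul]
    have e2 : (v : ℝ) * M / J < B₁ + 1 := by
      rw [div_lt_iff₀ hJ0, hB₁]
      have h3 := Nat.lt_mul_div_succ (v * M) (by omega : 0 < J)
      have h4 : ((v * M : ℕ) : ℝ) < ((J * (v * M / J).succ : ℕ) : ℝ) := by exact_mod_cast h3
      rw [Nat.cast_mul, Nat.cast_mul, Nat.cast_succ] at h4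
      linarith
    have e3 : (B₀ : ℝ) ≤ u * M / J := by
      rw [hB₀]
      refine Nat.cast_div_le.trans ?_
      rw [Nat.cast_mul]
    have e4 : (u : ℝ) * M / J < B₀ + 1 := by
      rw [div_lt_iff₀ hJ0, hB₀]
      have h3 := Nat.lt_mul_div_succ (u * M) (by omega : 0 < J)
      have h4 : ((u * M : ℕ) : ℝ) < ((J * (u * M / J).succ : ℕ) : ℝ) := by exact_mod_cast h3
      rw [Nat.cast_mul, Nat.cast_mul, Nat.cast_succ] at h4
      linarith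
    have e5 : L * M = v * M / J - u * M / J := by
      rw [hL]
      ring
    constructor <;> linarith
  have hcard : ((Ioc B₀ B₁).card : ℝ) = (B₁ : ℝ) - B₀ := by
    rw [Nat.card_Ioc, Nat.cast_sub hBB]
  -- each vertex
  have hvert : ∀ ω ∈ (range (k + 1)).powerset, ∃ σ : ℝ, (σ = 1 ∨ σ = -1) ∧
      2 * (((Ioc B₀ B₁).filter fun n : ℕ => Pn h a b (((u₀ + c₀ * d : ℕ) : ℤ) + (d : ℤ) * ∑ i ∈ ω, q i) n ≠ σ).card : ℝ) ≤
        L * M * (1 / m - 5 / 8 * ε) + 1 := by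
    intro ω hω
    obtain ⟨j, hj, hje⟩ := hpr ω hω
    obtain ⟨hp1, hp2, hp3, hp4⟩ := hAP j hj
    obtain ⟨p, hp⟩ : ∃ p : ℕ, p = u₀ + j * d := ⟨_, rfl⟩
    rw [← hje]
    rw [← hp] at hp1 hp2 hp3 hp4 ⊢
    have hp0 := PP_prime hp1
    obtain ⟨σ, hσ, hc⟩ := count_bad (Ioc B₀ B₁) (fun n => Pn h a b p n) fun n => Pn_pm hS.hh a b p n
    refine ⟨σ, hσ, hc.trans ?_⟩
    rw [hcard, ← W_sub a b (p : ℤ) hBB]
    have h1 := win_low hS.hh a b u v J M p p₀ huv.le hJ hp0.pos (PP_prime hp₀).pos κ τ κ₂ hκ0 hκ1 hτ0.le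
      (g p ^ (k + 2)) (pow_pm (hS.hg p) _) hp3 hp4 hp₀E.le (by
        have := hD₁ p
        have h3 := hD₂ p
        rw [← this, ← h3]
        exact hp2)
    rw [← hB₁, ← hB₀] at h1
    have h2 : (p : ℝ) * (τ + 4 * v + 6) ≤ ε * L / 8 * M := by
      have h3 : (p : ℝ) ≤ X := by rw [hX]; exact_mod_cast (PP_le hp1).2
      have h4 : (p : ℝ) * (τ + 4 * v + 6) ≤ X * (τ + 4 * v + 6) :=
        mul_le_mul_of_nonneg_right h3 (by positivity)
      have h5 : 0 ≤ 1 + m * (2 * ((X : ℝ) * s₀) + 1) + 1 := by positivity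
      linarith
    have hM0 : (0 : ℝ) ≤ M := Nat.cast_nonneg M
    have h3 : κ * M * (τ + 4 * v) ≤ ε * L / 8 * M := by
      have := mul_le_mul_of_nonneg_right hκ2 hM0
      linarith
    have h4 : v * κ₂ * M = ε * L / 8 * M := by rw [hκ₂1]
    have h5 : τ * M = L * M - L * M * (1 / m) + ε * L * M := by rw [hτ]; ring
    have h6 : L * M * (1 / m - 5 / 8 * ε) = L * M * (1 / m) - 5 / 8 * (ε * L * M) := by ring
    linarith [hlen.2]
  choose! σ hσ hσc using hvert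
  -- the exceptional places
  obtain ⟨Z, hZ⟩ : ∃ Z : Finset ℕ → Finset ℕ, ∀ ω, Z ω = (Ioc B₀ B₁).filter fun n : ℕ =>
      Pn h a b (((u₀ + c₀ * d : ℕ) : ℤ) + (d : ℤ) * ∑ i ∈ ω, q i) ((n : ℤ) + (d : ℤ) * ∑ i ∈ ω, s i) ≠ σ ω :=
    ⟨_, fun _ => rfl⟩
  have hdX : d ≤ X ∧ u₀ + c₀ * d ≤ X := by
    rw [hX]
    have h1 := PP_le (hAP c₀ (by omega)).1
    refine ⟨?_, h1.2⟩
    rcases Nat.eq_zero_or_pos c₀ with hc | hc
    · -- all `q i` vanish, which is impossible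
      exfalso
      have h2 : q 0 = 0 := by
        have h3 : (q 0).natAbs ≤ ∑ i ∈ range (k + 1), (q i).natAbs :=
          single_le_sum (f := fun i => (q i).natAbs) (fun _ _ => Nat.zero_le _) (mem_range.2 (by omega))
        omega
      have h3 := hdj ⟨0, by omega⟩
      rw [h2, mul_zero, add_zero] at h3
      have h4 : s 0 = 0 := by
        rcases mul_eq_zero.1 h3 with h5 | h5
        · exact absurd h5 (ha _)
        · exact h5
      have h5 := hd0 0 (by omega)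
      rw [h2, h4, mul_zero, mul_zero, add_zero] at h5
      have h6 : (cc 0 : ℤ) ≠ 0 := by exact_mod_cast (cc_pos 0).ne'
      exact (mul_ne_zero hh'0 h6) h5.symm
    · have h2 : 1 * d ≤ c₀ * d := Nat.mul_le_mul_right _ hc
      omega
  have hZc : ∀ ω ∈ (range (k + 1)).powerset, 2 * ((Z ω).card : ℝ) ≤
      L * M * (1 / m - 5 / 8 * ε) + 1 + 2 * ((X : ℝ) * s₀) := by
    intro ω hω
    obtain ⟨δ, hδ⟩ : ∃ δ : ℤ, δ = (d : ℤ) * ∑ i ∈ ω, s i := ⟨_, rfl⟩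
    have hδ1 : |δ| ≤ ((X * s₀ : ℕ) : ℤ) := by
      rw [hδ, abs_mul]
      push_cast
      have h1 : |(d : ℤ)| ≤ X := by
        rw [abs_of_nonneg (by positivity)]
        exact_mod_cast hdX.1
      exact mul_le_mul h1 (hsω ω hω) (abs_nonneg _) (by positivity)
    -- split according to whether `n + δ` is in the window
    have h1 : (Z ω).card ≤ ((Ioc B₀ B₁).filter fun n : ℕ =>
        Pn h a b (((u₀ + c₀ * d : ℕ) : ℤ) + (d : ℤ) * ∑ i ∈ ω, q i) n ≠ σ ω).card + X * s₀ := by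
      have h2 : Z ω ⊆ (Z ω).filter (fun n : ℕ => ((B₀ : ℤ) < n + δ ∧ (n : ℤ) + δ ≤ B₁)) ∪
          ((Ioc B₀ B₁).filter fun n : ℕ => ¬ ((B₀ : ℤ) < n + δ ∧ (n : ℤ) + δ ≤ B₁)) := by
        intro n hn
        rw [mem_union, mem_filter, mem_filter]
        by_cases h3 : (B₀ : ℤ) < n + δ ∧ (n : ℤ) + δ ≤ B₁
        · exact Or.inl ⟨hn, h3⟩
        · rw [hZ, mem_filter] at hn
          exact Or.inr ⟨hn.1, h3⟩
      refine (card_le_card h2).trans ((card_union_le _ _).trans (Nat.add_le_add ?_ ?_))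
      · refine card_le_card_of_injOn (fun n => ((n : ℤ) + δ).toNat) ?_ ?_
        · intro n hn
          rw [mem_coe, mem_filter, hZ, mem_filter, mem_Ioc] at hn
          obtain ⟨⟨hn1, hn2⟩, hn3, hn4⟩ := hn
          have h5 : ((((n : ℤ) + δ).toNat : ℕ) : ℤ) = (n : ℤ) + δ :=
            Int.toNat_of_nonneg (by have : (0 : ℤ) ≤ B₀ := by positivity
                                    linarith)
          beta_reduce
          rw [mem_coe, mem_filter, mem_Ioc]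
          refine ⟨⟨by omega, by omega⟩, ?_⟩
          rw [h5, hδ]
          exact hn2
        · intro n hn n' hn' he
          rw [mem_coe, mem_filter] at hn hn'
          beta_reduce at he
          have : (0 : ℤ) ≤ B₀ := by positivity
          omega
      · -- the boundary
        have h3 : ((Ioc B₀ B₁).filter fun n : ℕ => ¬ ((B₀ : ℤ) < n + δ ∧ (n : ℤ) + δ ≤ B₁)) ⊆
            if 0 ≤ δ then Ioc (B₁ - X * s₀) B₁ else Ioc B₀ (B₀ + X * s₀) := by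
          intro n hn
          rw [mem_filter, mem_Ioc] at hn
          have h4 := abs_le.1 hδ1
          push_cast at h4
          split_ifs with h5
          · rw [mem_Ioc]
            have h6 : ¬ (n : ℤ) + δ ≤ B₁ := fun h7 => hn.2 ⟨by omega, h7⟩
            have h8 : ((X * s₀ : ℕ) : ℤ) = X * s₀ := by push_cast; ring
            omega
          · rw [mem_Ioc]
            have h6 : ¬ (B₀ : ℤ) < n + δ := fun h7 => hn.2 ⟨h7, by omega⟩
            have h8 : ((X * s₀ : ℕ) : ℤ) = X * s₀ := by push_cast; ring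
            omega
        refine (card_le_card h3).trans ?_
        split_ifs
        · rw [Nat.card_Ioc]; omega
        · rw [Nat.card_Ioc]; omega
    have h2 : ((Z ω).card : ℝ) ≤ ((((Ioc B₀ B₁).filter fun n : ℕ =>
        Pn h a b (((u₀ + c₀ * d : ℕ) : ℤ) + (d : ℤ) * ∑ i ∈ ω, q i) n ≠ σ ω).card : ℕ) : ℝ) + X * s₀ := by
      exact_mod_cast h1
    have h3 := hσc ω hω
    linarith
  -- the union
  obtain ⟨U, hU⟩ : ∃ U : Finset ℕ, U = (range (k + 1)).powerset.biUnion Z := ⟨_, rfl⟩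
  have hUc : 2 * (U.card : ℝ) ≤ L * M * (1 - 5 / 8 * (m * ε)) + m * (2 * ((X : ℝ) * s₀) + 1) := by
    have h1 : (U.card : ℝ) ≤ ∑ ω ∈ (range (k + 1)).powerset, ((Z ω).card : ℝ) := by
      rw [hU]
      exact_mod_cast card_biUnion_le
    have h2 : 2 * ∑ ω ∈ (range (k + 1)).powerset, ((Z ω).card : ℝ) ≤
        ∑ ω ∈ (range (k + 1)).powerset, (L * M * (1 / m - 5 / 8 * ε) + 1 + 2 * ((X : ℝ) * s₀)) := by
      rw [mul_sum]
      exact sum_le_sum hZc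
    rw [sum_const, card_powerset, card_range, nsmul_eq_mul] at h2
    push_cast at h2
    rw [← hm] at h2
    have h3 : m * (L * M * (1 / m - 5 / 8 * ε) + 1 + 2 * ((X : ℝ) * s₀)) =
        L * M * (1 - 5 / 8 * (m * ε)) + m * (2 * ((X : ℝ) * s₀) + 1) := by
      have : m ≠ 0 := by linarith
      field_simp
      ring
    linarith
  -- the two point product is constant outside of `U`
  obtain ⟨x, hx⟩ : ∃ x : ℕ → ℝ, ∀ n, x n = h (a 0 * n + b 0 * ((u₀ + c₀ * d : ℕ) : ℤ)) *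
      h (a 0 * n + b 0 * ((u₀ + c₀ * d : ℕ) : ℤ) + 2 ^ k * ((d : ℤ) * h')) := ⟨_, fun _ => rfl⟩
  have hxpm : ∀ n, x n = 1 ∨ x n = -1 := by
    intro n
    rw [hx]
    rcases hS.hh (a 0 * n + b 0 * ((u₀ + c₀ * d : ℕ) : ℤ)) with h1 | h1 <;>
      rcases hS.hh (a 0 * n + b 0 * ((u₀ + c₀ * d : ℕ) : ℤ) + 2 ^ k * ((d : ℤ) * h')) with h2 | h2 <;>
      rw [h1, h2] <;> norm_num
  obtain ⟨S₀, hS₀⟩ : ∃ S₀ : ℝ, S₀ = ∏ ω ∈ (range (k + 1)).powerset, σ ω := ⟨_, rfl⟩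
  have hSpm : S₀ = 1 ∨ S₀ = -1 := by
    rw [hS₀]
    exact prod_pm _ _ hσ
  have hxc : ∀ n ∈ Ioc B₀ B₁, n ∉ U → x n = S₀ := by
    intro n hn hnU
    rw [hx, hS₀, ← prod_vertices hS.hh k a b s q h' hd0 hdj]
    refine prod_congr rfl fun ω hω => ?_
    by_contra h1
    refine hnU ?_
    rw [hU, mem_biUnion]
    refine ⟨ω, hω, ?_⟩
    rw [hZ, mem_filter]
    exact ⟨hn, h1⟩
  have hlow : L * M - 1 - 2 * (U.card : ℝ) ≤ |∑ n ∈ Ioc B₀ B₁, x n| := by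
    have h1 : |∑ n ∈ Ioc B₀ B₁, x n| = |S₀ * ∑ n ∈ Ioc B₀ B₁, x n| := by
      rw [abs_mul]
      rcases hSpm with h | h <;> rw [h] <;> norm_num
    rw [h1]
    refine le_trans ?_ (le_abs_self _)
    rw [mul_sum]
    have h2 : ∀ n ∈ Ioc B₀ B₁, 1 - 2 * (if n ∈ U then (1 : ℝ) else 0) ≤ S₀ * x n := by
      intro n hn
      split_ifs with h3
      · rcases hSpm with h | h <;> rcases hxpm n with h4 | h4 <;> rw [h, h4] <;> norm_num
      · rw [hxc n hn h3]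
        rcases hSpm with h | h <;> rw [h] <;> norm_num
    refine le_trans ?_ (sum_le_sum h2)
    rw [sum_sub_distrib, sum_const, nsmul_eq_mul, mul_one, hcard, ← mul_sum, sum_ite_mem, sum_const,
      nsmul_eq_mul, mul_one]
    have h3 : (((Ioc B₀ B₁ ∩ U).card : ℕ) : ℝ) ≤ U.card := by
      exact_mod_cast card_le_card inter_subset_right
    linarith [hlen.1]
  -- the two point bound
  have hup : |∑ n ∈ Ioc B₀ B₁, x n| ≤ ε * L / 2 * M := by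
    have h1 : ∑ n ∈ Ioc B₀ B₁, x n = ∑ n ∈ Icc 1 B₁, x n - ∑ n ∈ Icc 1 B₀, x n := by
      have h2 : Icc 1 B₁ = Icc 1 B₀ ∪ Ioc B₀ B₁ := by
        ext n
        simp only [mem_Icc, mem_union, mem_Ioc]
        omega
      rw [h2, sum_union]
      · ring
      · rw [disjoint_left]
        intro n hn hn'
        rw [mem_Icc] at hn
        rw [mem_Ioc] at hn'
        omega
    have h2 : ∀ y, y ≤ v * M → |∑ n ∈ Icc 1 y, x n| ≤ ε * L / 4 * M := by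
      intro y hy
      have h3 := hN₀ (u₀ + c₀ * d) d hd M (by
        have := hNN' (u₀ + c₀ * d) d hdX.2 hdX.1
        omega) hME y hy
      simp only [hx]
      exact h3
    have h3 : B₁ ≤ v * M := by rw [hB₁]; exact Nat.div_le_self _ _
    have h4 := h2 B₁ h3
    have h5 := h2 B₀ (hBB.trans h3)
    rw [h1]
    have := abs_sub (∑ n ∈ Icc 1 B₁, x n) (∑ n ∈ Icc 1 B₀, x n)
    linarith
  have hM0 : (0 : ℝ) ≤ M := Nat.cast_nonneg M
  have hX0 : 0 ≤ (X : ℝ) * (τ + 4 * v + 6) := by positivity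
  have h1 : 2 * (ε * L * M) ≤ m * (ε * L * M) := mul_le_mul_of_nonneg_right hm2 (by positivity)
  have h2 : L * M * (1 - 5 / 8 * (m * ε)) = L * M - 5 / 8 * (m * (ε * L * M)) := by ring
  have h3 : ε * L / 2 * M = 1 / 2 * (ε * L * M) := by ring
  have h4 : ε * L / 8 * M = 1 / 8 * (ε * L * M) := by ring
  rw [h2] at hUc
  rw [h3] at hup
  rw [h4] at hYM
  have h5 : 0 ≤ ε * L * M := by positivity
  linarith

end Pool.Agent.H569.SS
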