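import Pool.Agent.H569.SS4
import Pool.Graph.R_pool_sql_team_seeded_64922ed1.X23.CS6

/-!
# The two point input for the Liouville function
-/

set_option autoImplicit false

open Finset Filter

namespace Pool.Agent.H569.SS

open Pool.Agent.H569.GP (Sgn)
open Pool.Agent.Y958.U (LZ)
open Pool.Agent.X23.CS (lam lam_pm e e_zero ap_bound)

/-- the Liouville function on the integers -/
noncomputable def hl (m : ℤ) : ℝ := if m = 0 then 1 else (-1) ^ ArithmeticFunction.cardFactors m.natAbs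

theorem hl_pm (m : ℤ) : hl m = 1 ∨ hl m = -1 := by
  unfold hl
  split_ifs
  · exact Or.inl rfl
  · exact neg_one_pow_eq_or _ _

theorem hl_sgn : Sgn hl (fun _ => -1) where
  hh := hl_pm
  hg := fun _ => Or.inr rfl
  hmul := by
    intro p hp m hm
    have hm0 : m ≠ 0 := fun h => hm (h ▸ dvd_zero _)
    have hp0 : (p : ℤ) ≠ 0 := by exact_mod_cast hp.ne_zero
    unfold hl
    rw [if_neg hm0, if_neg (mul_ne_zero hp0 hm0), Int.natAbs_mul, Int.natAbs_natCast,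
      ArithmeticFunction.cardFactors_mul hp.ne_zero (by omega), ArithmeticFunction.cardFactors_apply_prime hp,
      pow_add, pow_one]

theorem hl_nat {n : ℕ} (hn : n ≠ 0) : hl (n : ℤ) = lam n := by
  unfold hl lam
  rw [if_neg (by exact_mod_cast hn), Int.natAbs_natCast]

theorem two_lam (a₀ : ℕ) (ha : 1 ≤ a₀) : Two hl (a₀ : ℤ) := by
  obtain ⟨E, hE, -, h2⟩ := Pool.Agent.X23.CS.exceptional
  intro V
  refine ⟨{N | a₀ * (V + 1) * N + 0 ∈ E}, Pool.Agent.X23.CS.pull hE (a₀ * (V + 1)) 0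
    (Nat.mul_pos ha (Nat.succ_pos V)), ?_⟩
  intro w H hH ε hε
  obtain ⟨w', d, hd, hsym⟩ : ∃ (w' : ℤ) (d : ℕ), 1 ≤ d ∧ ∀ n : ℕ,
      hl (a₀ * n + w) * hl (a₀ * n + w + H) = hl (a₀ * n + w') * hl (a₀ * n + w' + d) := by
    rcases lt_or_gt_of_ne hH with h | h
    · refine ⟨w + H, H.natAbs, by omega, fun n => ?_⟩
      have h1 : ((H.natAbs : ℕ) : ℤ) = -H := by omega
      rw [h1, mul_comm, show (a₀ : ℤ) * n + (w + H) + -H = a₀ * n + w by ring,
        show (a₀ : ℤ) * n + (w + H) = a₀ * n + w + H by ring]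
    · refine ⟨w, H.natAbs, by omega, fun n => ?_⟩
      have h1 : ((H.natAbs : ℕ) : ℤ) = H := by omega
      rw [h1]
  obtain ⟨c, hc⟩ : ∃ c : ℕ, c = w'.natAbs := ⟨_, rfl⟩
  obtain ⟨b, hb⟩ : ∃ b : ℕ, (b : ℤ) = a₀ * c + w' := by
    have h1 : (c : ℤ) ≤ a₀ * c := by
      have : (1 : ℤ) * c ≤ a₀ * c := by
        apply mul_le_mul_of_nonneg_right _ (Int.natCast_nonneg c)
        exact_mod_cast ha
      linarith
    have h2 : 0 ≤ (a₀ : ℤ) * c + w' := by omega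
    exact ⟨((a₀ : ℤ) * c + w').toNat, Int.toNat_of_nonneg h2⟩
  have hA0 : (0 : ℝ) < a₀ * (V + 1) := by
    have : (0 : ℝ) < a₀ := by exact_mod_cast ha
    positivity
  obtain ⟨N₀, hN₀⟩ := h2 d hd (ε / (4 * (a₀ * (V + 1)))) (by positivity)
  obtain ⟨N₁, hN₁⟩ := exists_nat_ge (2 * c / ε)
  refine ⟨max (max N₀ N₁) c, fun N hN hNE y hy => ?_⟩
  have hN0 : N₀ ≤ N := le_trans (le_trans (le_max_left _ _) (le_max_left _ _)) hN
  have hN1 : N₁ ≤ N := le_trans (le_trans (le_max_right _ _) (le_max_left _ _)) hN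
  have hNc : c ≤ N := le_trans (le_max_right _ _) hN
  have hcN : (c : ℝ) ≤ ε / 2 * N := by
    have h3 : 2 * (c : ℝ) / ε ≤ N := hN₁.trans (by exact_mod_cast hN1)
    rw [div_le_iff₀ hε] at h3
    linarith
  obtain ⟨x, hx⟩ : ∃ x : ℕ → ℝ, ∀ n, x n = hl (a₀ * n + w') * hl (a₀ * n + w' + d) := ⟨_, fun _ => rfl⟩
  have hx1 : ∀ n, |x n| ≤ 1 := by
    intro n
    rw [hx, abs_mul]
    rcases hl_pm (a₀ * n + w') with h3 | h3 <;> rcases hl_pm (a₀ * n + w' + d) with h4 | h4 <;>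
      rw [h3, h4] <;> norm_num
  have hS : ∑ n ∈ Icc 1 y, hl (a₀ * n + w) * hl (a₀ * n + w + H) = ∑ n ∈ Icc 1 y, x n :=
    sum_congr rfl fun n _ => by rw [hsym, hx]
  rw [hS]
  rcases Nat.lt_or_ge c y with hcy | hcy
  swap
  · have h3 : |∑ n ∈ Icc 1 y, x n| ≤ y := by
      refine (abs_sum_le_sum_abs _ _).trans ((sum_le_sum fun n _ => hx1 n).trans ?_)
      rw [sum_const, Nat.card_Icc, nsmul_eq_mul, mul_one, Nat.add_sub_cancel]
    have h4 : (y : ℝ) ≤ c := by exact_mod_cast hcy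
    have h5 : 0 ≤ ε / 2 * N := by positivity
    linarith
  have hN' : a₀ * (y - c) + b ≤ a₀ * (V + 1) * N + 0 := by
    obtain ⟨z, rfl⟩ := Nat.exists_eq_add_of_le hcy.le
    rw [Nat.add_sub_cancel_left]
    have h3 : ((a₀ * z + b : ℕ) : ℤ) = a₀ * (c + z : ℕ) + w' := by
      push_cast
      rw [hb]
      ring
    have h4 : a₀ * (c + z) ≤ a₀ * (V * N) := Nat.mul_le_mul_left _ hy
    have h5 : c ≤ a₀ * N := hNc.trans (Nat.le_mul_of_pos_left N ha)
    have h6 : a₀ * (V + 1) * N + 0 = a₀ * (V * N) + a₀ * N := by ring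
    rw [h6]
    have h7 : ((a₀ * z + b : ℕ) : ℤ) = ((a₀ * (c + z) : ℕ) : ℤ) + w' := by
      rw [h3]; push_cast; ring
    omega
  have h3 := ap_bound (fun m => ((lam m * lam (m + d) : ℝ) : ℂ)) (a₀ * (V + 1) * N + 0)
    (ε / (4 * (a₀ * (V + 1))) * ((a₀ * (V + 1) * N + 0 : ℕ) : ℝ))
    (fun α y hy => hN₀ _ (hN0.trans (by
      rw [add_zero]
      exact Nat.le_mul_of_pos_left N (Nat.mul_pos ha (Nat.succ_pos V)))) hNE α y hy) a₀ b 0 (y - c) ha
    (Nat.zero_le _) hN' 0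
  have h4 : ε / (4 * (a₀ * (V + 1))) * ((a₀ * (V + 1) * N + 0 : ℕ) : ℝ) = ε / 4 * N := by
    push_cast
    field_simp
    ring
  have h5 : ∑ n ∈ Ioc 0 (y - c), ((lam (a₀ * n + b) * lam (a₀ * n + b + d) : ℝ) : ℂ) * e (0 * n) =
      ((∑ n ∈ Ioc c y, x n : ℝ) : ℂ) := by
    have h6 : Ioc c y = (Ioc 0 (y - c)).map (addRightEmbedding c) := by
      rw [map_add_right_Ioc, zero_add, Nat.sub_add_cancel hcy.le]
    rw [h6, sum_map, Complex.ofReal_sum]
    refine sum_congr rfl fun n hn => ?_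
    rw [zero_mul, e_zero, mul_one, hx]
    have h7 : (a₀ : ℤ) * ((addRightEmbedding c n : ℕ) : ℤ) + w' = ((a₀ * n + b : ℕ) : ℤ) := by
      rw [addRightEmbedding_apply]
      push_cast
      rw [hb]
      ring
    have hn1 : 1 ≤ n := (mem_Ioc.1 hn).1
    have h8 : 1 ≤ a₀ * n := Nat.mul_pos ha hn1
    rw [h7, hl_nat (by omega), show ((a₀ * n + b : ℕ) : ℤ) + (d : ℤ) = ((a₀ * n + b + d : ℕ) : ℤ) by push_cast; ring,
      hl_nat (by omega)]
  rw [h4] at h3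
  rw [h5, Complex.norm_real, Real.norm_eq_abs] at h3
  have h6 : ∑ n ∈ Icc 1 y, x n = ∑ n ∈ Icc 1 c, x n + ∑ n ∈ Ioc c y, x n := by
    have h7 : Icc 1 y = Icc 1 c ∪ Ioc c y := by
      ext n
      simp only [mem_Icc, mem_union, mem_Ioc]
      omega
    rw [h7, sum_union]
    rw [disjoint_left]
    intro n hn hn'
    rw [mem_Icc] at hn
    rw [mem_Ioc] at hn'
    omega
  have h7 : |∑ n ∈ Icc 1 c, x n| ≤ c := by
    refine (abs_sum_le_sum_abs _ _).trans ((sum_le_sum fun n _ => hx1 n).trans ?_)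
    rw [sum_const, Nat.card_Icc, nsmul_eq_mul, mul_one, Nat.add_sub_cancel]
  rw [h6]
  have h8 := abs_add_le (∑ n ∈ Icc 1 c, x n) (∑ n ∈ Ioc c y, x n)
  linarith

end Pool.Agent.H569.SS
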