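import Pool.Agent.H569.SS5
import Pool.Graph.R_seed8.Y958.U.Diag

/-!
# Chowla products at sumsets: averages over the windows of a progression
-/

set_option autoImplicit false

open Finset Filter

namespace Pool.Agent.H569.SS

open Pool.Agent.Y958.U (LZ LZ_iff ls ls_nonneg LZ_sub LZ_union LZ_fin)
open Pool.Agent.X23.CS (lam lam_pm)

theorem sum_div (g : ℕ → ℝ) (Q : ℕ) (hQ : 1 ≤ Q) (Y : ℕ) :
    ∑ N ∈ range (Q * Y), g (N / Q) = Q * ∑ t ∈ range Y, g t := by
  induction Y with
  | zero => simp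
  | succ Y ih =>
    rw [Nat.mul_succ, sum_range_add, ih, sum_range_succ, mul_add]
    congr 1
    rw [sum_congr rfl (g := fun _ => g Y) fun x hx => ?_, sum_const, card_range, nsmul_eq_mul]
    rw [Nat.mul_add_div (by omega), Nat.div_eq_of_lt (mem_range.1 hx), add_zero]

/-- pull back along `N ↦ N / Q` -/
theorem LZ_div (E : Set ℕ) (Q : ℕ) (hQ : 1 ≤ Q) (h : LZ E) : LZ {N | N / Q ∈ E} := by
  classical
  rw [LZ_iff] at *
  intro ε hε
  obtain ⟨X₀, hX₀⟩ := h (ε / 2) (by positivity)
  obtain ⟨X₁, hX₁⟩ := exists_nat_ge (Real.exp (2 * Q / ε))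
  refine ⟨max X₀ X₁, fun X hX => ?_⟩
  have hQ0 : (0 : ℝ) < Q := by exact_mod_cast hQ
  have key : ls {N | N / Q ∈ E} X ≤ Q + ls E X := by
    unfold ls
    have h1 : ∀ N ∈ Icc 1 X, (if N ∈ {N | N / Q ∈ E} then (1 : ℝ) / N else 0) ≤
        (if N < Q then 1 else 0) + (if N / Q ∈ E ∧ 1 ≤ N / Q then 1 / ((Q : ℝ) * ((N / Q : ℕ) : ℝ)) else 0) := by
      intro N hN
      have hN1 : 1 ≤ N := (mem_Icc.1 hN).1
      have hNr : (1 : ℝ) ≤ N := by exact_mod_cast hN1
      by_cases h2 : N ∈ {N | N / Q ∈ E}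
      · rw [if_pos h2]
        by_cases h3 : N < Q
        · rw [if_pos h3]
          have h4 : (1 : ℝ) / N ≤ 1 := by
            rw [div_le_one (by linarith)]
            exact hNr
          have h5 : (0 : ℝ) ≤ (if N / Q ∈ E ∧ 1 ≤ N / Q then 1 / ((Q : ℝ) * ((N / Q : ℕ) : ℝ)) else 0) := by
            split_ifs <;> positivity
          linarith
        · have h4 : 1 ≤ N / Q := Nat.div_pos (by omega) (by omega)
          rw [if_neg h3, if_pos ⟨h2, h4⟩, zero_add]
          have h5 : (Q : ℝ) * ((N / Q : ℕ) : ℝ) ≤ N := by exact_mod_cast Nat.mul_div_le N Q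
          have h6 : (0 : ℝ) < ((N / Q : ℕ) : ℝ) := by exact_mod_cast h4
          exact one_div_le_one_div_of_le (by positivity) h5
      · rw [if_neg h2]
        refine add_nonneg (by split_ifs <;> norm_num) (by split_ifs <;> positivity)
    refine (sum_le_sum h1).trans ?_
    rw [sum_add_distrib]
    refine add_le_add ?_ ?_
    · rw [← sum_filter, sum_const, nsmul_eq_mul, mul_one]
      have h2 : (Icc 1 X).filter (fun N => N < Q) ⊆ range Q := by
        intro N hN
        exact mem_range.2 (mem_filter.1 hN).2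
      have h3 := card_le_card h2
      rw [card_range] at h3
      exact_mod_cast h3
    · obtain ⟨g, hg⟩ : ∃ g : ℕ → ℝ, ∀ t, g t = if t ∈ E ∧ 1 ≤ t then 1 / ((Q : ℝ) * (t : ℝ)) else 0 := ⟨_, fun _ => rfl⟩
      have h2 : ∑ N ∈ Icc 1 X, (if N / Q ∈ E ∧ 1 ≤ N / Q then 1 / ((Q : ℝ) * ((N / Q : ℕ) : ℝ)) else 0) =
          ∑ N ∈ Icc 1 X, g (N / Q) := sum_congr rfl fun N _ => by rw [hg]
      have hg0 : ∀ t, 0 ≤ g t := by
        intro t
        rw [hg]
        split_ifs <;> positivity
      rw [h2]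
      calc ∑ N ∈ Icc 1 X, g (N / Q) ≤ ∑ N ∈ range (Q * (X + 1)), g (N / Q) := by
            refine sum_le_sum_of_subset_of_nonneg ?_ fun _ _ _ => hg0 _
            intro N hN
            rw [mem_Icc] at hN
            rw [mem_range]
            have : X + 1 ≤ Q * (X + 1) := Nat.le_mul_of_pos_left _ hQ
            omega
        _ = Q * ∑ t ∈ range (X + 1), g t := sum_div g Q hQ (X + 1)
        _ = ∑ t ∈ range (X + 1), if t ∈ E ∧ 1 ≤ t then 1 / (t : ℝ) else 0 := by
            rw [mul_sum]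
            refine sum_congr rfl fun t _ => ?_
            rw [hg]
            split_ifs with h3
            · field_simp
            · rw [mul_zero]
        _ = ∑ t ∈ Icc 1 X, if t ∈ E ∧ 1 ≤ t then 1 / (t : ℝ) else 0 := by
            symm
            apply sum_subset
            · intro t ht
              rw [mem_Icc] at ht
              rw [mem_range]
              omega
            · intro t ht ht'
              rw [if_neg]
              rintro ⟨-, h3⟩
              apply ht'
              rw [mem_range] at ht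
              rw [mem_Icc]
              omega
        _ ≤ ∑ t ∈ Icc 1 X, if t ∈ E then 1 / (t : ℝ) else 0 := by
            refine sum_le_sum fun t _ => ?_
            by_cases h3 : t ∈ E
            · rw [if_pos h3]
              split_ifs
              · exact le_rfl
              · positivity
            · rw [if_neg (fun h => h3 h.1), if_neg h3]
  have h1 := hX₀ X (le_trans (le_max_left _ _) hX)
  have h2 : 2 * (Q : ℝ) / ε ≤ Real.log X := by
    have h3 : Real.exp (2 * Q / ε) ≤ X := hX₁.trans (by exact_mod_cast le_trans (le_max_right _ _) hX)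
    rw [Real.le_log_iff_exp_le (lt_of_lt_of_le (Real.exp_pos _) h3)]
    exact h3
  have h3 : (Q : ℝ) ≤ ε / 2 * Real.log X := by
    rw [div_le_iff₀ hε] at h2
    linarith
  linarith

/-- the product of the values -/
noncomputable def FF {k : ℕ} (a b : Fin k → ℕ) (n : ℕ) : ℝ := ∏ i, lam (a i * n + b i)

theorem FF_pm {k : ℕ} (a b : Fin k → ℕ) (n : ℕ) : FF a b n = 1 ∨ FF a b n = -1 :=
  prod_pm _ _ fun _ _ => lam_pm _

theorem FF_abs {k : ℕ} (a b : Fin k → ℕ) (n : ℕ) : |FF a b n| = 1 := by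
  rcases FF_pm a b n with h | h <;> rw [h] <;> norm_num

theorem FF_eq {k : ℕ} (a b : Fin k → ℕ) (ha : ∀ i, 1 ≤ a i) (Q r t : ℕ) (hQ : 1 ≤ Q) (ht : 1 ≤ t) :
    FF a b (Q * t + r) = Pn hl (fun i => ((a i * Q : ℕ) : ℤ)) (fun i => ((a i * r + b i : ℕ) : ℤ)) 1 (t : ℤ) := by
  unfold FF Pn
  refine prod_congr rfl fun i _ => ?_
  have h1 : (((a i * Q : ℕ) : ℤ)) * (t : ℤ) + 1 * ((a i * r + b i : ℕ) : ℤ) = ((a i * (Q * t + r) + b i : ℕ) : ℤ) := by
    push_cast
    ring
  rw [h1, hl_nat]
  have h2 : 1 ≤ a i * (Q * t + r) := Nat.mul_pos (ha i) (by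
    have := Nat.mul_pos hQ ht
    omega)
  omega

end Pool.Agent.H569.SS
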