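import Pool.Agent.H569.SS6

/-!
# Chowla products at sumsets: averages over the windows of a progression
-/

set_option autoImplicit false

open Finset Filter

namespace Pool.Agent.H569.SS

open Pool.Agent.Y958.U (LZ LZ_iff ls ls_nonneg LZ_sub LZ_union LZ_fin LZ_bdd)
open Pool.Agent.X23.CS (lam lam_pm)

/-- the bad scales for a progression and a window of the grid -/
def Eb {k : ℕ} (a b : Fin (k + 2) → ℕ) (Q J : ℕ) (ε : ℝ) (z : ℕ × ℕ × ℕ) : Set ℕ :=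
  {M : ℕ | z.2.1 < z.2.2 ∧ (1 - 1 / 2 ^ (k + 1) + ε) * (((z.2.2 : ℝ) - z.2.1) / J) * M <
      |W hl (fun i => ((a i * Q : ℕ) : ℤ)) (fun i => ((a i * z.1 + b i : ℕ) : ℤ)) 1 (z.2.2 * M / J) -
        W hl (fun i => ((a i * Q : ℕ) : ℤ)) (fun i => ((a i * z.1 + b i : ℕ) : ℤ)) 1 (z.2.1 * M / J)|}

theorem Eb_LZ {k : ℕ} (a b : Fin (k + 2) → ℕ) (ha : ∀ j, 1 ≤ a j) (hab : ∀ i j, i ≠ j → a i * b j ≠ a j * b i)
    (Q J : ℕ) (hQ : 1 ≤ Q) (hJ : 1 ≤ J) (ε : ℝ) (hε : 0 < ε) (z : ℕ × ℕ × ℕ) : LZ (Eb a b Q J ε z) := by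
  by_cases hz : z.2.1 < z.2.2
  · refine LZ_sub ?_ (partA hl (fun _ => -1) hl_sgn k (fun i => ((a i * Q : ℕ) : ℤ))
      (fun i => ((a i * z.1 + b i : ℕ) : ℤ)) ?_ ?_ (two_lam _ (Nat.mul_pos (ha 0) hQ)) z.2.1 z.2.2 J hz hJ ε hε)
    · rintro M ⟨-, hM⟩
      exact hM
    · intro j
      have := Nat.mul_pos (ha j) hQ
      omega
    · intro j hj h
      have h1 := hab j 0 hj
      apply h1
      have h2 : (a j * Q) * (a 0 * z.1 + b 0) = (a 0 * Q) * (a j * z.1 + b j) := by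
        exact_mod_cast h
      have h3 : Q * (a j * b 0) = Q * (a 0 * b j) := by nlinarith
      exact Nat.eq_of_mul_eq_mul_left hQ h3
  · refine LZ_sub (F := ∅) ?_ Pool.Agent.Y958.U.LZ_empty
    rintro M ⟨h, -⟩
    exact absurd h hz

/-- the sum of the products over a window of a progression is covered by the grid -/
theorem win_det {k : ℕ} (a b : Fin (k + 2) → ℕ) (ha : ∀ j, 1 ≤ a j) (Q K B : ℕ) (hQ : 1 ≤ Q) (hK : 1 ≤ K)
    (ε : ℝ) (hε : 0 < ε) (hε1 : ε ≤ 1) (hB : 48 ≤ ε * B) (M : ℕ) (hM0 : 1 ≤ M) (hM : 4 ≤ ε * ((M / K : ℕ) : ℝ))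
    (r : ℕ) (h : ∀ u ≤ K * B, ∀ v ≤ 2 * (K * B) + 1, M ∉ Eb a b Q (K * B) (ε / 4) (r, u, v))
    (t₀ : ℕ) (ht₀ : t₀ ≤ M) :
    |∑ t ∈ Ioc t₀ (t₀ + M / K), FF a b (Q * t + r)| ≤ (1 - 1 / 2 ^ (k + 1) + ε) * ((M / K : ℕ) : ℝ) := by
  obtain ⟨L, hL⟩ : ∃ L : ℕ, L = M / K := ⟨_, rfl⟩
  rw [← hL] at hM ⊢
  have hB0 : 1 ≤ B := by
    by_contra h1
    have : B = 0 := by omega
    rw [this] at hB
    norm_num at hB
  obtain ⟨J, hJ⟩ : ∃ J : ℕ, J = K * B := ⟨_, rfl⟩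
  have hJ1 : 1 ≤ J := by rw [hJ]; exact Nat.mul_pos hK hB0
  rw [← hJ] at h
  have hLM : L ≤ M := by rw [hL]; exact Nat.div_le_self _ _
  obtain ⟨u, hu⟩ : ∃ u : ℕ, u = t₀ * J / M := ⟨_, rfl⟩
  obtain ⟨v, hv⟩ : ∃ v : ℕ, v = (t₀ + L) * J / M + 1 := ⟨_, rfl⟩
  have huM : u * M ≤ t₀ * J := by rw [hu]; exact Nat.div_mul_le_self _ _
  have huM' : t₀ * J < M * (u + 1) := by rw [hu]; exact Nat.lt_mul_div_succ _ hM0
  have hvM : (t₀ + L) * J < M * v := by rw [hv]; exact Nat.lt_mul_div_succ _ hM0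
  have hvM' : (v - 1) * M ≤ (t₀ + L) * J := by rw [hv, Nat.add_sub_cancel]; exact Nat.div_mul_le_self _ _
  have huJ : u ≤ J := by
    rw [hu]
    refine Nat.div_le_of_le_mul ?_
    exact Nat.mul_le_mul_right J ht₀
  have hvJ : v ≤ 2 * J + 1 := by
    rw [hv]
    refine Nat.succ_le_succ (Nat.div_le_of_le_mul ?_)
    calc (t₀ + L) * J ≤ (2 * M) * J := Nat.mul_le_mul_right J (by omega)
      _ = M * (2 * J) := by ring
  have huv : u < v := by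
    rw [hu, hv]
    refine Nat.lt_succ_of_le (Nat.div_le_div_right (Nat.mul_le_mul_right J (by omega)))
  have hbad := h u huJ v hvJ
  have hle : |W hl (fun i => ((a i * Q : ℕ) : ℤ)) (fun i => ((a i * r + b i : ℕ) : ℤ)) 1 (v * M / J) -
      W hl (fun i => ((a i * Q : ℕ) : ℤ)) (fun i => ((a i * r + b i : ℕ) : ℤ)) 1 (u * M / J)| ≤
      (1 - 1 / 2 ^ (k + 1) + ε / 4) * (((v : ℝ) - u) / J) * M := by
    by_contra hcon
    rw [not_le] at hcon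
    exact hbad ⟨huv, hcon⟩
  obtain ⟨B₀, hB₀⟩ : ∃ B₀ : ℕ, B₀ = u * M / J := ⟨_, rfl⟩
  obtain ⟨B₁, hB₁⟩ : ∃ B₁ : ℕ, B₁ = v * M / J := ⟨_, rfl⟩
  rw [← hB₀, ← hB₁] at hle
  have h1 : B₀ ≤ t₀ := by
    rw [hB₀]
    refine Nat.div_le_of_le_mul ?_
    rw [mul_comm J]
    exact huM
  have h2 : t₀ + L ≤ B₁ := by
    rw [hB₁, Nat.le_div_iff_mul_le hJ1, mul_comm v]
    exact hvM.le
  have h3 : B₀ ≤ B₁ := by omega
  rw [W_sub _ _ _ h3] at hle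
  have h4 : ∑ n ∈ Ioc B₀ B₁, Pn hl (fun i => ((a i * Q : ℕ) : ℤ)) (fun i => ((a i * r + b i : ℕ) : ℤ)) 1 (n : ℤ) =
      ∑ n ∈ Ioc B₀ B₁, FF a b (Q * n + r) := by
    refine sum_congr rfl fun n hn => ?_
    rw [FF_eq a b ha Q r n hQ (by have := (mem_Ioc.1 hn).1; omega)]
  rw [h4] at hle
  have h5 : ∑ n ∈ Ioc B₀ B₁, FF a b (Q * n + r) = ∑ n ∈ Ioc B₀ t₀, FF a b (Q * n + r) +
      ∑ n ∈ Ioc t₀ (t₀ + L), FF a b (Q * n + r) + ∑ n ∈ Ioc (t₀ + L) B₁, FF a b (Q * n + r) := by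
    rw [sum_Ioc_consecutive _ h1 (by omega), sum_Ioc_consecutive _ (by omega) h2]
  have hb : ∀ x y : ℕ, x ≤ y → |∑ n ∈ Ioc x y, FF a b (Q * n + r)| ≤ (y : ℝ) - x := by
    intro x y hxy
    refine (abs_sum_le_sum_abs _ _).trans ?_
    rw [sum_congr rfl fun n _ => FF_abs a b (Q * n + r), sum_const, Nat.card_Ioc, nsmul_eq_mul, mul_one,
      Nat.cast_sub hxy]
  have h6 := hb B₀ t₀ h1
  have h7 := hb (t₀ + L) B₁ h2
  -- the real inequalities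
  have hMr : (0 : ℝ) < M := by exact_mod_cast hM0
  have hJr : (0 : ℝ) < J := by exact_mod_cast hJ1
  have hLr : (0 : ℝ) ≤ L := Nat.cast_nonneg L
  have g1 : (B₁ : ℝ) ≤ v * M / J := by
    rw [hB₁]
    have := Nat.cast_div_le (α := ℝ) (m := v * M) (n := J)
    push_cast at this
    exact this
  have g2 : (u : ℝ) * M / J - 1 ≤ B₀ := by
    rw [hB₀]
    have h8 : u * M < J * (u * M / J + 1) := Nat.lt_mul_div_succ _ hJ1
    have h9 : (u : ℝ) * M < J * (((u * M / J : ℕ) : ℝ) + 1) := by exact_mod_cast h8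
    rw [sub_le_iff_le_add, div_le_iff₀ hJr]
    linarith
  have g3 : ((v : ℝ) - u) * M / J ≤ L + 2 * (M / J) := by
    have h8 : ((v : ℝ) - 1) * M ≤ ((t₀ : ℝ) + L) * J := by
      have h9 : (((v - 1) * M : ℕ) : ℝ) ≤ (((t₀ + L) * J : ℕ) : ℝ) := by exact_mod_cast hvM'
      push_cast at h9
      rw [Nat.cast_sub (by omega)] at h9
      push_cast at h9
      exact h9
    have h9 : (t₀ : ℝ) * J < M * (u + 1) := by exact_mod_cast huM'
    rw [div_le_iff₀ hJr, add_mul, mul_assoc 2, div_mul_cancel₀ _ hJr.ne']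
    nlinarith
  have g4 : (M : ℝ) / J ≤ ε / 24 * L := by
    have h8 : M < K * (L + 1) := by rw [hL]; exact Nat.lt_mul_div_succ _ hK
    have h9 : (M : ℝ) < K * (L + 1) := by exact_mod_cast h8
    have hKr : (0 : ℝ) < K := by exact_mod_cast hK
    have hL1 : (1 : ℝ) ≤ L := by
      have h10 : L ≠ 0 := by
        intro h11
        rw [h11] at hM
        norm_num at hM
      exact_mod_cast Nat.one_le_iff_ne_zero.2 h10
    have hBr : (0 : ℝ) < B := by exact_mod_cast hB0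
    rw [div_le_iff₀ hJr, hJ]
    push_cast
    have h10 : (M : ℝ) ≤ 2 * K * L := by nlinarith
    have h11 : 2 * K * L ≤ ε / 24 * L * (K * B) := by
      have h12 : (K : ℝ) * L * 48 ≤ K * L * (ε * B) := mul_le_mul_of_nonneg_left hB (by positivity)
      linarith
    linarith
  have g5 : (0 : ℝ) ≤ 1 / 2 ^ (k + 1) := by positivity
  have g6 : (1 : ℝ) / 2 ^ (k + 1) ≤ 1 := by
    rw [div_le_one (by positivity)]
    exact one_le_pow₀ (by norm_num)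
  obtain ⟨ρ, hρ⟩ : ∃ ρ : ℝ, ρ = 1 - 1 / 2 ^ (k + 1) := ⟨_, rfl⟩
  rw [← hρ] at hle ⊢
  have hρ0 : 0 ≤ ρ := by rw [hρ]; linarith
  have hρ1 : ρ ≤ 1 := by rw [hρ]; linarith
  have g7 : (ρ + ε / 4) * (((v : ℝ) - u) / J) * M ≤ (ρ + ε / 4) * (L + 2 * (M / J)) := by
    rw [mul_assoc]
    refine mul_le_mul_of_nonneg_left ?_ (by linarith)
    calc ((v : ℝ) - u) / J * M = ((v : ℝ) - u) * M / J := by ring
      _ ≤ _ := g3
  have g8 : (ρ + ε / 4) * (L + 2 * (M / J)) ≤ (ρ + ε / 4) * L + 4 * (M / J) := by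
    have h8 : (0 : ℝ) ≤ M / J := by positivity
    nlinarith
  have g9 : (B₁ : ℝ) - B₀ ≤ L + 2 * (M / J) + 1 := by
    have h8 : (v : ℝ) * M / J - u * M / J = ((v : ℝ) - u) * M / J := by ring
    linarith
  have g10 : |∑ t ∈ Ioc t₀ (t₀ + L), FF a b (Q * t + r)| ≤
      |∑ n ∈ Ioc B₀ B₁, FF a b (Q * n + r)| + (((t₀ : ℝ) - B₀) + ((B₁ : ℝ) - ((t₀ + L : ℕ) : ℝ))) := by
    have h8 : ∑ n ∈ Ioc t₀ (t₀ + L), FF a b (Q * n + r) = ∑ n ∈ Ioc B₀ B₁, FF a b (Q * n + r) -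
        (∑ n ∈ Ioc B₀ t₀, FF a b (Q * n + r) + ∑ n ∈ Ioc (t₀ + L) B₁, FF a b (Q * n + r)) := by
      rw [h5]; ring
    rw [h8]
    refine (abs_sub _ _).trans ?_
    have h9 := abs_add_le (∑ n ∈ Ioc B₀ t₀, FF a b (Q * n + r)) (∑ n ∈ Ioc (t₀ + L) B₁, FF a b (Q * n + r))
    linarith
  push_cast at g10
  have g11 : (1 : ℝ) ≤ ε / 4 * L := by linarith
  nlinarith

open Classical in
/-- **the averages over the windows of all progressions modulo `Q`** -/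
theorem win {k : ℕ} (a b : Fin (k + 2) → ℕ) (ha : ∀ j, 1 ≤ a j) (hab : ∀ i j, i ≠ j → a i * b j ≠ a j * b i)
    (Q K : ℕ) (hQ : 1 ≤ Q) (hK : 1 ≤ K) (ε : ℝ) (hε : 0 < ε) (hε1 : ε ≤ 1) :
    LZ {N : ℕ | ∃ n : ℕ, n ≤ N ∧ (1 - 1 / 2 ^ (k + 1) + ε) * ((N / Q / K : ℕ) : ℝ) <
      |∑ j ∈ Icc 1 (N / Q / K), FF a b (n + Q * j)|} := by
  obtain ⟨B, hB⟩ := exists_nat_ge (48 / ε)
  rw [div_le_iff₀ hε, mul_comm] at hB
  obtain ⟨L₀, hL₀⟩ := exists_nat_ge (4 / ε)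
  rw [div_le_iff₀ hε, mul_comm] at hL₀
  have hfin : LZ {M : ℕ | ∃ z ∈ range Q ×ˢ (range (K * B + 1) ×ˢ range (2 * (K * B) + 2)),
      M ∈ Eb a b Q (K * B) (ε / 4) z} := by
    refine LZ_fin _ _ fun z _ => ?_
    rcases Nat.eq_zero_or_pos B with h0 | h0
    · exfalso
      rw [h0] at hB
      norm_num at hB
    · exact Eb_LZ a b ha hab Q (K * B) hQ (Nat.mul_pos hK h0) (ε / 4) (by positivity) z
  refine LZ_sub ?_ (LZ_union (LZ_div _ Q hQ hfin) (LZ_bdd {N : ℕ | N < Q * (K * (L₀ + 1))} _ fun _ h => h))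
  rintro N ⟨n, hn, hN⟩
  by_contra hcon
  rw [Set.mem_union, not_or] at hcon
  obtain ⟨hc1, hc2⟩ := hcon
  have hNbig : Q * (K * (L₀ + 1)) ≤ N := by
    by_contra h1
    exact hc2 (by
      show N < _
      omega)
  obtain ⟨M, hM⟩ : ∃ M : ℕ, M = N / Q := ⟨_, rfl⟩
  have hMbig : K * (L₀ + 1) ≤ M := by
    rw [hM, Nat.le_div_iff_mul_le hQ, mul_comm]
    exact hNbig
  have hL : L₀ + 1 ≤ M / K := by
    rw [Nat.le_div_iff_mul_le hK, mul_comm]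
    exact hMbig
  have hM1 : 1 ≤ M := le_trans (Nat.mul_pos hK (Nat.succ_pos _)) hMbig
  have hME : ∀ z ∈ range Q ×ˢ (range (K * B + 1) ×ˢ range (2 * (K * B) + 2)), M ∉ Eb a b Q (K * B) (ε / 4) z := by
    intro z hz hMz
    exact hc1 ⟨z, hz, by rw [← hM]; exact hMz⟩
  have h4 : 4 ≤ ε * ((M / K : ℕ) : ℝ) := by
    have : (L₀ : ℝ) ≤ ((M / K : ℕ) : ℝ) := by exact_mod_cast (by omega : L₀ ≤ M / K)
    nlinarith
  have h5 := win_det a b ha Q K B hQ hK ε hε hε1 hB M hM1 h4 (n % Q) (fun u hu v hv => hME _ (by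
    rw [mem_product, mem_product, mem_range, mem_range, mem_range]
    exact ⟨Nat.mod_lt _ hQ, by simp only; omega, by simp only; omega⟩)) (n / Q) (by
      rw [hM]; exact Nat.div_le_div_right hn)
  rw [← hM] at hN
  have h6 : ∑ j ∈ Icc 1 (M / K), FF a b (n + Q * j) =
      ∑ t ∈ Ioc (n / Q) (n / Q + M / K), FF a b (Q * t + n % Q) := by
    have h7 : Ioc (n / Q) (n / Q + M / K) = (Icc 1 (M / K)).map (addLeftEmbedding (n / Q)) := by
      rw [map_add_left_Icc]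
      ext x
      rw [mem_Ioc, mem_Icc]
      omega
    rw [h7, sum_map]
    refine sum_congr rfl fun j _ => ?_
    congr 1
    rw [addLeftEmbedding_apply]
    have := Nat.div_add_mod n Q
    linarith
  rw [h6] at hN
  linarith

end Pool.Agent.H569.SS
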