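import Mathlib
import Pool.Graph.R_seed8.Y958.U.Diag

/-! From bounds for the dyadic scales below every scale to logarithmic density zero (copied from helper615, `Pool.Agent.H615.VP.Dya`). -/

set_option autoImplicit false

namespace Pool.Agent.H569.SV

open Finset Filter Topology
open Pool.Agent.Y958.U

lemma sum_blocks (q K : ℕ) (g : ℕ → ℝ) :
    ∑ N ∈ range (q * K), g N = ∑ M ∈ range K, ∑ t ∈ range q, g (q * M + t) := by
  induction K with
  | zero => simp
  | succ K ih =>
    rw [sum_range_succ, ← ih, Nat.mul_succ, sum_range_add]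

open Classical in
/-- one dyadic shift of a set -/
lemma shift_ls (B : Set ℕ) (i : ℕ) : ∃ c : ℝ, ∀ X : ℕ,
    ls B X ≤ ∑ N ∈ Icc 1 X, (if N / 2 ^ i ∈ B then (1 : ℝ) / N else 0) + c := by
  set q : ℕ := 2 ^ i with hq
  have hq1 : 1 ≤ q := Nat.one_le_two_pow
  have hq0 : (0 : ℝ) < q := by exact_mod_cast hq1
  refine ⟨3 + 2 * q, fun X => ?_⟩
  -- the part with `q (M + 1) ≤ X`
  set K : ℕ := X / q with hK
  have hKX : q * K ≤ X := Nat.mul_div_le X q
  have hXK : X < q * (K + 1) := Nat.lt_mul_div_succ X (by omega)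
  -- lower bound for the sum on the right
  have h1 : ∑ M ∈ range K, (if M ∈ B ∧ 1 ≤ M then (1 : ℝ) / (M + 1) else 0) ≤
      ∑ N ∈ Icc 1 X, (if N / q ∈ B then (1 : ℝ) / N else 0) := by
    have h2 : ∑ M ∈ range K, (if M ∈ B ∧ 1 ≤ M then (1 : ℝ) / (M + 1) else 0) ≤
        ∑ M ∈ range K, ∑ t ∈ range q, (if (q * M + t) / q ∈ B ∧ 1 ≤ q * M + t then (1 : ℝ) / (q * M + t : ℕ) else 0) := by
      apply sum_le_sum
      intro M _
      by_cases hM : M ∈ B ∧ 1 ≤ M
      · rw [if_pos hM]
        have h3 : ∀ t ∈ range q, (1 : ℝ) / (q * (M + 1)) ≤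
            (if (q * M + t) / q ∈ B ∧ 1 ≤ q * M + t then (1 : ℝ) / (q * M + t : ℕ) else 0) := by
          intro t ht
          rw [mem_range] at ht
          have h4 : (q * M + t) / q = M := by
            rw [Nat.mul_add_div (by omega), Nat.div_eq_of_lt ht, add_zero]
          have h5 : 1 ≤ q * M + t := by
            have := Nat.mul_le_mul hq1 hM.2
            omega
          rw [h4, if_pos ⟨hM.1, h5⟩]
          apply one_div_le_one_div_of_le
          · exact_mod_cast h5
          · have : ((q * M + t : ℕ) : ℝ) ≤ ((q * (M + 1) : ℕ) : ℝ) := by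
              apply Nat.cast_le.2
              rw [Nat.mul_succ]
              omega
            push_cast at this ⊢
            exact this
        calc (1 : ℝ) / (M + 1) = ∑ t ∈ range q, (1 : ℝ) / (q * (M + 1)) := by
              rw [sum_const, card_range, nsmul_eq_mul]
              field_simp
          _ ≤ _ := sum_le_sum h3
      · rw [if_neg hM]
        exact sum_nonneg fun t _ => by split_ifs <;> positivity
    refine h2.trans ?_
    rw [← sum_blocks q K (fun N => if N / q ∈ B ∧ 1 ≤ N then (1 : ℝ) / N else 0)]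
    have h6 : ∑ N ∈ Icc 1 X, (if N / q ∈ B then (1 : ℝ) / N else 0) =
        ∑ N ∈ range (X + 1), (if N / q ∈ B ∧ 1 ≤ N then (1 : ℝ) / N else 0) := by
      have h7 : Icc 1 X = (range (X + 1)).filter (fun N => 1 ≤ N) := by
        ext N
        simp only [mem_Icc, mem_filter, mem_range]
        omega
      rw [h7, sum_filter]
      apply sum_congr rfl
      intro N _
      by_cases hN : 1 ≤ N
      · simp [hN]
      · simp [hN]
    rw [h6]
    apply sum_le_sum_of_subset_of_nonneg
    · intro N hN
      rw [mem_range] at hN ⊢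
      omega
    · intro N _ _
      split_ifs <;> positivity
  -- upper bound for the left side
  have h8 : ls B X ≤ ∑ M ∈ range K, (if M ∈ B ∧ 1 ≤ M then (1 : ℝ) / (M + 1) else 0) + (3 + 2 * q) := by
    have h9 : ls B X ≤ ∑ M ∈ Icc 1 X, ((if M ∈ B ∧ M < K then (1 : ℝ) / (M + 1) else 0) +
        (1 / (M : ℝ) - 1 / ((M : ℝ) + 1)) + (if K ≤ M then (1 : ℝ) / M else 0)) := by
      unfold ls
      apply sum_le_sum
      intro M hM
      rw [mem_Icc] at hM
      have hM0 : (0 : ℝ) < M := by exact_mod_cast hM.1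
      have e1 : 1 / ((M : ℝ) + 1) ≤ 1 / M := one_div_le_one_div_of_le hM0 (by linarith)
      have e2 : (0 : ℝ) < 1 / ((M : ℝ) + 1) := by positivity
      by_cases h1' : M ∈ B
      · rw [if_pos h1']
        by_cases h2' : M < K
        · rw [if_pos ⟨h1', h2'⟩, if_neg (by omega)]
          linarith
        · rw [if_neg (by tauto), if_pos (by omega)]
          linarith
      · rw [if_neg h1', if_neg (by tauto)]
        split_ifs <;> linarith
    rw [sum_add_distrib, sum_add_distrib] at h9
    have h10 : ∑ M ∈ Icc 1 X, (1 / (M : ℝ) - 1 / ((M : ℝ) + 1)) ≤ 1 := by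
      have h11 : ∀ Y : ℕ, ∑ M ∈ Icc 1 Y, (1 / (M : ℝ) - 1 / ((M : ℝ) + 1)) = 1 - 1 / ((Y : ℝ) + 1) := by
        intro Y
        induction Y with
        | zero => simp
        | succ Y ih =>
          rw [sum_Icc_succ_top (by omega), ih]
          push_cast
          ring
      rw [h11]
      have : (0 : ℝ) < 1 / ((X : ℝ) + 1) := by positivity
      linarith
    have h12 : ∑ M ∈ Icc 1 X, (if K ≤ M then (1 : ℝ) / M else 0) ≤ 2 * q + 2 := by
      rw [← sum_filter]
      by_cases hK0 : K = 0
      · -- `X < q`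
        have hXq : X < q := by rw [hK0] at hXK; omega
        calc ∑ M ∈ (Icc 1 X).filter (fun M => K ≤ M), (1 : ℝ) / M ≤
              ∑ M ∈ (Icc 1 X).filter (fun M => K ≤ M), (1 : ℝ) := by
              apply sum_le_sum
              intro M hM
              rw [mem_filter, mem_Icc] at hM
              rw [div_le_one (by exact_mod_cast hM.1.1)]
              exact_mod_cast hM.1.1
          _ = (((Icc 1 X).filter (fun M => K ≤ M)).card : ℝ) := by simp
          _ ≤ X := by
              have : ((Icc 1 X).filter (fun M => K ≤ M)).card ≤ (Icc 1 X).card := card_filter_le _ _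
              rw [Nat.card_Icc] at this
              exact_mod_cast (by omega : ((Icc 1 X).filter (fun M => K ≤ M)).card ≤ X)
          _ ≤ 2 * q + 2 := by
              have : (X : ℝ) ≤ q := by exact_mod_cast hXq.le
              linarith
      · have hK1 : (0 : ℝ) < K := by exact_mod_cast Nat.pos_of_ne_zero hK0
        calc ∑ M ∈ (Icc 1 X).filter (fun M => K ≤ M), (1 : ℝ) / M ≤
              ∑ M ∈ (Icc 1 X).filter (fun M => K ≤ M), (1 : ℝ) / K := by
              apply sum_le_sum
              intro M hM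
              rw [mem_filter, mem_Icc] at hM
              exact one_div_le_one_div_of_le hK1 (by exact_mod_cast hM.2)
          _ = (((Icc 1 X).filter (fun M => K ≤ M)).card : ℝ) / K := by
              rw [sum_const, nsmul_eq_mul, mul_one_div]
          _ ≤ (X : ℝ) / K := by
              apply div_le_div_of_nonneg_right _ hK1.le
              have : ((Icc 1 X).filter (fun M => K ≤ M)).card ≤ (Icc 1 X).card := card_filter_le _ _
              rw [Nat.card_Icc] at this
              exact_mod_cast (by omega : ((Icc 1 X).filter (fun M => K ≤ M)).card ≤ X)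
          _ ≤ 2 * q := by
              rw [div_le_iff₀ hK1]
              have : (X : ℝ) ≤ ((q * (K + 1) : ℕ) : ℝ) := by exact_mod_cast hXK.le
              push_cast at this
              have hK2 : (1 : ℝ) ≤ K := by exact_mod_cast Nat.one_le_iff_ne_zero.2 hK0
              nlinarith
          _ ≤ 2 * q + 2 := by linarith
    have h13 : ∑ M ∈ Icc 1 X, (if M ∈ B ∧ M < K then (1 : ℝ) / (M + 1) else 0) ≤
        ∑ M ∈ range K, (if M ∈ B ∧ 1 ≤ M then (1 : ℝ) / (M + 1) else 0) := by
      rw [← sum_filter, ← sum_filter]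
      apply sum_le_sum_of_subset_of_nonneg
      · intro M hM
        rw [mem_filter, mem_Icc] at hM
        rw [mem_filter, mem_range]
        exact ⟨hM.2.2, hM.2.1, hM.1.1⟩
      · intro M _ _
        positivity
    linarith
  linarith

open Classical in
/-- bounds for the dyadic scales below every scale give logarithmic density zero -/
theorem LZ_dyadic (B : Set ℕ) (C : ℝ) (h : ∀ J : ℕ, ∃ N₀ : ℕ, ∀ N : ℕ, N₀ ≤ N →
    ∑ i ∈ (Icc 1 J).filter (fun i => N / 2 ^ i ∈ B), 1 / (i : ℝ) ≤ C) : LZ B := by
  have hC0 : 0 ≤ C := by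
    obtain ⟨N₀, h1⟩ := h 0
    have := h1 N₀ le_rfl
    simpa using this
  rw [LZ_iff]
  intro ε hε
  -- choose `J`
  obtain ⟨J, hJ⟩ : ∃ J : ℕ, 2 * (C + 1) / ε ≤ ∑ i ∈ Icc 1 J, 1 / (i : ℝ) := by
    have h1 : Tendsto (fun J : ℕ => ∑ i ∈ range J, (1 : ℝ) / (i + 1 : ℕ)) atTop atTop := by
      have := Real.tendsto_sum_range_one_div_nat_succ_atTop
      refine this.congr fun J => ?_
      apply sum_congr rfl
      intro i _
      push_cast
      rfl
    obtain ⟨J, hJ⟩ := (h1.eventually_ge_atTop (2 * (C + 1) / ε)).exists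
    refine ⟨J, hJ.trans (le_of_eq ?_)⟩
    have : ∀ J : ℕ, ∑ i ∈ range J, (1 : ℝ) / (i + 1 : ℕ) = ∑ i ∈ Icc 1 J, 1 / (i : ℝ) := by
      intro J
      induction J with
      | zero => simp
      | succ J ih => rw [sum_range_succ, ih, sum_Icc_succ_top (by omega)]
    exact this J
  obtain ⟨N₀, hN₀⟩ := h J
  choose c hc using fun i => shift_ls B i
  set H : ℝ := ∑ i ∈ Icc 1 J, 1 / (i : ℝ) with hH
  have hHpos : 0 < H := lt_of_lt_of_le (by positivity) hJ
  set D : ℝ := ∑ i ∈ Icc 1 J, |c i| with hD
  -- the main inequality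
  have key : ∀ X : ℕ, H * ls B X ≤ C * (1 + Real.log X) + H * N₀ + D := by
    intro X
    have h1 : H * ls B X ≤ ∑ i ∈ Icc 1 J, (1 / (i : ℝ)) *
        (∑ N ∈ Icc 1 X, (if N / 2 ^ i ∈ B then (1 : ℝ) / N else 0) + c i) := by
      rw [hH, sum_mul]
      apply sum_le_sum
      intro i _
      exact mul_le_mul_of_nonneg_left (hc i X) (by positivity)
    refine h1.trans ?_
    have h2 : ∑ i ∈ Icc 1 J, (1 / (i : ℝ)) *
        (∑ N ∈ Icc 1 X, (if N / 2 ^ i ∈ B then (1 : ℝ) / N else 0) + c i) =
        ∑ N ∈ Icc 1 X, (1 / (N : ℝ)) * ∑ i ∈ (Icc 1 J).filter (fun i => N / 2 ^ i ∈ B), 1 / (i : ℝ) +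
        ∑ i ∈ Icc 1 J, (1 / (i : ℝ)) * c i := by
      simp_rw [mul_add]
      rw [sum_add_distrib]
      congr 1
      simp_rw [mul_sum]
      rw [sum_comm]
      apply sum_congr rfl
      intro N _
      rw [sum_filter]
      apply sum_congr rfl
      intro i _
      split_ifs
      · ring
      · ring
    rw [h2]
    have h3 : ∑ i ∈ Icc 1 J, (1 / (i : ℝ)) * c i ≤ D := by
      apply sum_le_sum
      intro i hi
      rw [mem_Icc] at hi
      have hi0 : (1 : ℝ) ≤ i := by exact_mod_cast hi.1
      calc (1 / (i : ℝ)) * c i ≤ (1 / (i : ℝ)) * |c i| :=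
            mul_le_mul_of_nonneg_left (le_abs_self _) (by positivity)
        _ ≤ 1 * |c i| := by
            apply mul_le_mul_of_nonneg_right _ (abs_nonneg _)
            rw [div_le_one (by linarith)]
            exact hi0
        _ = |c i| := one_mul _
    have h4 : ∑ N ∈ Icc 1 X, (1 / (N : ℝ)) * ∑ i ∈ (Icc 1 J).filter (fun i => N / 2 ^ i ∈ B), 1 / (i : ℝ) ≤
        ∑ N ∈ Icc 1 X, ((1 / (N : ℝ)) * C + (if N < N₀ then H else 0)) := by
      apply sum_le_sum
      intro N hN
      rw [mem_Icc] at hN
      have hN1 : (1 : ℝ) ≤ N := by exact_mod_cast hN.1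
      by_cases hNN : N < N₀
      · rw [if_pos hNN]
        have e1 : ∑ i ∈ (Icc 1 J).filter (fun i => N / 2 ^ i ∈ B), 1 / (i : ℝ) ≤ H :=
          sum_le_sum_of_subset_of_nonneg (filter_subset _ _) fun i _ _ => by positivity
        have e2 : (1 / (N : ℝ)) * ∑ i ∈ (Icc 1 J).filter (fun i => N / 2 ^ i ∈ B), 1 / (i : ℝ) ≤ 1 * H := by
          apply mul_le_mul _ e1 _ zero_le_one
          · rw [div_le_one (by linarith)]; exact hN1
          · exact sum_nonneg fun i _ => by positivity
        have e3 : 0 ≤ (1 / (N : ℝ)) * C := by positivity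
        linarith
      · rw [if_neg hNN, add_zero]
        exact mul_le_mul_of_nonneg_left (hN₀ N (by omega)) (by positivity)
    have h5 : ∑ N ∈ Icc 1 X, ((1 / (N : ℝ)) * C + (if N < N₀ then H else 0)) ≤
        C * (1 + Real.log X) + H * N₀ := by
      rw [sum_add_distrib, ← sum_mul]
      have e1 : ∑ i ∈ Icc 1 X, (1 : ℝ) / i ≤ 1 + Real.log X := by
        have h8 := harmonic_le_one_add_log X
        have h9 : ∑ i ∈ Icc 1 X, (1 : ℝ) / i = ((harmonic X : ℚ) : ℝ) := by
          rw [harmonic_eq_sum_Icc]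
          push_cast
          apply sum_congr rfl
          intro i _
          rw [one_div]
        rw [h9]
        exact h8
      have e2 : ∑ N ∈ Icc 1 X, (if N < N₀ then H else 0) ≤ H * N₀ := by
        rw [← sum_filter, sum_const, nsmul_eq_mul, mul_comm]
        apply mul_le_mul_of_nonneg_left _ hHpos.le
        have : ((Icc 1 X).filter (fun N => N < N₀)).card ≤ (range N₀).card := by
          apply card_le_card
          intro n hn
          rw [mem_filter] at hn
          exact mem_range.2 hn.2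
        rw [card_range] at this
        exact_mod_cast this
      have e3 := mul_le_mul_of_nonneg_right e1 hC0
      linarith
    linarith
  -- conclusion
  have hlog : Tendsto (fun X : ℕ => Real.log X) atTop atTop :=
    Real.tendsto_log_atTop.comp tendsto_natCast_atTop_atTop
  obtain ⟨X₀, hX₀⟩ := eventually_atTop.1 (hlog.eventually_ge_atTop (C + H * N₀ + D))
  refine ⟨X₀, fun X hX => ?_⟩
  have h1 := key X
  have h2 := hX₀ X hX
  have h3 : H * ls B X ≤ (C + 1) * Real.log X := by linarith
  have hlog0 : 0 ≤ Real.log X := Real.log_natCast_nonneg X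
  rw [div_le_iff₀ hε] at hJ
  have h4 : (C + 1) * Real.log X ≤ H * (ε / 2 * Real.log X) := by nlinarith
  have h5 : H * ls B X ≤ H * (ε / 2 * Real.log X) := h3.trans h4
  have h6 := le_of_mul_le_mul_left h5 hHpos
  nlinarith

end Pool.Agent.H569.SV
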