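import Mathlib
import Pool.Agent.H569.SV1
import Pool.Graph.R_pool_sql_team_seeded_63374d34.N675.FM.Top

/-! Products of an odd number or of two values of the Möbius function relative to a pattern of squares (copied from helper615, `Pool.Agent.H615.VP.A`). -/

set_option autoImplicit false

namespace Pool.Agent.H569.SV

open Finset Filter Topology
open Pool.Agent.Y958.U
open Pool.Agent.N675.FM (sf mob_fm)
open Pool.Agent.N675 (lamA)

/-- the linear form `a j * n + b j` -/
def L {k : ℕ} (a : Fin k → ℕ) (b : Fin k → ℤ) (j : Fin k) (n : ℕ) : ℤ := (a j : ℤ) * n + b j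

open Classical in
/-- the indicator function of the pattern `c` of squares: `L j n` is squarefree if and only if `c j` -/
noncomputable def Q {k : ℕ} (a : Fin k → ℕ) (b : Fin k → ℤ) (c : Fin k → Bool) (n : ℕ) : ℝ :=
  if ∀ j, sf (L a b j n) = c j then 1 else 0

/-- the sum of the products over `T` -/
noncomputable def M {k : ℕ} (a : Fin k → ℕ) (b : Fin k → ℤ) (c : Fin k → Bool) (T : Finset (Fin k)) (N : ℕ) : ℝ :=
  ∑ n ∈ Icc 1 N, (∏ j ∈ T, lamA (L a b j n)) * Q a b c n

lemma Q01 {k : ℕ} (a : Fin k → ℕ) (b : Fin k → ℤ) (c : Fin k → Bool) (n : ℕ) : 0 ≤ Q a b c n ∧ Q a b c n ≤ 1 := by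
  unfold Q
  split_ifs <;> norm_num

theorem A_LZ {k : ℕ} (a : Fin k → ℕ) (b : Fin k → ℤ) (c : Fin k → Bool) (ha : ∀ j, 1 ≤ a j) (T : Finset (Fin k))
    (hT : Odd T.card ∨ (T.card = 2 ∧ ∀ i ∈ T, ∀ j ∈ T, i ≠ j → (a i : ℤ) * b j ≠ a j * b i))
    (ε : ℝ) (hε : 0 < ε) : LZ {N | ε * N < |M a b c T N|} := by
  classical
  set φ : Fin k → Fin 1 → ℤ := fun j _ => (a j : ℤ) with hφ
  have hφ0 : ∀ j, φ j ≠ 0 := by
    intro j h
    have := congrFun h 0
    simp only [hφ, Pi.zero_apply] at this
    have h1 := ha j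
    omega
  have hcl : ∀ i₀, Pool.Agent.N675.FS.cl φ T i₀ = T := by
    intro i₀
    unfold Pool.Agent.N675.FS.cl
    apply filter_true_of_mem
    intro i _ s s'
    rfl
  have hgood : Pool.Agent.N675.FS.GoodE φ b T := by
    have hne : T.Nonempty := by
      rw [← card_pos]
      rcases hT with h | ⟨h, -⟩
      · exact h.pos
      · omega
    rcases hT with h | ⟨h, h2⟩
    · obtain ⟨i₀, hi₀⟩ := hne
      exact ⟨i₀, hi₀, Or.inl (by rw [hcl]; exact h)⟩
    · obtain ⟨x, y, hxy, rfl⟩ := card_eq_two.1 h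
      refine ⟨x, by simp, Or.inr ⟨by rw [hcl]; exact h, y, by rw [hcl]; simp, 0, ?_⟩⟩
      simp only [hφ]
      exact h2 y (by simp) x (by simp) hxy.symm
  obtain ⟨C, hC⟩ := mob_fm φ b hφ0 T hgood 2 ε hε
  refine LZ_dyadic _ C fun J => ?_
  obtain ⟨N₀, hN₀⟩ := hC J
  refine ⟨N₀ + 2 ^ J, fun N hN => le_trans ?_ (hN₀ N ((Nat.le_add_right _ _).trans hN))⟩
  apply sum_le_sum_of_subset_of_nonneg
  · intro i hi
    rw [mem_filter, mem_Icc] at hi
    unfold Pool.Agent.N675.FM.excM
    rw [mem_filter, mem_Icc]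
    refine ⟨hi.1, fun _ => 0, fun _ => N / 2 ^ i, fun g => if ∀ j, g j = c j then 1 else 0, ?_, ?_, ?_⟩
    · intro s
      have h2i : 2 ^ i ≤ 2 ^ J := Nat.pow_le_pow_right (by norm_num) hi.1.2
      have h2pos : 0 < 2 ^ i := by positivity
      have hq1 : 1 ≤ N / 2 ^ i := (Nat.le_div_iff_mul_le h2pos).2 (by omega)
      have h3 : 2 ^ i * (N / 2 ^ i) ≤ N := Nat.mul_div_le N _
      have h4 : N < 2 ^ i * (N / 2 ^ i + 1) := Nat.lt_mul_div_succ N h2pos
      refine ⟨?_, ?_, ?_⟩
      · simp
      · have h5 : 2 ^ i * (N / 2 ^ i + 1) ≤ 2 * 2 ^ i * (N / 2 ^ i) := by nlinarith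
        beta_reduce
        omega
      · beta_reduce
        omega
    · intro g
      beta_reduce
      split_ifs <;> simp
    · have h1 : ε * ((N / 2 ^ i : ℕ) : ℝ) < |M a b c T (N / 2 ^ i)| := hi.2
      have h2 : ∏ s : Fin 1, (((fun _ : Fin 1 => N / 2 ^ i) s : ℕ) : ℝ) = ((N / 2 ^ i : ℕ) : ℝ) := by simp
      rw [h2]
      refine lt_of_lt_of_eq h1 ?_
      congr 1
      unfold M
      symm
      refine sum_nbij' (fun y => (y 0).toNat) (fun n _ => (n : ℤ)) ?_ ?_ ?_ ?_ ?_
      · intro y hy
        unfold Pool.Agent.N675.FM.bx at hy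
        rw [Fintype.mem_piFinset] at hy
        have := hy 0
        rw [mem_Ioc] at this
        beta_reduce at this
        rw [mem_Icc]
        omega
      · intro n hn
        unfold Pool.Agent.N675.FM.bx
        rw [Fintype.mem_piFinset]
        intro s
        rw [mem_Icc] at hn
        rw [mem_Ioc]
        beta_reduce
        omega
      · intro y hy
        unfold Pool.Agent.N675.FM.bx at hy
        rw [Fintype.mem_piFinset] at hy
        have := hy 0
        rw [mem_Ioc] at this
        beta_reduce at this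
        funext s
        rw [Fin.eq_zero s]
        omega
      · intro n _
        simp
      · intro y hy
        unfold Pool.Agent.N675.FM.bx at hy
        rw [Fintype.mem_piFinset] at hy
        have := hy 0
        rw [mem_Ioc] at this
        beta_reduce at this
        have hav : ∀ j, Pool.Agent.N675.FM.av (φ j) (b j) y = L a b j (y 0).toNat := by
          intro j
          unfold Pool.Agent.N675.FM.av L
          simp only [hφ, Fin.sum_univ_one, Fin.isValue]
          congr 2
          omega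
        simp only [hav]
        rfl
  · intro i _ _
    positivity

end Pool.Agent.H569.SV
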