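import Pool.Agent.H569.SV2
import Pool.Agent.H569.SS10

/-! An odd number of values, or two values (the vanishing of the sums at almost all scales is copied from helper615,
`Pool.Agent.H615.SP.A`, a consequence of the library theorem `Pool.Agent.N675.FM.mob_fm`). -/

set_option autoImplicit false

namespace Pool.Agent.H569.SV

open Finset Filter Topology
open Pool.Agent.Y958.U
open Pool.Agent.N675.FM (sf)
open Pool.Agent.H569.SS (FF FL_eq SL_eq Se)

open Classical in
lemma sumQ {k : ℕ} (a : Fin k → ℕ) (b : Fin k → ℤ) (n : ℕ) : ∑ c : Fin k → Bool, Q a b c n = 1 := by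
  unfold Q
  rw [Finset.sum_eq_single (fun j => sf (L a b j n))]
  · rw [if_pos fun _ => rfl]
  · intro c _ hc
    rw [if_neg]
    intro h
    exact hc (funext fun j => (h j).symm)
  · intro h
    exact absurd (mem_univ _) h

lemma FF_eq {k : ℕ} (a b : Fin k → ℕ) (n : ℕ) :
    FF a b n = ∏ j, Pool.Agent.N675.lamA (L a (fun j => (b j : ℤ)) j n) := by
  unfold Pool.Agent.H569.SS.FF
  apply prod_congr rfl
  intro j _
  unfold Pool.Agent.N675.lamA Pool.Agent.X23.CS.lam L
  congr 2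

theorem zero_LZ {k : ℕ} (a b : Fin k → ℕ) (ha : ∀ j, 1 ≤ a j) (hab : ∀ i j, i ≠ j → a i * b j ≠ a j * b i)
    (hk : Odd k ∨ k = 2) (ε : ℝ) (hε : 0 < ε) : LZ {N | ε * N < |∑ n ∈ Icc 1 N, FF a b n|} := by
  classical
  have h1 : ∀ c : Fin k → Bool, LZ {N | ε / 2 ^ k * N < |M a (fun j => (b j : ℤ)) c univ N|} := by
    intro c
    refine A_LZ a _ c ha univ ?_ _ (by positivity)
    rcases hk with h | h
    · left
      rw [card_univ, Fintype.card_fin]
      exact h
    · right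
      refine ⟨by rw [card_univ, Fintype.card_fin]; exact h, fun i _ j _ hij => ?_⟩
      exact_mod_cast hab i j hij
  have h2 := LZ_fin univ _ fun c _ => h1 c
  refine LZ_sub ?_ h2
  intro N hN
  rw [Set.mem_ofPred_eq] at hN ⊢
  by_contra hcon
  push Not at hcon
  have h3 : ∑ n ∈ Icc 1 N, FF a b n = ∑ c : Fin k → Bool, M a (fun j => (b j : ℤ)) c univ N := by
    unfold M
    rw [sum_comm]
    apply sum_congr rfl
    intro n _
    rw [← mul_sum, sumQ, mul_one, FF_eq]
  have h4 : |∑ n ∈ Icc 1 N, FF a b n| ≤ ε * N := by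
    rw [h3]
    refine (abs_sum_le_sum_abs _ _).trans ?_
    refine (sum_le_sum (g := fun _ => ε / 2 ^ k * (N : ℝ)) fun c hc => ?_).trans ?_
    · have := hcon c hc
      simpa using this
    · rw [sum_const, nsmul_eq_mul, card_univ, Fintype.card_fun, Fintype.card_bool, Fintype.card_fin]
      push_cast
      rw [show (2 : ℝ) ^ k * (ε / 2 ^ k * N) = (2 ^ k / 2 ^ k) * (ε * N) by ring,
        div_self (by positivity), one_mul]
  linarith

/-- all the exponential sums vanish -/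
theorem zero_expo {k : ℕ} (a b : Fin k → ℕ) (ha : ∀ j, 1 ≤ a j) (hab : ∀ i j, i ≠ j → a i * b j ≠ a j * b i)
    (hk1 : 1 ≤ k) (hk : Odd k ∨ k = 2) (ε : ℝ) (hε : 0 < ε) :
    LZ {N : ℕ | ¬ ∀ θ : ℝ, ‖Se (FF a b) N θ‖ ≤ ε * N} := by
  have h1 := (Pool.Agent.V1213.CH.lin_equiv hk1).out 1 2
  have h2 := h1.1 (fun a b hab' ε hε => by
    have h3 := zero_LZ a b hab'.1 hab'.2 hk ε hε
    refine LZ_sub ?_ h3
    intro N hN
    rw [Set.mem_ofPred_eq] at hN ⊢
    simp only [FL_eq] at hN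
    exact hN) a b ⟨ha, hab⟩ ε hε
  refine LZ_sub ?_ h2
  intro N hN
  rw [Set.mem_ofPred_eq] at hN ⊢
  push Not at hN
  obtain ⟨θ, hθ⟩ := hN
  refine ⟨θ, N, le_rfl, ?_⟩
  rw [SL_eq]
  exact hθ

end Pool.Agent.H569.SV
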