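import Mathlib
import Pool.Agent.H569.TR3

/-! Orbits of free semigroups of affine maps. -/

set_option autoImplicit false

namespace Pool.Agent.H569.TR

open Finset Filter Topology

variable {r : ℕ}

/-- the coefficients of the composition of the maps `x ↦ a i * x + b i` along a word -/
def orb (a b : Fin r → ℤ) (V : List (Fin r)) : ℤ × ℤ :=
  V.foldl (fun g i => (a i * g.1, a i * g.2 + b i)) (1, 0)

theorem orb_snoc (a b : Fin r → ℤ) (V : List (Fin r)) (i : Fin r) :
    orb a b (V ++ [i]) = (a i * (orb a b V).1, a i * (orb a b V).2 + b i) := by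
  simp [orb]

theorem orb_pos (a b : Fin r → ℤ) (ha : ∀ i, 1 ≤ a i) (V : List (Fin r)) : 1 ≤ (orb a b V).1 := by
  induction V using List.reverseRecOn with
  | nil => simp [orb]
  | append_singleton V i ih =>
    rw [orb_snoc]
    have := ha i
    change 1 ≤ a i * (orb a b V).1
    nlinarith

/-- the value modulo `p` -/
def val (p : ℕ) (a b : Fin r → ℤ) (V : List (Fin r)) (x : ZMod p) : ZMod p :=
  ((orb a b V).1 : ZMod p) * x + ((orb a b V).2 : ZMod p)

theorem val_snoc (p : ℕ) (a b : Fin r → ℤ) (V : List (Fin r)) (i : Fin r) (x : ZMod p) :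
    val p a b (V ++ [i]) x = (a i : ZMod p) * val p a b V x + (b i : ZMod p) := by
  unfold val
  rw [orb_snoc]
  push_cast
  ring

theorem val_rep (p : ℕ) (a b : Fin r → ℤ) (V : List (Fin r)) (i : Fin r) (m : ℕ) (x : ZMod p) :
    val p a b (V ++ List.replicate m i) x =
      (fun y : ZMod p => (a i : ZMod p) * y + (b i : ZMod p))^[m] (val p a b V x) := by
  induction m with
  | zero => simp
  | succ m ih =>
    rw [List.replicate_succ', ← List.append_assoc, val_snoc, ih, Function.iterate_succ_apply']

theorem iter_id {p : ℕ} (hp : p.Prime) {a b : ZMod p} (ha : a ≠ 0) {m : ℕ} (hm : p.factorial ∣ m)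
    (y : ZMod p) : (fun y : ZMod p => a * y + b)^[m] y = y := by
  have : Fact p.Prime := ⟨hp⟩
  have hinj : Function.Injective (fun y : ZMod p => a * y + b) := by
    intro y z h
    simpa [ha] using h
  set σ : Equiv.Perm (ZMod p) := Equiv.ofBijective _ (Finite.injective_iff_bijective.1 hinj) with hσ
  have h1 : (fun y : ZMod p => a * y + b) = σ := rfl
  obtain ⟨k, rfl⟩ := hm
  have h2 : σ ^ p.factorial = 1 := by
    have h3 := pow_card_eq_one (x := σ)
    rwa [Fintype.card_perm, ZMod.card] at h3
  rw [h1, Equiv.Perm.iterate_eq_pow, pow_mul, h2, one_pow]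
  rfl

theorem iter_const {p : ℕ} {a b : ZMod p} (ha : a = 0) {m : ℕ} (hm : 1 ≤ m)
    (y : ZMod p) : (fun y : ZMod p => a * y + b)^[m] y = b := by
  obtain ⟨k, rfl⟩ : ∃ k, m = k + 1 := ⟨m - 1, by omega⟩
  rw [Function.iterate_succ_apply', ha]
  simp

theorem avoid' {p : ℕ} (hp : p.Prime) (D : Finset (ZMod p × ZMod p)) (hD : D.card < p)
    (hD0 : ∀ d ∈ D, d.1 ≠ 0) : ∃ x : ZMod p, ∀ d ∈ D, d.1 * x + d.2 ≠ 0 := by
  classical
  have : Fact p.Prime := ⟨hp⟩
  have h1 : (D.image (fun d => -d.2 / d.1)).card < (univ : Finset (ZMod p)).card := by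
    rw [card_univ, ZMod.card]
    exact lt_of_le_of_lt card_image_le hD
  obtain ⟨x, _, hx⟩ := exists_mem_notMem_of_card_lt_card h1
  refine ⟨x, fun d hd h => hx ?_⟩
  rw [mem_image]
  refine ⟨d, hd, ?_⟩
  rw [div_eq_iff (hD0 d hd)]
  linear_combination -h

/-- the block words: `M` and `K` are the lengths of the blocks -/
def Wr (M K : ℕ → ℕ) (z : Fin r) : List (Fin r) → List (Fin r)
  | [] => []
  | i :: s => Wr M K z s ++ List.replicate (M s.length * K s.length) z ++ List.replicate (M s.length) i

/-- the block word of a word -/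
def W (M K : ℕ → ℕ) (z : Fin r) (s : List (Fin r)) : List (Fin r) := Wr M K z s.reverse

variable {M K : ℕ → ℕ} {z : Fin r}

theorem W_nil : W M K z ([] : List (Fin r)) = [] := rfl

theorem W_snoc (s : List (Fin r)) (i : Fin r) : W M K z (s ++ [i]) =
    W M K z s ++ List.replicate (M s.length * K s.length) z ++ List.replicate (M s.length) i := by
  unfold W
  rw [List.reverse_append]
  simp [Wr]

/-- lengths of the block words -/
def Lam (M K : ℕ → ℕ) (t : ℕ) : ℕ := ∑ k ∈ range t, (M k * K k + M k)

theorem W_length (s : List (Fin r)) : (W M K z s).length = Lam M K s.length := by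
  induction s using List.reverseRecOn with
  | nil => simp [W_nil, Lam]
  | append_singleton s i ih =>
    rw [W_snoc]
    simp only [List.length_append, List.length_replicate, ih, List.length_singleton]
    rw [Lam, Lam, Finset.sum_range_succ]
    ring

theorem Lam_mono : Monotone (Lam M K) :=
  monotone_nat_of_le_succ fun t => by rw [Lam, Lam, Finset.sum_range_succ]; omega

theorem W_inj (hM : ∀ t, 1 ≤ M t) (s : List (Fin r)) : ∀ s' : List (Fin r), s.length = s'.length →
    W M K z s = W M K z s' → s = s' := by
  induction s using List.reverseRecOn with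
  | nil => intro s' h _; exact (List.length_eq_zero_iff.1 h.symm).symm
  | append_singleton s i ih =>
    intro s'
    induction s' using List.reverseRecOn with
    | nil => intro h _; simp at h
    | append_singleton s' i' _ =>
      intro h h2
      have hl : s.length = s'.length := by simpa using h
      rw [W_snoc, W_snoc, hl] at h2
      have h3 := List.append_inj' h2 (by simp)
      have h4 := List.append_inj' h3.1 (by simp)
      have h5 := ih s' hl h4.1
      have h6 : i = i' := by
        have h7 := h3.2
        obtain ⟨m, hm⟩ : ∃ m, M s'.length = m + 1 := ⟨M s'.length - 1, by have := hM s'.length; omega⟩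
        rw [hm, List.replicate_succ, List.replicate_succ] at h7
        exact (List.cons.inj h7).1
      rw [h5, h6]

theorem W_alt_inj (hM : ∀ t, 1 ≤ M t) {s s' : List (Fin r)} {j j' : ℕ} (hj : j < K s.length)
    (hj' : j' < K s'.length) (h : W M K z s ++ List.replicate (M s.length * j) z =
      W M K z s' ++ List.replicate (M s'.length * j') z) : s = s' ∧ j = j' := by
  have h1 := congrArg List.length h
  simp only [List.length_append, List.length_replicate, W_length] at h1
  have key : ∀ t j, j < K t → Lam M K t + M t * j < Lam M K (t + 1) := by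
    intro t j hj
    rw [Lam, Lam, Finset.sum_range_succ]
    have h2 : M t * j < M t * K t := Nat.mul_lt_mul_of_pos_left hj (hM t)
    omega
  have h2 := key _ _ hj
  have h3 := key _ _ hj'
  have hl : s.length = s'.length := by
    rcases lt_trichotomy s.length s'.length with h4 | h4 | h4
    · have := Lam_mono (M := M) (K := K) (show s.length + 1 ≤ s'.length from h4)
      omega
    · exact h4
    · have := Lam_mono (M := M) (K := K) (show s'.length + 1 ≤ s.length from h4)
      omega
  rw [hl] at h1 h
  have h5 : M s'.length * j = M s'.length * j' := by omega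
  have h6 : j = j' := Nat.eq_of_mul_eq_mul_left (hM _) h5
  rw [h6] at h
  exact ⟨W_inj hM s s' hl (List.append_cancel_right h), h6⟩

theorem W_prefix (s u : List (Fin r)) : W M K z s <+: W M K z (s ++ u) := by
  induction u using List.reverseRecOn with
  | nil => simp
  | append_singleton u i ih =>
    rw [← List.append_assoc, W_snoc, List.append_assoc]
    exact ih.trans (List.prefix_append _ _)

theorem orbits (r : ℕ) (hr : 1 ≤ r) (a b : Fin r → ℤ) (ha : ∀ i, 1 ≤ a i)
    (hcop : ∀ i, IsCoprime (a i) (b i)) (hfree : Function.Injective (orb a b)) (z : Fin r) :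
    ∃ (G : Set (List (Fin r))) (e : List (Fin r) → List (Fin r)), (∀ w, e w ∈ G) ∧
      (∀ w w', w.length < w'.length → (e w).length < (e w').length) ∧
      (∀ w, ∃ k, ∀ i, (e w ++ List.replicate k z ++ [i]) <+: e (w ++ [i])) ∧
      ∀ T : Finset (ℤ × ℤ), (∀ g ∈ T, 1 ≤ g.1) →
        {x : ℕ | ∀ g ∈ T, (Nat.Prime (g.1 * x + g.2).toNat ↔ ∃ V ∈ G, g = orb a b V)}.Infinite := by
  classical
  obtain ⟨K, hK1, hKK⟩ := array r hr
  set Q : ℕ → ℕ := fun t => ∑ l ∈ range (t + 1), r ^ l * K l + r ^ (t + 1) with hQ
  set C : ℕ := ∑ i : Fin r, (a i).toNat with hC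
  set M : ℕ → ℕ := fun t => (Q t + C).factorial with hM
  have hM1 : ∀ t, 1 ≤ M t := fun t => Nat.factorial_pos _
  have hMC : ∀ (p t : ℕ), p ≤ Q t + C → p.factorial ∣ M t := fun p t h => Nat.factorial_dvd_factorial h
  have haC : ∀ i, ∀ p : ℕ, (p : ℤ) ∣ a i → p ≤ C := by
    intro i p h
    have h1 : (p : ℤ) ≤ a i := Int.le_of_dvd (by have := ha i; omega) h
    have h2 : (a i).toNat ≤ C := Finset.single_le_sum (f := fun i => (a i).toNat) (fun _ _ => Nat.zero_le _)
      (mem_univ i)
    omega
  set f : List (Fin r) → ℕ → ℤ × ℤ := fun s j =>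
    orb a b (W M K z s ++ List.replicate (M s.length * j) z) with hf
  -- local conditions
  have hloc : ∀ p : ℕ, p.Prime → ∃ x : ZMod p, ∀ s j, j < K s.length →
      val p a b (W M K z s ++ List.replicate (M s.length * j) z) x ≠ 0 := by
    intro p hp
    have : Fact p.Prime := ⟨hp⟩
    by_cases hdiv : ∃ i, (p : ℤ) ∣ a i
    · obtain ⟨i₀, hi₀⟩ := hdiv
      have hpM : ∀ t k, p.factorial ∣ M t * k := fun t k =>
        Dvd.dvd.mul_right (hMC p t (by have := haC i₀ p hi₀; omega)) k
      set Np : Set (ZMod p) := {y | y = 1 ∨ ∃ i, (p : ℤ) ∣ a i ∧ y = (b i : ZMod p)} with hNp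
      have hN0 : ∀ y ∈ Np, y ≠ 0 := by
        rintro y (rfl | ⟨i, hi, rfl⟩)
        · exact one_ne_zero
        · intro h
          rw [ZMod.intCast_zmod_eq_zero_iff_dvd] at h
          exact (Nat.prime_iff_prime_int.1 hp).not_isUnit ((hcop i).isUnit_of_dvd' hi h)
      have hrep : ∀ V i m, p.factorial ∣ m → val p a b V 1 ∈ Np →
          val p a b (V ++ List.replicate m i) 1 ∈ Np := by
        intro V i m hm hV
        rw [val_rep]
        by_cases hi : (p : ℤ) ∣ a i
        · rcases Nat.eq_zero_or_pos m with rfl | hm0
          · simpa using hV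
          · rw [iter_const ((ZMod.intCast_zmod_eq_zero_iff_dvd _ _).2 hi) hm0]
            exact Or.inr ⟨i, hi, rfl⟩
        · rw [iter_id hp (fun h => hi ((ZMod.intCast_zmod_eq_zero_iff_dvd _ _).1 h)) hm]
          exact hV
      have hW : ∀ s, val p a b (W M K z s) 1 ∈ Np := by
        intro s
        induction s using List.reverseRecOn with
        | nil => left; simp [W_nil, val, orb]
        | append_singleton s i ih =>
          rw [W_snoc]
          refine hrep _ _ _ ?_ (hrep _ _ _ (hpM _ _) ih)
          simpa using hpM s.length 1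
      exact ⟨1, fun s j _ => hN0 _ (hrep _ _ _ (hpM _ _) (hW s))⟩
    · push Not at hdiv
      have hai : ∀ i, (a i : ZMod p) ≠ 0 := fun i h => hdiv i ((ZMod.intCast_zmod_eq_zero_iff_dvd _ _).1 h)
      have hQt : ∀ t, t ≤ Q t := by
        intro t
        have h1 : ∑ l ∈ range (t + 1), 1 ≤ ∑ l ∈ range (t + 1), r ^ l * K l :=
          Finset.sum_le_sum fun l _ => Nat.mul_pos (by positivity) (hK1 l)
        simp only [Finset.sum_const, Finset.card_range, smul_eq_mul, mul_one] at h1
        simp only [hQ]
        omega
      have hex : ∃ t, p ≤ Q t := ⟨p, hQt p⟩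
      set t0 := Nat.find hex with ht0
      have hQmono : Monotone Q := by
        refine monotone_nat_of_le_succ fun t => ?_
        simp only [hQ]
        rw [Finset.sum_range_succ _ (t + 1)]
        have h1 : r ^ (t + 1) ≤ r ^ (t + 1) * K (t + 1) := Nat.le_mul_of_pos_right _ (hK1 _)
        omega
      have hpt : ∀ t, t0 ≤ t → p.factorial ∣ M t := by
        intro t ht
        have h1 : p ≤ Q t0 := Nat.find_spec hex
        have h2 := hQmono ht
        exact hMC p t (by omega)
      have hfst : ∀ V, ((orb a b V).1 : ZMod p) ≠ 0 := by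
        intro V
        induction V using List.reverseRecOn with
        | nil => simp [orb]
        | append_singleton V i ih =>
          rw [orb_snoc]
          push_cast
          exact mul_ne_zero (hai i) ih
      set ty : List (Fin r) → ZMod p × ZMod p := fun V =>
        (((orb a b V).1 : ZMod p), ((orb a b V).2 : ZMod p)) with hty
      set D1 : Finset (ZMod p × ZMod p) := (range t0).biUnion (fun l =>
        (univ : Finset (List.Vector (Fin r) l × Fin (K l))).image (fun q =>
          ty (W M K z q.1.1 ++ List.replicate (M l * q.2) z))) with hD1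
      set D2 : Finset (ZMod p × ZMod p) := (univ : Finset (List.Vector (Fin r) t0)).image (fun q =>
          ty (W M K z q.1)) with hD2
      have hD1c : D1.card ≤ ∑ l ∈ range t0, r ^ l * K l := by
        refine card_biUnion_le.trans (Finset.sum_le_sum fun l _ => card_image_le.trans ?_)
        rw [card_univ, Fintype.card_prod, card_vector, Fintype.card_fin, Fintype.card_fin]
      have hD2c : D2.card ≤ r ^ t0 := by
        refine card_image_le.trans ?_
        rw [card_univ, card_vector, Fintype.card_fin]
      have hcard : (D1 ∪ D2).card < p := by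
        refine lt_of_le_of_lt (card_union_le _ _) ?_
        rcases Nat.eq_zero_or_pos t0 with h0 | h0
        · rw [h0] at hD1c hD2c
          simp only [range_zero, sum_empty, pow_zero] at hD1c hD2c
          have := hp.two_le
          omega
        · have h1 := Nat.find_min hex (show t0 - 1 < Nat.find hex by omega)
          have h2 : t0 - 1 + 1 = t0 := by omega
          simp only [hQ, h2] at h1
          omega
      obtain ⟨x, hx⟩ := avoid' hp (D1 ∪ D2) hcard (by
        intro d hd
        rw [mem_union, hD1, hD2, mem_biUnion, mem_image] at hd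
        rcases hd with ⟨l, _, hd⟩ | ⟨q, _, rfl⟩
        · rw [mem_image] at hd
          obtain ⟨q, _, rfl⟩ := hd
          exact hfst _
        · exact hfst _)
      have hbase : ∀ s : List (Fin r), t0 ≤ s.length → val p a b (W M K z s) x ≠ 0 := by
        intro s
        induction s using List.reverseRecOn with
        | nil =>
          intro h
          have h0 : t0 = 0 := by simpa using h
          refine hx (ty (W M K z [])) (mem_union_right _ ?_)
          rw [hD2, mem_image]
          exact ⟨⟨[], by simp [h0]⟩, mem_univ _, rfl⟩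
        | append_singleton s i ih =>
          intro h
          simp only [List.length_append, List.length_singleton] at h
          rcases Nat.lt_or_ge s.length t0 with h1 | h1
          · refine hx (ty (W M K z (s ++ [i]))) (mem_union_right _ ?_)
            rw [hD2, mem_image]
            exact ⟨⟨s ++ [i], by simp; omega⟩, mem_univ _, rfl⟩
          · rw [W_snoc, val_rep, val_rep, iter_id hp (hai i) (hpt _ h1),
              iter_id hp (hai z) (Dvd.dvd.mul_right (hpt _ h1) _)]
            exact ih h1
      refine ⟨x, fun s j hj => ?_⟩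
      rcases Nat.lt_or_ge s.length t0 with h1 | h1
      · refine hx (ty (W M K z s ++ List.replicate (M s.length * j) z)) (mem_union_left _ ?_)
        rw [hD1, mem_biUnion]
        refine ⟨s.length, mem_range.2 h1, ?_⟩
        rw [mem_image]
        exact ⟨(⟨s, rfl⟩, ⟨j, hj⟩), mem_univ _, rfl⟩
      · rw [val_rep, iter_id hp (hai z) (Dvd.dvd.mul_right (hpt _ h1) _)]
        exact hbase s h1
  have hcast : ∀ (p : ℕ) [Fact p.Prime] (g : ℤ × ℤ) (x : ZMod p),
      (g.1 : ZMod p) * x + (g.2 : ZMod p) ≠ 0 → ¬ (p : ℤ) ∣ g.1 * x.val + g.2 := by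
    intro p _ g x h h2
    apply h
    have h3 := (ZMod.intCast_zmod_eq_zero_iff_dvd _ p).2 h2
    push_cast at h3
    rwa [ZMod.natCast_zmod_val] at h3
  obtain ⟨G, n, e, c, hn, hel, hee, hec, hG, hT⟩ := hKK f (fun s j hj => ⟨orb_pos a b ha _, by
      rw [Int.isCoprime_iff_gcd_eq_one]
      by_contra hne
      obtain ⟨p, hp, hpd⟩ := Nat.exists_prime_and_dvd hne
      have : Fact p.Prime := ⟨hp⟩
      have h1 : (p : ℤ) ∣ (f s j).1 := (Int.natCast_dvd_natCast.2 hpd).trans (Int.gcd_dvd_left ..)
      have h2 : (p : ℤ) ∣ (f s j).2 := (Int.natCast_dvd_natCast.2 hpd).trans (Int.gcd_dvd_right ..)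
      obtain ⟨x, hx⟩ := hloc p hp
      exact hcast p (f s j) x (hx s j hj) (dvd_add (Dvd.dvd.mul_right h1 _) h2)⟩)
    (fun s j s' j' hj hj' h => W_alt_inj hM1 hj hj' (hfree h))
    (fun p hp => by
      have : Fact p.Prime := ⟨hp⟩
      obtain ⟨x, hx⟩ := hloc p hp
      exact ⟨x.val, fun s j hj => hcast p (f s j) x (hx s j hj)⟩)
  refine ⟨{V | orb a b V ∈ G}, fun w => W M K z (e w) ++ List.replicate (M (n w.length) * c w) z,
    fun w => ?_, fun w w' hw => ?_, fun w => ?_, fun T hT1 => ?_⟩
  · have h1 := (hec w).2
    simp only [hf, hel w] at h1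
    exact h1
  · simp only [List.length_append, List.length_replicate, W_length, hel]
    have h1 := (hec w).1
    have h2 : Lam M K (n w.length) + M (n w.length) * c w < Lam M K (n w.length + 1) := by
      rw [Lam, Lam, Finset.sum_range_succ]
      have h3 : M (n w.length) * c w < M (n w.length) * K (n w.length) := Nat.mul_lt_mul_of_pos_left h1 (hM1 _)
      omega
    have h3 := Lam_mono (M := M) (K := K) (show n w.length + 1 ≤ n w'.length from hn hw)
    omega
  · have h1 := (hec w).1
    refine ⟨M (n w.length) * (K (n w.length) - c w), fun i => ?_⟩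
    obtain ⟨u, hu⟩ := hee w i
    have h2 : W M K z (e w ++ [i]) <+: W M K z (e (w ++ [i])) := by
      rw [← hu]
      exact W_prefix _ _
    refine List.IsPrefix.trans ?_ (h2.trans (List.prefix_append _ _))
    rw [W_snoc, hel]
    obtain ⟨m, hm⟩ : ∃ m, M (n w.length) = m + 1 := ⟨M (n w.length) - 1, by have := hM1 (n w.length); omega⟩
    have h3 : List.replicate (M (n w.length) * K (n w.length)) z =
        List.replicate (M (n w.length) * c w) z ++ List.replicate (M (n w.length) * (K (n w.length) - c w)) z := by
      rw [List.replicate_append_replicate, ← Nat.mul_add]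
      congr 2
      omega
    rw [h3]
    have h4 : List.replicate (M (n w.length)) i = [i] ++ List.replicate m i := by
      rw [hm, List.replicate_succ]
      rfl
    rw [h4]
    refine ⟨List.replicate m i, ?_⟩
    simp only [List.append_assoc]
  · refine (hT T hT1).mono fun x hx g hg => ?_
    rw [hx g hg]
    constructor
    · intro h
      obtain ⟨s, j, hj, hgf⟩ := hG g h
      exact ⟨_, by rw [Set.mem_ofPred_eq]; change f s j ∈ G; rw [← hgf]; exact h, hgf⟩
    · rintro ⟨V, hV, rfl⟩
      exact hV

end Pool.Agent.H569.TR
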