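import Mathlib
import Pool.Agent.H569.TR1

/-! Countably many finite colourings of the words: strong subtrees on which each colouring depends only on a
short initial segment. -/

set_option autoImplicit false

namespace Pool.Agent.H569.TR

open Finset Filter Topology

variable {r : ℕ}

theorem S_sum {κ : Type} (s : Finset κ) (F : κ → List (Fin r) → ℝ) (m : ℕ) : ∀ (v : List (Fin r)),
    S (fun t => ∑ k ∈ s, F k t) v m = ∑ k ∈ s, S (F k) v m := by
  induction m with
  | zero => intro v; rfl
  | succ m ih =>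
    intro v
    change ∑ i : Fin r, S _ (v ++ [i]) m = ∑ k ∈ s, ∑ i : Fin r, S (F k) (v ++ [i]) m
    rw [Finset.sum_congr rfl fun i _ => ih _, Finset.sum_comm]

theorem D_split {κ : Type} [Finite κ] (A : Set (List (Fin r))) (c : List (Fin r) → κ) (l : ℕ)
    (v : List (Fin r)) :
    ∃ s : Finset κ, (∀ k, k ∈ s) ∧ D A l v = ∑ k ∈ s, D (A ∩ {t | c t = k}) l v := by
  classical
  have : Fintype κ := Fintype.ofFinite κ
  refine ⟨univ, fun k => mem_univ k, ?_⟩
  unfold D
  rw [← Finset.sum_div, ← S_sum]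
  congr 1
  congr 1
  funext t
  simp only [ind, Set.mem_inter_iff, Set.mem_ofPred_eq]
  by_cases h : t ∈ A
  · simp [h]
  · simp [h]

/-- **homogeneous strong subtrees** -/
theorem homog (hr : 1 ≤ r) {κ : ℕ → Type} [∀ t, Finite (κ t)] (col : ∀ t, List (Fin r) → κ t) :
    ∃ (n : ℕ → ℕ) (e : List (Fin r) → List (Fin r)), StrictMono n ∧ (∀ w, (e w).length = n w.length) ∧
      (∀ w i, (e w ++ [i]) <+: e (w ++ [i])) ∧
      ∀ t w, t ≤ w.length → col t (e w) = col t (e (w.take t)) := by
  classical
  set U : Ultrafilter ℕ := Ultrafilter.of atTop with hU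
  have hUle : (U : Filter ℕ) ≤ atTop := Ultrafilter.of_le _
  have hge : ∀ N : ℕ, ∀ᶠ l in (U : Filter ℕ), N < l := fun N => hUle (eventually_gt_atTop N)
  choose d hd using fun (A : Set (List (Fin r))) (v : List (Fin r)) => exists_lim hr U A v
  -- refinement
  have hrefine : ∀ (A : Set (List (Fin r))) (v : List (Fin r)) (t : ℕ), 0 < d A v →
      ∃ k : κ t, 0 < d (A ∩ {u | col t u = k}) v := by
    intro A v t hA
    have : Fintype (κ t) := Fintype.ofFinite _
    by_contra hcon
    push Not at hcon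
    have h1 : Tendsto (fun l => ∑ k : κ t, D (A ∩ {u | col t u = k}) l v) U
        (𝓝 (∑ k : κ t, d (A ∩ {u | col t u = k}) v)) := tendsto_finsetSum _ fun k _ => hd _ _
    have h2 : d A v = ∑ k : κ t, d (A ∩ {u | col t u = k}) v := by
      refine tendsto_nhds_unique (hd A v) (h1.congr fun l => ?_)
      obtain ⟨s, hs, h3⟩ := D_split A (col t) l v
      rw [h3]
      have : s = univ := Finset.eq_univ_iff_forall.2 hs
      rw [this]
    have h3 : ∑ k : κ t, d (A ∩ {u | col t u = k}) v ≤ 0 := Finset.sum_nonpos fun k _ => hcon k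
    linarith
  -- extension with refinement
  have hext : ∀ (t : ℕ) (A : Set (List (Fin r))) (v : List (Fin r)), 0 < d A v →
      ∃ A' ⊆ A, ∀ᶠ l in (U : Filter ℕ), ∃ u, v <+: u ∧ u.length = l ∧ u ∈ A' ∧
        (∀ i, 0 < d A' (u ++ [i])) ∧ ∀ u' ∈ A', col t u' = col t u := by
    intro t A v hA
    obtain ⟨k, hk⟩ := hrefine A v t hA
    refine ⟨A ∩ {u | col t u = k}, Set.inter_subset_left, ?_⟩
    filter_upwards [step_of hr U hUle _ _ (hd (A ∩ {u | col t u = k})) v hk] with l hl
    obtain ⟨u, h1, h2, h3, h4⟩ := hl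
    refine ⟨u, h1, h2, h3, h4, fun u' hu' => ?_⟩
    have h5 : col t u' = k := hu'.2
    have h6 : col t u = k := h3.2
    rw [h5, h6]
  -- construction of the tree
  let OK : ℕ → ℕ × (List (Fin r) → List (Fin r)) × (List (Fin r) → Set (List (Fin r))) → Prop := fun k s =>
    ∀ w : List (Fin r), w.length = k → s.2.1 w ∈ s.2.2 w ∧ (s.2.1 w).length = s.1 ∧
      (∀ i, 0 < d (s.2.2 w) (s.2.1 w ++ [i])) ∧ ∀ u ∈ s.2.2 w, col k u = col k (s.2.1 w)
  have hd1 : 0 < d Set.univ ([] : List (Fin r)) := by
    have h1 : Tendsto (fun l => D (Set.univ : Set (List (Fin r))) l []) U (𝓝 1) := by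
      refine tendsto_const_nhds.congr fun l => ?_
      unfold D
      have h2 : ind (Set.univ : Set (List (Fin r))) = fun _ => 1 := by
        funext t
        simp [ind]
      rw [h2, S_const, one_mul, div_self]
      have : (0 : ℝ) < r := by exact_mod_cast hr
      positivity
    rw [tendsto_nhds_unique (hd _ _) h1]
    norm_num
  have h0 : ∃ s, OK 0 s := by
    obtain ⟨A', _, hA'⟩ := hext 0 Set.univ [] hd1
    obtain ⟨l, u, _, h2, h3, h4, h5⟩ := hA'.exists
    exact ⟨(l, fun _ => u, fun _ => A'), fun w _ => ⟨h3, h2, h4, h5⟩⟩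
  have hs : ∀ k s, OK k s → ∃ s', OK (k + 1) s' ∧ s.1 < s'.1 ∧
      ∀ w i, w.length = k → (s.2.1 w ++ [i]) <+: s'.2.1 (w ++ [i]) ∧ s'.2.2 (w ++ [i]) ⊆ s.2.2 w := by
    intro k s hOK
    choose A' hA'1 hA'2 using fun (w : List.Vector (Fin r) k) (i : Fin r) =>
      hext (k + 1) _ _ ((hOK w.1 w.2).2.2.1 i)
    have h1 : ∀ᶠ l in (U : Filter ℕ), ∀ w : List.Vector (Fin r) k, ∀ i : Fin r,
        ∃ u, (s.2.1 w.1 ++ [i]) <+: u ∧ u.length = l ∧ u ∈ A' w i ∧
        (∀ i', 0 < d (A' w i) (u ++ [i'])) ∧ ∀ u' ∈ A' w i, col (k + 1) u' = col (k + 1) u := by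
      rw [Filter.eventually_all]
      intro w
      rw [Filter.eventually_all]
      intro i
      exact hA'2 w i
    obtain ⟨l, hl1, hl2⟩ := (h1.and (hge s.1)).exists
    choose g hg1 hg2 hg3 hg4 hg5 using hl1
    refine ⟨(l, fun w' => if h : w'.length = k + 1 then
      g ⟨w'.dropLast, by rw [List.length_dropLast]; omega⟩
        (w'.getLast (List.ne_nil_of_length_eq_add_one h)) else [],
        fun w' => if h : w'.length = k + 1 then
      A' ⟨w'.dropLast, by rw [List.length_dropLast]; omega⟩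
        (w'.getLast (List.ne_nil_of_length_eq_add_one h)) else ∅), ?_, hl2, ?_⟩
    · intro w hw
      simp only [hw, dif_pos]
      exact ⟨hg3 _ _, hg2 _ _, hg4 _ _, hg5 _ _⟩
    · intro w i hw
      have h2 : (w ++ [i]).length = k + 1 := by simp [hw]
      simp only [h2, dif_pos]
      have h3 := hg1 ⟨w, hw⟩ i
      have h4 := hA'1 ⟨w, hw⟩ i
      constructor
      · convert h3 using 3 <;> simp
      · convert h4 using 2 <;> simp
  choose! f hf1 hf2 hf3 using hs
  obtain ⟨s0, hs0⟩ := h0
  let s : ℕ → ℕ × (List (Fin r) → List (Fin r)) × (List (Fin r) → Set (List (Fin r))) :=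
    fun k => Nat.rec s0 (fun k x => f k x) k
  have hss : ∀ k, s (k + 1) = f k (s k) := fun k => rfl
  have hOK : ∀ k, OK k (s k) := by
    intro k
    induction k with
    | zero => exact hs0
    | succ k ih => rw [hss]; exact hf1 k _ ih
  have hsub : ∀ (u w : List (Fin r)), (s (w ++ u).length).2.2 (w ++ u) ⊆ (s w.length).2.2 w := by
    intro u
    induction u using List.reverseRecOn with
    | nil => intro w; simp
    | append_singleton u i ih =>
      intro w
      refine subset_trans ?_ (ih w)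
      have h2 : (w ++ (u ++ [i])).length = (w ++ u).length + 1 := by
        simp only [List.length_append, List.length_singleton]; omega
      rw [h2, hss, ← List.append_assoc]
      exact (hf3 _ _ (hOK _) (w ++ u) i rfl).2
  refine ⟨fun k => (s k).1, fun w => (s w.length).2.1 w, strictMono_nat_of_lt_succ fun k => ?_,
    fun w => ?_, fun w i => ?_, fun t w ht => ?_⟩
  · rw [hss]; exact hf2 k _ (hOK k)
  · exact (hOK w.length w rfl).2.1
  · have h2 : (w ++ [i]).length = w.length + 1 := by simp
    change (s w.length).2.1 w ++ [i] <+: (s (w ++ [i]).length).2.1 (w ++ [i])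
    rw [h2, hss]
    exact (hf3 w.length _ (hOK _) w i rfl).1
  · have h1 : (w.take t).length = t := by rw [List.length_take]; omega
    have h2 := hsub (w.drop t) (w.take t)
    rw [List.take_append_drop, h1] at h2
    have h3 := (hOK t (w.take t) h1).2.2.2 _ (h2 (hOK w.length w rfl).1)
    change col t ((s w.length).2.1 w) = col t ((s (w.take t).length).2.1 (w.take t))
    rw [h1]
    exact h3

end Pool.Agent.H569.TR
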