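import Mathlib
import Pool.Agent.H569.TR4
import Pool.Agent.H569.TR5

/-! Arbitrary infinite sets of linear forms at the words: no local condition. -/

set_option autoImplicit false

namespace Pool.Agent.H569.TR

open Finset Filter Topology

theorem lim_val {α : Type} [Finite α] (g : ℕ → α) : ∃ v, ∀ᶠ j in (Filter.hyperfilter ℕ : Filter ℕ), g j = v := by
  by_contra hcon
  have h1 : ∀ v : α, ∀ᶠ j in (Filter.hyperfilter ℕ : Filter ℕ), g j ≠ v := fun v =>
    Ultrafilter.eventually_not.2 fun h => hcon ⟨v, h⟩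
  have h2 : ∀ᶠ j in (Filter.hyperfilter ℕ : Filter ℕ), ∀ v : α, g j ≠ v := Filter.eventually_all.2 h1
  obtain ⟨j, hj⟩ := h2.exists
  exact hj _ rfl

/-- distinct representatives of infinite sets -/
theorem sel {ι α : Type} [Encodable ι] (A : ι → Set α) (hA : ∀ i, (A i).Infinite) :
    ∃ g : ι → α, Function.Injective g ∧ ∀ i, g i ∈ A i := by
  classical
  have step : ∀ (Q : Finset α) (i : ι), ∃ x, x ∈ A i ∧ x ∉ Q := by
    intro Q i
    obtain ⟨x, hx1, hx2⟩ := (hA i).exists_notMem_finset Q
    exact ⟨x, hx1, hx2⟩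
  choose st h1 h2 using step
  let Qs : ℕ → Finset α := fun n => Nat.rec ∅ (fun n Q => match (Encodable.decode n : Option ι) with
    | some i => insert (st Q i) Q
    | none => Q) n
  have hQs : ∀ n, Qs (n + 1) = match (Encodable.decode n : Option ι) with
    | some i => insert (st (Qs n) i) (Qs n)
    | none => Qs n := fun n => rfl
  have hmono : Monotone Qs := by
    refine monotone_nat_of_le_succ fun n => ?_
    rw [hQs]
    split
    · exact Finset.subset_insert _ _
    · exact le_refl _
  have hmem : ∀ i : ι, st (Qs (Encodable.encode i)) i ∈ Qs (Encodable.encode i + 1) := by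
    intro i
    rw [hQs, Encodable.encodek]
    exact Finset.mem_insert_self _ _
  refine ⟨fun i => st (Qs (Encodable.encode i)) i, fun i j hij => ?_, fun i => h1 _ _⟩
  simp only at hij
  rcases lt_trichotomy (Encodable.encode i) (Encodable.encode j) with h | h | h
  · exfalso
    have h3 := hmono (show Encodable.encode i + 1 ≤ Encodable.encode j from h) (hmem i)
    rw [hij] at h3
    exact h2 _ _ h3
  · exact Encodable.encode_injective h
  · exfalso
    have h3 := hmono (show Encodable.encode j + 1 ≤ Encodable.encode i from h) (hmem j)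
    rw [← hij] at h3
    exact h2 _ _ h3

theorem avoid2 {p : ℕ} (hp : p.Prime) (D : Finset (ZMod p × ZMod p)) (hD : D.card < p)
    (hD0 : ∀ d ∈ D, d ≠ 0) : ∃ x : ZMod p, ∀ d ∈ D, d.1 * x + d.2 ≠ 0 := by
  classical
  have : Fact p.Prime := ⟨hp⟩
  obtain ⟨x, hx⟩ := avoid' hp (D.filter (fun d => d.1 ≠ 0)) (lt_of_le_of_lt (card_filter_le _ _) hD)
    (fun d hd => (mem_filter.1 hd).2)
  refine ⟨x, fun d hd => ?_⟩
  by_cases h : d.1 = 0
  · rw [h, zero_mul, zero_add]
    intro h2
    exact hD0 d hd (Prod.ext h h2)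
  · exact hx d (mem_filter.2 ⟨hd, h⟩)

variable {r : ℕ}

theorem strong_mono {e : List (Fin r) → List (Fin r)} (he : ∀ w i, (e w ++ [i]) <+: e (w ++ [i]))
    {w w' : List (Fin r)} (h : w <+: w') : e w <+: e w' := by
  obtain ⟨u, rfl⟩ := h
  induction u using List.reverseRecOn with
  | nil => simp
  | append_singleton u i ih =>
    rw [← List.append_assoc]
    exact ih.trans ((List.prefix_append _ _).trans (he _ i))

theorem strong_inj {e : List (Fin r) → List (Fin r)} {n : ℕ → ℕ} (hn : StrictMono n)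
    (hl : ∀ w, (e w).length = n w.length) (he : ∀ w i, (e w ++ [i]) <+: e (w ++ [i])) :
    Function.Injective e := by
  intro w
  induction w using List.reverseRecOn with
  | nil =>
    intro w' h
    have h1 := congrArg List.length h
    rw [hl, hl] at h1
    exact (List.length_eq_zero_iff.1 (hn.injective h1).symm).symm
  | append_singleton w i ih =>
    intro w'
    induction w' using List.reverseRecOn with
    | nil =>
      intro h
      have h1 := congrArg List.length h
      rw [hl, hl] at h1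
      have := hn.injective h1
      simp at this
    | append_singleton w' i' _ =>
      intro h
      have h1 := congrArg List.length h
      rw [hl, hl] at h1
      have h2 := hn.injective h1
      have h3 : w.length = w'.length := by simpa using h2
      have h4 := he w i
      have h5 := he w' i'
      rw [← h] at h5
      have h6 : (e w ++ [i]).length = (e w' ++ [i']).length := by
        simp only [List.length_append, List.length_singleton, hl, h3]
      have h7 : e w ++ [i] = e w' ++ [i'] := List.prefix_of_prefix_length_le h4 h5 h6.le |>.eq_of_length h6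
      have h8 := List.append_inj' h7 rfl
      rw [ih h8.1]
      have h9 : i = i' := by simpa using h8.2
      rw [h9]

/-- **arbitrary infinite sets of forms at the words** -/
theorem forest (r : ℕ) (hr : 1 ≤ r) (F : List (Fin r) → Set (ℤ × ℤ)) (hinf : ∀ s, (F s).Infinite)
    (hprim : ∀ s, ∀ g ∈ F s, 1 ≤ g.1 ∧ IsCoprime g.1 g.2) :
    ∃ (n : ℕ → ℕ) (e : List (Fin r) → List (Fin r)) (g : List (Fin r) → ℤ × ℤ) (G : Set (ℤ × ℤ)),
      StrictMono n ∧ (∀ w, (e w).length = n w.length) ∧ (∀ w i, (e w ++ [i]) <+: e (w ++ [i])) ∧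
      Function.Injective g ∧ (∀ w, g w ∈ F (e w) ∧ g w ∈ G) ∧ (∀ x ∈ G, ∃ s, x ∈ F s) ∧
      ∀ T : Finset (ℤ × ℤ), (∀ x ∈ T, 1 ≤ x.1) →
        {x : ℕ | ∀ f ∈ T, (Nat.Prime (f.1 * x + f.2).toNat ↔ f ∈ G)}.Infinite := by
  classical
  obtain ⟨K, hK1, hKK⟩ := array r hr
  set Q : ℕ → ℕ := fun t => ∑ l ∈ range (t + 1), r ^ l * K l + r ^ (t + 1) with hQ
  have hQt : ∀ t, t ≤ Q t := by
    intro t
    have h1 : ∑ l ∈ range (t + 1), 1 ≤ ∑ l ∈ range (t + 1), r ^ l * K l :=
      Finset.sum_le_sum fun l _ => Nat.mul_pos (by positivity) (hK1 l)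
    simp only [Finset.sum_const, Finset.card_range, smul_eq_mul, mul_one] at h1
    simp only [hQ]
    omega
  have hQmono : Monotone Q := by
    refine monotone_nat_of_le_succ fun t => ?_
    simp only [hQ]
    rw [Finset.sum_range_succ _ (t + 1)]
    have h1 : r ^ (t + 1) ≤ r ^ (t + 1) * K (t + 1) := Nat.le_mul_of_pos_right _ (hK1 _)
    omega
  -- the residues of a form
  let ty : ∀ m : ℕ, ℤ × ℤ → ZMod (m + 1) × ZMod (m + 1) := fun m g => ((g.1 : ZMod (m + 1)), (g.2 : ZMod (m + 1)))
  set φ : List (Fin r) → ℕ → ℤ × ℤ := fun s j => ((hinf s).natEmbedding (F s) j).1 with hφ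
  have hφF : ∀ s j, φ s j ∈ F s := fun s j => ((hinf s).natEmbedding (F s) j).2
  have hφinj : ∀ s, Function.Injective (φ s) := fun s i j h => ((hinf s).natEmbedding (F s)).injective (Subtype.ext h)
  have hτ : ∀ (m : ℕ) (s : List (Fin r)), ∃ v, ∀ᶠ j in (Filter.hyperfilter ℕ : Filter ℕ), ty m (φ s j) = v :=
    fun m s => lim_val _
  choose τ hτ using hτ
  have hprime0 : ∀ (m : ℕ), (m + 1).Prime → ∀ s, ∀ g ∈ F s, ty m g ≠ 0 := by
    intro m hm s g hg h
    have h1 : ((g.1 : ℤ) : ZMod (m + 1)) = 0 := (Prod.ext_iff.1 h).1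
    have h2 : ((g.2 : ℤ) : ZMod (m + 1)) = 0 := (Prod.ext_iff.1 h).2
    rw [ZMod.intCast_zmod_eq_zero_iff_dvd] at h1 h2
    exact (Nat.prime_iff_prime_int.1 hm).not_isUnit ((hprim s g hg).2.isUnit_of_dvd' h1 h2)
  obtain ⟨n1, e1, hn1, hl1, he1, hcol⟩ := homog hr
    (κ := fun t => (m : Fin (Q t + 1)) → ZMod (m.1 + 1) × ZMod (m.1 + 1)) (fun t s m => τ m.1 s)
  -- choice of the forms
  obtain ⟨h, hhinj, hhA⟩ := sel (ι := List (Fin r) × ℕ)
    (fun q => {g | g ∈ F (e1 q.1) ∧ ∀ m ∈ range (Q q.1.length + 1), ty m g = τ m (e1 q.1)}) (by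
      rintro ⟨w, j⟩
      have h1 : ∀ᶠ j in (Filter.hyperfilter ℕ : Filter ℕ), ∀ m ∈ range (Q w.length + 1),
          ty m (φ (e1 w) j) = τ m (e1 w) := by
        rw [Filter.eventually_all_finset]
        intro m _
        exact hτ m (e1 w)
      have h2 : {j | ∀ m ∈ range (Q w.length + 1), ty m (φ (e1 w) j) = τ m (e1 w)}.Infinite := by
        intro hfin
        have h3 := Filter.Eventually.and h1 (hfin.compl_mem_hyperfilter)
        obtain ⟨j, hj1, hj2⟩ := h3.exists
        exact hj2 hj1
      refine (h2.image (hφinj (e1 w)).injOn).mono ?_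
      rintro g ⟨j, hj, rfl⟩
      exact ⟨hφF _ _, hj⟩)
  obtain ⟨G, n2, e2, c, hn2, hl2, he2, hec, hG, hT⟩ := hKK (fun w j => h (w, j))
    (fun w j _ => hprim _ _ (hhA (w, j)).1)
    (fun w j w' j' _ _ heq => by
      have := hhinj heq
      exact ⟨(Prod.ext_iff.1 this).1, (Prod.ext_iff.1 this).2⟩)
    (by
      intro p hp
      obtain ⟨m, rfl⟩ : ∃ m, p = m + 1 := ⟨p - 1, by have := hp.pos; omega⟩
      have : Fact (m + 1).Prime := ⟨hp⟩
      have hex : ∃ t, m + 1 ≤ Q t := ⟨m + 1, hQt _⟩
      set t0 := Nat.find hex with ht0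
      have hspec : m + 1 ≤ Q t0 := Nat.find_spec hex
      set D1 : Finset (ZMod (m + 1) × ZMod (m + 1)) := (range t0).biUnion (fun l =>
        (univ : Finset (List.Vector (Fin r) l × Fin (K l))).image (fun q => ty m (h (q.1.1, q.2)))) with hD1
      set D2 : Finset (ZMod (m + 1) × ZMod (m + 1)) := (univ : Finset (List.Vector (Fin r) t0)).image
        (fun q => τ m (e1 q.1)) with hD2
      have hD1c : D1.card ≤ ∑ l ∈ range t0, r ^ l * K l := by
        refine card_biUnion_le.trans (Finset.sum_le_sum fun l _ => card_image_le.trans ?_)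
        rw [card_univ, Fintype.card_prod, card_vector, Fintype.card_fin, Fintype.card_fin]
      have hD2c : D2.card ≤ r ^ t0 := by
        refine card_image_le.trans ?_
        rw [card_univ, card_vector, Fintype.card_fin]
      have hcard : (D1 ∪ D2).card < m + 1 := by
        refine lt_of_le_of_lt (card_union_le _ _) ?_
        rcases Nat.eq_zero_or_pos t0 with h0 | h0
        · rw [h0] at hD1c hD2c
          simp only [range_zero, sum_empty, pow_zero] at hD1c hD2c
          have := hp.two_le
          omega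
        · have h1 := Nat.find_min hex (show t0 - 1 < Nat.find hex by omega)
          have h2 : t0 - 1 + 1 = t0 := by omega
          simp only [hQ, h2] at h1
          omega
      obtain ⟨x, hx⟩ := avoid2 hp (D1 ∪ D2) hcard (by
        intro d hd
        rw [mem_union, hD1, hD2, mem_biUnion, mem_image] at hd
        rcases hd with ⟨l, _, hd⟩ | ⟨q, _, rfl⟩
        · rw [mem_image] at hd
          obtain ⟨q, _, rfl⟩ := hd
          exact hprime0 m hp _ _ (hhA (q.1.1, q.2)).1
        · obtain ⟨j, hj⟩ := (hτ m (e1 q.1)).exists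
          rw [← hj]
          exact hprime0 m hp _ _ (hφF _ _))
      refine ⟨x.val, fun w j hj hdvd => ?_⟩
      have h3 := (ZMod.intCast_zmod_eq_zero_iff_dvd _ (m + 1)).2 hdvd
      push_cast at h3
      rw [ZMod.natCast_zmod_val] at h3
      refine hx (ty m (h (w, j))) ?_ h3
      rcases Nat.lt_or_ge w.length t0 with h1 | h1
      · refine mem_union_left _ ?_
        rw [hD1, mem_biUnion]
        refine ⟨w.length, mem_range.2 h1, ?_⟩
        rw [mem_image]
        exact ⟨(⟨w, rfl⟩, ⟨j, hj⟩), mem_univ _, rfl⟩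
      · refine mem_union_right _ ?_
        have h4 : ty m (h (w, j)) = τ m (e1 w) := (hhA (w, j)).2 m (mem_range.2 (by
          have := hQmono h1
          change m < Q w.length + 1
          omega))
        have h5 := congrFun (hcol t0 w h1) ⟨m, by omega⟩
        simp only at h5
        rw [h4, h5, hD2, mem_image]
        exact ⟨⟨w.take t0, by rw [List.length_take]; omega⟩, mem_univ _, rfl⟩)
  refine ⟨fun k => n1 (n2 k), fun w => e1 (e2 w), fun w => h (e2 w, c w), G, hn1.comp hn2, fun w => ?_,
    fun w i => ?_, fun w w' heq => ?_, fun w => ⟨(hhA (e2 w, c w)).1, (hec w).2⟩, fun x hx => ?_, hT⟩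
  · rw [hl1, hl2]
  · exact (he1 (e2 w) i).trans (strong_mono he1 (he2 w i))
  · have h1 := hhinj heq
    exact strong_inj hn2 hl2 he2 (Prod.ext_iff.1 h1).1
  · obtain ⟨w, j, _, rfl⟩ := hG x hx
    exact ⟨_, (hhA (w, j)).1⟩

end Pool.Agent.H569.TR
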